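import Mathlib

/-! Basic definitions for the computer-assisted proof of S03669 (Lin-Ni problem). -/

set_option autoImplicit false

namespace Pool.Agent.H228

/-- the nonlinearity -/
def f (v : ℝ) : ℝ := v ^ 4 + v ^ 7

/-- clamp to `[-1/2, 3]` -/
noncomputable def cl (v : ℝ) : ℝ := max (-1 / 2) (min v 3)

/-- the clamped nonlinearity -/
noncomputable def F (v : ℝ) : ℝ := f (cl v)

/-- `u`, with derivative `u1`, is the solution of `u'' + (2/t) u' + F(u) = 0`, `u(0) = α`,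
`u'(0) = 0` on the whole line. -/
structure IsSol (α : ℝ) (u u1 : ℝ → ℝ) : Prop where
  z0 : u 0 = α
  z1 : u1 0 = 0
  h0 : ∀ t, HasDerivAt u (u1 t) t
  h1z : HasDerivAt u1 (-(F α) / 3) 0
  h1 : ∀ t, t ≠ 0 → HasDerivAt u1 (-(2 / t) * u1 t - F (u t)) t

/-- locally Lipschitz dependence on the initial value -/
def Dep (u u1 : ℝ → ℝ → ℝ) : Prop :=
  ∀ T : ℝ, ∃ C : ℝ, ∀ α ∈ Set.Icc (0:ℝ) 2, ∀ β ∈ Set.Icc (0:ℝ) 2, ∀ t ∈ Set.Icc (0:ℝ) T,
    |u α t - u β t| ≤ C * |α - β| ∧ |u1 α t - u1 β t| ≤ C * |α - β|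

/-- `T` is the first zero of `u` -/
def Hit (u : ℝ → ℝ) (T : ℝ) : Prop := 0 < T ∧ u T = 0 ∧ ∀ t ∈ Set.Ico (0:ℝ) T, 0 < u t

end Pool.Agent.H228
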