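import Mathlib
import Pool.Agent.H228.Defs

/-! TASK B (final assembly): from the facts about the first zero `T` to the frozen statement. -/

set_option autoImplicit false

namespace Pool.Agent.H228

open Set

theorem anti_of_neg {α : ℝ} {u u1 : ℝ → ℝ} (hu : IsSol α u u1) (hneg : ∀ t, 0 < t → u1 t < 0) :
    StrictAntiOn u (Ici 0) := by
  apply strictAntiOn_of_deriv_neg (convex_Ici 0)
  · exact fun t _ => (hu.h0 t).continuousAt.continuousWithinAt
  · intro t ht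
    rw [interior_Ici] at ht
    rw [(hu.h0 t).deriv]
    exact hneg t ht

theorem hit_unique {v : ℝ → ℝ} {s t : ℝ} (hs : Hit v s) (ht : Hit v t) : s = t := by
  rcases lt_trichotomy s t with h | h | h
  · have := ht.2.2 s ⟨hs.1.le, h⟩
    rw [hs.2.1] at this
    exact absurd this (lt_irrefl _)
  · exact h
  · have := hs.2.2 t ⟨ht.1.le, h⟩
    rw [ht.2.1] at this
    exact absurd this (lt_irrefl _)

theorem F_eq {v : ℝ} (h0 : 0 ≤ v) (h2 : v ≤ 2) : F v = v ^ 4 + v ^ 7 := by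
  have h1 : min v 3 = v := min_eq_left (by linarith)
  have h2 : max (-1 / 2) v = v := max_eq_right (by linarith)
  simp only [F, cl, f, h1, h2]

/-- `T` is continuous where it is finite (transversality: `u1 α T < 0`). -/
theorem hit_continuous (u u1 : ℝ → ℝ → ℝ) (hu : ∀ α, IsSol α (u α) (u1 α)) (hdep : Dep u u1)
    (hneg : ∀ α, 0 < α → ∀ t, 0 < t → u1 α t < 0)
    {a b : ℝ} (ha : 0 ≤ a) (hb : b < 2) (T : ℝ → ℝ) (hT : ∀ α ∈ Ioo a b, Hit (u α) (T α)) :
    ContinuousOn T (Ioo a b) := by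
  rw [Metric.continuousOn_iff]
  intro α₀ hα₀ ε hε
  obtain ⟨hT0, hTz, hTpos⟩ := hT α₀ hα₀
  have hα₀pos : 0 < α₀ := lt_of_le_of_lt ha hα₀.1
  set e : ℝ := min (ε / 2) (T α₀ / 2) with he
  have he0 : 0 < e := lt_min (by linarith) (by linarith)
  have he1 : e ≤ ε / 2 := min_le_left _ _
  have he2 : e ≤ T α₀ / 2 := min_le_right _ _
  have hanti : StrictAntiOn (u α₀) (Ici 0) := anti_of_neg (hu α₀) (hneg α₀ hα₀pos)
  have hm1 : u α₀ (T α₀ + e) < 0 := by
    rw [← hTz]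
    exact hanti (mem_Ici.2 hT0.le) (mem_Ici.2 (by linarith)) (by linarith)
  have hm2 : 0 < u α₀ (T α₀ - e) := hTpos _ ⟨by linarith, by linarith⟩
  obtain ⟨C, hC⟩ := hdep (T α₀ + e)
  set m : ℝ := min (-u α₀ (T α₀ + e)) (u α₀ (T α₀ - e)) with hm
  have hm0 : 0 < m := lt_min (by linarith) hm2
  refine ⟨m / (|C| + 1), by positivity, fun α hα hdist => ?_⟩
  obtain ⟨hTα0, hTαz, hTαpos⟩ := hT α hα
  have hαI : α ∈ Icc (0:ℝ) 2 := ⟨by linarith [hα.1], by linarith [hα.2]⟩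
  have hα₀I : α₀ ∈ Icc (0:ℝ) 2 := ⟨by linarith [hα₀.1], by linarith [hα₀.2]⟩
  have hclose : ∀ t ∈ Icc (0:ℝ) (T α₀ + e), |u α t - u α₀ t| < m := by
    intro t ht
    have h1 := (hC α hαI α₀ hα₀I t ht).1
    rw [Real.dist_eq] at hdist
    have h2 : C * |α - α₀| ≤ |C| * |α - α₀| :=
      mul_le_mul_of_nonneg_right (le_abs_self C) (abs_nonneg _)
    have h3 : (|C| + 1) * |α - α₀| < m := by
      rw [lt_div_iff₀ (by positivity)] at hdist
      linarith
    have h4 : 0 ≤ |α - α₀| := abs_nonneg _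
    linarith
  have hup : T α < T α₀ + e := by
    by_contra hcon
    push Not at hcon
    have h1 := (abs_lt.1 (hclose (T α₀ + e) ⟨by linarith, le_rfl⟩)).2
    have h2 : m ≤ -u α₀ (T α₀ + e) := min_le_left _ _
    have h3 : u α (T α₀ + e) < 0 := by linarith
    rcases hcon.lt_or_eq with h4 | h4
    · have := hTαpos (T α₀ + e) ⟨by linarith, h4⟩
      linarith
    · rw [h4, hTαz] at h3
      exact absurd h3 (lt_irrefl _)
  have hdown : T α₀ - e < T α := by
    by_contra hcon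
    push Not at hcon
    have h1 := (abs_lt.1 (hclose (T α) ⟨hTα0.le, by linarith⟩)).1
    have h2 : m ≤ u α₀ (T α₀ - e) := min_le_right _ _
    have h3 : u α₀ (T α₀ - e) ≤ u α₀ (T α) :=
      hanti.antitoneOn (mem_Ici.2 hTα0.le) (mem_Ici.2 (by linarith)) hcon
    rw [hTαz] at h1
    linarith
  rw [Real.dist_eq, abs_lt]
  constructor <;> linarith

/- Proof sketch of `assemble`. (1) For `0 < a < 2`: `(l,a) ∈ S` iff `0 < l` and `Hit (u a) (√l)`.
(=>) given `w` (C^2 near `[0,1]`) put `v t = w (t/√l)`, `v1 t = deriv w (t/√l)/√l` on `[0, √l]`; from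
`(r^2 w')' = -l r^2 (w^4 + w^7) ≤ 0` one gets `w' ≤ 0`, so `0 ≤ w ≤ a < 2`, hence `F v = v^4 + v^7`, and
`huniq` gives `v = u a` on `[0, √l]`. (<=) take `w r = u a (√l r)` (`hC2`), `0 ≤ u a ≤ a` on `[0, √l]`.
Points of `S` have `a > 0`. (2) `C1 = image of a ↦ (T a ^ 2, a)` on `(0, α₁)` is preconnected
(`hit_continuous`), contained in `S`; a preconnected subset of `S` containing a point with `a < α₁` stays in
`{a < α₁}` because no point of `S` has `a = α₁`. Same for `C2` on `(α₁, α₂)`, `{α₁ < a < α₂}`. So the two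
components are exactly `C1`, `C2` (first zero is unique). (3) all other points of `S` have `a > α₂`. -/

/-- the membership condition of the frozen statement -/
def Mem (l a : ℝ) : Prop := 0 < l ∧ ∃ u : ℝ → ℝ, ∃ ε : ℝ, 0 < ε ∧
  ContDiffOn ℝ 2 u (Set.Ioo (-ε) (1 + ε)) ∧
  u 0 = a ∧ deriv u 0 = 0 ∧ u 1 = 0 ∧
  (∀ r ∈ Set.Ico (0:ℝ) 1, 0 < u r) ∧
  ∀ r ∈ Set.Ioc (0:ℝ) 1,
    deriv (deriv u) r + 2 / r * deriv u r + l * (u r ^ 4 + u r ^ 7) = 0

theorem Mem.pos {l a : ℝ} (h : Mem l a) : 0 < a := by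
  obtain ⟨_, w, ε, _, _, h0, _, _, hpos, _⟩ := h
  rw [← h0]
  exact hpos 0 ⟨le_rfl, one_pos⟩

theorem Mem.hit (u u1 : ℝ → ℝ → ℝ)
    (huniq : ∀ {α T : ℝ}, 0 < T → ∀ {v v1 : ℝ → ℝ}, v 0 = α → ContinuousOn v (Icc 0 T) →
      ContinuousOn v1 (Icc 0 T) → (∀ t ∈ Ioo 0 T, HasDerivAt v (v1 t) t) →
      (∀ t ∈ Ioo 0 T, HasDerivAt v1 (-(2 / t) * v1 t - F (v t)) t) →
      ∀ t ∈ Icc 0 T, v t = u α t ∧ v1 t = u1 α t) {l a : ℝ} (h : Mem l a) (ha : a < 2) :
    Hit (u a) (Real.sqrt l) := by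
  obtain ⟨hl, w, ε, hε, hw, hw0, hw'0, hw1, hpos, hode⟩ := h
  have hT : 0 < Real.sqrt l := Real.sqrt_pos.2 hl
  set T := Real.sqrt l with hTdef
  have hTl : T ^ 2 = l := Real.sq_sqrt hl.le
  have hopen : IsOpen (Set.Ioo (-ε) (1 + ε)) := isOpen_Ioo
  have hw2 : ContDiffOn ℝ (1 + 1) w (Set.Ioo (-ε) (1 + ε)) := by
    have e : ((1 : WithTop ℕ∞) + 1) = 2 := by norm_num
    rw [e]
    exact hw
  obtain ⟨hd1, -, hd2⟩ := (contDiffOn_succ_iff_deriv_of_isOpen hopen).1 hw2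
  have hd3 : DifferentiableOn ℝ (deriv w) (Set.Ioo (-ε) (1 + ε)) :=
    hd2.differentiableOn (by norm_num)
  have hsub : ∀ r ∈ Icc (0:ℝ) 1, r ∈ Set.Ioo (-ε) (1 + ε) := fun r hr =>
    ⟨by linarith [hr.1], by linarith [hr.2]⟩
  have hW : ∀ r ∈ Icc (0:ℝ) 1, HasDerivAt w (deriv w r) r := fun r hr =>
    ((hd1 r (hsub r hr)).differentiableAt (hopen.mem_nhds (hsub r hr))).hasDerivAt
  have hW' : ∀ r ∈ Icc (0:ℝ) 1, HasDerivAt (deriv w) (deriv (deriv w) r) r := fun r hr =>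
    ((hd3 r (hsub r hr)).differentiableAt (hopen.mem_nhds (hsub r hr))).hasDerivAt
  have hnn : ∀ r ∈ Icc (0:ℝ) 1, 0 ≤ w r := by
    intro r hr
    rcases hr.2.lt_or_eq with h | h
    · exact (hpos r ⟨hr.1, h⟩).le
    · rw [h, hw1]
  -- `r ^ 2 w'` is antitone
  have hanti : AntitoneOn (fun r => r ^ 2 * deriv w r) (Icc (0:ℝ) 1) := by
    have hder : ∀ r ∈ Icc (0:ℝ) 1, HasDerivAt (fun r => r ^ 2 * deriv w r)
        (2 * r * deriv w r + r ^ 2 * deriv (deriv w) r) r := by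
      intro r hr
      have h0 : HasDerivAt (fun r : ℝ => r ^ 2) (2 * r) r := by simpa using hasDerivAt_pow 2 r
      exact h0.fun_mul (hW' r hr)
    apply antitoneOn_of_deriv_nonpos (convex_Icc 0 1)
    · exact fun r hr => (hder r hr).continuousAt.continuousWithinAt
    · intro r hr
      rw [interior_Icc] at hr
      exact (hder r (Ioo_subset_Icc_self hr)).differentiableAt.differentiableWithinAt
    · intro r hr
      rw [interior_Icc] at hr
      have hr' := Ioo_subset_Icc_self hr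
      rw [(hder r hr').deriv]
      have h1 := hode r ⟨hr.1, hr.2.le⟩
      have h2 : 2 * r * deriv w r + r ^ 2 * deriv (deriv w) r =
          -(r ^ 2 * (l * (w r ^ 4 + w r ^ 7))) := by
        have h3 : deriv (deriv w) r = -(2 / r * deriv w r) - l * (w r ^ 4 + w r ^ 7) := by
          linarith
        rw [h3]
        have := hr.1.ne'
        field_simp
        ring
      rw [h2]
      have h3 := hnn r hr'
      have : 0 ≤ r ^ 2 * (l * (w r ^ 4 + w r ^ 7)) := by positivity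
      linarith
  have hw'neg : ∀ r ∈ Ioo (0:ℝ) 1, deriv w r ≤ 0 := by
    intro r hr
    have h1 := hanti (left_mem_Icc.2 zero_le_one) (Ioo_subset_Icc_self hr) hr.1.le
    simp only at h1
    have h2 : r ^ 2 * deriv w r ≤ 0 := by
      refine h1.trans (le_of_eq ?_)
      ring
    have h3 : 0 < r ^ 2 := by have := hr.1; positivity
    by_contra hcon
    push Not at hcon
    have := mul_pos h3 hcon
    linarith
  have hwanti : AntitoneOn w (Icc (0:ℝ) 1) := by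
    apply antitoneOn_of_deriv_nonpos (convex_Icc 0 1)
    · exact fun r hr => (hW r hr).continuousAt.continuousWithinAt
    · intro r hr
      rw [interior_Icc] at hr
      exact (hW r (Ioo_subset_Icc_self hr)).differentiableAt.differentiableWithinAt
    · intro r hr
      rw [interior_Icc] at hr
      exact hw'neg r hr
  have hle : ∀ r ∈ Icc (0:ℝ) 1, w r ≤ 2 := by
    intro r hr
    have := hwanti (left_mem_Icc.2 zero_le_one) hr hr.1
    rw [hw0] at this
    linarith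
  -- the rescaled function
  have hscale : ∀ t ∈ Icc (0:ℝ) T, t / T ∈ Icc (0:ℝ) 1 := fun t ht =>
    ⟨div_nonneg ht.1 hT.le, (div_le_one hT).2 ht.2⟩
  have hdiv : ∀ t : ℝ, HasDerivAt (fun t : ℝ => t / T) (1 / T) t := fun t =>
    (hasDerivAt_id t).div_const T
  have hv : ∀ t ∈ Icc (0:ℝ) T, HasDerivAt (fun t => w (t / T)) (deriv w (t / T) / T) t := by
    intro t ht
    have h1 : HasDerivAt (fun t => w (t / T)) (deriv w (t / T) * (1 / T)) t :=
      (hW (t / T) (hscale t ht)).comp t (hdiv t)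
    exact h1.congr_deriv (by ring)
  have hv1 : ∀ t ∈ Icc (0:ℝ) T, HasDerivAt (fun t => deriv w (t / T) / T)
      (deriv (deriv w) (t / T) / T ^ 2) t := by
    intro t ht
    have h0 : HasDerivAt (deriv w) (deriv (deriv w) (t / T)) (t / T) := hW' (t / T) (hscale t ht)
    have h1 : HasDerivAt (fun t => deriv w (t / T)) (deriv (deriv w) (t / T) * (1 / T)) t :=
      HasDerivAt.comp (h₂ := deriv w) (h := fun t => t / T) t h0 (hdiv t)
    exact (h1.div_const T).congr_deriv (by field_simp)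
  have key := huniq (α := a) (T := T) hT (v := fun t => w (t / T))
    (v1 := fun t => deriv w (t / T) / T) (by simp [hw0])
    (fun t ht => (hv t ht).continuousAt.continuousWithinAt)
    (fun t ht => (hv1 t ht).continuousAt.continuousWithinAt)
    (fun t ht => hv t (Ioo_subset_Icc_self ht))
    (by
      intro t ht
      have ht' := Ioo_subset_Icc_self ht
      have hr := hscale t ht'
      refine (hv1 t ht').congr_deriv ?_
      rw [F_eq (hnn _ hr) (hle _ hr)]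
      have hr0 : 0 < t / T := div_pos ht.1 hT
      have h2 := hode (t / T) ⟨hr0, hr.2⟩
      have h3 : deriv (deriv w) (t / T) =
          -(2 / (t / T) * deriv w (t / T)) - l * (w (t / T) ^ 4 + w (t / T) ^ 7) := by
        linarith
      rw [h3, ← hTl]
      have ht0 := ht.1.ne'
      field_simp)
  refine ⟨hT, ?_, ?_⟩
  · have h1 : w (T / T) = u a T := (key T ⟨hT.le, le_rfl⟩).1
    rw [div_self hT.ne', hw1] at h1
    exact h1.symm
  · intro t ht
    have h1 := (key t ⟨ht.1, ht.2.le⟩).1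
    rw [← h1]
    exact hpos _ ⟨div_nonneg ht.1 hT.le, (div_lt_one hT).2 ht.2⟩

theorem Mem.of_hit (u u1 : ℝ → ℝ → ℝ) (hu : ∀ α, IsSol α (u α) (u1 α))
    (hneg : ∀ α, 0 < α → ∀ t, 0 < t → u1 α t < 0)
    (hC2 : ∀ α, ContDiff ℝ 2 (u α)) {a T : ℝ} (ha0 : 0 < a) (ha2 : a < 2)
    (h : Hit (u a) T) : Mem (T ^ 2) a := by
  obtain ⟨hT, hz, hpos⟩ := h
  have hsol := hu a
  have hanti := anti_of_neg hsol (hneg a ha0)
  have hlin : ∀ r : ℝ, HasDerivAt (fun r : ℝ => T * r) T r := by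
    intro r
    simpa using (hasDerivAt_id r).const_mul T
  have hw : ∀ r : ℝ, HasDerivAt (fun r => u a (T * r)) (T * u1 a (T * r)) r := by
    intro r
    have h1 : HasDerivAt (fun r => u a (T * r)) (u1 a (T * r) * T) r :=
      (hsol.h0 (T * r)).comp r (hlin r)
    exact h1.congr_deriv (by ring)
  have hderiv : deriv (fun r => u a (T * r)) = fun r => T * u1 a (T * r) :=
    funext fun r => (hw r).deriv
  refine ⟨by positivity, fun r => u a (T * r), 1, one_pos, ?_, ?_, ?_, ?_, ?_, ?_⟩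
  · apply ContDiff.contDiffOn
    exact (hC2 a).comp (contDiff_const.mul contDiff_id)
  · simp [hsol.z0]
  · rw [hderiv]
    simp [hsol.z1]
  · simp [hz]
  · intro r hr
    exact hpos _ ⟨mul_nonneg hT.le hr.1, by nlinarith [hr.2]⟩
  · intro r hr
    have hr0 := hr.1.ne'
    have hTr : T * r ≠ 0 := mul_ne_zero hT.ne' hr0
    have h1 : HasDerivAt (fun r => T * u1 a (T * r))
        (T * ((-(2 / (T * r)) * u1 a (T * r) - F (u a (T * r))) * T)) r :=
      ((hsol.h1 (T * r) hTr).comp r (hlin r)).const_mul T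
    rw [hderiv, h1.deriv]
    have hTr0 : 0 ≤ T * r := mul_nonneg hT.le hr.1.le
    have hTrT : T * r ≤ T := by nlinarith [hr.2]
    have h2 : 0 ≤ u a (T * r) := by
      rw [← hz]
      exact hanti.antitoneOn (mem_Ici.2 hTr0) (mem_Ici.2 hT.le) hTrT
    have h3 : u a (T * r) ≤ 2 := by
      have : u a (T * r) ≤ u a 0 := hanti.antitoneOn (mem_Ici.2 le_rfl) (mem_Ici.2 hTr0) hTr0
      rw [hsol.z0] at this
      linarith
    rw [F_eq h2 h3]
    field_simp
    ring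

/-- The frozen statement from the qualitative facts. -/
theorem assemble (u u1 : ℝ → ℝ → ℝ) (hu : ∀ α, IsSol α (u α) (u1 α)) (hdep : Dep u u1)
    (hneg : ∀ α, 0 < α → ∀ t, 0 < t → u1 α t < 0)
    (hC2 : ∀ α, ContDiff ℝ 2 (u α))
    (huniq : ∀ {α T : ℝ}, 0 < T → ∀ {v v1 : ℝ → ℝ}, v 0 = α → ContinuousOn v (Icc 0 T) →
      ContinuousOn v1 (Icc 0 T) → (∀ t ∈ Ioo 0 T, HasDerivAt v (v1 t) t) →
      (∀ t ∈ Ioo 0 T, HasDerivAt v1 (-(2 / t) * v1 t - F (v t)) t) →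
      ∀ t ∈ Icc 0 T, v t = u α t ∧ v1 t = u1 α t)
    {p₁ α₁ p₂ α₂ : ℝ} (h0 : 0 < p₁) (h1 : p₁ < α₁) (h2 : α₁ < p₂) (h3 : p₂ < α₂) (h4 : α₂ < 2)
    (T : ℝ → ℝ) (hT : ∀ α ∈ Ioo 0 α₁ ∪ Ioo α₁ α₂, Hit (u α) (T α))
    (hno1 : ∀ s, ¬ Hit (u α₁) s) (hno2 : ∀ s, ¬ Hit (u α₂) s)
    (hdec1 : StrictAntiOn T (Ioc 0 p₁)) (hinc1 : StrictMonoOn T (Ico p₁ α₁))
    (hdec2 : StrictAntiOn T (Ioc α₁ p₂)) (hinc2 : StrictMonoOn T (Ico p₂ α₂)) :
    ∀ S : Set (ℝ × ℝ),
      (∀ l a : ℝ, (l, a) ∈ S ↔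
        (0 < l ∧ ∃ u : ℝ → ℝ, ∃ ε : ℝ, 0 < ε ∧
          ContDiffOn ℝ 2 u (Set.Ioo (-ε) (1 + ε)) ∧
          u 0 = a ∧ deriv u 0 = 0 ∧ u 1 = 0 ∧
          (∀ r ∈ Set.Ico (0:ℝ) 1, 0 < u r) ∧
          ∀ r ∈ Set.Ioc (0:ℝ) 1,
            deriv (deriv u) r + 2 / r * deriv u r + l * (u r ^ 4 + u r ^ 7) = 0)) →
      ∃ x1 ∈ S, ∃ x2 ∈ S,
        connectedComponentIn S x1 ≠ connectedComponentIn S x2 ∧
        (∀ y ∈ S, y ∉ connectedComponentIn S x1 → y ∉ connectedComponentIn S x2 →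
          ∀ z ∈ connectedComponentIn S x1 ∪ connectedComponentIn S x2, z.2 < y.2) ∧
        ∀ x ∈ ({x1, x2} : Set (ℝ × ℝ)),
          ∃ t ∈ connectedComponentIn S x,
            (∀ y ∈ connectedComponentIn S x, ∀ z ∈ connectedComponentIn S x,
              y.2 < z.2 → z.2 ≤ t.2 → z.1 < y.1) ∧
            (∀ y ∈ connectedComponentIn S x, ∀ z ∈ connectedComponentIn S x,
              y.2 < z.2 → t.2 ≤ y.2 → y.1 < z.1) := by
  intro S hS
  have hS' : ∀ l a, (l, a) ∈ S ↔ Mem l a := hS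
  have hchar : ∀ {l a : ℝ}, a < 2 → (l, a) ∈ S → Hit (u a) (Real.sqrt l) := fun ha h =>
    Mem.hit u u1 huniq ((hS' _ _).1 h) ha
  have hof : ∀ {a T : ℝ}, 0 < a → a < 2 → Hit (u a) T → (T ^ 2, a) ∈ S := fun h0 h2 h =>
    (hS' _ _).2 (Mem.of_hit u u1 hu hneg hC2 h0 h2 h)
  have hSpos : ∀ {y : ℝ × ℝ}, y ∈ S → 0 < y.2 := by
    rintro ⟨l, a⟩ h
    exact ((hS' _ _).1 h).pos
  have hSpos1 : ∀ {y : ℝ × ℝ}, y ∈ S → 0 < y.1 := by
    rintro ⟨l, a⟩ h
    exact ((hS' _ _).1 h).1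
  -- points of `S` over an interval where `T` is the first zero
  have hon : ∀ {y : ℝ × ℝ} {s : ℝ}, y ∈ S → y.2 < 2 → Hit (u y.2) s → y = (s ^ 2, y.2) := by
    rintro ⟨l, a⟩ s hy hy2 hs
    have h1 : Real.sqrt l = s := hit_unique (hchar hy2 hy) hs
    have h2 : l = s ^ 2 := by
      rw [← h1, Real.sq_sqrt (hSpos1 hy).le]
    rw [h2]
  have hnoS1 : ∀ y ∈ S, y.2 ≠ α₁ := by
    rintro ⟨l, a⟩ hy rfl
    exact hno1 _ (hchar (by simp only at h2 ⊢; linarith) hy)
  have hnoS2 : ∀ y ∈ S, y.2 ≠ α₂ := by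
    rintro ⟨l, a⟩ hy rfl
    exact hno2 _ (hchar (by simpa using h4) hy)
  have hTc1 : ContinuousOn T (Ioo 0 α₁) := hit_continuous u u1 hu hdep hneg le_rfl
    (by linarith) T fun α hα => hT α (Or.inl hα)
  have hTc2 : ContinuousOn T (Ioo α₁ α₂) := hit_continuous u u1 hu hdep hneg (by linarith)
    h4 T fun α hα => hT α (Or.inr hα)
  -- description of the components
  have comp : ∀ {a b p : ℝ}, 0 ≤ a → b < 2 → p ∈ Ioo a b → ContinuousOn T (Ioo a b) →
      (∀ α ∈ Ioo a b, Hit (u α) (T α)) → (∀ y ∈ S, y.2 ≠ a) → (∀ y ∈ S, y.2 ≠ b) →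
      (T p ^ 2, p) ∈ S ∧
      connectedComponentIn S (T p ^ 2, p) = (fun α => (T α ^ 2, α)) '' Ioo a b := by
    intro a b p ha hb hp hTc hhit hna hnb
    have hsub : (fun α => (T α ^ 2, α)) '' Ioo a b ⊆ S := by
      rintro _ ⟨α, hα, rfl⟩
      exact hof (by linarith [hα.1]) (by linarith [hα.2]) (hhit α hα)
    have hpS : (T p ^ 2, p) ∈ S := hsub ⟨p, hp, rfl⟩
    refine ⟨hpS, Subset.antisymm ?_ ?_⟩
    · intro y hy
      have hyS : y ∈ S := connectedComponentIn_subset _ _ hy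
      have hpre : IsPreconnected (connectedComponentIn S (T p ^ 2, p)) :=
        isPreconnected_connectedComponentIn
      have himg : IsPreconnected (Prod.snd '' connectedComponentIn S (T p ^ 2, p)) :=
        hpre.image _ continuous_snd.continuousOn
      have hord := himg.ordConnected
      have hpm : p ∈ Prod.snd '' connectedComponentIn S (T p ^ 2, p) :=
        ⟨_, mem_connectedComponentIn hpS, rfl⟩
      have hym : y.2 ∈ Prod.snd '' connectedComponentIn S (T p ^ 2, p) := ⟨y, hy, rfl⟩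
      have hyI : y.2 ∈ Ioo a b := by
        constructor
        · by_contra hcon
          push Not at hcon
          obtain ⟨z, hz, hza⟩ := hord.out hym hpm (⟨hcon, hp.1.le⟩ : a ∈ Icc y.2 p)
          exact hna z (connectedComponentIn_subset _ _ hz) hza
        · by_contra hcon
          push Not at hcon
          obtain ⟨z, hz, hza⟩ := hord.out hpm hym (⟨hp.2.le, hcon⟩ : b ∈ Icc p y.2)
          exact hnb z (connectedComponentIn_subset _ _ hz) hza
      exact ⟨y.2, hyI, (hon hyS (by linarith [hyI.2]) (hhit _ hyI)).symm⟩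
    · refine IsPreconnected.subset_connectedComponentIn ?_ ⟨p, hp, rfl⟩ hsub
      apply isPreconnected_Ioo.image
      exact (hTc.pow 2).prodMk continuousOn_id
  have hp1 : p₁ ∈ Ioo 0 α₁ := ⟨h0, h1⟩
  have hp2 : p₂ ∈ Ioo α₁ α₂ := ⟨h2, h3⟩
  obtain ⟨hx1, hC1⟩ := comp (a := 0) (b := α₁) (p := p₁) le_rfl (by linarith) hp1 hTc1
    (fun α hα => hT α (Or.inl hα)) (fun y hy h => by
      have := hSpos hy
      linarith) hnoS1
  obtain ⟨hx2, hC2'⟩ := comp (a := α₁) (b := α₂) (p := p₂) (by linarith) h4 hp2 hTc2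
    (fun α hα => hT α (Or.inr hα)) hnoS1 hnoS2
  refine ⟨(T p₁ ^ 2, p₁), hx1, (T p₂ ^ 2, p₂), hx2, ?_, ?_, ?_⟩
  · intro heq
    have hmem : (T p₁ ^ 2, p₁) ∈ connectedComponentIn S (T p₂ ^ 2, p₂) := by
      rw [← heq]
      exact mem_connectedComponentIn hx1
    rw [hC2'] at hmem
    obtain ⟨α, hα, hαe⟩ := hmem
    have : α = p₁ := congrArg Prod.snd hαe
    rw [this] at hα
    linarith [hα.1]
  · intro y hy hn1 hn2 z hz
    rw [hC1] at hn1
    rw [hC2'] at hn2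
    have hy0 := hSpos hy
    have hybig : α₂ < y.2 := by
      by_contra hcon
      push Not at hcon
      have hlt : y.2 < α₂ := lt_of_le_of_ne hcon (hnoS2 y hy)
      rcases lt_or_gt_of_ne (hnoS1 y hy) with h | h
      · exact hn1 ⟨y.2, ⟨hy0, h⟩,
          (hon hy (by linarith) (hT _ (Or.inl ⟨hy0, h⟩))).symm⟩
      · exact hn2 ⟨y.2, ⟨h, hlt⟩,
          (hon hy (by linarith) (hT _ (Or.inr ⟨h, hlt⟩))).symm⟩
    rw [hC1, hC2'] at hz
    rcases hz with ⟨α, hα, rfl⟩ | ⟨α, hα, rfl⟩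
    · simp only
      linarith [hα.2]
    · simp only
      linarith [hα.2]
  · have sq_lt : ∀ {s t : ℝ}, 0 < s → s < t → s ^ 2 < t ^ 2 := fun hs hst =>
      pow_lt_pow_left₀ hst hs.le (by norm_num)
    rintro x (rfl | rfl)
    · refine ⟨(T p₁ ^ 2, p₁), mem_connectedComponentIn hx1, ?_, ?_⟩
      · intro y hy z hz hyz hzt
        rw [hC1] at hy hz
        obtain ⟨b, hb, rfl⟩ := hy
        obtain ⟨c, hc, rfl⟩ := hz
        simp only at hyz hzt ⊢
        exact sq_lt (hT c (Or.inl hc)).1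
          (hdec1 ⟨hb.1, by linarith⟩ ⟨hc.1, hzt⟩ hyz)
      · intro y hy z hz hyz hzt
        rw [hC1] at hy hz
        obtain ⟨b, hb, rfl⟩ := hy
        obtain ⟨c, hc, rfl⟩ := hz
        simp only at hyz hzt ⊢
        exact sq_lt (hT b (Or.inl hb)).1
          (hinc1 ⟨hzt, hb.2⟩ ⟨by linarith, hc.2⟩ hyz)
    · refine ⟨(T p₂ ^ 2, p₂), mem_connectedComponentIn hx2, ?_, ?_⟩
      · intro y hy z hz hyz hzt
        rw [hC2'] at hy hz
        obtain ⟨b, hb, rfl⟩ := hy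
        obtain ⟨c, hc, rfl⟩ := hz
        simp only at hyz hzt ⊢
        exact sq_lt (hT c (Or.inr hc)).1
          (hdec2 ⟨hb.1, by linarith⟩ ⟨hc.1, hzt⟩ hyz)
      · intro y hy z hz hyz hzt
        rw [hC2'] at hy hz
        obtain ⟨b, hb, rfl⟩ := hy
        obtain ⟨c, hc, rfl⟩ := hz
        simp only at hyz hzt ⊢
        exact sq_lt (hT b (Or.inr hb)).1
          (hinc2 ⟨hzt, hb.2⟩ ⟨by linarith, hc.2⟩ hyz)

end Pool.Agent.H228
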