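import Mathlib

/-! TASK P: divided differences of `v^4 + c v^7`. -/

set_option autoImplicit false

namespace Pool.Agent.H228

/-- `v^4 + c v^7` -/
def fc (c v : ℝ) : ℝ := v ^ 4 + c * v ^ 7

/-- first divided difference of `fc c` -/
def q2 (c x y : ℝ) : ℝ :=
  (x ^ 3 + x ^ 2 * y + x * y ^ 2 + y ^ 3) +
    c * (x ^ 6 + x ^ 5 * y + x ^ 4 * y ^ 2 + x ^ 3 * y ^ 3 + x ^ 2 * y ^ 4 + x * y ^ 5 + y ^ 6)

/-- second divided difference of `fc c`: all monomials of degree 2, and `c` times all monomials of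
degree 5, in three variables -/
def q3 (c x y z : ℝ) : ℝ :=
  (x ^ 2 + y ^ 2 + z ^ 2 + x * y + x * z + y * z) +
    c * (x ^ 5 + y ^ 5 + z ^ 5 + x ^ 4 * y + x ^ 4 * z + y ^ 4 * x + y ^ 4 * z + z ^ 4 * x + z ^ 4 * y
      + x ^ 3 * y ^ 2 + x ^ 3 * z ^ 2 + y ^ 3 * x ^ 2 + y ^ 3 * z ^ 2 + z ^ 3 * x ^ 2 + z ^ 3 * y ^ 2
      + x ^ 3 * y * z + y ^ 3 * x * z + z ^ 3 * x * y
      + x ^ 2 * y ^ 2 * z + x ^ 2 * z ^ 2 * y + y ^ 2 * z ^ 2 * x)

theorem q2_spec (c x y : ℝ) : fc c x - fc c y = q2 c x y * (x - y) := by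
  unfold fc q2; ring

theorem q3_spec (c x y z : ℝ) : q2 c y z - q2 c x y = q3 c x y z * (z - x) := by
  unfold q2 q3; ring

/-! auxiliary: complete homogeneous polynomials -/

/-- complete homogeneous symmetric polynomial of degree `k` in the entries of `l` -/
def hh : List ℝ → ℕ → ℝ
  | [], 0 => 1
  | [], (_ + 1) => 0
  | (_ :: _), 0 => 1
  | (x :: l), (k + 1) => hh l (k + 1) + x * hh (x :: l) k

/-- the number of monomials of degree `k` in `m` variables -/
def nn : ℕ → ℕ → ℕ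
  | 0, 0 => 1
  | 0, (_ + 1) => 0
  | (_ + 1), 0 => 1
  | (m + 1), (k + 1) => nn m (k + 1) + nn (m + 1) k

theorem hh_bound {U : ℝ} (l : List ℝ) (hl : ∀ t ∈ l, |t| ≤ U) (k : ℕ) :
    |hh l k| ≤ nn l.length k * U ^ k := by
  induction l generalizing k with
  | nil =>
    cases k with
    | zero => simp [hh, nn]
    | succ k => simp [hh, nn]
  | cons x l ihl =>
    have hU : 0 ≤ U := le_trans (abs_nonneg _) (hl x (by simp))
    induction k with
    | zero => simp [hh, nn]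
    | succ k ihk =>
      have h1 := ihl (fun t ht => hl t (by simp [ht])) (k + 1)
      have h2 : |x * hh (x :: l) k| ≤ U * (nn (x :: l).length k * U ^ k) := by
        rw [abs_mul]
        exact mul_le_mul (hl x (by simp)) ihk (abs_nonneg _) hU
      simp only [hh, List.length_cons, nn]
      simp only [List.length_cons] at h2
      push_cast
      refine (abs_add_le _ _).trans ?_
      calc |hh l (k + 1)| + |x * hh (x :: l) k| ≤
          nn l.length (k + 1) * U ^ (k + 1) + U * (nn (l.length + 1) k * U ^ k) := add_le_add h1 h2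
        _ = (nn l.length (k + 1) + nn (l.length + 1) k) * U ^ (k + 1) := by ring

/-- third divided difference -/
def q4 (c x t y z : ℝ) : ℝ := hh [x, t, y, z] 1 + c * hh [x, t, y, z] 4

theorem q3_eq (c x y z : ℝ) : q3 c x y z = hh [x, y, z] 2 + c * hh [x, y, z] 5 := by
  simp only [q3, hh]; ring

theorem q2_eq (c x y : ℝ) : q2 c x y = hh [x, y] 3 + c * hh [x, y] 6 := by
  simp only [q2, hh]; ring

theorem q4_spec (c x t y z : ℝ) : q3 c x y z - q3 c t y z = q4 c x t y z * (x - t) := by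
  simp only [q3, q4, hh]; ring

theorem q3_symm (c x y z : ℝ) : q3 c x y z = q3 c y x z := by
  simp only [q3]; ring

theorem q3_symm' (c x y z : ℝ) : q3 c x y z = q3 c z y x := by
  simp only [q3]; ring

theorem q2_symm (c x y : ℝ) : q2 c x y = q2 c y x := by
  simp only [q2]; ring

/-- two-sided bound -/
theorem q2_bounds {c x y ν U : ℝ} (hc0 : 0 ≤ c) (hc1 : c ≤ 1) (hν : 0 ≤ ν) (hνU : ν ≤ U)
    (hx : -ν ≤ x) (hx' : x ≤ U) (hy : -ν ≤ y) (hy' : y ≤ U) :
    -(4 * ν ^ 3) ≤ q2 c x y ∧ q2 c x y ≤ 4 * U ^ 3 + 7 * c * U ^ 6 := by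
  constructor
  · have h6 : 0 ≤ x ^ 6 + x ^ 5 * y + x ^ 4 * y ^ 2 + x ^ 3 * y ^ 3 + x ^ 2 * y ^ 4 + x * y ^ 5 + y ^ 6 := by
      have e : x ^ 6 + x ^ 5 * y + x ^ 4 * y ^ 2 + x ^ 3 * y ^ 3 + x ^ 2 * y ^ 4 + x * y ^ 5 + y ^ 6 =
          (x ^ 6 + x ^ 4 * (x + y) ^ 2 + x ^ 2 * y ^ 2 * (x + y) ^ 2 + y ^ 4 * (x + y) ^ 2 + y ^ 6) / 2 := by
        ring
      rw [e]
      positivity
    have h3 : -(4 * ν ^ 3) ≤ x ^ 3 + x ^ 2 * y + x * y ^ 2 + y ^ 3 := by
      have e : x ^ 3 + x ^ 2 * y + x * y ^ 2 + y ^ 3 = (x + y) * (x ^ 2 + y ^ 2) := by ring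
      rw [e]
      by_cases hs : 0 ≤ x + y
      · have h1 : 0 ≤ (x + y) * (x ^ 2 + y ^ 2) := by positivity
        have h2 : 0 ≤ ν ^ 3 := by positivity
        linarith
      · push Not at hs
        have hxn : x ^ 2 ≤ ν ^ 2 := by
          apply sq_le_sq' <;> linarith
        have hyn : y ^ 2 ≤ ν ^ 2 := by
          apply sq_le_sq' <;> linarith
        have h1 : -(x + y) ≤ 2 * ν := by linarith
        have h2 : -(x + y) * (x ^ 2 + y ^ 2) ≤ (2 * ν) * (ν ^ 2 + ν ^ 2) := by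
          apply mul_le_mul h1 (by linarith) (by positivity) (by linarith)
        nlinarith
    have h7 := mul_nonneg hc0 h6
    unfold q2
    linarith
  · have hxU : |x| ≤ U := abs_le.2 ⟨by linarith, hx'⟩
    have hyU : |y| ≤ U := abs_le.2 ⟨by linarith, hy'⟩
    have hl : ∀ t ∈ [x, y], |t| ≤ U := by
      intro t ht
      simp only [List.mem_cons, List.not_mem_nil, or_false] at ht
      rcases ht with rfl | rfl <;> assumption
    have h1 := hh_bound [x, y] hl 3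
    have h2 := hh_bound [x, y] hl 6
    have e1 : nn [x, y].length 3 = 4 := by simp [nn]
    have e2 : nn [x, y].length 6 = 7 := by simp [nn]
    rw [e1] at h1
    rw [e2] at h2
    rw [q2_eq]
    have h3 := mul_le_mul_of_nonneg_left ((le_abs_self _).trans h2) hc0
    have h4 := (le_abs_self _).trans h1
    push_cast at h3 h4
    linarith

theorem q3_bound {c x y z U : ℝ} (hc0 : 0 ≤ c) (hc1 : c ≤ 1)
    (hx : |x| ≤ U) (hy : |y| ≤ U) (hz : |z| ≤ U) :
    |q3 c x y z| ≤ 6 * U ^ 2 + 21 * c * U ^ 5 := by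
  have hl : ∀ t ∈ [x, y, z], |t| ≤ U := by
    intro t ht
    simp only [List.mem_cons, List.not_mem_nil, or_false] at ht
    rcases ht with rfl | rfl | rfl <;> assumption
  have h1 := hh_bound [x, y, z] hl 2
  have h2 := hh_bound [x, y, z] hl 5
  have e1 : nn [x, y, z].length 2 = 6 := by simp [nn]
  have e2 : nn [x, y, z].length 5 = 21 := by simp [nn]
  rw [e1] at h1
  rw [e2] at h2
  rw [q3_eq]
  refine (abs_add_le _ _).trans ?_
  rw [abs_mul, abs_of_nonneg hc0]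
  have h3 := mul_le_mul_of_nonneg_left h2 hc0
  push_cast at h1 h3
  linarith

theorem q2_lip {c x y x' y' U : ℝ} (hc0 : 0 ≤ c) (hc1 : c ≤ 1)
    (hx : |x| ≤ U) (hx' : |x'| ≤ U) (hy : |y| ≤ U) (hy' : |y'| ≤ U) :
    |q2 c x y - q2 c x' y'| ≤ (6 * U ^ 2 + 21 * c * U ^ 5) * (|x - x'| + |y - y'|) := by
  have e : q2 c x y - q2 c x' y' = q3 c x' y x * (x - x') + q3 c y' x' y * (y - y') := by
    have h1 := q3_spec c x' y x
    have h2 := q3_spec c y' x' y
    rw [← h1, ← h2, q2_symm c y x, q2_symm c y' x']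
    ring
  rw [e]
  refine (abs_add_le _ _).trans ?_
  rw [abs_mul, abs_mul, mul_add]
  exact add_le_add (mul_le_mul_of_nonneg_right (q3_bound hc0 hc1 hx' hy hx) (abs_nonneg _))
    (mul_le_mul_of_nonneg_right (q3_bound hc0 hc1 hy' hx' hy) (abs_nonneg _))

theorem q4_bound {c x t y z U : ℝ} (hc0 : 0 ≤ c)
    (hx : |x| ≤ U) (ht : |t| ≤ U) (hy : |y| ≤ U) (hz : |z| ≤ U) :
    |q4 c x t y z| ≤ 4 * U + 35 * c * U ^ 4 := by
  have hl : ∀ s ∈ [x, t, y, z], |s| ≤ U := by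
    intro s hs
    simp only [List.mem_cons, List.not_mem_nil, or_false] at hs
    rcases hs with rfl | rfl | rfl | rfl <;> assumption
  have h1 := hh_bound [x, t, y, z] hl 1
  have h2 := hh_bound [x, t, y, z] hl 4
  have e1 : nn [x, t, y, z].length 1 = 4 := by simp [nn]
  have e2 : nn [x, t, y, z].length 4 = 35 := by simp [nn]
  rw [e1] at h1
  rw [e2] at h2
  unfold q4
  refine (abs_add_le _ _).trans ?_
  rw [abs_mul, abs_of_nonneg hc0]
  have h3 := mul_le_mul_of_nonneg_left h2 hc0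
  push_cast at h1 h3
  linarith

theorem q3_lip {c x y z x' y' z' U : ℝ} (hc0 : 0 ≤ c) (hc1 : c ≤ 1)
    (hx : |x| ≤ U) (hx' : |x'| ≤ U) (hy : |y| ≤ U) (hy' : |y'| ≤ U) (hz : |z| ≤ U)
    (hz' : |z'| ≤ U) :
    |q3 c x y z - q3 c x' y' z'| ≤
      (4 * U + 35 * c * U ^ 4) * (|x - x'| + |y - y'| + |z - z'|) := by
  have e : q3 c x y z - q3 c x' y' z' =
      q4 c x x' y z * (x - x') + q4 c y y' x' z * (y - y') + q4 c z z' y' x' * (z - z') := by
    rw [← q4_spec, ← q4_spec, ← q4_spec, q3_symm c y x' z, q3_symm c y' x' z, q3_symm' c z y' x',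
      q3_symm' c z' y' x']
    ring
  rw [e]
  refine (abs_add_le _ _).trans ?_
  have h1 := (abs_add_le (q4 c x x' y z * (x - x')) (q4 c y y' x' z * (y - y')))
  rw [abs_mul, abs_mul] at h1
  rw [abs_mul (q4 c z z' y' x')]
  have h2 := mul_le_mul_of_nonneg_right (q4_bound hc0 hx hx' hy hz) (abs_nonneg (x - x'))
  have h3 := mul_le_mul_of_nonneg_right (q4_bound hc0 hy hy' hx' hz) (abs_nonneg (y - y'))
  have h4 := mul_le_mul_of_nonneg_right (q4_bound hc0 hz hz' hy' hx') (abs_nonneg (z - z'))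
  linarith

end Pool.Agent.H228
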