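import Mathlib

/-! TASK E (psi lemmas): error growth for `e'' + (2/t) e' + G = 0`, measured by
`Ψ(t) = (t e' + e/2)^2 + e^2`. -/

set_option autoImplicit false

namespace Pool.Agent.H228

open Set

/-- derivative of `Ψ`. -/
theorem psi_hasDerivAt {e e1 G : ℝ → ℝ} {t : ℝ} (ht : 0 < t)
    (he : HasDerivAt e (e1 t) t)
    (he1 : HasDerivAt e1 (-(2 / t) * e1 t - G t) t) :
    HasDerivAt (fun t => (t * e1 t + e t / 2) ^ 2 + e t ^ 2)
      (2 * (t * e1 t + e t / 2) * (-(e1 t) / 2 - t * G t) + 2 * e t * e1 t) t := by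
  have h1 : HasDerivAt (fun t => t * e1 t + e t / 2)
      (1 * e1 t + t * (-(2 / t) * e1 t - G t) + e1 t / 2) t :=
    ((hasDerivAt_id' t).mul he1).add (he.div_const 2)
  have h2 := (h1.pow 2).add (he.pow 2)
  refine h2.congr_deriv ?_
  have : t * (-(2 / t) * e1 t - G t) = -2 * e1 t - t * G t := by
    field_simp
  rw [this]
  push_cast
  ring

/-- the key strict inequality at a crossing point. -/
theorem psi_key {x y q r t k g z : ℝ} (ht : 0 < t) (hz : 0 < z)
    (hq : |5 / 4 - t ^ 2 * q| ≤ 1 + k) (hr : t * |r| < g)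
    (hΨ : (t * y + x / 2) ^ 2 + x ^ 2 = z ^ 2) :
    2 * (t * y + x / 2) * (-y / 2 - t * (q * x + r)) + 2 * x * y < k / t * z ^ 2 + 2 * g * z := by
  set c := t * y + x / 2 with hc
  have hy : y = (c - x / 2) / t := by rw [hc]; field_simp; ring
  have hid : 2 * c * (-y / 2 - t * (q * x + r)) + 2 * x * y
      = -(z ^ 2) / t + (2 * c * x / t) * (5 / 4 - t ^ 2 * q) - 2 * t * c * r := by
    rw [hy, ← hΨ]
    field_simp
    ring
  rw [hid]
  have hcz : |c| ≤ z := by
    apply abs_le_of_sq_le_sq _ hz.le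
    nlinarith [sq_nonneg x]
  have hcx : |2 * c * x| ≤ z ^ 2 := by
    rw [← hΨ, abs_le]
    constructor <;> nlinarith [sq_nonneg (c - x), sq_nonneg (c + x)]
  have h1 : (2 * c * x / t) * (5 / 4 - t ^ 2 * q) ≤ z ^ 2 / t * (1 + k) := by
    calc (2 * c * x / t) * (5 / 4 - t ^ 2 * q) ≤ |(2 * c * x / t) * (5 / 4 - t ^ 2 * q)| := le_abs_self _
      _ = |2 * c * x| / t * |5 / 4 - t ^ 2 * q| := by
          rw [abs_mul, abs_div, abs_of_pos ht]
      _ ≤ z ^ 2 / t * (1 + k) := by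
          apply mul_le_mul _ hq (abs_nonneg _) (by positivity)
          exact div_le_div_of_nonneg_right hcx ht.le
  have h2 : - (2 * t * c * r) < 2 * g * z := by
    calc - (2 * t * c * r) ≤ |-(2 * t * c * r)| := le_abs_self _
      _ = 2 * |c| * (t * |r|) := by
          rw [abs_neg, abs_mul, abs_mul, abs_mul, abs_of_pos ht, abs_of_pos (by norm_num : (0:ℝ) < 2)]
          ring
      _ ≤ 2 * z * (t * |r|) := by
          apply mul_le_mul_of_nonneg_right (by linarith) (by positivity)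
      _ < 2 * z * g := by
          apply mul_lt_mul_of_pos_left hr (by linarith)
      _ = 2 * g * z := by ring
  have h3 : -(z ^ 2) / t + z ^ 2 / t * (1 + k) = k / t * z ^ 2 := by
    field_simp
    ring
  linarith

/- Proof sketch of `psi_step`: `z(t) = (z0 + g (t - s0)) exp(k (t-s0)/(2 s0))` satisfies `0 < z ≤ Z` on
`[s0,s1]`. Apply `image_le_of_deriv_right_lt_deriv_boundary'` (or a version of it) to `Ψ` and `z^2`:
with `a = e`, `c = t e1 + e/2`, `Ψ' = -Ψ/t + (2 a c/t)(5/4 - t^2 q) - 2 t c r`; if `Ψ(t) = z(t)^2` then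
`|2 a c| ≤ Ψ`, `|c| ≤ z`, so `Ψ' < (k/t) z^2 + 2 g z ≤ (k/s0) z^2 + 2 z g exp(..) = (z^2)'`. -/
theorem psi_step {e e1 G : ℝ → ℝ} {s0 s1 z0 g k Z : ℝ} (hs : 0 < s0) (h01 : s0 ≤ s1)
    (hz0 : 0 < z0) (hg : 0 ≤ g) (hk : 0 ≤ k)
    (he : ∀ t ∈ Icc s0 s1, HasDerivAt e (e1 t) t)
    (he1 : ∀ t ∈ Icc s0 s1, HasDerivAt e1 (-(2 / t) * e1 t - G t) t)
    (hinit : (s0 * e1 s0 + e s0 / 2) ^ 2 + e s0 ^ 2 ≤ z0 ^ 2)
    (hZ : (z0 + g * (s1 - s0)) * Real.exp (k * (s1 - s0) / (2 * s0)) ≤ Z)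
    (hG : ∀ t ∈ Icc s0 s1, (t * e1 t + e t / 2) ^ 2 + e t ^ 2 ≤ Z ^ 2 →
      ∃ q r, G t = q * e t + r ∧ |5 / 4 - t ^ 2 * q| ≤ 1 + k ∧ t * |r| < g) :
    ∀ t ∈ Icc s0 s1, (t * e1 t + e t / 2) ^ 2 + e t ^ 2 ≤ Z ^ 2 := by
  set z : ℝ → ℝ := fun t => (z0 + g * (t - s0)) * Real.exp (k * (t - s0) / (2 * s0)) with hz
  have hzpos : ∀ t ∈ Icc s0 s1, 0 < z t := by
    intro t ht
    have : 0 ≤ g * (t - s0) := mul_nonneg hg (by linarith [ht.1])
    simp only [hz]
    positivity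
  have hzZ : ∀ t ∈ Icc s0 s1, z t ≤ Z := by
    intro t ht
    refine le_trans ?_ hZ
    simp only [hz]
    have h1 : z0 + g * (t - s0) ≤ z0 + g * (s1 - s0) := by
      have := mul_le_mul_of_nonneg_left (sub_le_sub_right ht.2 s0) hg
      linarith
    have h2 : Real.exp (k * (t - s0) / (2 * s0)) ≤ Real.exp (k * (s1 - s0) / (2 * s0)) := by
      apply Real.exp_le_exp.2
      apply div_le_div_of_nonneg_right _ (by positivity)
      exact mul_le_mul_of_nonneg_left (sub_le_sub_right ht.2 s0) hk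
    apply mul_le_mul h1 h2 (Real.exp_pos _).le
    have : 0 ≤ g * (s1 - s0) := mul_nonneg hg (by linarith)
    linarith
  have hzd : ∀ t, HasDerivAt z (g * Real.exp (k * (t - s0) / (2 * s0)) + k / (2 * s0) * z t) t := by
    intro t
    have h1 : HasDerivAt (fun t => z0 + g * (t - s0)) (g * 1) t :=
      (((hasDerivAt_id' t).sub_const s0).const_mul g).const_add z0
    have h2 : HasDerivAt (fun t => k * (t - s0) / (2 * s0)) (k * 1 / (2 * s0)) t :=
      (((hasDerivAt_id' t).sub_const s0).const_mul k).div_const (2 * s0)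
    have h3 := h1.mul h2.exp
    refine h3.congr_deriv ?_
    simp only [hz]
    ring
  have hmain : ∀ ⦃t⦄, t ∈ Icc s0 s1 →
      (t * e1 t + e t / 2) ^ 2 + e t ^ 2 ≤ z t ^ 2 := by
    have hΨd : ∀ t ∈ Icc s0 s1, HasDerivAt (fun t => (t * e1 t + e t / 2) ^ 2 + e t ^ 2)
      (2 * (t * e1 t + e t / 2) * (-(e1 t) / 2 - t * G t) + 2 * e t * e1 t) t := fun t ht =>
        psi_hasDerivAt (lt_of_lt_of_le hs ht.1) (he t ht) (he1 t ht)
    refine image_le_of_deriv_right_lt_deriv_boundary'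
      (f := fun t => (t * e1 t + e t / 2) ^ 2 + e t ^ 2)
      (f' := fun t => 2 * (t * e1 t + e t / 2) * (-(e1 t) / 2 - t * G t) + 2 * e t * e1 t)
      (B := fun t => z t ^ 2)
      (B' := fun t => 2 * z t * (g * Real.exp (k * (t - s0) / (2 * s0)) + k / (2 * s0) * z t))
      ?_ ?_ ?_ ?_ ?_ ?_
    · intro t ht
      exact (hΨd t ht).continuousAt.continuousWithinAt
    · intro t ht
      exact (hΨd t (Ico_subset_Icc_self ht)).hasDerivWithinAt
    · have : z s0 = z0 := by simp [hz]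
      simp only [this]
      exact hinit
    · intro t _
      exact ContinuousAt.continuousWithinAt (f := fun t => z t ^ 2) ((hzd t).pow 2).continuousAt
    · intro t _
      have := ((hzd t).pow 2).hasDerivWithinAt (s := Ici t)
      refine this.congr_deriv ?_
      norm_num
    · intro t ht hEq
      have htI := Ico_subset_Icc_self ht
      have htpos : 0 < t := lt_of_lt_of_le hs ht.1
      have hzt := hzpos t htI
      have hΨZ : (t * e1 t + e t / 2) ^ 2 + e t ^ 2 ≤ Z ^ 2 := by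
        rw [hEq]
        exact pow_le_pow_left₀ hzt.le (hzZ t htI) 2
      obtain ⟨q, r, hGt, hq, hr⟩ := hG t htI hΨZ
      have hkey := psi_key (y := e1 t) (x := e t) htpos hzt hq hr hEq
      rw [hGt]
      refine lt_of_lt_of_le hkey ?_
      have h1 : k / t * z t ^ 2 ≤ k / s0 * z t ^ 2 := by
        apply mul_le_mul_of_nonneg_right _ (by positivity)
        exact div_le_div_of_nonneg_left hk hs ht.1
      have h2 : 1 ≤ Real.exp (k * (t - s0) / (2 * s0)) := by
        apply Real.one_le_exp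
        have : 0 ≤ t - s0 := by linarith [ht.1]
        positivity
      have h3 : 2 * g * z t ≤ 2 * z t * (g * Real.exp (k * (t - s0) / (2 * s0))) := by
        have : 2 * g * z t * 1 ≤ 2 * g * z t * Real.exp (k * (t - s0) / (2 * s0)) :=
          mul_le_mul_of_nonneg_left h2 (by positivity)
        linarith
      have h4 : 2 * z t * (k / (2 * s0) * z t) = k / s0 * z t ^ 2 := by
        field_simp
      rw [mul_add, h4]
      linarith
  intro t ht
  exact (hmain ht).trans (pow_le_pow_left₀ (hzpos t ht).le (hzZ t ht) 2)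

/- Proof sketch of `psi_first`: `z(t) = c t`; since `e(δ)/δ → e1 0 = 0` and `e1 δ → 0`,
`Ψ(δ) ≤ (c δ)^2` for small `δ > 0`; apply the boundary lemma on `[δ, s1]` to `Ψ` and `(c t)^2`. -/
theorem psi_first {e e1 G : ℝ → ℝ} {s1 g k c : ℝ} (hs : 0 < s1) (hk : 0 ≤ k) (hg : 0 ≤ g)
    (hc0 : 0 < c) (hc : k * c + 2 * g ≤ 2 * c)
    (he : ∀ t ∈ Icc 0 s1, HasDerivAt e (e1 t) t)
    (he1 : ∀ t ∈ Ioc 0 s1, HasDerivAt e1 (-(2 / t) * e1 t - G t) t)
    (h0 : e 0 = 0) (h1 : e1 0 = 0) (hcont : ContinuousAt e1 0)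
    (hG : ∀ t ∈ Ioc 0 s1, (t * e1 t + e t / 2) ^ 2 + e t ^ 2 ≤ (c * s1) ^ 2 →
      ∃ q r, G t = q * e t + r ∧ |5 / 4 - t ^ 2 * q| ≤ 1 + k ∧ t * |r| < g) :
    ∀ t ∈ Ioc 0 s1, (t * e1 t + e t / 2) ^ 2 + e t ^ 2 ≤ (c * t) ^ 2 := by
  intro t ht
  -- small δ
  have hsmall : ∃ δ, 0 < δ ∧ δ < t ∧ (δ * e1 δ + e δ / 2) ^ 2 + e δ ^ 2 ≤ (c * δ) ^ 2 := by
    have hd0 : HasDerivAt e 0 0 := by
      have := he 0 ⟨le_refl _, hs.le⟩
      rwa [h1] at this
    have hlo : ∀ᶠ x in nhds (0:ℝ), |e x| ≤ c / 3 * |x| := by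
      have := (hasDerivAt_iff_isLittleO.1 hd0).bound (by positivity : 0 < c / 3)
      filter_upwards [this] with x hx
      simpa [h0] using hx
    have he1s : ∀ᶠ x in nhds (0:ℝ), |e1 x| < c / 3 := by
      have := (hcont.tendsto).eventually (Metric.ball_mem_nhds (e1 0) (by positivity : 0 < c / 3))
      filter_upwards [this] with x hx
      rw [h1, Real.dist_eq, sub_zero] at hx
      exact hx
    obtain ⟨ε, hε, hball⟩ := Metric.eventually_nhds_iff_ball.1 (hlo.and he1s)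
    refine ⟨min (ε / 2) (t / 2), lt_min (by linarith) (by linarith [ht.1]), ?_, ?_⟩
    · exact lt_of_le_of_lt (min_le_right _ _) (by linarith [ht.1])
    · set δ := min (ε / 2) (t / 2) with hδ
      have hδ0 : 0 < δ := lt_min (by linarith) (by linarith [ht.1])
      have hδε : δ < ε := lt_of_le_of_lt (min_le_left _ _) (by linarith)
      have hmem : δ ∈ Metric.ball (0:ℝ) ε := by
        rw [Metric.mem_ball, Real.dist_eq, sub_zero, abs_of_pos hδ0]
        exact hδε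
      obtain ⟨ha, hb⟩ := hball δ hmem
      rw [abs_of_pos hδ0] at ha
      have hA : |δ * e1 δ + e δ / 2| ≤ c * δ / 2 := by
        calc |δ * e1 δ + e δ / 2| ≤ |δ * e1 δ| + |e δ / 2| := abs_add_le _ _
          _ = δ * |e1 δ| + |e δ| / 2 := by
              rw [abs_mul, abs_of_pos hδ0, abs_div, abs_of_pos (by norm_num : (0:ℝ) < 2)]
          _ ≤ δ * (c / 3) + (c / 3 * δ) / 2 := by
              have := mul_le_mul_of_nonneg_left hb.le hδ0.le
              linarith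
          _ = c * δ / 2 := by ring
      have hA2 : (δ * e1 δ + e δ / 2) ^ 2 ≤ (c * δ / 2) ^ 2 := by
        rw [← sq_abs]
        exact pow_le_pow_left₀ (abs_nonneg _) hA 2
      have hB2 : (e δ) ^ 2 ≤ (c / 3 * δ) ^ 2 := by
        rw [← sq_abs]
        exact pow_le_pow_left₀ (abs_nonneg _) ha 2
      have : 0 ≤ (c * δ) ^ 2 := sq_nonneg _
      nlinarith
  obtain ⟨δ, hδ0, hδt, hδ⟩ := hsmall
  have hmain : ∀ ⦃x⦄, x ∈ Icc δ s1 →
      (x * e1 x + e x / 2) ^ 2 + e x ^ 2 ≤ (c * x) ^ 2 := by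
    have hΨd : ∀ t ∈ Icc δ s1, HasDerivAt (fun t => (t * e1 t + e t / 2) ^ 2 + e t ^ 2)
      (2 * (t * e1 t + e t / 2) * (-(e1 t) / 2 - t * G t) + 2 * e t * e1 t) t := fun t ht =>
        psi_hasDerivAt (lt_of_lt_of_le hδ0 ht.1) (he t ⟨hδ0.le.trans ht.1, ht.2⟩)
          (he1 t ⟨lt_of_lt_of_le hδ0 ht.1, ht.2⟩)
    have hBd : ∀ x, HasDerivAt (fun x => (c * x) ^ 2) (2 * c ^ 2 * x) x := by
      intro x
      have := (((hasDerivAt_id' x).const_mul c).pow 2)
      refine this.congr_deriv ?_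
      norm_num
      ring
    refine image_le_of_deriv_right_lt_deriv_boundary'
      (f := fun t => (t * e1 t + e t / 2) ^ 2 + e t ^ 2)
      (f' := fun t => 2 * (t * e1 t + e t / 2) * (-(e1 t) / 2 - t * G t) + 2 * e t * e1 t)
      (B := fun x => (c * x) ^ 2)
      (B' := fun x => 2 * c ^ 2 * x)
      ?_ ?_ ?_ ?_ ?_ ?_
    · intro x hx
      exact (hΨd x hx).continuousAt.continuousWithinAt
    · intro x hx
      exact (hΨd x (Ico_subset_Icc_self hx)).hasDerivWithinAt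
    · exact hδ
    · intro x _
      exact (hBd x).continuousAt.continuousWithinAt
    · intro x _
      exact (hBd x).hasDerivWithinAt
    · intro x hx hEq
      have hxpos : 0 < x := lt_of_lt_of_le hδ0 hx.1
      have hxI : x ∈ Ioc 0 s1 := ⟨hxpos, hx.2.le⟩
      have hzt : 0 < c * x := by positivity
      have hΨZ : (x * e1 x + e x / 2) ^ 2 + e x ^ 2 ≤ (c * s1) ^ 2 := by
        rw [hEq]
        exact pow_le_pow_left₀ hzt.le (mul_le_mul_of_nonneg_left hx.2.le hc0.le) 2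
      obtain ⟨q, r, hGt, hq, hr⟩ := hG x hxI hΨZ
      have hkey := psi_key (y := e1 x) (x := e x) hxpos hzt hq hr hEq
      rw [hGt]
      refine lt_of_lt_of_le hkey ?_
      have h5 : k / x * (c * x) ^ 2 + 2 * g * (c * x) = (k * c + 2 * g) * (c * x) := by
        field_simp
      rw [h5]
      calc (k * c + 2 * g) * (c * x) ≤ (2 * c) * (c * x) :=
            mul_le_mul_of_nonneg_right hc hzt.le
        _ = 2 * c ^ 2 * x := by ring
  exact hmain ⟨hδt.le, ht.2⟩

/-- Minkowski inequality for the norm `sqrt Ψ`. -/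
theorem psi_add {x y x' y' z w : ℝ} (hz : 0 ≤ z) (hw : 0 ≤ w)
    (h : (y + x / 2) ^ 2 + x ^ 2 ≤ z ^ 2) (h' : (y' + x' / 2) ^ 2 + x' ^ 2 ≤ w ^ 2) :
    ((y + y') + (x + x') / 2) ^ 2 + (x + x') ^ 2 ≤ (z + w) ^ 2 := by
  set A := y + x / 2 with hA
  set A' := y' + x' / 2 with hA'
  have e1 : (y + y') + (x + x') / 2 = A + A' := by rw [hA, hA']; ring
  rw [e1]
  have hcs : A * A' + x * x' ≤ z * w := by
    have h2 : (A * A' + x * x') ^ 2 ≤ (z * w) ^ 2 := by
      calc (A * A' + x * x') ^ 2 ≤ (A ^ 2 + x ^ 2) * (A' ^ 2 + x' ^ 2) := by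
            nlinarith [sq_nonneg (A * x' - x * A')]
        _ ≤ z ^ 2 * w ^ 2 := mul_le_mul h h' (by positivity) (by positivity)
        _ = (z * w) ^ 2 := by ring
    exact (abs_le_of_sq_le_sq' h2 (mul_nonneg hz hw)).2
  nlinarith

end Pool.Agent.H228
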