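import Mathlib
import Pool.Agent.H228.Div
import Pool.Agent.H228.Psi

/-! One certified step for a one-parameter family of solutions. -/

set_option autoImplicit false

namespace Pool.Agent.H228

open Set

/-- divided differences with respect to the parameter -/
noncomputable def d1 (g : ℝ → ℝ) (a b : ℝ) : ℝ := (g b - g a) / (b - a)
noncomputable def d2 (g : ℝ → ℝ) (a b c : ℝ) : ℝ := (d1 g b c - d1 g a b) / (c - a)

/-- `Ψ ≤ z^2` for the value `x` and the scaled slope `y = t x'` -/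
def Psi (x y z : ℝ) : Prop := (y + x / 2) ^ 2 + x ^ 2 ≤ z ^ 2

/-- the certified enclosure at time `t` of the family `v` by the approximants `p` (with time
derivatives `v1`, `p1`), for the values and the first and second divided differences in the
parameter `a ∈ [-1, 1]` -/
structure Inv (v v1 p p1 : ℝ → ℝ → ℝ) (t z0 z1 z2 : ℝ) : Prop where
  l0 : ∀ a ∈ Icc (-1:ℝ) 1, Psi (v a t - p a t) (t * (v1 a t - p1 a t)) z0
  l1 : ∀ a ∈ Icc (-1:ℝ) 1, ∀ b ∈ Icc (-1:ℝ) 1, a ≠ b →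
    Psi (d1 (fun s => v s t - p s t) a b) (t * d1 (fun s => v1 s t - p1 s t) a b) z1
  l2 : ∀ a ∈ Icc (-1:ℝ) 1, ∀ b ∈ Icc (-1:ℝ) 1, ∀ c ∈ Icc (-1:ℝ) 1, a ≠ b → b ≠ c → a ≠ c →
    Psi (d2 (fun s => v s t - p s t) a b c) (t * d2 (fun s => v1 s t - p1 s t) a b c) z2

/-! ### Algebra of divided differences -/

theorem d1_fc (c : ℝ) (V : ℝ → ℝ) {a b : ℝ} :
    d1 (fun s => fc c (V s)) a b = q2 c (V a) (V b) * d1 V a b := by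
  unfold d1
  rw [q2_spec, q2_symm, mul_div_assoc]

theorem d2_fc (c : ℝ) (V : ℝ → ℝ) {a b e : ℝ} :
    d2 (fun s => fc c (V s)) a b e = q2 c (V b) (V e) * d2 V a b e +
      q3 c (V a) (V b) (V e) * d1 V a e * d1 V a b := by
  have h1 : d2 (fun s => fc c (V s)) a b e =
      (q2 c (V b) (V e) * d1 V b e - q2 c (V a) (V b) * d1 V a b) / (e - a) := by
    unfold d2
    rw [d1_fc, d1_fc]
  have h2 : q3 c (V a) (V b) (V e) * d1 V a e =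
      (q2 c (V b) (V e) - q2 c (V a) (V b)) / (e - a) := by
    rw [q3_spec, mul_div_assoc]
    rfl
  rw [h1, h2]
  unfold d2
  ring

theorem d1_sub (f g : ℝ → ℝ) (a b : ℝ) : d1 (fun s => f s - g s) a b = d1 f a b - d1 g a b := by
  unfold d1; ring

theorem d1_add (f g : ℝ → ℝ) (a b : ℝ) : d1 (fun s => f s + g s) a b = d1 f a b + d1 g a b := by
  unfold d1; ring

theorem d2_sub (f g : ℝ → ℝ) (a b e : ℝ) :
    d2 (fun s => f s - g s) a b e = d2 f a b e - d2 g a b e := by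
  unfold d2; rw [d1_sub, d1_sub]; ring

theorem d2_add (f g : ℝ → ℝ) (a b e : ℝ) :
    d2 (fun s => f s + g s) a b e = d2 f a b e + d2 g a b e := by
  unfold d2; rw [d1_add, d1_add]; ring

theorem abs_of_Psi {x y z : ℝ} (hz : 0 ≤ z) (h : (y + x / 2) ^ 2 + x ^ 2 ≤ z ^ 2) : |x| ≤ z := by
  apply abs_le_of_sq_le_sq _ hz
  nlinarith [sq_nonneg (y + x / 2)]

/-! ### The three levels at a fixed time -/

theorem q_ok {c s1 ν U0 Z0 k t x y : ℝ} (hc0 : 0 ≤ c) (hc1 : c ≤ 1) (hν : 0 ≤ ν) (hνU : ν ≤ U0)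
    (hZ0 : 0 ≤ Z0) (ht0 : 0 < t) (ht1 : t ≤ s1)
    (hk1 : 1 / 4 + s1 ^ 2 * (4 * (ν + Z0) ^ 3) ≤ k)
    (hk2 : s1 ^ 2 * (4 * (U0 + Z0) ^ 3 + 7 * c * (U0 + Z0) ^ 6) - 9 / 4 ≤ k)
    (hx : -(ν + Z0) ≤ x) (hx' : x ≤ U0 + Z0) (hy : -(ν + Z0) ≤ y) (hy' : y ≤ U0 + Z0) :
    |5 / 4 - t ^ 2 * q2 c x y| ≤ 1 + k := by
  obtain ⟨h1, h2⟩ := q2_bounds hc0 hc1 (by linarith : 0 ≤ ν + Z0) (by linarith : ν + Z0 ≤ U0 + Z0)
    hx hx' hy hy'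
  have ht2 : t ^ 2 ≤ s1 ^ 2 := by gcongr
  have ht2' : 0 < t ^ 2 := by positivity
  have hU : 0 ≤ U0 := hν.trans hνU
  have p1 : 0 ≤ 4 * (ν + Z0) ^ 3 := by positivity
  have p2 : 0 ≤ 4 * (U0 + Z0) ^ 3 + 7 * c * (U0 + Z0) ^ 6 := by positivity
  have h3 : t ^ 2 * (4 * (ν + Z0) ^ 3) ≤ s1 ^ 2 * (4 * (ν + Z0) ^ 3) :=
    mul_le_mul_of_nonneg_right ht2 p1
  have h4 : t ^ 2 * (4 * (U0 + Z0) ^ 3 + 7 * c * (U0 + Z0) ^ 6) ≤
      s1 ^ 2 * (4 * (U0 + Z0) ^ 3 + 7 * c * (U0 + Z0) ^ 6) := mul_le_mul_of_nonneg_right ht2 p2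
  have h5 : t ^ 2 * (-(4 * (ν + Z0) ^ 3)) ≤ t ^ 2 * q2 c x y :=
    mul_le_mul_of_nonneg_left h1 ht2'.le
  have h6 : t ^ 2 * q2 c x y ≤ t ^ 2 * (4 * (U0 + Z0) ^ 3 + 7 * c * (U0 + Z0) ^ 6) :=
    mul_le_mul_of_nonneg_left h2 ht2'.le
  rw [abs_le]
  constructor <;> linarith

/-- values at a fixed time -/
structure Vals (c ν U0 Z0 : ℝ) (V P : ℝ → ℝ) : Prop where
  U : ∀ a ∈ Icc (-1:ℝ) 1, V a ≤ U0
  ν : ∀ a ∈ Icc (-1:ℝ) 1, -ν ≤ P a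
  Z : ∀ a ∈ Icc (-1:ℝ) 1, |V a - P a| ≤ Z0

theorem Vals.bd {c ν U0 Z0 : ℝ} {V P : ℝ → ℝ} (h : Vals c ν U0 Z0 V P) (hZ0 : 0 ≤ Z0) {a : ℝ}
    (ha : a ∈ Icc (-1:ℝ) 1) : (-(ν + Z0) ≤ V a ∧ V a ≤ U0 + Z0) ∧
      (-(ν + Z0) ≤ P a ∧ P a ≤ U0 + Z0) := by
  have h1 := h.U a ha
  have h2 := h.ν a ha
  have h3 := abs_le.1 (h.Z a ha)
  refine ⟨⟨?_, ?_⟩, ?_, ?_⟩ <;> linarith [h3.1, h3.2]

theorem Vals.ab {c ν U0 Z0 : ℝ} {V P : ℝ → ℝ} (h : Vals c ν U0 Z0 V P) (hνU : ν ≤ U0)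
    (hZ0 : 0 ≤ Z0) {a : ℝ} (ha : a ∈ Icc (-1:ℝ) 1) : |V a| ≤ U0 + Z0 ∧ |P a| ≤ U0 + Z0 := by
  obtain ⟨⟨h1, h2⟩, h3, h4⟩ := h.bd hZ0 ha
  constructor <;> rw [abs_le] <;> constructor <;> linarith

theorem level1 {c s1 ν U0 Z0 k t g1 P1 : ℝ} (hc0 : 0 ≤ c) (hc1 : c ≤ 1) (hν : 0 ≤ ν)
    (hνU : ν ≤ U0) (hZ0 : 0 ≤ Z0) (hP1 : 0 ≤ P1) (ht0 : 0 < t) (ht1 : t ≤ s1)
    (hk1 : 1 / 4 + s1 ^ 2 * (4 * (ν + Z0) ^ 3) ≤ k)
    (hk2 : s1 ^ 2 * (4 * (U0 + Z0) ^ 3 + 7 * c * (U0 + Z0) ^ 6) - 9 / 4 ≤ k)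
    {V P R : ℝ → ℝ} (h : Vals c ν U0 Z0 V P) {a b : ℝ} (ha : a ∈ Icc (-1:ℝ) 1)
    (hb : b ∈ Icc (-1:ℝ) 1) (hp : |d1 P a b| ≤ P1) (hR : t * |d1 R a b| < g1) :
    ∃ q r, d1 (fun s => fc c (V s) - fc c (P s) + R s) a b = q * d1 (fun s => V s - P s) a b + r ∧
      |5 / 4 - t ^ 2 * q| ≤ 1 + k ∧
      t * |r| < 2 * s1 * (6 * (U0 + Z0) ^ 2 + 21 * c * (U0 + Z0) ^ 5) * Z0 * P1 + g1 := by
  obtain ⟨⟨a1, a2⟩, a3, a4⟩ := h.bd hZ0 ha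
  obtain ⟨⟨b1, b2⟩, b3, b4⟩ := h.bd hZ0 hb
  obtain ⟨a5, a6⟩ := h.ab hνU hZ0 ha
  obtain ⟨b5, b6⟩ := h.ab hνU hZ0 hb
  have hU : 0 ≤ U0 := hν.trans hνU
  set L := 6 * (U0 + Z0) ^ 2 + 21 * c * (U0 + Z0) ^ 5 with hL
  have hL0 : 0 ≤ L := by positivity
  refine ⟨q2 c (V a) (V b), (q2 c (V a) (V b) - q2 c (P a) (P b)) * d1 P a b + d1 R a b, ?_, ?_, ?_⟩
  · rw [d1_add, d1_sub, d1_fc, d1_fc, d1_sub]
    ring
  · exact q_ok hc0 hc1 hν hνU hZ0 ht0 ht1 hk1 hk2 a1 a2 b1 b2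
  · have h1 : |q2 c (V a) (V b) - q2 c (P a) (P b)| ≤ L * (Z0 + Z0) := by
      refine (q2_lip hc0 hc1 a5 a6 b5 b6).trans ?_
      have := h.Z a ha
      have := h.Z b hb
      gcongr
    have h2 : |(q2 c (V a) (V b) - q2 c (P a) (P b)) * d1 P a b| ≤ L * (Z0 + Z0) * P1 := by
      rw [abs_mul]
      gcongr
    have h3 := abs_add_le ((q2 c (V a) (V b) - q2 c (P a) (P b)) * d1 P a b) (d1 R a b)
    calc t * |(q2 c (V a) (V b) - q2 c (P a) (P b)) * d1 P a b + d1 R a b| ≤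
        t * (L * (Z0 + Z0) * P1 + |d1 R a b|) := by
          gcongr
          linarith
      _ = t * (L * (Z0 + Z0) * P1) + t * |d1 R a b| := by ring
      _ < s1 * (L * (Z0 + Z0) * P1) + g1 := by
          have h4 : t * (L * (Z0 + Z0) * P1) ≤ s1 * (L * (Z0 + Z0) * P1) := by gcongr
          linarith
      _ = _ := by ring

theorem level2 {c s1 ν U0 Z0 Z1 k t g2 P1 P2 : ℝ} (hc0 : 0 ≤ c) (hc1 : c ≤ 1) (hν : 0 ≤ ν)
    (hνU : ν ≤ U0) (hZ0 : 0 ≤ Z0) (hZ1 : 0 ≤ Z1) (hP1 : 0 ≤ P1) (hP2 : 0 ≤ P2) (ht0 : 0 < t)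
    (ht1 : t ≤ s1)
    (hk1 : 1 / 4 + s1 ^ 2 * (4 * (ν + Z0) ^ 3) ≤ k)
    (hk2 : s1 ^ 2 * (4 * (U0 + Z0) ^ 3 + 7 * c * (U0 + Z0) ^ 6) - 9 / 4 ≤ k)
    {V P R : ℝ → ℝ} (h : Vals c ν U0 Z0 V P) {a b e : ℝ} (ha : a ∈ Icc (-1:ℝ) 1)
    (hb : b ∈ Icc (-1:ℝ) 1) (he : e ∈ Icc (-1:ℝ) 1)
    (hp1 : |d1 P a b| ≤ P1) (hp2 : |d1 P a e| ≤ P1) (hp3 : |d2 P a b e| ≤ P2)
    (hz1 : |d1 (fun s => V s - P s) a b| ≤ Z1) (hz2 : |d1 (fun s => V s - P s) a e| ≤ Z1)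
    (hR : t * |d2 R a b e| < g2) :
    ∃ q r, d2 (fun s => fc c (V s) - fc c (P s) + R s) a b e =
        q * d2 (fun s => V s - P s) a b e + r ∧
      |5 / 4 - t ^ 2 * q| ≤ 1 + k ∧
      t * |r| < s1 * ((6 * (U0 + Z0) ^ 2 + 21 * c * (U0 + Z0) ^ 5) *
          (2 * Z0 * P2 + Z1 * (2 * P1 + Z1))
        + 3 * (4 * (U0 + Z0) + 35 * c * (U0 + Z0) ^ 4) * Z0 * P1 ^ 2) + g2 := by
  obtain ⟨⟨a1, a2⟩, a3, a4⟩ := h.bd hZ0 ha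
  obtain ⟨⟨b1, b2⟩, b3, b4⟩ := h.bd hZ0 hb
  obtain ⟨⟨e1, e2⟩, e3, e4⟩ := h.bd hZ0 he
  obtain ⟨a5, a6⟩ := h.ab hνU hZ0 ha
  obtain ⟨b5, b6⟩ := h.ab hνU hZ0 hb
  obtain ⟨e5, e6⟩ := h.ab hνU hZ0 he
  have hU : 0 ≤ U0 := hν.trans hνU
  have za := h.Z a ha
  have zb := h.Z b hb
  have ze := h.Z e he
  set L := 6 * (U0 + Z0) ^ 2 + 21 * c * (U0 + Z0) ^ 5 with hL
  have hL0 : 0 ≤ L := by positivity
  set L3 := 4 * (U0 + Z0) + 35 * c * (U0 + Z0) ^ 4 with hL3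
  have hL30 : 0 ≤ L3 := by positivity
  refine ⟨q2 c (V b) (V e), (q2 c (V b) (V e) - q2 c (P b) (P e)) * d2 P a b e +
    q3 c (V a) (V b) (V e) * (d1 V a e * d1 V a b - d1 P a e * d1 P a b) +
    (q3 c (V a) (V b) (V e) - q3 c (P a) (P b) (P e)) * (d1 P a e * d1 P a b) + d2 R a b e,
    ?_, ?_, ?_⟩
  · rw [d2_add, d2_sub, d2_fc, d2_fc, d2_sub]
    ring
  · exact q_ok hc0 hc1 hν hνU hZ0 ht0 ht1 hk1 hk2 b1 b2 e1 e2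
  · have h1 : |q2 c (V b) (V e) - q2 c (P b) (P e)| ≤ L * (Z0 + Z0) := by
      refine (q2_lip hc0 hc1 b5 b6 e5 e6).trans ?_
      gcongr
    have h2 : |(q2 c (V b) (V e) - q2 c (P b) (P e)) * d2 P a b e| ≤ L * (Z0 + Z0) * P2 := by
      rw [abs_mul]
      gcongr
    have h3 : |q3 c (V a) (V b) (V e)| ≤ L := q3_bound hc0 hc1 a5 b5 e5
    have h4 : |d1 V a e * d1 V a b - d1 P a e * d1 P a b| ≤ Z1 * (2 * P1 + Z1) := by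
      have e1 : d1 V a e * d1 V a b - d1 P a e * d1 P a b =
          d1 (fun s => V s - P s) a e * d1 P a b + d1 P a e * d1 (fun s => V s - P s) a b +
            d1 (fun s => V s - P s) a e * d1 (fun s => V s - P s) a b := by
        rw [d1_sub, d1_sub]; ring
      rw [e1]
      refine (abs_add_three _ _ _).trans ?_
      rw [abs_mul, abs_mul, abs_mul]
      have i1 : |d1 (fun s => V s - P s) a e| * |d1 P a b| ≤ Z1 * P1 := by gcongr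
      have i2 : |d1 P a e| * |d1 (fun s => V s - P s) a b| ≤ P1 * Z1 := by gcongr
      have i3 : |d1 (fun s => V s - P s) a e| * |d1 (fun s => V s - P s) a b| ≤ Z1 * Z1 := by
        gcongr
      linarith
    have h5 : |q3 c (V a) (V b) (V e) * (d1 V a e * d1 V a b - d1 P a e * d1 P a b)| ≤
        L * (Z1 * (2 * P1 + Z1)) := by
      rw [abs_mul]
      gcongr
    have h6 : |q3 c (V a) (V b) (V e) - q3 c (P a) (P b) (P e)| ≤ L3 * (Z0 + Z0 + Z0) := by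
      refine (q3_lip hc0 hc1 a5 a6 b5 b6 e5 e6).trans ?_
      gcongr
    have h7 : |(q3 c (V a) (V b) (V e) - q3 c (P a) (P b) (P e)) * (d1 P a e * d1 P a b)| ≤
        L3 * (Z0 + Z0 + Z0) * (P1 * P1) := by
      rw [abs_mul, abs_mul (d1 P a e)]
      gcongr
    have h8 := abs_add_le ((q2 c (V b) (V e) - q2 c (P b) (P e)) * d2 P a b e +
      q3 c (V a) (V b) (V e) * (d1 V a e * d1 V a b - d1 P a e * d1 P a b) +
      (q3 c (V a) (V b) (V e) - q3 c (P a) (P b) (P e)) * (d1 P a e * d1 P a b)) (d2 R a b e)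
    have h9 := abs_add_three ((q2 c (V b) (V e) - q2 c (P b) (P e)) * d2 P a b e)
      (q3 c (V a) (V b) (V e) * (d1 V a e * d1 V a b - d1 P a e * d1 P a b))
      ((q3 c (V a) (V b) (V e) - q3 c (P a) (P b) (P e)) * (d1 P a e * d1 P a b))
    set W := L * (Z0 + Z0) * P2 + L * (Z1 * (2 * P1 + Z1)) + L3 * (Z0 + Z0 + Z0) * (P1 * P1)
      with hW
    have hW0 : 0 ≤ W := by positivity
    refine lt_of_le_of_lt (b := t * (W + |d2 R a b e|)) ?_ ?_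
    · apply mul_le_mul_of_nonneg_left _ ht0.le
      linarith
    · have h10 : t * W ≤ s1 * W := mul_le_mul_of_nonneg_right ht1 hW0
      calc t * (W + |d2 R a b e|) = t * W + t * |d2 R a b e| := by ring
        _ < s1 * W + g2 := by linarith
        _ = _ := by rw [hW]; ring

/-! ### Time derivatives of divided differences -/

theorem hasDerivAt_d1 {x x1 : ℝ → ℝ → ℝ} {a b t : ℝ} (ha : HasDerivAt (x a) (x1 a t) t)
    (hb : HasDerivAt (x b) (x1 b t) t) :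
    HasDerivAt (fun t => d1 (fun s => x s t) a b) (d1 (fun s => x1 s t) a b) t := by
  unfold d1
  exact (hb.fun_sub ha).div_const _

theorem hasDerivAt_d2 {x x1 : ℝ → ℝ → ℝ} {a b e t : ℝ} (ha : HasDerivAt (x a) (x1 a t) t)
    (hb : HasDerivAt (x b) (x1 b t) t) (he : HasDerivAt (x e) (x1 e t) t) :
    HasDerivAt (fun t => d2 (fun s => x s t) a b e) (d2 (fun s => x1 s t) a b e) t := by
  unfold d2
  exact ((hasDerivAt_d1 hb he).fun_sub (hasDerivAt_d1 ha hb)).div_const _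

/-- the equation for the difference -/
theorem eq_diff {v v1 p p1 ρ : ℝ → ℝ → ℝ} {c t a : ℝ}
    (hv1 : HasDerivAt (v1 a) (-(2 / t) * v1 a t - fc c (v a t)) t)
    (hp1 : HasDerivAt (p1 a) (-(2 / t) * p1 a t - fc c (p a t) + ρ a t) t) :
    HasDerivAt (fun t => v1 a t - p1 a t) (-(2 / t) * (v1 a t - p1 a t) -
      (fc c (v a t) - fc c (p a t) + ρ a t)) t :=
  (hv1.fun_sub hp1).congr_deriv (by ring)

theorem eq_diff1 {v v1 p p1 ρ : ℝ → ℝ → ℝ} {c t a b : ℝ}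
    (hva : HasDerivAt (v1 a) (-(2 / t) * v1 a t - fc c (v a t)) t)
    (hpa : HasDerivAt (p1 a) (-(2 / t) * p1 a t - fc c (p a t) + ρ a t) t)
    (hvb : HasDerivAt (v1 b) (-(2 / t) * v1 b t - fc c (v b t)) t)
    (hpb : HasDerivAt (p1 b) (-(2 / t) * p1 b t - fc c (p b t) + ρ b t) t) :
    HasDerivAt (fun t => d1 (fun s => v1 s t - p1 s t) a b)
      (-(2 / t) * d1 (fun s => v1 s t - p1 s t) a b -
        d1 (fun s => fc c (v s t) - fc c (p s t) + ρ s t) a b) t := by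
  have h := hasDerivAt_d1 (x := fun s t => v1 s t - p1 s t)
    (x1 := fun s t => -(2 / t) * (v1 s t - p1 s t) - (fc c (v s t) - fc c (p s t) + ρ s t))
    (eq_diff hva hpa) (eq_diff hvb hpb)
  refine h.congr_deriv ?_
  unfold d1
  ring

theorem eq_diff2 {v v1 p p1 ρ : ℝ → ℝ → ℝ} {c t a b e : ℝ}
    (hva : HasDerivAt (v1 a) (-(2 / t) * v1 a t - fc c (v a t)) t)
    (hpa : HasDerivAt (p1 a) (-(2 / t) * p1 a t - fc c (p a t) + ρ a t) t)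
    (hvb : HasDerivAt (v1 b) (-(2 / t) * v1 b t - fc c (v b t)) t)
    (hpb : HasDerivAt (p1 b) (-(2 / t) * p1 b t - fc c (p b t) + ρ b t) t)
    (hve : HasDerivAt (v1 e) (-(2 / t) * v1 e t - fc c (v e t)) t)
    (hpe : HasDerivAt (p1 e) (-(2 / t) * p1 e t - fc c (p e t) + ρ e t) t) :
    HasDerivAt (fun t => d2 (fun s => v1 s t - p1 s t) a b e)
      (-(2 / t) * d2 (fun s => v1 s t - p1 s t) a b e -
        d2 (fun s => fc c (v s t) - fc c (p s t) + ρ s t) a b e) t := by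
  have h := hasDerivAt_d2 (x := fun s t => v1 s t - p1 s t)
    (x1 := fun s t => -(2 / t) * (v1 s t - p1 s t) - (fc c (v s t) - fc c (p s t) + ρ s t))
    (eq_diff hva hpa) (eq_diff hvb hpb) (eq_diff hve hpe)
  refine h.congr_deriv ?_
  unfold d2 d1
  ring

theorem cell_step {v v1 p p1 ρ : ℝ → ℝ → ℝ} {c s0 s1 ν U0 z0 z1 z2 Z0 Z1 Z2 g0 g1 g2 P1 P2 k : ℝ}
    (hc0 : 0 ≤ c) (hc1 : c ≤ 1) (hs : 0 < s0) (h01 : s0 ≤ s1)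
    (hz0 : 0 < z0) (hz1 : 0 < z1) (hz2 : 0 < z2) (hg0 : 0 ≤ g0) (hg1 : 0 ≤ g1) (hg2 : 0 ≤ g2)
    (hν : 0 ≤ ν) (hνU : ν ≤ U0) (hP1 : 0 ≤ P1) (hP2 : 0 ≤ P2) (hk : 0 ≤ k)
    (hv : ∀ a ∈ Icc (-1:ℝ) 1, ∀ t ∈ Icc s0 s1, HasDerivAt (v a) (v1 a t) t)
    (hv1 : ∀ a ∈ Icc (-1:ℝ) 1, ∀ t ∈ Icc s0 s1, -1 / 2 ≤ v a t → v a t ≤ 3 →
      HasDerivAt (v1 a) (-(2 / t) * v1 a t - fc c (v a t)) t)
    (hv1' : ∀ a ∈ Icc (-1:ℝ) 1, ∀ t ∈ Icc s0 s1, ∃ w, HasDerivAt (v1 a) w t)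
    (hp : ∀ a ∈ Icc (-1:ℝ) 1, ∀ t ∈ Icc s0 s1, HasDerivAt (p a) (p1 a t) t)
    (hp1 : ∀ a ∈ Icc (-1:ℝ) 1, ∀ t ∈ Icc s0 s1,
      HasDerivAt (p1 a) (-(2 / t) * p1 a t - fc c (p a t) + ρ a t) t)
    (hvU : ∀ a ∈ Icc (-1:ℝ) 1, ∀ t ∈ Icc s0 s1, v a t ≤ U0)
    (hpν : ∀ a ∈ Icc (-1:ℝ) 1, ∀ t ∈ Icc s0 s1, -ν ≤ p a t)
    (hp_1 : ∀ a ∈ Icc (-1:ℝ) 1, ∀ b ∈ Icc (-1:ℝ) 1, a ≠ b → ∀ t ∈ Icc s0 s1,
      |d1 (fun s => p s t) a b| ≤ P1)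
    (hp_2 : ∀ a ∈ Icc (-1:ℝ) 1, ∀ b ∈ Icc (-1:ℝ) 1, ∀ c ∈ Icc (-1:ℝ) 1, a ≠ b → b ≠ c → a ≠ c →
      ∀ t ∈ Icc s0 s1, |d2 (fun s => p s t) a b c| ≤ P2)
    (hρ0 : ∀ a ∈ Icc (-1:ℝ) 1, ∀ t ∈ Icc s0 s1, t * |ρ a t| < g0)
    (hρ1 : ∀ a ∈ Icc (-1:ℝ) 1, ∀ b ∈ Icc (-1:ℝ) 1, a ≠ b → ∀ t ∈ Icc s0 s1,
      t * |d1 (fun s => ρ s t) a b| < g1)
    (hρ2 : ∀ a ∈ Icc (-1:ℝ) 1, ∀ b ∈ Icc (-1:ℝ) 1, ∀ c ∈ Icc (-1:ℝ) 1, a ≠ b → b ≠ c → a ≠ c →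
      ∀ t ∈ Icc s0 s1, t * |d2 (fun s => ρ s t) a b c| < g2)
    (hinit : Inv v v1 p p1 s0 z0 z1 z2)
    (hνZ : ν + Z0 ≤ 1 / 2) (hUZ : U0 + Z0 ≤ 3) (hνUZ : ν + Z0 ≤ U0 + Z0)
    (hk1 : 1 / 4 + s1 ^ 2 * (4 * (ν + Z0) ^ 3) ≤ k)
    (hk2 : s1 ^ 2 * (4 * (U0 + Z0) ^ 3 + 7 * c * (U0 + Z0) ^ 6) - 9 / 4 ≤ k)
    (hZ0 : (z0 + g0 * (s1 - s0)) * Real.exp (k * (s1 - s0) / (2 * s0)) ≤ Z0)
    (hZ1 : (z1 + (2 * s1 * (6 * (U0 + Z0) ^ 2 + 21 * c * (U0 + Z0) ^ 5) * Z0 * P1 + g1) * (s1 - s0))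
      * Real.exp (k * (s1 - s0) / (2 * s0)) ≤ Z1)
    (hZ2 : (z2 + (s1 * ((6 * (U0 + Z0) ^ 2 + 21 * c * (U0 + Z0) ^ 5) *
          (2 * Z0 * P2 + Z1 * (2 * P1 + Z1))
        + 3 * (4 * (U0 + Z0) + 35 * c * (U0 + Z0) ^ 4) * Z0 * P1 ^ 2) + g2) * (s1 - s0))
      * Real.exp (k * (s1 - s0) / (2 * s0)) ≤ Z2) :
    ∀ t ∈ Icc s0 s1, Inv v v1 p p1 t Z0 Z1 Z2 := by
  have hs1 : 0 < s1 := hs.trans_le h01
  have hd : 0 ≤ s1 - s0 := by linarith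
  have hU : 0 ≤ U0 := hν.trans hνU
  have hexp : 1 ≤ Real.exp (k * (s1 - s0) / (2 * s0)) := Real.one_le_exp (by positivity)
  have big : ∀ {z g Z : ℝ}, 0 < z → 0 ≤ g →
      (z + g * (s1 - s0)) * Real.exp (k * (s1 - s0) / (2 * s0)) ≤ Z → 0 < Z := by
    intro z g Z hz hg hZ
    refine lt_of_lt_of_le ?_ hZ
    positivity
  have hZ0' : 0 < Z0 := big hz0 hg0 hZ0
  -- level 0
  have lev0 : ∀ a ∈ Icc (-1:ℝ) 1, ∀ t ∈ Icc s0 s1,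
      (t * (v1 a t - p1 a t) + (v a t - p a t) / 2) ^ 2 + (v a t - p a t) ^ 2 ≤ Z0 ^ 2 := by
    intro a ha
    have hex : ∀ t ∈ Icc s0 s1, ∃ w, HasDerivAt (fun t => v1 a t - p1 a t) w t := by
      intro t ht
      obtain ⟨w, hw⟩ := hv1' a ha t ht
      exact ⟨_, hw.fun_sub (hp1 a ha t ht)⟩
    refine psi_step (e := fun t => v a t - p a t) (e1 := fun t => v1 a t - p1 a t)
      (G := fun t => -(2 / t) * (v1 a t - p1 a t) - deriv (fun t => v1 a t - p1 a t) t)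
      (g := g0) hs h01 hz0 hg0 hk (fun t ht => (hv a ha t ht).fun_sub (hp a ha t ht)) ?_
      (hinit.l0 a ha) hZ0 ?_
    · intro t ht
      obtain ⟨w, hw⟩ := hex t ht
      refine hw.congr_deriv ?_
      rw [hw.deriv]
      ring
    · intro t ht hΨ
      have ht0 : 0 < t := hs.trans_le ht.1
      have h1 : |v a t - p a t| ≤ Z0 := abs_of_Psi hZ0'.le hΨ
      obtain ⟨h2, h3⟩ := abs_le.1 h1
      have h4 := hvU a ha t ht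
      have h5 := hpν a ha t ht
      have hode := hv1 a ha t ht (by linarith) (by linarith)
      have hder := eq_diff hode (hp1 a ha t ht)
      refine ⟨q2 c (v a t) (p a t), ρ a t, ?_, ?_, hρ0 a ha t ht⟩
      · rw [hder.deriv, q2_spec]
        ring
      · exact q_ok hc0 hc1 hν hνU hZ0'.le ht0 ht.2 hk1 hk2 (by linarith) (by linarith)
          (by linarith) (by linarith)
  have hvals : ∀ t ∈ Icc s0 s1, Vals c ν U0 Z0 (fun s => v s t) (fun s => p s t) := by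
    intro t ht
    exact ⟨fun a ha => hvU a ha t ht, fun a ha => hpν a ha t ht,
      fun a ha => abs_of_Psi hZ0'.le (lev0 a ha t ht)⟩
  have hode : ∀ a ∈ Icc (-1:ℝ) 1, ∀ t ∈ Icc s0 s1,
      HasDerivAt (v1 a) (-(2 / t) * v1 a t - fc c (v a t)) t := by
    intro a ha t ht
    have h1 := ((hvals t ht).bd hZ0'.le ha).1
    exact hv1 a ha t ht (by linarith [h1.1]) (by linarith [h1.2])
  -- level 1
  have hG1 : 0 ≤ 2 * s1 * (6 * (U0 + Z0) ^ 2 + 21 * c * (U0 + Z0) ^ 5) * Z0 * P1 + g1 := by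
    positivity
  have hZ1' : 0 < Z1 := big hz1 hG1 hZ1
  have lev1 : ∀ a ∈ Icc (-1:ℝ) 1, ∀ b ∈ Icc (-1:ℝ) 1, a ≠ b → ∀ t ∈ Icc s0 s1,
      (t * d1 (fun s => v1 s t - p1 s t) a b + d1 (fun s => v s t - p s t) a b / 2) ^ 2 +
        d1 (fun s => v s t - p s t) a b ^ 2 ≤ Z1 ^ 2 := by
    intro a ha b hb hab
    refine psi_step (e := fun t => d1 (fun s => v s t - p s t) a b)
      (e1 := fun t => d1 (fun s => v1 s t - p1 s t) a b)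
      (G := fun t => d1 (fun s => fc c (v s t) - fc c (p s t) + ρ s t) a b)
      hs h01 hz1 hG1 hk ?_ ?_ (hinit.l1 a ha b hb hab) hZ1 ?_
    · intro t ht
      exact hasDerivAt_d1 (x := fun s t => v s t - p s t) (x1 := fun s t => v1 s t - p1 s t)
        ((hv a ha t ht).fun_sub (hp a ha t ht)) ((hv b hb t ht).fun_sub (hp b hb t ht))
    · intro t ht
      exact eq_diff1 (hode a ha t ht) (hp1 a ha t ht) (hode b hb t ht) (hp1 b hb t ht)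
    · intro t ht _
      exact level1 hc0 hc1 hν hνU hZ0'.le hP1 (hs.trans_le ht.1) ht.2 hk1 hk2 (hvals t ht) ha hb
        (hp_1 a ha b hb hab t ht) (hρ1 a ha b hb hab t ht)
  -- level 2
  have hG2 : 0 ≤ s1 * ((6 * (U0 + Z0) ^ 2 + 21 * c * (U0 + Z0) ^ 5) *
      (2 * Z0 * P2 + Z1 * (2 * P1 + Z1))
        + 3 * (4 * (U0 + Z0) + 35 * c * (U0 + Z0) ^ 4) * Z0 * P1 ^ 2) + g2 := by
    positivity
  have lev2 : ∀ a ∈ Icc (-1:ℝ) 1, ∀ b ∈ Icc (-1:ℝ) 1, ∀ e ∈ Icc (-1:ℝ) 1, a ≠ b → b ≠ e → a ≠ e →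
      ∀ t ∈ Icc s0 s1,
      (t * d2 (fun s => v1 s t - p1 s t) a b e + d2 (fun s => v s t - p s t) a b e / 2) ^ 2 +
        d2 (fun s => v s t - p s t) a b e ^ 2 ≤ Z2 ^ 2 := by
    intro a ha b hb e he hab hbe hae
    refine psi_step (e := fun t => d2 (fun s => v s t - p s t) a b e)
      (e1 := fun t => d2 (fun s => v1 s t - p1 s t) a b e)
      (G := fun t => d2 (fun s => fc c (v s t) - fc c (p s t) + ρ s t) a b e)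
      hs h01 hz2 hG2 hk ?_ ?_ (hinit.l2 a ha b hb e he hab hbe hae) hZ2 ?_
    · intro t ht
      exact hasDerivAt_d2 (x := fun s t => v s t - p s t) (x1 := fun s t => v1 s t - p1 s t)
        ((hv a ha t ht).fun_sub (hp a ha t ht)) ((hv b hb t ht).fun_sub (hp b hb t ht))
        ((hv e he t ht).fun_sub (hp e he t ht))
    · intro t ht
      exact eq_diff2 (hode a ha t ht) (hp1 a ha t ht) (hode b hb t ht) (hp1 b hb t ht)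
        (hode e he t ht) (hp1 e he t ht)
    · intro t ht _
      exact level2 hc0 hc1 hν hνU hZ0'.le hZ1'.le hP1 hP2 (hs.trans_le ht.1) ht.2 hk1 hk2
        (hvals t ht) ha hb he
        (hp_1 a ha b hb hab t ht) (hp_1 a ha e he hae t ht) (hp_2 a ha b hb e he hab hbe hae t ht)
        (abs_of_Psi hZ1'.le (lev1 a ha b hb hab t ht))
        (abs_of_Psi hZ1'.le (lev1 a ha e he hae t ht)) (hρ2 a ha b hb e he hab hbe hae t ht)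
  intro t ht
  exact ⟨fun a ha => lev0 a ha t ht, fun a ha b hb hab => lev1 a ha b hb hab t ht,
    fun a ha b hb e he hab hbe hae => lev2 a ha b hb e he hab hbe hae t ht⟩

/-- First cell `[0, s1]`: all solutions start with slope zero and `v a 0 = p a 0`. -/
theorem cell_first {v v1 p p1 ρ : ℝ → ℝ → ℝ} {c s1 ν U0 C0 C1 C2 g0 g1 g2 P1 P2 k : ℝ}
    (hc0 : 0 ≤ c) (hc1 : c ≤ 1) (hs : 0 < s1)
    (hC0 : 0 < C0) (hC1 : 0 < C1) (hC2 : 0 < C2) (hg0 : 0 ≤ g0) (hg1 : 0 ≤ g1) (hg2 : 0 ≤ g2)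
    (hν : 0 ≤ ν) (hνU : ν ≤ U0) (hP1 : 0 ≤ P1) (hP2 : 0 ≤ P2) (hk : 0 ≤ k)
    (hv : ∀ a ∈ Icc (-1:ℝ) 1, ∀ t ∈ Icc 0 s1, HasDerivAt (v a) (v1 a t) t)
    (hv1 : ∀ a ∈ Icc (-1:ℝ) 1, ∀ t ∈ Ioc 0 s1, -1 / 2 ≤ v a t → v a t ≤ 3 →
      HasDerivAt (v1 a) (-(2 / t) * v1 a t - fc c (v a t)) t)
    (hv1' : ∀ a ∈ Icc (-1:ℝ) 1, ∀ t ∈ Icc 0 s1, ∃ w, HasDerivAt (v1 a) w t)
    (hp : ∀ a ∈ Icc (-1:ℝ) 1, ∀ t ∈ Icc 0 s1, HasDerivAt (p a) (p1 a t) t)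
    (hp1 : ∀ a ∈ Icc (-1:ℝ) 1, ∀ t ∈ Ioc 0 s1,
      HasDerivAt (p1 a) (-(2 / t) * p1 a t - fc c (p a t) + ρ a t) t)
    (hp1' : ∀ a ∈ Icc (-1:ℝ) 1, ContinuousAt (p1 a) 0)
    (h00 : ∀ a ∈ Icc (-1:ℝ) 1, v a 0 = p a 0)
    (h01 : ∀ a ∈ Icc (-1:ℝ) 1, v1 a 0 = 0 ∧ p1 a 0 = 0)
    (hvU : ∀ a ∈ Icc (-1:ℝ) 1, ∀ t ∈ Icc 0 s1, v a t ≤ U0)
    (hpν : ∀ a ∈ Icc (-1:ℝ) 1, ∀ t ∈ Icc 0 s1, -ν ≤ p a t)
    (hp_1 : ∀ a ∈ Icc (-1:ℝ) 1, ∀ b ∈ Icc (-1:ℝ) 1, a ≠ b → ∀ t ∈ Icc 0 s1,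
      |d1 (fun s => p s t) a b| ≤ P1)
    (hp_2 : ∀ a ∈ Icc (-1:ℝ) 1, ∀ b ∈ Icc (-1:ℝ) 1, ∀ c ∈ Icc (-1:ℝ) 1, a ≠ b → b ≠ c → a ≠ c →
      ∀ t ∈ Icc 0 s1, |d2 (fun s => p s t) a b c| ≤ P2)
    (hρ0 : ∀ a ∈ Icc (-1:ℝ) 1, ∀ t ∈ Ioc 0 s1, t * |ρ a t| < g0)
    (hρ1 : ∀ a ∈ Icc (-1:ℝ) 1, ∀ b ∈ Icc (-1:ℝ) 1, a ≠ b → ∀ t ∈ Ioc 0 s1,
      t * |d1 (fun s => ρ s t) a b| < g1)
    (hρ2 : ∀ a ∈ Icc (-1:ℝ) 1, ∀ b ∈ Icc (-1:ℝ) 1, ∀ c ∈ Icc (-1:ℝ) 1, a ≠ b → b ≠ c → a ≠ c →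
      ∀ t ∈ Ioc 0 s1, t * |d2 (fun s => ρ s t) a b c| < g2)
    (hνZ : ν + C0 * s1 ≤ 1 / 2) (hUZ : U0 + C0 * s1 ≤ 3)
    (hk1 : 1 / 4 + s1 ^ 2 * (4 * (ν + C0 * s1) ^ 3) ≤ k)
    (hk2 : s1 ^ 2 * (4 * (U0 + C0 * s1) ^ 3 + 7 * c * (U0 + C0 * s1) ^ 6) - 9 / 4 ≤ k)
    (hZ0 : k * C0 + 2 * g0 ≤ 2 * C0)
    (hZ1 : k * C1 + 2 * (2 * s1 * (6 * (U0 + C0 * s1) ^ 2 + 21 * c * (U0 + C0 * s1) ^ 5)
      * (C0 * s1) * P1 + g1) ≤ 2 * C1)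
    (hZ2 : k * C2 + 2 * (s1 * ((6 * (U0 + C0 * s1) ^ 2 + 21 * c * (U0 + C0 * s1) ^ 5) *
          (2 * (C0 * s1) * P2 + (C1 * s1) * (2 * P1 + (C1 * s1)))
        + 3 * (4 * (U0 + C0 * s1) + 35 * c * (U0 + C0 * s1) ^ 4) * (C0 * s1) * P1 ^ 2) + g2) ≤ 2 * C2) :
    Inv v v1 p p1 s1 (C0 * s1) (C1 * s1) (C2 * s1) := by
  have hU : 0 ≤ U0 := hν.trans hνU
  have hZ0' : 0 < C0 * s1 := by positivity
  have hZ1' : 0 < C1 * s1 := by positivity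
  have hmono : ∀ {C x t : ℝ}, 0 < C → t ∈ Ioc 0 s1 → x ≤ (C * t) ^ 2 → x ≤ (C * s1) ^ 2 := by
    intro C x t hC ht hx
    refine hx.trans ?_
    have := ht.1
    have := ht.2
    gcongr
  have hIcc : ∀ {t : ℝ}, t ∈ Ioc 0 s1 → t ∈ Icc 0 s1 := fun ht => Ioc_subset_Icc_self ht
  have h0mem : (0:ℝ) ∈ Icc 0 s1 := left_mem_Icc.2 hs.le
  have hcont1 : ∀ a ∈ Icc (-1:ℝ) 1, ContinuousAt (v1 a) 0 := by
    intro a ha
    obtain ⟨w, hw⟩ := hv1' a ha 0 h0mem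
    exact hw.continuousAt
  -- level 0
  have lev0 : ∀ a ∈ Icc (-1:ℝ) 1, ∀ t ∈ Ioc 0 s1,
      (t * (v1 a t - p1 a t) + (v a t - p a t) / 2) ^ 2 + (v a t - p a t) ^ 2 ≤ (C0 * t) ^ 2 := by
    intro a ha
    have hex : ∀ t ∈ Ioc 0 s1, ∃ w, HasDerivAt (fun t => v1 a t - p1 a t) w t := by
      intro t ht
      obtain ⟨w, hw⟩ := hv1' a ha t (hIcc ht)
      exact ⟨_, hw.fun_sub (hp1 a ha t ht)⟩
    refine psi_first (e := fun t => v a t - p a t) (e1 := fun t => v1 a t - p1 a t)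
      (G := fun t => -(2 / t) * (v1 a t - p1 a t) - deriv (fun t => v1 a t - p1 a t) t)
      (g := g0) hs hk hg0 hC0 hZ0 (fun t ht => (hv a ha t ht).fun_sub (hp a ha t ht)) ?_
      ?_ ?_ ?_ ?_
    · intro t ht
      obtain ⟨w, hw⟩ := hex t ht
      refine hw.congr_deriv ?_
      rw [hw.deriv]
      ring
    · rw [h00 a ha, sub_self]
    · rw [(h01 a ha).1, (h01 a ha).2, sub_self]
    · exact (hcont1 a ha).sub (hp1' a ha)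
    · intro t ht hΨ
      have ht0 : 0 < t := ht.1
      have h1 : |v a t - p a t| ≤ C0 * s1 := abs_of_Psi hZ0'.le hΨ
      obtain ⟨h2, h3⟩ := abs_le.1 h1
      have h4 := hvU a ha t (hIcc ht)
      have h5 := hpν a ha t (hIcc ht)
      have hode := hv1 a ha t ht (by linarith) (by linarith)
      have hder := eq_diff hode (hp1 a ha t ht)
      refine ⟨q2 c (v a t) (p a t), ρ a t, ?_, ?_, hρ0 a ha t ht⟩
      · rw [hder.deriv, q2_spec]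
        ring
      · exact q_ok hc0 hc1 hν hνU hZ0'.le ht0 ht.2 hk1 hk2 (by linarith) (by linarith)
          (by linarith) (by linarith)
  have hvals : ∀ t ∈ Ioc 0 s1, Vals c ν U0 (C0 * s1) (fun s => v s t) (fun s => p s t) := by
    intro t ht
    exact ⟨fun a ha => hvU a ha t (hIcc ht), fun a ha => hpν a ha t (hIcc ht),
      fun a ha => abs_of_Psi hZ0'.le (hmono hC0 ht (lev0 a ha t ht))⟩
  have hode : ∀ a ∈ Icc (-1:ℝ) 1, ∀ t ∈ Ioc 0 s1,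
      HasDerivAt (v1 a) (-(2 / t) * v1 a t - fc c (v a t)) t := by
    intro a ha t ht
    have h1 := ((hvals t ht).bd hZ0'.le ha).1
    exact hv1 a ha t ht (by linarith [h1.1]) (by linarith [h1.2])
  have z0 : ∀ a ∈ Icc (-1:ℝ) 1, v a 0 - p a 0 = 0 := fun a ha => by rw [h00 a ha, sub_self]
  have z1 : ∀ a ∈ Icc (-1:ℝ) 1, v1 a 0 - p1 a 0 = 0 := fun a ha => by
    rw [(h01 a ha).1, (h01 a ha).2, sub_self]
  have hc1' : ∀ a ∈ Icc (-1:ℝ) 1, ContinuousAt (fun t => v1 a t - p1 a t) 0 := fun a ha =>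
    (hcont1 a ha).sub (hp1' a ha)
  -- level 1
  have hG1 : 0 ≤ 2 * s1 * (6 * (U0 + C0 * s1) ^ 2 + 21 * c * (U0 + C0 * s1) ^ 5) * (C0 * s1) * P1
      + g1 := by
    positivity
  have lev1 : ∀ a ∈ Icc (-1:ℝ) 1, ∀ b ∈ Icc (-1:ℝ) 1, a ≠ b → ∀ t ∈ Ioc 0 s1,
      (t * d1 (fun s => v1 s t - p1 s t) a b + d1 (fun s => v s t - p s t) a b / 2) ^ 2 +
        d1 (fun s => v s t - p s t) a b ^ 2 ≤ (C1 * t) ^ 2 := by
    intro a ha b hb hab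
    refine psi_first (e := fun t => d1 (fun s => v s t - p s t) a b)
      (e1 := fun t => d1 (fun s => v1 s t - p1 s t) a b)
      (G := fun t => d1 (fun s => fc c (v s t) - fc c (p s t) + ρ s t) a b)
      hs hk hG1 hC1 hZ1 ?_ ?_ ?_ ?_ ?_ ?_
    · intro t ht
      exact hasDerivAt_d1 (x := fun s t => v s t - p s t) (x1 := fun s t => v1 s t - p1 s t)
        ((hv a ha t ht).fun_sub (hp a ha t ht)) ((hv b hb t ht).fun_sub (hp b hb t ht))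
    · intro t ht
      exact eq_diff1 (hode a ha t ht) (hp1 a ha t ht) (hode b hb t ht) (hp1 b hb t ht)
    · simp only [d1]
      rw [z0 a ha, z0 b hb, sub_self, zero_div]
    · simp only [d1]
      rw [z1 a ha, z1 b hb, sub_self, zero_div]
    · unfold d1
      exact ((hc1' b hb).sub (hc1' a ha)).div_const _
    · intro t ht _
      exact level1 hc0 hc1 hν hνU hZ0'.le hP1 ht.1 ht.2 hk1 hk2 (hvals t ht) ha hb
        (hp_1 a ha b hb hab t (hIcc ht)) (hρ1 a ha b hb hab t ht)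
  -- level 2
  have hG2 : 0 ≤ s1 * ((6 * (U0 + C0 * s1) ^ 2 + 21 * c * (U0 + C0 * s1) ^ 5) *
      (2 * (C0 * s1) * P2 + (C1 * s1) * (2 * P1 + (C1 * s1)))
        + 3 * (4 * (U0 + C0 * s1) + 35 * c * (U0 + C0 * s1) ^ 4) * (C0 * s1) * P1 ^ 2) + g2 := by
    positivity
  have lev2 : ∀ a ∈ Icc (-1:ℝ) 1, ∀ b ∈ Icc (-1:ℝ) 1, ∀ e ∈ Icc (-1:ℝ) 1, a ≠ b → b ≠ e → a ≠ e →
      ∀ t ∈ Ioc 0 s1,
      (t * d2 (fun s => v1 s t - p1 s t) a b e + d2 (fun s => v s t - p s t) a b e / 2) ^ 2 +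
        d2 (fun s => v s t - p s t) a b e ^ 2 ≤ (C2 * t) ^ 2 := by
    intro a ha b hb e he hab hbe hae
    refine psi_first (e := fun t => d2 (fun s => v s t - p s t) a b e)
      (e1 := fun t => d2 (fun s => v1 s t - p1 s t) a b e)
      (G := fun t => d2 (fun s => fc c (v s t) - fc c (p s t) + ρ s t) a b e)
      hs hk hG2 hC2 hZ2 ?_ ?_ ?_ ?_ ?_ ?_
    · intro t ht
      exact hasDerivAt_d2 (x := fun s t => v s t - p s t) (x1 := fun s t => v1 s t - p1 s t)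
        ((hv a ha t ht).fun_sub (hp a ha t ht)) ((hv b hb t ht).fun_sub (hp b hb t ht))
        ((hv e he t ht).fun_sub (hp e he t ht))
    · intro t ht
      exact eq_diff2 (hode a ha t ht) (hp1 a ha t ht) (hode b hb t ht) (hp1 b hb t ht)
        (hode e he t ht) (hp1 e he t ht)
    · simp only [d2, d1]
      rw [z0 a ha, z0 b hb, z0 e he]
      simp
    · simp only [d2, d1]
      rw [z1 a ha, z1 b hb, z1 e he]
      simp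
    · unfold d2 d1
      exact ((((hc1' e he).sub (hc1' b hb)).div_const _).sub
        (((hc1' b hb).sub (hc1' a ha)).div_const _)).div_const _
    · intro t ht _
      exact level2 hc0 hc1 hν hνU hZ0'.le hZ1'.le hP1 hP2 ht.1 ht.2 hk1 hk2
        (hvals t ht) ha hb he
        (hp_1 a ha b hb hab t (hIcc ht)) (hp_1 a ha e he hae t (hIcc ht))
        (hp_2 a ha b hb e he hab hbe hae t (hIcc ht))
        (abs_of_Psi hZ1'.le (hmono hC1 ht (lev1 a ha b hb hab t ht)))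
        (abs_of_Psi hZ1'.le (hmono hC1 ht (lev1 a ha e he hae t ht)))
        (hρ2 a ha b hb e he hab hbe hae t ht)
  have hs1m : s1 ∈ Ioc 0 s1 := ⟨hs, le_rfl⟩
  exact ⟨fun a ha => lev0 a ha s1 hs1m, fun a ha b hb hab => lev1 a ha b hb hab s1 hs1m,
    fun a ha b hb e he hab hbe hae => lev2 a ha b hb e he hab hbe hae s1 hs1m⟩

end Pool.Agent.H228
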