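import Mathlib.Tactic.NormNum

/-! Kernel-evaluated checker for the certified approximations (definitions only). Everything is in
natural numbers; recursors are used directly so that the kernel evaluates the checks fast. -/

set_option autoImplicit false

namespace Pool.Agent.H228

/-- `a / b ≤ cdiv a b` -/
def cdiv (a b : ℕ) : ℕ := Nat.succ (Nat.div a b)

/-- evaluate `n` before passing it to `k` -/
noncomputable def force {β : Type} (n : ℕ) (k : ℕ → β) : β :=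
  Nat.rec (motive := fun _ => β) (k 0) (fun m _ => k (Nat.succ m)) n

/-- `n` digits of `N` in base `B` -/
noncomputable def digs (B n N : ℕ) : List ℕ :=
  Nat.rec (motive := fun _ => ℕ → List ℕ) (fun _ => [])
    (fun _ ih N => Nat.mod N B :: ih (Nat.div N B)) n N

/-- `n` rows of `w` digits of `N` in base `B` -/
noncomputable def rowsOf (B w n N : ℕ) : List (List ℕ) :=
  Nat.rec (motive := fun _ => ℕ → List (List ℕ)) (fun _ => [])
    (fun _ ih N => digs B w N :: ih (Nat.div N (Nat.pow B w))) n N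

/-- the integer polynomial with coefficients `n_ij - O` -/
def toI (O : ℕ) (D : List (List ℕ)) : List (List ℤ) :=
  D.map (fun r => r.map (fun (n : ℕ) => ((n : ℤ) - (O : ℤ))))

/-- `Σ n_j X^j` -/
noncomputable def hor (X : ℕ) (l : List ℕ) : ℕ :=
  List.rec (motive := fun _ => ℕ) 0 (fun c _ acc => Nat.add c (Nat.mul X acc)) l

/-- with `n_j - O` as coefficients: `Σ |.|`, `Σ j |.|`, `Σ (j choose 2) |.|`, passed to `k` -/
noncomputable def nrm {β : Type} (O : ℕ) (l : List ℕ) : (ℕ → ℕ → ℕ → β) → β :=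
  List.rec (motive := fun _ => (ℕ → ℕ → ℕ → β) → β) (fun k => k 0 0 0)
    (fun n _ ih k => ih (fun a b c =>
      k (Nat.add (Nat.add (Nat.sub n O) (Nat.sub O n)) a) (Nat.add a b) (Nat.add b c))) l

/-- `N0, N1, N2, M1, M2` of `toI O D`, passed to `k` -/
noncomputable def nrmAll {β : Type} (O : ℕ) (D : List (List ℕ)) : (ℕ → ℕ → ℕ → ℕ → ℕ → β) → β :=
  List.rec (motive := fun _ => (ℕ → ℕ → ℕ → ℕ → ℕ → β) → β) (fun k => k 0 0 0 0 0)
    (fun r _ ih k => ih (fun A B C m1 m2 => nrm O r (fun a b c =>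
      k (Nat.add a A) (Nat.add b B) (Nat.add c C) (Nat.add A m1)
        (Nat.add (Nat.mul 2 m1) m2)))) D

/-- values of `Σ h_i Y^i` and of its first two derivatives at `Y = 2^w`, passed to `k` -/
noncomputable def go3 {β : Type} (w : ℕ) (l : List ℕ) : (ℕ → ℕ → ℕ → β) → β :=
  List.rec (motive := fun _ => (ℕ → ℕ → ℕ → β) → β) (fun k => k 0 0 0)
    (fun h _ ih k => ih (fun E E1 E2 =>
      k (Nat.add h (Nat.shiftLeft E w)) (Nat.add E (Nat.shiftLeft E1 w))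
        (Nat.add (Nat.mul 2 E1) (Nat.shiftLeft E2 w)))) l

/-- the list `[v, ..., v]` -/
noncomputable def repN (v n : ℕ) : List ℕ := Nat.rec [] (fun _ ih => v :: ih) n

/-- `Σ_{i<n} Y^i` -/
def gsum1 (Y n : ℕ) : ℕ := Nat.div (Nat.sub (Nat.pow Y n) 1) (Nat.sub Y 1)
/-- `Σ_{i<n} 2^(n-1-i) Y^i` -/
def gsum2 (Y n : ℕ) : ℕ := Nat.div (Nat.sub (Nat.pow Y n) (Nat.pow 2 n)) (Nat.sub Y 2)

/-- parameters common to a chain of cells: scale `2^s`, digit size `b` (offset `2^(b-1)`), degrees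
`dx`, `da`, coefficient `c` of `v^7` (0 or 1), half the number of subintervals per cell -/
structure Par where
  s : ℕ
  b : ℕ
  dx : ℕ
  da : ℕ
  c : ℕ
  hn : ℕ

/-- one cell `[(M-H)/2^g, (M+H)/2^g]`, coefficients packed in `N`, slot size `k`, exponents of the
residual bounds, error bounds at the beginning and at the end (unit `2^(-s)`) -/
structure CellD where
  M : ℕ
  H : ℕ
  g : ℕ
  k : ℕ
  e1 : ℕ
  e2 : ℕ
  e3 : ℕ
  i0 : ℕ
  i1 : ℕ
  i2 : ℕ
  o0 : ℕ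
  o1 : ℕ
  o2 : ℕ
  N : ℕ

noncomputable def CellD.rows (P : Par) (C : CellD) : List (List ℕ) :=
  rowsOf (Nat.pow 2 P.b) (Nat.succ P.da) (Nat.succ P.dx) C.N

/-- offset of the digits -/
def Par.O (P : Par) : ℕ := Nat.pow 2 (Nat.sub P.b 1)

/-- the polynomial `S p(t)`, `t = (M + H x) / G` -/
noncomputable def CellD.poly (P : Par) (C : CellD) : List (List ℤ) := toI P.O (C.rows P)

/-- degrees of the residual polynomial -/
def Par.I (P : Par) : ℕ := (4 + 3 * P.c) * P.dx + 1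
def Par.J (P : Par) : ℕ := (4 + 3 * P.c) * P.da

/-- weighted norms of `zeros z ++ geo n`, `geo n = [2^(n-1), ..., 2, 1]` -/
def geoN0 (n : ℕ) : ℕ := 2 ^ n - 1
def geoN1 (n z : ℕ) : ℕ := (2 ^ n - 1 - n) + z * (2 ^ n - 1)
def geoN2 (n z : ℕ) : ℕ :=
  (2 ^ n - 1 - n - n * (n - 1) / 2) + z * (2 ^ n - 1 - n) + (z * (z - 1) / 2) * (2 ^ n - 1)

/-- `N0, N1, N2` of the bounding polynomial (`geo n = [2^(n-1), ..., 2, 1]`)
`2^e1 (ones (dx-1)) ⊗ (ones (da+1)) + 2^e2 (zeros (dx-1) ++ geo (I+2-dx)) ⊗ geo (J+1)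
 + 2^e3 (geo (I+1)) ⊗ (zeros (da+1) ++ geo (J-da))` -/
def nbAll {β : Type} (P : Par) (C : CellD) (k : ℕ → ℕ → ℕ → β) : β :=
  let nx := P.dx - 1
  let nj := P.da + 1
  let nI := P.I + 1
  let nJ := P.J + 1
  let x0 := 2 ^ C.e1 * nx
  let x2 := 2 ^ C.e2 * geoN0 (nI - nx)
  let x3 := 2 ^ C.e3 * geoN0 nI
  k (x0 * nj + x2 * geoN0 nJ + x3 * geoN0 (nJ - nj))
    (x0 * (P.da * nj / 2) + x2 * geoN1 nJ 0 + x3 * geoN1 (nJ - nj) nj)
    (x0 * (nj * P.da * (P.da - 1) / 6) + x2 * geoN2 nJ 0 + x3 * geoN2 (nJ - nj) nj)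

/-- value of the bounding polynomial at `(Y, X)` -/
def offv (P : Par) (C : CellD) (Y X : ℕ) : ℕ :=
  let nx := P.dx - 1
  let nj := P.da + 1
  let nI := P.I + 1
  let nJ := P.J + 1
  Nat.add (Nat.add (Nat.mul (Nat.pow 2 C.e1) (Nat.mul (gsum1 Y nx) (gsum1 X nj)))
    (Nat.mul (Nat.pow 2 C.e2) (Nat.mul (Nat.mul (Nat.pow Y nx) (gsum2 Y (nI - nx)))
      (gsum2 X nJ))))
    (Nat.mul (Nat.pow 2 C.e3) (Nat.mul (gsum2 Y nI)
      (Nat.mul (Nat.pow X nj) (gsum2 X (nJ - nj)))))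

/-- both one-sided mask checks: all coefficients of `A - B'` are bounded by those of `OFF` -/
def maskOK (off A B' top : ℕ) : Bool :=
  Nat.ble B' (Nat.add off A) && Nat.ble A (Nat.add off B') &&
  Nat.beq (Nat.land (Nat.sub (Nat.add off A) B') top) 0 &&
  Nat.beq (Nat.land (Nat.sub (Nat.add off B') A) top) 0

/-- residual check of one cell: the polynomial
`G^2 S^(3+3c) [(M+Hx) P_xx + 2 H P_x] + H^2 (M+Hx) (S^(3c) P^4 + c P^7)` is bounded coefficientwise by the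
bounding polynomial; `A0, m1, m2` are the norms `N0, M1, M2` of `P` -/
noncomputable def resOK (P : Par) (C : CellD) (A0 m1 m2 : ℕ) : Bool :=
  let w := C.k * (P.J + 1)
  let X := Nat.pow 2 C.k
  let Y := Nat.pow 2 w
  let og := Nat.mul P.O (gsum1 X (P.da + 1))
  let top := Nat.mul (Nat.pow 2 (C.k - 1))
    (Nat.div (Nat.sub (Nat.pow 2 (C.k * ((P.I + 1) * (P.J + 1)))) 1) (Nat.sub (Nat.pow 2 C.k) 1))
  let mh := Nat.add C.M (Nat.mul C.H Y)
  let S3 := Nat.pow 2 (3 * P.c * P.s)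
  let lf := Nat.mul (Nat.pow 2 (2 * C.g)) (Nat.pow 2 ((3 + 3 * P.c) * P.s))
  -- a priori bounds
  Nat.ble 2 C.k && Nat.ble 2 P.dx &&
  Nat.blt (Nat.add (Nat.mul lf (Nat.add (Nat.mul (C.M + C.H) m2) (Nat.mul (2 * C.H) m1)))
      (Nat.mul (Nat.mul (C.H ^ 2) (C.M + C.H))
        (Nat.add (Nat.mul S3 (Nat.pow A0 4)) (Nat.mul P.c (Nat.pow A0 7)))))
      (Nat.pow 2 (C.k - 2)) &&
  nbAll P C (fun b0 _ _ => Nat.blt b0 (Nat.pow 2 (C.k - 2))) &&
  go3 w ((C.rows P).map (hor X)) (fun E E1 E2 =>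
    go3 w (repN og (P.dx + 1)) (fun F F1 F2 =>
      let d := Nat.add (Nat.sub E F) (Nat.sub F E)
      let d2 := Nat.mul d d
      let d4 := Nat.mul d2 d2
      let d7 := Nat.mul P.c (Nat.mul d4 (Nat.mul d2 d))
      let hm := Nat.mul (C.H ^ 2) mh
      let lp := Nat.mul lf (Nat.add (Nat.mul mh E2) (Nat.mul (2 * C.H) E1))
      let ln := Nat.mul lf (Nat.add (Nat.mul mh F2) (Nat.mul (2 * C.H) F1))
      let q4 := Nat.mul hm (Nat.mul S3 d4)
      let q7 := Nat.mul hm d7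
      let off := offv P C Y X
      if Nat.ble F E then
        maskOK off (Nat.add lp (Nat.add q4 q7)) ln top
      else
        maskOK off (Nat.add lp q4) (Nat.add ln q7) top))

/-! ### recursion for the error bounds -/

/-- state `(p, m, w)`: `w = hn^len`, `p - m = Σ (n_i - O) x^i hn^(len-1-i)`, where `x = y` or `x = -y`
(`neg = true`) -/
noncomputable def horS {β : Type} (O hn y : ℕ) (neg : Bool) (l : List ℕ) : (ℕ → ℕ → ℕ → β) → β :=
  List.rec (motive := fun _ => (ℕ → ℕ → ℕ → β) → β) (fun k => k 0 0 1)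
    (fun n _ ih k => ih (fun p m w =>
      cond neg (k (Nat.add (Nat.mul n w) (Nat.mul y m)) (Nat.add (Nat.mul O w) (Nat.mul y p))
          (Nat.mul w hn))
        (k (Nat.add (Nat.mul n w) (Nat.mul y p)) (Nat.add (Nat.mul O w) (Nat.mul y m))
          (Nat.mul w hn)))) l

/-- `max a b` -/
def mx (a b : ℕ) : ℕ := Nat.add a (Nat.sub b a)

/-- the constant `k` of `cell_step`, unit `1/S`; time `s1 = sn1/Gd` -/
def kOf (S c Gd nu cap Uc sn1 : ℕ) : ℕ :=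
  mx (Nat.add (cdiv (Nat.mul (Nat.mul 4 (Nat.pow (Nat.add nu cap) 3)) (Nat.pow sn1 2))
        (Nat.mul (Nat.pow S 2) (Nat.pow Gd 2))) (Nat.div S 4))
    (Nat.sub (cdiv (Nat.mul (Nat.pow sn1 2)
        (Nat.add (Nat.mul 4 (Nat.mul (Nat.pow Uc 3) (Nat.pow S 3)))
          (Nat.mul (Nat.mul 7 c) (Nat.pow Uc 6))))
        (Nat.mul (Nat.pow S 5) (Nat.pow Gd 2))) (Nat.mul 9 (Nat.div S 4)))

/-- `S^5 (6 U^2 + 21 c U^5)` in units -/
def m6Of (S c Uc : ℕ) : ℕ :=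
  Nat.add (Nat.mul 6 (Nat.mul (Nat.pow Uc 2) (Nat.pow S 3))) (Nat.mul (Nat.mul 21 c) (Nat.pow Uc 5))
/-- `S^4 (4 U + 35 c U^4)` in units -/
def m3Of (S c Uc : ℕ) : ℕ :=
  Nat.add (Nat.mul 4 (Nat.mul Uc (Nat.pow S 3))) (Nat.mul (Nat.mul 35 c) (Nat.pow Uc 4))

/-- forcing terms of levels one and two, unit `1/S` -/
def for1 (S Gd A1 g1 sn1 m6 Z0 : ℕ) : ℕ :=
  Nat.add (cdiv (Nat.mul (Nat.mul 2 sn1) (Nat.mul m6 (Nat.mul Z0 A1)))
    (Nat.mul Gd (Nat.pow S 6))) g1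
def for2 (S Gd A1 A2 g2 sn1 m6 m3 Z0 Z1 : ℕ) : ℕ :=
  Nat.add (cdiv (Nat.mul sn1 (Nat.add
      (Nat.mul m6 (Nat.add (Nat.mul 2 (Nat.mul Z0 A2))
        (Nat.mul Z1 (Nat.add (Nat.mul 2 A1) Z1))))
      (Nat.mul 3 (Nat.mul m3 (Nat.mul Z0 (Nat.pow A1 2))))))
    (Nat.mul Gd (Nat.pow S 6))) g2

/-- constants of a cell used in the recursion: norms and residual bounds (unit `1/S`) -/
structure Cst where
  S : ℕ
  c : ℕ
  Gd : ℕ
  H : ℕ
  nu : ℕ
  A1 : ℕ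
  A2 : ℕ
  g0 : ℕ
  g1 : ℕ
  g2 : ℕ

/-- one subinterval `[sn/Gd, (sn+H)/Gd]`; `W` bounds `S |p|` at its beginning; passes the new error
bounds to `k` -/
noncomputable def subStep (K : Cst) (sn W z0 z1 z2 : ℕ) (k : ℕ → ℕ → ℕ → Bool) : Bool :=
  let sn1 := Nat.add sn K.H
  force (Nat.add z0 (cdiv (Nat.mul K.g0 K.H) K.Gd)) fun y0 =>
  force (Nat.add (Nat.mul 3 y0) 2) fun cap =>
  force (Nat.add (mx (Nat.add W z0) K.nu) cap) fun Uc =>
  force (kOf K.S K.c K.Gd K.nu cap Uc sn1) fun kk =>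
  force (cdiv (Nat.mul kk K.H) (Nat.mul 2 sn)) fun xx =>
  force (Nat.add (Nat.add K.S xx) (cdiv (Nat.mul xx xx) K.S)) fun ex =>
  force (cdiv (Nat.mul y0 ex) K.S) fun Z0 =>
  force (m6Of K.S K.c Uc) fun m6 =>
  force (for1 K.S K.Gd K.A1 K.g1 sn1 m6 Z0) fun f1 =>
  force (cdiv (Nat.mul (Nat.add z1 (cdiv (Nat.mul f1 K.H) K.Gd)) ex) K.S) fun Z1 =>
  force (for2 K.S K.Gd K.A1 K.A2 K.g2 sn1 m6 (m3Of K.S K.c Uc) Z0 Z1) fun f2 =>
  force (cdiv (Nat.mul (Nat.add z2 (cdiv (Nat.mul f2 K.H) K.Gd)) ex) K.S) fun Z2 =>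
  Nat.ble Z0 cap && Nat.ble xx K.S && Nat.ble (Nat.mul 2 (Nat.add K.nu cap)) K.S &&
    Nat.ble Uc (Nat.mul 3 K.S) && k Z0 Z1 Z2

/-- `S |p|` at the point `x = (q - hn)/hn` of the cell, for all `a`: bounded by the value at `a = 0`
plus `V` -/
noncomputable def wOf {β : Type} (P : Par) (col : List ℕ) (V q : ℕ) (k : ℕ → β) : β :=
  horS P.O P.hn (Nat.add (Nat.sub q P.hn) (Nat.sub P.hn q)) (Nat.blt q P.hn) col (fun p m w =>
    force (Nat.add V (cdiv (Nat.mul P.hn (Nat.add (Nat.sub p m) (Nat.sub m p))) w)) k)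

/-- subintervals `q, q+1, ..., q+n-1` -/
noncomputable def subRec (P : Par) (K : Cst) (B0 : ℕ) (col : List ℕ) (V : ℕ) (n : ℕ) :
    ℕ → ℕ → ℕ → ℕ → (ℕ → ℕ → ℕ → Bool) → Bool :=
  Nat.rec (motive := fun _ => ℕ → ℕ → ℕ → ℕ → (ℕ → ℕ → ℕ → Bool) → Bool)
    (fun _ z0 z1 z2 k => k z0 z1 z2)
    (fun _ ih q z0 z1 z2 k =>
      wOf P col V q (fun W =>
        subStep K (Nat.add B0 (Nat.mul K.H q)) W z0 z1 z2 (fun Z0 Z1 Z2 => ih (Nat.succ q) Z0 Z1 Z2 k))) n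

/-- first column of the digits -/
noncomputable def colOf (D : List (List ℕ)) : List ℕ := D.map (fun r => r.headD 0)

/-- residual bounds in units `1/S` -/
def gBnd (P : Par) (C : CellD) (nb : ℕ) : ℕ :=
  cdiv nb (Nat.mul (Nat.pow 2 (C.g + (3 + 3 * P.c) * P.s)) (Nat.pow C.H 2))

/-- a cell `[(M-H)/G, (M+H)/G]` with `0 < H < M` -/
noncomputable def cellOK (P : Par) (C : CellD) : Bool :=
  Nat.blt 0 C.H && Nat.blt C.H C.M && Nat.blt 0 P.hn && Nat.ble 2 P.s && Nat.ble P.c 1 &&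
  Nat.blt 0 P.b && Nat.blt 0 C.i0 && Nat.blt 0 C.i1 && Nat.blt 0 C.i2 &&
  nrmAll P.O (C.rows P) (fun A0 A1 A2 m1 m2 =>
  force A0 fun A0 => force A1 fun A1 => force A2 fun A2 => force m1 fun m1 => force m2 fun m2 =>
    resOK P C A0 m1 m2 &&
    nbAll P C (fun b0 b1 b2 =>
    force (gBnd P C b0) fun g0 => force (gBnd P C b1) fun g1 => force (gBnd P C b2) fun g2 =>
      nrm P.O (colOf (C.rows P)) (fun c0 _ _ =>
      force (Nat.sub A0 c0) fun V =>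
      force (Nat.sub (Nat.add A0 (Nat.mul 2 P.O)) (Nat.mul 2 ((colOf (C.rows P)).headD 0))) fun nu =>
        let Gd := P.hn * 2 ^ C.g
        subRec P ⟨Nat.pow 2 P.s, P.c, Gd, C.H, nu, A1, A2, g0, g1, g2⟩ (P.hn * (C.M - C.H))
          (colOf (C.rows P)) V (2 * P.hn) 0 C.i0 C.i1 C.i2
          (fun Z0 Z1 Z2 => Nat.ble Z0 C.o0 && Nat.ble Z1 C.o1 && Nat.ble Z2 C.o2))))

/-! ### first cell `[0, H/G]` -/

/-- all entries equal `O` -/
noncomputable def allEq (O : ℕ) (l : List ℕ) : Bool :=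
  List.rec (motive := fun _ => Bool) true (fun a _ ih => Nat.beq a O && ih) l

/-- the first two rows are `[O + ac, O + ar, O, ...]` and `[O, O, ...]` -/
noncomputable def firstRows (O ac ar : ℕ) (D : List (List ℕ)) : Bool :=
  match D with
  | (x :: y :: r) :: r1 :: _ =>
    Nat.beq x (Nat.add O ac) && Nat.beq y (Nat.add O ar) && allEq O r && allEq O r1
  | _ => false

/-- the first cell `[0, H/G]` (`M = 0`) of the family `v(0) = (ac + ar a)/S`, `v'(0) = 0` -/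
noncomputable def firstOK (P : Par) (ac ar : ℕ) (C : CellD) : Bool :=
  Nat.beq C.M 0 && Nat.blt 0 C.H && Nat.ble 2 P.s && Nat.ble P.c 1 && Nat.blt 0 P.b &&
  firstRows P.O ac ar (C.rows P) &&
  nrmAll P.O (C.rows P) (fun A0 A1 A2 m1 m2 =>
  force A0 fun A0 => force A1 fun A1 => force A2 fun A2 => force m1 fun m1 => force m2 fun m2 =>
    resOK P C A0 m1 m2 &&
    nbAll P C (fun b0 b1 b2 =>
    force (gBnd P C b0) fun g0 => force (gBnd P C b1) fun g1 => force (gBnd P C b2) fun g2 =>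
      force (Nat.sub A0 (Nat.mul 2 ac)) fun nu =>
      let S := Nat.pow 2 P.s
      let G := Nat.pow 2 C.g
      force (cdiv (Nat.mul 8 (Nat.mul g0 C.H)) G) fun cap =>
      force (Nat.add (Nat.add ac ar) cap) fun Uc =>
      force (kOf S P.c G nu cap Uc C.H) fun kk =>
      force (Nat.mul (Nat.sub (Nat.mul 2 S) kk) G) fun den =>
      force (cdiv (Nat.mul 2 (Nat.mul g0 (Nat.mul S C.H))) den) fun Z0 =>
      force (m6Of S P.c Uc) fun m6 =>
      force (for1 S G A1 g1 C.H m6 Z0) fun f1 =>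
      force (cdiv (Nat.mul 2 (Nat.mul f1 (Nat.mul S C.H))) den) fun Z1 =>
      force (for2 S G A1 A2 g2 C.H m6 (m3Of S P.c Uc) Z0 Z1) fun f2 =>
      force (cdiv (Nat.mul 2 (Nat.mul f2 (Nat.mul S C.H))) den) fun Z2 =>
      Nat.ble (Nat.mul 4 kk) (Nat.mul 7 S) && Nat.ble Z0 cap &&
        Nat.ble (Nat.mul 2 (Nat.add nu cap)) S && Nat.ble Uc (Nat.mul 3 S) &&
        Nat.ble nu (Nat.add ac ar) &&
        Nat.ble Z0 C.o0 && Nat.ble Z1 C.o1 && Nat.ble Z2 C.o2))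

/-! ### jump between two cells -/

/-- sum of two lists -/
noncomputable def addL (l : List ℕ) : List ℕ → List ℕ :=
  List.rec (motive := fun _ => List ℕ → List ℕ) (fun m => m)
    (fun a _ ih m => Nat.add a (m.headD 0) :: ih m.tail) l

/-- multiple of a list -/
noncomputable def scL (c : ℕ) (l : List ℕ) : List ℕ :=
  List.rec (motive := fun _ => List ℕ) [] (fun a _ ih => Nat.mul c a :: ih) l

/-- for `Q(x) = Σ D_i x^i`: lists `p, n, dp, dn` with `Q(±1) = p ± n`, `Q'(±1) = dp ± dn` (upper signs: +1;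
at `-1`: `p - n`, `dp - dn`) -/
noncomputable def evAll {β : Type} (D : List (List ℕ)) :
    (List ℕ → List ℕ → List ℕ → List ℕ → β) → β :=
  List.rec (motive := fun _ => (List ℕ → List ℕ → List ℕ → List ℕ → β) → β)
    (fun k => k [] [] [] [])
    (fun r _ ih k => ih (fun p n dp dn => k (addL r n) p (addL p dn) (addL n dp))) D

/-- norms `Σ |l_j - m_j|`, `Σ j |.|`, `Σ (j choose 2) |.|` of the difference of two lists -/
noncomputable def nrmD {β : Type} (l : List ℕ) : List ℕ → (ℕ → ℕ → ℕ → β) → β :=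
  List.rec (motive := fun _ => List ℕ → (ℕ → ℕ → ℕ → β) → β) (fun m k => nrm 0 m k)
    (fun n _ ih m k => ih m.tail (fun a b c =>
      k (Nat.add (Nat.add (Nat.sub n (m.headD 0)) (Nat.sub (m.headD 0) n)) a) (Nat.add a b)
        (Nat.add b c))) l

/-- rows `[1], ..., [1]` -/
noncomputable def ones (n : ℕ) : List (List ℕ) := Nat.rec [] (fun _ ih => [1] :: ih) n

/-- the data `(C'.i0, C'.i1, C'.i2)` bound the errors with respect to the polynomial of `C'` at the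
common end point, if `(C.o0, C.o1, C.o2)` do for the polynomial of `C` -/
noncomputable def jumpOK (P : Par) (C C' : CellD) : Bool :=
  Nat.beq ((C.M + C.H) * 2 ^ C'.g) ((C'.M - C'.H) * 2 ^ C.g) && Nat.blt 0 C.H && Nat.blt 0 C'.H &&
  Nat.ble C'.H C'.M && Nat.blt 0 P.b &&
  evAll (C'.rows P) fun p' n' dp' dn' => evAll (C.rows P) fun p n dp dn =>
  evAll (ones (P.dx + 1)) fun p1 n1 dp1 dn1 =>
  force (p1.headD 0) fun p1 => force (n1.headD 0) fun n1 =>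
  force (dp1.headD 0) fun dp1 => force (dn1.headD 0) fun dn1 =>
  force P.O fun O =>
  force (C.H * (C'.M - C'.H)) fun A => force (C'.H * (C.M + C.H)) fun B =>
  nrmD (addL p' (repN (Nat.mul O (Nat.add n1 (Nat.add p1 n1))) (P.da + 1)))
    (addL (addL n' (addL p n)) (repN (Nat.mul O p1) (P.da + 1))) fun j0 j1 j2 =>
  nrmD (addL (scL A dp')
      (repN (Nat.add (Nat.mul A (Nat.mul O dn1)) (Nat.mul B (Nat.mul O (Nat.add dp1 dn1))))
        (P.da + 1)))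
    (addL (addL (scL A dn') (scL B (addL dp dn))) (repN (Nat.mul A (Nat.mul O dp1)) (P.da + 1)))
    fun k0 k1 k2 =>
  force (C.H * C'.H) fun hh =>
  Nat.ble (Nat.add C.o0 (Nat.add (cdiv k0 hh) (cdiv (Nat.mul 3 j0) 2))) C'.i0 &&
  Nat.ble (Nat.add C.o1 (Nat.add (cdiv k1 hh) (cdiv (Nat.mul 3 j1) 2))) C'.i1 &&
  Nat.ble (Nat.add C.o2 (Nat.add (cdiv k2 hh) (cdiv (Nat.mul 3 j2) 2))) C'.i2

/-! ### bounds at the end of a cell -/

/-- claimed bounds on a segment of the parameter interval, in units `1/S`: value, slope `t v'`, first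
divided differences of value and slope with respect to `a` -/
structure SegC where
  vl : ℤ
  vh : ℤ
  yl : ℤ
  yh : ℤ
  Dl : ℤ
  Dh : ℤ
  El : ℤ
  Eh : ℤ

/-- coefficients (positive and negative parts) of `2^(w (n-1)) A((±p + b)/2^w)` as a polynomial in `b`,
where `A` has the `n` coefficients `lp_j - lm_j`; third argument: `2^(w n)` -/
noncomputable def shL {β : Type} (neg : Bool) (p w : ℕ) (lp : List ℕ) :
    List ℕ → (List ℕ → List ℕ → ℕ → β) → β :=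
  List.rec (motive := fun _ => List ℕ → (List ℕ → List ℕ → ℕ → β) → β) (fun _ k => k [] [] 1)
    (fun x _ ih lm k => ih lm.tail (fun QP QM W =>
      cond neg
        (k (addL (scL p QM) (Nat.mul x W :: QP)) (addL (scL p QP) (Nat.mul (lm.headD 0) W :: QM))
          (Nat.mul W (Nat.pow 2 w)))
        (k (addL (scL p QP) (Nat.mul x W :: QP)) (addL (scL p QM) (Nat.mul (lm.headD 0) W :: QM))
          (Nat.mul W (Nat.pow 2 w))))) lp

/-- sup bounds `c0 ± r` and derivative bounds `c1 ± r1` of a difference of two lists, as polynomial in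
`b ∈ [-1, 1]` -/
noncomputable def bnd1 {β : Type} (QP QM : List ℕ) (k : ℤ → ℕ → ℤ → ℕ → β) : β :=
  nrmD QP.tail QM.tail (fun a b _ =>
    let c0 : ℤ := (QP.headD 0 : ℤ) - (QM.headD 0 : ℤ)
    let c1 : ℤ := (QP.tail.headD 0 : ℤ) - (QM.tail.headD 0 : ℤ)
    k c0 a c1 (Nat.sub (Nat.add a b) c1.natAbs))

/-- evaluate a list before passing it to `k` -/
noncomputable def forceL {β : Type} (l : List ℕ) : (List ℕ → β) → β :=
  List.rec (motive := fun _ => (List ℕ → β) → β) (fun k => k [])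
    (fun a _ ih k => force a (fun a' => ih (fun t => k (a' :: t)))) l

/-- the claims `s` hold for the segment `|a - (2 i + 1 - 2^w)/2^w| ≤ 1/2^w`; value `Σ (vp_j - vm) a^j`,
slope `Σ (yp_j - ym) a^j / H`, error bounds `o0, o1`; all in units `1/S` -/
noncomputable def segOK (da H o0 o1 w : ℕ) (vp vm yp ym : List ℕ) (i : ℕ) (s : SegC) : Bool :=
  let neg := Nat.blt (2 * i + 1) (2 ^ w)
  let q := (2 * i + 1 - 2 ^ w) + (2 ^ w - (2 * i + 1))
  let sc : ℤ := (2 : ℤ) ^ (w * da)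
  let w2 : ℤ := (2 : ℤ) ^ w
  shL neg q w vp vm fun QP QM _ => bnd1 QP QM fun c0 r c1 r1 =>
  shL neg q w yp ym fun RP RM _ => bnd1 RP RM fun d0 t d1 t1 =>
  decide (s.vl * sc ≤ c0 - r - o0 * sc) && decide (c0 + r + o0 * sc ≤ s.vh * sc) &&
  decide (s.Dl * sc ≤ w2 * (c1 - r1) - o1 * sc) && decide (w2 * (c1 + r1) + o1 * sc ≤ s.Dh * sc) &&
  decide (2 * s.yl * (sc * H) ≤ 2 * (d0 - t) - 3 * o0 * (sc * H)) &&
  decide (2 * (d0 + t) + 3 * o0 * (sc * H) ≤ 2 * s.yh * (sc * H)) &&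
  decide (2 * s.El * (sc * H) ≤ 2 * w2 * (d1 - t1) - 3 * o1 * (sc * H)) &&
  decide (2 * w2 * (d1 + t1) + 3 * o1 * (sc * H) ≤ 2 * s.Eh * (sc * H))

/-- all segments `i, i+1, ...` at the end of the cell `C` -/
noncomputable def segsOK (P : Par) (C : CellD) (o1 w : ℕ) (l : List SegC) : Bool :=
  Nat.blt 0 C.H && Nat.blt 0 P.b && Nat.beq l.length (2 ^ w) &&
  evAll (C.rows P) fun p n dp dn =>
  evAll (ones (P.dx + 1)) fun p1 n1 dp1 dn1 =>
  forceL (addL p n) fun vp =>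
  forceL (scL (Nat.add C.M C.H) (addL dp dn)) fun yp =>
  forceL (repN (Nat.mul P.O (Nat.add (p1.headD 0) (n1.headD 0))) (P.da + 1)) fun vm =>
  forceL (repN (Nat.mul (Nat.add C.M C.H) (Nat.mul P.O (Nat.add (dp1.headD 0) (dn1.headD 0))))
    (P.da + 1)) fun ym =>
  List.rec (motive := fun _ => ℕ → Bool) (fun _ => true)
    (fun s _ ih i => segOK P.da C.H C.o0 o1 w vp vm yp ym i s && ih (Nat.succ i)) l 0

/-- cells joined by jumps -/
noncomputable def chainOK (P : Par) (l : List CellD) : CellD → Bool :=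
  List.rec (motive := fun _ => CellD → Bool) (fun _ => true)
    (fun C' _ ih C => jumpOK P C C' && cellOK P C' && ih C') l

/-! ### the family at the section `τ = 1`: `V(1) = Up = 45/128`, `V'(1) = -σ`, `σ = (sc + sr a)/S`,
equation `V'' + 2 V'/τ + V^4 + δ V^7 = 0`, `0 ≤ δ ≤ dn/dd`; here `P.c = 0` -/

structure Cst2 where
  S : ℕ
  Gd : ℕ
  H : ℕ
  nu : ℕ
  A1 : ℕ
  g0 : ℕ
  g1 : ℕ
  dn : ℕ
  dd : ℕ
  ln : ℕ
  ld : ℕ

/-- the growth constant, unit `1/S` -/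
def kOf2 (S Gd nu cap Uc sn1 dn dd : ℕ) : ℕ :=
  Nat.succ (mx (Nat.add (cdiv (Nat.mul (Nat.mul 4 (Nat.pow (Nat.add nu cap) 3)) (Nat.pow sn1 2))
        (Nat.mul (Nat.pow S 2) (Nat.pow Gd 2))) (Nat.div S 4))
    (Nat.sub (cdiv (Nat.mul (Nat.pow sn1 2)
        (Nat.add (Nat.mul (Nat.mul 4 dd) (Nat.mul (Nat.pow Uc 3) (Nat.pow S 3)))
          (Nat.mul (Nat.mul 7 dn) (Nat.pow Uc 6))))
        (Nat.mul dd (Nat.mul (Nat.pow S 5) (Nat.pow Gd 2)))) (Nat.mul 9 (Nat.div S 4))))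

/-- one subinterval; `z0` bounds the error of `V`, `z1` that of `λ e`, `λ = ln/ld` -/
noncomputable def subStep2 (K : Cst2) (sn W z0 z1 : ℕ) (k : ℕ → ℕ → Bool) : Bool :=
  let sn1 := Nat.add sn K.H
  force (mx (Nat.add W z0) K.nu) fun U =>
  force (Nat.add U (Nat.div K.S 256)) fun Ux =>
  force (cdiv (Nat.mul (Nat.mul K.dn sn1) (Nat.pow Ux 7))
    (Nat.mul K.dd (Nat.mul K.Gd (Nat.pow K.S 6)))) fun x0 =>
  force (Nat.add z0 (cdiv (Nat.mul (Nat.add K.g0 x0) K.H) K.Gd)) fun y0 =>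
  force (Nat.add (Nat.mul 3 y0) 2) fun cap =>
  force (Nat.add U cap) fun Uc =>
  force (kOf2 K.S K.Gd K.nu cap Uc sn1 K.dn K.dd) fun kk =>
  force (cdiv (Nat.mul kk K.H) (Nat.mul 2 sn)) fun xx =>
  force (Nat.add (Nat.add K.S xx) (cdiv (Nat.mul xx xx) K.S)) fun ex =>
  force (cdiv (Nat.mul y0 ex) K.S) fun Z0 =>
  force (Nat.add (cdiv (Nat.mul (Nat.mul 12 sn1) (Nat.mul (Nat.pow Uc 2) (Nat.mul Z0 K.A1)))
      (Nat.mul K.Gd (Nat.pow K.S 3)))
    (cdiv (Nat.mul (Nat.mul K.dn sn1) (Nat.mul (Nat.pow Ux 6)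
        (Nat.add (Nat.mul (Nat.mul 7 K.A1) K.ld) (Nat.mul (Nat.mul 2 K.ln) Ux))))
      (Nat.mul (Nat.mul K.dd K.ld) (Nat.mul K.Gd (Nat.pow K.S 6))))) fun x1 =>
  force (cdiv (Nat.mul (Nat.add z1 (cdiv (Nat.mul (Nat.add x1 (Nat.succ K.g1)) K.H) K.Gd)) ex) K.S)
    fun Z1 =>
  Nat.ble Z0 cap && Nat.ble xx K.S && Nat.ble (Nat.mul 2 (Nat.add K.nu cap)) K.S &&
    Nat.ble Uc (Nat.mul 3 K.S) && Nat.ble (Nat.mul 256 cap) K.S && k Z0 Z1

noncomputable def subRec2 (P : Par) (K : Cst2) (B0 : ℕ) (col : List ℕ) (V : ℕ) (n : ℕ) :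
    ℕ → ℕ → ℕ → (ℕ → ℕ → Bool) → Bool :=
  Nat.rec (motive := fun _ => ℕ → ℕ → ℕ → (ℕ → ℕ → Bool) → Bool)
    (fun _ z0 z1 k => k z0 z1)
    (fun _ ih q z0 z1 k =>
      wOf P col V q (fun W =>
        subStep2 K (Nat.add B0 (Nat.mul K.H q)) W z0 z1 (fun Z0 Z1 => ih (Nat.succ q) Z0 Z1 k))) n

/-- constants of the section family: `δ ≤ dn/dd`, `λ = ln/ld` -/
structure Par2 where
  dn : ℕ
  dd : ℕ
  ln : ℕ
  ld : ℕ

noncomputable def cell2OK (P : Par) (Q : Par2) (C : CellD) : Bool :=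
  Nat.blt 0 C.H && Nat.blt C.H C.M && Nat.blt 0 P.hn && Nat.ble 8 P.s && Nat.beq P.c 0 &&
  Nat.blt 0 P.b && Nat.blt 0 C.i0 && Nat.blt 0 C.i1 && Nat.blt 0 Q.dd && Nat.blt 0 Q.ln &&
  Nat.blt 0 Q.ld &&
  nrmAll P.O (C.rows P) (fun A0 A1 A2 m1 m2 =>
  force A0 fun A0 => force A1 fun A1 => force m1 fun m1 => force m2 fun m2 =>
    resOK P C A0 m1 m2 &&
    nbAll P C (fun b0 b1 _ =>
    force (gBnd P C b0) fun g0 => force (gBnd P C b1) fun g1 =>
      nrm P.O (colOf (C.rows P)) (fun c0 _ _ =>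
      force (Nat.sub A0 c0) fun V =>
      force (Nat.sub (Nat.add A0 (Nat.mul 2 P.O)) (Nat.mul 2 ((colOf (C.rows P)).headD 0))) fun nu =>
        let Gd := P.hn * 2 ^ C.g
        subRec2 P ⟨Nat.pow 2 P.s, Gd, C.H, nu, A1, g0, g1, Q.dn, Q.dd, Q.ln, Q.ld⟩
          (P.hn * (C.M - C.H)) (colOf (C.rows P)) V (2 * P.hn) 0 C.i0 C.i1
          (fun Z0 Z1 => Nat.ble Z0 C.o0 && Nat.ble Z1 C.o1))))

/-- initial data of the section family at `τ = 1` -/
noncomputable def init2OK (P : Par) (sc sr : ℕ) (C : CellD) : Bool :=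
  Nat.beq (C.M - C.H) (2 ^ C.g) && Nat.blt 0 C.H && Nat.ble C.H C.M && Nat.blt 0 P.b &&
  Nat.ble 7 P.s && Nat.blt 0 sr &&
  evAll (C.rows P) fun p n dp dn => evAll (ones (P.dx + 1)) fun p1 n1 dp1 dn1 =>
  force (p1.headD 0) fun p1 => force (n1.headD 0) fun n1 =>
  force (dp1.headD 0) fun dp1 => force (dn1.headD 0) fun dn1 =>
  force P.O fun O =>
  force (C.M - C.H) fun A =>
  nrmD (addL p (repN (Nat.mul O n1) (P.da + 1)))
    (addL (addL n (repN (Nat.mul O p1) (P.da + 1))) [45 * 2 ^ (P.s - 7)]) fun j0 j1 _ =>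
  nrmD (addL (addL (scL A dp) (repN (Nat.mul A (Nat.mul O dn1)) (P.da + 1)))
      [Nat.mul C.H sc, Nat.mul C.H sr])
    (addL (scL A dn) (repN (Nat.mul A (Nat.mul O dp1)) (P.da + 1))) fun k0 k1 _ =>
  Nat.ble (Nat.add (cdiv k0 C.H) (cdiv (Nat.mul 3 j0) 2)) C.i0 &&
  Nat.ble (Nat.add (cdiv k1 C.H) (cdiv (Nat.mul 3 j1) 2)) C.i1

noncomputable def chain2OK (P : Par) (Q : Par2) (l : List CellD) : CellD → Bool :=
  List.rec (motive := fun _ => CellD → Bool) (fun _ => true)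
    (fun C' _ ih C => jumpOK P C C' && cell2OK P Q C' && ih C') l

/-! ### turning boxes -/

/-- the second `a`-difference quotient is positive on the cell: `2 P_02 > N2(P) + o2`; and `v < 0` at the
end -/
noncomputable def turnOK (P : Par) (C : CellD) : Bool :=
  Nat.blt 0 P.b && Nat.ble 2 P.da &&
  nrmAll P.O (C.rows P) (fun _ _ A2 _ _ =>
    Nat.blt (Nat.add (Nat.add A2 C.o2) (Nat.mul 2 P.O))
      (Nat.mul 2 (((C.rows P).headD []).tail.tail.headD 0)))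

end Pool.Agent.H228
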