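import Pool.Agent.H228.Check
import Mathlib.Data.Rat.Defs
import Mathlib.Algebra.Order.Ring.Rat

/-! Final numerical conditions, evaluated in the kernel in rational arithmetic (definitions only). -/

set_option autoImplicit false

namespace Pool.Agent.H228

def mxq (a b : ℚ) : ℚ := bif decide (a ≤ b) then b else a
def mnq (a b : ℚ) : ℚ := bif decide (a ≤ b) then a else b
/-- bound of `|x|` for `l ≤ x ≤ h` -/
def abq (l h : ℚ) : ℚ := mxq (-l) h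

/-- decides that `T` is strictly monotone on a segment, from the bounds `s` (unit `1/S`) at time `t0` -/
def xOK (inc : Bool) (t0 S : ℚ) (s : SegC) : Bool :=
  let vl : ℚ := s.vl / S
  let vh : ℚ := s.vh / S
  let yl : ℚ := s.yl / S
  let yh : ℚ := s.yh / S
  let Dl : ℚ := s.Dl / S
  let Dh : ℚ := s.Dh / S
  let El : ℚ := s.El / S
  let Eh : ℚ := s.Eh / S
  let X : ℚ := bif inc then mnq (vl * El) (vh * El) + mnq (-yl * Dl) (-yh * Dl)
    else -(mxq (vl * Eh) (vh * Eh) + mxq (-yl * Dh) (-yh * Dh))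
  decide (0 < vl) && decide (3 * vh + 2 * yh ≤ 0) && decide (vh ≤ 2) &&
  decide (t0 ^ 2 * (4 * vh ^ 3 + 7 * vh ^ 6) ≤ 5 / 2) &&
  decide ((3 * vh ^ 4 + 6 * vh ^ 7) * t0 ^ 2 * (4 / 3 * (abq El Eh + 3 / 2 * abq Dl Dh)) < X)

/-- final condition of the section family on a segment `σ ∈ [sl, sh]`, at `τ = t0`: `s` bounds
`V, τ V', ∂_a p, τ ∂_τ ∂_a p` (unit `1/S`), `sr = dσ/da`, `|e| ≤ Ze`, `δ ≤ dl` -/
def x2OK (t0 S sl sh sr dl Ze vb : ℚ) (s : SegC) : Bool :=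
  let vl : ℚ := s.vl / S
  let vh : ℚ := s.vh / S
  let yl : ℚ := -s.yh / S
  let yh : ℚ := -s.yl / S
  let Kl : ℚ := s.Dl / (S * sr)
  let Kh : ℚ := s.Dh / (S * sr)
  let Ll : ℚ := s.El / (S * sr)
  let Lh : ℚ := s.Eh / (S * sr)
  let up : ℚ := 45 / 128
  -- range of `ν = χ μ + σ/3 - Up^4 - δ Up^7`, `μ = 15/64 - σ`, `χ ∈ [0, 1/4]`
  let nl : ℚ := sl / 3 - up ^ 4 - dl * up ^ 7
  let nh : ℚ := 15 / 256 + sh / 12 - up ^ 4
  let Xh : ℚ := mxq (vl * Lh) (vh * Lh) + mxq (yl * Kh) (yh * Kh)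
  let Xl : ℚ := mnq (vl * Ll) (vh * Ll) + mnq (yl * Kl) (yh * Kl)
  let m : ℚ := mxq (mxq (nl * Xl) (nl * Xh)) (mxq (nh * Xl) (nh * Xh))
  let nb : ℚ := abq nl nh
  let q : ℚ := yl * (yl - vh) + t0 ^ 2 * vl ^ 5 - m - (3 / 2 * vh + yh) * Ze
  let Db : ℚ := yh + nb * abq Kl Kh + Ze
  let Eb : ℚ := yh / 3 + 2 * t0 ^ 2 * vb ^ 4 + nb * abq Ll Lh + 3 / 2 * Ze
  decide (0 < vl) && decide (vh < vb) && decide (vb ≤ 1) && decide (0 ≤ sl) && decide (sh < 15 / 64) &&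
  decide (0 < yl) && decide (3 * vh - 2 * yl < 0) && decide (vh ≤ 2 * yl) && decide (dl ≤ 1) &&
  decide (t0 ^ 2 * (4 * vb ^ 3 + 7 * dl * vb ^ 6) ≤ 5 / 2) &&
  decide ((3 * vb ^ 4 + 6 * dl * vb ^ 7) * t0 ^ 2 * (4 / 3 * (Eb + 3 / 2 * Db)) < q)

/-- range check for `ν`: `λ |ν| ≤ σ_r` for all `σ` in the box, `χ ∈ [0, 1/4]`, `0 ≤ δ ≤ dl` -/
def nuOK (S sc sr dl lam : ℚ) : Bool :=
  let sl : ℚ := (sc - sr) / S
  let sh : ℚ := (sc + sr) / S
  let up : ℚ := 45 / 128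
  decide (0 ≤ sl) && decide (sh < 15 / 64) && decide (0 < lam) && decide (0 < sr) &&
  decide (lam * abq (sl / 3 - up ^ 4 - dl * up ^ 7) (15 / 256 + sh / 12 - up ^ 4) ≤ sr / S)

/-- `x2OK` for all segments `i, i+1, ...` of `2^w` (`sc, sr`: centre and radius of `σ`, unit `1/S`) -/
def x2all (q S sc sr dl Ze : ℚ) (w : ℕ) : List SegC → ℕ → Bool
  | [], _ => true
  | c :: l, i =>
    x2OK q S ((sc + sr * ((2 * i - 2 ^ w) / 2 ^ w)) / S) ((sc + sr * ((2 * i + 2 - 2 ^ w) / 2 ^ w)) / S)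
      (sr / S) dl Ze (c.vh / S + 1 / 2 ^ 20) c && x2all q S sc sr dl Ze w l (i + 1)

/-- fast decay region, one segment; `cp = (4 B^3 + 7 B^6/t0^3)/(2 t0)` -/
def fdSeg (t0 S Bm cp : ℚ) (s : SegC) : Bool :=
  decide (0 < s.vl) && decide (t0 * (s.vh / S) ≤ Bm) && decide (0 < s.Dl) &&
  decide (0 < (1 - 2 * cp) * s.Dl + (1 - cp) * s.El)

/-- fast decay region: segments `l` of the box at time `t0` -/
def fdOK (t0 S Bm B : ℚ) (l : List SegC) : Bool :=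
  let cp : ℚ := (4 * B ^ 3 + 7 * B ^ 6 / t0 ^ 3) / (2 * t0)
  decide (0 < Bm) && decide (B / t0 ≤ 3) && decide (0 ≤ cp) && decide (2 * cp ≤ 1) &&
  decide (Bm + (B ^ 4 / (2 * t0) + B ^ 7 / (20 * t0 ^ 4)) < B) && l.all (fdSeg t0 S Bm cp) &&
  (match l.head? with
    | some s => decide (s.vh + s.yh ≤ 0)
    | none => false) &&
  (match l.getLast? with
    | some s => decide (B ^ 4 / (2 * t0 ^ 2) + B ^ 7 / (5 * t0 ^ 5) < (s.vl + s.yl) / S)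
    | none => false)

/-- section region, one segment: cone condition `γ = 3/4`, below the section, slope bound
`-t0 * t0 u' ≤ ym` -/
def coneSeg (t0 S ym : ℚ) (s : SegC) : Bool :=
  decide (0 < s.vl) && decide (0 < s.Dl) && decide (s.Eh ≤ 0) && decide (0 ≤ s.Dl + 4 * s.El) &&
  decide (t0 ^ 2 * (s.vh / S) ^ 3 < (45 / 128) ^ 3) && decide (t0 * (-s.yl / S) ≤ ym)

end Pool.Agent.H228
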