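import Mathlib

/-! TASK K: integer polynomials as lists (of lists), Kronecker substitution and mask checks. -/

set_option autoImplicit false

namespace Pool.Agent.H228

/-- evaluation of `Σ l_j a^j` -/
def ev1 {R : Type} [CommRing R] (l : List ℤ) (a : R) : R :=
  l.foldr (fun c acc => (c : R) + a * acc) 0

/-- evaluation of `Σ_i (Σ_j L_ij a^j) x^i` -/
def ev2 {R : Type} [CommRing R] (L : List (List ℤ)) (x a : R) : R :=
  L.foldr (fun l acc => ev1 l a + x * acc) 0

/-- `Σ |l_j|`, `Σ j |l_j|`, `Σ (j choose 2) |l_j|` -/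
def n0 : List ℤ → ℕ
  | [] => 0
  | c :: l => c.natAbs + n0 l
def n1 : List ℤ → ℕ
  | [] => 0
  | _ :: l => n0 l + n1 l
def n2 : List ℤ → ℕ
  | [] => 0
  | _ :: l => n1 l + n2 l

def N0 : List (List ℤ) → ℕ
  | [] => 0
  | l :: L => n0 l + N0 L
def N1 : List (List ℤ) → ℕ
  | [] => 0
  | l :: L => n1 l + N1 L
def N2 : List (List ℤ) → ℕ
  | [] => 0
  | l :: L => n2 l + N2 L
/-- `Σ_i i |L_i|` and `Σ_i i (i-1) |L_i|` (norms of the `x`-derivatives) -/
def M1 : List (List ℤ) → ℕ
  | [] => 0
  | _ :: L => N0 L + M1 L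
def M2 : List (List ℤ) → ℕ
  | [] => 0
  | _ :: L => 2 * M1 L + M2 L

def add1 : List ℤ → List ℤ → List ℤ
  | [], q => q
  | a :: p, [] => a :: p
  | a :: p, b :: q => (a + b) :: add1 p q
def mul1 : List ℤ → List ℤ → List ℤ
  | [], _ => []
  | a :: p, q => add1 (q.map (a * ·)) (0 :: mul1 p q)
def add2 : List (List ℤ) → List (List ℤ) → List (List ℤ)
  | [], q => q
  | a :: p, [] => a :: p
  | a :: p, b :: q => add1 a b :: add2 p q
def mul2 : List (List ℤ) → List (List ℤ) → List (List ℤ)
  | [], _ => []
  | a :: p, q => add2 (q.map (mul1 a)) ([] :: mul2 p q)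
/-- `x`-derivative -/
def der2 : List (List ℤ) → List (List ℤ)
  | [] => []
  | _ :: L => add2 L ([] :: der2 L)
/-- tensor product of a polynomial in `x` and a polynomial in `a` -/
def tens (p q : List ℤ) : List (List ℤ) := p.map (fun c => q.map (c * ·))

/-- shape: `x`-degree at most `I` and `a`-degree at most `J` -/
def Shape (I J : ℕ) (L : List (List ℤ)) : Prop := L.length ≤ I + 1 ∧ ∀ l ∈ L, l.length ≤ J + 1


/-! ### K1: algebra -/

section aux
variable {R : Type} [CommRing R]

@[simp] theorem ev1_nil (a : R) : ev1 [] a = 0 := rfl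
@[simp] theorem ev1_cons (c : ℤ) (l : List ℤ) (a : R) : ev1 (c :: l) a = (c : R) + a * ev1 l a := rfl
@[simp] theorem ev2_nil (x a : R) : ev2 [] x a = 0 := rfl
@[simp] theorem ev2_cons (l : List ℤ) (L : List (List ℤ)) (x a : R) :
    ev2 (l :: L) x a = ev1 l a + x * ev2 L x a := rfl

theorem ev1_add1 (p q : List ℤ) (a : R) : ev1 (add1 p q) a = ev1 p a + ev1 q a := by
  induction p generalizing q with
  | nil => simp [add1]
  | cons c p ih =>
    cases q with
    | nil => simp [add1]
    | cons d q => simp [add1, ih]; ring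

theorem ev1_smul (c : ℤ) (q : List ℤ) (a : R) : ev1 (q.map (c * ·)) a = (c : R) * ev1 q a := by
  induction q with
  | nil => simp
  | cons d q ih => simp [ih]; ring

theorem ev1_mul1 (p q : List ℤ) (a : R) : ev1 (mul1 p q) a = ev1 p a * ev1 q a := by
  induction p with
  | nil => simp [mul1]
  | cons c p ih => simp [mul1, ev1_add1, ev1_smul, ih]; ring
end aux

theorem ev2_add2 {R : Type} [CommRing R] (p q : List (List ℤ)) (x a : R) :
    ev2 (add2 p q) x a = ev2 p x a + ev2 q x a := by
  induction p generalizing q with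
  | nil => simp [add2]
  | cons c p ih =>
    cases q with
    | nil => simp [add2]
    | cons d q => simp [add2, ih, ev1_add1]; ring

theorem ev2_map_mul1 {R : Type} [CommRing R] (c : List ℤ) (q : List (List ℤ)) (x a : R) :
    ev2 (q.map (mul1 c)) x a = ev1 c a * ev2 q x a := by
  induction q with
  | nil => simp
  | cons d q ih => simp [ih, ev1_mul1]; ring

theorem ev2_mul2 {R : Type} [CommRing R] (p q : List (List ℤ)) (x a : R) :
    ev2 (mul2 p q) x a = ev2 p x a * ev2 q x a := by
  induction p with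
  | nil => simp [mul2]
  | cons c p ih => simp [mul2, ev2_add2, ev2_map_mul1, ih]; ring
theorem ev2_tens {R : Type} [CommRing R] (p q : List ℤ) (x a : R) :
    ev2 (tens p q) x a = ev1 p x * ev1 q a := by
  induction p with
  | nil => simp [tens]
  | cons c p ih =>
    have : tens (c :: p) q = q.map (c * ·) :: tens p q := rfl
    rw [this, ev2_cons, ih, ev1_smul, ev1_cons]; ring
theorem ev2_hasDerivAt (L : List (List ℤ)) (x a : ℝ) :
    HasDerivAt (fun y : ℝ => ev2 L y a) (ev2 (der2 L) x a) x := by
  induction L with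
  | nil => simpa [der2] using hasDerivAt_const x (0:ℝ)
  | cons l L ih =>
    have h1 : HasDerivAt (fun y : ℝ => ev1 l a + y * ev2 L y a)
        (1 * ev2 L x a + x * ev2 (der2 L) x a) x :=
      ((hasDerivAt_id x).mul ih).const_add _
    have h2 : ev2 (der2 (l :: L)) x a = 1 * ev2 L x a + x * ev2 (der2 L) x a := by
      simp [der2, ev2_add2]
    rw [h2]; exact h1

theorem n0_add1 (p q : List ℤ) : n0 (add1 p q) ≤ n0 p + n0 q := by
  induction p generalizing q with
  | nil => simp [add1, n0]
  | cons c p ih =>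
    cases q with
    | nil => simp [add1, n0]
    | cons d q =>
      have := ih q
      have h2 := Int.natAbs_add_le c d
      simp only [add1, n0]; omega
theorem n1_add1 (p q : List ℤ) : n1 (add1 p q) ≤ n1 p + n1 q := by
  induction p generalizing q with
  | nil => simp [add1, n1]
  | cons c p ih =>
    cases q with
    | nil => simp [add1, n1]
    | cons d q =>
      have := ih q
      have h2 := n0_add1 p q
      simp only [add1, n1]; omega
theorem n2_add1 (p q : List ℤ) : n2 (add1 p q) ≤ n2 p + n2 q := by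
  induction p generalizing q with
  | nil => simp [add1, n2]
  | cons c p ih =>
    cases q with
    | nil => simp [add1, n2]
    | cons d q =>
      have := ih q
      have h2 := n1_add1 p q
      simp only [add1, n2]; omega
theorem n0_smul (c : ℤ) (q : List ℤ) : n0 (q.map (c * ·)) = c.natAbs * n0 q := by
  induction q with
  | nil => simp [n0]
  | cons d q ih => simp [n0, ih, Int.natAbs_mul]; ring
theorem n1_smul (c : ℤ) (q : List ℤ) : n1 (q.map (c * ·)) = c.natAbs * n1 q := by
  induction q with
  | nil => simp [n1]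
  | cons d q ih =>
    have h := n0_smul c q
    simp only [List.map_cons, n1, ih, h]; ring
theorem n2_smul (c : ℤ) (q : List ℤ) : n2 (q.map (c * ·)) = c.natAbs * n2 q := by
  induction q with
  | nil => simp [n2]
  | cons d q ih =>
    have h := n1_smul c q
    simp only [List.map_cons, n2, ih, h]; ring
theorem n0_mul1 (p q : List ℤ) : n0 (mul1 p q) ≤ n0 p * n0 q := by
  induction p with
  | nil => simp [mul1, n0]
  | cons c p ih =>
    have h1 := n0_add1 (q.map (c * ·)) (0 :: mul1 p q)
    have h2 := n0_smul c q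
    have h3 : n0 (0 :: mul1 p q) = n0 (mul1 p q) := by simp [n0]
    have h4 : n0 (c :: p) = c.natAbs + n0 p := rfl
    rw [h3, h2] at h1
    rw [h4, add_mul]
    exact h1.trans (Nat.add_le_add_left ih _)

theorem N0_add2 (p q : List (List ℤ)) : N0 (add2 p q) ≤ N0 p + N0 q := by
  induction p generalizing q with
  | nil => simp [add2, N0]
  | cons c p ih =>
    cases q with
    | nil => simp [add2, N0]
    | cons d q =>
      have := ih q
      have h2 := n0_add1 c d
      simp only [add2, N0]; omega
theorem N1_add2 (p q : List (List ℤ)) : N1 (add2 p q) ≤ N1 p + N1 q := by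
  induction p generalizing q with
  | nil => simp [add2, N1]
  | cons c p ih =>
    cases q with
    | nil => simp [add2, N1]
    | cons d q =>
      have := ih q
      have h2 := n1_add1 c d
      simp only [add2, N1]; omega
theorem N2_add2 (p q : List (List ℤ)) : N2 (add2 p q) ≤ N2 p + N2 q := by
  induction p generalizing q with
  | nil => simp [add2, N2]
  | cons c p ih =>
    cases q with
    | nil => simp [add2, N2]
    | cons d q =>
      have := ih q
      have h2 := n2_add1 c d
      simp only [add2, N2]; omega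
theorem N0_map_mul1 (c : List ℤ) (q : List (List ℤ)) : N0 (q.map (mul1 c)) ≤ n0 c * N0 q := by
  induction q with
  | nil => simp [N0]
  | cons d q ih =>
    have h := n0_mul1 c d
    simp only [List.map_cons, N0, mul_add]
    omega
theorem N0_mul2 (p q : List (List ℤ)) : N0 (mul2 p q) ≤ N0 p * N0 q := by
  induction p with
  | nil => simp [mul2, N0]
  | cons c p ih =>
    have h1 := N0_add2 (q.map (mul1 c)) ([] :: mul2 p q)
    have h2 := N0_map_mul1 c q
    have h3 : N0 ([] :: mul2 p q) = N0 (mul2 p q) := by simp [N0, n0]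
    have h4 : N0 (c :: p) = n0 c + N0 p := rfl
    rw [h3] at h1
    rw [h4, add_mul]
    exact h1.trans (Nat.add_le_add h2 ih)
theorem N0_nil_cons (L : List (List ℤ)) : N0 ([] :: L) = N0 L := by simp [N0, n0]
theorem N0_der2 (L : List (List ℤ)) : N0 (der2 L) ≤ M1 L := by
  induction L with
  | nil => simp [der2, N0, M1]
  | cons l L ih =>
    have h1 := N0_add2 L ([] :: der2 L)
    rw [N0_nil_cons] at h1
    simp only [der2, M1]; omega
theorem M1_add2 (p q : List (List ℤ)) : M1 (add2 p q) ≤ M1 p + M1 q := by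
  induction p generalizing q with
  | nil => simp [add2, M1]
  | cons c p ih =>
    cases q with
    | nil => simp [add2, M1]
    | cons d q =>
      have := ih q
      have h2 := N0_add2 p q
      simp only [add2, M1]; omega
theorem M1_der2 (L : List (List ℤ)) : M1 (der2 L) ≤ M2 L := by
  induction L with
  | nil => simp [der2, M1, M2]
  | cons l L ih =>
    have h1 := M1_add2 L ([] :: der2 L)
    have h2 : M1 ([] :: der2 L) = N0 (der2 L) + M1 (der2 L) := rfl
    have h3 := N0_der2 L
    simp only [der2, M2]; omega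
theorem N0_der2_der2 (L : List (List ℤ)) : N0 (der2 (der2 L)) ≤ M2 L :=
  (N0_der2 _).trans (M1_der2 L)
theorem N0_tens (p q : List ℤ) : N0 (tens p q) = n0 p * n0 q := by
  induction p with
  | nil => simp [tens, N0, n0]
  | cons c p ih =>
    have : tens (c :: p) q = q.map (c * ·) :: tens p q := rfl
    rw [this]; simp only [N0, n0, ih, n0_smul]; ring
theorem N1_tens (p q : List ℤ) : N1 (tens p q) = n0 p * n1 q := by
  induction p with
  | nil => simp [tens, N1, n0]
  | cons c p ih =>
    have : tens (c :: p) q = q.map (c * ·) :: tens p q := rfl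
    rw [this]; simp only [N1, n0, ih, n1_smul]; ring
theorem N2_tens (p q : List ℤ) : N2 (tens p q) = n0 p * n2 q := by
  induction p with
  | nil => simp [tens, N2, n0]
  | cons c p ih =>
    have : tens (c :: p) q = q.map (c * ·) :: tens p q := rfl
    rw [this]; simp only [N2, n0, ih, n2_smul]; ring
theorem N0_add2_le (p q : List (List ℤ)) : N0 (add2 p q) ≤ N0 p + N0 q ∧
    N1 (add2 p q) ≤ N1 p + N1 q ∧ N2 (add2 p q) ≤ N2 p + N2 q :=
  ⟨N0_add2 p q, N1_add2 p q, N2_add2 p q⟩

theorem length_add1 (p q : List ℤ) : (add1 p q).length = max p.length q.length := by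
  induction p generalizing q with
  | nil => simp [add1]
  | cons c p ih =>
    cases q with
    | nil => simp [add1]
    | cons d q => simp [add1, ih, Nat.succ_max_succ]
theorem length_mul1 (p q : List ℤ) {J J' : ℕ} (hp : p.length ≤ J + 1) (hq : q.length ≤ J' + 1) :
    (mul1 p q).length ≤ J + J' + 1 := by
  induction p generalizing J with
  | nil => simp [mul1]
  | cons c p ih =>
    simp only [List.length_cons] at hp
    have hp' : p.length ≤ J := by omega
    simp only [mul1, length_add1, List.length_map, List.length_cons]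
    rcases Nat.eq_zero_or_pos J with h0 | h0
    · have : p = [] := by
        apply List.eq_nil_of_length_eq_zero; omega
      subst this
      simp [mul1]; omega
    · have := ih (J := J - 1) (by omega)
      omega
theorem length_add2 (p q : List (List ℤ)) : (add2 p q).length = max p.length q.length := by
  induction p generalizing q with
  | nil => simp [add2]
  | cons c p ih =>
    cases q with
    | nil => simp [add2]
    | cons d q => simp [add2, ih, Nat.succ_max_succ]
theorem rows_add2 {J : ℕ} {p q : List (List ℤ)} (hp : ∀ l ∈ p, l.length ≤ J)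
    (hq : ∀ l ∈ q, l.length ≤ J) : ∀ l ∈ add2 p q, l.length ≤ J := by
  induction p generalizing q with
  | nil => simpa [add2] using hq
  | cons c p ih =>
    cases q with
    | nil => simpa [add2] using hp
    | cons d q =>
      intro l hl
      simp only [add2, List.mem_cons] at hl
      rcases hl with rfl | hl
      · rw [length_add1]
        exact max_le (hp c (by simp)) (hq d (by simp))
      · exact ih (fun l hl => hp l (by simp [hl])) (fun l hl => hq l (by simp [hl])) l hl
theorem shape_add2 {I J : ℕ} {p q : List (List ℤ)} (hp : Shape I J p) (hq : Shape I J q) :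
    Shape I J (add2 p q) := by
  refine ⟨?_, rows_add2 hp.2 hq.2⟩
  rw [length_add2]; exact max_le hp.1 hq.1
theorem rows_mul2 {J J' : ℕ} {p q : List (List ℤ)} (hp : ∀ l ∈ p, l.length ≤ J + 1)
    (hq : ∀ l ∈ q, l.length ≤ J' + 1) : ∀ l ∈ mul2 p q, l.length ≤ J + J' + 1 := by
  induction p with
  | nil => simp [mul2]
  | cons c p ih =>
    simp only [mul2]
    refine rows_add2 ?_ ?_
    · intro l hl
      rw [List.mem_map] at hl
      obtain ⟨d, hd, rfl⟩ := hl
      exact length_mul1 c d (hp c (by simp)) (hq d hd)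
    · intro l hl
      rw [List.mem_cons] at hl
      rcases hl with rfl | hl
      · simp
      · exact ih (fun l hl => hp l (by simp [hl])) l hl
theorem length_mul2 (p q : List (List ℤ)) {J J' : ℕ} (hp : p.length ≤ J + 1)
    (hq : q.length ≤ J' + 1) : (mul2 p q).length ≤ J + J' + 1 := by
  induction p generalizing J with
  | nil => simp [mul2]
  | cons c p ih =>
    simp only [List.length_cons] at hp
    have hp' : p.length ≤ J := by omega
    simp only [mul2, length_add2, List.length_map, List.length_cons]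
    rcases Nat.eq_zero_or_pos J with h0 | h0
    · have : p = [] := by
        apply List.eq_nil_of_length_eq_zero; omega
      subst this
      simp [mul2]; omega
    · have := ih (J := J - 1) (by omega)
      omega
theorem shape_mul2 {I J I' J' : ℕ} {p q : List (List ℤ)} (hp : Shape I J p) (hq : Shape I' J' q) :
    Shape (I + I') (J + J') (mul2 p q) :=
  ⟨length_mul2 p q hp.1 hq.1, rows_mul2 hp.2 hq.2⟩
theorem length_der2 (p : List (List ℤ)) : (der2 p).length ≤ p.length := by
  induction p with
  | nil => simp [der2]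
  | cons c p ih =>
    simp only [der2, length_add2, List.length_cons]
    omega
theorem rows_der2 {J : ℕ} {p : List (List ℤ)} (hp : ∀ l ∈ p, l.length ≤ J) :
    ∀ l ∈ der2 p, l.length ≤ J := by
  induction p with
  | nil => simp [der2]
  | cons c p ih =>
    simp only [der2]
    have hp' : ∀ l ∈ p, l.length ≤ J := fun l hl => hp l (by simp [hl])
    refine rows_add2 hp' ?_
    intro l hl
    rw [List.mem_cons] at hl
    rcases hl with rfl | hl
    · simp
    · exact ih hp' l hl
theorem shape_der2 {I J : ℕ} {p : List (List ℤ)} (hp : Shape I J p) : Shape I J (der2 p) :=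
  ⟨(length_der2 p).trans hp.1, rows_der2 hp.2⟩
theorem shape_mono {I J I' J' : ℕ} {p : List (List ℤ)} (hp : Shape I J p) (hI : I ≤ I')
    (hJ : J ≤ J') : Shape I' J' p :=
  ⟨hp.1.trans (by omega), fun l hl => (hp.2 l hl).trans (by omega)⟩

/-! ### K2: sup bounds and divided differences on `[-1,1]^2` -/

theorem ev1_abs_le (l : List ℤ) {a : ℝ} (ha : |a| ≤ 1) : |ev1 l a| ≤ n0 l := by
  induction l with
  | nil => simp [n0]
  | cons c l ih =>
    have h1 : |ev1 (c :: l) a| ≤ |(c:ℝ)| + |a * ev1 l a| := abs_add_le _ _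
    have h2 : |a * ev1 l a| ≤ n0 l := by
      rw [abs_mul]
      calc |a| * |ev1 l a| ≤ 1 * n0 l := by gcongr
        _ = n0 l := one_mul _
    have h3 : ((n0 (c :: l) : ℕ) : ℝ) = |(c:ℝ)| + n0 l := by
      simp [n0, Nat.cast_natAbs]
    rw [h3]; linarith

/-- the polynomial `(l(y) - l(a)) / (y - a)` -/
noncomputable def dd1 (l : List ℤ) (a y : ℝ) : ℝ :=
  l.rec 0 (fun _ l r => ev1 l a + y * r)

theorem dd1_nil (a y : ℝ) : dd1 [] a y = 0 := rfl
theorem dd1_cons (c : ℤ) (l : List ℤ) (a y : ℝ) : dd1 (c :: l) a y = ev1 l a + y * dd1 l a y := rfl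

theorem dd1_spec (l : List ℤ) (a y : ℝ) : ev1 l y - ev1 l a = (y - a) * dd1 l a y := by
  induction l with
  | nil => simp [dd1_nil]
  | cons c l ih =>
    rw [dd1_cons, ev1_cons, ev1_cons]
    linear_combination y * ih

theorem dd1_abs_le (l : List ℤ) {a y : ℝ} (ha : |a| ≤ 1) (hy : |y| ≤ 1) : |dd1 l a y| ≤ n1 l := by
  induction l with
  | nil => simp [dd1_nil, n1]
  | cons c l ih =>
    have h1 : |dd1 (c :: l) a y| ≤ |ev1 l a| + |y * dd1 l a y| := abs_add_le _ _
    have h2 : |y * dd1 l a y| ≤ n1 l := by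
      rw [abs_mul]
      calc |y| * |dd1 l a y| ≤ 1 * n1 l := by gcongr
        _ = n1 l := one_mul _
    have h3 := ev1_abs_le l ha
    have h4 : ((n1 (c :: l) : ℕ) : ℝ) = n0 l + n1 l := by simp [n1]
    rw [h4]; linarith

/-- second divided difference: `(dd1 l a b - dd1 l a c)/(b - c)` in the last variable -/
noncomputable def dd2 (l : List ℤ) (a b c : ℝ) : ℝ :=
  l.rec 0 (fun _ l r => dd1 l a b + c * r)

theorem dd2_nil (a b c : ℝ) : dd2 [] a b c = 0 := rfl
theorem dd2_cons (d : ℤ) (l : List ℤ) (a b c : ℝ) :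
    dd2 (d :: l) a b c = dd1 l a b + c * dd2 l a b c := rfl

theorem dd2_spec (l : List ℤ) (a b c : ℝ) : dd1 l b c - dd1 l a b = (c - a) * dd2 l a b c := by
  induction l with
  | nil => simp [dd1_nil, dd2_nil]
  | cons d l ih =>
    rw [dd1_cons, dd1_cons, dd2_cons]
    have h := dd1_spec l a b
    linear_combination c * ih + h

theorem dd2_abs_le (l : List ℤ) {a b c : ℝ} (ha : |a| ≤ 1) (hb : |b| ≤ 1) (hc : |c| ≤ 1) :
    |dd2 l a b c| ≤ n2 l := by
  induction l with
  | nil => simp [dd2_nil, n2]
  | cons d l ih =>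
    have h1 : |dd2 (d :: l) a b c| ≤ |dd1 l a b| + |c * dd2 l a b c| := abs_add_le _ _
    have h2 : |c * dd2 l a b c| ≤ n2 l := by
      rw [abs_mul]
      calc |c| * |dd2 l a b c| ≤ 1 * n2 l := by gcongr
        _ = n2 l := one_mul _
    have h3 := dd1_abs_le l ha hb
    have h4 : ((n2 (d :: l) : ℕ) : ℝ) = n1 l + n2 l := by simp [n2]
    rw [h4]; linarith

theorem ev2_abs_le (L : List (List ℤ)) {x a : ℝ} (hx : |x| ≤ 1) (ha : |a| ≤ 1) :
    |ev2 L x a| ≤ N0 L := by
  induction L with
  | nil => simp [N0]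
  | cons l L ih =>
    have h1 : |ev2 (l :: L) x a| ≤ |ev1 l a| + |x * ev2 L x a| := abs_add_le _ _
    have h2 : |x * ev2 L x a| ≤ N0 L := by
      rw [abs_mul]
      calc |x| * |ev2 L x a| ≤ 1 * N0 L := by gcongr
        _ = N0 L := one_mul _
    have h3 := ev1_abs_le l ha
    have h4 : ((N0 (l :: L) : ℕ) : ℝ) = n0 l + N0 L := by simp [N0]
    rw [h4]; linarith
theorem ev2_dd1 (L : List (List ℤ)) {x a b : ℝ} (hx : |x| ≤ 1) (ha : |a| ≤ 1) (hb : |b| ≤ 1) :
    |ev2 L x b - ev2 L x a| ≤ N1 L * |b - a| := by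
  induction L with
  | nil => simp [N1]
  | cons l L ih =>
    have h0 : ev2 (l :: L) x b - ev2 (l :: L) x a =
        (b - a) * dd1 l a b + x * (ev2 L x b - ev2 L x a) := by
      rw [ev2_cons, ev2_cons]
      linear_combination dd1_spec l a b
    have h1 : |(b - a) * dd1 l a b| ≤ n1 l * |b - a| := by
      rw [abs_mul, mul_comm]
      exact mul_le_mul_of_nonneg_right (dd1_abs_le l ha hb) (abs_nonneg _)
    have h2 : |x * (ev2 L x b - ev2 L x a)| ≤ N1 L * |b - a| := by
      rw [abs_mul]
      calc |x| * |ev2 L x b - ev2 L x a| ≤ 1 * (N1 L * |b - a|) := by gcongr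
        _ = N1 L * |b - a| := one_mul _
    have h4 : ((N1 (l :: L) : ℕ) : ℝ) = n1 l + N1 L := by simp [N1]
    rw [h0, h4, add_mul]
    exact (abs_add_le _ _).trans (add_le_add h1 h2)

/-- the `x`-polynomial with coefficients `dd2` -/
noncomputable def ddd (L : List (List ℤ)) (x a b c : ℝ) : ℝ :=
  L.rec 0 (fun l _ r => dd2 l a b c + x * r)

theorem ddd_cons (l : List ℤ) (L : List (List ℤ)) (x a b c : ℝ) :
    ddd (l :: L) x a b c = dd2 l a b c + x * ddd L x a b c := rfl

theorem ddd_abs_le (L : List (List ℤ)) {x a b c : ℝ} (hx : |x| ≤ 1) (ha : |a| ≤ 1)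
    (hb : |b| ≤ 1) (hc : |c| ≤ 1) : |ddd L x a b c| ≤ N2 L := by
  induction L with
  | nil => simp [ddd, N2]
  | cons l L ih =>
    have h1 : |ddd (l :: L) x a b c| ≤ |dd2 l a b c| + |x * ddd L x a b c| := abs_add_le _ _
    have h2 : |x * ddd L x a b c| ≤ N2 L := by
      rw [abs_mul]
      calc |x| * |ddd L x a b c| ≤ 1 * N2 L := by gcongr
        _ = N2 L := one_mul _
    have h3 := dd2_abs_le l ha hb hc
    have h4 : ((N2 (l :: L) : ℕ) : ℝ) = n2 l + N2 L := by simp [N2]
    rw [h4]; linarith

theorem ddd_spec (L : List (List ℤ)) (x a b c : ℝ) :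
    (ev2 L x c - ev2 L x b) * (b - a) - (ev2 L x b - ev2 L x a) * (c - b) =
      (c - b) * (b - a) * (c - a) * ddd L x a b c := by
  induction L with
  | nil => simp [ddd]
  | cons l L ih =>
    rw [ev2_cons, ev2_cons, ev2_cons, ddd_cons]
    have h1 := dd1_spec l b c
    have h2 := dd1_spec l a b
    have h3 := dd2_spec l a b c
    linear_combination x * ih + (b - a) * h1 - (c - b) * h2 + (c - b) * (b - a) * h3

/-- second divided difference, in multiplied out form -/
theorem ev2_dd2 (L : List (List ℤ)) {x a b c : ℝ} (hx : |x| ≤ 1) (ha : |a| ≤ 1) (hb : |b| ≤ 1)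
    (hc : |c| ≤ 1) (hab : a ≠ b) (hbc : b ≠ c) (hac : a ≠ c) :
    |((ev2 L x c - ev2 L x b) / (c - b) - (ev2 L x b - ev2 L x a) / (b - a)) / (c - a)| ≤ N2 L := by
  have h1 : c - b ≠ 0 := sub_ne_zero.mpr hbc.symm
  have h2 : b - a ≠ 0 := sub_ne_zero.mpr hab.symm
  have h3 : c - a ≠ 0 := sub_ne_zero.mpr hac.symm
  have h : ((ev2 L x c - ev2 L x b) / (c - b) - (ev2 L x b - ev2 L x a) / (b - a)) / (c - a) =
      ddd L x a b c := by
    rw [div_sub_div _ _ h1 h2, div_div, div_eq_iff (mul_ne_zero (mul_ne_zero h1 h2) h3)]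
    linear_combination ddd_spec L x a b c
  rw [h]
  exact ddd_abs_le L hx ha hb hc


end Pool.Agent.H228
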