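import Mathlib
import Pool.Agent.H228.Poly

/-! Kronecker substitution with masks -/

set_option autoImplicit false

namespace Pool.Agent.H228

/-! ### K3: Kronecker substitution with masks. `X = 2^k`, `x ↦ X^(J+1)`, `a ↦ X`. -/

/-- `Σ_{i<n} 2^(k-1) 2^(k i)` -/
def topMask (k : ℕ) : ℕ → ℕ
  | 0 => 0
  | n + 1 => 2 ^ (k - 1) + 2 ^ k * topMask k n

theorem topMask_sum (k n : ℕ) : topMask k n = 2 ^ (k - 1) * ∑ i ∈ Finset.range n, (2 ^ k) ^ i := by
  induction n with
  | zero => simp [topMask]
  | succ n ih =>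
    rw [topMask, ih, Finset.sum_range_succ', Finset.mul_sum]
    simp_rw [pow_succ]
    rw [← Finset.sum_mul, mul_add, pow_zero, Finset.mul_sum, Finset.sum_mul, Finset.mul_sum]
    rw [mul_one, add_comm]
    congr 1
    refine Finset.sum_congr rfl fun i _ => by ring

/-- closed form used for fast evaluation -/
theorem topMask_eq (k n : ℕ) (hk : 1 ≤ k) :
    topMask k n = 2 ^ (k - 1) * ((2 ^ (k * n) - 1) / (2 ^ k - 1)) := by
  rw [topMask_sum, pow_mul, Nat.geomSum_eq]
  calc 2 = 2 ^ 1 := rfl
    _ ≤ 2 ^ k := Nat.pow_le_pow_right (by norm_num) hk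

/-- digits: if all digits are small and the top bits of the sum vanish, the digits are nonnegative -/
theorem digits_nonneg (k : ℕ) (hk : 1 ≤ k) (M : ℕ) : ∀ d : ℕ → ℤ,
    (∀ n < M, |d n| < 2 ^ (k - 1)) → 0 ≤ ∑ n ∈ Finset.range M, d n * (2 ^ k) ^ n →
    (∑ n ∈ Finset.range M, d n * (2 ^ k) ^ n).toNat &&& topMask k M = 0 → ∀ n < M, 0 ≤ d n := by
  induction M with
  | zero => intro d _ _ _ n hn; omega
  | succ M ih =>
    intro d hd h0 hmask
    set S' : ℤ := ∑ n ∈ Finset.range M, d (n + 1) * (2 ^ k) ^ n with hS'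
    have hS : ∑ n ∈ Finset.range (M + 1), d n * (2 ^ k) ^ n = d 0 + 2 ^ k * S' := by
      rw [Finset.sum_range_succ', hS', Finset.mul_sum, pow_zero, mul_one, add_comm]
      congr 1
      refine Finset.sum_congr rfl fun n _ => by ring
    rw [hS] at h0 hmask
    have hX : (2 : ℤ) ^ k = 2 * 2 ^ (k - 1) := by
      conv_lhs => rw [show k = (k - 1) + 1 by omega]
      rw [pow_succ]; ring
    have hXn : (2 : ℕ) ^ k = 2 * 2 ^ (k - 1) := by
      conv_lhs => rw [show k = (k - 1) + 1 by omega]
      rw [pow_succ]; ring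
    have hP : (0 : ℤ) < 2 ^ (k - 1) := by positivity
    have hPn : 0 < 2 ^ (k - 1) := by positivity
    have hd0 := abs_lt.1 (hd 0 (by omega))
    set P : ℤ := 2 ^ (k - 1) with hPdef
    have hPc : ((2 ^ (k - 1) : ℕ) : ℤ) = P := by rw [hPdef]; push_cast; rfl
    rw [topMask] at hmask
    -- the lowest digit
    have hd00 : 0 ≤ d 0 := by
      by_contra hneg
      push Not at hneg
      have hS1 : 1 ≤ S' := by
        by_contra h
        push Not at h
        have : 2 ^ k * S' ≤ 0 := mul_nonpos_of_nonneg_of_nonpos (by positivity) (by omega)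
        omega
      obtain ⟨q, hq⟩ : ∃ q : ℕ, S' - 1 = q := ⟨(S' - 1).toNat, by omega⟩
      obtain ⟨h, hh⟩ : ∃ h : ℕ, 2 * P + d 0 = h := ⟨(2 * P + d 0).toNat, by omega⟩
      have hval : (d 0 + 2 ^ k * S').toNat = h + 2 ^ k * q := by
        have : d 0 + 2 ^ k * S' = ((h + 2 ^ k * q : ℕ) : ℤ) := by
          push_cast
          rw [← hh, ← hq, hX]; ring
        rw [this, Int.toNat_natCast]
      rw [hval] at hmask
      have h1 : (h + 2 ^ k * q &&& 2 ^ (k - 1) + 2 ^ k * topMask k M).testBit (k - 1) = true := by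
        have hh1 : P < h := by omega
        have hh2 : (h : ℤ) < 2 * P := by omega
        have hh1' : 2 ^ (k - 1) < h := by exact_mod_cast (hPc ▸ hh1)
        have hh2' : h < 2 * 2 ^ (k - 1) := by
          have : (h : ℤ) < ((2 * 2 ^ (k - 1) : ℕ) : ℤ) := by push_cast; exact hh2
          exact_mod_cast this
        rw [Nat.testBit_and, Nat.testBit_eq_decide_div_mod_eq, Nat.testBit_eq_decide_div_mod_eq, hXn]
        have e1 : (h + 2 * 2 ^ (k - 1) * q) / 2 ^ (k - 1) = 1 + 2 * q := by
          rw [show h + 2 * 2 ^ (k - 1) * q = h + 2 ^ (k - 1) * (2 * q) by ring, Nat.add_mul_div_left _ _ hPn]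
          congr 1
          exact Nat.div_eq_of_lt_le (by omega) (by omega)
        have e2 : (2 ^ (k - 1) + 2 * 2 ^ (k - 1) * topMask k M) / 2 ^ (k - 1) = 1 + 2 * topMask k M := by
          rw [show 2 ^ (k - 1) + 2 * 2 ^ (k - 1) * topMask k M = 2 ^ (k - 1) + 2 ^ (k - 1) * (2 * topMask k M) by ring,
            Nat.add_mul_div_left _ _ hPn, Nat.div_self hPn]
        rw [e1, e2]
        simp
      rw [hmask] at h1
      simp at h1
    have hS'0 : 0 ≤ S' := by
      by_contra h
      push Not at h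
      have h2 : S' ≤ -1 := by omega
      have : 2 ^ k * S' ≤ 2 ^ k * (-1) := mul_le_mul_of_nonneg_left h2 (by positivity)
      rw [hX] at this h0
      omega
    have hmask' : S'.toNat &&& topMask k M = 0 := by
      obtain ⟨q, hq⟩ : ∃ q : ℕ, S' = q := ⟨S'.toNat, by omega⟩
      obtain ⟨h, hh⟩ : ∃ h : ℕ, d 0 = h := ⟨(d 0).toNat, by omega⟩
      have hval : (d 0 + 2 ^ k * S').toNat = h + 2 ^ k * q := by
        have : d 0 + 2 ^ k * S' = ((h + 2 ^ k * q : ℕ) : ℤ) := by
          push_cast
          rw [← hh, ← hq]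
        rw [this, Int.toNat_natCast]
      rw [hval] at hmask
      have h3 := congrArg (fun x => x >>> k) hmask
      simp only [Nat.shiftRight_and_distrib, Nat.zero_shiftRight] at h3
      rw [Nat.shiftRight_eq_div_pow, Nat.shiftRight_eq_div_pow] at h3
      have hh2 : h < 2 ^ k := by
        have : (h : ℤ) < ((2 * 2 ^ (k - 1) : ℕ) : ℤ) := by push_cast; omega
        rw [hXn]; exact_mod_cast this
      rw [Nat.add_mul_div_left _ _ (by positivity), Nat.add_mul_div_left _ _ (by positivity),
        Nat.div_eq_of_lt hh2, Nat.div_eq_of_lt (by rw [hXn]; omega), zero_add, zero_add] at h3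
      rw [hq, Int.toNat_natCast]
      exact h3
    intro n hn
    cases n with
    | zero => exact hd00
    | succ n => exact ih (fun n => d (n + 1)) (fun n hn => hd (n + 1) (by omega)) hS'0 hmask' n (by omega)

theorem ev1_sum {R : Type} [CommRing R] (l : List ℤ) (a : R) : ∀ m, l.length ≤ m →
    ev1 l a = ∑ j ∈ Finset.range m, ((l.getD j 0 : ℤ) : R) * a ^ j := by
  induction l with
  | nil => intro m _; simp [ev1]
  | cons c l ih =>
    intro m hm
    cases m with
    | zero => simp at hm
    | succ m =>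
      have h := ih m (by simpa using hm)
      rw [Finset.sum_range_succ']
      simp only [List.getD_cons_succ, List.getD_cons_zero, pow_zero, mul_one]
      change (c : R) + a * ev1 l a = _
      rw [h, Finset.mul_sum, add_comm]
      congr 1
      refine Finset.sum_congr rfl fun j _ => by ring

theorem ev2_sum {R : Type} [CommRing R] (L : List (List ℤ)) (x a : R) : ∀ m, L.length ≤ m →
    ev2 L x a = ∑ i ∈ Finset.range m, ev1 (L.getD i []) a * x ^ i := by
  induction L with
  | nil => intro m _; simp [ev2, ev1]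
  | cons c l ih =>
    intro m hm
    cases m with
    | zero => simp at hm
    | succ m =>
      have h := ih m (by simpa using hm)
      rw [Finset.sum_range_succ']
      simp only [List.getD_cons_succ, List.getD_cons_zero, pow_zero, mul_one]
      change ev1 c a + x * ev2 l x a = _
      rw [h, Finset.mul_sum, add_comm]
      congr 1
      refine Finset.sum_congr rfl fun j _ => by ring

/-- coefficient -/
def cf (L : List (List ℤ)) (i j : ℕ) : ℤ := (L.getD i []).getD j 0

theorem sum_blocks {R : Type} [CommRing R] (m : ℕ) (f : ℕ → R) (n : ℕ) :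
    ∑ x ∈ Finset.range (n * m), f x = ∑ i ∈ Finset.range n, ∑ j ∈ Finset.range m, f (i * m + j) := by
  induction n with
  | zero => simp
  | succ n ih =>
    rw [Finset.sum_range_succ, ← ih, Nat.succ_mul, Finset.sum_range_add]

theorem ev2_kron (I J k : ℕ) (L : List (List ℤ)) (hL : Shape I J L) :
    ev2 L ((2:ℤ) ^ (k * (J + 1))) (2 ^ k) =
      ∑ n ∈ Finset.range ((I + 1) * (J + 1)), cf L (n / (J + 1)) (n % (J + 1)) * (2 ^ k) ^ n := by
  rw [ev2_sum L _ _ (I + 1) hL.1, sum_blocks]
  refine Finset.sum_congr rfl fun i _ => ?_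
  have hlen : (L.getD i []).length ≤ J + 1 := by
    rcases lt_or_ge i L.length with h | h
    · rw [List.getD_eq_getElem _ _ h]
      exact hL.2 _ (List.getElem_mem h)
    · rw [List.getD_eq_default _ _ h]; simp
  rw [ev1_sum _ _ (J + 1) hlen, Finset.sum_mul]
  refine Finset.sum_congr rfl fun j hj => ?_
  have hj' := Finset.mem_range.1 hj
  have h1 : (i * (J + 1) + j) / (J + 1) = i := by
    rw [add_comm, Nat.add_mul_div_right _ _ (by omega), Nat.div_eq_of_lt hj', zero_add]
  have h2 : (i * (J + 1) + j) % (J + 1) = j := by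
    rw [add_comm, Nat.add_mul_mod_self_right, Nat.mod_eq_of_lt hj']
  rw [h1, h2]
  unfold cf
  push_cast
  ring

theorem n0_le (l : List ℤ) (j : ℕ) : |l.getD j 0| ≤ n0 l := by
  induction l generalizing j with
  | nil => simp [n0]
  | cons c l ih =>
    cases j with
    | zero =>
      simp only [List.getD_cons_zero, n0]
      push_cast
      have : (0 : ℤ) ≤ n0 l := by positivity
      linarith
    | succ j =>
      simp only [List.getD_cons_succ, n0]
      push_cast
      have h1 := ih j
      have : (0 : ℤ) ≤ |c| := abs_nonneg c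
      linarith

theorem N0_ge (L : List (List ℤ)) (i : ℕ) : n0 (L.getD i []) ≤ N0 L := by
  induction L generalizing i with
  | nil => simp [n0, N0]
  | cons c l ih =>
    cases i with
    | zero => simp only [List.getD_cons_zero, N0]; omega
    | succ i =>
      simp only [List.getD_cons_succ, N0]
      have := ih i
      omega

theorem cf_le (L : List (List ℤ)) (i j : ℕ) : |cf L i j| ≤ N0 L :=
  (n0_le _ j).trans (by exact_mod_cast N0_ge L i)

theorem n_mono (l : List ℤ) : ∀ b : List ℤ, (∀ j, |l.getD j 0| ≤ b.getD j 0) →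
    n0 l ≤ n0 b ∧ n1 l ≤ n1 b ∧ n2 l ≤ n2 b := by
  induction l with
  | nil => intro b _; simp [n0, n1, n2]
  | cons c l ih =>
    intro b hb
    cases b with
    | nil =>
      have h0 := hb 0
      have hs : ∀ j, |l.getD j 0| ≤ ([] : List ℤ).getD j 0 := fun j => by
        have := hb (j + 1); simpa using this
      obtain ⟨h1, h2, h3⟩ := ih [] hs
      simp only [List.getD_cons_zero, List.getD_nil] at h0
      simp only [n0, n1, n2] at h1 h2 h3 ⊢
      rw [Int.abs_eq_natAbs] at h0
      have : c.natAbs = 0 := by omega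
      omega
    | cons d b =>
      have h0 := hb 0
      have hs : ∀ j, |l.getD j 0| ≤ b.getD j 0 := fun j => by
        have := hb (j + 1); simpa using this
      obtain ⟨h1, h2, h3⟩ := ih b hs
      simp only [List.getD_cons_zero] at h0
      simp only [n0, n1, n2]
      rw [Int.abs_eq_natAbs] at h0
      have : c.natAbs ≤ d.natAbs := by omega
      omega

theorem N_mono (L : List (List ℤ)) : ∀ B : List (List ℤ), (∀ i j, |cf L i j| ≤ cf B i j) →
    N0 L ≤ N0 B ∧ N1 L ≤ N1 B ∧ N2 L ≤ N2 B := by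
  induction L with
  | nil => intro b _; simp [N0, N1, N2]
  | cons c l ih =>
    intro b hb
    cases b with
    | nil =>
      have h0 : ∀ j, |c.getD j 0| ≤ ([] : List ℤ).getD j 0 := fun j => by
        have := hb 0 j; simpa [cf] using this
      have hs : ∀ i j, |cf l i j| ≤ cf [] i j := fun i j => by
        have := hb (i + 1) j; simpa [cf] using this
      obtain ⟨h1, h2, h3⟩ := ih [] hs
      obtain ⟨h4, h5, h6⟩ := n_mono c [] h0
      simp only [n0, n1, n2, N0, N1, N2] at h1 h2 h3 h4 h5 h6 ⊢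
      omega
    | cons d b =>
      have h0 : ∀ j, |c.getD j 0| ≤ d.getD j 0 := fun j => by
        have := hb 0 j; simpa [cf] using this
      have hs : ∀ i j, |cf l i j| ≤ cf b i j := fun i j => by
        have := hb (i + 1) j; simpa [cf] using this
      obtain ⟨h1, h2, h3⟩ := ih b hs
      obtain ⟨h4, h5, h6⟩ := n_mono c d h0
      simp only [N0, N1, N2]
      omega

theorem kron (k I J : ℕ) (hk : 2 ≤ k) (L B : List (List ℤ)) (hL : Shape I J L) (hB : Shape I J B)
    (hBpos : ∀ l ∈ B, ∀ c ∈ l, 0 ≤ c)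
    (hL0 : N0 L < 2 ^ (k - 2)) (hB0 : N0 B < 2 ^ (k - 2))
    (hp : 0 ≤ ev2 B ((2:ℤ) ^ (k * (J + 1))) (2 ^ k) + ev2 L ((2:ℤ) ^ (k * (J + 1))) (2 ^ k))
    (hm : 0 ≤ ev2 B ((2:ℤ) ^ (k * (J + 1))) (2 ^ k) - ev2 L ((2:ℤ) ^ (k * (J + 1))) (2 ^ k))
    (hp' : (ev2 B ((2:ℤ) ^ (k * (J + 1))) (2 ^ k) +
      ev2 L ((2:ℤ) ^ (k * (J + 1))) (2 ^ k)).toNat &&& topMask k ((I + 1) * (J + 1)) = 0)
    (hm' : (ev2 B ((2:ℤ) ^ (k * (J + 1))) (2 ^ k) -
      ev2 L ((2:ℤ) ^ (k * (J + 1))) (2 ^ k)).toNat &&& topMask k ((I + 1) * (J + 1)) = 0) :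
    N0 L ≤ N0 B ∧ N1 L ≤ N1 B ∧ N2 L ≤ N2 B := by
  have h2 : (2 : ℤ) ^ (k - 1) = 2 ^ (k - 2) + 2 ^ (k - 2) := by
    rw [show k - 1 = (k - 2) + 1 by omega, pow_succ]; ring
  have hL0' : (N0 L : ℤ) < 2 ^ (k - 2) := by exact_mod_cast hL0
  have hB0' : (N0 B : ℤ) < 2 ^ (k - 2) := by exact_mod_cast hB0
  rw [ev2_kron I J k L hL, ev2_kron I J k B hB] at hp hm hp' hm'
  rw [← Finset.sum_add_distrib] at hp hp'
  rw [← Finset.sum_sub_distrib] at hm hm'
  simp_rw [← add_mul] at hp hp'
  simp_rw [← sub_mul] at hm hm'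
  have hP := digits_nonneg k (by omega) ((I + 1) * (J + 1))
    (fun n => cf B (n / (J + 1)) (n % (J + 1)) + cf L (n / (J + 1)) (n % (J + 1))) (fun n _ => by
      have h3 := cf_le B (n / (J + 1)) (n % (J + 1))
      have h4 := cf_le L (n / (J + 1)) (n % (J + 1))
      have h5 := abs_add_le (cf B (n / (J + 1)) (n % (J + 1))) (cf L (n / (J + 1)) (n % (J + 1)))
      omega) hp hp'
  have hM := digits_nonneg k (by omega) ((I + 1) * (J + 1))
    (fun n => cf B (n / (J + 1)) (n % (J + 1)) - cf L (n / (J + 1)) (n % (J + 1))) (fun n _ => by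
      have h3 := cf_le B (n / (J + 1)) (n % (J + 1))
      have h4 := cf_le L (n / (J + 1)) (n % (J + 1))
      have h5 := abs_sub (cf B (n / (J + 1)) (n % (J + 1))) (cf L (n / (J + 1)) (n % (J + 1)))
      omega) hm hm'
  apply N_mono
  intro i j
  by_cases hij : i < I + 1 ∧ j < J + 1
  · have hn : i * (J + 1) + j < (I + 1) * (J + 1) := by
      calc i * (J + 1) + j < i * (J + 1) + (J + 1) := by omega
        _ = (i + 1) * (J + 1) := by ring
        _ ≤ (I + 1) * (J + 1) := Nat.mul_le_mul_right _ (by omega)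
    have h1 : (i * (J + 1) + j) / (J + 1) = i := by
      rw [add_comm, Nat.add_mul_div_right _ _ (by omega), Nat.div_eq_of_lt hij.2, zero_add]
    have h2 : (i * (J + 1) + j) % (J + 1) = j := by
      rw [add_comm, Nat.add_mul_mod_self_right, Nat.mod_eq_of_lt hij.2]
    have h3 := hP _ hn
    have h4 := hM _ hn
    simp only [h1, h2] at h3 h4
    rw [abs_le]
    omega
  · have hz : ∀ A : List (List ℤ), Shape I J A → cf A i j = 0 := by
      intro A hA
      unfold cf
      rcases lt_or_ge i A.length with h | h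
      · rw [List.getD_eq_getElem _ _ h]
        have h5 := hA.2 _ (List.getElem_mem h)
        have h6 := hA.1
        rw [List.getD_eq_default _ _ (by omega)]
      · rw [List.getD_eq_default _ _ h]; simp
    rw [hz L hL, hz B hB]; simp

end Pool.Agent.H228
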