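import Mathlib
import Pool.Agent.H228.Defs
import Pool.Agent.H228.Check
import Pool.Agent.H228.Fin
import Pool.Agent.H228.Kron
import Pool.Agent.H228.Cell

/-! Real meaning of the data of the checker (definitions only). -/

set_option autoImplicit false

namespace Pool.Agent.H228

open Set

/-- end points of a cell -/
noncomputable def CellD.a0 (C : CellD) : ℝ := ((C.M : ℝ) - C.H) / 2 ^ C.g
noncomputable def CellD.a1 (C : CellD) : ℝ := ((C.M : ℝ) + C.H) / 2 ^ C.g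

/-- local variable `x` of a cell: `t = (M + H x)/G` -/
noncomputable def CellD.x (C : CellD) (t : ℝ) : ℝ := (2 ^ C.g * t - C.M) / C.H

/-- the approximant of the cell `C` and its time derivative -/
noncomputable def pC (P : Par) (C : CellD) (a t : ℝ) : ℝ := ev2 (C.poly P) (C.x t) a / 2 ^ P.s
noncomputable def pC1 (P : Par) (C : CellD) (a t : ℝ) : ℝ :=
  ev2 (der2 (C.poly P)) (C.x t) a * (2 ^ C.g / C.H) / 2 ^ P.s

/-- the residual `p'' + (2/t) p' + p^4 + c p^7` -/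
noncomputable def rC (P : Par) (C : CellD) (a t : ℝ) : ℝ :=
  ev2 (der2 (der2 (C.poly P))) (C.x t) a * (2 ^ C.g / C.H) ^ 2 / 2 ^ P.s + 2 / t * pC1 P C a t +
    fc P.c (pC P C a t)

/-- the residual polynomial `G^2 S^(3+3c) [(M+Hx) P_xx + 2 H P_x] + H^2 (M+Hx) (S^(3c) P^4 + c P^7)`;
it equals `t rC G S^(4+3c) H^2` -/
noncomputable def resPoly (P : Par) (C : CellD) (x a : ℝ) : ℝ :=
  (2 ^ C.g) ^ 2 * (2 ^ P.s) ^ (3 + 3 * P.c) *
      ((C.M + C.H * x) * ev2 (der2 (der2 (C.poly P))) x a + 2 * C.H * ev2 (der2 (C.poly P)) x a) +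
    C.H ^ 2 * (C.M + C.H * x) *
      ((2 ^ P.s) ^ (3 * P.c) * ev2 (C.poly P) x a ^ 4 + P.c * ev2 (C.poly P) x a ^ 7)

/-- list of naturals, minus a constant, as integers -/
def toZ (O : ℕ) (l : List ℕ) : List ℤ := l.map (fun (n : ℕ) => ((n : ℤ) - (O : ℤ)))

/-- strict monotonicity of the first zero on a parameter interval -/
def Dec (u : ℝ → ℝ → ℝ) (α β : ℝ) : Prop :=
  (∀ a ∈ Icc α β, ∃ T, Hit (u a) T) ∧
  ∀ a ∈ Icc α β, ∀ b ∈ Icc α β, a < b → ∀ T T', Hit (u a) T → Hit (u b) T' → T' < T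
def Inc (u : ℝ → ℝ → ℝ) (α β : ℝ) : Prop :=
  (∀ a ∈ Icc α β, ∃ T, Hit (u a) T) ∧
  ∀ a ∈ Icc α β, ∀ b ∈ Icc α β, a < b → ∀ T T', Hit (u a) T → Hit (u b) T' → T < T'

/-- the bounds `s` hold at time `t` for the parameters `a ∈ [lo, hi]` -/
structure SegB (S t lo hi : ℝ) (v v1 : ℝ → ℝ → ℝ) (s : SegC) : Prop where
  val : ∀ a ∈ Icc lo hi, (s.vl : ℝ) / S ≤ v a t ∧ v a t ≤ (s.vh : ℝ) / S
  slo : ∀ a ∈ Icc lo hi, (s.yl : ℝ) / S ≤ t * v1 a t ∧ t * v1 a t ≤ (s.yh : ℝ) / S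
  dv : ∀ a ∈ Icc lo hi, ∀ b ∈ Icc lo hi, a ≠ b →
    (s.Dl : ℝ) / S ≤ d1 (fun s => v s t) a b ∧ d1 (fun s => v s t) a b ≤ (s.Dh : ℝ) / S
  ds : ∀ a ∈ Icc lo hi, ∀ b ∈ Icc lo hi, a ≠ b →
    (s.El : ℝ) / S ≤ t * d1 (fun s => v1 s t) a b ∧ t * d1 (fun s => v1 s t) a b ≤ (s.Eh : ℝ) / S

/-- segment `i` of `2^w` -/
noncomputable def segLo (w i : ℕ) : ℝ := (2 * (i : ℝ) - 2 ^ w) / 2 ^ w
noncomputable def segHi (w i : ℕ) : ℝ := (2 * (i : ℝ) + 2 - 2 ^ w) / 2 ^ w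

end Pool.Agent.H228
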