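import Mathlib
import Pool.Agent.H228.Sem

/-! TASK S1: meaning of the list functions of the checker. -/

set_option autoImplicit false

namespace Pool.Agent.H228

theorem force_eq {β : Type} (n : ℕ) (k : ℕ → β) : force n k = k n := by
  cases n <;> rfl

theorem forceL_eq {β : Type} (l : List ℕ) (k : List ℕ → β) : forceL l k = k l := by
  induction l generalizing k with
  | nil => rfl
  | cons a l ih =>
    have h : forceL (a :: l) k = force a (fun a' => forceL l (fun t => k (a' :: t))) := rfl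
    rw [h, force_eq, ih]

theorem le_cdiv {a b : ℕ} (hb : 0 < b) : (a : ℝ) / b < (cdiv a b : ℝ) := by
  have hb' : (0 : ℝ) < b := by exact_mod_cast hb
  have h : a < b * (a / b + 1) := Nat.lt_mul_div_succ a hb
  have h2 : (cdiv a b : ℝ) = ((a / b + 1 : ℕ) : ℝ) := rfl
  rw [h2, div_lt_iff₀ hb', mul_comm]
  exact_mod_cast h

theorem mx_eq (a b : ℕ) : mx a b = max a b := by
  change a + (b - a) = max a b
  omega

theorem digs_length (B n N : ℕ) : (digs B n N).length = n := by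
  induction n generalizing N with
  | zero => rfl
  | succ n ih =>
    have h : digs B (n + 1) N = Nat.mod N B :: digs B n (Nat.div N B) := rfl
    rw [h, List.length_cons, ih]

theorem rowsOf_succ (B w n N : ℕ) :
    rowsOf B w (n + 1) N = digs B w N :: rowsOf B w n (Nat.div N (Nat.pow B w)) := rfl

theorem rowsOf_length (B w n N : ℕ) : (rowsOf B w n N).length = n := by
  induction n generalizing N with
  | zero => rfl
  | succ n ih => rw [rowsOf_succ, List.length_cons, ih]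

theorem rowsOf_row_length (B w n N : ℕ) : ∀ r ∈ rowsOf B w n N, r.length = w := by
  induction n generalizing N with
  | zero =>
    intro r hr
    have h : rowsOf B w 0 N = [] := rfl
    rw [h] at hr
    exact absurd hr List.not_mem_nil
  | succ n ih =>
    intro r hr
    rw [rowsOf_succ, List.mem_cons] at hr
    rcases hr with hr | hr
    · rw [hr]; exact digs_length B w N
    · exact ih _ r hr

theorem rows_length (P : Par) (C : CellD) : (C.rows P).length = P.dx + 1 :=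
  rowsOf_length _ _ _ _

theorem rows_row_length (P : Par) (C : CellD) : ∀ r ∈ C.rows P, r.length = P.da + 1 :=
  rowsOf_row_length _ _ _ _

theorem poly_shape (P : Par) (C : CellD) : Shape P.dx P.da (C.poly P) := by
  refine ⟨?_, ?_⟩
  · unfold CellD.poly toI
    rw [List.length_map, rows_length]
  · intro l hl
    unfold CellD.poly toI at hl
    rw [List.mem_map] at hl
    obtain ⟨r, hr, rfl⟩ := hl
    rw [List.length_map, rows_row_length P C r hr]

theorem toZ_cons (O n : ℕ) (l : List ℕ) : toZ O (n :: l) = ((n : ℤ) - (O : ℤ)) :: toZ O l := rfl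

theorem toI_cons (O : ℕ) (r : List ℕ) (D : List (List ℕ)) :
    toI O (r :: D) = toZ O r :: toI O D := rfl

theorem nrm_spec {β : Type} (O : ℕ) (l : List ℕ) (k : ℕ → ℕ → ℕ → β) :
    nrm O l k = k (n0 (toZ O l)) (n1 (toZ O l)) (n2 (toZ O l)) := by
  induction l generalizing k with
  | nil => rfl
  | cons n l ih =>
    have h : nrm O (n :: l) k = nrm O l (fun a b c =>
      k (Nat.add (Nat.add (Nat.sub n O) (Nat.sub O n)) a) (Nat.add a b) (Nat.add b c)) := rfl
    rw [h, ih, toZ_cons]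
    have h1 : ((n : ℤ) - (O : ℤ)).natAbs = (n - O) + (O - n) := by omega
    simp only [n0, n1, n2, h1]
    rfl

theorem nrmAll_spec {β : Type} (O : ℕ) (D : List (List ℕ)) (k : ℕ → ℕ → ℕ → ℕ → ℕ → β) :
    nrmAll O D k = k (N0 (toI O D)) (N1 (toI O D)) (N2 (toI O D)) (M1 (toI O D)) (M2 (toI O D)) := by
  induction D generalizing k with
  | nil => rfl
  | cons r D ih =>
    have h : nrmAll O (r :: D) k = nrmAll O D (fun A B C m1 m2 => nrm O r (fun a b c =>
      k (Nat.add a A) (Nat.add b B) (Nat.add c C) (Nat.add A m1)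
        (Nat.add (Nat.mul 2 m1) m2))) := rfl
    rw [h, ih, nrm_spec, toI_cons]
    rfl

/-- `hor` and `go3` -/
theorem hor_spec (X : ℕ) (l : List ℕ) : (hor X l : ℤ) = ev1 (toZ 0 l) (X : ℤ) := by
  induction l with
  | nil => rfl
  | cons c l ih =>
    have h : hor X (c :: l) = c + X * hor X l := rfl
    rw [h, toZ_cons, ev1_cons, ← ih]
    push_cast
    simp

theorem ev2_der2_cons {R : Type} [CommRing R] (l : List ℤ) (L : List (List ℤ)) (x a : R) :
    ev2 (der2 (l :: L)) x a = ev2 L x a + x * ev2 (der2 L) x a := by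
  simp [der2, ev2_add2]

theorem ev2_der2_add2 {R : Type} [CommRing R] (p q : List (List ℤ)) (x a : R) :
    ev2 (der2 (add2 p q)) x a = ev2 (der2 p) x a + ev2 (der2 q) x a := by
  induction p generalizing q with
  | nil => simp [add2, der2]
  | cons c p ih =>
    cases q with
    | nil => simp [add2, der2]
    | cons d q =>
      have h : add2 (c :: p) (d :: q) = add1 c d :: add2 p q := rfl
      rw [h, ev2_der2_cons, ev2_der2_cons, ev2_der2_cons, ih, ev2_add2]
      ring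

theorem ev2_der2_der2_cons {R : Type} [CommRing R] (l : List ℤ) (L : List (List ℤ)) (x a : R) :
    ev2 (der2 (der2 (l :: L))) x a = 2 * ev2 (der2 L) x a + x * ev2 (der2 (der2 L)) x a := by
  have h : der2 (l :: L) = add2 L ([] :: der2 L) := rfl
  rw [h, ev2_der2_add2, ev2_der2_cons]
  ring

theorem go3_spec' {β : Type} (w X : ℕ) (D : List (List ℕ)) :
    ∃ E E1 E2 : ℕ, (∀ k : ℕ → ℕ → ℕ → β, go3 w (D.map (hor X)) k = k E E1 E2) ∧
      (E : ℤ) = ev2 (toI 0 D) ((2:ℤ) ^ w) (X : ℤ) ∧ (E1 : ℤ) = ev2 (der2 (toI 0 D)) ((2:ℤ) ^ w) (X : ℤ) ∧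
      (E2 : ℤ) = ev2 (der2 (der2 (toI 0 D))) ((2:ℤ) ^ w) (X : ℤ) := by
  induction D with
  | nil => exact ⟨0, 0, 0, fun k => rfl, rfl, rfl, rfl⟩
  | cons r D ih =>
    obtain ⟨E, E1, E2, hk, h0, h1, h2⟩ := ih
    refine ⟨hor X r + E <<< w, E + E1 <<< w, 2 * E1 + E2 <<< w, ?_, ?_, ?_, ?_⟩
    · intro k
      have h : go3 w ((r :: D).map (hor X)) k = go3 w (D.map (hor X)) (fun E E1 E2 =>
        k (Nat.add (hor X r) (Nat.shiftLeft E w)) (Nat.add E (Nat.shiftLeft E1 w))
          (Nat.add (Nat.mul 2 E1) (Nat.shiftLeft E2 w))) := rfl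
      rw [h, hk]
      rfl
    · rw [toI_cons, ev2_cons, ← h0, ← hor_spec, Nat.shiftLeft_eq]
      push_cast
      ring
    · rw [toI_cons, ev2_der2_cons, ← h0, ← h1, Nat.shiftLeft_eq]
      push_cast
      ring
    · rw [toI_cons, ev2_der2_der2_cons, ← h1, ← h2, Nat.shiftLeft_eq]
      push_cast
      ring

theorem go3_spec {β : Type} (w X : ℕ) (D : List (List ℕ)) (k : ℕ → ℕ → ℕ → β) :
    ∃ E E1 E2 : ℕ, go3 w (D.map (hor X)) k = k E E1 E2 ∧
      (E : ℤ) = ev2 (toI 0 D) ((2:ℤ) ^ w) (X : ℤ) ∧ (E1 : ℤ) = ev2 (der2 (toI 0 D)) ((2:ℤ) ^ w) (X : ℤ) ∧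
      (E2 : ℤ) = ev2 (der2 (der2 (toI 0 D))) ((2:ℤ) ^ w) (X : ℤ) := by
  obtain ⟨E, E1, E2, hk, h⟩ := go3_spec' (β := β) w X D
  exact ⟨E, E1, E2, hk k, h⟩

theorem repN_eq (v n : ℕ) : repN v n = List.replicate n v := by
  induction n with
  | zero => rfl
  | succ n ih =>
    have h : repN v (n + 1) = v :: repN v n := rfl
    rw [h, ih, List.replicate_succ]

theorem addL_cons (a : ℕ) (l m : List ℕ) :
    addL (a :: l) m = (a + m.headD 0) :: addL l m.tail := rfl

theorem addL_nil (m : List ℕ) : addL [] m = m := rfl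

/-- `addL`, `scL`, `nrmD`, `evAll`, in terms of evaluation at reals -/
theorem ev1_addL (l m : List ℕ) (a : ℝ) :
    ev1 (toZ 0 (addL l m)) a = ev1 (toZ 0 l) a + ev1 (toZ 0 m) a := by
  induction l generalizing m with
  | nil => rw [addL_nil]; simp [toZ]
  | cons c l ih =>
    rw [addL_cons, toZ_cons, toZ_cons, ev1_cons, ev1_cons, ih]
    cases m with
    | nil => simp [toZ]
    | cons d m =>
      rw [toZ_cons, ev1_cons]
      simp only [List.headD_cons, List.tail_cons]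
      push_cast
      ring

theorem ev1_scL (c : ℕ) (l : List ℕ) (a : ℝ) : ev1 (toZ 0 (scL c l)) a = c * ev1 (toZ 0 l) a := by
  induction l with
  | nil => simp [toZ, scL]
  | cons d l ih =>
    have h : scL c (d :: l) = (c * d) :: scL c l := rfl
    rw [h, toZ_cons, toZ_cons, ev1_cons, ev1_cons, ih]
    push_cast
    ring

theorem headD_addL (l m : List ℕ) : (addL l m).headD 0 = l.headD 0 + m.headD 0 := by
  cases l with
  | nil => rw [addL_nil]; simp
  | cons a l => rw [addL_cons]; simp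

theorem nrmD_spec' {β : Type} (l m : List ℕ) :
    ∃ d : List ℤ, (∀ k : ℕ → ℕ → ℕ → β, nrmD l m k = k (n0 d) (n1 d) (n2 d)) ∧
      d.headD 0 = (l.headD 0 : ℤ) - (m.headD 0 : ℤ) ∧
      d.tail.headD 0 = (l.tail.headD 0 : ℤ) - (m.tail.headD 0 : ℤ) ∧
      ∀ a : ℝ, ev1 d a = ev1 (toZ 0 l) a - ev1 (toZ 0 m) a := by
  induction l generalizing m with
  | nil =>
    refine ⟨(toZ 0 m).map ((-1) * ·), ?_, ?_, ?_, ?_⟩
    · intro k
      have h : nrmD [] m k = nrm 0 m k := rfl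
      rw [h, nrm_spec, n0_smul, n1_smul, n2_smul]
      simp
    · cases m with
      | nil => simp [toZ]
      | cons x m => rw [toZ_cons]; simp
    · cases m with
      | nil => simp [toZ]
      | cons x m =>
        cases m with
        | nil => simp [toZ]
        | cons y m => rw [toZ_cons, toZ_cons]; simp
    · intro a
      rw [ev1_smul]
      simp [toZ]
  | cons n l ih =>
    obtain ⟨d, hk, hd, -, he⟩ := ih m.tail
    refine ⟨((n : ℤ) - (m.headD 0 : ℕ)) :: d, ?_, ?_, ?_, ?_⟩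
    · intro k
      have h : nrmD (n :: l) m k = nrmD l m.tail (fun a b c =>
        k (Nat.add (Nat.add (Nat.sub n (m.headD 0)) (Nat.sub (m.headD 0) n)) a) (Nat.add a b)
        (Nat.add b c)) := rfl
      have h1 : ((n : ℤ) - (m.headD 0 : ℕ)).natAbs = (n - m.headD 0) + (m.headD 0 - n) := by omega
      rw [h, hk]
      simp only [n0, n1, n2, h1]
      rfl
    · simp
    · simpa using hd
    · intro a
      rw [ev1_cons, he, toZ_cons, ev1_cons]
      cases m with
      | nil => simp [toZ]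
      | cons x m =>
        rw [toZ_cons, ev1_cons]
        simp only [List.headD_cons, List.tail_cons]
        push_cast
        ring

/-- the difference of two lists as an integer polynomial, with its norms -/
theorem nrmD_spec {β : Type} (l m : List ℕ) (k : ℕ → ℕ → ℕ → β) :
    ∃ d : List ℤ, nrmD l m k = k (n0 d) (n1 d) (n2 d) ∧
      d.headD 0 = (l.headD 0 : ℤ) - (m.headD 0 : ℤ) ∧
      d.tail.headD 0 = (l.tail.headD 0 : ℤ) - (m.tail.headD 0 : ℤ) ∧
      ∀ a : ℝ, ev1 d a = ev1 (toZ 0 l) a - ev1 (toZ 0 m) a := by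
  obtain ⟨d, hk, h⟩ := nrmD_spec' (β := β) l m
  exact ⟨d, hk k, h⟩

theorem evAll_cons {β : Type} (r : List ℕ) (D : List (List ℕ))
    (k : List ℕ → List ℕ → List ℕ → List ℕ → β) :
    evAll (r :: D) k = evAll D (fun p n dp dn => k (addL r n) p (addL p dn) (addL n dp)) := rfl

theorem evAll_spec' {β : Type} (D : List (List ℕ)) :
    ∃ p n dp dn : List ℕ,
      (∀ k : List ℕ → List ℕ → List ℕ → List ℕ → β, evAll D k = k p n dp dn) ∧ ∀ a : ℝ,
      ev2 (toI 0 D) 1 a = ev1 (toZ 0 p) a + ev1 (toZ 0 n) a ∧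
      ev2 (toI 0 D) (-1) a = ev1 (toZ 0 p) a - ev1 (toZ 0 n) a ∧
      ev2 (der2 (toI 0 D)) 1 a = ev1 (toZ 0 dp) a + ev1 (toZ 0 dn) a ∧
      ev2 (der2 (toI 0 D)) (-1) a = ev1 (toZ 0 dp) a - ev1 (toZ 0 dn) a := by
  induction D with
  | nil => exact ⟨[], [], [], [], fun k => rfl, fun a => by simp [toI, toZ, der2]⟩
  | cons r D ih =>
    obtain ⟨p, n, dp, dn, hk, h⟩ := ih
    refine ⟨addL r n, p, addL p dn, addL n dp, ?_, ?_⟩
    · intro k
      rw [evAll_cons, hk]
    · intro a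
      obtain ⟨h1, h2, h3, h4⟩ := h a
      rw [toI_cons, ev2_cons, ev2_cons, ev2_der2_cons, ev2_der2_cons, ev1_addL, ev1_addL, ev1_addL,
        h1, h2, h3, h4]
      refine ⟨by ring, by ring, by ring, by ring⟩

theorem evAll_spec {β : Type} (D : List (List ℕ)) (k : List ℕ → List ℕ → List ℕ → List ℕ → β) :
    ∃ p n dp dn : List ℕ, evAll D k = k p n dp dn ∧ ∀ a : ℝ,
      ev2 (toI 0 D) 1 a = ev1 (toZ 0 p) a + ev1 (toZ 0 n) a ∧
      ev2 (toI 0 D) (-1) a = ev1 (toZ 0 p) a - ev1 (toZ 0 n) a ∧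
      ev2 (der2 (toI 0 D)) 1 a = ev1 (toZ 0 dp) a + ev1 (toZ 0 dn) a ∧
      ev2 (der2 (toI 0 D)) (-1) a = ev1 (toZ 0 dp) a - ev1 (toZ 0 dn) a := by
  obtain ⟨p, n, dp, dn, hk, h⟩ := evAll_spec' (β := β) D
  exact ⟨p, n, dp, dn, hk k, h⟩

theorem ev1_toZ_sub (O : ℕ) (r : List ℕ) (a : ℝ) :
    ev1 (toZ O r) a = ev1 (toZ 0 r) a - O * ev1 (toZ 0 (repN 1 r.length)) a := by
  induction r with
  | nil => simp [toZ, repN]
  | cons c r ih =>
    have h : repN 1 (c :: r).length = 1 :: repN 1 r.length := rfl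
    rw [h, toZ_cons, toZ_cons, toZ_cons, ev1_cons, ev1_cons, ev1_cons, ih]
    push_cast
    ring

theorem ones_spec' {β : Type} (m : ℕ) :
    ∃ p n dp dn : List ℕ,
      (∀ k : List ℕ → List ℕ → List ℕ → List ℕ → β, evAll (ones m) k = k p n dp dn) ∧
      ∀ (w : ℕ) (O : ℕ) (D : List (List ℕ)), D.length = m → (∀ r ∈ D, r.length = w) → ∀ a : ℝ,
        ev2 (toI O D) 1 a = ev2 (toI 0 D) 1 a -
          O * ((p.headD 0 : ℝ) + (n.headD 0 : ℝ)) * ev1 (toZ 0 (repN 1 w)) a ∧
        ev2 (toI O D) (-1) a = ev2 (toI 0 D) (-1) a -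
          O * ((p.headD 0 : ℝ) - (n.headD 0 : ℝ)) * ev1 (toZ 0 (repN 1 w)) a ∧
        ev2 (der2 (toI O D)) 1 a = ev2 (der2 (toI 0 D)) 1 a -
          O * ((dp.headD 0 : ℝ) + (dn.headD 0 : ℝ)) * ev1 (toZ 0 (repN 1 w)) a ∧
        ev2 (der2 (toI O D)) (-1) a = ev2 (der2 (toI 0 D)) (-1) a -
          O * ((dp.headD 0 : ℝ) - (dn.headD 0 : ℝ)) * ev1 (toZ 0 (repN 1 w)) a := by
  induction m with
  | zero =>
    refine ⟨[], [], [], [], fun k => rfl, ?_⟩
    intro w O D hD _ a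
    rw [List.length_eq_zero_iff.mp hD]
    simp [toI, der2]
  | succ m ih =>
    obtain ⟨p, n, dp, dn, hk, h⟩ := ih
    refine ⟨addL [1] n, p, addL p dn, addL n dp, ?_, ?_⟩
    · intro k
      have h0 : ones (m + 1) = [1] :: ones m := rfl
      rw [h0, evAll_cons, hk]
    · intro w O D hD hr a
      cases D with
      | nil => simp at hD
      | cons r D =>
        have hD' : D.length = m := by simpa using hD
        obtain ⟨h1, h2, h3, h4⟩ := h w O D hD' (fun r' hr' => hr r' (List.mem_cons_of_mem _ hr')) a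
        have hrw : r.length = w := hr r List.mem_cons_self
        have h5 := ev1_toZ_sub O r a
        rw [hrw] at h5
        rw [toI_cons, toI_cons, ev2_cons, ev2_cons, ev2_cons, ev2_cons, ev2_der2_cons, ev2_der2_cons,
          ev2_der2_cons, ev2_der2_cons, h1, h2, h3, h4, h5, headD_addL, headD_addL, headD_addL]
        simp only [List.headD_cons]
        push_cast
        refine ⟨by ring, by ring, by ring, by ring⟩

/-- rows of ones -/
theorem ones_spec {β : Type} (m : ℕ) (k : List ℕ → List ℕ → List ℕ → List ℕ → β) :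
    ∃ p n dp dn : List ℕ, evAll (ones m) k = k p n dp dn ∧
      ∀ (w : ℕ) (O : ℕ) (D : List (List ℕ)), D.length = m → (∀ r ∈ D, r.length = w) → ∀ a : ℝ,
        ev2 (toI O D) 1 a = ev2 (toI 0 D) 1 a -
          O * ((p.headD 0 : ℝ) + (n.headD 0 : ℝ)) * ev1 (toZ 0 (repN 1 w)) a ∧
        ev2 (toI O D) (-1) a = ev2 (toI 0 D) (-1) a -
          O * ((p.headD 0 : ℝ) - (n.headD 0 : ℝ)) * ev1 (toZ 0 (repN 1 w)) a ∧
        ev2 (der2 (toI O D)) 1 a = ev2 (der2 (toI 0 D)) 1 a -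
          O * ((dp.headD 0 : ℝ) + (dn.headD 0 : ℝ)) * ev1 (toZ 0 (repN 1 w)) a ∧
        ev2 (der2 (toI O D)) (-1) a = ev2 (der2 (toI 0 D)) (-1) a -
          O * ((dp.headD 0 : ℝ) - (dn.headD 0 : ℝ)) * ev1 (toZ 0 (repN 1 w)) a := by
  obtain ⟨p, n, dp, dn, hk, h⟩ := ones_spec' (β := β) m
  exact ⟨p, n, dp, dn, hk k, h⟩

theorem ev1_repN (v w : ℕ) (a : ℝ) :
    ev1 (toZ 0 (repN v w)) a = v * ev1 (toZ 0 (repN 1 w)) a := by
  induction w with
  | zero => simp [toZ, repN]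
  | succ w ih =>
    have h : ∀ u, repN u (w + 1) = u :: repN u w := fun u => rfl
    rw [h, h, toZ_cons, toZ_cons, ev1_cons, ev1_cons, ih]
    push_cast
    ring

/-- one-variable bounds for integer polynomials on `[-1, 1]` (analogues of `ev2_dd1`, `ev2_dd2`; see `Poly.lean`) and for derivatives -/
theorem ev1_dd1 (l : List ℤ) {a b : ℝ} (ha : |a| ≤ 1) (hb : |b| ≤ 1) :
    |ev1 l b - ev1 l a| ≤ n1 l * |b - a| := by
  rw [dd1_spec l a b, abs_mul, mul_comm]
  exact mul_le_mul_of_nonneg_right (dd1_abs_le l ha hb) (abs_nonneg _)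

theorem ev1_quot (l : List ℤ) {a b : ℝ} (hab : a ≠ b) :
    (ev1 l b - ev1 l a) / (b - a) = dd1 l a b := by
  rw [dd1_spec l a b, mul_div_cancel_left₀ _ (sub_ne_zero.mpr hab.symm)]

theorem ev1_dd2 (l : List ℤ) {a b c : ℝ} (ha : |a| ≤ 1) (hb : |b| ≤ 1)
    (hc : |c| ≤ 1) (hab : a ≠ b) (hbc : b ≠ c) (hac : a ≠ c) :
    |((ev1 l c - ev1 l b) / (c - b) - (ev1 l b - ev1 l a) / (b - a)) / (c - a)| ≤ n2 l := by
  rw [ev1_quot l hbc, ev1_quot l hab, dd2_spec l a b c,
    mul_div_cancel_left₀ _ (sub_ne_zero.mpr hac.symm)]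
  exact dd2_abs_le l ha hb hc

theorem ev1_head (l : List ℤ) {a : ℝ} (ha : |a| ≤ 1) :
    |ev1 l a - (l.headD 0 : ℤ)| ≤ n0 l.tail := by
  cases l with
  | nil => simp [n0]
  | cons c l =>
    simp only [List.headD_cons, List.tail_cons, ev1_cons, add_sub_cancel_left, abs_mul]
    calc |a| * |ev1 l a| ≤ 1 * n0 l :=
          mul_le_mul ha (ev1_abs_le l ha) (abs_nonneg _) zero_le_one
      _ = n0 l := one_mul _

theorem dd1_head (l : List ℤ) {a b : ℝ} (ha : |a| ≤ 1) (hb : |b| ≤ 1) :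
    |dd1 l a b - (l.tail.headD 0 : ℤ)| ≤
      (n0 l.tail : ℝ) + n1 l.tail - |((l.tail.headD 0 : ℤ) : ℝ)| := by
  cases l with
  | nil => simp [n0, n1, dd1_nil]
  | cons c l =>
    cases l with
    | nil => simp [n0, n1, dd1_cons, dd1_nil]
    | cons d l =>
      rw [dd1_cons, ev1_cons]
      simp only [List.tail_cons, List.headD_cons]
      have h1 : |a * ev1 l a| ≤ n0 l := by
        rw [abs_mul]
        calc |a| * |ev1 l a| ≤ 1 * n0 l :=
              mul_le_mul ha (ev1_abs_le l ha) (abs_nonneg _) zero_le_one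
          _ = n0 l := one_mul _
      have h2 : |b * dd1 (d :: l) a b| ≤ n1 (d :: l) := by
        rw [abs_mul]
        calc |b| * |dd1 (d :: l) a b| ≤ 1 * n1 (d :: l) :=
              mul_le_mul hb (dd1_abs_le _ ha hb) (abs_nonneg _) zero_le_one
          _ = n1 (d :: l) := one_mul _
      have h3 : ((n0 (d :: l) : ℕ) : ℝ) = |(d : ℝ)| + n0 l := by
        simp [n0, Nat.cast_natAbs]
      have h4 : (d : ℝ) + a * ev1 l a + b * dd1 (d :: l) a b - (d : ℝ)
          = a * ev1 l a + b * dd1 (d :: l) a b := by ring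
      rw [h4, h3]
      have h5 := abs_add_le (a * ev1 l a) (b * dd1 (d :: l) a b)
      linarith

theorem ev1_head1 (l : List ℤ) {a b : ℝ} (ha : |a| ≤ 1) (hb : |b| ≤ 1) (hab : a ≠ b) :
    |(ev1 l b - ev1 l a) / (b - a) - (l.tail.headD 0 : ℤ)| ≤
      (n0 l.tail : ℝ) + n1 l.tail - |((l.tail.headD 0 : ℤ) : ℝ)| := by
  rw [ev1_quot l hab]
  exact dd1_head l ha hb

theorem ev1_hasDeriv (l : List ℤ) (a : ℝ) : HasDerivAt (fun x : ℝ => ev1 l x) (dd1 l a a) a := by
  induction l with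
  | nil => simpa [dd1_nil] using hasDerivAt_const a (0:ℝ)
  | cons c l ih =>
    have h1 : HasDerivAt (fun y : ℝ => (c : ℝ) + y * ev1 l y)
        (1 * ev1 l a + a * dd1 l a a) a :=
      ((hasDerivAt_id a).mul ih).const_add _
    rw [dd1_cons]
    rw [one_mul] at h1
    exact h1

theorem ev1_hasDerivAt (l : List ℤ) (a : ℝ) : ∃ d : ℝ, HasDerivAt (fun x : ℝ => ev1 l x) d a ∧
    (|a| ≤ 1 → |d| ≤ n1 l ∧
      |d - (l.tail.headD 0 : ℤ)| ≤ (n0 l.tail : ℝ) + n1 l.tail - |((l.tail.headD 0 : ℤ) : ℝ)|) :=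
  ⟨dd1 l a a, ev1_hasDeriv l a, fun ha => ⟨dd1_abs_le l ha ha, dd1_head l ha ha⟩⟩

end Pool.Agent.H228
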