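import Mathlib
import Pool.Agent.H228.Dig

/-! TASK S2: soundness of the residual check `resOK`. -/

set_option autoImplicit false

namespace Pool.Agent.H228

/-- the lists behind the bounding polynomial -/
def geoL (n : ℕ) : List ℤ := (List.range n).map (fun i => (2:ℤ) ^ (n - 1 - i))

/-- the bounding polynomial -/
def bndPoly (P : Par) (C : CellD) : List (List ℤ) :=
  add2 (tens ((List.replicate (P.dx - 1) ((2:ℤ) ^ C.e1))) (List.replicate (P.da + 1) 1))
    (add2 (tens ((List.replicate (P.dx - 1) (0:ℤ)) ++ (geoL (P.I + 1 - (P.dx - 1))).map ((2:ℤ) ^ C.e2 * ·))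
        (geoL (P.J + 1)))
      (tens ((geoL (P.I + 1)).map ((2:ℤ) ^ C.e3 * ·))
        ((List.replicate (P.da + 1) (0:ℤ)) ++ geoL (P.J + 1 - (P.da + 1)))))

theorem geoL_succ (n : ℕ) : geoL (n + 1) = (2:ℤ) ^ n :: geoL n := by
  unfold geoL
  rw [List.range_succ_eq_map, List.map_cons, List.map_map]
  refine congrArg₂ _ (by simp) ?_
  apply List.map_congr_left
  intro i hi
  simp only [Function.comp]
  congr 1
  omega

theorem geoL_length (n : ℕ) : (geoL n).length = n := by simp [geoL]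

theorem geoL_nonneg (n : ℕ) : ∀ c ∈ geoL n, 0 ≤ c := by
  intro c hc
  unfold geoL at hc
  rw [List.mem_map] at hc
  obtain ⟨i, _, rfl⟩ := hc
  positivity

theorem shape_tens {I J : ℕ} {p q : List ℤ} (hp : p.length ≤ I + 1) (hq : q.length ≤ J + 1) :
    Shape I J (tens p q) := by
  refine ⟨by simpa [tens] using hp, ?_⟩
  intro l hl
  unfold tens at hl
  rw [List.mem_map] at hl
  obtain ⟨c, _, rfl⟩ := hl
  simpa using hq

theorem pos_tens {p q : List ℤ} (hp : ∀ c ∈ p, 0 ≤ c) (hq : ∀ c ∈ q, 0 ≤ c) :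
    ∀ l ∈ tens p q, ∀ c ∈ l, 0 ≤ c := by
  intro l hl c hc
  unfold tens at hl
  rw [List.mem_map] at hl
  obtain ⟨d, hd, rfl⟩ := hl
  rw [List.mem_map] at hc
  obtain ⟨e, he, rfl⟩ := hc
  exact mul_nonneg (hp d hd) (hq e he)

theorem pos_add1 {p q : List ℤ} (hp : ∀ c ∈ p, 0 ≤ c) (hq : ∀ c ∈ q, 0 ≤ c) :
    ∀ c ∈ add1 p q, 0 ≤ c := by
  induction p generalizing q with
  | nil => simpa [add1] using hq
  | cons a p ih =>
    cases q with
    | nil => simpa [add1] using hp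
    | cons b q =>
      intro c hc
      simp only [add1, List.mem_cons] at hc
      rcases hc with rfl | hc
      · exact add_nonneg (hp a (by simp)) (hq b (by simp))
      · exact ih (fun c hc => hp c (by simp [hc])) (fun c hc => hq c (by simp [hc])) c hc

theorem pos_add2 {p q : List (List ℤ)} (hp : ∀ l ∈ p, ∀ c ∈ l, 0 ≤ c)
    (hq : ∀ l ∈ q, ∀ c ∈ l, 0 ≤ c) : ∀ l ∈ add2 p q, ∀ c ∈ l, 0 ≤ c := by
  induction p generalizing q with
  | nil => simpa [add2] using hq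
  | cons a p ih =>
    cases q with
    | nil => simpa [add2] using hp
    | cons b q =>
      intro c hc
      simp only [add2, List.mem_cons] at hc
      rcases hc with rfl | hc
      · exact pos_add1 (hp a (by simp)) (hq b (by simp))
      · exact ih (fun c hc => hp c (by simp [hc])) (fun c hc => hq c (by simp [hc])) c hc

theorem Par_J_ge (P : Par) : P.da ≤ P.J := by
  unfold Par.J; nlinarith [Nat.zero_le (P.c * P.da), Nat.zero_le P.da]

theorem Par_I_ge (P : Par) : P.dx ≤ P.I := by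
  unfold Par.I; nlinarith [Nat.zero_le (P.c * P.dx), Nat.zero_le P.dx]

theorem bndPoly_shape (P : Par) (C : CellD) (h : 2 ≤ P.dx) (hc : P.c ≤ 1) :
    Shape P.I P.J (bndPoly P C) := by
  have h1 := Par_J_ge P
  have h2 := Par_I_ge P
  unfold bndPoly
  refine shape_add2 (shape_tens ?_ ?_) (shape_add2 (shape_tens ?_ ?_) (shape_tens ?_ ?_))
  · simp; omega
  · simp; omega
  · simp [geoL_length]; omega
  · simp [geoL_length]
  · simp [geoL_length]
  · simp [geoL_length]; omega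

theorem pos_map {p : List ℤ} (e : ℕ) (hp : ∀ c ∈ p, 0 ≤ c) : ∀ c ∈ p.map ((2:ℤ) ^ e * ·), 0 ≤ c := by
  intro c hc
  rw [List.mem_map] at hc
  obtain ⟨d, hd, rfl⟩ := hc
  have := hp d hd
  positivity

theorem pos_append {p q : List ℤ} (hp : ∀ c ∈ p, 0 ≤ c) (hq : ∀ c ∈ q, 0 ≤ c) :
    ∀ c ∈ p ++ q, 0 ≤ c := by
  intro c hc
  rw [List.mem_append] at hc
  rcases hc with hc | hc
  · exact hp c hc
  · exact hq c hc

theorem pos_replicate (n : ℕ) {a : ℤ} (ha : 0 ≤ a) : ∀ c ∈ List.replicate n a, 0 ≤ c := by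
  intro c hc
  rw [List.eq_of_mem_replicate hc]; exact ha

theorem bndPoly_pos (P : Par) (C : CellD) : ∀ l ∈ bndPoly P C, ∀ c ∈ l, 0 ≤ c := by
  unfold bndPoly
  refine pos_add2 (pos_tens ?_ ?_) (pos_add2 (pos_tens ?_ ?_) (pos_tens ?_ ?_))
  · exact pos_replicate _ (by positivity)
  · exact pos_replicate _ (by positivity)
  · exact pos_append (pos_replicate _ le_rfl) (pos_map _ (geoL_nonneg _))
  · exact geoL_nonneg _
  · exact pos_map _ (geoL_nonneg _)
  · exact pos_append (pos_replicate _ le_rfl) (geoL_nonneg _)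

/-! norms of the building blocks -/

theorem n0_replicate (n : ℕ) (c : ℤ) : n0 (List.replicate n c) = n * c.natAbs := by
  induction n with
  | zero => simp [n0]
  | succ n ih => rw [List.replicate_succ, n0, ih]; ring

theorem n1_ones (n : ℕ) : n1 (List.replicate n (1:ℤ)) = n.choose 2 := by
  induction n with
  | zero => simp [n1]
  | succ n ih =>
    rw [List.replicate_succ, n1, ih, n0_replicate, Nat.choose_succ_succ' n 1]; simp

theorem n2_ones (n : ℕ) : n2 (List.replicate n (1:ℤ)) = n.choose 3 := by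
  induction n with
  | zero => simp [n2]
  | succ n ih =>
    rw [List.replicate_succ, n2, ih, n1_ones, Nat.choose_succ_succ' n 2]

theorem natAbs_two_pow (e : ℕ) : ((2:ℤ) ^ e).natAbs = 2 ^ e := by
  rw [Int.natAbs_pow]; rfl

theorem n0_geoL (n : ℕ) : n0 (geoL n) + 1 = 2 ^ n := by
  induction n with
  | zero => simp [geoL, n0]
  | succ n ih =>
    rw [geoL_succ, n0, natAbs_two_pow, pow_succ]; omega

theorem n1_geoL (n : ℕ) : n1 (geoL n) + 1 + n = 2 ^ n := by
  induction n with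
  | zero => simp [geoL, n1]
  | succ n ih =>
    have h := n0_geoL n
    rw [geoL_succ, n1, pow_succ]; omega

theorem n2_geoL (n : ℕ) : n2 (geoL n) + 1 + n + n.choose 2 = 2 ^ n := by
  induction n with
  | zero => simp [geoL, n2]
  | succ n ih =>
    have h := n1_geoL n
    rw [geoL_succ, n2, pow_succ, Nat.choose_succ_succ' n 1]; simp; omega

theorem n0_zeros (z : ℕ) (l : List ℤ) : n0 (List.replicate z (0:ℤ) ++ l) = n0 l := by
  induction z with
  | zero => simp
  | succ z ih => rw [List.replicate_succ, List.cons_append, n0, ih]; simp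

theorem n1_zeros (z : ℕ) (l : List ℤ) : n1 (List.replicate z (0:ℤ) ++ l) = n1 l + z * n0 l := by
  induction z with
  | zero => simp
  | succ z ih => rw [List.replicate_succ, List.cons_append, n1, ih, n0_zeros]; ring

theorem n2_zeros (z : ℕ) (l : List ℤ) :
    n2 (List.replicate z (0:ℤ) ++ l) = n2 l + z * n1 l + z.choose 2 * n0 l := by
  induction z with
  | zero => simp
  | succ z ih =>
    rw [List.replicate_succ, List.cons_append, n2, ih, n1_zeros, Nat.choose_succ_succ' z 1]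
    simp; ring

theorem geoN0_eq (n : ℕ) : geoN0 n = n0 (geoL n) := by
  have := n0_geoL n; unfold geoN0; omega

theorem geoN1_eq (n z : ℕ) : geoN1 n z = n1 (List.replicate z (0:ℤ) ++ geoL n) := by
  have h0 := n0_geoL n
  have h1 := n1_geoL n
  have e0 : 2 ^ n - 1 = n0 (geoL n) := by omega
  have e1 : 2 ^ n - 1 - n = n1 (geoL n) := by omega
  unfold geoN1
  rw [n1_zeros, e1, e0]

theorem geoN2_eq (n z : ℕ) : geoN2 n z = n2 (List.replicate z (0:ℤ) ++ geoL n) := by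
  have h0 := n0_geoL n
  have h1 := n1_geoL n
  have h2 := n2_geoL n
  have e0 : 2 ^ n - 1 = n0 (geoL n) := by omega
  have e1 : 2 ^ n - 1 - n = n1 (geoL n) := by omega
  have e2 : 2 ^ n - 1 - n - n * (n - 1) / 2 = n2 (geoL n) := by
    rw [← Nat.choose_two_right]; omega
  unfold geoN2
  rw [n2_zeros, e2, e1, e0, Nat.choose_two_right]

theorem n1_ones' (d : ℕ) : n1 (List.replicate (d + 1) (1:ℤ)) = d * (d + 1) / 2 := by
  rw [n1_ones, Nat.choose_two_right]; congr 1; simp; ring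

theorem n2_ones' (d : ℕ) : n2 (List.replicate (d + 1) (1:ℤ)) = (d + 1) * d * (d - 1) / 6 := by
  rw [n2_ones, Nat.choose_eq_descFactorial_div_factorial]
  have : (d + 1).descFactorial 3 = (d + 1) * d * (d - 1) := by
    rw [Nat.descFactorial_succ, Nat.descFactorial_succ, Nat.descFactorial_succ, Nat.descFactorial_zero]
    have e1 : d + 1 - 0 = d + 1 := rfl
    have e2 : d + 1 - 1 = d := by omega
    have e3 : d + 1 - 2 = d - 1 := by omega
    rw [e1, e2, e3]; ring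
  rw [this]; rfl

theorem n1_geoL_eq (n : ℕ) : n1 (geoL n) = geoN1 n 0 := by
  rw [geoN1_eq]; rfl

theorem n2_geoL_eq (n : ℕ) : n2 (geoL n) = geoN2 n 0 := by
  rw [geoN2_eq]; rfl

theorem bndPoly_norms (P : Par) (C : CellD) (h : 2 ≤ P.dx) {β : Type} (k : ℕ → ℕ → ℕ → β) :
    ∃ b0 b1 b2 : ℕ, nbAll P C k = k b0 b1 b2 ∧ N0 (bndPoly P C) ≤ b0 ∧ N1 (bndPoly P C) ≤ b1 ∧
      N2 (bndPoly P C) ≤ b2 := by
  refine ⟨_, _, _, rfl, ?_, ?_, ?_⟩
  · unfold bndPoly
    refine (N0_add2 _ _).trans ?_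
    refine (Nat.add_le_add_left (N0_add2 _ _) _).trans ?_
    rw [N0_tens, N0_tens, N0_tens, n0_replicate, n0_replicate, n0_zeros, n0_smul, n0_smul, n0_zeros,
      natAbs_two_pow, natAbs_two_pow, natAbs_two_pow, ← geoN0_eq, ← geoN0_eq, ← geoN0_eq, ← geoN0_eq]
    apply le_of_eq
    simp
    ring
  · unfold bndPoly
    refine (N1_add2 _ _).trans ?_
    refine (Nat.add_le_add_left (N1_add2 _ _) _).trans ?_
    rw [N1_tens, N1_tens, N1_tens, n0_replicate, n0_zeros, n0_smul, n0_smul, ← geoN1_eq,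
      natAbs_two_pow, natAbs_two_pow, natAbs_two_pow, ← geoN0_eq, ← geoN0_eq, n1_geoL_eq, n1_ones']
    apply le_of_eq
    ring
  · unfold bndPoly
    refine (N2_add2 _ _).trans ?_
    refine (Nat.add_le_add_left (N2_add2 _ _) _).trans ?_
    rw [N2_tens, N2_tens, N2_tens, n0_replicate, n0_zeros, n0_smul, n0_smul, ← geoN2_eq,
      natAbs_two_pow, natAbs_two_pow, natAbs_two_pow, ← geoN0_eq, ← geoN0_eq, n2_geoL_eq, n2_ones']
    apply le_of_eq
    ring

/-! evaluation of the building blocks -/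

theorem ev1_ones_int (n : ℕ) (x c : ℤ) :
    ev1 (List.replicate n c) x = c * ∑ i ∈ Finset.range n, x ^ i := by
  induction n with
  | zero => simp
  | succ n ih =>
    rw [List.replicate_succ, ev1_cons, ih, Finset.sum_range_succ', Finset.mul_sum, Finset.mul_sum, mul_add,
      Finset.mul_sum]
    simp only [Int.cast_id, pow_zero, mul_one, pow_succ]
    rw [add_comm]
    congr 1
    refine Finset.sum_congr rfl fun i _ => by ring

theorem ev1_geoL_int (n : ℕ) (x : ℤ) :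
    ev1 (geoL n) x = ∑ i ∈ Finset.range n, (2:ℤ) ^ (n - 1 - i) * x ^ i := by
  induction n with
  | zero => simp [geoL]
  | succ n ih =>
    rw [geoL_succ, ev1_cons, ih, Finset.sum_range_succ', Finset.mul_sum]
    simp only [Int.cast_id, pow_zero, mul_one, Nat.add_sub_cancel, Nat.sub_zero]
    rw [add_comm]
    congr 1
    refine Finset.sum_congr rfl fun i _ => ?_
    rw [show n - (i + 1) = n - 1 - i by omega, pow_succ]; ring

theorem gsum1_eq (Y n : ℕ) (hY : 4 ≤ Y) : (gsum1 Y n : ℤ) = ev1 (List.replicate n (1:ℤ)) (Y : ℤ) := by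
  rw [ev1_ones_int, one_mul]
  have : gsum1 Y n = ∑ i ∈ Finset.range n, Y ^ i := by
    rw [Nat.geomSum_eq (by omega)]; rfl
  rw [this]; push_cast; rfl

theorem gsum2_eq (Y n : ℕ) (hY : 4 ≤ Y) : (gsum2 Y n : ℤ) = ev1 (geoL n) (Y : ℤ) := by
  rw [ev1_geoL_int]
  have key : (∑ i ∈ Finset.range n, 2 ^ (n - 1 - i) * Y ^ i) * (Y - 2) = Y ^ n - 2 ^ n := by
    induction n with
    | zero => simp
    | succ n ih =>
      have h1 : ∑ i ∈ Finset.range (n + 1), 2 ^ (n + 1 - 1 - i) * Y ^ i =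
          2 * ∑ i ∈ Finset.range n, 2 ^ (n - 1 - i) * Y ^ i + Y ^ n := by
        rw [Finset.sum_range_succ, Finset.mul_sum]
        congr 1
        · refine Finset.sum_congr rfl fun i hi => ?_
          rw [Finset.mem_range] at hi
          rw [show n + 1 - 1 - i = (n - 1 - i) + 1 by omega, pow_succ]; ring
        · simp
      rw [h1, add_mul, mul_assoc, ih]
      have h2 : 2 ^ n ≤ Y ^ n := Nat.pow_le_pow_left (by omega) n
      have h3 : 2 ^ (n + 1) ≤ Y ^ (n + 1) := Nat.pow_le_pow_left (by omega) _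
      zify [h2, h3, (by omega : 2 ≤ Y)]
      ring
  have : gsum2 Y n = ∑ i ∈ Finset.range n, 2 ^ (n - 1 - i) * Y ^ i := by
    change (Y ^ n - 2 ^ n) / (Y - 2) = _
    rw [← key]
    exact Nat.mul_div_cancel _ (by omega)
  rw [this]; push_cast; rfl

theorem ev1_zeros_int (z : ℕ) (l : List ℤ) (x : ℤ) :
    ev1 (List.replicate z (0:ℤ) ++ l) x = x ^ z * ev1 l x := by
  induction z with
  | zero => simp
  | succ z ih =>
    rw [List.replicate_succ, List.cons_append, ev1_cons, ih, pow_succ]; simp; ring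

/-- `4 ≤ X` and `4 ≤ Y` (here powers of two) -/
theorem offv_eq (P : Par) (C : CellD) (X Y : ℕ) (hX : 4 ≤ X) (hY : 4 ≤ Y) :
    (offv P C Y X : ℤ) = ev2 (bndPoly P C) (Y : ℤ) (X : ℤ) := by
  unfold bndPoly
  rw [ev2_add2, ev2_add2, ev2_tens, ev2_tens, ev2_tens, ev1_smul, ev1_zeros_int, ev1_zeros_int,
    ev1_smul, ← gsum1_eq X _ hX, ← gsum2_eq X _ hX, ← gsum2_eq X _ hX, ← gsum2_eq Y _ hY, ← gsum2_eq Y _ hY]
  have h1 : ev1 (List.replicate (P.dx - 1) ((2:ℤ) ^ C.e1)) (Y : ℤ) = 2 ^ C.e1 * gsum1 Y (P.dx - 1) := by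
    rw [gsum1_eq Y _ hY, ev1_ones_int, ev1_ones_int, one_mul]
  rw [h1]
  change ((2 ^ C.e1 * (gsum1 Y (P.dx - 1) * gsum1 X (P.da + 1)) +
    2 ^ C.e2 * ((Y ^ (P.dx - 1) * gsum2 Y (P.I + 1 - (P.dx - 1))) * gsum2 X (P.J + 1)) +
    2 ^ C.e3 * (gsum2 Y (P.I + 1) * (X ^ (P.da + 1) * gsum2 X (P.J + 1 - (P.da + 1)))) : ℕ) : ℤ) = _
  push_cast
  ring

/-! the residual -/

theorem res_ev2_der2_cons {R : Type} [CommRing R] (l : List ℤ) (L : List (List ℤ)) (x a : R) :
    ev2 (der2 (l :: L)) x a = ev2 L x a + x * ev2 (der2 L) x a := by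
  simp [der2, ev2_add2]

theorem res_ev2_der2_add2 {R : Type} [CommRing R] (p q : List (List ℤ)) (x a : R) :
    ev2 (der2 (add2 p q)) x a = ev2 (der2 p) x a + ev2 (der2 q) x a := by
  induction p generalizing q with
  | nil => simp [add2, der2]
  | cons c p ih =>
    cases q with
    | nil => simp [add2, der2]
    | cons d q =>
      rw [show add2 (c :: p) (d :: q) = add1 c d :: add2 p q from rfl, res_ev2_der2_cons, res_ev2_der2_cons,
        res_ev2_der2_cons, ev2_add2, ih]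
      ring

theorem res_ev2_der2_der2_cons {R : Type} [CommRing R] (l : List ℤ) (L : List (List ℤ)) (x a : R) :
    ev2 (der2 (der2 (l :: L))) x a = 2 * ev2 (der2 L) x a + x * ev2 (der2 (der2 L)) x a := by
  rw [show der2 (l :: L) = add2 L ([] :: der2 L) from rfl, res_ev2_der2_add2, res_ev2_der2_cons]
  ring

theorem res_toI_cons (O : ℕ) (r : List ℕ) (D : List (List ℕ)) :
    toI O (r :: D) = toZ O r :: toI O D := rfl

theorem ev1_toZ {R : Type} [CommRing R] (O : ℕ) (r : List ℕ) (a : R) :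
    ev1 (toZ O r) a = ev1 (toZ 0 r) a - ev1 (toZ 0 (List.replicate r.length O)) a := by
  induction r with
  | nil => simp [toZ]
  | cons n r ih =>
    have h1 : toZ O (n :: r) = ((n : ℤ) - (O : ℤ)) :: toZ O r := rfl
    have h2 : toZ 0 (n :: r) = ((n : ℤ) - ((0:ℕ) : ℤ)) :: toZ 0 r := rfl
    have h3 : toZ 0 (List.replicate (n :: r).length O) =
      ((O : ℤ) - ((0:ℕ) : ℤ)) :: toZ 0 (List.replicate r.length O) := rfl
    rw [h1, h2, h3, ev1_cons, ev1_cons, ev1_cons, ih]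
    push_cast
    ring

theorem toI_split {R : Type} [CommRing R] (O w : ℕ) (D : List (List ℕ)) (hw : ∀ r ∈ D, r.length = w)
    (x a : R) :
    ev2 (toI O D) x a = ev2 (toI 0 D) x a -
      ev2 (toI 0 (List.replicate D.length (List.replicate w O))) x a ∧
    ev2 (der2 (toI O D)) x a = ev2 (der2 (toI 0 D)) x a -
      ev2 (der2 (toI 0 (List.replicate D.length (List.replicate w O)))) x a ∧
    ev2 (der2 (der2 (toI O D))) x a = ev2 (der2 (der2 (toI 0 D))) x a -
      ev2 (der2 (der2 (toI 0 (List.replicate D.length (List.replicate w O))))) x a := by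
  induction D with
  | nil => simp [toI, der2]
  | cons r D ih =>
    obtain ⟨i1, i2, i3⟩ := ih (fun r hr => hw r (by simp [hr]))
    have hr := hw r (by simp)
    have h3 : toI 0 (List.replicate (r :: D).length (List.replicate w O)) =
      toZ 0 (List.replicate w O) :: toI 0 (List.replicate D.length (List.replicate w O)) := rfl
    rw [h3, res_toI_cons, res_toI_cons]
    simp only [ev2_cons, res_ev2_der2_cons, res_ev2_der2_der2_cons]
    rw [i1, i2, i3, ev1_toZ, hr]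
    refine ⟨by ring, by ring, by ring⟩

theorem hor_replicate (X n O : ℕ) (hX : 4 ≤ X) :
    hor X (List.replicate n O) = Nat.mul O (gsum1 X n) := by
  have h : ((hor X (List.replicate n O) : ℕ) : ℤ) = ((Nat.mul O (gsum1 X n) : ℕ) : ℤ) := by
    rw [hor_spec]
    change _ = ((O * gsum1 X n : ℕ) : ℤ)
    push_cast
    rw [gsum1_eq X n hX, ev1_ones_int, one_mul]
    have : toZ 0 (List.replicate n O) = List.replicate n (O : ℤ) := by
      unfold toZ; rw [List.map_replicate]; simp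
    rw [this, ev1_ones_int]
  exact_mod_cast h

/-- the residual polynomial as a list -/
noncomputable def resL (P : Par) (C : CellD) : List (List ℤ) :=
  add2 (mul2 [[((2 ^ (2 * C.g) * 2 ^ ((3 + 3 * P.c) * P.s) : ℕ) : ℤ)]]
      (add2 (mul2 [[(C.M : ℤ)], [(C.H : ℤ)]] (der2 (der2 (C.poly P))))
        (mul2 [[((2 * C.H : ℕ) : ℤ)]] (der2 (C.poly P)))))
    (mul2 [[((C.H ^ 2 : ℕ) : ℤ)]]
      (mul2 [[(C.M : ℤ)], [(C.H : ℤ)]]
        (add2 (mul2 [[((2 ^ (3 * P.c * P.s) : ℕ) : ℤ)]]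
            (mul2 (mul2 (C.poly P) (C.poly P)) (mul2 (C.poly P) (C.poly P))))
          (if P.c = 0 then [] else
            mul2 (mul2 (mul2 (C.poly P) (C.poly P)) (mul2 (C.poly P) (C.poly P)))
              (mul2 (mul2 (C.poly P) (C.poly P)) (C.poly P))))))

theorem ev2_resL {R : Type} [CommRing R] {P : Par} (hc : P.c ≤ 1) (C : CellD) (x a : R) :
    ev2 (resL P C) x a = (2 ^ (2 * C.g) * 2 ^ ((3 + 3 * P.c) * P.s)) *
      (((C.M : R) + C.H * x) * ev2 (der2 (der2 (C.poly P))) x a +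
        2 * C.H * ev2 (der2 (C.poly P)) x a) +
    C.H ^ 2 * ((C.M + C.H * x) *
      (2 ^ (3 * P.c * P.s) * ev2 (C.poly P) x a ^ 4 + P.c * ev2 (C.poly P) x a ^ 7)) := by
  have hsingle : ∀ n : ℕ, ev2 [[(n : ℤ)]] x a = (n : R) := by intro n; simp
  have hpair : ev2 [[(C.M : ℤ)], [(C.H : ℤ)]] x a = (C.M : R) + C.H * x := by
    simp; ring
  unfold resL
  rw [ev2_add2, ev2_mul2, ev2_add2, ev2_mul2, ev2_mul2, ev2_mul2, ev2_mul2, ev2_add2, ev2_mul2, ev2_mul2,
    ev2_mul2, hsingle, hsingle, hsingle, hsingle, hpair]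
  rcases Nat.eq_zero_or_pos P.c with h0 | h1
  · rw [if_pos h0, ev2_nil, h0]
    push_cast
    ring
  · have h1' : P.c = 1 := by omega
    rw [if_neg (by omega), ev2_mul2, ev2_mul2, ev2_mul2, ev2_mul2, ev2_mul2, h1']
    push_cast
    ring

theorem shape_single (c : ℤ) : Shape 0 0 [[c]] := by
  refine ⟨by simp, by simp⟩

theorem shape_pair (c d : ℤ) : Shape 1 0 [[c], [d]] := by
  refine ⟨by simp, ?_⟩
  intro l hl
  simp at hl
  rcases hl with rfl | rfl <;> simp

theorem resL_shape {P : Par} (hc : P.c ≤ 1) (h2 : 2 ≤ P.dx) (C : CellD) :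
    Shape P.I P.J (resL P C) := by
  have hp := poly_shape P C
  have hp1 := shape_der2 hp
  have hp2 := shape_der2 hp1
  have hpp := shape_mul2 hp hp
  have hp4 := shape_mul2 hpp hpp
  have hp7 := shape_mul2 hp4 (shape_mul2 hpp hp)
  have hJ := Par_J_ge P
  have hI : 4 * P.dx + 1 ≤ P.I := by
    unfold Par.I; nlinarith [Nat.zero_le (P.c * P.dx)]
  have hJ4 : 4 * P.da ≤ P.J := by
    unfold Par.J; nlinarith [Nat.zero_le (P.c * P.da)]
  unfold resL
  refine shape_add2 ?_ ?_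
  · refine shape_mono (shape_mul2 (shape_single _) (shape_add2 (I := P.dx + 1) (J := P.da)
      (shape_mono (shape_mul2 (shape_pair _ _) hp2) ?_ ?_)
      (shape_mono (shape_mul2 (shape_single _) hp1) ?_ ?_))) ?_ ?_
    all_goals omega
  · refine shape_mono (shape_mul2 (shape_single _) (shape_mul2 (shape_pair _ _)
      (shape_add2 (I := P.I - 1) (J := P.J)
      (shape_mono (shape_mul2 (shape_single _) hp4) ?_ ?_) ?_))) ?_ ?_
    · omega
    · omega
    · rcases Nat.eq_zero_or_pos P.c with h0 | h1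
      · rw [if_pos h0]
        exact ⟨by simp, by simp⟩
      · have h1' : P.c = 1 := by omega
        rw [if_neg (by omega)]
        refine shape_mono hp7 ?_ ?_
        · unfold Par.I; rw [h1']; omega
        · unfold Par.J; rw [h1']; omega
    · omega
    · omega

theorem N0_single (n : ℕ) : N0 [[(n : ℤ)]] = n := by simp [N0, n0]

theorem N0_pair (n m : ℕ) : N0 [[(n : ℤ)], [(m : ℤ)]] = n + m := by simp [N0, n0]

theorem N0_mul2_le {p q : List (List ℤ)} {a b : ℕ} (hp : N0 p ≤ a) (hq : N0 q ≤ b) :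
    N0 (mul2 p q) ≤ a * b := (N0_mul2 p q).trans (Nat.mul_le_mul hp hq)

theorem N0_add2_le' {p q : List (List ℤ)} {a b : ℕ} (hp : N0 p ≤ a) (hq : N0 q ≤ b) :
    N0 (add2 p q) ≤ a + b := (N0_add2 p q).trans (Nat.add_le_add hp hq)

theorem resL_N0 {P : Par} (hc : P.c ≤ 1) (C : CellD) :
    N0 (resL P C) ≤ (2 ^ (2 * C.g) * 2 ^ ((3 + 3 * P.c) * P.s)) *
      ((C.M + C.H) * M2 (C.poly P) + (2 * C.H) * M1 (C.poly P)) +
      (C.H ^ 2 * (C.M + C.H)) *
        (2 ^ (3 * P.c * P.s) * N0 (C.poly P) ^ 4 + P.c * N0 (C.poly P) ^ 7) := by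
  have hpp := N0_mul2_le (le_refl (N0 (C.poly P))) (le_refl (N0 (C.poly P)))
  have hp4 := N0_mul2_le hpp hpp
  have hp7 := N0_mul2_le hp4 (N0_mul2_le hpp (le_refl (N0 (C.poly P))))
  unfold resL
  rw [mul_assoc (C.H ^ 2)]
  refine N0_add2_le' (N0_mul2_le (N0_single _).le (N0_add2_le' (N0_mul2_le (N0_pair _ _).le
    (N0_der2_der2 _)) (N0_mul2_le (N0_single _).le (N0_der2 _)))) (N0_mul2_le (N0_single _).le
      (N0_mul2_le (N0_pair _ _).le (N0_add2_le' (N0_mul2_le (N0_single _).le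
        (hp4.trans (le_of_eq (by ring)))) ?_)))
  rcases Nat.eq_zero_or_pos P.c with h0 | h1
  · rw [if_pos h0]; simp [N0]
  · have h1' : P.c = 1 := by omega
    rw [if_neg (by omega), h1']
    refine hp7.trans (le_of_eq (by ring))

theorem mask_kron {k I J : ℕ} (hk : 2 ≤ k) {L B : List (List ℤ)} (hL : Shape I J L)
    (hB : Shape I J B) (hBpos : ∀ l ∈ B, ∀ c ∈ l, 0 ≤ c)
    (hL0 : N0 L < 2 ^ (k - 2)) (hB0 : N0 B < 2 ^ (k - 2)) {off A B' top : ℕ}
    (hoff : (off : ℤ) = ev2 B ((2:ℤ) ^ (k * (J + 1))) (2 ^ k))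
    (hAB : (A : ℤ) - B' = ev2 L ((2:ℤ) ^ (k * (J + 1))) (2 ^ k))
    (htop : top = topMask k ((I + 1) * (J + 1)))
    (h : maskOK off A B' top = true) : N0 L ≤ N0 B ∧ N1 L ≤ N1 B ∧ N2 L ≤ N2 B := by
  unfold maskOK at h
  simp only [Bool.and_eq_true] at h
  obtain ⟨⟨⟨h1, h2⟩, h3⟩, h4⟩ := h
  have h1' : B' ≤ off + A := Nat.le_of_ble_eq_true h1
  have h2' : A ≤ off + B' := Nat.le_of_ble_eq_true h2
  have h3' : (off + A - B') &&& top = 0 := Nat.eq_of_beq_eq_true h3
  have h4' : (off + B' - A) &&& top = 0 := Nat.eq_of_beq_eq_true h4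
  have e1 : ev2 B ((2:ℤ) ^ (k * (J + 1))) (2 ^ k) + ev2 L ((2:ℤ) ^ (k * (J + 1))) (2 ^ k) =
      ((off + A - B' : ℕ) : ℤ) := by
    rw [← hoff, ← hAB]; omega
  have e2 : ev2 B ((2:ℤ) ^ (k * (J + 1))) (2 ^ k) - ev2 L ((2:ℤ) ^ (k * (J + 1))) (2 ^ k) =
      ((off + B' - A : ℕ) : ℤ) := by
    rw [← hoff, ← hAB]; omega
  refine kron k I J hk L B hL hB hBpos hL0 hB0 ?_ ?_ ?_ ?_
  · rw [e1]; positivity
  · rw [e2]; positivity
  · rw [e1, Int.toNat_natCast, ← htop]; exact h3'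
  · rw [e2, Int.toNat_natCast, ← htop]; exact h4'

theorem resOK_sound {P : Par} {C : CellD} (hc : P.c ≤ 1) (hb : 0 < P.b)
    (h : resOK P C (N0 (C.poly P)) (M1 (C.poly P)) (M2 (C.poly P)) = true) :
    ∃ R : List (List ℤ), (∀ x a : ℝ, ev2 R x a = resPoly P C x a) ∧
      nbAll P C (fun b0 b1 b2 => N0 R ≤ b0 ∧ N1 R ≤ b1 ∧ N2 R ≤ b2) := by
  refine ⟨resL P C, ?_, ?_⟩
  · intro x a
    rw [ev2_resL hc]
    unfold resPoly
    rw [← pow_mul, ← pow_mul, ← pow_mul, mul_comm P.s (3 + 3 * P.c), mul_comm P.s (3 * P.c), mul_comm C.g 2]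
    ring
  · unfold resOK at h
    simp only [Bool.and_eq_true] at h
    obtain ⟨⟨⟨⟨hk, hdx⟩, hap⟩, hnb⟩, hmain⟩ := h
    have hk' : 2 ≤ C.k := Nat.le_of_ble_eq_true hk
    have hdx' : 2 ≤ P.dx := Nat.le_of_ble_eq_true hdx
    have hL0 : N0 (resL P C) < 2 ^ (C.k - 2) := by
      refine lt_of_le_of_lt (resL_N0 hc C) ?_
      exact Nat.le_of_ble_eq_true hap
    have hB0 : N0 (bndPoly P C) < 2 ^ (C.k - 2) := by
      obtain ⟨b0, b1, b2, e, h0, -, -⟩ := bndPoly_norms P C hdx'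
        (fun b0 _ _ => Nat.blt b0 (Nat.pow 2 (C.k - 2)))
      rw [e] at hnb
      exact lt_of_le_of_lt h0 (Nat.le_of_ble_eq_true hnb)
    have hX4 : 4 ≤ 2 ^ C.k := by
      calc 4 = 2 ^ 2 := rfl
        _ ≤ 2 ^ C.k := Nat.pow_le_pow_right (by norm_num) hk'
    have hY4 : 4 ≤ 2 ^ (C.k * (P.J + 1)) := by
      calc 4 = 2 ^ 2 := rfl
        _ ≤ 2 ^ (C.k * (P.J + 1)) := Nat.pow_le_pow_right (by norm_num) (by nlinarith)
    set w := C.k * (P.J + 1) with hw
    have hrep : repN (Nat.mul P.O (gsum1 (Nat.pow 2 C.k) (P.da + 1))) (P.dx + 1) =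
        (List.replicate (P.dx + 1) (List.replicate (P.da + 1) P.O)).map (hor (Nat.pow 2 C.k)) := by
      rw [repN_eq, List.map_replicate]
      congr 1
      exact (hor_replicate _ _ _ hX4).symm
    have hsplit := toI_split P.O (P.da + 1) (C.rows P) (rows_row_length P C) ((2:ℤ) ^ w) ((2:ℤ) ^ C.k)
    rw [rows_length] at hsplit
    obtain ⟨s0, s1, s2⟩ := hsplit
    change ev2 (C.poly P) _ _ = _ at s0
    change ev2 (der2 (C.poly P)) _ _ = _ at s1
    change ev2 (der2 (der2 (C.poly P))) _ _ = _ at s2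
    have hcast : (((Nat.pow 2 C.k : ℕ)) : ℤ) = (2:ℤ) ^ C.k := by
      change ((2 ^ C.k : ℕ) : ℤ) = _
      push_cast; rfl
    have hcastY : (((2 ^ w : ℕ)) : ℤ) = (2:ℤ) ^ w := by
      push_cast; rfl
    have hoff := offv_eq P C (2 ^ C.k) (2 ^ w) hX4 hY4
    have hoff' : (offv P C (Nat.pow 2 w) (Nat.pow 2 C.k) : ℤ) =
      ev2 (bndPoly P C) ((2:ℤ) ^ w) ((2:ℤ) ^ C.k) := by
      rw [show Nat.pow 2 w = 2 ^ w from rfl, show Nat.pow 2 C.k = 2 ^ C.k from rfl, hoff]
      push_cast; rfl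
    have hR := ev2_resL (R := ℤ) hc C ((2:ℤ) ^ w) ((2:ℤ) ^ C.k)
    have htop : (Nat.mul (Nat.pow 2 (C.k - 1))
        (Nat.div (Nat.sub (Nat.pow 2 (C.k * ((P.I + 1) * (P.J + 1)))) 1) (Nat.sub (Nat.pow 2 C.k) 1))) =
        topMask C.k ((P.I + 1) * (P.J + 1)) := (topMask_eq C.k _ (by omega)).symm
    rw [hrep] at hmain
    obtain ⟨E, E1, E2, e1, e2, e3, e4⟩ := go3_spec w (Nat.pow 2 C.k) (C.rows P)
      (fun E E1 E2 => go3 w ((List.replicate (P.dx + 1) (List.replicate (P.da + 1) P.O)).map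
        (hor (Nat.pow 2 C.k))) (fun F F1 F2 =>
      let d := Nat.add (Nat.sub E F) (Nat.sub F E)
      let d2 := Nat.mul d d
      let d4 := Nat.mul d2 d2
      let d7 := Nat.mul P.c (Nat.mul d4 (Nat.mul d2 d))
      let hm := Nat.mul (C.H ^ 2) (Nat.add C.M (Nat.mul C.H (Nat.pow 2 w)))
      let lp := Nat.mul (Nat.mul (Nat.pow 2 (2 * C.g)) (Nat.pow 2 ((3 + 3 * P.c) * P.s)))
        (Nat.add (Nat.mul (Nat.add C.M (Nat.mul C.H (Nat.pow 2 w))) E2) (Nat.mul (2 * C.H) E1))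
      let ln := Nat.mul (Nat.mul (Nat.pow 2 (2 * C.g)) (Nat.pow 2 ((3 + 3 * P.c) * P.s)))
        (Nat.add (Nat.mul (Nat.add C.M (Nat.mul C.H (Nat.pow 2 w))) F2) (Nat.mul (2 * C.H) F1))
      let q4 := Nat.mul hm (Nat.mul (Nat.pow 2 (3 * P.c * P.s)) d4)
      let q7 := Nat.mul hm d7
      let off := offv P C (Nat.pow 2 w) (Nat.pow 2 C.k)
      if Nat.ble F E then
        maskOK off (Nat.add lp (Nat.add q4 q7)) ln
          (Nat.mul (Nat.pow 2 (C.k - 1))
        (Nat.div (Nat.sub (Nat.pow 2 (C.k * ((P.I + 1) * (P.J + 1)))) 1) (Nat.sub (Nat.pow 2 C.k) 1)))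
      else
        maskOK off (Nat.add lp q4) (Nat.add ln q7) (Nat.mul (Nat.pow 2 (C.k - 1))
        (Nat.div (Nat.sub (Nat.pow 2 (C.k * ((P.I + 1) * (P.J + 1)))) 1) (Nat.sub (Nat.pow 2 C.k) 1)))))
    rw [e1] at hmain
    obtain ⟨F, F1, F2, f1, f2, f3, f4⟩ := go3_spec w (Nat.pow 2 C.k)
      (List.replicate (P.dx + 1) (List.replicate (P.da + 1) P.O)) (fun F F1 F2 =>
      let d := Nat.add (Nat.sub E F) (Nat.sub F E)
      let d2 := Nat.mul d d
      let d4 := Nat.mul d2 d2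
      let d7 := Nat.mul P.c (Nat.mul d4 (Nat.mul d2 d))
      let hm := Nat.mul (C.H ^ 2) (Nat.add C.M (Nat.mul C.H (Nat.pow 2 w)))
      let lp := Nat.mul (Nat.mul (Nat.pow 2 (2 * C.g)) (Nat.pow 2 ((3 + 3 * P.c) * P.s)))
        (Nat.add (Nat.mul (Nat.add C.M (Nat.mul C.H (Nat.pow 2 w))) E2) (Nat.mul (2 * C.H) E1))
      let ln := Nat.mul (Nat.mul (Nat.pow 2 (2 * C.g)) (Nat.pow 2 ((3 + 3 * P.c) * P.s)))
        (Nat.add (Nat.mul (Nat.add C.M (Nat.mul C.H (Nat.pow 2 w))) F2) (Nat.mul (2 * C.H) F1))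
      let q4 := Nat.mul hm (Nat.mul (Nat.pow 2 (3 * P.c * P.s)) d4)
      let q7 := Nat.mul hm d7
      let off := offv P C (Nat.pow 2 w) (Nat.pow 2 C.k)
      if Nat.ble F E then
        maskOK off (Nat.add lp (Nat.add q4 q7)) ln
          (Nat.mul (Nat.pow 2 (C.k - 1))
        (Nat.div (Nat.sub (Nat.pow 2 (C.k * ((P.I + 1) * (P.J + 1)))) 1) (Nat.sub (Nat.pow 2 C.k) 1)))
      else
        maskOK off (Nat.add lp q4) (Nat.add ln q7) (Nat.mul (Nat.pow 2 (C.k - 1))
        (Nat.div (Nat.sub (Nat.pow 2 (C.k * ((P.I + 1) * (P.J + 1)))) 1) (Nat.sub (Nat.pow 2 C.k) 1))))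
    rw [f1] at hmain
    rw [hcast] at e2 e3 e4 f2 f3 f4
    rw [← e2, ← f2] at s0
    rw [← e3, ← f3] at s1
    rw [← e4, ← f4] at s2
    rw [s0, s1, s2] at hR
    have fin : N0 (resL P C) ≤ N0 (bndPoly P C) ∧ N1 (resL P C) ≤ N1 (bndPoly P C) ∧
        N2 (resL P C) ≤ N2 (bndPoly P C) := by
      rcases le_or_gt F E with hFE | hFE
      · rw [if_pos (Nat.ble_eq_true_of_le hFE)] at hmain
        refine mask_kron (I := P.I) (J := P.J) hk' (resL_shape hc hdx' C) (bndPoly_shape P C hdx' hc)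
          (bndPoly_pos P C) hL0 hB0 hoff' ?_ htop hmain
        rw [← hw, hR]
        have hd : Nat.add (Nat.sub E F) (Nat.sub F E) = E - F := by
          change (E - F) + (F - E) = E - F
          omega
        rw [hd]
        change (((2 ^ (2 * C.g) * 2 ^ ((3 + 3 * P.c) * P.s)) *
          ((C.M + C.H * 2 ^ w) * E2 + (2 * C.H) * E1) +
            ((C.H ^ 2 * (C.M + C.H * 2 ^ w)) * (2 ^ (3 * P.c * P.s) *
              (((E - F) * (E - F)) * ((E - F) * (E - F)))) +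
            (C.H ^ 2 * (C.M + C.H * 2 ^ w)) * (P.c * (((((E - F) * (E - F)) * ((E - F) * (E - F))) *
              (((E - F) * (E - F)) * (E - F)))))) : ℕ) : ℤ) -
          (((2 ^ (2 * C.g) * 2 ^ ((3 + 3 * P.c) * P.s)) *
          ((C.M + C.H * 2 ^ w) * F2 + (2 * C.H) * F1) : ℕ) : ℤ) = _
        push_cast [Nat.cast_sub hFE]
        ring
      · have hnot : ¬ (Nat.ble F E = true) := fun h => absurd (Nat.le_of_ble_eq_true h) (by omega)
        rw [if_neg hnot] at hmain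
        refine mask_kron (I := P.I) (J := P.J) hk' (resL_shape hc hdx' C) (bndPoly_shape P C hdx' hc)
          (bndPoly_pos P C) hL0 hB0 hoff' ?_ htop hmain
        rw [← hw, hR]
        have hd : Nat.add (Nat.sub E F) (Nat.sub F E) = F - E := by
          change (E - F) + (F - E) = F - E
          omega
        rw [hd]
        change (((2 ^ (2 * C.g) * 2 ^ ((3 + 3 * P.c) * P.s)) *
          ((C.M + C.H * 2 ^ w) * E2 + (2 * C.H) * E1) +
            ((C.H ^ 2 * (C.M + C.H * 2 ^ w)) * (2 ^ (3 * P.c * P.s) *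
              (((F - E) * (F - E)) * ((F - E) * (F - E))))) : ℕ) : ℤ) -
          (((2 ^ (2 * C.g) * 2 ^ ((3 + 3 * P.c) * P.s)) *
          ((C.M + C.H * 2 ^ w) * F2 + (2 * C.H) * F1) +
            (C.H ^ 2 * (C.M + C.H * 2 ^ w)) * (P.c * (((((F - E) * (F - E)) * ((F - E) * (F - E))) *
              (((F - E) * (F - E)) * (F - E))))) : ℕ) : ℤ) = _
        push_cast [Nat.cast_sub hFE.le]
        ring
    obtain ⟨b0, b1, b2, e, h0, h1, h2⟩ := bndPoly_norms P C hdx'
      (fun b0 b1 b2 => N0 (resL P C) ≤ b0 ∧ N1 (resL P C) ≤ b1 ∧ N2 (resL P C) ≤ b2)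
    rw [e]
    exact ⟨fin.1.trans h0, fin.2.1.trans h1, fin.2.2.trans h2⟩

end Pool.Agent.H228
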