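import Mathlib
import Pool.Agent.H228.Res

/-! TASK S3: analytic facts about the approximant of a checked cell. -/

set_option autoImplicit false

namespace Pool.Agent.H228

open Set

theorem CellD.x_hasDerivAt (C : CellD) (t : ℝ) : HasDerivAt C.x (2 ^ C.g / C.H) t := by
  unfold CellD.x
  have h := (((hasDerivAt_id' t).const_mul ((2:ℝ) ^ C.g)).sub_const (C.M : ℝ)).div_const (C.H : ℝ)
  refine h.congr_deriv ?_
  ring

theorem pC_hasDerivAt (P : Par) (C : CellD) (hH : 0 < C.H) (a t : ℝ) :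
    HasDerivAt (pC P C a) (pC1 P C a t) t := by
  have _ := hH
  unfold pC pC1
  exact ((ev2_hasDerivAt (C.poly P) (C.x t) a).comp t (C.x_hasDerivAt t)).div_const _

theorem pC1_hasDerivAt (P : Par) (C : CellD) (hH : 0 < C.H) (a t : ℝ) :
    HasDerivAt (pC1 P C a) (-(2 / t) * pC1 P C a t - fc P.c (pC P C a t) + rC P C a t) t := by
  have _ := hH
  have h := ((((ev2_hasDerivAt (der2 (C.poly P)) (C.x t) a).comp t (C.x_hasDerivAt t)).mul_const
    ((2:ℝ) ^ C.g / C.H)).div_const ((2:ℝ) ^ P.s))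
  refine HasDerivAt.congr_deriv (f := pC1 P C a) h ?_
  unfold rC
  ring

/-- `t = (M + H x)/G` -/
theorem CellD.x_mem (C : CellD) (hH : 0 < C.H) {t : ℝ} (ht : t ∈ Icc C.a0 C.a1) :
    C.x t ∈ Icc (-1:ℝ) 1 := by
  have hH' : (0:ℝ) < C.H := by exact_mod_cast hH
  have hG : (0:ℝ) < 2 ^ C.g := by positivity
  obtain ⟨h1, h2⟩ := ht
  unfold CellD.a0 at h1
  unfold CellD.a1 at h2
  rw [div_le_iff₀ hG] at h1
  rw [le_div_iff₀ hG] at h2
  unfold CellD.x
  constructor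
  · rw [le_div_iff₀ hH']; linarith
  · rw [div_le_iff₀ hH']; linarith
theorem CellD.x_eq (C : CellD) (hH : 0 < C.H) (t : ℝ) : (C.M : ℝ) + C.H * C.x t = 2 ^ C.g * t := by
  have hH' : (C.H : ℝ) ≠ 0 := by exact_mod_cast hH.ne'
  unfold CellD.x
  field_simp
  ring

theorem rC_eq (P : Par) (C : CellD) (hH : 0 < C.H) (hc : P.c ≤ 1) {t : ℝ} (ht : t ≠ 0) (a : ℝ) :
    t * rC P C a t = resPoly P C (C.x t) a / (2 ^ C.g * (2 ^ P.s) ^ (4 + 3 * P.c) * C.H ^ 2) := by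
  have hH' : (C.H : ℝ) ≠ 0 := by exact_mod_cast hH.ne'
  have hG : (2:ℝ) ^ C.g ≠ 0 := by positivity
  have hS : (2:ℝ) ^ P.s ≠ 0 := by positivity
  unfold resPoly
  rw [C.x_eq hH t]
  unfold rC pC1 pC fc
  set G : ℝ := (2:ℝ) ^ C.g with hGd
  set S : ℝ := (2:ℝ) ^ P.s with hSd
  have hc' : P.c = 0 ∨ P.c = 1 := by omega
  rcases hc' with hc0 | hc0
  · rw [hc0]
    simp only [Nat.cast_zero, mul_zero, add_zero, pow_zero, zero_mul, one_mul]
    field_simp
  · rw [hc0]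
    simp only [Nat.cast_one, mul_one, one_mul]
    norm_num only
    field_simp

theorem fct_ev2_hasDerivAt_a (L : List (List ℤ)) (x a : ℝ) : ∃ d : ℝ,
    HasDerivAt (fun y : ℝ => ev2 L x y) d a ∧ (|x| ≤ 1 → |a| ≤ 1 → |d| ≤ N1 L) := by
  induction L with
  | nil => exact ⟨0, by simpa using hasDerivAt_const a (0:ℝ), by simp [N1]⟩
  | cons l L ih =>
    obtain ⟨d, hd, hd'⟩ := ih
    obtain ⟨e, he, he'⟩ := ev1_hasDerivAt l a
    refine ⟨e + x * d, he.add (hd.const_mul x), fun hx ha => ?_⟩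
    have h1 := (he' ha).1
    have h2 := hd' hx ha
    have h3 : |x * d| ≤ N1 L := by
      rw [abs_mul]
      calc |x| * |d| ≤ 1 * N1 L := by gcongr
        _ = N1 L := one_mul _
    have h4 : ((N1 (l :: L) : ℕ) : ℝ) = n1 l + N1 L := by simp [N1]
    rw [h4]
    exact (abs_add_le _ _).trans (add_le_add h1 h3)

theorem fct_abs_le_one_of_mem {x : ℝ} (hx : x ∈ Icc (-1:ℝ) 1) : |x| ≤ 1 := abs_le.2 hx

/-- the denominator -/
noncomputable def fct_dn (P : Par) (C : CellD) : ℝ := 2 ^ C.g * (2 ^ P.s) ^ (4 + 3 * P.c) * C.H ^ 2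

theorem fct_dn_pos (P : Par) (C : CellD) (hH : 0 < C.H) : 0 < fct_dn P C := by
  have hH' : (0:ℝ) < C.H := by exact_mod_cast hH
  unfold fct_dn
  positivity

theorem fct_gBnd_gt (P : Par) (C : CellD) (hH : 0 < C.H) {n b : ℕ} (h : n ≤ b) {z : ℝ}
    (hz : z ≤ (n : ℝ) / fct_dn P C) : z < (gBnd P C b : ℝ) / 2 ^ P.s := by
  have hH' : (0:ℝ) < C.H := by exact_mod_cast hH
  have hpos : 0 < Nat.mul (Nat.pow 2 (C.g + (3 + 3 * P.c) * P.s)) (Nat.pow C.H 2) := by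
    show 0 < (2 ^ (C.g + (3 + 3 * P.c) * P.s)) * (C.H ^ 2)
    positivity
  have h1 := le_cdiv (a := b) hpos
  have h2 : ((Nat.mul (Nat.pow 2 (C.g + (3 + 3 * P.c) * P.s)) (Nat.pow C.H 2) : ℕ) : ℝ) =
      2 ^ C.g * (2 ^ P.s) ^ (3 + 3 * P.c) * C.H ^ 2 := by
    show (((2 ^ (C.g + (3 + 3 * P.c) * P.s)) * (C.H ^ 2) : ℕ) : ℝ) = _
    push_cast
    rw [pow_add, mul_comm (3 + 3 * P.c) P.s, pow_mul]
  rw [h2] at h1
  have h3 : (b : ℝ) / fct_dn P C < (gBnd P C b : ℝ) / 2 ^ P.s := by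
    have h4 : (b : ℝ) / fct_dn P C = (b : ℝ) / (2 ^ C.g * (2 ^ P.s) ^ (3 + 3 * P.c) * C.H ^ 2) / 2 ^ P.s := by
      rw [div_div]
      congr 1
      unfold fct_dn
      have : 4 + 3 * P.c = (3 + 3 * P.c) + 1 := by ring
      rw [this, pow_succ]
      ring
    rw [h4]
    exact div_lt_div_of_pos_right h1 (by positivity)
  have h5 : (n : ℝ) / fct_dn P C ≤ (b : ℝ) / fct_dn P C :=
    div_le_div_of_nonneg_right (by exact_mod_cast h) (fct_dn_pos P C hH).le
  linarith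

theorem fct_d1_const_mul (k : ℝ) (g : ℝ → ℝ) (a b : ℝ) : d1 (fun s => k * g s) a b = k * d1 g a b := by
  unfold d1; ring
theorem fct_d2_const_mul (k : ℝ) (g : ℝ → ℝ) (a b c : ℝ) :
    d2 (fun s => k * g s) a b c = k * d2 g a b c := by
  unfold d2; rw [fct_d1_const_mul, fct_d1_const_mul]; ring
theorem fct_d1_div_const (k : ℝ) (g : ℝ → ℝ) (a b : ℝ) : d1 (fun s => g s / k) a b = d1 g a b / k := by
  unfold d1; ring
theorem fct_d2_div_const (k : ℝ) (g : ℝ → ℝ) (a b c : ℝ) :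
    d2 (fun s => g s / k) a b c = d2 g a b c / k := by
  unfold d2; rw [fct_d1_div_const, fct_d1_div_const]; ring

theorem fct_ev2_d1_le (L : List (List ℤ)) {x a b : ℝ} (hx : |x| ≤ 1) (ha : |a| ≤ 1) (hb : |b| ≤ 1)
    (hab : a ≠ b) : |d1 (fun s => ev2 L x s) a b| ≤ N1 L := by
  unfold d1
  rw [abs_div, div_le_iff₀ (abs_pos.2 (sub_ne_zero.2 hab.symm))]
  exact ev2_dd1 L hx ha hb

theorem fct_ev2_d2_le (L : List (List ℤ)) {x a b c : ℝ} (hx : |x| ≤ 1) (ha : |a| ≤ 1) (hb : |b| ≤ 1)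
    (hc : |c| ≤ 1) (hab : a ≠ b) (hbc : b ≠ c) (hac : a ≠ c) :
    |d2 (fun s => ev2 L x s) a b c| ≤ N2 L := by
  unfold d2 d1
  exact ev2_dd2 L hx ha hb hc hab hbc hac

/-- the facts used by `cell_step` and `cell_first`; `S = 2^P.s`; the interval `[lo, hi]` is contained in
`{t | C.x t ∈ [-1, 1]}` -/
theorem cell_facts {P : Par} {C : CellD} (hc : P.c ≤ 1) (hb : 0 < P.b) (hH : 0 < C.H)
    (h : resOK P C (N0 (C.poly P)) (M1 (C.poly P)) (M2 (C.poly P)) = true) :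
    nbAll P C (fun b0 b1 b2 =>
      ∀ t : ℝ, 0 < t → C.x t ∈ Icc (-1:ℝ) 1 →
        (∀ a ∈ Icc (-1:ℝ) 1, t * |rC P C a t| < (gBnd P C b0 : ℝ) / 2 ^ P.s) ∧
        (∀ a ∈ Icc (-1:ℝ) 1, ∀ b ∈ Icc (-1:ℝ) 1, a ≠ b →
          t * |d1 (fun s => rC P C s t) a b| < (gBnd P C b1 : ℝ) / 2 ^ P.s) ∧
        (∀ a ∈ Icc (-1:ℝ) 1, ∀ b ∈ Icc (-1:ℝ) 1, ∀ c ∈ Icc (-1:ℝ) 1, a ≠ b → b ≠ c → a ≠ c →
          t * |d2 (fun s => rC P C s t) a b c| < (gBnd P C b2 : ℝ) / 2 ^ P.s) ∧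
        -- derivative of the residual with respect to the parameter
        (∀ a ∈ Icc (-1:ℝ) 1, ∃ r : ℝ, HasDerivAt (fun s => rC P C s t) r a ∧
          t * |r| < (gBnd P C b1 : ℝ) / 2 ^ P.s)) := by
  obtain ⟨R, hR, hn⟩ := resOK_sound hc hb h
  have key : ∀ b0 b1 b2 : ℕ, (N0 R ≤ b0 ∧ N1 R ≤ b1 ∧ N2 R ≤ b2) →
      ∀ t : ℝ, 0 < t → C.x t ∈ Icc (-1:ℝ) 1 →
        (∀ a ∈ Icc (-1:ℝ) 1, t * |rC P C a t| < (gBnd P C b0 : ℝ) / 2 ^ P.s) ∧
        (∀ a ∈ Icc (-1:ℝ) 1, ∀ b ∈ Icc (-1:ℝ) 1, a ≠ b →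
          t * |d1 (fun s => rC P C s t) a b| < (gBnd P C b1 : ℝ) / 2 ^ P.s) ∧
        (∀ a ∈ Icc (-1:ℝ) 1, ∀ b ∈ Icc (-1:ℝ) 1, ∀ c ∈ Icc (-1:ℝ) 1, a ≠ b → b ≠ c → a ≠ c →
          t * |d2 (fun s => rC P C s t) a b c| < (gBnd P C b2 : ℝ) / 2 ^ P.s) ∧
        (∀ a ∈ Icc (-1:ℝ) 1, ∃ r : ℝ, HasDerivAt (fun s => rC P C s t) r a ∧
          t * |r| < (gBnd P C b1 : ℝ) / 2 ^ P.s) := by
    rintro b0 b1 b2 ⟨h0, h1, h2⟩ t ht hx
    have hx' := fct_abs_le_one_of_mem hx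
    have hdn := fct_dn_pos P C hH
    have heq : ∀ a, t * rC P C a t = ev2 R (C.x t) a / fct_dn P C := by
      intro a
      rw [rC_eq P C hH hc ht.ne' a, hR]
      rfl
    have hfun : (fun s => t * rC P C s t) = fun s => ev2 R (C.x t) s / fct_dn P C := funext heq
    refine ⟨?_, ?_, ?_, ?_⟩
    · intro a ha
      refine fct_gBnd_gt P C hH h0 ?_
      have e : t * |rC P C a t| = |t * rC P C a t| := by rw [abs_mul, abs_of_pos ht]
      rw [e, heq, abs_div, abs_of_pos hdn]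
      exact div_le_div_of_nonneg_right (ev2_abs_le R hx' (fct_abs_le_one_of_mem ha)) hdn.le
    · intro a ha b hb' hab
      refine fct_gBnd_gt P C hH h1 ?_
      have e : t * |d1 (fun s => rC P C s t) a b| = |t * d1 (fun s => rC P C s t) a b| := by
        rw [abs_mul, abs_of_pos ht]
      rw [e, ← fct_d1_const_mul t, hfun, fct_d1_div_const, abs_div, abs_of_pos hdn]
      exact div_le_div_of_nonneg_right (fct_ev2_d1_le R hx' (fct_abs_le_one_of_mem ha)
        (fct_abs_le_one_of_mem hb') hab) hdn.le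
    · intro a ha b hb' c hc' hab hbc hac
      refine fct_gBnd_gt P C hH h2 ?_
      have e : t * |d2 (fun s => rC P C s t) a b c| = |t * d2 (fun s => rC P C s t) a b c| := by
        rw [abs_mul, abs_of_pos ht]
      rw [e, ← fct_d2_const_mul t, hfun, fct_d2_div_const, abs_div, abs_of_pos hdn]
      exact div_le_div_of_nonneg_right (fct_ev2_d2_le R hx' (fct_abs_le_one_of_mem ha)
        (fct_abs_le_one_of_mem hb') (fct_abs_le_one_of_mem hc') hab hbc hac) hdn.le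
    · intro a ha
      obtain ⟨d, hd, hd'⟩ := fct_ev2_hasDerivAt_a R (C.x t) a
      refine ⟨d / fct_dn P C / t, ?_, ?_⟩
      · have hfun2 : (fun s => rC P C s t) = fun s => ev2 R (C.x t) s / fct_dn P C / t := by
          funext s
          rw [← heq s, mul_div_cancel_left₀ _ ht.ne']
        rw [hfun2]
        exact (hd.div_const _).div_const _
      · refine fct_gBnd_gt P C hH h1 ?_
        rw [abs_div, abs_div, abs_of_pos ht, abs_of_pos hdn, mul_div_cancel₀ _ ht.ne']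
        exact div_le_div_of_nonneg_right (hd' hx' (fct_abs_le_one_of_mem ha)) hdn.le
  exact key _ _ _ hn

theorem fct_ev1_head_bd (l : List ℤ) {a : ℝ} (ha : |a| ≤ 1) :
    |ev1 l a - (l.headD 0 : ℤ)| + |((l.headD 0 : ℤ) : ℝ)| ≤ n0 l := by
  cases l with
  | nil => simp [n0]
  | cons c l =>
    have h := ev1_abs_le l ha
    have h4 : ((n0 (c :: l) : ℕ) : ℝ) = |(c:ℝ)| + n0 l := by
      simp [n0, Nat.cast_natAbs]
    rw [h4, ev1_cons]
    simp only [List.headD_cons]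
    have h5 : (c:ℝ) + a * ev1 l a - c = a * ev1 l a := by ring
    rw [h5, abs_mul]
    have : |a| * |ev1 l a| ≤ 1 * n0 l := by gcongr
    linarith

theorem fct_ev2_head_bd (L : List (List ℤ)) {x a : ℝ} (hx : |x| ≤ 1) (ha : |a| ≤ 1) :
    |ev2 L x a - (((L.headD []).headD 0 : ℤ) : ℝ)| + |(((L.headD []).headD 0 : ℤ) : ℝ)| ≤ N0 L := by
  cases L with
  | nil => simp [N0]
  | cons l L =>
    have h := ev2_abs_le L hx ha
    have h1 := fct_ev1_head_bd l ha
    have h4 : ((N0 (l :: L) : ℕ) : ℝ) = n0 l + N0 L := by simp [N0]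
    rw [h4, ev2_cons]
    simp only [List.headD_cons]
    have h5 : ev1 l a + x * ev2 L x a - ((l.headD 0 : ℤ) : ℝ) =
        (ev1 l a - ((l.headD 0 : ℤ) : ℝ)) + x * ev2 L x a := by ring
    rw [h5]
    have h6 := abs_add_le (ev1 l a - ((l.headD 0 : ℤ) : ℝ)) (x * ev2 L x a)
    have h7 : |x * ev2 L x a| ≤ N0 L := by
      rw [abs_mul]
      calc |x| * |ev2 L x a| ≤ 1 * N0 L := by gcongr
        _ = N0 L := one_mul _
    linarith

theorem fct_dd2_head_bd (l : List ℤ) {a b c : ℝ} (ha : |a| ≤ 1) (hb : |b| ≤ 1) (hc : |c| ≤ 1) :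
    |dd2 l a b c - (l.tail.tail.headD 0 : ℤ)| + |((l.tail.tail.headD 0 : ℤ) : ℝ)| ≤ n2 l := by
  rcases l with _ | ⟨c0, _ | ⟨c1, l⟩⟩
  · simp [dd2_nil, n2]
  · simp [dd2_cons, dd2_nil, dd1_nil, n2, n1]
  · have h1 := fct_ev1_head_bd l ha
    have h2 := dd1_abs_le l ha hb
    have h3 := dd2_abs_le (c1 :: l) ha hb hc
    have h4 : ((n2 (c0 :: c1 :: l) : ℕ) : ℝ) = n0 l + n1 l + n2 (c1 :: l) := by simp [n2, n1]
    rw [h4, dd2_cons, dd1_cons]
    simp only [List.tail_cons]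
    have h5 : ev1 l a + b * dd1 l a b + c * dd2 (c1 :: l) a b c - ((l.headD 0 : ℤ) : ℝ) =
        (ev1 l a - ((l.headD 0 : ℤ) : ℝ)) + b * dd1 l a b + c * dd2 (c1 :: l) a b c := by ring
    rw [h5]
    have h6 := abs_add_three (ev1 l a - ((l.headD 0 : ℤ) : ℝ)) (b * dd1 l a b)
      (c * dd2 (c1 :: l) a b c)
    have h7 : |b * dd1 l a b| ≤ n1 l := by
      rw [abs_mul]
      calc |b| * |dd1 l a b| ≤ 1 * n1 l := by gcongr
        _ = n1 l := one_mul _
    have h8 : |c * dd2 (c1 :: l) a b c| ≤ n2 (c1 :: l) := by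
      rw [abs_mul]
      calc |c| * |dd2 (c1 :: l) a b c| ≤ 1 * n2 (c1 :: l) := by gcongr
        _ = n2 (c1 :: l) := one_mul _
    linarith

theorem fct_ddd_head_bd (L : List (List ℤ)) {x a b c : ℝ} (hx : |x| ≤ 1) (ha : |a| ≤ 1)
    (hb : |b| ≤ 1) (hc : |c| ≤ 1) :
    |ddd L x a b c - (((L.headD []).tail.tail.headD 0 : ℤ) : ℝ)| +
      |(((L.headD []).tail.tail.headD 0 : ℤ) : ℝ)| ≤ N2 L := by
  cases L with
  | nil => simp [ddd, N2]
  | cons l L =>
    have h := ddd_abs_le L hx ha hb hc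
    have h1 := fct_dd2_head_bd l ha hb hc
    have h4 : ((N2 (l :: L) : ℕ) : ℝ) = n2 l + N2 L := by simp [N2]
    rw [h4, ddd_cons]
    simp only [List.headD_cons]
    have h5 : dd2 l a b c + x * ddd L x a b c - ((l.tail.tail.headD 0 : ℤ) : ℝ) =
        (dd2 l a b c - ((l.tail.tail.headD 0 : ℤ) : ℝ)) + x * ddd L x a b c := by ring
    rw [h5]
    have h6 := abs_add_le (dd2 l a b c - ((l.tail.tail.headD 0 : ℤ) : ℝ)) (x * ddd L x a b c)
    have h7 : |x * ddd L x a b c| ≤ N2 L := by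
      rw [abs_mul]
      calc |x| * |ddd L x a b c| ≤ 1 * N2 L := by gcongr
        _ = N2 L := one_mul _
    linarith

theorem fct_ev2_d2_eq (L : List (List ℤ)) {x a b c : ℝ} (hab : a ≠ b) (hbc : b ≠ c) (hac : a ≠ c) :
    d2 (fun s => ev2 L x s) a b c = ddd L x a b c := by
  have h1 : c - b ≠ 0 := sub_ne_zero.mpr hbc.symm
  have h2 : b - a ≠ 0 := sub_ne_zero.mpr hab.symm
  have h3 : c - a ≠ 0 := sub_ne_zero.mpr hac.symm
  unfold d2 d1
  rw [div_sub_div _ _ h1 h2, div_div, div_eq_iff (mul_ne_zero (mul_ne_zero h1 h2) h3)]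
  linear_combination ddd_spec L x a b c

theorem pC_facts {P : Par} {C : CellD} {t : ℝ} (hx : C.x t ∈ Icc (-1:ℝ) 1) :
    (∀ a ∈ Icc (-1:ℝ) 1, |pC P C a t| ≤ (N0 (C.poly P) : ℝ) / 2 ^ P.s) ∧
    (∀ a ∈ Icc (-1:ℝ) 1, ∀ b ∈ Icc (-1:ℝ) 1, a ≠ b →
      |d1 (fun s => pC P C s t) a b| ≤ (N1 (C.poly P) : ℝ) / 2 ^ P.s) ∧
    (∀ a ∈ Icc (-1:ℝ) 1, ∀ b ∈ Icc (-1:ℝ) 1, ∀ c ∈ Icc (-1:ℝ) 1, a ≠ b → b ≠ c → a ≠ c →
      |d2 (fun s => pC P C s t) a b c| ≤ (N2 (C.poly P) : ℝ) / 2 ^ P.s) ∧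
    -- lower bound by the constant coefficient `c00`
    (∀ a ∈ Icc (-1:ℝ) 1, (2 * (((C.poly P).headD []).headD 0 : ℤ) - (N0 (C.poly P) : ℝ)) / 2 ^ P.s ≤
      pC P C a t) ∧
    -- second difference quotient from below, `c02`
    (∀ a ∈ Icc (-1:ℝ) 1, ∀ b ∈ Icc (-1:ℝ) 1, ∀ c ∈ Icc (-1:ℝ) 1, a ≠ b → b ≠ c → a ≠ c →
      (2 * (((C.poly P).headD []).tail.tail.headD 0 : ℤ) - (N2 (C.poly P) : ℝ)) / 2 ^ P.s ≤
        d2 (fun s => pC P C s t) a b c) := by
  have hx' := fct_abs_le_one_of_mem hx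
  have hS : (0:ℝ) < 2 ^ P.s := by positivity
  have e1 : ∀ a b, d1 (fun s => pC P C s t) a b =
      d1 (fun s => ev2 (C.poly P) (C.x t) s) a b / 2 ^ P.s := fun a b => fct_d1_div_const _ _ _ _
  have e2 : ∀ a b c, d2 (fun s => pC P C s t) a b c =
      d2 (fun s => ev2 (C.poly P) (C.x t) s) a b c / 2 ^ P.s := fun a b c => fct_d2_div_const _ _ _ _ _
  refine ⟨?_, ?_, ?_, ?_, ?_⟩
  · intro a ha
    unfold pC
    rw [abs_div, abs_of_pos hS]
    exact div_le_div_of_nonneg_right (ev2_abs_le _ hx' (fct_abs_le_one_of_mem ha)) hS.le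
  · intro a ha b hb hab
    rw [e1, abs_div, abs_of_pos hS]
    exact div_le_div_of_nonneg_right (fct_ev2_d1_le _ hx' (fct_abs_le_one_of_mem ha)
      (fct_abs_le_one_of_mem hb) hab) hS.le
  · intro a ha b hb c hc hab hbc hac
    rw [e2, abs_div, abs_of_pos hS]
    exact div_le_div_of_nonneg_right (fct_ev2_d2_le _ hx' (fct_abs_le_one_of_mem ha)
      (fct_abs_le_one_of_mem hb) (fct_abs_le_one_of_mem hc) hab hbc hac) hS.le
  · intro a ha
    unfold pC
    refine div_le_div_of_nonneg_right ?_ hS.le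
    have h := fct_ev2_head_bd (C.poly P) hx' (fct_abs_le_one_of_mem ha)
    have h1 := neg_abs_le (ev2 (C.poly P) (C.x t) a - ((((C.poly P).headD []).headD 0 : ℤ) : ℝ))
    have h2 := le_abs_self ((((C.poly P).headD []).headD 0 : ℤ) : ℝ)
    linarith
  · intro a ha b hb c hc hab hbc hac
    rw [e2, fct_ev2_d2_eq _ hab hbc hac]
    refine div_le_div_of_nonneg_right ?_ hS.le
    have h := fct_ddd_head_bd (C.poly P) hx' (fct_abs_le_one_of_mem ha) (fct_abs_le_one_of_mem hb)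
      (fct_abs_le_one_of_mem hc)
    have h1 := neg_abs_le (ddd (C.poly P) (C.x t) a b c -
      ((((C.poly P).headD []).tail.tail.headD 0 : ℤ) : ℝ))
    have h2 := le_abs_self ((((C.poly P).headD []).tail.tail.headD 0 : ℤ) : ℝ)
    linarith

theorem fct_horS_spec {β : Type} (O hn y : ℕ) (neg : Bool) (x : ℝ) (hn0 : 0 < hn)
    (hx : x * hn = if neg then -(y : ℝ) else y) (l : List ℕ) (k : ℕ → ℕ → ℕ → β) :
    ∃ p m w : ℕ, horS O hn y neg l k = k p m w ∧ 0 < w ∧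
      ((p : ℝ) - m) * hn = w * ev1 (toZ O l) x := by
  induction l generalizing k with
  | nil => exact ⟨0, 0, 1, rfl, one_pos, by simp [toZ]⟩
  | cons n l ih =>
    obtain ⟨p, m, w, h1, h2, h3⟩ := ih (fun p m w =>
      cond neg (k (Nat.add (Nat.mul n w) (Nat.mul y m)) (Nat.add (Nat.mul O w) (Nat.mul y p))
          (Nat.mul w hn))
        (k (Nat.add (Nat.mul n w) (Nat.mul y p)) (Nat.add (Nat.mul O w) (Nat.mul y m))
          (Nat.mul w hn)))
    have hdef : horS O hn y neg (n :: l) k = horS O hn y neg l (fun p m w =>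
      cond neg (k (Nat.add (Nat.mul n w) (Nat.mul y m)) (Nat.add (Nat.mul O w) (Nat.mul y p))
          (Nat.mul w hn))
        (k (Nat.add (Nat.mul n w) (Nat.mul y p)) (Nat.add (Nat.mul O w) (Nat.mul y m))
          (Nat.mul w hn))) := rfl
    have hev : ev1 (toZ O (n :: l)) x = ((n : ℝ) - O) + x * ev1 (toZ O l) x := by
      simp [toZ]
    cases neg with
    | true =>
      refine ⟨n * w + y * m, O * w + y * p, w * hn, ?_, by positivity, ?_⟩
      · rw [hdef, h1]; rfl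
      · rw [hev]
        simp only [if_true] at hx
        push_cast
        linear_combination (-(y:ℝ)) * h3 - (w:ℝ) * ev1 (toZ O l) x * hx
    | false =>
      refine ⟨n * w + y * p, O * w + y * m, w * hn, ?_, by positivity, ?_⟩
      · rw [hdef, h1]; rfl
      · rw [hev]
        simp only [Bool.false_eq_true, if_false] at hx
        push_cast
        linear_combination (y:ℝ) * h3 - (w:ℝ) * ev1 (toZ O l) x * hx

theorem fct_col_bd (O : ℕ) (D : List (List ℕ)) (hD : ∀ r ∈ D, r ≠ []) {x a : ℝ} (hx : |x| ≤ 1)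
    (ha : |a| ≤ 1) : n0 (toZ O (colOf D)) ≤ N0 (toI O D) ∧
    |ev2 (toI O D) x a - ev1 (toZ O (colOf D)) x| + n0 (toZ O (colOf D)) ≤ N0 (toI O D) := by
  induction D with
  | nil => simp [toI, toZ, colOf, n0, N0]
  | cons r D ih =>
    obtain ⟨ih1, ih2⟩ := ih (fun r hr => hD r (by simp [hr]))
    have hr : r ≠ [] := hD r (by simp)
    obtain ⟨n, r', rfl⟩ := List.exists_cons_of_ne_nil hr
    set row : List ℤ := (n :: r').map (fun (n : ℕ) => ((n : ℤ) - (O : ℤ))) with hrow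
    have e1 : toI O ((n :: r') :: D) = row :: toI O D := rfl
    have e2 : toZ O (colOf ((n :: r') :: D)) = ((n : ℤ) - (O : ℤ)) :: toZ O (colOf D) := rfl
    have e3 : row.headD 0 = (n : ℤ) - (O : ℤ) := rfl
    have h1 := fct_ev1_head_bd row ha
    rw [e3] at h1
    rw [e1, e2]
    have e4 : ((N0 (row :: toI O D) : ℕ) : ℝ) = n0 row + N0 (toI O D) := by simp [N0]
    have e5 : ((n0 (((n : ℤ) - (O : ℤ)) :: toZ O (colOf D)) : ℕ) : ℝ) =
        |(((n : ℤ) - (O : ℤ) : ℤ) : ℝ)| + n0 (toZ O (colOf D)) := by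
      simp [n0, Nat.cast_natAbs]
    constructor
    · have h0 : (((n : ℤ) - (O : ℤ)).natAbs) ≤ n0 row := by
        show _ ≤ ((n : ℤ) - (O : ℤ)).natAbs + n0 _
        omega
      show ((n : ℤ) - (O : ℤ)).natAbs + n0 (toZ O (colOf D)) ≤ n0 row + N0 (toI O D)
      omega
    · rw [e4, e5, ev2_cons, ev1_cons]
      have h5 : ev1 row a + x * ev2 (toI O D) x a -
          ((((n : ℤ) - (O : ℤ) : ℤ) : ℝ) + x * ev1 (toZ O (colOf D)) x) =
          (ev1 row a - (((n : ℤ) - (O : ℤ) : ℤ) : ℝ)) +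
            x * (ev2 (toI O D) x a - ev1 (toZ O (colOf D)) x) := by ring
      rw [h5]
      have h6 := abs_add_le (ev1 row a - (((n : ℤ) - (O : ℤ) : ℤ) : ℝ))
        (x * (ev2 (toI O D) x a - ev1 (toZ O (colOf D)) x))
      have h7 : |x * (ev2 (toI O D) x a - ev1 (toZ O (colOf D)) x)| ≤
          |ev2 (toI O D) x a - ev1 (toZ O (colOf D)) x| := by
        rw [abs_mul]
        calc |x| * |ev2 (toI O D) x a - ev1 (toZ O (colOf D)) x| ≤
            1 * |ev2 (toI O D) x a - ev1 (toZ O (colOf D)) x| := by gcongr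
          _ = _ := one_mul _
      linarith

/-- value at the point `x_q = (q - hn)/hn`: at `t = (hn (M - H) + H q)/(hn G)` the approximant is bounded by
the number passed on by `wOf` (unit `1/S`), where `V = N0 - (norm of the first column)` -/
theorem wOf_sound {β : Type} {P : Par} {C : CellD} (hb : 0 < P.b) (hH : 0 < C.H) (hHM : C.H ≤ C.M)
    (hn : 0 < P.hn) {q : ℕ} (hq : q ≤ 2 * P.hn) (k : ℕ → β) :
    ∃ W : ℕ, wOf P (colOf (C.rows P)) (N0 (C.poly P) - n0 (toZ P.O (colOf (C.rows P)))) q k = k W ∧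
      ∀ a ∈ Icc (-1:ℝ) 1, |pC P C a (((P.hn * (C.M - C.H) + C.H * q : ℕ) : ℝ) / (P.hn * 2 ^ C.g : ℕ))| ≤
        (W : ℝ) / 2 ^ P.s := by
  have hH' : (0:ℝ) < C.H := by exact_mod_cast hH
  have hn' : (0:ℝ) < P.hn := by exact_mod_cast hn
  have hS : (0:ℝ) < 2 ^ P.s := by positivity
  set x : ℝ := ((q : ℝ) - P.hn) / P.hn with hxdef
  have hxabs : |x| ≤ 1 := by
    have hq' : (q : ℝ) ≤ 2 * P.hn := by exact_mod_cast hq
    have hq0 : (0:ℝ) ≤ q := Nat.cast_nonneg _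
    rw [hxdef, abs_le]
    constructor
    · rw [le_div_iff₀ hn']; linarith
    · rw [div_le_iff₀ hn']; linarith
  have hxhn : x * P.hn = (q : ℝ) - P.hn := by
    rw [hxdef]; field_simp
  have hy : x * P.hn = if Nat.blt q P.hn then
      -((Nat.add (Nat.sub q P.hn) (Nat.sub P.hn q) : ℕ) : ℝ) else
      ((Nat.add (Nat.sub q P.hn) (Nat.sub P.hn q) : ℕ) : ℝ) := by
    rw [hxhn]
    by_cases hlt : q < P.hn
    · have h1 : Nat.blt q P.hn = true := by rw [Nat.blt_eq]; exact hlt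
      rw [h1, if_pos rfl]
      have h2 : Nat.add (Nat.sub q P.hn) (Nat.sub P.hn q) = P.hn - q := by
        show (q - P.hn) + (P.hn - q) = P.hn - q
        omega
      rw [h2, Nat.cast_sub hlt.le]
      ring
    · have h1 : ¬ (Nat.blt q P.hn = true) := by rw [Nat.blt_eq]; exact hlt
      rw [if_neg h1]
      have h2 : Nat.add (Nat.sub q P.hn) (Nat.sub P.hn q) = q - P.hn := by
        show (q - P.hn) + (P.hn - q) = q - P.hn
        omega
      rw [h2, Nat.cast_sub (not_lt.1 hlt)]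
  set V : ℕ := N0 (C.poly P) - n0 (toZ P.O (colOf (C.rows P))) with hV
  obtain ⟨p, m, w, h1, h2, h3⟩ := fct_horS_spec P.O P.hn
    (Nat.add (Nat.sub q P.hn) (Nat.sub P.hn q)) (Nat.blt q P.hn) x hn hy (colOf (C.rows P))
    (fun p m w => force (Nat.add V (cdiv (Nat.mul P.hn (Nat.add (Nat.sub p m) (Nat.sub m p))) w)) k)
  refine ⟨Nat.add V (cdiv (Nat.mul P.hn (Nat.add (Nat.sub p m) (Nat.sub m p))) w), ?_, ?_⟩
  · unfold wOf
    rw [h1, force_eq]
  · intro a ha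
    have ha' := fct_abs_le_one_of_mem ha
    have hxt : C.x (((P.hn * (C.M - C.H) + C.H * q : ℕ) : ℝ) / (P.hn * 2 ^ C.g : ℕ)) = x := by
      unfold CellD.x
      rw [hxdef]
      push_cast [Nat.cast_sub hHM]
      field_simp
      ring
    unfold pC
    rw [hxt, abs_div, abs_of_pos hS]
    refine div_le_div_of_nonneg_right ?_ hS.le
    have hrows : ∀ r ∈ C.rows P, r ≠ [] := by
      intro r hr h0
      have := rows_row_length P C r hr
      rw [h0] at this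
      simp at this
    obtain ⟨c1, c2⟩ := fct_col_bd P.O (C.rows P) hrows hxabs ha'
    have c1' : n0 (toZ P.O (colOf (C.rows P))) ≤ N0 (C.poly P) := c1
    have hVr : (V : ℝ) = N0 (C.poly P) - n0 (toZ P.O (colOf (C.rows P))) := by
      rw [hV, Nat.cast_sub c1']
    have hw' : (0:ℝ) < w := by exact_mod_cast h2
    have hev : ev1 (toZ P.O (colOf (C.rows P))) x = P.hn * ((p : ℝ) - m) / w := by
      rw [eq_div_iff hw'.ne']
      linarith
    have habs : (((Nat.mul P.hn (Nat.add (Nat.sub p m) (Nat.sub m p)) : ℕ)) : ℝ) =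
        P.hn * |(p : ℝ) - m| := by
      show ((P.hn * ((p - m) + (m - p)) : ℕ) : ℝ) = _
      push_cast
      congr 1
      rcases le_total m p with hmp | hmp
      · have : m - p = 0 := by omega
        rw [this, Nat.cast_sub hmp, abs_of_nonneg (sub_nonneg.2 (by exact_mod_cast hmp))]
        simp
      · have : p - m = 0 := by omega
        rw [this, Nat.cast_sub hmp, abs_of_nonpos (sub_nonpos.2 (by exact_mod_cast hmp))]
        simp
    have hcd := le_cdiv (a := Nat.mul P.hn (Nat.add (Nat.sub p m) (Nat.sub m p))) h2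
    rw [habs] at hcd
    have h5 : |ev1 (toZ P.O (colOf (C.rows P))) x| = P.hn * |(p : ℝ) - m| / w := by
      rw [hev, abs_div, abs_mul, abs_of_pos hn', abs_of_pos hw']
    have h6 : |ev2 (C.poly P) x a| ≤ |ev2 (C.poly P) x a - ev1 (toZ P.O (colOf (C.rows P))) x| +
        |ev1 (toZ P.O (colOf (C.rows P))) x| := by
      have := abs_add_le (ev2 (C.poly P) x a - ev1 (toZ P.O (colOf (C.rows P))) x)
        (ev1 (toZ P.O (colOf (C.rows P))) x)
      simpa using this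
    have h7 : ((Nat.add V (cdiv (Nat.mul P.hn (Nat.add (Nat.sub p m) (Nat.sub m p))) w) : ℕ) : ℝ) =
        V + (cdiv (Nat.mul P.hn (Nat.add (Nat.sub p m) (Nat.sub m p))) w : ℝ) := by
      show ((V + _ : ℕ) : ℝ) = _
      push_cast
      rfl
    rw [h7, hVr]
    have c2' : |ev2 (C.poly P) x a - ev1 (toZ P.O (colOf (C.rows P))) x| +
        (n0 (toZ P.O (colOf (C.rows P))) : ℝ) ≤ N0 (C.poly P) := c2
    linarith

end Pool.Agent.H228
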