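import Mathlib
import Pool.Agent.H228.Fct

/-! TASK S7: soundness of `jumpOK`, `segsOK`, `turnOK`. -/

set_option autoImplicit false

namespace Pool.Agent.H228

open Set

/-! ### eliminators for the continuation passing functions -/

theorem evAll_elim {D : List (List ℕ)} {k : List ℕ → List ℕ → List ℕ → List ℕ → Bool}
    (h : evAll D k = true) :
    ∃ p n dp dn : List ℕ, k p n dp dn = true ∧ ∀ a : ℝ,
      ev2 (toI 0 D) 1 a = ev1 (toZ 0 p) a + ev1 (toZ 0 n) a ∧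
      ev2 (toI 0 D) (-1) a = ev1 (toZ 0 p) a - ev1 (toZ 0 n) a ∧
      ev2 (der2 (toI 0 D)) 1 a = ev1 (toZ 0 dp) a + ev1 (toZ 0 dn) a ∧
      ev2 (der2 (toI 0 D)) (-1) a = ev1 (toZ 0 dp) a - ev1 (toZ 0 dn) a := by
  obtain ⟨p, n, dp, dn, h1, h2⟩ := evAll_spec D k
  exact ⟨p, n, dp, dn, h1 ▸ h, h2⟩

theorem ones_elim {m : ℕ} {k : List ℕ → List ℕ → List ℕ → List ℕ → Bool}
    (h : evAll (ones m) k = true) :
    ∃ p n dp dn : List ℕ, k p n dp dn = true ∧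
      ∀ (w : ℕ) (O : ℕ) (D : List (List ℕ)), D.length = m → (∀ r ∈ D, r.length = w) → ∀ a : ℝ,
        ev2 (toI O D) 1 a = ev2 (toI 0 D) 1 a -
          O * ((p.headD 0 : ℝ) + (n.headD 0 : ℝ)) * ev1 (toZ 0 (repN 1 w)) a ∧
        ev2 (toI O D) (-1) a = ev2 (toI 0 D) (-1) a -
          O * ((p.headD 0 : ℝ) - (n.headD 0 : ℝ)) * ev1 (toZ 0 (repN 1 w)) a ∧
        ev2 (der2 (toI O D)) 1 a = ev2 (der2 (toI 0 D)) 1 a -
          O * ((dp.headD 0 : ℝ) + (dn.headD 0 : ℝ)) * ev1 (toZ 0 (repN 1 w)) a ∧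
        ev2 (der2 (toI O D)) (-1) a = ev2 (der2 (toI 0 D)) (-1) a -
          O * ((dp.headD 0 : ℝ) - (dn.headD 0 : ℝ)) * ev1 (toZ 0 (repN 1 w)) a := by
  obtain ⟨p, n, dp, dn, h1, h2⟩ := ones_spec m k
  exact ⟨p, n, dp, dn, h1 ▸ h, h2⟩

theorem nrmD_elim {l m : List ℕ} {k : ℕ → ℕ → ℕ → Bool} (h : nrmD l m k = true) :
    ∃ d : List ℤ, k (n0 d) (n1 d) (n2 d) = true ∧
      d.headD 0 = (l.headD 0 : ℤ) - (m.headD 0 : ℤ) ∧
      d.tail.headD 0 = (l.tail.headD 0 : ℤ) - (m.tail.headD 0 : ℤ) ∧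
      ∀ a : ℝ, ev1 d a = ev1 (toZ 0 l) a - ev1 (toZ 0 m) a := by
  obtain ⟨d, h1, h2⟩ := nrmD_spec l m k
  exact ⟨d, h1 ▸ h, h2⟩

/-! ### functions given by integer polynomials -/

theorem d1_smul (c : ℝ) (g : ℝ → ℝ) (a b : ℝ) : d1 (fun s => c * g s) a b = c * d1 g a b := by
  unfold d1; ring

theorem d2_smul (c : ℝ) (g : ℝ → ℝ) (a b e : ℝ) :
    d2 (fun s => c * g s) a b e = c * d2 g a b e := by
  unfold d2; rw [d1_smul, d1_smul]; ring

theorem abs_le_one_of_mem {a : ℝ} (ha : a ∈ Icc (-1:ℝ) 1) : |a| ≤ 1 := abs_le.2 ha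

theorem list_bd0 {φ : ℝ → ℝ} {d : List ℤ} {c : ℝ} (hc : 0 < c) (h : ∀ a, φ a = ev1 d a / c)
    {a : ℝ} (ha : a ∈ Icc (-1:ℝ) 1) : |φ a| ≤ n0 d / c := by
  rw [h, abs_div, abs_of_pos hc]
  exact div_le_div_of_nonneg_right (ev1_abs_le d (abs_le_one_of_mem ha)) hc.le

theorem list_bd1 {φ : ℝ → ℝ} {d : List ℤ} {c : ℝ} (hc : 0 < c) (h : ∀ a, φ a = ev1 d a / c)
    {a b : ℝ} (ha : a ∈ Icc (-1:ℝ) 1) (hb : b ∈ Icc (-1:ℝ) 1) (hab : a ≠ b) :
    |d1 φ a b| ≤ n1 d / c := by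
  have h1 := ev1_dd1 d (abs_le_one_of_mem ha) (abs_le_one_of_mem hb)
  have h2 : 0 < |b - a| := abs_pos.2 (sub_ne_zero.2 (Ne.symm hab))
  have h3 : d1 φ a b = (ev1 d b - ev1 d a) / (b - a) / c := by
    unfold d1; rw [h, h]; field_simp
  rw [h3, abs_div, abs_div, abs_of_pos hc]
  exact div_le_div_of_nonneg_right ((div_le_iff₀ h2).2 h1) hc.le

theorem list_bd2 {φ : ℝ → ℝ} {d : List ℤ} {c : ℝ} (hc : 0 < c) (h : ∀ a, φ a = ev1 d a / c)
    {a b e : ℝ} (ha : a ∈ Icc (-1:ℝ) 1) (hb : b ∈ Icc (-1:ℝ) 1) (he : e ∈ Icc (-1:ℝ) 1)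
    (hab : a ≠ b) (hbe : b ≠ e) (hae : a ≠ e) :
    |d2 φ a b e| ≤ n2 d / c := by
  have h1 := ev1_dd2 d (abs_le_one_of_mem ha) (abs_le_one_of_mem hb) (abs_le_one_of_mem he)
    hab hbe hae
  have h3 : d2 φ a b e =
      ((ev1 d e - ev1 d b) / (e - b) - (ev1 d b - ev1 d a) / (b - a)) / (e - a) / c := by
    unfold d2 d1; rw [h, h, h]; field_simp
  rw [h3, abs_div, abs_of_pos hc]
  exact div_le_div_of_nonneg_right h1 hc.le

theorem list_der {φ : ℝ → ℝ} {d : List ℤ} {c : ℝ} (hc : 0 < c) (h : ∀ a, φ a = ev1 d a / c)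
    {a : ℝ} (ha : a ∈ Icc (-1:ℝ) 1) : ∃ r : ℝ, HasDerivAt φ r a ∧ |r| ≤ n1 d / c := by
  obtain ⟨D, h1, h2⟩ := ev1_hasDerivAt d a
  refine ⟨D / c, ?_, ?_⟩
  · have : φ = fun x => ev1 d x / c := funext h
    rw [this]
    exact h1.div_const c
  · rw [abs_div, abs_of_pos hc]
    exact div_le_div_of_nonneg_right (h2 (abs_le_one_of_mem ha)).1 hc.le

/-! ### end points -/

theorem CellD.a1_pos {C : CellD} (hH : 0 < C.H) : 0 < C.a1 := by
  unfold CellD.a1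
  have : (0:ℝ) < C.H := by exact_mod_cast hH
  positivity

theorem CellD.x_a1 {C : CellD} (hH : 0 < C.H) : C.x C.a1 = 1 := by
  unfold CellD.x CellD.a1
  have : (0:ℝ) < C.H := by exact_mod_cast hH
  field_simp
  ring

theorem CellD.x_a0 {C : CellD} (hH : 0 < C.H) : C.x C.a0 = -1 := by
  unfold CellD.x CellD.a0
  have : (0:ℝ) < C.H := by exact_mod_cast hH
  field_simp
  ring

theorem pC_a1 {P : Par} {C : CellD} (hH : 0 < C.H) (a : ℝ) :
    pC P C a C.a1 = ev2 (C.poly P) 1 a / 2 ^ P.s := by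
  unfold pC; rw [CellD.x_a1 hH]

theorem pC_a0 {P : Par} {C : CellD} (hH : 0 < C.H) (a : ℝ) :
    pC P C a C.a0 = ev2 (C.poly P) (-1) a / 2 ^ P.s := by
  unfold pC; rw [CellD.x_a0 hH]

theorem pC1_a1 {P : Par} {C : CellD} (hH : 0 < C.H) (a : ℝ) :
    C.a1 * pC1 P C a C.a1 = ((C.M : ℝ) + C.H) * ev2 (der2 (C.poly P)) 1 a / (C.H * 2 ^ P.s) := by
  unfold pC1; rw [CellD.x_a1 hH]
  unfold CellD.a1
  have : (0:ℝ) < C.H := by exact_mod_cast hH
  field_simp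

theorem pC1_a0 {P : Par} {C : CellD} (hH : 0 < C.H) (a : ℝ) :
    C.a0 * pC1 P C a C.a0 = ((C.M : ℝ) - C.H) * ev2 (der2 (C.poly P)) (-1) a / (C.H * 2 ^ P.s) := by
  unfold pC1; rw [CellD.x_a0 hH]
  unfold CellD.a0
  have : (0:ℝ) < C.H := by exact_mod_cast hH
  field_simp

theorem toZ_pair (x y : ℕ) (a : ℝ) : ev1 (toZ 0 [x, y]) a = x + y * a := by
  simp [toZ]; ring

theorem toZ_single (x : ℕ) (a : ℝ) : ev1 (toZ 0 [x]) a = x := by
  simp [toZ]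

/-- arithmetic of the final comparison -/
theorem cmp_le {o i j k h S : ℕ} (hS : 0 < S) (hh : 0 < h)
    (hle : Nat.ble (Nat.add o (Nat.add (cdiv k h) (cdiv (Nat.mul 3 j) 2))) i = true) :
    (o : ℝ) / S + ((k : ℝ) / (h * S) + 3 / 2 * ((j : ℝ) / S)) ≤ (i : ℝ) / S := by
  have h1 : o + (cdiv k h + cdiv (3 * j) 2) ≤ i := Nat.le_of_ble_eq_true hle
  have h2 : (o : ℝ) + ((cdiv k h : ℕ) + (cdiv (3 * j) 2 : ℕ)) ≤ i := by exact_mod_cast h1
  have h3 : (k : ℝ) / h < (cdiv k h : ℝ) := le_cdiv hh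
  have h4 : ((3 * j : ℕ) : ℝ) / (2 : ℕ) < (cdiv (3 * j) 2 : ℝ) := le_cdiv (by norm_num)
  push_cast at h4
  have hS' : (0:ℝ) < S := by exact_mod_cast hS
  have hh' : (0:ℝ) < h := by exact_mod_cast hh
  rw [le_div_iff₀ hS']
  have h5 : ((o : ℝ) / S + ((k : ℝ) / (h * S) + 3 / 2 * ((j : ℝ) / S))) * S =
      o + (k / h + 3 * j / 2) := by
    field_simp
  rw [h5]
  linarith

/-- polynomial level facts behind `jumpOK` -/
theorem jump_facts {P : Par} {C C' : CellD} (h : jumpOK P C C' = true) :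
    C.a1 = C'.a0 ∧ ∃ j0 j1 j2 k0 k1 k2 : ℝ, 0 ≤ j0 ∧ 0 ≤ j1 ∧ 0 ≤ j2 ∧ 0 ≤ k0 ∧ 0 ≤ k1 ∧ 0 ≤ k2 ∧
      C.o0 / 2 ^ P.s + (k0 + 3 / 2 * j0) ≤ C'.i0 / 2 ^ P.s ∧
      C.o1 / 2 ^ P.s + (k1 + 3 / 2 * j1) ≤ C'.i1 / 2 ^ P.s ∧
      C.o2 / 2 ^ P.s + (k2 + 3 / 2 * j2) ≤ C'.i2 / 2 ^ P.s ∧
      (∀ a ∈ Icc (-1:ℝ) 1, |pC P C' a C.a1 - pC P C a C.a1| ≤ j0 ∧
        |C.a1 * (pC1 P C' a C.a1 - pC1 P C a C.a1)| ≤ k0) ∧
      (∀ a ∈ Icc (-1:ℝ) 1, ∀ b ∈ Icc (-1:ℝ) 1, a ≠ b →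
        |d1 (fun s => pC P C' s C.a1 - pC P C s C.a1) a b| ≤ j1 ∧
        |C.a1 * d1 (fun s => pC1 P C' s C.a1 - pC1 P C s C.a1) a b| ≤ k1) ∧
      (∀ a ∈ Icc (-1:ℝ) 1, ∀ b ∈ Icc (-1:ℝ) 1, ∀ c ∈ Icc (-1:ℝ) 1, a ≠ b → b ≠ c → a ≠ c →
        |d2 (fun s => pC P C' s C.a1 - pC P C s C.a1) a b c| ≤ j2 ∧
        |C.a1 * d2 (fun s => pC1 P C' s C.a1 - pC1 P C s C.a1) a b c| ≤ k2) ∧
      (∀ a ∈ Icc (-1:ℝ) 1, ∃ r r' : ℝ,
        HasDerivAt (fun s => pC P C' s C.a1 - pC P C s C.a1) r a ∧ |r| ≤ j1 ∧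
        HasDerivAt (fun s => pC1 P C' s C.a1 - pC1 P C s C.a1) r' a ∧ |C.a1 * r'| ≤ k1) := by
  unfold jumpOK at h
  simp only [Bool.and_eq_true] at h
  obtain ⟨⟨⟨⟨⟨h1, h2⟩, h3⟩, h4⟩, h5⟩, h⟩ := h
  obtain ⟨p', n', dp', dn', h, hv'⟩ := evAll_elim h
  obtain ⟨p, n, dp, dn, h, hv⟩ := evAll_elim h
  obtain ⟨p1, n1', dp1, dn1, h, hone⟩ := ones_elim h
  simp only [force_eq] at h
  obtain ⟨d, h, -, -, hd⟩ := nrmD_elim h
  obtain ⟨e, h, -, -, he⟩ := nrmD_elim h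
  simp only [Bool.and_eq_true] at h
  obtain ⟨⟨hi0, hi1⟩, hi2⟩ := h
  have e1 : (C.M + C.H) * 2 ^ C'.g = (C'.M - C'.H) * 2 ^ C.g := Nat.eq_of_beq_eq_true h1
  have hH : 0 < C.H := Nat.lt_of_succ_le (Nat.le_of_ble_eq_true h2)
  have hH' : 0 < C'.H := Nat.lt_of_succ_le (Nat.le_of_ble_eq_true h3)
  have hM' : C'.H ≤ C'.M := Nat.le_of_ble_eq_true h4
  have hHr : (0:ℝ) < C.H := by exact_mod_cast hH
  have hHr' : (0:ℝ) < C'.H := by exact_mod_cast hH'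
  have e2 : ((C.M : ℝ) + C.H) * 2 ^ C'.g = ((C'.M : ℝ) - C'.H) * 2 ^ C.g := by
    rw [← Nat.cast_sub hM']; exact_mod_cast e1
  have ea : C.a1 = C'.a0 := by
    unfold CellD.a1 CellD.a0
    rw [div_eq_div_iff (by positivity) (by positivity), e2]
  have ha1 : 0 < C.a1 := CellD.a1_pos hH
  have hS : (0:ℝ) < 2 ^ P.s := by positivity
  have hSn : 0 < 2 ^ P.s := by positivity
  have hcast : ((C'.M - C'.H : ℕ) : ℝ) = (C'.M : ℝ) - C'.H := Nat.cast_sub hM'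
  -- the value
  have hφ : ∀ a, pC P C' a C.a1 - pC P C a C.a1 = ev1 d a / 2 ^ P.s := by
    intro a
    rw [pC_a1 hH, ea, pC_a0 hH', ← sub_div, hd a]
    obtain ⟨w1, w2, w3, w4⟩ := hv a
    obtain ⟨w1', w2', w3', w4'⟩ := hv' a
    obtain ⟨u1, -, -, -⟩ := hone (P.da + 1) P.O (C.rows P) (rows_length P C) (rows_row_length P C) a
    obtain ⟨-, u2, -, -⟩ := hone (P.da + 1) P.O (C'.rows P) (rows_length P C') (rows_row_length P C') a
    obtain ⟨R, hR⟩ : ∃ R, ev1 (toZ 0 (repN 1 (P.da + 1))) a = R := ⟨_, rfl⟩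
    have hrep : ∀ v, ev1 (toZ 0 (repN v (P.da + 1))) a = v * R := fun v => by
      rw [← hR]; exact ev1_repN v _ a
    rw [hR] at u1 u2
    unfold CellD.poly
    rw [u1, u2, w1, w2']
    simp only [ev1_addL, hrep, Nat.mul_eq, Nat.add_eq]
    push_cast
    ring
  have hψ : ∀ a, C.a1 * (pC1 P C' a C.a1 - pC1 P C a C.a1) =
      ev1 e a / ((C.H * C'.H : ℕ) * 2 ^ P.s) := by
    intro a
    rw [mul_sub, pC1_a1 hH, ea, pC1_a0 hH', he a]
    obtain ⟨w1, w2, w3, w4⟩ := hv a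
    obtain ⟨w1', w2', w3', w4'⟩ := hv' a
    obtain ⟨-, -, u1, -⟩ := hone (P.da + 1) P.O (C.rows P) (rows_length P C) (rows_row_length P C) a
    obtain ⟨-, -, -, u2⟩ := hone (P.da + 1) P.O (C'.rows P) (rows_length P C') (rows_row_length P C') a
    obtain ⟨R, hR⟩ : ∃ R, ev1 (toZ 0 (repN 1 (P.da + 1))) a = R := ⟨_, rfl⟩
    have hrep : ∀ v, ev1 (toZ 0 (repN v (P.da + 1))) a = v * R := fun v => by
      rw [← hR]; exact ev1_repN v _ a
    rw [hR] at u1 u2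
    unfold CellD.poly
    rw [u1, u2, w3, w4']
    simp only [ev1_addL, ev1_scL, hrep, Nat.mul_eq, Nat.add_eq]
    push_cast
    rw [hcast]
    field_simp
    ring
  have hc1 : (0:ℝ) < (C.H * C'.H : ℕ) * 2 ^ P.s := by
    push_cast; positivity
  have hhn : 0 < C.H * C'.H := Nat.mul_pos hH hH'
  have q0 := cmp_le (S := 2 ^ P.s) hSn hhn hi0
  have q1 := cmp_le (S := 2 ^ P.s) hSn hhn hi1
  have q2 := cmp_le (S := 2 ^ P.s) hSn hhn hi2
  rw [Nat.cast_pow, Nat.cast_ofNat] at q0 q1 q2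
  refine ⟨ea, n0 d / 2 ^ P.s, n1 d / 2 ^ P.s, n2 d / 2 ^ P.s, n0 e / ((C.H * C'.H : ℕ) * 2 ^ P.s),
    n1 e / ((C.H * C'.H : ℕ) * 2 ^ P.s), n2 e / ((C.H * C'.H : ℕ) * 2 ^ P.s),
    by positivity, by positivity, by positivity, by positivity, by positivity, by positivity,
    q0, q1, q2, ?_, ?_, ?_, ?_⟩
  · intro a ha
    exact ⟨list_bd0 (φ := fun s => pC P C' s C.a1 - pC P C s C.a1) hS hφ ha,
      list_bd0 (φ := fun s => C.a1 * (pC1 P C' s C.a1 - pC1 P C s C.a1)) hc1 hψ ha⟩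
  · intro a ha b hb hab
    refine ⟨list_bd1 (φ := fun s => pC P C' s C.a1 - pC P C s C.a1) hS hφ ha hb hab, ?_⟩
    rw [← d1_smul]
    exact list_bd1 (φ := fun s => C.a1 * (pC1 P C' s C.a1 - pC1 P C s C.a1)) hc1 hψ ha hb hab
  · intro a ha b hb c hc hab hbc hac
    refine ⟨list_bd2 (φ := fun s => pC P C' s C.a1 - pC P C s C.a1) hS hφ ha hb hc hab hbc hac, ?_⟩
    rw [← d2_smul]
    exact list_bd2 (φ := fun s => C.a1 * (pC1 P C' s C.a1 - pC1 P C s C.a1)) hc1 hψ ha hb hc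
      hab hbc hac
  · intro a ha
    obtain ⟨r, r1, r2⟩ := list_der (φ := fun s => pC P C' s C.a1 - pC P C s C.a1) hS hφ ha
    obtain ⟨r', r1', r2'⟩ :=
      list_der (φ := fun s => C.a1 * (pC1 P C' s C.a1 - pC1 P C s C.a1)) hc1 hψ ha
    refine ⟨r, r' / C.a1, r1, r2, ?_, ?_⟩
    · have h6 := r1'.div_const C.a1
      have : (fun s => pC1 P C' s C.a1 - pC1 P C s C.a1) =
          fun s => C.a1 * (pC1 P C' s C.a1 - pC1 P C s C.a1) / C.a1 := by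
        funext s; field_simp
      rw [this]; exact h6
    · have : C.a1 * (r' / C.a1) = r' := by field_simp
      rw [this]; exact r2'

theorem Psi_small {x y j k : ℝ} (hx : |x| ≤ j) (hy : |y| ≤ k) : Psi x y (k + 3 / 2 * j) := by
  unfold Psi
  have hx0 := abs_nonneg x
  have hy0 := abs_nonneg y
  have h1 : (y + x / 2) ^ 2 ≤ (|y| + |x| / 2) ^ 2 := by
    apply sq_le_sq'
    · have := neg_abs_le x
      have := neg_abs_le y
      linarith
    · have := le_abs_self x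
      have := le_abs_self y
      linarith
  have h2 : x ^ 2 = |x| ^ 2 := (sq_abs x).symm
  have h3 : (|y| + |x| / 2) ^ 2 + |x| ^ 2 ≤ (|y| + 3 / 2 * |x|) ^ 2 := by nlinarith
  have h4 : (|y| + 3 / 2 * |x|) ^ 2 ≤ (k + 3 / 2 * j) ^ 2 := by
    apply pow_le_pow_left₀ (by positivity)
    linarith
  rw [h2]
  linarith

theorem Psi_mono {x y z z' : ℝ} (hz : 0 ≤ z) (hzz : z ≤ z') (h : Psi x y z) : Psi x y z' := by
  unfold Psi at h ⊢
  exact h.trans (pow_le_pow_left₀ hz hzz 2)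

theorem Psi_add {x y x' y' z w : ℝ} (hz : 0 ≤ z) (hw : 0 ≤ w) (h : Psi x y z) (h' : Psi x' y' w) :
    Psi (x + x') (y + y') (z + w) := psi_add hz hw h h'

theorem Psi_jump {x y x' y' z j k z' : ℝ} (hz : 0 ≤ z) (h : Psi x y z) (hj : |x'| ≤ j)
    (hk : |y'| ≤ k) (hle : z + (k + 3 / 2 * j) ≤ z') : Psi (x - x') (y - y') z' := by
  have hj' : |-x'| ≤ j := by rwa [abs_neg]
  have hk' : |-y'| ≤ k := by rwa [abs_neg]
  have h0 : 0 ≤ k + 3 / 2 * j := by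
    have := (abs_nonneg _).trans hj
    have := (abs_nonneg _).trans hk
    linarith
  have := Psi_mono (by linarith) hle (Psi_add hz h0 h (Psi_small hj' hk'))
  simpa [sub_eq_add_neg] using this

theorem jump_sound {P : Par} {C C' : CellD} (h : jumpOK P C C' = true) {v v1 : ℝ → ℝ → ℝ}
    (hi : Inv v v1 (pC P C) (pC1 P C) C.a1 (C.o0 / 2 ^ P.s) (C.o1 / 2 ^ P.s) (C.o2 / 2 ^ P.s)) :
    Inv v v1 (pC P C') (pC1 P C') C'.a0 (C'.i0 / 2 ^ P.s) (C'.i1 / 2 ^ P.s) (C'.i2 / 2 ^ P.s) := by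
  obtain ⟨ea, j0, j1, j2, k0, k1, k2, -, -, -, -, -, -, q0, q1, q2, f0, f1, f2, -⟩ := jump_facts h
  rw [← ea]
  refine ⟨fun a ha => ?_, fun a ha b hb hab => ?_, fun a ha b hb c hc hab hbc hac => ?_⟩
  · have := Psi_jump (by positivity) (hi.l0 a ha) (f0 a ha).1 (f0 a ha).2 q0
    have e1 : v a C.a1 - pC P C a C.a1 - (pC P C' a C.a1 - pC P C a C.a1) =
        v a C.a1 - pC P C' a C.a1 := by ring
    have e2 : C.a1 * (v1 a C.a1 - pC1 P C a C.a1) - C.a1 * (pC1 P C' a C.a1 - pC1 P C a C.a1) =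
        C.a1 * (v1 a C.a1 - pC1 P C' a C.a1) := by ring
    rwa [e1, e2] at this
  · have := Psi_jump (by positivity) (hi.l1 a ha b hb hab) (f1 a ha b hb hab).1
      (f1 a ha b hb hab).2 q1
    rw [← mul_sub, ← d1_sub, ← d1_sub] at this
    have e1 : (fun s => v s C.a1 - pC P C s C.a1 - (pC P C' s C.a1 - pC P C s C.a1)) =
        fun s => v s C.a1 - pC P C' s C.a1 := by funext s; ring
    have e2 : (fun s => v1 s C.a1 - pC1 P C s C.a1 - (pC1 P C' s C.a1 - pC1 P C s C.a1)) =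
        fun s => v1 s C.a1 - pC1 P C' s C.a1 := by funext s; ring
    rwa [e1, e2] at this
  · have := Psi_jump (by positivity) (hi.l2 a ha b hb c hc hab hbc hac)
      (f2 a ha b hb c hc hab hbc hac).1 (f2 a ha b hb c hc hab hbc hac).2 q2
    rw [← mul_sub, ← d2_sub, ← d2_sub] at this
    have e1 : (fun s => v s C.a1 - pC P C s C.a1 - (pC P C' s C.a1 - pC P C s C.a1)) =
        fun s => v s C.a1 - pC P C' s C.a1 := by funext s; ring
    have e2 : (fun s => v1 s C.a1 - pC1 P C s C.a1 - (pC1 P C' s C.a1 - pC1 P C s C.a1)) =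
        fun s => v1 s C.a1 - pC1 P C' s C.a1 := by funext s; ring
    rwa [e1, e2] at this

/-- initial data of the section family -/
theorem init2_facts {P : Par} {C : CellD} {sc sr : ℕ} (h : init2OK P sc sr C = true) :
    C.a0 = 1 ∧ ∃ j0 j1 k0 k1 : ℝ, 0 ≤ j0 ∧ 0 ≤ j1 ∧ 0 ≤ k0 ∧ 0 ≤ k1 ∧
      k0 + 3 / 2 * j0 ≤ C.i0 / 2 ^ P.s ∧ k1 + 3 / 2 * j1 ≤ C.i1 / 2 ^ P.s ∧
      (∀ a ∈ Icc (-1:ℝ) 1, |pC P C a 1 - 45 / 128| ≤ j0 ∧
        |pC1 P C a 1 + ((sc : ℝ) + sr * a) / 2 ^ P.s| ≤ k0) ∧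
      (∀ a ∈ Icc (-1:ℝ) 1, ∃ r r' : ℝ, HasDerivAt (fun s => pC P C s 1) r a ∧ |r| ≤ j1 ∧
        HasDerivAt (fun s => pC1 P C s 1) r' a ∧ |r' + sr / 2 ^ P.s| ≤ k1) := by
  unfold init2OK at h
  simp only [Bool.and_eq_true] at h
  obtain ⟨⟨⟨⟨⟨⟨h1, h2⟩, h3⟩, h4⟩, h5⟩, h6⟩, h⟩ := h
  obtain ⟨p, n, dp, dn, h, hv⟩ := evAll_elim h
  obtain ⟨p1, n1', dp1, dn1, h, hone⟩ := ones_elim h
  simp only [force_eq] at h
  obtain ⟨d, h, -, -, hd⟩ := nrmD_elim h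
  obtain ⟨e, h, -, -, he⟩ := nrmD_elim h
  simp only [Bool.and_eq_true] at h
  obtain ⟨hi0, hi1⟩ := h
  have e1 : C.M - C.H = 2 ^ C.g := Nat.eq_of_beq_eq_true h1
  have hH : 0 < C.H := Nat.lt_of_succ_le (Nat.le_of_ble_eq_true h2)
  have hM : C.H ≤ C.M := Nat.le_of_ble_eq_true h3
  have hs7 : 7 ≤ P.s := Nat.le_of_ble_eq_true h5
  have hHr : (0:ℝ) < C.H := by exact_mod_cast hH
  have hcast : ((C.M - C.H : ℕ) : ℝ) = (C.M : ℝ) - C.H := Nat.cast_sub hM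
  have e2 : (C.M : ℝ) - C.H = 2 ^ C.g := by rw [← hcast, e1]; push_cast; rfl
  have ea : C.a0 = 1 := by
    unfold CellD.a0
    rw [e2]; exact div_self (by positivity)
  have hS : (0:ℝ) < 2 ^ P.s := by positivity
  have hSn : 0 < 2 ^ P.s := by positivity
  have hS7 : (2:ℝ) ^ P.s = 2 ^ (P.s - 7) * 128 := by
    have : P.s = (P.s - 7) + 7 := by omega
    conv_lhs => rw [this, pow_add]
    norm_num
  have hφ : ∀ a, pC P C a 1 - 45 / 128 = ev1 d a / 2 ^ P.s := by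
    intro a
    have e3 := pC_a0 (P := P) (C := C) hH a
    rw [ea] at e3
    rw [e3, hd a]
    obtain ⟨w1, w2, w3, w4⟩ := hv a
    obtain ⟨-, u2, -, -⟩ := hone (P.da + 1) P.O (C.rows P) (rows_length P C) (rows_row_length P C) a
    obtain ⟨R, hR⟩ : ∃ R, ev1 (toZ 0 (repN 1 (P.da + 1))) a = R := ⟨_, rfl⟩
    have hrep : ∀ v, ev1 (toZ 0 (repN v (P.da + 1))) a = v * R := fun v => by
      rw [← hR]; exact ev1_repN v _ a
    rw [hR] at u2
    unfold CellD.poly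
    rw [u2, w2]
    simp only [ev1_addL, toZ_single, hrep, Nat.mul_eq]
    push_cast
    rw [hS7]
    field_simp
    ring
  have hψ : ∀ a, pC1 P C a 1 + ((sc : ℝ) + sr * a) / 2 ^ P.s = ev1 e a / (C.H * 2 ^ P.s) := by
    intro a
    have e3 := pC1_a0 (P := P) (C := C) hH a
    rw [ea, one_mul] at e3
    rw [e3, he a]
    obtain ⟨w1, w2, w3, w4⟩ := hv a
    obtain ⟨-, -, -, u2⟩ := hone (P.da + 1) P.O (C.rows P) (rows_length P C) (rows_row_length P C) a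
    obtain ⟨R, hR⟩ : ∃ R, ev1 (toZ 0 (repN 1 (P.da + 1))) a = R := ⟨_, rfl⟩
    have hrep : ∀ v, ev1 (toZ 0 (repN v (P.da + 1))) a = v * R := fun v => by
      rw [← hR]; exact ev1_repN v _ a
    rw [hR] at u2
    unfold CellD.poly
    rw [u2, w4]
    simp only [ev1_addL, ev1_scL, toZ_pair, hrep, Nat.mul_eq]
    push_cast
    rw [hcast]
    field_simp
    ring
  have hc1 : (0:ℝ) < C.H * 2 ^ P.s := by positivity
  have hble : ∀ {k j i : ℕ}, Nat.ble (Nat.add (cdiv k C.H) (cdiv (Nat.mul 3 j) 2)) i = true →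
      (k : ℝ) / (C.H * 2 ^ P.s) + 3 / 2 * ((j : ℝ) / 2 ^ P.s) ≤ i / 2 ^ P.s := by
    intro k j i hk
    have h1 : Nat.ble (Nat.add 0 (Nat.add (cdiv k C.H) (cdiv (Nat.mul 3 j) 2))) i = true := by
      simpa using hk
    have := cmp_le (S := 2 ^ P.s) hSn hH h1
    push_cast at this
    rw [zero_div, zero_add] at this
    exact this
  refine ⟨ea, n0 d / 2 ^ P.s, n1 d / 2 ^ P.s, n0 e / (C.H * 2 ^ P.s), n1 e / (C.H * 2 ^ P.s),
    by positivity, by positivity, by positivity, by positivity, hble hi0, hble hi1, ?_, ?_⟩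
  · intro a ha
    exact ⟨list_bd0 (φ := fun s => pC P C s 1 - 45 / 128) hS hφ ha,
      list_bd0 (φ := fun s => pC1 P C s 1 + ((sc : ℝ) + sr * s) / 2 ^ P.s) hc1 hψ ha⟩
  · intro a ha
    obtain ⟨r, r1, r2⟩ := list_der (φ := fun s => pC P C s 1 - 45 / 128) hS hφ ha
    obtain ⟨r', r1', r2'⟩ :=
      list_der (φ := fun s => pC1 P C s 1 + ((sc : ℝ) + sr * s) / 2 ^ P.s) hc1 hψ ha
    refine ⟨r, r' - sr / 2 ^ P.s, ?_, r2, ?_, ?_⟩
    · have h7 := r1.add_const (45 / 128 : ℝ)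
      simpa using h7
    · have h8 : HasDerivAt (fun s : ℝ => ((sc : ℝ) + sr * s) / 2 ^ P.s) ((sr * 1) / 2 ^ P.s) a :=
        (((hasDerivAt_id' a).const_mul (sr : ℝ)).const_add (sc : ℝ)).div_const (2 ^ P.s)
      have h9 := r1'.sub h8
      simp only [mul_one] at h9
      refine h9.congr_of_eventuallyEq (Filter.Eventually.of_forall fun s => ?_)
      simp
    · simpa using r2'

/-! ### explicit form of `evAll` and lengths -/

noncomputable def evP (D : List (List ℕ)) : List ℕ := evAll D (fun p _ _ _ => p)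
noncomputable def evN (D : List (List ℕ)) : List ℕ := evAll D (fun _ n _ _ => n)
noncomputable def evDP (D : List (List ℕ)) : List ℕ := evAll D (fun _ _ dp _ => dp)
noncomputable def evDN (D : List (List ℕ)) : List ℕ := evAll D (fun _ _ _ dn => dn)

theorem jmp_evAll_cons {β : Type} (r : List ℕ) (D : List (List ℕ))
    (k : List ℕ → List ℕ → List ℕ → List ℕ → β) :
    evAll (r :: D) k = evAll D (fun p n dp dn => k (addL r n) p (addL p dn) (addL n dp)) := rfl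

theorem evAll_eq (D : List (List ℕ)) :
    ∀ {β : Type} (k : List ℕ → List ℕ → List ℕ → List ℕ → β),
    evAll D k = k (evP D) (evN D) (evDP D) (evDN D) := by
  induction D with
  | nil => intro β k; rfl
  | cons r D ih =>
    intro β k
    rw [jmp_evAll_cons, ih]
    unfold evP evN evDP evDN
    simp only [jmp_evAll_cons]
    rw [ih (fun p n dp dn => addL r n), ih (fun p n dp dn => p), ih (fun p n dp dn => addL p dn),
      ih (fun p n dp dn => addL n dp)]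
    rfl

theorem length_addL (l m : List ℕ) : (addL l m).length = max l.length m.length := by
  induction l generalizing m with
  | nil => simp [addL]
  | cons a l ih =>
    have : addL (a :: l) m = Nat.add a (m.headD 0) :: addL l m.tail := rfl
    rw [this]
    cases m with
    | nil => simp [ih]
    | cons b m => simp [ih, Nat.succ_max_succ]

theorem length_scL (c : ℕ) (l : List ℕ) : (scL c l).length = l.length := by
  induction l with
  | nil => rfl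
  | cons a l ih =>
    have : scL c (a :: l) = Nat.mul c a :: scL c l := rfl
    rw [this]; simp [ih]

theorem ev_lengths {w : ℕ} {D : List (List ℕ)} (h : ∀ r ∈ D, r.length = w) :
    (evP D).length ≤ w ∧ (evN D).length ≤ w ∧ (evDP D).length ≤ w ∧ (evDN D).length ≤ w ∧
      (D ≠ [] → (evP D).length = w) := by
  induction D with
  | nil => simp [evP, evN, evDP, evDN, evAll]
  | cons r D ih =>
    have hr : r.length = w := h r (by simp)
    obtain ⟨i1, i2, i3, i4, -⟩ := ih (fun r hr => h r (by simp [hr]))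
    have e1 : evP (r :: D) = addL r (evN D) := by
      unfold evP; rw [jmp_evAll_cons, evAll_eq]
    have e2 : evN (r :: D) = evP D := by
      unfold evN; rw [jmp_evAll_cons, evAll_eq]
    have e3 : evDP (r :: D) = addL (evP D) (evDN D) := by
      unfold evDP; rw [jmp_evAll_cons, evAll_eq]
    have e4 : evDN (r :: D) = addL (evN D) (evDP D) := by
      unfold evDN; rw [jmp_evAll_cons, evAll_eq]
    rw [e1, e2, e3, e4]
    simp only [length_addL]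
    refine ⟨?_, ?_, ?_, ?_, fun _ => ?_⟩ <;> omega

theorem ev_dlength {w : ℕ} {D : List (List ℕ)} (h : ∀ r ∈ D, r.length = w) (hD : 2 ≤ D.length) :
    (addL (evDP D) (evDN D)).length = w := by
  match D, hD with
  | r :: r' :: D, _ =>
    have h' : ∀ s ∈ r' :: D, s.length = w := fun s hs => h s (by simp at hs ⊢; tauto)
    obtain ⟨i1, i2, i3, i4, -⟩ := ev_lengths h
    have i5 := (ev_lengths h').2.2.2.2 (by simp)
    have e3 : evDP (r :: r' :: D) = addL (evP (r' :: D)) (evDN (r' :: D)) := by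
      unfold evDP; rw [jmp_evAll_cons, evAll_eq]
    have i6 : (evDP (r :: r' :: D)).length = w := by
      rw [e3] at i3 ⊢
      rw [length_addL] at i3 ⊢
      omega
    rw [length_addL]
    omega

/-- `evAll_spec` for the explicit lists -/
theorem ev_spec (D : List (List ℕ)) (a : ℝ) :
      ev2 (toI 0 D) 1 a = ev1 (toZ 0 (evP D)) a + ev1 (toZ 0 (evN D)) a ∧
      ev2 (toI 0 D) (-1) a = ev1 (toZ 0 (evP D)) a - ev1 (toZ 0 (evN D)) a ∧
      ev2 (der2 (toI 0 D)) 1 a = ev1 (toZ 0 (evDP D)) a + ev1 (toZ 0 (evDN D)) a ∧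
      ev2 (der2 (toI 0 D)) (-1) a = ev1 (toZ 0 (evDP D)) a - ev1 (toZ 0 (evDN D)) a := by
  obtain ⟨p, n, dp, dn, h1, h2⟩ := evAll_spec D (fun p n dp dn => (p, n, dp, dn))
  rw [evAll_eq] at h1
  simp only [Prod.mk.injEq] at h1
  obtain ⟨e1, e2, e3, e4⟩ := h1
  rw [e1, e2, e3, e4]
  exact h2 a

/-! ### the shift -/

theorem jmp_toZ_cons (x : ℕ) (l : List ℕ) : toZ 0 (x :: l) = (x : ℤ) :: toZ 0 l := by
  simp [toZ]

theorem shL_spec {β : Type} (neg : Bool) (p w : ℕ) (lp : List ℕ) :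
    ∀ (lm : List ℕ) (k : List ℕ → List ℕ → ℕ → β), lm.length ≤ lp.length →
    ∃ QP QM : List ℕ, shL neg p w lp lm k = k QP QM (2 ^ (w * lp.length)) ∧
      ∀ b : ℝ, (ev1 (toZ 0 QP) b - ev1 (toZ 0 QM) b) * 2 ^ w = 2 ^ (w * lp.length) *
        (ev1 (toZ 0 lp) (((if neg then -(p : ℝ) else p) + b) / 2 ^ w) -
          ev1 (toZ 0 lm) (((if neg then -(p : ℝ) else p) + b) / 2 ^ w)) := by
  induction lp with
  | nil =>
    intro lm k hl
    have : lm = [] := List.eq_nil_of_length_eq_zero (by simpa using hl)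
    subst this
    exact ⟨[], [], by simp [shL], fun b => by simp [toZ]⟩
  | cons x lp ih =>
    intro lm k hl
    have hl' : lm.tail.length ≤ lp.length := by
      simp only [List.length_tail, List.length_cons] at hl ⊢; omega
    have hstep : shL neg p w (x :: lp) lm k = shL neg p w lp lm.tail (fun QP QM W =>
      cond neg
        (k (addL (scL p QM) (Nat.mul x W :: QP)) (addL (scL p QP) (Nat.mul (lm.headD 0) W :: QM))
          (Nat.mul W (Nat.pow 2 w)))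
        (k (addL (scL p QP) (Nat.mul x W :: QP)) (addL (scL p QM) (Nat.mul (lm.headD 0) W :: QM))
          (Nat.mul W (Nat.pow 2 w)))) := rfl
    obtain ⟨QP, QM, h1, h2⟩ := ih lm.tail (fun QP QM W =>
      cond neg
        (k (addL (scL p QM) (Nat.mul x W :: QP)) (addL (scL p QP) (Nat.mul (lm.headD 0) W :: QM))
          (Nat.mul W (Nat.pow 2 w)))
        (k (addL (scL p QP) (Nat.mul x W :: QP)) (addL (scL p QM) (Nat.mul (lm.headD 0) W :: QM))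
          (Nat.mul W (Nat.pow 2 w)))) hl'
    rw [hstep, h1]
    have hW : Nat.mul (2 ^ (w * lp.length)) (Nat.pow 2 w) = 2 ^ (w * (x :: lp).length) := by
      simp only [Nat.mul_eq, Nat.pow_eq, List.length_cons, mul_add, mul_one, pow_add]
    have hlm : ∀ y : ℝ, ev1 (toZ 0 lm) y = (lm.headD 0 : ℕ) + y * ev1 (toZ 0 lm.tail) y := by
      intro y
      cases lm with
      | nil => simp [toZ]
      | cons c lm => simp [jmp_toZ_cons]
    have hW' : (2:ℝ) ^ (w * (x :: lp).length) = 2 ^ (w * lp.length) * 2 ^ w := by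
      simp only [List.length_cons, mul_add, mul_one, pow_add]
    cases neg with
    | true =>
      refine ⟨addL (scL p QM) (Nat.mul x (2 ^ (w * lp.length)) :: QP),
        addL (scL p QP) (Nat.mul (lm.headD 0) (2 ^ (w * lp.length)) :: QM), ?_, ?_⟩
      · rw [hW]; rfl
      · intro b
        have h3 := h2 b
        simp only [if_true] at h3 ⊢
        set y : ℝ := (-(p : ℝ) + b) / 2 ^ w with hy
        have hyb : -(p : ℝ) + b = y * 2 ^ w := by rw [hy]; field_simp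
        rw [hlm y, jmp_toZ_cons x lp, ev1_cons, hW']
        simp only [ev1_addL, ev1_scL, jmp_toZ_cons, ev1_cons, Nat.mul_eq]
        push_cast
        have hb : b = y * 2 ^ w + p := by linarith
        set T : ℝ := ev1 (toZ 0 lp) y
        set T' : ℝ := ev1 (toZ 0 lm.tail) y
        set A : ℝ := ev1 (toZ 0 QP) b
        set B : ℝ := ev1 (toZ 0 QM) b
        have h4 : ((p : ℝ) * B + (x * 2 ^ (w * lp.length) + b * A) -
          (p * A + ((lm.headD 0 : ℕ) * 2 ^ (w * lp.length) + b * B))) * 2 ^ w =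
          (x - (lm.headD 0 : ℕ)) * 2 ^ (w * lp.length) * 2 ^ w + (-(p:ℝ) + b) * ((A - B) * 2 ^ w) := by
          ring
        rw [h4, h3, hyb]
        ring
    | false =>
      refine ⟨addL (scL p QP) (Nat.mul x (2 ^ (w * lp.length)) :: QP),
        addL (scL p QM) (Nat.mul (lm.headD 0) (2 ^ (w * lp.length)) :: QM), ?_, ?_⟩
      · rw [hW]; rfl
      · intro b
        have h3 := h2 b
        simp only [Bool.false_eq_true, if_false] at h3 ⊢
        set y : ℝ := ((p : ℝ) + b) / 2 ^ w with hy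
        have hyb : (p : ℝ) + b = y * 2 ^ w := by rw [hy]; field_simp
        rw [hlm y, jmp_toZ_cons x lp, ev1_cons, hW']
        simp only [ev1_addL, ev1_scL, jmp_toZ_cons, ev1_cons, Nat.mul_eq]
        push_cast
        set T : ℝ := ev1 (toZ 0 lp) y
        set T' : ℝ := ev1 (toZ 0 lm.tail) y
        set A : ℝ := ev1 (toZ 0 QP) b
        set B : ℝ := ev1 (toZ 0 QM) b
        have h4 : ((p : ℝ) * A + (x * 2 ^ (w * lp.length) + b * A) -
          (p * B + ((lm.headD 0 : ℕ) * 2 ^ (w * lp.length) + b * B))) * 2 ^ w =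
          (x - (lm.headD 0 : ℕ)) * 2 ^ (w * lp.length) * 2 ^ w + ((p:ℝ) + b) * ((A - B) * 2 ^ w) := by
          ring
        rw [h4, h3, hyb]
        ring


/-! ### bounds on a segment -/

theorem shbnd_elim {neg : Bool} {q w da : ℕ} {lp lm : List ℕ} {k : ℤ → ℕ → ℤ → ℕ → Bool}
    (h : (shL neg q w lp lm fun QP QM _ => bnd1 QP QM k) = true)
    (hl : lp.length = da + 1) (hm : lm.length = da + 1) {σ : ℝ}
    (hσ : (if neg then -(q:ℝ) else q) = σ) {Φ : ℝ → ℝ}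
    (hΦ : ∀ a, Φ a = ev1 (toZ 0 lp) a - ev1 (toZ 0 lm) a) :
    ∃ (c0 : ℤ) (r : ℕ) (c1 : ℤ) (r1 : ℕ), k c0 r c1 r1 = true ∧
      (∀ y ∈ Icc ((σ - 1) / 2 ^ w) ((σ + 1) / 2 ^ w), |Φ y * 2 ^ (w * da) - c0| ≤ r) ∧
      (∀ y ∈ Icc ((σ - 1) / 2 ^ w) ((σ + 1) / 2 ^ w),
        ∀ y' ∈ Icc ((σ - 1) / 2 ^ w) ((σ + 1) / 2 ^ w), y ≠ y' →
        |d1 Φ y y' * 2 ^ (w * da) - 2 ^ w * c1| ≤ 2 ^ w * r1) ∧
      (∀ y ∈ Icc ((σ - 1) / 2 ^ w) ((σ + 1) / 2 ^ w), ∀ R : ℝ, HasDerivAt Φ R y →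
        |R * 2 ^ (w * da) - 2 ^ w * c1| ≤ 2 ^ w * r1) := by
  obtain ⟨QP, QM, h1, h2⟩ := shL_spec neg q w lp lm (fun QP QM _ => bnd1 QP QM k) (by omega)
  rw [h1] at h
  unfold bnd1 at h
  obtain ⟨d, h, hd0, -, hd⟩ := nrmD_elim h
  set c0 : ℤ := (QP.headD 0 : ℤ) - (QM.headD 0 : ℤ) with hc0
  set c1 : ℤ := (QP.tail.headD 0 : ℤ) - (QM.tail.headD 0 : ℤ) with hc1
  have hw : (0:ℝ) < 2 ^ w := by positivity
  -- the polynomial in `b`
  have hhead : ∀ (l : List ℕ) (y : ℝ), ev1 (toZ 0 l) y = (l.headD 0 : ℕ) + y * ev1 (toZ 0 l.tail) y := by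
    intro l y
    cases l with
    | nil => simp [toZ]
    | cons c l => simp [jmp_toZ_cons]
  have hB : ∀ b : ℝ, ev1 (c0 :: d) b = Φ ((σ + b) / 2 ^ w) * 2 ^ (w * da) := by
    intro b
    have h3 := h2 b
    rw [hσ, ← hΦ, hl] at h3
    have h4 : (2:ℝ) ^ (w * (da + 1)) = 2 ^ (w * da) * 2 ^ w := by
      rw [mul_add, mul_one, pow_add]
    rw [h4] at h3
    have h5 : ev1 (toZ 0 QP) b - ev1 (toZ 0 QM) b = 2 ^ (w * da) * Φ ((σ + b) / 2 ^ w) := by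
      have : (ev1 (toZ 0 QP) b - ev1 (toZ 0 QM) b) * 2 ^ w =
          (2 ^ (w * da) * Φ ((σ + b) / 2 ^ w)) * 2 ^ w := by rw [h3]; ring
      exact mul_right_cancel₀ hw.ne' this
    rw [ev1_cons, hd b, mul_comm (Φ _), ← h5, hhead QP b, hhead QM b, hc0]
    push_cast
    ring
  have hB' : ∀ y : ℝ, Φ y * 2 ^ (w * da) = ev1 (c0 :: d) (2 ^ w * y - σ) := by
    intro y
    rw [hB]
    congr 2
    field_simp
    ring
  have hmem : ∀ y ∈ Icc ((σ - 1) / 2 ^ w) ((σ + 1) / 2 ^ w), |2 ^ w * y - σ| ≤ 1 := by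
    intro y hy
    have h6 := (div_le_iff₀ hw).1 hy.1
    have h7 := (le_div_iff₀ hw).1 hy.2
    rw [abs_le]
    constructor <;> linarith
  have hn : c1.natAbs ≤ n0 d := by
    rw [← hd0]
    cases d with
    | nil => simp
    | cons x d => simp [n0]
  have hr1 : ((Nat.sub (Nat.add (n0 d) (n1 d)) c1.natAbs : ℕ) : ℝ) =
      (n0 d : ℝ) + n1 d - |(c1 : ℝ)| := by
    have : Nat.sub (Nat.add (n0 d) (n1 d)) c1.natAbs = n0 d + n1 d - c1.natAbs := rfl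
    rw [this, Nat.cast_sub (by omega)]
    push_cast
    rw [Nat.cast_natAbs]
    push_cast
    rfl
  refine ⟨c0, n0 d, c1, Nat.sub (Nat.add (n0 d) (n1 d)) c1.natAbs, h, ?_, ?_, ?_⟩
  · intro y hy
    rw [hB']
    have := ev1_head (c0 :: d) (hmem y hy)
    simpa using this
  · intro y hy y' hy' hne
    have hne' : 2 ^ w * y - σ ≠ 2 ^ w * y' - σ := by
      intro hcon
      apply hne
      have : 2 ^ w * y = 2 ^ w * y' := by linarith
      exact mul_left_cancel₀ hw.ne' this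
    have h8 := ev1_head1 (c0 :: d) (hmem y hy) (hmem y' hy') hne'
    simp only [List.tail_cons] at h8
    rw [hd0] at h8
    rw [hr1]
    have h9 : d1 Φ y y' * 2 ^ (w * da) = 2 ^ w * ((ev1 (c0 :: d) (2 ^ w * y' - σ) -
        ev1 (c0 :: d) (2 ^ w * y - σ)) / ((2 ^ w * y' - σ) - (2 ^ w * y - σ))) := by
      rw [← hB', ← hB']
      unfold d1
      have hne2 : y' - y ≠ 0 := sub_ne_zero.2 (Ne.symm hne)
      have e1 : (2 ^ w * y' - σ) - (2 ^ w * y - σ) = 2 ^ w * (y' - y) := by ring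
      rw [e1]
      field_simp
    rw [h9, ← mul_sub, abs_mul, abs_of_pos hw]
    exact mul_le_mul_of_nonneg_left h8 hw.le
  · intro y hy R hR
    obtain ⟨D, g1, g2⟩ := ev1_hasDerivAt (c0 :: d) (2 ^ w * y - σ)
    have g3 := (g2 (hmem y hy)).2
    simp only [List.tail_cons] at g3
    rw [hd0] at g3
    rw [hr1]
    have g4 : HasDerivAt (fun y : ℝ => 2 ^ w * y - σ) (2 ^ w * 1) y :=
      ((hasDerivAt_id' y).const_mul ((2:ℝ) ^ w)).sub_const σ
    have g5 : HasDerivAt (fun y : ℝ => ev1 (c0 :: d) (2 ^ w * y - σ)) (D * (2 ^ w * 1)) y :=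
      HasDerivAt.comp (h₂ := fun x : ℝ => ev1 (c0 :: d) x) (h := fun y : ℝ => 2 ^ w * y - σ) y g1 g4
    have g6 : HasDerivAt (fun y : ℝ => Φ y * 2 ^ (w * da)) (R * 2 ^ (w * da)) y := hR.mul_const _
    have g7 : (fun y : ℝ => Φ y * 2 ^ (w * da)) = fun y : ℝ => ev1 (c0 :: d) (2 ^ w * y - σ) :=
      funext hB'
    rw [g7] at g6
    have g8 := g6.unique g5
    rw [g8]
    have g9 : D * (2 ^ w * 1) - 2 ^ w * (c1 : ℝ) = 2 ^ w * (D - c1) := by ring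
    rw [g9, abs_mul, abs_of_pos hw]
    exact mul_le_mul_of_nonneg_left g3 hw.le

theorem seg_lo {X sc D T l o : ℝ} (hsc : 0 < sc) (h : |X * sc - D| ≤ T)
    (hl : l * sc ≤ D - T - o * sc) : l + o ≤ X := by
  have h1 := (abs_le.1 h).1
  have h2 : (l + o) * sc ≤ X * sc := by linarith
  exact le_of_mul_le_mul_right h2 hsc

theorem seg_hi {X sc D T l o : ℝ} (hsc : 0 < sc) (h : |X * sc - D| ≤ T)
    (hl : D + T + o * sc ≤ l * sc) : X ≤ l - o := by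
  have h1 := (abs_le.1 h).2
  have h2 : X * sc ≤ (l - o) * sc := by linarith
  exact le_of_mul_le_mul_right h2 hsc

theorem segOK_spec {da H o0 o1 w : ℕ} {vp vm yp ym : List ℕ} {i : ℕ} {s : SegC}
    (hvp : vp.length = da + 1) (hvm : vm.length = da + 1) (hyp : yp.length = da + 1)
    (hym : ym.length = da + 1) (hH : 0 < H)
    (h : segOK da H o0 o1 w vp vm yp ym i s = true) {φ ψ : ℝ → ℝ}
    (hφ : ∀ a, φ a = ev1 (toZ 0 vp) a - ev1 (toZ 0 vm) a)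
    (hψ : ∀ a, H * ψ a = ev1 (toZ 0 yp) a - ev1 (toZ 0 ym) a) :
    (∀ a ∈ Icc (segLo w i) (segHi w i), (s.vl : ℝ) + o0 ≤ φ a ∧ φ a ≤ (s.vh : ℝ) - o0 ∧
      (s.yl : ℝ) + 3 / 2 * o0 ≤ ψ a ∧ ψ a ≤ (s.yh : ℝ) - 3 / 2 * o0) ∧
    (∀ a ∈ Icc (segLo w i) (segHi w i), ∀ b ∈ Icc (segLo w i) (segHi w i), a ≠ b →
      (s.Dl : ℝ) + o1 ≤ d1 φ a b ∧ d1 φ a b ≤ (s.Dh : ℝ) - o1 ∧
      (s.El : ℝ) + 3 / 2 * o1 ≤ d1 ψ a b ∧ d1 ψ a b ≤ (s.Eh : ℝ) - 3 / 2 * o1) ∧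
    (∀ a ∈ Icc (segLo w i) (segHi w i), ∀ r r' : ℝ, HasDerivAt φ r a → HasDerivAt ψ r' a →
      (s.Dl : ℝ) + o1 ≤ r ∧ r ≤ (s.Dh : ℝ) - o1 ∧
      (s.El : ℝ) + 3 / 2 * o1 ≤ r' ∧ r' ≤ (s.Eh : ℝ) - 3 / 2 * o1) := by
  have hσ : (if Nat.blt (2 * i + 1) (2 ^ w) then
      -((((2 * i + 1 - 2 ^ w) + (2 ^ w - (2 * i + 1)) : ℕ)) : ℝ) else
      (((2 * i + 1 - 2 ^ w) + (2 ^ w - (2 * i + 1)) : ℕ) : ℝ)) = 2 * (i : ℝ) + 1 - 2 ^ w := by
    by_cases hlt : 2 * i + 1 < 2 ^ w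
    · have h1 : Nat.blt (2 * i + 1) (2 ^ w) = true := by
        unfold Nat.blt; exact Nat.ble_eq_true_of_le hlt
      rw [if_pos h1]
      have h2 : 2 * i + 1 - 2 ^ w = 0 := by omega
      rw [h2, zero_add, Nat.cast_sub hlt.le]
      push_cast
      ring
    · have h1 : ¬ (Nat.blt (2 * i + 1) (2 ^ w) = true) := by
        intro hc; exact hlt (Nat.le_of_ble_eq_true hc)
      rw [if_neg h1]
      have h2 : 2 ^ w - (2 * i + 1) = 0 := by omega
      rw [h2, add_zero, Nat.cast_sub (not_lt.1 hlt)]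
      push_cast
      ring
  unfold segOK at h
  simp only at h
  obtain ⟨c0, r, c1, r1, h, a1, a2, a3⟩ := shbnd_elim h hvp hvm hσ hφ
  obtain ⟨e0, t, e1, t1, h, b1, b2, b3⟩ := shbnd_elim (Φ := fun a => H * ψ a) h hyp hym hσ hψ
  simp only [Bool.and_eq_true, decide_eq_true_eq] at h
  obtain ⟨⟨⟨⟨⟨⟨⟨z1, z2⟩, z3⟩, z4⟩, z5⟩, z6⟩, z7⟩, z8⟩ := h
  have hlo : segLo w i = (2 * (i : ℝ) + 1 - 2 ^ w - 1) / 2 ^ w := by unfold segLo; ring
  have hhi : segHi w i = (2 * (i : ℝ) + 1 - 2 ^ w + 1) / 2 ^ w := by unfold segHi; ring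
  rw [hlo, hhi]
  have hsc : (0:ℝ) < 2 ^ (w * da) := by positivity
  have hHr : (0:ℝ) < H := by exact_mod_cast hH
  have z1' : ((s.vl : ℝ)) * 2 ^ (w * da) ≤ c0 - r - o0 * 2 ^ (w * da) := by exact_mod_cast z1
  have z2' : (c0 : ℝ) + r + o0 * 2 ^ (w * da) ≤ s.vh * 2 ^ (w * da) := by exact_mod_cast z2
  have z3' : ((s.Dl : ℝ)) * 2 ^ (w * da) ≤ 2 ^ w * (c1 - r1) - o1 * 2 ^ (w * da) := by
    exact_mod_cast z3
  have z4' : 2 ^ w * ((c1 : ℝ) + r1) + o1 * 2 ^ (w * da) ≤ s.Dh * 2 ^ (w * da) := by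
    exact_mod_cast z4
  have z5' : 2 * ((s.yl : ℝ)) * (2 ^ (w * da) * H) ≤ 2 * (e0 - t) - 3 * o0 * (2 ^ (w * da) * H) := by
    exact_mod_cast z5
  have z6' : 2 * ((e0 : ℝ) + t) + 3 * o0 * (2 ^ (w * da) * H) ≤ 2 * s.yh * (2 ^ (w * da) * H) := by
    exact_mod_cast z6
  have z7' : 2 * ((s.El : ℝ)) * (2 ^ (w * da) * H) ≤
      2 * 2 ^ w * (e1 - t1) - 3 * o1 * (2 ^ (w * da) * H) := by exact_mod_cast z7
  have z8' : 2 * 2 ^ w * ((e1 : ℝ) + t1) + 3 * o1 * (2 ^ (w * da) * H) ≤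
      2 * s.Eh * (2 ^ (w * da) * H) := by exact_mod_cast z8
  have hsc2 : (0:ℝ) < 2 ^ (w * da) * H := by positivity
  have hre : ∀ X : ℝ, H * X * 2 ^ (w * da) = X * (2 ^ (w * da) * H) := fun X => by ring
  refine ⟨fun a ha => ?_, fun a ha b hb hab => ?_, fun a ha R R' hR hR' => ?_⟩
  · have v1 := a1 a ha
    have v2 := b1 a ha
    simp only [hre] at v2
    exact ⟨seg_lo hsc v1 z1', seg_hi hsc v1 z2', seg_lo hsc2 v2 (by linarith),
      seg_hi hsc2 v2 (by linarith)⟩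
  · have v1 := a2 a ha b hb hab
    have v2 := b2 a ha b hb hab
    rw [d1_smul, hre] at v2
    exact ⟨seg_lo hsc v1 (by linarith), seg_hi hsc v1 (by linarith),
      seg_lo hsc2 v2 (by linarith), seg_hi hsc2 v2 (by linarith)⟩
  · have v1 := a3 a ha R hR
    have v2 := b3 a ha (H * R') (hR'.const_mul _)
    rw [hre] at v2
    exact ⟨seg_lo hsc v1 (by linarith), seg_hi hsc v1 (by linarith),
      seg_lo hsc2 v2 (by linarith), seg_hi hsc2 v2 (by linarith)⟩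

theorem segRec_spec {da H o0 o1 w : ℕ} {vp vm yp ym : List ℕ} (l : List SegC) :
    ∀ j : ℕ, (List.rec (motive := fun _ => ℕ → Bool) (fun _ => true)
      (fun s _ ih i => segOK da H o0 o1 w vp vm yp ym i s && ih (Nat.succ i)) l j) = true →
    ∀ (i : ℕ) (hi : i < l.length), segOK da H o0 o1 w vp vm yp ym (j + i) l[i] = true := by
  induction l with
  | nil => intro j _ i hi; simp at hi
  | cons s l ih =>
    intro j h i hi
    have h' : (segOK da H o0 o1 w vp vm yp ym j s && (List.rec (motive := fun _ => ℕ → Bool)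
      (fun _ => true)
      (fun s _ ih i => segOK da H o0 o1 w vp vm yp ym i s && ih (Nat.succ i)) l (Nat.succ j))) =
        true := h
    rw [Bool.and_eq_true] at h'
    cases i with
    | zero => simpa using h'.1
    | succ i =>
      have := ih (Nat.succ j) h'.2 i (by simpa using hi)
      have e : Nat.succ j + i = j + (i + 1) := by omega
      rw [e] at this
      simpa using this

/-- polynomial level facts behind `segsOK`; `S = 2^P.s`, `z0 = o0/S`, `z1 = o1/S` -/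
theorem segs_facts {P : Par} {C : CellD} {o1 w : ℕ} {sg : List SegC} (hdx : 1 ≤ P.dx)
    (h : segsOK P C o1 w sg = true) :
    sg.length = 2 ^ w ∧ ∀ (i : ℕ) (hi : i < sg.length),
      (∀ a ∈ Icc (segLo w i) (segHi w i),
        ((sg[i].vl : ℝ) + C.o0) / 2 ^ P.s ≤ pC P C a C.a1 ∧
        pC P C a C.a1 ≤ ((sg[i].vh : ℝ) - C.o0) / 2 ^ P.s ∧
        ((sg[i].yl : ℝ) + 3 / 2 * C.o0) / 2 ^ P.s ≤ C.a1 * pC1 P C a C.a1 ∧
        C.a1 * pC1 P C a C.a1 ≤ ((sg[i].yh : ℝ) - 3 / 2 * C.o0) / 2 ^ P.s) ∧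
      (∀ a ∈ Icc (segLo w i) (segHi w i), ∀ b ∈ Icc (segLo w i) (segHi w i), a ≠ b →
        ((sg[i].Dl : ℝ) + o1) / 2 ^ P.s ≤ d1 (fun s => pC P C s C.a1) a b ∧
        d1 (fun s => pC P C s C.a1) a b ≤ ((sg[i].Dh : ℝ) - o1) / 2 ^ P.s ∧
        ((sg[i].El : ℝ) + 3 / 2 * o1) / 2 ^ P.s ≤ C.a1 * d1 (fun s => pC1 P C s C.a1) a b ∧
        C.a1 * d1 (fun s => pC1 P C s C.a1) a b ≤ ((sg[i].Eh : ℝ) - 3 / 2 * o1) / 2 ^ P.s) ∧
      (∀ a ∈ Icc (segLo w i) (segHi w i), ∀ r r' : ℝ,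
        HasDerivAt (fun s => pC P C s C.a1) r a → HasDerivAt (fun s => pC1 P C s C.a1) r' a →
        ((sg[i].Dl : ℝ) + o1) / 2 ^ P.s ≤ r ∧ r ≤ ((sg[i].Dh : ℝ) - o1) / 2 ^ P.s ∧
        ((sg[i].El : ℝ) + 3 / 2 * o1) / 2 ^ P.s ≤ C.a1 * r' ∧
        C.a1 * r' ≤ ((sg[i].Eh : ℝ) - 3 / 2 * o1) / 2 ^ P.s) := by
  unfold segsOK at h
  simp only [Bool.and_eq_true] at h
  obtain ⟨⟨⟨h1, h2⟩, h3⟩, h⟩ := h
  rw [evAll_eq] at h
  obtain ⟨p1, n1', dp1, dn1, h, hone⟩ := ones_elim h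
  simp only [forceL_eq] at h
  have hH : 0 < C.H := Nat.lt_of_succ_le (Nat.le_of_ble_eq_true h1)
  have hlen : sg.length = 2 ^ w := Nat.eq_of_beq_eq_true h3
  refine ⟨hlen, fun i hi => ?_⟩
  have h4 := segRec_spec sg 0 h i hi
  rw [zero_add] at h4
  have hS : (0:ℝ) < 2 ^ P.s := by positivity
  have hHr : (0:ℝ) < C.H := by exact_mod_cast hH
  have hlenD : (C.rows P).length = P.dx + 1 := rows_length P C
  have hrow := rows_row_length P C
  obtain ⟨l1, l2, l3, l4, l5⟩ := ev_lengths hrow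
  have l5' := l5 (by intro hc; rw [hc] at hlenD; simp at hlenD)
  have l6 : (addL (evP (C.rows P)) (evN (C.rows P))).length = P.da + 1 := by
    rw [length_addL]; omega
  have l7 : (scL (Nat.add C.M C.H) (addL (evDP (C.rows P)) (evDN (C.rows P)))).length = P.da + 1 := by
    rw [length_scL]; exact ev_dlength hrow (by omega)
  have l8 : ∀ v, (repN v (P.da + 1)).length = P.da + 1 := fun v => by
    rw [repN_eq]; simp
  have hφ : ∀ a, 2 ^ P.s * pC P C a C.a1 =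
      ev1 (toZ 0 (addL (evP (C.rows P)) (evN (C.rows P)))) a -
      ev1 (toZ 0 (repN (Nat.mul P.O (Nat.add (p1.headD 0) (n1'.headD 0))) (P.da + 1))) a := by
    intro a
    rw [pC_a1 hH]
    obtain ⟨w1, w2, w3, w4⟩ := ev_spec (C.rows P) a
    obtain ⟨u1, -, -, -⟩ := hone (P.da + 1) P.O (C.rows P) hlenD hrow a
    obtain ⟨R, hR⟩ : ∃ R, ev1 (toZ 0 (repN 1 (P.da + 1))) a = R := ⟨_, rfl⟩
    have hrep : ∀ v, ev1 (toZ 0 (repN v (P.da + 1))) a = v * R := fun v => by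
      rw [← hR]; exact ev1_repN v _ a
    rw [hR] at u1
    unfold CellD.poly
    rw [u1, w1]
    simp only [ev1_addL, hrep, Nat.mul_eq, Nat.add_eq]
    push_cast
    field_simp
  have hψ : ∀ a, C.H * (2 ^ P.s * (C.a1 * pC1 P C a C.a1)) =
      ev1 (toZ 0 (scL (Nat.add C.M C.H) (addL (evDP (C.rows P)) (evDN (C.rows P))))) a -
      ev1 (toZ 0 (repN (Nat.mul (Nat.add C.M C.H)
        (Nat.mul P.O (Nat.add (dp1.headD 0) (dn1.headD 0)))) (P.da + 1))) a := by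
    intro a
    rw [pC1_a1 hH]
    obtain ⟨w1, w2, w3, w4⟩ := ev_spec (C.rows P) a
    obtain ⟨-, -, u1, -⟩ := hone (P.da + 1) P.O (C.rows P) hlenD hrow a
    obtain ⟨R, hR⟩ : ∃ R, ev1 (toZ 0 (repN 1 (P.da + 1))) a = R := ⟨_, rfl⟩
    have hrep : ∀ v, ev1 (toZ 0 (repN v (P.da + 1))) a = v * R := fun v => by
      rw [← hR]; exact ev1_repN v _ a
    rw [hR] at u1
    unfold CellD.poly
    rw [u1, w3]
    simp only [ev1_addL, ev1_scL, hrep, Nat.mul_eq, Nat.add_eq]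
    push_cast
    field_simp
  obtain ⟨f1, f2, f3⟩ := segOK_spec l6 (l8 _) l7 (l8 _) hH h4
    (φ := fun a => 2 ^ P.s * pC P C a C.a1) (ψ := fun a => 2 ^ P.s * (C.a1 * pC1 P C a C.a1)) hφ hψ
  have hd1 : ∀ a b, d1 (fun a => 2 ^ P.s * (C.a1 * pC1 P C a C.a1)) a b =
      2 ^ P.s * (C.a1 * d1 (fun s => pC1 P C s C.a1) a b) := by
    intro a b
    rw [d1_smul, d1_smul]
  refine ⟨fun a ha => ?_, fun a ha b hb hab => ?_, fun a ha r r' hr hr' => ?_⟩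
  · obtain ⟨g1, g2, g3, g4⟩ := f1 a ha
    refine ⟨?_, ?_, ?_, ?_⟩
    · rw [div_le_iff₀ hS, mul_comm]; exact g1
    · rw [le_div_iff₀ hS, mul_comm]; exact g2
    · rw [div_le_iff₀ hS, mul_comm (C.a1 * _)]; exact g3
    · rw [le_div_iff₀ hS, mul_comm (C.a1 * _)]; exact g4
  · obtain ⟨g1, g2, g3, g4⟩ := f2 a ha b hb hab
    rw [d1_smul] at g1 g2
    rw [hd1] at g3 g4
    refine ⟨?_, ?_, ?_, ?_⟩
    · rw [div_le_iff₀ hS, mul_comm]; exact g1
    · rw [le_div_iff₀ hS, mul_comm]; exact g2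
    · rw [div_le_iff₀ hS, mul_comm (C.a1 * _)]; exact g3
    · rw [le_div_iff₀ hS, mul_comm (C.a1 * _)]; exact g4
  · obtain ⟨g1, g2, g3, g4⟩ := f3 a ha _ _ (hr.const_mul (2 ^ P.s))
      ((hr'.const_mul C.a1).const_mul (2 ^ P.s))
    refine ⟨?_, ?_, ?_, ?_⟩
    · rw [div_le_iff₀ hS, mul_comm]; exact g1
    · rw [le_div_iff₀ hS, mul_comm]; exact g2
    · rw [div_le_iff₀ hS, mul_comm (C.a1 * _)]; exact g3
    · rw [le_div_iff₀ hS, mul_comm (C.a1 * _)]; exact g4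

theorem segLo_ge {w i : ℕ} : -1 ≤ segLo w i := by
  unfold segLo
  have hw : (0:ℝ) < 2 ^ w := by positivity
  rw [le_div_iff₀ hw]
  have : (0:ℝ) ≤ i := Nat.cast_nonneg i
  linarith

theorem segHi_le {w i : ℕ} (hi : i < 2 ^ w) : segHi w i ≤ 1 := by
  unfold segHi
  have hw : (0:ℝ) < 2 ^ w := by positivity
  rw [div_le_iff₀ hw]
  have : ((i + 1 : ℕ) : ℝ) ≤ ((2 ^ w : ℕ) : ℝ) := Nat.cast_le.2 hi
  push_cast at this
  linarith

theorem Psi_slope {x y z : ℝ} (hz : 0 ≤ z) (h : Psi x y z) : |x| ≤ z ∧ |y| ≤ 3 / 2 * z := by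
  have h1 : |x| ≤ z := abs_of_Psi hz h
  have h2 : |y + x / 2| ≤ z := by
    apply abs_le_of_sq_le_sq _ hz
    unfold Psi at h
    nlinarith [sq_nonneg x]
  refine ⟨h1, ?_⟩
  have h3 := abs_le.1 h1
  have h4 := abs_le.1 h2
  rw [abs_le]
  constructor <;> linarith [h3.1, h3.2, h4.1, h4.2]

theorem segs_sound {P : Par} {C : CellD} {w : ℕ} {sg : List SegC} (hdx : 1 ≤ P.dx)
    (h : segsOK P C C.o1 w sg = true) {v v1 : ℝ → ℝ → ℝ}
    (hi : Inv v v1 (pC P C) (pC1 P C) C.a1 (C.o0 / 2 ^ P.s) (C.o1 / 2 ^ P.s) (C.o2 / 2 ^ P.s)) :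
    sg.length = 2 ^ w ∧ ∀ (i : ℕ) (hi : i < sg.length),
      SegB (2 ^ P.s) C.a1 (segLo w i) (segHi w i) v v1 sg[i] := by
  obtain ⟨h1, h2⟩ := segs_facts hdx h
  refine ⟨h1, fun i hlt => ?_⟩
  obtain ⟨f1, f2, -⟩ := h2 i hlt
  have hmem : ∀ a ∈ Icc (segLo w i) (segHi w i), a ∈ Icc (-1:ℝ) 1 := fun a ha =>
    ⟨segLo_ge.trans ha.1, ha.2.trans (segHi_le (h1 ▸ hlt))⟩
  have hS : (0:ℝ) < 2 ^ P.s := by positivity
  have hz0 : (0:ℝ) ≤ C.o0 / 2 ^ P.s := by positivity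
  have hz1 : (0:ℝ) ≤ C.o1 / 2 ^ P.s := by positivity
  have k0 := fun a (ha : a ∈ Icc (segLo w i) (segHi w i)) => Psi_slope hz0 (hi.l0 a (hmem a ha))
  have k1 := fun a (ha : a ∈ Icc (segLo w i) (segHi w i)) b
    (hb : b ∈ Icc (segLo w i) (segHi w i)) (hab : a ≠ b) =>
      Psi_slope hz1 (hi.l1 a (hmem a ha) b (hmem b hb) hab)
  refine ⟨fun a ha => ?_, fun a ha => ?_, fun a ha b hb hab => ?_, fun a ha b hb hab => ?_⟩
  · obtain ⟨g1, g2, g3, g4⟩ := f1 a ha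
    have q := abs_le.1 (k0 a ha).1
    rw [add_div] at g1
    rw [sub_div] at g2
    constructor <;> linarith [q.1, q.2]
  · obtain ⟨g1, g2, g3, g4⟩ := f1 a ha
    have q := abs_le.1 (k0 a ha).2
    rw [add_div, mul_div_assoc] at g3
    rw [sub_div, mul_div_assoc] at g4
    constructor <;> linarith [q.1, q.2]
  · obtain ⟨g1, g2, g3, g4⟩ := f2 a ha b hb hab
    have q := abs_le.1 (k1 a ha b hb hab).1
    rw [d1_sub] at q
    rw [add_div] at g1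
    rw [sub_div] at g2
    constructor <;> linarith [q.1, q.2]
  · obtain ⟨g1, g2, g3, g4⟩ := f2 a ha b hb hab
    have q := abs_le.1 (k1 a ha b hb hab).2
    rw [d1_sub] at q
    rw [add_div, mul_div_assoc] at g3
    rw [sub_div, mul_div_assoc] at g4
    constructor <;> linarith [q.1, q.2]

/-- turning boxes: strict convexity in the parameter on the whole cell -/
theorem turn_sound {P : Par} {C : CellD} (hH : 0 < C.H) (h : turnOK P C = true)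
    {v v1 : ℝ → ℝ → ℝ}
    (hi : ∀ t ∈ Icc C.a0 C.a1,
      Inv v v1 (pC P C) (pC1 P C) t (C.o0 / 2 ^ P.s) (C.o1 / 2 ^ P.s) (C.o2 / 2 ^ P.s)) :
    ∀ t ∈ Icc C.a0 C.a1, ∀ a ∈ Icc (-1:ℝ) 1, ∀ b ∈ Icc (-1:ℝ) 1, ∀ c ∈ Icc (-1:ℝ) 1,
      a ≠ b → b ≠ c → a ≠ c → 0 < d2 (fun s => v s t) a b c := by
  intro t ht a ha b hb c hc hab hbc hac
  unfold turnOK at h
  simp only [Bool.and_eq_true] at h
  obtain ⟨⟨h1, h2⟩, h3⟩ := h
  rw [nrmAll_spec] at h3
  have hda : 2 ≤ P.da := Nat.le_of_ble_eq_true h2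
  have h4 : N2 (toI P.O (C.rows P)) + C.o2 + 2 * P.O <
      2 * (((C.rows P).headD []).tail.tail.headD 0) := Nat.lt_of_succ_le (Nat.le_of_ble_eq_true h3)
  have hx := C.x_mem hH ht
  obtain ⟨-, -, -, -, f5⟩ := pC_facts (P := P) hx
  have f6 := f5 a ha b hb c hc hab hbc hac
  have hz2 : (0:ℝ) ≤ C.o2 / 2 ^ P.s := by positivity
  have f7 := abs_le.1 (Psi_slope hz2 ((hi t ht).l2 a ha b hb c hc hab hbc hac)).1
  rw [d2_sub] at f7
  -- the coefficient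
  have hcoef : (((C.poly P).headD []).tail.tail.headD 0 : ℤ) =
      (((C.rows P).headD []).tail.tail.headD 0 : ℕ) - (P.O : ℤ) := by
    have hl := rows_length P C
    have hr := rows_row_length P C
    unfold CellD.poly
    match hrows : C.rows P, hl, hr with
    | r :: D, hl, hr =>
      have hr' := hr r (by simp)
      match r, hr' with
      | x :: y :: z :: r', _ => simp [toI]
      | [x, y], hr' => simp at hr'; omega
      | [x], hr' => simp at hr'; omega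
      | [], hr' => simp at hr'
  rw [hcoef] at f6
  have hS : (0:ℝ) < 2 ^ P.s := by positivity
  have h5 : (N2 (toI P.O (C.rows P)) : ℝ) + C.o2 + 2 * P.O <
      2 * ((((C.rows P).headD []).tail.tail.headD 0 : ℕ) : ℝ) := by exact_mod_cast h4
  have h6 : (C.o2 : ℝ) / 2 ^ P.s < (2 * (((((C.rows P).headD []).tail.tail.headD 0 : ℕ) -
      (P.O : ℤ) : ℤ) : ℝ) - (N2 (C.poly P) : ℝ)) / 2 ^ P.s := by
    apply div_lt_div_of_pos_right _ hS
    unfold CellD.poly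
    push_cast
    linarith
  linarith [f7.1]

end Pool.Agent.H228
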