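import Mathlib
import Pool.Agent.H228.Defs

/-! TASK A (ODE foundation): existence, uniqueness, Lipschitz dependence. -/

set_option autoImplicit false

namespace Pool.Agent.H228

open Set Filter Topology MeasureTheory intervalIntegral

namespace TaskA

lemma cl_mem (v : ℝ) : -1 / 2 ≤ cl v ∧ cl v ≤ 3 := by
  unfold cl
  constructor
  · exact le_max_left _ _
  · apply max_le (by norm_num)
    exact min_le_right _ _

lemma cl_lip (v w : ℝ) : |cl v - cl w| ≤ |v - w| := by
  unfold cl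
  have h1 := abs_max_sub_max_le_abs (min v 3) (min w 3) (-1 / 2)
  have h2 : |min v 3 - min w 3| ≤ |v - w| := by
    have := abs_min_sub_min_le_max v 3 w 3
    simpa using this
  rw [max_comm (-1 / 2) (min v 3), max_comm (-1 / 2) (min w 3)]
  exact h1.trans h2

lemma f_nonneg (v : ℝ) (h : -1 / 2 ≤ v) : 0 ≤ f v := by
  unfold f
  have e : v ^ 4 + v ^ 7 = v ^ 4 * (1 + v ^ 3) := by ring
  rw [e]
  apply mul_nonneg (by positivity)
  nlinarith [sq_nonneg (v - 1 / 2), sq_nonneg v, sq_nonneg (v + 1 / 2)]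

lemma F_nonneg (v : ℝ) : 0 ≤ F v := f_nonneg _ (cl_mem v).1

lemma F_pos {v : ℝ} (hv : 0 < v) : 0 < F v := by
  unfold F f
  have h : 0 < cl v := by
    unfold cl
    apply lt_max_of_lt_right
    exact lt_min hv (by norm_num)
  positivity

lemma F_zero : F 0 = 0 := by
  unfold F f cl
  norm_num

lemma F_le (v : ℝ) : |F v| ≤ 2268 := by
  rw [abs_of_nonneg (F_nonneg v)]
  unfold F f
  obtain ⟨h1, h2⟩ := cl_mem v
  have h3 : |cl v| ≤ 3 := by
    rw [abs_le]
    constructor <;> linarith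
  have h4 : cl v ^ 4 ≤ 3 ^ 4 := by
    calc cl v ^ 4 ≤ |cl v ^ 4| := le_abs_self _
      _ = |cl v| ^ 4 := abs_pow _ _
      _ ≤ 3 ^ 4 := pow_le_pow_left₀ (abs_nonneg _) h3 4
  have h7 : cl v ^ 7 ≤ 3 ^ 7 := by
    calc cl v ^ 7 ≤ |cl v ^ 7| := le_abs_self _
      _ = |cl v| ^ 7 := abs_pow _ _
      _ ≤ 3 ^ 7 := pow_le_pow_left₀ (abs_nonneg _) h3 7
  norm_num at h4 h7
  linarith

lemma f_lip (v w : ℝ) (hv : v ∈ Icc (-3 : ℝ) 3) (hw : w ∈ Icc (-3 : ℝ) 3) :
    |f v - f w| ≤ 5211 * |v - w| := by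
  have hd : ∀ x ∈ Icc (-3 : ℝ) 3, HasDerivWithinAt f (4 * x ^ 3 + 7 * x ^ 6) (Icc (-3) 3) x := by
    intro x _
    have h1 : HasDerivAt (fun x : ℝ => x ^ 4 + x ^ 7) (4 * x ^ 3 + 7 * x ^ 6) x := by
      have a := hasDerivAt_pow 4 x
      have b := hasDerivAt_pow 7 x
      simpa using a.fun_add b
    exact h1.hasDerivWithinAt
  have hb : ∀ x ∈ Icc (-3 : ℝ) 3, ‖4 * x ^ 3 + 7 * x ^ 6‖ ≤ 5211 := by
    intro x hx
    have h3 : |x| ≤ 3 := abs_le.mpr hx
    have h4 : |x| ^ 3 ≤ 3 ^ 3 := pow_le_pow_left₀ (abs_nonneg _) h3 3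
    have h7 : |x| ^ 6 ≤ 3 ^ 6 := pow_le_pow_left₀ (abs_nonneg _) h3 6
    calc ‖4 * x ^ 3 + 7 * x ^ 6‖ ≤ ‖4 * x ^ 3‖ + ‖7 * x ^ 6‖ := norm_add_le _ _
      _ = 4 * |x| ^ 3 + 7 * |x| ^ 6 := by
          simp [Real.norm_eq_abs]
      _ ≤ 5211 := by
          norm_num at h4 h7
          linarith
  have := (convex_Icc (-3 : ℝ) 3).norm_image_sub_le_of_norm_hasDerivWithin_le hd hb hw hv
  simpa [Real.norm_eq_abs] using this

lemma F_lip (v w : ℝ) : |F v - F w| ≤ 5211 * |v - w| := by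
  unfold F
  obtain ⟨h1, h2⟩ := cl_mem v
  obtain ⟨h3, h4⟩ := cl_mem w
  have := f_lip (cl v) (cl w) ⟨by linarith, h2⟩ ⟨by linarith, h4⟩
  exact this.trans (mul_le_mul_of_nonneg_left (cl_lip v w) (by norm_num))

lemma F_cont : Continuous F := by
  unfold F f cl
  fun_prop

lemma abstract_formulas (α : ℝ) (g I1 I2 G1 G2 : ℝ → ℝ) (c1 : Continuous I1) (c2 : Continuous I2)
    (e1 : ∀ t, t ^ 3 * I1 t = t * G1 t - G2 t) (e2 : ∀ t, t ^ 3 * I2 t = G2 t)
    (e0 : I2 0 = g 0 / 3)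
    (p1 : ∀ t, HasDerivAt G1 (t * g t) t) (p2 : ∀ t, HasDerivAt G2 (t ^ 2 * g t) t) :
    (∀ t, HasDerivAt (fun t : ℝ => α - t ^ 2 * I1 t) (-(t * I2 t)) t) ∧
    HasDerivAt (fun t : ℝ => -(t * I2 t)) (-(g 0) / 3) 0 ∧
    ∀ t, t ≠ 0 → HasDerivAt (fun t : ℝ => -(t * I2 t)) (-(2 / t) * (-(t * I2 t)) - g t) t := by
  refine ⟨?_, ?_, ?_⟩
  · intro t
    by_cases ht : t = 0
    · subst ht
      have h1 : HasDerivAt (fun t : ℝ => t ^ 2 * I1 t) 0 0 := by
        rw [hasDerivAt_iff_tendsto_slope]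
        have hl : Tendsto (fun t : ℝ => t * I1 t) (𝓝[≠] 0) (𝓝 (0 * I1 0)) :=
          ((continuous_id.mul c1).tendsto 0).mono_left nhdsWithin_le_nhds
        rw [zero_mul] at hl
        refine hl.congr' ?_
        filter_upwards [self_mem_nhdsWithin] with s hs
        have hs' : s ≠ 0 := hs
        rw [slope_def_field]
        field_simp
        ring
      have h2 := h1.const_sub α
      simpa using h2
    · have q1 : HasDerivAt (fun t : ℝ => α - (G1 t - G2 t / t))
          (-(t * g t - (t ^ 2 * g t * t - G2 t * 1) / t ^ 2)) t := by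
        exact ((p1 t).fun_sub ((p2 t).fun_div (hasDerivAt_id t) ht)).const_sub α
      have q2 : (fun t : ℝ => α - t ^ 2 * I1 t) =ᶠ[𝓝 t] (fun t : ℝ => α - (G1 t - G2 t / t)) := by
        filter_upwards [isOpen_ne.mem_nhds ht] with s hs
        have hs' : s ≠ 0 := hs
        have := e1 s
        congr 1
        field_simp
        linarith
      refine (q1.congr_of_eventuallyEq q2).congr_deriv ?_
      rw [← e2 t]
      field_simp
      ring
  · rw [hasDerivAt_iff_tendsto_slope]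
    have hl : Tendsto (fun t : ℝ => -I2 t) (𝓝[≠] 0) (𝓝 (-I2 0)) :=
      (c2.neg.tendsto 0).mono_left nhdsWithin_le_nhds
    have e : -I2 0 = -(g 0) / 3 := by
      rw [e0]; ring
    rw [e] at hl
    refine hl.congr' ?_
    filter_upwards [self_mem_nhdsWithin] with s hs
    have hs' : s ≠ 0 := hs
    rw [slope_def_field]
    field_simp
    ring
  · intro t ht
    have q1 : HasDerivAt (fun t : ℝ => -(G2 t / t ^ 2))
        (-((t ^ 2 * g t * t ^ 2 - G2 t * (2 * t)) / (t ^ 2) ^ 2)) t := by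
      have hp : HasDerivAt (fun t : ℝ => t ^ 2) (2 * t) t := by
        simpa using hasDerivAt_pow 2 t
      exact ((p2 t).fun_div hp (pow_ne_zero 2 ht)).fun_neg
    have q2 : (fun t : ℝ => -(t * I2 t)) =ᶠ[𝓝 t] (fun t : ℝ => -(G2 t / t ^ 2)) := by
      filter_upwards [isOpen_ne.mem_nhds ht] with s hs
      have hs' : s ≠ 0 := hs
      rw [← e2 s]
      field_simp
    refine (q1.congr_of_eventuallyEq q2).congr_deriv ?_
    rw [← e2 t]
    field_simp
    ring

/-- the integral formulas for `u` and `u1` in terms of `g = F ∘ u` -/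
lemma deriv_formulas (α : ℝ) (g : ℝ → ℝ) (hg : Continuous g) :
    (∀ t, HasDerivAt (fun t : ℝ => α - t ^ 2 * ∫ τ in (0:ℝ)..1, (1 - τ) * τ * g (t * τ))
      (-(t * ∫ τ in (0:ℝ)..1, τ ^ 2 * g (t * τ))) t) ∧
    HasDerivAt (fun t : ℝ => -(t * ∫ τ in (0:ℝ)..1, τ ^ 2 * g (t * τ))) (-(g 0) / 3) 0 ∧
    ∀ t, t ≠ 0 → HasDerivAt (fun t : ℝ => -(t * ∫ τ in (0:ℝ)..1, τ ^ 2 * g (t * τ)))
      (-(2 / t) * (-(t * ∫ τ in (0:ℝ)..1, τ ^ 2 * g (t * τ))) - g t) t := by
  have c1 : Continuous (fun t : ℝ => ∫ τ in (0:ℝ)..1, (1 - τ) * τ * g (t * τ)) := by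
    apply intervalIntegral.continuous_parametric_intervalIntegral_of_continuous'
    fun_prop
  have c2 : Continuous (fun t : ℝ => ∫ τ in (0:ℝ)..1, τ ^ 2 * g (t * τ)) := by
    apply intervalIntegral.continuous_parametric_intervalIntegral_of_continuous'
    fun_prop
  -- formulas through primitives
  have e2 : ∀ t : ℝ, t ^ 3 * ∫ τ in (0:ℝ)..1, τ ^ 2 * g (t * τ) = ∫ s in (0:ℝ)..t, s ^ 2 * g s := by
    intro t
    have h := intervalIntegral.smul_integral_comp_mul_left (fun s => s ^ 2 * g s) t (a := 0) (b := 1)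
    simp only [mul_zero, mul_one, smul_eq_mul] at h
    rw [← h]
    have : (fun x : ℝ => (t * x) ^ 2 * g (t * x)) = fun x => t ^ 2 * (x ^ 2 * g (t * x)) := by
      funext x; ring
    rw [this, intervalIntegral.integral_const_mul]
    ring
  have e1 : ∀ t : ℝ, t ^ 3 * ∫ τ in (0:ℝ)..1, (1 - τ) * τ * g (t * τ) =
      t * (∫ s in (0:ℝ)..t, s * g s) - ∫ s in (0:ℝ)..t, s ^ 2 * g s := by
    intro t
    have h := intervalIntegral.smul_integral_comp_mul_left (fun s => t * (s * g s) - s ^ 2 * g s) t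
      (a := 0) (b := 1)
    simp only [mul_zero, mul_one, smul_eq_mul] at h
    have hr : ∫ x in (0:ℝ)..t, (t * (x * g x) - x ^ 2 * g x) =
        t * (∫ s in (0:ℝ)..t, s * g s) - ∫ s in (0:ℝ)..t, s ^ 2 * g s := by
      rw [intervalIntegral.integral_sub, intervalIntegral.integral_const_mul]
      · apply Continuous.intervalIntegrable
        fun_prop
      · apply Continuous.intervalIntegrable
        fun_prop
    rw [← hr, ← h]
    have : (fun x : ℝ => t * (t * x * g (t * x)) - (t * x) ^ 2 * g (t * x)) =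
        fun x => t ^ 2 * ((1 - x) * x * g (t * x)) := by
      funext x; ring
    rw [this, intervalIntegral.integral_const_mul]
    ring
  have p1 : ∀ t : ℝ, HasDerivAt (fun t : ℝ => ∫ s in (0:ℝ)..t, s * g s) (t * g t) t := by
    intro t
    have hc : Continuous (fun s : ℝ => s * g s) := by fun_prop
    exact intervalIntegral.integral_hasDerivAt_right (hc.intervalIntegrable _ _)
      (hc.stronglyMeasurableAtFilter _ _) hc.continuousAt
  have p2 : ∀ t : ℝ, HasDerivAt (fun t : ℝ => ∫ s in (0:ℝ)..t, s ^ 2 * g s) (t ^ 2 * g t) t := by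
    intro t
    have hc : Continuous (fun s : ℝ => s ^ 2 * g s) := by fun_prop
    exact intervalIntegral.integral_hasDerivAt_right (hc.intervalIntegrable _ _)
      (hc.stronglyMeasurableAtFilter _ _) hc.continuousAt
  have e0 : (∫ τ in (0:ℝ)..1, τ ^ 2 * g (0 * τ)) = (g 0) / 3 := by
    simp only [zero_mul]
    rw [intervalIntegral.integral_mul_const, integral_pow]
    norm_num
    ring
  exact abstract_formulas α g (fun t => ∫ τ in (0:ℝ)..1, (1 - τ) * τ * g (t * τ))
    (fun t => ∫ τ in (0:ℝ)..1, τ ^ 2 * g (t * τ)) (fun t => ∫ s in (0:ℝ)..t, s * g s)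
    (fun t => ∫ s in (0:ℝ)..t, s ^ 2 * g s) c1 c2 e1 e2 e0 p1 p2

/-- the composed nonlinearity -/
noncomputable def gg (α : ℝ) (φ : ℝ → ℝ) (s : ℝ) : ℝ := F (α + Real.exp (5211 * s ^ 2) * φ s)

lemma gg_cont (α : ℝ) (φ : ℝ → ℝ) (hφ : Continuous φ) : Continuous (gg α φ) := by
  unfold gg
  exact F_cont.comp (by fun_prop)

/-- the integral operator -/
noncomputable def op (α : ℝ) (φ : ℝ → ℝ) (t : ℝ) : ℝ :=
  -(Real.exp (-(5211 * t ^ 2)) * (t ^ 2 * ∫ τ in (0:ℝ)..1, (1 - τ) * τ * gg α φ (t * τ)))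

lemma op_cont (α : ℝ) (φ : ℝ → ℝ) (hφ : Continuous φ) : Continuous (op α φ) := by
  unfold op
  have hg := gg_cont α φ hφ
  have c1 : Continuous (fun t : ℝ => ∫ τ in (0:ℝ)..1, (1 - τ) * τ * gg α φ (t * τ)) := by
    apply intervalIntegral.continuous_parametric_intervalIntegral_of_continuous'
    fun_prop
  fun_prop

lemma exp_mul_sq_le (t : ℝ) : Real.exp (-(5211 * t ^ 2)) * t ^ 2 ≤ 1 := by
  have h1 : t ^ 2 ≤ Real.exp (5211 * t ^ 2) := by
    have := Real.add_one_le_exp (5211 * t ^ 2)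
    nlinarith [sq_nonneg t]
  rw [Real.exp_neg]
  have h2 := Real.exp_pos (5211 * t ^ 2)
  rw [inv_mul_le_iff₀ h2]
  linarith

lemma op_bound (α : ℝ) (φ : ℝ → ℝ) (t : ℝ) : ‖op α φ t‖ ≤ 2268 := by
  unfold op
  have hI : ‖∫ τ in (0:ℝ)..1, (1 - τ) * τ * gg α φ (t * τ)‖ ≤ 2268 * |(1:ℝ) - 0| := by
    apply intervalIntegral.norm_integral_le_of_norm_le_const
    intro τ hτ
    rw [uIoc_of_le zero_le_one] at hτ
    rw [norm_mul, norm_mul, Real.norm_eq_abs, Real.norm_eq_abs, Real.norm_eq_abs]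
    have h1 : |1 - τ| ≤ 1 := by rw [abs_le]; constructor <;> linarith [hτ.1, hτ.2]
    have h2 : |τ| ≤ 1 := by rw [abs_le]; constructor <;> linarith [hτ.1, hτ.2]
    have h3 : |gg α φ (t * τ)| ≤ 2268 := F_le _
    calc |1 - τ| * |τ| * |gg α φ (t * τ)| ≤ 1 * 1 * 2268 := by
          apply mul_le_mul (mul_le_mul h1 h2 (abs_nonneg _) zero_le_one) h3 (abs_nonneg _)
          norm_num
      _ = 2268 := by norm_num
  rw [sub_zero, abs_one, mul_one] at hI
  rw [norm_neg, norm_mul, norm_mul, Real.norm_eq_abs, Real.norm_eq_abs, abs_of_pos (Real.exp_pos _),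
    abs_of_nonneg (sq_nonneg t), ← mul_assoc]
  have h4 := exp_mul_sq_le t
  calc Real.exp (-(5211 * t ^ 2)) * t ^ 2 * ‖∫ τ in (0:ℝ)..1, (1 - τ) * τ * gg α φ (t * τ)‖
      ≤ 1 * 2268 := by
        apply mul_le_mul h4 hI (norm_nonneg _) zero_le_one
    _ = 2268 := one_mul _

lemma op_contr (α : ℝ) (φ ψ : ℝ → ℝ) (hφ : Continuous φ) (hψ : Continuous ψ) (d : ℝ)
    (hd : ∀ t, |φ t - ψ t| ≤ d) (t : ℝ) : |op α φ t - op α ψ t| ≤ 1 / 2 * d := by
  have hd0 : 0 ≤ d := (abs_nonneg _).trans (hd 0)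
  have hg1 := gg_cont α φ hφ
  have hg2 := gg_cont α ψ hψ
  have hle : ∀ τ ∈ Icc (0:ℝ) 1, ‖(1 - τ) * τ * gg α φ (t * τ) - (1 - τ) * τ * gg α ψ (t * τ)‖ ≤
      5211 * d * (τ * Real.exp (5211 * (t * τ) ^ 2)) := by
    intro τ hτ
    have e : (1 - τ) * τ * gg α φ (t * τ) - (1 - τ) * τ * gg α ψ (t * τ) =
        (1 - τ) * (τ * (gg α φ (t * τ) - gg α ψ (t * τ))) := by ring
    rw [e, norm_mul, norm_mul, Real.norm_eq_abs, Real.norm_eq_abs, Real.norm_eq_abs]
    have h1 : |1 - τ| ≤ 1 := by rw [abs_le]; constructor <;> linarith [hτ.1, hτ.2]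
    have h2 : |τ| = τ := abs_of_nonneg hτ.1
    have h3 : |gg α φ (t * τ) - gg α ψ (t * τ)| ≤ 5211 * (Real.exp (5211 * (t * τ) ^ 2) * d) := by
      unfold gg
      refine (F_lip _ _).trans ?_
      apply mul_le_mul_of_nonneg_left _ (by norm_num)
      rw [add_sub_add_left_eq_sub, ← mul_sub, abs_mul, abs_of_pos (Real.exp_pos _)]
      exact mul_le_mul_of_nonneg_left (hd _) (Real.exp_nonneg _)
    rw [h2]
    calc |1 - τ| * (τ * |gg α φ (t * τ) - gg α ψ (t * τ)|)
        ≤ 1 * (τ * (5211 * (Real.exp (5211 * (t * τ) ^ 2) * d))) := by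
          apply mul_le_mul h1 _ (by have := hτ.1; positivity) zero_le_one
          exact mul_le_mul_of_nonneg_left h3 hτ.1
      _ = 5211 * d * (τ * Real.exp (5211 * (t * τ) ^ 2)) := by ring
  have hI : ‖∫ τ in (0:ℝ)..1, ((1 - τ) * τ * gg α φ (t * τ) - (1 - τ) * τ * gg α ψ (t * τ))‖ ≤
      ∫ τ in (0:ℝ)..1, 5211 * d * (τ * Real.exp (5211 * (t * τ) ^ 2)) := by
    apply intervalIntegral.norm_integral_le_of_norm_le zero_le_one
    · refine Eventually.of_forall fun τ hτ => hle τ ⟨hτ.1.le, hτ.2⟩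
    · apply Continuous.intervalIntegrable
      fun_prop
  have hJ : t ^ 2 * ∫ τ in (0:ℝ)..1, 5211 * d * (τ * Real.exp (5211 * (t * τ) ^ 2)) =
      d / 2 * (Real.exp (5211 * t ^ 2) - 1) := by
    have hder : ∀ τ ∈ uIcc (0:ℝ) 1, HasDerivAt (fun τ : ℝ => d / 2 * Real.exp (5211 * (t * τ) ^ 2))
        (t ^ 2 * (5211 * d * (τ * Real.exp (5211 * (t * τ) ^ 2)))) τ := by
      intro τ _
      have a1 : HasDerivAt (fun τ : ℝ => 5211 * (t * τ) ^ 2) (5211 * (2 * (t * τ) * t)) τ := by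
        have b1 : HasDerivAt (fun τ : ℝ => t * τ) t τ := by
          simpa using (hasDerivAt_id τ).const_mul t
        have b2 := (b1.pow 2).const_mul 5211
        simpa using b2
      have a2 := (a1.exp).const_mul (d / 2)
      refine a2.congr_deriv ?_
      ring
    rw [← intervalIntegral.integral_const_mul, intervalIntegral.integral_eq_sub_of_hasDerivAt hder]
    · simp
      ring
    · apply Continuous.intervalIntegrable
      fun_prop
  have e : op α φ t - op α ψ t = -(Real.exp (-(5211 * t ^ 2)) * (t ^ 2 *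
      ∫ τ in (0:ℝ)..1, ((1 - τ) * τ * gg α φ (t * τ) - (1 - τ) * τ * gg α ψ (t * τ)))) := by
    rw [intervalIntegral.integral_sub]
    · unfold op
      ring
    · apply Continuous.intervalIntegrable
      fun_prop
    · apply Continuous.intervalIntegrable
      fun_prop
  rw [e, abs_neg, abs_mul, abs_mul, abs_of_pos (Real.exp_pos _), abs_of_nonneg (sq_nonneg t)]
  have hE := Real.exp_pos (5211 * t ^ 2)
  calc Real.exp (-(5211 * t ^ 2)) * (t ^ 2 *
        |∫ τ in (0:ℝ)..1, ((1 - τ) * τ * gg α φ (t * τ) - (1 - τ) * τ * gg α ψ (t * τ))|)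
      ≤ Real.exp (-(5211 * t ^ 2)) * (t ^ 2 *
        ∫ τ in (0:ℝ)..1, 5211 * d * (τ * Real.exp (5211 * (t * τ) ^ 2))) := by
        apply mul_le_mul_of_nonneg_left _ (Real.exp_nonneg _)
        exact mul_le_mul_of_nonneg_left hI (sq_nonneg t)
    _ = Real.exp (-(5211 * t ^ 2)) * (d / 2 * (Real.exp (5211 * t ^ 2) - 1)) := by rw [hJ]
    _ ≤ Real.exp (-(5211 * t ^ 2)) * (d / 2 * Real.exp (5211 * t ^ 2)) := by
        apply mul_le_mul_of_nonneg_left _ (Real.exp_nonneg _)
        apply mul_le_mul_of_nonneg_left _ (by positivity)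
        linarith
    _ = 1 / 2 * d := by
        rw [Real.exp_neg]
        field_simp

/-- the vector field for `(t u, u + t u1)` -/
noncomputable def vf (t : ℝ) (X : ℝ × ℝ) : ℝ × ℝ := (X.2, -(t * F (X.1 / t)))

lemma vf_lip (t : ℝ) (ht : 0 < t) : LipschitzWith 5211 (vf t) := by
  refine LipschitzWith.of_dist_le_mul fun X Y => ?_
  unfold vf
  rw [Prod.dist_eq, Prod.dist_eq, Real.dist_eq, Real.dist_eq, Real.dist_eq]
  have h0 : (0:ℝ) ≤ max |X.1 - Y.1| |X.2 - Y.2| := le_max_of_le_left (abs_nonneg _)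
  apply max_le
  · have : |X.2 - Y.2| ≤ max |X.1 - Y.1| |X.2 - Y.2| := le_max_right _ _
    push_cast
    linarith
  · have e : |-(t * F (X.1 / t)) - -(t * F (Y.1 / t))| = t * |F (X.1 / t) - F (Y.1 / t)| := by
      rw [← abs_of_pos ht, ← abs_mul, abs_of_pos ht, abs_sub_comm]
      congr 1
      ring
    have e2 : |X.1 / t - Y.1 / t| = |X.1 - Y.1| / t := by
      rw [← sub_div, abs_div, abs_of_pos ht]
    have h1 := F_lip (X.1 / t) (Y.1 / t)
    rw [e2] at h1
    rw [e]
    calc t * |F (X.1 / t) - F (Y.1 / t)| ≤ t * (5211 * (|X.1 - Y.1| / t)) :=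
          mul_le_mul_of_nonneg_left h1 ht.le
      _ = 5211 * |X.1 - Y.1| := by field_simp
      _ ≤ 5211 * max |X.1 - Y.1| |X.2 - Y.2| :=
          mul_le_mul_of_nonneg_left (le_max_left _ _) (by norm_num)
      _ = ((5211 : NNReal) : ℝ) * max |X.1 - Y.1| |X.2 - Y.2| := by norm_num

lemma traj {T : ℝ} {v v1 : ℝ → ℝ}
    (hv : ∀ t ∈ Ioo 0 T, HasDerivAt v (v1 t) t)
    (hv1 : ∀ t ∈ Ioo 0 T, HasDerivAt v1 (-(2 / t) * v1 t - F (v t)) t) :
    ∀ t ∈ Ioo 0 T, HasDerivAt (fun t => (t * v t, v t + t * v1 t)) (vf t (t * v t, v t + t * v1 t)) t := by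
  intro t ht
  have h0 : t ≠ 0 := ht.1.ne'
  have a1 : HasDerivAt (fun t => t * v t) (1 * v t + t * v1 t) t := (hasDerivAt_id t).mul (hv t ht)
  have a2 : HasDerivAt (fun t => t * v1 t) (1 * v1 t + t * (-(2 / t) * v1 t - F (v t))) t :=
    (hasDerivAt_id t).mul (hv1 t ht)
  have a3 : HasDerivAt (fun t => v t + t * v1 t)
      (v1 t + (1 * v1 t + t * (-(2 / t) * v1 t - F (v t)))) t := (hv t ht).add a2
  have a4 := a1.prodMk a3
  refine a4.congr_deriv ?_
  unfold vf
  simp only [Prod.mk.injEq]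
  constructor
  · ring
  · rw [mul_div_cancel_left₀ _ h0]
    field_simp
    ring

/-- the basic comparison of two solutions -/
lemma core {T : ℝ} {v v1 w w1 : ℝ → ℝ}
    (cv : ContinuousOn v (Icc 0 T)) (cv1 : ContinuousOn v1 (Icc 0 T))
    (hv : ∀ t ∈ Ioo 0 T, HasDerivAt v (v1 t) t)
    (hv1 : ∀ t ∈ Ioo 0 T, HasDerivAt v1 (-(2 / t) * v1 t - F (v t)) t)
    (cw : ContinuousOn w (Icc 0 T)) (cw1 : ContinuousOn w1 (Icc 0 T))
    (hw : ∀ t ∈ Ioo 0 T, HasDerivAt w (w1 t) t)
    (hw1 : ∀ t ∈ Ioo 0 T, HasDerivAt w1 (-(2 / t) * w1 t - F (w t)) t) :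
    ∀ t ∈ Ioc 0 T, |t * v t - t * w t| ≤ |v 0 - w 0| * Real.exp (5211 * t) ∧
      |(v t + t * v1 t) - (w t + t * w1 t)| ≤ |v 0 - w 0| * Real.exp (5211 * t) := by
  intro t ht
  have hT : 0 < T := ht.1.trans_le ht.2
  set X : ℝ → ℝ × ℝ := fun t => (t * v t, v t + t * v1 t) with hX
  set Y : ℝ → ℝ × ℝ := fun t => (t * w t, w t + t * w1 t) with hY
  have cX : ContinuousOn X (Icc 0 T) := by
    apply ContinuousOn.prodMk
    · exact continuousOn_id.mul cv
    · exact cv.add (continuousOn_id.mul cv1)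
  have cY : ContinuousOn Y (Icc 0 T) := by
    apply ContinuousOn.prodMk
    · exact continuousOn_id.mul cw
    · exact cw.add (continuousOn_id.mul cw1)
  have key : ∀ δ ∈ Ioo 0 t, dist (X t) (Y t) ≤ dist (X δ) (Y δ) * Real.exp (5211 * t) := by
    intro δ hδ
    have hsub : Icc δ T ⊆ Icc 0 T := Icc_subset_Icc_left hδ.1.le
    have h := dist_le_of_trajectories_ODE_of_mem (v := vf) (K := 5211) (s := fun _ => univ)
      (f := X) (g := Y) (a := δ) (b := T) (δ := dist (X δ) (Y δ))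
      (fun s hs => (vf_lip s (hδ.1.trans_le hs.1)).lipschitzOnWith)
      (cX.mono hsub)
      (fun s hs => (traj hv hv1 s ⟨hδ.1.trans_le hs.1, hs.2⟩).hasDerivWithinAt)
      (fun _ _ => trivial)
      (cY.mono hsub)
      (fun s hs => (traj hw hw1 s ⟨hδ.1.trans_le hs.1, hs.2⟩).hasDerivWithinAt)
      (fun _ _ => trivial) le_rfl t ⟨hδ.2.le, ht.2⟩
    refine h.trans ?_
    apply mul_le_mul_of_nonneg_left _ dist_nonneg
    apply Real.exp_le_exp.mpr
    have : ((5211 : NNReal) : ℝ) = 5211 := by norm_num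
    rw [this]
    have := hδ.1
    nlinarith
  have hlim : Tendsto (fun δ => dist (X δ) (Y δ) * Real.exp (5211 * t)) (𝓝[Ioo 0 t] 0)
      (𝓝 (dist (X 0) (Y 0) * Real.exp (5211 * t))) := by
    apply Tendsto.mul_const
    have h1 : Tendsto X (𝓝[Ioo 0 t] 0) (𝓝 (X 0)) :=
      (cX 0 (left_mem_Icc.mpr hT.le)).mono_left
        (nhdsWithin_mono _ (Ioo_subset_Icc_self.trans (Icc_subset_Icc_right ht.2)))
    have h2 : Tendsto Y (𝓝[Ioo 0 t] 0) (𝓝 (Y 0)) :=
      (cY 0 (left_mem_Icc.mpr hT.le)).mono_left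
        (nhdsWithin_mono _ (Ioo_subset_Icc_self.trans (Icc_subset_Icc_right ht.2)))
    exact h1.dist h2
  have hne : (𝓝[Ioo 0 t] (0:ℝ)).NeBot := left_nhdsWithin_Ioo_neBot ht.1
  have hfin : dist (X t) (Y t) ≤ dist (X 0) (Y 0) * Real.exp (5211 * t) := by
    apply ge_of_tendsto hlim
    filter_upwards [self_mem_nhdsWithin] with δ hδ using key δ hδ
  have h0 : dist (X 0) (Y 0) = |v 0 - w 0| := by
    simp only [hX, hY, Prod.dist_eq, Real.dist_eq]
    simp
  rw [h0, Prod.dist_eq, Real.dist_eq, Real.dist_eq, max_le_iff] at hfin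
  exact hfin

lemma cont_u {α : ℝ} {u u1 : ℝ → ℝ} (hu : IsSol α u u1) : Continuous u :=
  continuous_iff_continuousAt.mpr fun t => (hu.h0 t).continuousAt

lemma cont_u1 {α : ℝ} {u u1 : ℝ → ℝ} (hu : IsSol α u u1) : Continuous u1 := by
  rw [continuous_iff_continuousAt]
  intro t
  by_cases ht : t = 0
  · rw [ht]
    exact hu.h1z.continuousAt
  · exact (hu.h1 t ht).continuousAt

/-- the divergence form of the equation -/
lemma div_form {α : ℝ} {u u1 : ℝ → ℝ} (hu : IsSol α u u1) (t : ℝ) :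
    HasDerivAt (fun t => t ^ 2 * u1 t) (-(t ^ 2 * F (u t))) t := by
  have hp : HasDerivAt (fun t : ℝ => t ^ 2) (2 * t) t := by
    simpa using hasDerivAt_pow 2 t
  by_cases ht : t = 0
  · subst ht
    have := hp.mul hu.h1z
    refine this.congr_deriv ?_
    simp
  · have := hp.mul (hu.h1 t ht)
    refine this.congr_deriv ?_
    field_simp
    ring

end TaskA

theorem exists_sol (α : ℝ) : ∃ u u1 : ℝ → ℝ, IsSol α u u1 := by
  classical
  set T : BoundedContinuousFunction ℝ ℝ → BoundedContinuousFunction ℝ ℝ := fun φ =>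
    BoundedContinuousFunction.ofNormedAddCommGroup (TaskA.op α φ)
      (TaskA.op_cont α φ φ.continuous) 2268 (TaskA.op_bound α φ) with hT
  have hTc : ContractingWith (1 / 2) T := by
    refine ⟨by norm_num, LipschitzWith.of_dist_le_mul fun φ ψ => ?_⟩
    rw [BoundedContinuousFunction.dist_le (by positivity)]
    intro t
    rw [Real.dist_eq]
    have := TaskA.op_contr α φ ψ φ.continuous ψ.continuous (dist φ ψ) (fun t => by
      rw [← Real.dist_eq]
      exact BoundedContinuousFunction.dist_coe_le_dist t) t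
    show |TaskA.op α φ t - TaskA.op α ψ t| ≤ _
    simpa using this
  set φ := ContractingWith.fixedPoint T hTc with hφ
  have hfix : T φ = φ := hTc.fixedPoint_isFixedPt
  have hfix' : ∀ t, φ t = TaskA.op α φ t := by
    intro t
    conv_lhs => rw [← hfix]
    rfl
  set g : ℝ → ℝ := TaskA.gg α φ with hg
  have hgc : Continuous g := TaskA.gg_cont α φ φ.continuous
  obtain ⟨d1, d2, d3⟩ := TaskA.deriv_formulas α g hgc
  set u : ℝ → ℝ := fun t : ℝ => α - t ^ 2 * ∫ τ in (0:ℝ)..1, (1 - τ) * τ * g (t * τ) with hu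
  have hug : ∀ t, g t = F (u t) := by
    intro t
    have e : Real.exp (5211 * t ^ 2) * φ t =
        -(t ^ 2 * ∫ τ in (0:ℝ)..1, (1 - τ) * τ * g (t * τ)) := by
      rw [hfix' t]
      show Real.exp (5211 * t ^ 2) * -(Real.exp (-(5211 * t ^ 2)) *
        (t ^ 2 * ∫ τ in (0:ℝ)..1, (1 - τ) * τ * g (t * τ))) = _
      rw [mul_neg, ← mul_assoc, ← Real.exp_add, add_neg_cancel, Real.exp_zero, one_mul]
    show F (α + Real.exp (5211 * t ^ 2) * φ t) = F (u t)
    rw [e]
    simp only [hu, sub_eq_add_neg]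
  refine ⟨u, _, ?_, ?_, d1, ?_, ?_⟩
  · simp [hu]
  · simp
  · have e : g 0 = F α := by
      rw [hug 0]
      simp [hu]
    rw [← e]
    exact d2
  · intro t ht
    have := d3 t ht
    rw [hug t] at this
    exact this

theorem sol_unique {α T : ℝ} (hT : 0 < T) {u u1 v v1 : ℝ → ℝ} (hu : IsSol α u u1)
    (hv0 : v 0 = α) (hc : ContinuousOn v (Icc 0 T)) (hc1 : ContinuousOn v1 (Icc 0 T))
    (hv : ∀ t ∈ Ioo 0 T, HasDerivAt v (v1 t) t)
    (hv1 : ∀ t ∈ Ioo 0 T, HasDerivAt v1 (-(2 / t) * v1 t - F (v t)) t) :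
    ∀ t ∈ Icc 0 T, v t = u t ∧ v1 t = u1 t := by
  have hcore := TaskA.core hc hc1 hv hv1 (TaskA.cont_u hu).continuousOn
    (TaskA.cont_u1 hu).continuousOn (fun t _ => hu.h0 t) (fun t ht => hu.h1 t ht.1.ne')
  rw [hv0, hu.z0, sub_self, abs_zero] at hcore
  have h1 : ∀ t ∈ Ioc 0 T, v t = u t ∧ v1 t = u1 t := by
    intro t ht
    obtain ⟨a, b⟩ := hcore t ht
    rw [zero_mul] at a b
    have a' := abs_eq_zero.mp (le_antisymm a (abs_nonneg _))
    have b' := abs_eq_zero.mp (le_antisymm b (abs_nonneg _))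
    have h0 : t ≠ 0 := ht.1.ne'
    have e1 : v t = u t := by
      have : t * (v t - u t) = 0 := by linarith
      rcases mul_eq_zero.mp this with h | h
      · exact absurd h h0
      · linarith
    refine ⟨e1, ?_⟩
    have : t * (v1 t - u1 t) = 0 := by
      rw [e1] at b'
      linarith
    rcases mul_eq_zero.mp this with h | h
    · exact absurd h h0
    · linarith
  intro t ht
  rcases eq_or_lt_of_le ht.1 with h0 | h0
  · rw [← h0]
    refine ⟨by rw [hv0, hu.z0], ?_⟩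
    have hne : (𝓝[Ioo 0 T] (0:ℝ)).NeBot := left_nhdsWithin_Ioo_neBot hT
    have l1 : Tendsto v1 (𝓝[Ioo 0 T] 0) (𝓝 (v1 0)) :=
      (hc1 0 (left_mem_Icc.mpr hT.le)).mono_left (nhdsWithin_mono _ Ioo_subset_Icc_self)
    have l2 : Tendsto u1 (𝓝[Ioo 0 T] 0) (𝓝 (u1 0)) :=
      ((TaskA.cont_u1 hu).tendsto 0).mono_left nhdsWithin_le_nhds
    refine tendsto_nhds_unique l1 (l2.congr' ?_)
    filter_upwards [self_mem_nhdsWithin] with s hs
    exact (h1 s ⟨hs.1, hs.2.le⟩).2.symm
  · exact h1 t ⟨h0, ht.2⟩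

theorem dep (u u1 : ℝ → ℝ → ℝ) (hu : ∀ α, IsSol α (u α) (u1 α)) : Dep u u1 := by
  intro T
  by_cases hT : T < 0
  · refine ⟨0, fun α _ β _ t ht => ?_⟩
    exact absurd (ht.1.trans ht.2) (not_le.mpr hT)
  rw [not_lt] at hT
  set C0 : ℝ := Real.exp (5211 * (T + 1)) with hC0
  have hC0p : 0 < C0 := Real.exp_pos _
  refine ⟨max C0 (T * (5211 * C0)), fun α _ β _ => ?_⟩
  have cu := fun γ => TaskA.cont_u (hu γ)
  have cu1 := fun γ => TaskA.cont_u1 (hu γ)
  have hcore := TaskA.core (T := T + 1) (cu α).continuousOn (cu1 α).continuousOn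
    (fun t _ => (hu α).h0 t) (fun t ht => (hu α).h1 t ht.1.ne')
    (cu β).continuousOn (cu1 β).continuousOn
    (fun t _ => (hu β).h0 t) (fun t ht => (hu β).h1 t ht.1.ne')
  rw [(hu α).z0, (hu β).z0] at hcore
  have hd0 : (0:ℝ) ≤ |α - β| := abs_nonneg _
  -- first estimate
  have hA : ∀ t ∈ Icc (0:ℝ) T, |u α t - u β t| ≤ C0 * |α - β| := by
    intro t ht
    rcases eq_or_lt_of_le ht.1 with h0 | h0
    · rw [← h0, (hu α).z0, (hu β).z0]
      have : 1 ≤ C0 := by
        rw [hC0]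
        apply Real.one_le_exp
        positivity
      nlinarith
    · have hder : ∀ s ∈ Icc (0:ℝ) t, HasDerivWithinAt (fun s => s * u α s - s * u β s)
          ((u α s + s * u1 α s) - (u β s + s * u1 β s)) (Icc 0 t) s := by
        intro s _
        have a1 : HasDerivAt (fun s => s * u α s) (1 * u α s + s * u1 α s) s :=
          (hasDerivAt_id s).mul ((hu α).h0 s)
        have a2 : HasDerivAt (fun s => s * u β s) (1 * u β s + s * u1 β s) s :=
          (hasDerivAt_id s).mul ((hu β).h0 s)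
        have a3 := a1.sub a2
        simp only [one_mul] at a3
        exact a3.hasDerivWithinAt
      have hb : ∀ s ∈ Icc (0:ℝ) t, ‖(u α s + s * u1 α s) - (u β s + s * u1 β s)‖ ≤ C0 * |α - β| := by
        intro s hs
        rw [Real.norm_eq_abs]
        rcases eq_or_lt_of_le hs.1 with h1 | h1
        · rw [← h1, (hu α).z0, (hu β).z0]
          have : 1 ≤ C0 := by
            rw [hC0]
            apply Real.one_le_exp
            positivity
          simp only [zero_mul, add_zero]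
          nlinarith
        · have h2 := (hcore s ⟨h1, by linarith [hs.2, ht.2]⟩).2
          refine h2.trans ?_
          rw [mul_comm]
          apply mul_le_mul_of_nonneg_right _ hd0
          rw [hC0]
          apply Real.exp_le_exp.mpr
          linarith [hs.2, ht.2]
      have h3 := (convex_Icc (0:ℝ) t).norm_image_sub_le_of_norm_hasDerivWithin_le hder hb
        (left_mem_Icc.mpr ht.1) (right_mem_Icc.mpr ht.1)
      simp only [zero_mul, sub_zero, sub_self] at h3
      rw [← mul_sub, norm_mul, Real.norm_eq_abs, Real.norm_eq_abs, abs_of_pos h0] at h3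
      have h4 : t * |u α t - u β t| ≤ t * (C0 * |α - β|) := by linarith
      exact le_of_mul_le_mul_left h4 h0
  intro t ht
  refine ⟨(hA t ht).trans (mul_le_mul_of_nonneg_right (le_max_left _ _) hd0), ?_⟩
  rcases eq_or_lt_of_le ht.1 with h0 | h0
  · rw [← h0, (hu α).z1, (hu β).z1, sub_self, abs_zero]
    positivity
  · have hder : ∀ s ∈ Icc (0:ℝ) t, HasDerivWithinAt (fun s => s ^ 2 * u1 α s - s ^ 2 * u1 β s)
        (-(s ^ 2 * F (u α s)) - -(s ^ 2 * F (u β s))) (Icc 0 t) s := by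
      intro s _
      exact ((TaskA.div_form (hu α) s).sub (TaskA.div_form (hu β) s)).hasDerivWithinAt
    have hb : ∀ s ∈ Icc (0:ℝ) t, ‖-(s ^ 2 * F (u α s)) - -(s ^ 2 * F (u β s))‖ ≤
        t ^ 2 * (5211 * (C0 * |α - β|)) := by
      intro s hs
      have e : -(s ^ 2 * F (u α s)) - -(s ^ 2 * F (u β s)) =
        -(s ^ 2 * (F (u α s) - F (u β s))) := by ring
      rw [e, norm_neg, norm_mul, Real.norm_eq_abs, Real.norm_eq_abs, abs_of_nonneg (sq_nonneg s)]
      have h1 : s ^ 2 ≤ t ^ 2 := pow_le_pow_left₀ hs.1 hs.2 2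
      have h2 := (TaskA.F_lip (u α s) (u β s)).trans
        (mul_le_mul_of_nonneg_left (hA s ⟨hs.1, hs.2.trans ht.2⟩) (by norm_num))
      exact mul_le_mul h1 h2 (abs_nonneg _) (sq_nonneg t)
    have h3 := (convex_Icc (0:ℝ) t).norm_image_sub_le_of_norm_hasDerivWithin_le hder hb
      (left_mem_Icc.mpr ht.1) (right_mem_Icc.mpr ht.1)
    simp only [ne_eq, OfNat.ofNat_ne_zero, not_false_eq_true, zero_pow, zero_mul, sub_zero,
      sub_self] at h3
    rw [← mul_sub, norm_mul, Real.norm_eq_abs, Real.norm_eq_abs, Real.norm_eq_abs,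
      abs_of_pos (by positivity : 0 < t ^ 2), abs_of_pos h0] at h3
    have h4 : t ^ 2 * |u1 α t - u1 β t| ≤ t ^ 2 * (t * (5211 * (C0 * |α - β|))) := by
      calc t ^ 2 * |u1 α t - u1 β t| ≤ t ^ 2 * (5211 * (C0 * |α - β|)) * t := h3
        _ = _ := by ring
    have h5 := le_of_mul_le_mul_left h4 (by positivity)
    calc |u1 α t - u1 β t| ≤ t * (5211 * (C0 * |α - β|)) := h5
      _ ≤ T * (5211 * (C0 * |α - β|)) := mul_le_mul_of_nonneg_right ht.2 (by positivity)
      _ = (T * (5211 * C0)) * |α - β| := by ring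
      _ ≤ _ := mul_le_mul_of_nonneg_right (le_max_right _ _) hd0

theorem sol_u1_nonpos {α : ℝ} {u u1 : ℝ → ℝ} (hu : IsSol α u u1) {t : ℝ} (ht : 0 ≤ t) :
    u1 t ≤ 0 := by
  rcases eq_or_lt_of_le ht with h0 | h0
  · rw [← h0, hu.z1]
  · have hanti : AntitoneOn (fun t => t ^ 2 * u1 t) (Icc 0 t) := by
      apply antitoneOn_of_deriv_nonpos (convex_Icc 0 t)
      · exact fun s _ => (TaskA.div_form hu s).continuousAt.continuousWithinAt
      · exact fun s _ => (TaskA.div_form hu s).differentiableAt.differentiableWithinAt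
      · intro s _
        rw [(TaskA.div_form hu s).deriv]
        have := TaskA.F_nonneg (u s)
        have := mul_nonneg (sq_nonneg s) this
        linarith
    have h1 := hanti (left_mem_Icc.mpr ht) (right_mem_Icc.mpr ht) ht
    simp only [ne_eq, OfNat.ofNat_ne_zero, not_false_eq_true, zero_pow, zero_mul] at h1
    have h2 : 0 < t ^ 2 := by positivity
    by_contra h3
    rw [not_le] at h3
    have := mul_pos h2 h3
    linarith

theorem sol_antitone {α : ℝ} {u u1 : ℝ → ℝ} (hu : IsSol α u u1) : AntitoneOn u (Ici 0) := by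
  apply antitoneOn_of_deriv_nonpos (convex_Ici 0)
  · exact (TaskA.cont_u hu).continuousOn
  · exact fun s _ => (hu.h0 s).differentiableAt.differentiableWithinAt
  · intro s hs
    rw [interior_Ici] at hs
    rw [(hu.h0 s).deriv]
    exact sol_u1_nonpos hu hs.le

theorem sol_u1_neg {α : ℝ} (hα : 0 < α) {u u1 : ℝ → ℝ} (hu : IsSol α u u1) {t : ℝ} (ht : 0 < t) :
    u1 t < 0 := by
  -- `u` is positive near zero
  have hev : ∀ᶠ s in 𝓝 (0:ℝ), 0 < u s := by
    apply (TaskA.cont_u hu).continuousAt.eventually_const_lt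
    rw [hu.z0]
    exact hα
  rw [Metric.eventually_nhds_iff_ball] at hev
  obtain ⟨r, hr, h⟩ := hev
  set δ : ℝ := min (r / 2) t with hδ
  have hδ0 : 0 < δ := lt_min (by positivity) ht
  have hδt : δ ≤ t := min_le_right _ _
  have hs : StrictAntiOn (fun t => t ^ 2 * u1 t) (Icc 0 δ) := by
    apply strictAntiOn_of_deriv_neg (convex_Icc 0 δ)
    · exact fun s _ => (TaskA.div_form hu s).continuousAt.continuousWithinAt
    · intro s hs
      rw [interior_Icc] at hs
      rw [(TaskA.div_form hu s).deriv]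
      have h1 : 0 < u s := by
        apply h
        rw [Metric.mem_ball, Real.dist_eq, sub_zero, abs_of_pos hs.1]
        have := min_le_left (r / 2) t
        linarith [hs.2]
      have h2 := TaskA.F_pos h1
      have h3 : 0 < s ^ 2 := by have := hs.1; positivity
      have := mul_pos h3 h2
      linarith
  have h1 := hs (left_mem_Icc.mpr hδ0.le) (right_mem_Icc.mpr hδ0.le) hδ0
  simp only [ne_eq, OfNat.ofNat_ne_zero, not_false_eq_true, zero_pow, zero_mul] at h1
  have hanti : AntitoneOn (fun t => t ^ 2 * u1 t) (Icc 0 t) := by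
    apply antitoneOn_of_deriv_nonpos (convex_Icc 0 t)
    · exact fun s _ => (TaskA.div_form hu s).continuousAt.continuousWithinAt
    · exact fun s _ => (TaskA.div_form hu s).differentiableAt.differentiableWithinAt
    · intro s _
      rw [(TaskA.div_form hu s).deriv]
      have := TaskA.F_nonneg (u s)
      have := mul_nonneg (sq_nonneg s) this
      linarith
  have h2 := hanti ⟨hδ0.le, hδt⟩ (right_mem_Icc.mpr ht.le) hδt
  simp only at h2
  have h3 : 0 < t ^ 2 := by positivity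
  by_contra h4
  rw [not_lt] at h4
  have := mul_nonneg h3.le h4
  linarith

theorem sol_contDiff {α : ℝ} {u u1 : ℝ → ℝ} (hu : IsSol α u u1) : ContDiff ℝ 2 u := by
  have hd : deriv u = u1 := by
    funext t
    exact (hu.h0 t).deriv
  have e2 : (2 : WithTop ℕ∞) = 1 + 1 := by norm_num
  rw [e2, contDiff_succ_iff_deriv]
  refine ⟨fun t => (hu.h0 t).differentiableAt, by simp, ?_⟩
  rw [hd, contDiff_one_iff_deriv]
  refine ⟨?_, ?_⟩
  · intro t
    by_cases ht : t = 0
    · rw [ht]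
      exact hu.h1z.differentiableAt
    · exact (hu.h1 t ht).differentiableAt
  · rw [continuous_iff_continuousAt]
    intro t
    have cF : Continuous (fun t => F (u t)) := TaskA.F_cont.comp (TaskA.cont_u hu)
    have c1 := TaskA.cont_u1 hu
    by_cases ht : t = 0
    · subst ht
      rw [continuousAt_iff_punctured_nhds, hu.h1z.deriv]
      have l1 : Tendsto (fun t => t⁻¹ * (u1 t - u1 0)) (𝓝[≠] 0) (𝓝 (-(F α) / 3)) := by
        have := hasDerivAt_iff_tendsto_slope.mp hu.h1z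
        refine this.congr' ?_
        filter_upwards [self_mem_nhdsWithin] with s hs
        rw [slope_def_field]
        rw [sub_zero, div_eq_inv_mul]
      have l2 : Tendsto (fun t => F (u t)) (𝓝[≠] 0) (𝓝 (F (u 0))) :=
        (cF.tendsto 0).mono_left nhdsWithin_le_nhds
      have l3 := (l1.const_mul (-2)).sub l2
      have e : -2 * (-(F α) / 3) - F (u 0) = -(F α) / 3 := by
        rw [hu.z0]; ring
      rw [e] at l3
      refine l3.congr' ?_
      filter_upwards [self_mem_nhdsWithin] with s hs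
      have hs' : s ≠ 0 := hs
      rw [(hu.h1 s hs').deriv, hu.z1]
      field_simp
      ring
    · have hc : ContinuousAt (fun t => -(2 / t) * u1 t - F (u t)) t := by
        apply ContinuousAt.sub _ cF.continuousAt
        apply ContinuousAt.mul _ c1.continuousAt
        apply ContinuousAt.neg
        exact continuousAt_const.div continuousAt_id ht
      refine hc.congr ?_
      filter_upwards [isOpen_ne.mem_nhds ht] with s hs
      exact (hu.h1 s hs).deriv.symm

theorem sol_zero {u u1 : ℝ → ℝ} (hu : IsSol 0 u u1) {t : ℝ} (ht : 0 ≤ t) : u t = 0 ∧ u1 t = 0 := by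
  have h := sol_unique (T := t + 1) (by linarith) hu (v := fun _ => 0) (v1 := fun _ => 0) rfl
    continuousOn_const continuousOn_const (fun s _ => hasDerivAt_const s 0) (fun s _ => by
      have := hasDerivAt_const s (0:ℝ)
      refine this.congr_deriv ?_
      simp [TaskA.F_zero]) t ⟨ht, by linarith⟩
  exact ⟨h.1.symm, h.2.symm⟩

end Pool.Agent.H228
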