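import Mathlib
import Pool.Agent.H228.Fct
import Pool.Agent.H228.Ode

/-! TASK S5: soundness of `cellOK` and `firstOK`. -/

set_option autoImplicit false

namespace Pool.Agent.H228

open Set

/-! ### auxiliary -/

theorem snd_exp {x : ℝ} (h0 : 0 ≤ x) (h1 : x ≤ 1) : Real.exp x ≤ 1 + x + x ^ 2 := by
  have h := Real.abs_exp_sub_one_sub_id_le (x := x) (by rw [abs_of_nonneg h0]; exact h1)
  have := (abs_le.1 h).2
  linarith

theorem Psi.snd_mono {x y z z' : ℝ} (h : Psi x y z) (hz : 0 ≤ z) (hzz : z ≤ z') : Psi x y z' := by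
  unfold Psi at *
  refine h.trans ?_
  gcongr

theorem Inv.snd_mono {v v1 p p1 : ℝ → ℝ → ℝ} {t z0 z1 z2 w0 w1 w2 : ℝ}
    (h : Inv v v1 p p1 t z0 z1 z2) (h0 : 0 ≤ z0) (h1 : 0 ≤ z1) (h2 : 0 ≤ z2)
    (e0 : z0 ≤ w0) (e1 : z1 ≤ w1) (e2 : z2 ≤ w2) : Inv v v1 p p1 t w0 w1 w2 :=
  ⟨fun a ha => (h.l0 a ha).snd_mono h0 e0,
    fun a ha b hb hab => (h.l1 a ha b hb hab).snd_mono h1 e1,
    fun a ha b hb c hc hab hbc hac => (h.l2 a ha b hb c hc hab hbc hac).snd_mono h2 e2⟩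

theorem le_cdiv' {a b : ℕ} (hb : 0 < b) : (a : ℝ) ≤ (cdiv a b : ℝ) * b := by
  have h := (le_cdiv (a := a) (b := b) hb).le
  have hb' : (0:ℝ) < b := by exact_mod_cast hb
  rwa [div_le_iff₀ hb'] at h

theorem nat_sub_ge (a b : ℕ) : (a : ℝ) - b ≤ ((a - b : ℕ) : ℝ) := by
  have : a ≤ (a - b) + b := by omega
  have h : (a : ℝ) ≤ ((a - b : ℕ) : ℝ) + b := by exact_mod_cast this
  linarith

theorem kOf_spec {S c Gd nu cap Uc sn1 : ℕ} (hS : 0 < S) (hS4 : 4 ∣ S) (hGd : 0 < Gd) :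
    1 / 4 + ((sn1 : ℝ) / Gd) ^ 2 * (4 * (((nu : ℝ) + cap) / S) ^ 3) ≤
        (kOf S c Gd nu cap Uc sn1 : ℝ) / S ∧
      ((sn1 : ℝ) / Gd) ^ 2 * (4 * ((Uc : ℝ) / S) ^ 3 + 7 * c * ((Uc : ℝ) / S) ^ 6) - 9 / 4 ≤
        (kOf S c Gd nu cap Uc sn1 : ℝ) / S := by
  obtain ⟨m, hm⟩ := hS4
  have hdiv : Nat.div S 4 = m := by
    show S / 4 = m
    omega
  have hSr : (0:ℝ) < S := by exact_mod_cast hS
  have hGr : (0:ℝ) < Gd := by exact_mod_cast hGd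
  have hmS : (m : ℝ) = S / 4 := by
    rw [hm]; push_cast; ring
  unfold kOf
  rw [mx_eq, hdiv]
  constructor
  · rw [le_div_iff₀ hSr]
    refine le_trans ?_ (show (((cdiv (Nat.mul (Nat.mul 4 (Nat.pow (Nat.add nu cap) 3)) (Nat.pow sn1 2))
        (Nat.mul (Nat.pow S 2) (Nat.pow Gd 2))).add m : ℕ) : ℝ) ≤ _ from
        by exact_mod_cast le_max_left _ _)
    have h := (le_cdiv (a := Nat.mul (Nat.mul 4 (Nat.pow (Nat.add nu cap) 3)) (Nat.pow sn1 2))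
      (b := Nat.mul (Nat.pow S 2) (Nat.pow Gd 2)) (by
        show 0 < S ^ 2 * Gd ^ 2
        positivity)).le
    simp only [Nat.add_eq, Nat.mul_eq, Nat.pow_eq] at h ⊢
    push_cast at h ⊢
    rw [hmS]
    have e : (1 / 4 + ((sn1 : ℝ) / Gd) ^ 2 * (4 * (((nu : ℝ) + cap) / S) ^ 3)) * S =
        4 * ((nu : ℝ) + cap) ^ 3 * sn1 ^ 2 / (S ^ 2 * Gd ^ 2) + S / 4 := by
      field_simp
      ring
    rw [e]
    linarith
  · rw [le_div_iff₀ hSr]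
    refine le_trans ?_ (show (((Nat.sub (cdiv (Nat.mul (Nat.pow sn1 2)
        (Nat.add (Nat.mul 4 (Nat.mul (Nat.pow Uc 3) (Nat.pow S 3)))
          (Nat.mul (Nat.mul 7 c) (Nat.pow Uc 6))))
        (Nat.mul (Nat.pow S 5) (Nat.pow Gd 2))) (Nat.mul 9 m)) : ℕ) : ℝ) ≤ _ from
        by exact_mod_cast le_max_right _ _)
    refine le_trans ?_ (nat_sub_ge _ _)
    have h := (le_cdiv (a := Nat.mul (Nat.pow sn1 2)
        (Nat.add (Nat.mul 4 (Nat.mul (Nat.pow Uc 3) (Nat.pow S 3)))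
          (Nat.mul (Nat.mul 7 c) (Nat.pow Uc 6))))
      (b := Nat.mul (Nat.pow S 5) (Nat.pow Gd 2)) (by
        show 0 < S ^ 5 * Gd ^ 2
        positivity)).le
    simp only [Nat.add_eq, Nat.mul_eq, Nat.pow_eq] at h ⊢
    push_cast at h ⊢
    rw [hmS]
    have e : (((sn1 : ℝ) / Gd) ^ 2 * (4 * ((Uc : ℝ) / S) ^ 3 + 7 * c * ((Uc : ℝ) / S) ^ 6)
        - 9 / 4) * S =
        (sn1:ℝ) ^ 2 * (4 * ((Uc:ℝ) ^ 3 * S ^ 3) + 7 * c * Uc ^ 6) / (S ^ 5 * Gd ^ 2) - 9 * (S / 4) := by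
      field_simp
    rw [e]
    linarith


theorem m6Of_spec {S c Uc : ℕ} (hS : 0 < S) :
    6 * ((Uc : ℝ) / S) ^ 2 + 21 * c * ((Uc : ℝ) / S) ^ 5 = (m6Of S c Uc : ℝ) / S ^ 5 := by
  have hSr : (0:ℝ) < S := by exact_mod_cast hS
  unfold m6Of
  simp only [Nat.add_eq, Nat.mul_eq, Nat.pow_eq]
  push_cast
  field_simp

theorem m3Of_spec {S c Uc : ℕ} (hS : 0 < S) :
    4 * ((Uc : ℝ) / S) + 35 * c * ((Uc : ℝ) / S) ^ 4 = (m3Of S c Uc : ℝ) / S ^ 4 := by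
  have hSr : (0:ℝ) < S := by exact_mod_cast hS
  unfold m3Of
  simp only [Nat.add_eq, Nat.mul_eq, Nat.pow_eq]
  push_cast
  field_simp

theorem for1_spec {S Gd A1 g1 sn1 m6 Z0 : ℕ} (hS : 0 < S) (hGd : 0 < Gd) :
    2 * ((sn1 : ℝ) / Gd) * ((m6 : ℝ) / S ^ 5) * ((Z0 : ℝ) / S) * ((A1 : ℝ) / S) + (g1 : ℝ) / S ≤
      (for1 S Gd A1 g1 sn1 m6 Z0 : ℝ) / S := by
  have hSr : (0:ℝ) < S := by exact_mod_cast hS
  have hGr : (0:ℝ) < Gd := by exact_mod_cast hGd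
  unfold for1
  have h := (le_cdiv (a := Nat.mul (Nat.mul 2 sn1) (Nat.mul m6 (Nat.mul Z0 A1)))
    (b := Nat.mul Gd (Nat.pow S 6)) (by
      show 0 < Gd * S ^ 6
      positivity)).le
  simp only [Nat.add_eq, Nat.mul_eq, Nat.pow_eq] at h ⊢
  push_cast at h ⊢
  rw [add_div]
  have e : 2 * ((sn1 : ℝ) / Gd) * ((m6 : ℝ) / S ^ 5) * ((Z0 : ℝ) / S) * ((A1 : ℝ) / S) =
      (2 * (sn1:ℝ) * (m6 * (Z0 * A1)) / (Gd * S ^ 6)) / S := by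
    field_simp
  rw [e]
  gcongr

theorem for2_spec {S Gd A1 A2 g2 sn1 m6 m3 Z0 Z1 : ℕ} (hS : 0 < S) (hGd : 0 < Gd) :
    ((sn1 : ℝ) / Gd) * (((m6 : ℝ) / S ^ 5) * (2 * ((Z0 : ℝ) / S) * ((A2 : ℝ) / S) +
        ((Z1 : ℝ) / S) * (2 * ((A1 : ℝ) / S) + (Z1 : ℝ) / S)) +
      3 * ((m3 : ℝ) / S ^ 4) * ((Z0 : ℝ) / S) * ((A1 : ℝ) / S) ^ 2) + (g2 : ℝ) / S ≤
      (for2 S Gd A1 A2 g2 sn1 m6 m3 Z0 Z1 : ℝ) / S := by
  have hSr : (0:ℝ) < S := by exact_mod_cast hS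
  have hGr : (0:ℝ) < Gd := by exact_mod_cast hGd
  unfold for2
  have h := (le_cdiv (a := Nat.mul sn1 (Nat.add
      (Nat.mul m6 (Nat.add (Nat.mul 2 (Nat.mul Z0 A2))
        (Nat.mul Z1 (Nat.add (Nat.mul 2 A1) Z1))))
      (Nat.mul 3 (Nat.mul m3 (Nat.mul Z0 (Nat.pow A1 2))))))
    (b := Nat.mul Gd (Nat.pow S 6)) (by
      show 0 < Gd * S ^ 6
      positivity)).le
  simp only [Nat.add_eq, Nat.mul_eq, Nat.pow_eq] at h ⊢
  push_cast at h ⊢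
  rw [add_div]
  have e : ((sn1 : ℝ) / Gd) * (((m6 : ℝ) / S ^ 5) * (2 * ((Z0 : ℝ) / S) * ((A2 : ℝ) / S) +
        ((Z1 : ℝ) / S) * (2 * ((A1 : ℝ) / S) + (Z1 : ℝ) / S)) +
      3 * ((m3 : ℝ) / S ^ 4) * ((Z0 : ℝ) / S) * ((A1 : ℝ) / S) ^ 2) =
      ((sn1:ℝ) * (m6 * (2 * (Z0 * A2) + Z1 * (2 * A1 + Z1)) + 3 * (m3 * (Z0 * A1 ^ 2))) /
        (Gd * S ^ 6)) / S := by
    field_simp
  rw [e]
  gcongr

/-- unfolded form of `subStep` -/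
theorem subStep_elim {K : Cst} {sn W z0 z1 z2 : ℕ} {k : ℕ → ℕ → ℕ → Bool}
    (h : subStep K sn W z0 z1 z2 k = true) :
    ∃ y0 cap U kk xx ex Z0 f1 Z1 f2 Z2 : ℕ,
      y0 = z0 + cdiv (K.g0 * K.H) K.Gd ∧ cap = 3 * y0 + 2 ∧ U = max (W + z0) K.nu ∧
      kk = kOf K.S K.c K.Gd K.nu cap (U + cap) (sn + K.H) ∧
      xx = cdiv (kk * K.H) (2 * sn) ∧ ex = K.S + xx + cdiv (xx * xx) K.S ∧
      Z0 = cdiv (y0 * ex) K.S ∧
      f1 = for1 K.S K.Gd K.A1 K.g1 (sn + K.H) (m6Of K.S K.c (U + cap)) Z0 ∧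
      Z1 = cdiv ((z1 + cdiv (f1 * K.H) K.Gd) * ex) K.S ∧
      f2 = for2 K.S K.Gd K.A1 K.A2 K.g2 (sn + K.H) (m6Of K.S K.c (U + cap))
        (m3Of K.S K.c (U + cap)) Z0 Z1 ∧
      Z2 = cdiv ((z2 + cdiv (f2 * K.H) K.Gd) * ex) K.S ∧
      Z0 ≤ cap ∧ xx ≤ K.S ∧ 2 * (K.nu + cap) ≤ K.S ∧ U + cap ≤ 3 * K.S ∧ k Z0 Z1 Z2 = true := by
  simp only [subStep, force_eq, Bool.and_eq_true, mx_eq] at h
  obtain ⟨⟨⟨⟨h1, h2⟩, h3⟩, h4⟩, h5⟩ := h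
  exact ⟨_, _, _, _, _, _, _, _, _, _, _, rfl, rfl, rfl, rfl, rfl, rfl, rfl, rfl, rfl, rfl, rfl,
    Nat.le_of_ble_eq_true h1, Nat.le_of_ble_eq_true h2, Nat.le_of_ble_eq_true h3,
    Nat.le_of_ble_eq_true h4, h5⟩


theorem adv_spec {S Gd H z g ex : ℕ} {zr gr e : ℝ} (hS : 0 < S) (hGd : 0 < Gd)
    (hz : zr ≤ (z : ℝ) / S) (hz0 : 0 ≤ zr) (hg : gr ≤ (g : ℝ) / S) (hg0 : 0 ≤ gr)
    (he : e ≤ (ex : ℝ) / S) (he0 : 0 ≤ e) :
    (zr + gr * ((H : ℝ) / Gd)) * e ≤ (cdiv ((z + cdiv (g * H) Gd) * ex) S : ℝ) / S := by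
  have hSr : (0:ℝ) < S := by exact_mod_cast hS
  have hGr : (0:ℝ) < Gd := by exact_mod_cast hGd
  have h1 := (le_cdiv (a := g * H) (b := Gd) hGd).le
  have h2 := (le_cdiv (a := (z + cdiv (g * H) Gd) * ex) (b := S) hS).le
  have h3 : zr + gr * ((H : ℝ) / Gd) ≤ ((z : ℝ) + cdiv (g * H) Gd) / S := by
    rw [add_div]
    refine add_le_add hz ?_
    calc gr * ((H : ℝ) / Gd) ≤ (g : ℝ) / S * ((H : ℝ) / Gd) := by gcongr
      _ = ((g * H : ℕ) : ℝ) / Gd / S := by push_cast; field_simp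
      _ ≤ _ := by gcongr
  calc (zr + gr * ((H : ℝ) / Gd)) * e ≤ ((z : ℝ) + cdiv (g * H) Gd) / S * ((ex : ℝ) / S) := by
        have : 0 ≤ zr + gr * ((H : ℝ) / Gd) := by positivity
        gcongr
    _ = ((((z + cdiv (g * H) Gd) * ex : ℕ) : ℝ) / S) / S := by push_cast; field_simp
    _ ≤ _ := by gcongr

/-- the hypotheses of `cell_step` which do not depend on the error bounds -/
structure Ctx (v v1 p p1 ρ : ℝ → ℝ → ℝ) (K : Cst) (lo hi : ℝ) : Prop where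
  hv : ∀ a ∈ Icc (-1:ℝ) 1, ∀ t ∈ Icc lo hi, HasDerivAt (v a) (v1 a t) t
  hv1 : ∀ a ∈ Icc (-1:ℝ) 1, ∀ t ∈ Icc lo hi, -1 / 2 ≤ v a t → v a t ≤ 3 →
      HasDerivAt (v1 a) (-(2 / t) * v1 a t - fc K.c (v a t)) t
  hv1' : ∀ a ∈ Icc (-1:ℝ) 1, ∀ t ∈ Icc lo hi, ∃ w, HasDerivAt (v1 a) w t
  hp : ∀ a ∈ Icc (-1:ℝ) 1, ∀ t ∈ Icc lo hi, HasDerivAt (p a) (p1 a t) t
  hp1 : ∀ a ∈ Icc (-1:ℝ) 1, ∀ t ∈ Icc lo hi,
      HasDerivAt (p1 a) (-(2 / t) * p1 a t - fc K.c (p a t) + ρ a t) t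
  hvm : ∀ a ∈ Icc (-1:ℝ) 1, ∀ s ∈ Icc lo hi, ∀ t ∈ Icc lo hi, s ≤ t → v a t ≤ v a s
  hpν : ∀ a ∈ Icc (-1:ℝ) 1, ∀ t ∈ Icc lo hi, -((K.nu : ℝ) / K.S) ≤ p a t
  hp_1 : ∀ a ∈ Icc (-1:ℝ) 1, ∀ b ∈ Icc (-1:ℝ) 1, a ≠ b → ∀ t ∈ Icc lo hi,
      |d1 (fun s => p s t) a b| ≤ (K.A1 : ℝ) / K.S
  hp_2 : ∀ a ∈ Icc (-1:ℝ) 1, ∀ b ∈ Icc (-1:ℝ) 1, ∀ c ∈ Icc (-1:ℝ) 1, a ≠ b → b ≠ c → a ≠ c →
      ∀ t ∈ Icc lo hi, |d2 (fun s => p s t) a b c| ≤ (K.A2 : ℝ) / K.S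
  hρ0 : ∀ a ∈ Icc (-1:ℝ) 1, ∀ t ∈ Icc lo hi, t * |ρ a t| < (K.g0 : ℝ) / K.S
  hρ1 : ∀ a ∈ Icc (-1:ℝ) 1, ∀ b ∈ Icc (-1:ℝ) 1, a ≠ b → ∀ t ∈ Icc lo hi,
      t * |d1 (fun s => ρ s t) a b| < (K.g1 : ℝ) / K.S
  hρ2 : ∀ a ∈ Icc (-1:ℝ) 1, ∀ b ∈ Icc (-1:ℝ) 1, ∀ c ∈ Icc (-1:ℝ) 1, a ≠ b → b ≠ c → a ≠ c →
      ∀ t ∈ Icc lo hi, t * |d2 (fun s => ρ s t) a b c| < (K.g2 : ℝ) / K.S

theorem subStep_sound {K : Cst} {sn W z0 z1 z2 : ℕ} {k : ℕ → ℕ → ℕ → Bool}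
    (h : subStep K sn W z0 z1 z2 k = true) (hS : 0 < K.S) (hS4 : 4 ∣ K.S) (hc : K.c ≤ 1)
    (hGd : 0 < K.Gd) (hsn : 0 < sn) (hz0 : 0 < z0) (hz1 : 0 < z1) (hz2 : 0 < z2)
    {v v1 p p1 ρ : ℝ → ℝ → ℝ} {lo hi : ℝ} (ctx : Ctx v v1 p p1 ρ K lo hi)
    (hlo : lo ≤ (sn : ℝ) / K.Gd) (hhi : ((sn : ℝ) + K.H) / K.Gd ≤ hi)
    (hW : ∀ a ∈ Icc (-1:ℝ) 1, |p a ((sn : ℝ) / K.Gd)| ≤ (W : ℝ) / K.S)
    (hi0 : Inv v v1 p p1 ((sn : ℝ) / K.Gd) ((z0 : ℝ) / K.S) ((z1 : ℝ) / K.S) ((z2 : ℝ) / K.S)) :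
    ∃ Z0 Z1 Z2 : ℕ, k Z0 Z1 Z2 = true ∧ z0 ≤ Z0 ∧ z1 ≤ Z1 ∧ z2 ≤ Z2 ∧
      ∀ t ∈ Icc ((sn : ℝ) / K.Gd) (((sn : ℝ) + K.H) / K.Gd),
        Inv v v1 p p1 t ((Z0 : ℝ) / K.S) ((Z1 : ℝ) / K.S) ((Z2 : ℝ) / K.S) := by
  obtain ⟨y0, cap, U, kk, xx, ex, Z0, f1, Z1, f2, Z2, hy0, hcap, hU, hkk, hxx, hex, hZ0, hf1, hZ1,
    hf2, hZ2, c1, c2, c3, c4, hk⟩ := subStep_elim h
  have hSr : (0:ℝ) < K.S := by exact_mod_cast hS
  have hGr : (0:ℝ) < K.Gd := by exact_mod_cast hGd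
  have hsr : (0:ℝ) < sn := by exact_mod_cast hsn
  have hHr : (0:ℝ) ≤ K.H := Nat.cast_nonneg _
  have h01 : (sn : ℝ) / K.Gd ≤ ((sn : ℝ) + K.H) / K.Gd := by gcongr; linarith
  have hsub : ((sn : ℝ) + K.H) / K.Gd - (sn : ℝ) / K.Gd = (K.H : ℝ) / K.Gd := by ring
  have sub : Icc ((sn : ℝ) / K.Gd) (((sn : ℝ) + K.H) / K.Gd) ⊆ Icc lo hi :=
    Icc_subset_Icc hlo hhi
  -- basic real inequalities
  have r1 : (Z0 : ℝ) ≤ cap := by exact_mod_cast c1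
  have r2 : (xx : ℝ) ≤ K.S := by exact_mod_cast c2
  have r3 : 2 * ((K.nu : ℝ) + cap) ≤ K.S := by exact_mod_cast c3
  have r4 : (U : ℝ) + cap ≤ 3 * K.S := by exact_mod_cast c4
  have rnu : (K.nu : ℝ) ≤ U := by rw [hU]; exact_mod_cast le_max_right _ _
  have rW : (W : ℝ) + z0 ≤ U := by rw [hU]; exact_mod_cast le_max_left _ _
  have hnu0 : (0:ℝ) ≤ K.nu := Nat.cast_nonneg _
  have hZ00 : (0:ℝ) ≤ Z0 := Nat.cast_nonneg _
  -- the exponential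
  have hx0 : (0:ℝ) ≤ (kk : ℝ) / K.S * (((sn : ℝ) + K.H) / K.Gd - (sn : ℝ) / K.Gd) /
      (2 * ((sn : ℝ) / K.Gd)) := by
    rw [hsub]; positivity
  have hxle : (kk : ℝ) / K.S * (((sn : ℝ) + K.H) / K.Gd - (sn : ℝ) / K.Gd) /
      (2 * ((sn : ℝ) / K.Gd)) ≤ (xx : ℝ) / K.S := by
    rw [hsub]
    have h1 := (le_cdiv (a := kk * K.H) (b := 2 * sn) (by omega)).le
    rw [← hxx] at h1
    push_cast at h1
    have e : (kk : ℝ) / K.S * ((K.H : ℝ) / K.Gd) / (2 * ((sn : ℝ) / K.Gd)) =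
        ((kk : ℝ) * K.H / (2 * sn)) / K.S := by field_simp
    rw [e]
    gcongr
  have hexp : Real.exp ((kk : ℝ) / K.S * (((sn : ℝ) + K.H) / K.Gd - (sn : ℝ) / K.Gd) /
      (2 * ((sn : ℝ) / K.Gd))) ≤ (ex : ℝ) / K.S := by
    have hx1 : (xx : ℝ) / K.S ≤ 1 := by rw [div_le_one hSr]; exact r2
    refine (Real.exp_le_exp.2 hxle).trans ?_
    refine (snd_exp (by positivity) hx1).trans ?_
    have h1 := (le_cdiv (a := xx * xx) (b := K.S) hS).le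
    rw [hex, le_div_iff₀ hSr]
    push_cast at h1 ⊢
    have e : (1 + (xx : ℝ) / K.S + ((xx : ℝ) / K.S) ^ 2) * K.S =
        K.S + xx + (xx : ℝ) * xx / K.S := by field_simp
    rw [e]
    linarith
  have hexp0 : 0 ≤ Real.exp ((kk : ℝ) / K.S * (((sn : ℝ) + K.H) / K.Gd - (sn : ℝ) / K.Gd) /
      (2 * ((sn : ℝ) / K.Gd))) := (Real.exp_pos _).le
  have hexS : K.S ≤ ex := by rw [hex]; omega
  -- monotonicity of the bounds
  have mono : ∀ z g Z : ℕ, Z = cdiv ((z + g) * ex) K.S → z ≤ Z := by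
    intro z g Z hZ
    have h1 := (le_cdiv (a := (z + g) * ex) (b := K.S) hS).le
    rw [← hZ] at h1
    have h2 : (z : ℝ) ≤ Z := by
      refine le_trans ?_ h1
      rw [le_div_iff₀ hSr]
      have : z * K.S ≤ (z + g) * ex := Nat.mul_le_mul (by omega) hexS
      exact_mod_cast this
    exact_mod_cast h2
  refine ⟨Z0, Z1, Z2, hk, mono z0 _ Z0 (by rw [hZ0, hy0]), mono z1 _ Z1 hZ1, mono z2 _ Z2 hZ2, ?_⟩
  have hνZ : (K.nu : ℝ) / K.S + (Z0 : ℝ) / K.S ≤ ((K.nu : ℝ) + cap) / K.S := by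
    rw [← add_div]; gcongr
  have hUZ : (U : ℝ) / K.S + (Z0 : ℝ) / K.S ≤ ((U + cap : ℕ) : ℝ) / K.S := by
    rw [← add_div]; push_cast; gcongr
  have hk12 := kOf_spec (S := K.S) (c := K.c) (Gd := K.Gd) (nu := K.nu) (cap := cap)
    (Uc := U + cap) (sn1 := sn + K.H) hS hS4 hGd
  rw [← hkk] at hk12
  have hsn1 : (((sn + K.H : ℕ) : ℝ)) / K.Gd = ((sn : ℝ) + K.H) / K.Gd := by push_cast; rfl
  rw [hsn1] at hk12
  obtain ⟨hk1, hk2⟩ := hk12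
  have hz0r : (0:ℝ) < (z0 : ℝ) / K.S := by
    have : (0:ℝ) < z0 := by exact_mod_cast hz0
    positivity
  have hz1r : (0:ℝ) < (z1 : ℝ) / K.S := by
    have : (0:ℝ) < z1 := by exact_mod_cast hz1
    positivity
  have hz2r : (0:ℝ) < (z2 : ℝ) / K.S := by
    have : (0:ℝ) < z2 := by exact_mod_cast hz2
    positivity
  have hc1' : (K.c : ℝ) ≤ 1 := by exact_mod_cast hc
  have hc0' : (0 : ℝ) ≤ K.c := Nat.cast_nonneg _
  have hM6 : 6 * ((U : ℝ) / K.S + (Z0 : ℝ) / K.S) ^ 2 +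
      21 * K.c * ((U : ℝ) / K.S + (Z0 : ℝ) / K.S) ^ 5 ≤ (m6Of K.S K.c (U + cap) : ℝ) / K.S ^ 5 := by
    rw [← m6Of_spec hS]
    gcongr
  have hM3 : 4 * ((U : ℝ) / K.S + (Z0 : ℝ) / K.S) +
      35 * K.c * ((U : ℝ) / K.S + (Z0 : ℝ) / K.S) ^ 4 ≤ (m3Of K.S K.c (U + cap) : ℝ) / K.S ^ 4 := by
    rw [← m3Of_spec hS]
    gcongr
  refine cell_step (c := K.c) (ν := (K.nu : ℝ) / K.S) (U0 := (U : ℝ) / K.S)
    (z0 := (z0 : ℝ) / K.S) (z1 := (z1 : ℝ) / K.S) (z2 := (z2 : ℝ) / K.S)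
    (g0 := (K.g0 : ℝ) / K.S) (g1 := (K.g1 : ℝ) / K.S) (g2 := (K.g2 : ℝ) / K.S)
    (P1 := (K.A1 : ℝ) / K.S) (P2 := (K.A2 : ℝ) / K.S) (k := (kk : ℝ) / K.S) (ρ := ρ)
    hc0' hc1' (by positivity) h01 hz0r hz1r hz2r (by positivity) (by positivity) (by positivity)
    (by positivity) (by gcongr) (by positivity) (by positivity) (by positivity)
    (fun a ha t ht => ctx.hv a ha t (sub ht)) (fun a ha t ht => ctx.hv1 a ha t (sub ht))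
    (fun a ha t ht => ctx.hv1' a ha t (sub ht)) (fun a ha t ht => ctx.hp a ha t (sub ht))
    (fun a ha t ht => ctx.hp1 a ha t (sub ht)) ?_ (fun a ha t ht => ctx.hpν a ha t (sub ht))
    (fun a ha b hb hab t ht => ctx.hp_1 a ha b hb hab t (sub ht))
    (fun a ha b hb c hc hab hbc hac t ht => ctx.hp_2 a ha b hb c hc hab hbc hac t (sub ht))
    (fun a ha t ht => ctx.hρ0 a ha t (sub ht))
    (fun a ha b hb hab t ht => ctx.hρ1 a ha b hb hab t (sub ht))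
    (fun a ha b hb c hc hab hbc hac t ht => ctx.hρ2 a ha b hb c hc hab hbc hac t (sub ht))
    hi0 ?_ ?_ ?_ ?_ ?_ ?_ ?_ ?_
  · -- values of `v`
    intro a ha t ht
    have h1 := ctx.hvm a ha _ (sub (left_mem_Icc.2 h01)) t (sub ht) ht.1
    have h2 := abs_of_Psi hz0r.le (hi0.l0 a ha)
    have h3 := hW a ha
    have h4 := (abs_le.1 h2).2
    have h5 := (abs_le.1 h3).2
    have h6 : (W : ℝ) / K.S + (z0 : ℝ) / K.S ≤ (U : ℝ) / K.S := by rw [← add_div]; gcongr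
    linarith
  · refine hνZ.trans ?_
    rw [div_le_iff₀ hSr]; linarith
  · refine hUZ.trans ?_
    rw [div_le_iff₀ hSr]; push_cast; exact r4
  · gcongr
  · refine le_trans ?_ hk1
    gcongr
  · refine le_trans ?_ hk2
    gcongr
  · rw [hsub] at hexp hexp0 ⊢
    have h1 := adv_spec (S := K.S) (Gd := K.Gd) (H := K.H) (z := z0) (g := K.g0) (ex := ex) hS hGd
      le_rfl hz0r.le (le_refl ((K.g0 : ℝ) / K.S)) (by positivity) hexp hexp0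
    rw [← hy0, ← hZ0] at h1
    exact h1
  · rw [hsub] at hexp hexp0 ⊢
    have h0 := for1_spec (S := K.S) (Gd := K.Gd) (A1 := K.A1) (g1 := K.g1) (sn1 := sn + K.H)
      (m6 := m6Of K.S K.c (U + cap)) (Z0 := Z0) hS hGd
    rw [← hf1, hsn1] at h0
    have h1 := adv_spec (S := K.S) (Gd := K.Gd) (H := K.H) (z := z1) (g := f1) (ex := ex) hS hGd
      le_rfl hz1r.le h0 (by positivity) hexp hexp0
    rw [← hZ1] at h1
    refine le_trans ?_ h1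
    gcongr
  · rw [hsub] at hexp hexp0 ⊢
    have h0 := for2_spec (S := K.S) (Gd := K.Gd) (A1 := K.A1) (A2 := K.A2) (g2 := K.g2)
      (sn1 := sn + K.H) (m6 := m6Of K.S K.c (U + cap)) (m3 := m3Of K.S K.c (U + cap)) (Z0 := Z0)
      (Z1 := Z1) hS hGd
    rw [← hf2, hsn1] at h0
    have h1 := adv_spec (S := K.S) (Gd := K.Gd) (H := K.H) (z := z2) (g := f2) (ex := ex) hS hGd
      le_rfl hz2r.le h0 (by positivity) hexp hexp0
    rw [← hZ2] at h1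
    refine le_trans ?_ h1
    gcongr


theorem subRec_sound {P : Par} {K : Cst} {B0 V N : ℕ} {col : List ℕ} {k : ℕ → ℕ → ℕ → Bool}
    (hS : 0 < K.S) (hS4 : 4 ∣ K.S) (hc : K.c ≤ 1) (hGd : 0 < K.Gd) (hB0 : 0 < B0)
    {v v1 p p1 ρ : ℝ → ℝ → ℝ} {lo hi : ℝ} (ctx : Ctx v v1 p p1 ρ K lo hi)
    (hlo : lo ≤ (B0 : ℝ) / K.Gd) (hhi : ((B0 + K.H * N : ℕ) : ℝ) / K.Gd ≤ hi)
    (hWof : ∀ q : ℕ, q ≤ N → ∀ k : ℕ → Bool, ∃ W : ℕ, wOf P col V q k = k W ∧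
      ∀ a ∈ Icc (-1:ℝ) 1, |p a (((B0 + K.H * q : ℕ) : ℝ) / K.Gd)| ≤ (W : ℝ) / K.S)
    (n : ℕ) : ∀ q z0 z1 z2 : ℕ, q + n ≤ N → 0 < z0 → 0 < z1 → 0 < z2 →
      subRec P K B0 col V n q z0 z1 z2 k = true →
      Inv v v1 p p1 (((B0 + K.H * q : ℕ) : ℝ) / K.Gd) ((z0 : ℝ) / K.S) ((z1 : ℝ) / K.S)
        ((z2 : ℝ) / K.S) →
      ∃ Z0 Z1 Z2 : ℕ, k Z0 Z1 Z2 = true ∧ z0 ≤ Z0 ∧ z1 ≤ Z1 ∧ z2 ≤ Z2 ∧
        ∀ t ∈ Icc (((B0 + K.H * q : ℕ) : ℝ) / K.Gd) (((B0 + K.H * (q + n) : ℕ) : ℝ) / K.Gd),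
          Inv v v1 p p1 t ((Z0 : ℝ) / K.S) ((Z1 : ℝ) / K.S) ((Z2 : ℝ) / K.S) := by
  have hSr : (0:ℝ) < K.S := by exact_mod_cast hS
  have hGr : (0:ℝ) < K.Gd := by exact_mod_cast hGd
  induction n with
  | zero =>
    intro q z0 z1 z2 _ _ _ _ h hi0
    refine ⟨z0, z1, z2, h, le_rfl, le_rfl, le_rfl, ?_⟩
    intro t ht
    rw [add_zero, Icc_self, mem_singleton_iff] at ht
    rw [ht]
    exact hi0
  | succ n ih =>
    intro q z0 z1 z2 hq hz0 hz1 hz2 h hi0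
    have h' : wOf P col V q (fun W => subStep K (Nat.add B0 (Nat.mul K.H q)) W z0 z1 z2
        (fun Z0 Z1 Z2 => subRec P K B0 col V n (Nat.succ q) Z0 Z1 Z2 k)) = true := h
    obtain ⟨W, hW1, hW2⟩ := hWof q (by omega) (fun W => subStep K (Nat.add B0 (Nat.mul K.H q)) W
      z0 z1 z2 (fun Z0 Z1 Z2 => subRec P K B0 col V n (Nat.succ q) Z0 Z1 Z2 k))
    rw [hW1] at h'
    have h2 : subStep K (B0 + K.H * q) W z0 z1 z2
        (fun Z0 Z1 Z2 => subRec P K B0 col V n (Nat.succ q) Z0 Z1 Z2 k) = true := h'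
    have hend : (((B0 + K.H * q : ℕ) : ℝ) + K.H) / K.Gd =
        ((B0 + K.H * (q + 1) : ℕ) : ℝ) / K.Gd := by
      push_cast; ring
    obtain ⟨Y0, Y1, Y2, hY, y0, y1, y2, hYi⟩ := subStep_sound h2 hS hS4 hc hGd (by omega) hz0 hz1
      hz2 ctx (hlo.trans (by gcongr; omega)) (by
        rw [hend]
        refine le_trans ?_ hhi
        gcongr
        omega) hW2 hi0
    rw [hend] at hYi
    have hle1 : ((B0 + K.H * q : ℕ) : ℝ) / K.Gd ≤ ((B0 + K.H * (q + 1) : ℕ) : ℝ) / K.Gd := by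
      gcongr; omega
    obtain ⟨Z0, Z1, Z2, hZ, zz0, zz1, zz2, hZi⟩ := ih (q + 1) Y0 Y1 Y2 (by omega) (by omega)
      (by omega) (by omega) hY (hYi _ (right_mem_Icc.2 hle1))
    refine ⟨Z0, Z1, Z2, hZ, y0.trans zz0, y1.trans zz1, y2.trans zz2, ?_⟩
    intro t ht
    rcases le_total t (((B0 + K.H * (q + 1) : ℕ) : ℝ) / K.Gd) with hc1 | hc1
    · refine (hYi t ⟨ht.1, hc1⟩).snd_mono (by positivity) (by positivity) (by positivity) ?_ ?_ ?_ <;>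
        gcongr
    · refine hZi t ⟨hc1, ?_⟩
      rw [show q + 1 + n = q + (n + 1) by ring]
      exact ht.2

theorem F_eq_fc {x : ℝ} (h1 : -1 / 2 ≤ x) (h2 : x ≤ 3) : F x = fc 1 x := by
  unfold F f fc cl
  rw [min_eq_left h2, max_eq_right h1]
  ring

theorem nbAll_eq {β : Type} (P : Par) (C : CellD) (k : ℕ → ℕ → ℕ → β) :
    nbAll P C k = k (nbAll P C fun a _ _ => a) (nbAll P C fun _ b _ => b)
      (nbAll P C fun _ _ c => c) := rfl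

theorem rows_cons (P : Par) (C : CellD) : ∃ (x : ℕ) (r : List ℕ) (D : List (List ℕ)),
    C.rows P = (x :: r) :: D := by
  have h1 := rows_length P C
  have h2 := rows_row_length P C
  rcases hD : C.rows P with _ | ⟨r, D⟩
  · rw [hD] at h1; simp at h1
  · have h3 := h2 r (by rw [hD]; simp)
    rcases r with _ | ⟨x, r⟩
    · simp at h3
    · exact ⟨x, r, D, rfl⟩

theorem head00 (P : Par) (C : CellD) : (((C.poly P).headD []).headD 0 : ℤ) =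
    ((colOf (C.rows P)).headD 0 : ℤ) - P.O := by
  obtain ⟨x, r, D, h⟩ := rows_cons P C
  simp [CellD.poly, colOf, toI, h]

theorem x_mem_of {C : CellD} (hH : 0 < C.H) {t : ℝ} (ht : t ∈ Icc C.a0 C.a1) :
    C.x t ∈ Icc (-1:ℝ) 1 := C.x_mem hH ht

/-- the context of a cell -/
theorem ctx_of {P : Par} {C : CellD} (hc : P.c = 1) (hb : 0 < P.b) (hH : 0 < C.H)
    (hr : resOK P C (N0 (C.poly P)) (M1 (C.poly P)) (M2 (C.poly P)) = true)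
    {al : ℝ → ℝ} {v v1 : ℝ → ℝ → ℝ} (hv : ∀ a ∈ Icc (-1:ℝ) 1, IsSol (al a) (v a) (v1 a))
    {lo hi : ℝ} (hlo : 0 < lo) (hx : ∀ t ∈ Icc lo hi, C.x t ∈ Icc (-1:ℝ) 1)
    {K : Cst} (h1 : K.S = 2 ^ P.s) (h2 : K.c = P.c)
    (h3 : (N0 (C.poly P) : ℝ) - 2 * (((C.poly P).headD []).headD 0 : ℤ) ≤ K.nu)
    (h4 : K.A1 = N1 (C.poly P)) (h5 : K.A2 = N2 (C.poly P))
    (h6 : K.g0 = gBnd P C (nbAll P C fun a _ _ => a)) (h7 : K.g1 = gBnd P C (nbAll P C fun _ a _ => a))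
    (h8 : K.g2 = gBnd P C (nbAll P C fun _ _ a => a)) :
    Ctx v v1 (pC P C) (pC1 P C) (rC P C) K lo hi := by
  have hcf := cell_facts (P := P) (C := C) (by omega) hb hH hr
  rw [nbAll_eq] at hcf
  have hKc : (K.c : ℝ) = 1 := by rw [h2, hc]; simp
  have hPc : (P.c : ℝ) = 1 := by rw [hc]; simp
  have hKS : (K.S : ℝ) = 2 ^ P.s := by rw [h1]; push_cast; rfl
  constructor
  · intro a ha t _
    exact (hv a ha).h0 t
  · intro a ha t ht e1 e2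
    have h := (hv a ha).h1 t (hlo.trans_le ht.1).ne'
    rw [F_eq_fc e1 e2] at h
    rw [hKc]
    exact h
  · intro a ha t ht
    exact ⟨_, (hv a ha).h1 t (hlo.trans_le ht.1).ne'⟩
  · intro a _ t _
    exact pC_hasDerivAt P C hH a t
  · intro a _ t _
    rw [h2]
    exact pC1_hasDerivAt P C hH a t
  · intro a ha s hs t ht hst
    exact sol_antitone (hv a ha) (hlo.trans_le hs.1).le (hlo.trans_le ht.1).le hst
  · intro a ha t ht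
    have h := (pC_facts (P := P) (hx t ht)).2.2.2.1 a ha
    refine le_trans ?_ h
    rw [hKS, ← neg_div]
    gcongr
    linarith
  · intro a ha b hb hab t ht
    rw [hKS, h4]
    exact (pC_facts (P := P) (hx t ht)).2.1 a ha b hb hab
  · intro a ha b hb c hc hab hbc hac t ht
    rw [hKS, h5]
    exact (pC_facts (P := P) (hx t ht)).2.2.1 a ha b hb c hc hab hbc hac
  · intro a ha t ht
    rw [hKS, h6]
    exact (hcf t (hlo.trans_le ht.1) (hx t ht)).1 a ha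
  · intro a ha b hb hab t ht
    rw [hKS, h7]
    exact (hcf t (hlo.trans_le ht.1) (hx t ht)).2.1 a ha b hb hab
  · intro a ha b hb c hc hab hbc hac t ht
    rw [hKS, h8]
    exact (hcf t (hlo.trans_le ht.1) (hx t ht)).2.2.1 a ha b hb c hc hab hbc hac

theorem four_dvd_S {s : ℕ} (h : 2 ≤ s) : 4 ∣ 2 ^ s := by
  obtain ⟨m, rfl⟩ := Nat.exists_eq_add_of_le h
  rw [pow_add]
  exact Dvd.intro _ rfl

/-- one subinterval: `subStep` passes on numbers for which `cell_step` applies -/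
theorem cell_sound {P : Par} {C : CellD} (hc : P.c = 1) (h : cellOK P C = true)
    {al : ℝ → ℝ} {v v1 : ℝ → ℝ → ℝ} (hv : ∀ a ∈ Icc (-1:ℝ) 1, IsSol (al a) (v a) (v1 a))
    (hi : Inv v v1 (pC P C) (pC1 P C) C.a0 (C.i0 / 2 ^ P.s) (C.i1 / 2 ^ P.s) (C.i2 / 2 ^ P.s)) :
    0 < C.a0 ∧ C.a0 < C.a1 ∧ ∀ t ∈ Icc C.a0 C.a1,
      Inv v v1 (pC P C) (pC1 P C) t (C.o0 / 2 ^ P.s) (C.o1 / 2 ^ P.s) (C.o2 / 2 ^ P.s) := by
  simp only [cellOK, nrmAll_spec, nrm_spec, force_eq, Bool.and_eq_true] at h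
  obtain ⟨⟨⟨⟨⟨⟨⟨⟨⟨hH, hHM⟩, hhn⟩, hs⟩, -⟩, hb⟩, hi0⟩, hi1⟩, hi2⟩, hr, hrec⟩ := h
  replace hH : 0 < C.H := by simpa using hH
  replace hHM : C.H < C.M := by simpa using hHM
  replace hhn : 0 < P.hn := by simpa using hhn
  replace hs : 2 ≤ P.s := Nat.le_of_ble_eq_true hs
  replace hb : 0 < P.b := by simpa using hb
  replace hi0 : 0 < C.i0 := by simpa using hi0
  replace hi1 : 0 < C.i1 := by simpa using hi1
  replace hi2 : 0 < C.i2 := by simpa using hi2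
  rw [nbAll_eq] at hrec
  have hHr : (0:ℝ) < C.H := by exact_mod_cast hH
  have hHMr : (C.H : ℝ) < C.M := by exact_mod_cast hHM
  have hnr : (0:ℝ) < P.hn := by exact_mod_cast hhn
  have hGr : (0:ℝ) < (2:ℝ) ^ C.g := by positivity
  have ha0 : 0 < C.a0 := by unfold CellD.a0; apply div_pos _ hGr; linarith
  have ha01 : C.a0 < C.a1 := by unfold CellD.a0 CellD.a1; gcongr; linarith
  have hMH : ((C.M - C.H : ℕ) : ℝ) = (C.M : ℝ) - C.H := by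
    rw [Nat.cast_sub hHM.le]
  have e0 : C.a0 = ((P.hn * (C.M - C.H) + C.H * 0 : ℕ) : ℝ) / ((P.hn * 2 ^ C.g : ℕ) : ℝ) := by
    unfold CellD.a0
    push_cast
    rw [hMH]
    field_simp
    ring
  have e1 : C.a1 = ((P.hn * (C.M - C.H) + C.H * (2 * P.hn) : ℕ) : ℝ) /
      ((P.hn * 2 ^ C.g : ℕ) : ℝ) := by
    unfold CellD.a1
    push_cast
    rw [hMH]
    field_simp
    ring
  set K : Cst := ⟨Nat.pow 2 P.s, P.c, P.hn * 2 ^ C.g, C.H,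
    Nat.sub (Nat.add (N0 (toI P.O (C.rows P))) (Nat.mul 2 P.O))
      (Nat.mul 2 ((colOf (C.rows P)).headD 0)),
    N1 (toI P.O (C.rows P)), N2 (toI P.O (C.rows P)), gBnd P C (nbAll P C fun a _ _ => a),
    gBnd P C (nbAll P C fun _ b _ => b), gBnd P C (nbAll P C fun _ _ c => c)⟩ with hK
  have ctx : Ctx v v1 (pC P C) (pC1 P C) (rC P C) K C.a0 C.a1 := by
    refine ctx_of hc hb hH hr hv ha0 (fun t ht => C.x_mem hH ht) rfl rfl ?_ rfl rfl rfl rfl rfl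
    rw [head00]
    have h1 := nat_sub_ge (Nat.add (N0 (toI P.O (C.rows P))) (Nat.mul 2 P.O))
      (Nat.mul 2 ((colOf (C.rows P)).headD 0))
    refine le_trans ?_ h1
    simp only [Nat.add_eq, Nat.mul_eq]
    push_cast
    show _ ≤ (N0 (C.poly P) : ℝ) + 2 * P.O - _
    linarith
  have hKS : (K.S : ℝ) = 2 ^ P.s := by
    show ((2 ^ P.s : ℕ) : ℝ) = _
    push_cast; rfl
  obtain ⟨Z0, Z1, Z2, hZ, -, -, -, hZi⟩ := subRec_sound (P := P) (K := K)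
    (B0 := P.hn * (C.M - C.H)) (V := Nat.sub (N0 (toI P.O (C.rows P)))
      (n0 (toZ P.O (colOf (C.rows P))))) (N := 2 * P.hn) (col := colOf (C.rows P))
    (k := fun Z0 Z1 Z2 => Nat.ble Z0 C.o0 && Nat.ble Z1 C.o1 && Nat.ble Z2 C.o2)
    (by show 0 < 2 ^ P.s; positivity) (four_dvd_S hs) (by show P.c ≤ 1; omega)
    (by show 0 < P.hn * 2 ^ C.g; positivity) (Nat.mul_pos hhn (by omega)) ctx
    (by
      have : C.a0 = ((P.hn * (C.M - C.H) : ℕ) : ℝ) / (K.Gd : ℝ) := by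
        rw [e0, mul_zero, add_zero]
      exact this.le) (le_of_eq e1.symm)
    (fun q hq k => by
      obtain ⟨W, hW, hW2⟩ := wOf_sound (P := P) (C := C) hb hH hHM.le hhn hq k
      refine ⟨W, hW, fun a ha => ?_⟩
      rw [hKS]
      exact hW2 a ha)
    (2 * P.hn) 0 C.i0 C.i1 C.i2 (by omega) hi0 hi1 hi2 hrec (by
      rw [hKS]
      have : (((P.hn * (C.M - C.H) + K.H * 0 : ℕ) : ℝ) / (K.Gd : ℝ)) = C.a0 := e0.symm
      rw [this]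
      exact hi)
  refine ⟨ha0, ha01, ?_⟩
  intro t ht
  simp only [Bool.and_eq_true] at hZ
  obtain ⟨⟨b0, b1⟩, b2⟩ := hZ
  replace b0 : Z0 ≤ C.o0 := Nat.le_of_ble_eq_true b0
  replace b1 : Z1 ≤ C.o1 := Nat.le_of_ble_eq_true b1
  replace b2 : Z2 ≤ C.o2 := Nat.le_of_ble_eq_true b2
  have h1 := hZi t ⟨by
      have : (((P.hn * (C.M - C.H) + K.H * 0 : ℕ) : ℝ) / (K.Gd : ℝ)) = C.a0 := e0.symm
      rw [this]; exact ht.1, by
      have : (((P.hn * (C.M - C.H) + K.H * (0 + 2 * P.hn) : ℕ) : ℝ) / (K.Gd : ℝ)) = C.a1 := by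
        rw [zero_add]; exact e1.symm
      rw [this]; exact ht.2⟩
  rw [hKS] at h1
  refine h1.snd_mono (by positivity) (by positivity) (by positivity) ?_ ?_ ?_ <;> gcongr


theorem adv_first {S G H kk g Z : ℕ} {gr : ℝ} (hS : 0 < S) (hG : 0 < G) (hH : 0 < H)
    (hkk : 4 * kk ≤ 7 * S) (hZ : Z = cdiv (2 * (g * (S * H))) ((2 * S - kk) * G))
    (hg : gr ≤ (g : ℝ) / S) :
    (kk : ℝ) / S * ((Z : ℝ) / S / ((H : ℝ) / G)) + 2 * gr ≤ 2 * ((Z : ℝ) / S / ((H : ℝ) / G)) := by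
  have hSr : (0:ℝ) < S := by exact_mod_cast hS
  have hGr : (0:ℝ) < G := by exact_mod_cast hG
  have hHr : (0:ℝ) < H := by exact_mod_cast hH
  have hlt : kk < 2 * S := by omega
  have h := le_cdiv' (a := 2 * (g * (S * H))) (b := (2 * S - kk) * G)
    (Nat.mul_pos (by omega) hG)
  rw [← hZ] at h
  push_cast [Nat.cast_sub hlt.le] at h
  have e : 2 * ((Z : ℝ) / S / ((H : ℝ) / G)) - (kk : ℝ) / S * ((Z : ℝ) / S / ((H : ℝ) / G)) =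
      (Z : ℝ) * ((2 * S - kk) * G) / (S ^ 2 * H) := by
    field_simp
  have h2 : 2 * ((g : ℝ) / S) ≤ (Z : ℝ) * ((2 * S - kk) * G) / (S ^ 2 * H) := by
    rw [le_div_iff₀ (by positivity)]
    refine le_trans (le_of_eq ?_) h
    field_simp
  linarith

theorem allEq_toZ {O : ℕ} {l : List ℕ} (h : allEq O l = true) (a : ℝ) : ev1 (toZ O l) a = 0 := by
  induction l with
  | nil => simp [toZ]
  | cons x l ih =>
    have h' : (Nat.beq x O && allEq O l) = true := h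
    rw [Bool.and_eq_true] at h'
    have hx : x = O := Nat.eq_of_beq_eq_true h'.1
    have h2 := ih h'.2
    have h3 : toZ O (x :: l) = ((x : ℤ) - (O : ℤ)) :: toZ O l := rfl
    rw [h3, ev1_cons, h2, hx]
    simp

theorem firstRows_spec {P : Par} {C : CellD} {ac ar : ℕ}
    (h : firstRows P.O ac ar (C.rows P) = true) (a : ℝ) :
    ev2 (C.poly P) 0 a = (ac : ℝ) + ar * a ∧ ev2 (der2 (C.poly P)) 0 a = 0 ∧
      (((C.poly P).headD []).headD 0 : ℤ) = ac := by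
  unfold CellD.poly
  rcases hD : C.rows P with _ | ⟨r0, _ | ⟨r1, D⟩⟩
  · rw [hD] at h; simp [firstRows] at h
  · rw [hD] at h
    rcases r0 with _ | ⟨x, _ | ⟨y, r⟩⟩ <;> simp [firstRows] at h
  · rcases r0 with _ | ⟨x, _ | ⟨y, r⟩⟩
    · rw [hD] at h; simp [firstRows] at h
    · rw [hD] at h; simp [firstRows] at h
    · rw [hD] at h
      simp only [firstRows, Bool.and_eq_true] at h
      obtain ⟨⟨⟨h1, h2⟩, h3⟩, h4⟩ := h
      have h1' : x = P.O + ac := Nat.eq_of_beq_eq_true h1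
      have h2' : y = P.O + ar := Nat.eq_of_beq_eq_true h2
      have h3' := allEq_toZ h3 a
      have h4' := allEq_toZ h4 a
      have e : toI P.O ((x :: y :: r) :: r1 :: D) =
          (((x : ℤ) - (P.O : ℤ)) :: ((y : ℤ) - (P.O : ℤ)) :: toZ P.O r) :: toZ P.O r1 ::
            toI P.O D := rfl
      rw [e]
      refine ⟨?_, ?_, ?_⟩
      · rw [ev2_cons, ev1_cons, ev1_cons, h3', h1', h2']
        push_cast
        ring
      · rw [der2, ev2_add2, ev2_cons, ev2_cons, h4']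
        simp
      · simp [h1']

/-- unfolded form of `firstOK` -/
theorem firstOK_elim {P : Par} {C : CellD} {ac ar : ℕ} (h : firstOK P ac ar C = true) :
    C.M = 0 ∧ 0 < C.H ∧ 2 ≤ P.s ∧ 0 < P.b ∧ firstRows P.O ac ar (C.rows P) = true ∧
    resOK P C (N0 (C.poly P)) (M1 (C.poly P)) (M2 (C.poly P)) = true ∧
    ∃ g0 g1 g2 nu cap kk Z0 f1 Z1 f2 Z2 : ℕ,
      g0 = gBnd P C (nbAll P C fun a _ _ => a) ∧ g1 = gBnd P C (nbAll P C fun _ a _ => a) ∧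
      g2 = gBnd P C (nbAll P C fun _ _ a => a) ∧ nu = N0 (C.poly P) - 2 * ac ∧
      cap = cdiv (8 * (g0 * C.H)) (2 ^ C.g) ∧
      kk = kOf (2 ^ P.s) P.c (2 ^ C.g) nu cap (ac + ar + cap) C.H ∧
      Z0 = cdiv (2 * (g0 * (2 ^ P.s * C.H))) ((2 * 2 ^ P.s - kk) * 2 ^ C.g) ∧
      f1 = for1 (2 ^ P.s) (2 ^ C.g) (N1 (C.poly P)) g1 C.H (m6Of (2 ^ P.s) P.c (ac + ar + cap)) Z0 ∧
      Z1 = cdiv (2 * (f1 * (2 ^ P.s * C.H))) ((2 * 2 ^ P.s - kk) * 2 ^ C.g) ∧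
      f2 = for2 (2 ^ P.s) (2 ^ C.g) (N1 (C.poly P)) (N2 (C.poly P)) g2 C.H
        (m6Of (2 ^ P.s) P.c (ac + ar + cap)) (m3Of (2 ^ P.s) P.c (ac + ar + cap)) Z0 Z1 ∧
      Z2 = cdiv (2 * (f2 * (2 ^ P.s * C.H))) ((2 * 2 ^ P.s - kk) * 2 ^ C.g) ∧
      4 * kk ≤ 7 * 2 ^ P.s ∧ Z0 ≤ cap ∧ 2 * (nu + cap) ≤ 2 ^ P.s ∧ ac + ar + cap ≤ 3 * 2 ^ P.s ∧
      nu ≤ ac + ar ∧ Z0 ≤ C.o0 ∧ Z1 ≤ C.o1 ∧ Z2 ≤ C.o2 := by
  simp only [firstOK, nrmAll_spec, force_eq, Bool.and_eq_true] at h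
  obtain ⟨⟨⟨⟨⟨⟨hM, hH⟩, hs⟩, -⟩, hb⟩, hf⟩, hr, hrec⟩ := h
  rw [nbAll_eq] at hrec
  simp only [Bool.and_eq_true] at hrec
  obtain ⟨⟨⟨⟨⟨⟨⟨c1, c2⟩, c3⟩, c4⟩, c5⟩, c6⟩, c7⟩, c8⟩ := hrec
  exact ⟨Nat.eq_of_beq_eq_true hM, by simpa using hH, Nat.le_of_ble_eq_true hs, by simpa using hb,
    hf, hr, _, _, _, _, _, _, _, _, _, _, _, rfl, rfl, rfl, rfl, rfl, rfl, rfl, rfl, rfl, rfl, rfl,
    Nat.le_of_ble_eq_true c1, Nat.le_of_ble_eq_true c2, Nat.le_of_ble_eq_true c3,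
    Nat.le_of_ble_eq_true c4, Nat.le_of_ble_eq_true c5, Nat.le_of_ble_eq_true c6,
    Nat.le_of_ble_eq_true c7, Nat.le_of_ble_eq_true c8⟩

/-- the first cell -/
theorem first_sound {P : Par} {C : CellD} {ac ar : ℕ} (hc : P.c = 1) (h : firstOK P ac ar C = true)
    {v v1 : ℝ → ℝ → ℝ}
    (hv : ∀ a ∈ Icc (-1:ℝ) 1, IsSol (((ac : ℝ) + ar * a) / 2 ^ P.s) (v a) (v1 a)) :
    0 < C.a1 ∧
      Inv v v1 (pC P C) (pC1 P C) C.a1 (C.o0 / 2 ^ P.s) (C.o1 / 2 ^ P.s) (C.o2 / 2 ^ P.s) := by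
  obtain ⟨hM, hH, hs, hb, hf, hr, g0, g1, g2, nu, cap, kk, Z0, f1, Z1, f2, Z2, hg0, hg1, hg2, hnu,
    hcap, hkk, hZ0, hf1, hZ1, hf2, hZ2, c1, c2, c3, c4, c5, c6, c7, c8⟩ := firstOK_elim h
  have hS : 0 < 2 ^ P.s := by positivity
  have hG : 0 < 2 ^ C.g := by positivity
  have hSr : (0:ℝ) < 2 ^ P.s := by positivity
  have hGr : (0:ℝ) < (2:ℝ) ^ C.g := by positivity
  have hHr : (0:ℝ) < C.H := by exact_mod_cast hH
  have ea1 : C.a1 = (C.H : ℝ) / 2 ^ C.g := by unfold CellD.a1; rw [hM]; simp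
  have hx0 : C.x 0 = 0 := by unfold CellD.x; rw [hM]; simp
  have ha1 : 0 < C.a1 := by rw [ea1]; positivity
  have hx : ∀ t ∈ Icc 0 C.a1, C.x t ∈ Icc (-1:ℝ) 1 := by
    intro t ht
    have h1 : C.x t = 2 ^ C.g * t / C.H := by unfold CellD.x; rw [hM]; simp
    have h2 := ht.1
    have h3 := ht.2
    rw [ea1, le_div_iff₀ hGr] at h3
    rw [h1]
    constructor
    · have : 0 ≤ 2 ^ C.g * t / C.H := by positivity
      linarith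
    · rw [div_le_one hHr]; linarith
  have hPc : (P.c : ℝ) = 1 := by rw [hc]; simp
  have hcf := cell_facts (P := P) (C := C) (by omega) hb hH hr
  rw [nbAll_eq] at hcf
  rw [← hg0, ← hg1, ← hg2] at hcf
  -- real inequalities
  have r1 : (Z0 : ℝ) ≤ cap := by exact_mod_cast c2
  have r3 : 2 * ((nu : ℝ) + cap) ≤ 2 ^ P.s := by exact_mod_cast c3
  have r4 : (ac : ℝ) + ar + cap ≤ 3 * 2 ^ P.s := by exact_mod_cast c4
  have rnu : (nu : ℝ) ≤ ac + ar := by exact_mod_cast c5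
  have hnu0 : (0:ℝ) ≤ nu := Nat.cast_nonneg _
  have hZpos : ∀ a b : ℕ, 0 < cdiv a b := fun a b => Nat.succ_pos _
  have hZ0p : (0:ℝ) < Z0 := by rw [hZ0]; exact_mod_cast hZpos _ _
  have hZ1p : (0:ℝ) < Z1 := by rw [hZ1]; exact_mod_cast hZpos _ _
  have hZ2p : (0:ℝ) < Z2 := by rw [hZ2]; exact_mod_cast hZpos _ _
  have hνZ : (nu : ℝ) / 2 ^ P.s + (Z0 : ℝ) / 2 ^ P.s ≤ ((nu : ℝ) + cap) / 2 ^ P.s := by
    rw [← add_div]; gcongr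
  have hUZ : ((ac : ℝ) + ar) / 2 ^ P.s + (Z0 : ℝ) / 2 ^ P.s ≤
      ((ac + ar + cap : ℕ) : ℝ) / (2 ^ P.s : ℕ) := by
    rw [← add_div]; push_cast; gcongr
  have hk12 := kOf_spec (S := 2 ^ P.s) (c := P.c) (Gd := 2 ^ C.g) (nu := nu) (cap := cap)
    (Uc := ac + ar + cap) (sn1 := C.H) hS (four_dvd_S hs) hG
  rw [← hkk] at hk12
  obtain ⟨hk1, hk2⟩ := hk12
  have hM6 : 6 * (((ac : ℝ) + ar) / 2 ^ P.s + (Z0 : ℝ) / 2 ^ P.s) ^ 2 +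
      21 * P.c * (((ac : ℝ) + ar) / 2 ^ P.s + (Z0 : ℝ) / 2 ^ P.s) ^ 5 ≤
        (m6Of (2 ^ P.s) P.c (ac + ar + cap) : ℝ) / (2 ^ P.s : ℕ) ^ 5 := by
    rw [← m6Of_spec hS]
    gcongr
  have hM3 : 4 * (((ac : ℝ) + ar) / 2 ^ P.s + (Z0 : ℝ) / 2 ^ P.s) +
      35 * P.c * (((ac : ℝ) + ar) / 2 ^ P.s + (Z0 : ℝ) / 2 ^ P.s) ^ 4 ≤
        (m3Of (2 ^ P.s) P.c (ac + ar + cap) : ℝ) / (2 ^ P.s : ℕ) ^ 4 := by
    rw [← m3Of_spec hS]
    gcongr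
  have hcan : ∀ Z : ℝ, Z / (C.a1) * C.a1 = Z := fun Z => div_mul_cancel₀ _ ha1.ne'
  have key := cell_first (v := v) (v1 := v1) (p := pC P C) (p1 := pC1 P C) (ρ := rC P C)
    (c := P.c) (s1 := C.a1) (ν := (nu : ℝ) / 2 ^ P.s) (U0 := ((ac : ℝ) + ar) / 2 ^ P.s)
    (C0 := (Z0 : ℝ) / 2 ^ P.s / C.a1) (C1 := (Z1 : ℝ) / 2 ^ P.s / C.a1)
    (C2 := (Z2 : ℝ) / 2 ^ P.s / C.a1)
    (g0 := (g0 : ℝ) / 2 ^ P.s) (g1 := (g1 : ℝ) / 2 ^ P.s) (g2 := (g2 : ℝ) / 2 ^ P.s)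
    (P1 := (N1 (C.poly P) : ℝ) / 2 ^ P.s) (P2 := (N2 (C.poly P) : ℝ) / 2 ^ P.s)
    (k := (kk : ℝ) / 2 ^ P.s)
  simp only [hcan] at key
  have key2 := key (by positivity) (by rw [hPc]) ha1 (by positivity) (by positivity)
    (by positivity) (by positivity) (by positivity) (by positivity) (by positivity)
    (by gcongr) (by positivity) (by positivity) (by positivity)
    (fun a ha t _ => (hv a ha).h0 t)
    (fun a ha t ht e1 e2 => by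
      have h1 := (hv a ha).h1 t ht.1.ne'
      rw [F_eq_fc e1 e2] at h1
      rw [hPc]
      exact h1)
    (fun a ha t _ => by
      by_cases ht0 : t = 0
      · rw [ht0]; exact ⟨_, (hv a ha).h1z⟩
      · exact ⟨_, (hv a ha).h1 t ht0⟩)
    (fun a _ t _ => pC_hasDerivAt P C hH a t)
    (fun a _ t _ => pC1_hasDerivAt P C hH a t)
    (fun a _ => (pC1_hasDerivAt P C hH a 0).continuousAt)
    (fun a ha => by
      rw [(hv a ha).z0]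
      unfold pC
      rw [hx0, (firstRows_spec hf a).1])
    (fun a ha => by
      refine ⟨(hv a ha).z1, ?_⟩
      unfold pC1
      rw [hx0, (firstRows_spec hf a).2.1]
      simp)
    (fun a ha t ht => by
      have h1 := sol_antitone (hv a ha) (mem_Ici.2 (le_refl (0:ℝ))) ht.1 ht.1
      rw [(hv a ha).z0] at h1
      refine h1.trans ?_
      have h2 : (ar : ℝ) * a ≤ ar := mul_le_of_le_one_right (Nat.cast_nonneg _) ha.2
      gcongr)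
    (fun a ha t ht => by
      have h1 := (pC_facts (P := P) (hx t ht)).2.2.2.1 a ha
      refine le_trans ?_ h1
      rw [(firstRows_spec hf a).2.2, ← neg_div]
      have h2 := nat_sub_ge (N0 (C.poly P)) (2 * ac)
      rw [← hnu] at h2
      push_cast at h2 ⊢
      gcongr
      linarith)
    (fun a ha b hb hab t ht => (pC_facts (P := P) (hx t ht)).2.1 a ha b hb hab)
    (fun a ha b hb c hc hab hbc hac t ht =>
      (pC_facts (P := P) (hx t ht)).2.2.1 a ha b hb c hc hab hbc hac)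
    (fun a ha t ht => (hcf t ht.1 (hx t ⟨ht.1.le, ht.2⟩)).1 a ha)
    (fun a ha b hb hab t ht => (hcf t ht.1 (hx t ⟨ht.1.le, ht.2⟩)).2.1 a ha b hb hab)
    (fun a ha b hb c hc hab hbc hac t ht =>
      (hcf t ht.1 (hx t ⟨ht.1.le, ht.2⟩)).2.2.1 a ha b hb c hc hab hbc hac)
    (by
      refine hνZ.trans ?_
      rw [div_le_iff₀ hSr]; linarith)
    (by
      refine hUZ.trans ?_
      push_cast
      rw [div_le_iff₀ hSr]; exact r4)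
    (by
      push_cast at hk1
      refine le_trans ?_ hk1
      rw [ea1]
      gcongr)
    (by
      push_cast at hk2
      push_cast at hUZ
      refine le_trans ?_ hk2
      rw [ea1]
      gcongr)
    (by
      have h1 := adv_first (gr := (g0 : ℝ) / 2 ^ P.s) hS hG hH c1 hZ0 (by push_cast; exact le_rfl)
      push_cast at h1
      rw [ea1]
      exact h1)
    (by
      have h0 := for1_spec (S := 2 ^ P.s) (Gd := 2 ^ C.g) (A1 := N1 (C.poly P)) (g1 := g1)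
        (sn1 := C.H) (m6 := m6Of (2 ^ P.s) P.c (ac + ar + cap)) (Z0 := Z0) hS hG
      rw [← hf1] at h0
      have h1 := adv_first hS hG hH c1 hZ1 h0
      push_cast at h1 hM6
      rw [ea1]
      refine le_trans ?_ h1
      gcongr)
    (by
      have h0 := for2_spec (S := 2 ^ P.s) (Gd := 2 ^ C.g) (A1 := N1 (C.poly P))
        (A2 := N2 (C.poly P)) (g2 := g2) (sn1 := C.H) (m6 := m6Of (2 ^ P.s) P.c (ac + ar + cap))
        (m3 := m3Of (2 ^ P.s) P.c (ac + ar + cap)) (Z0 := Z0) (Z1 := Z1) hS hG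
      rw [← hf2] at h0
      have h1 := adv_first hS hG hH c1 hZ2 h0
      push_cast at h1 hM6 hM3
      rw [ea1]
      refine le_trans ?_ h1
      gcongr)
  refine ⟨ha1, key2.snd_mono (by positivity) (by positivity) (by positivity) ?_ ?_ ?_⟩ <;> gcongr

end Pool.Agent.H228
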