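import Mathlib
import Pool.Agent.H228.Defs

/-! TASK C2 (tail comparison). Notation: `W = t u`, `W' = u + t u1`, `W'' = - t F(u)`. -/

set_option autoImplicit false

namespace Pool.Agent.H228

open Set

namespace C2x

theorem cube_ge {c : ℝ} (h : -1 / 2 ≤ c) : -1 ≤ c ^ 3 := by
  nlinarith [sq_nonneg c, sq_nonneg (c - 1), sq_nonneg (c + 1 / 2), mul_nonneg (by linarith : (0:ℝ) ≤ c + 1 / 2) (sq_nonneg (c - 1 / 2)), mul_nonneg (by linarith : (0:ℝ) ≤ c + 1 / 2) (sq_nonneg c)]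

theorem F_nonneg (v : ℝ) : 0 ≤ F v := by
  unfold F f
  have h1 : (-1 / 2 : ℝ) ≤ cl v := le_max_left _ _
  generalize cl v = c at *
  have h2 : -1 ≤ c ^ 3 := cube_ge h1
  have h3 : c ^ 4 + c ^ 7 = c ^ 4 * (1 + c ^ 3) := by ring
  rw [h3]
  exact mul_nonneg (by positivity) (by linarith)

theorem F_eq {v : ℝ} (h0 : 0 ≤ v) (h3 : v ≤ 3) : F v = f v := by
  unfold F cl
  rw [min_eq_left h3, max_eq_right (by linarith)]

/-- divided difference of `f` -/
def qq (a b : ℝ) : ℝ :=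
  (a ^ 3 + a ^ 2 * b + a * b ^ 2 + b ^ 3) +
    (a ^ 6 + a ^ 5 * b + a ^ 4 * b ^ 2 + a ^ 3 * b ^ 3 + a ^ 2 * b ^ 4 + a * b ^ 5 + b ^ 6)

theorem f_sub (a b : ℝ) : f b - f a = (b - a) * qq a b := by
  unfold f qq; ring

theorem qq_nonneg {a b : ℝ} (ha : 0 ≤ a) (hb : 0 ≤ b) : 0 ≤ qq a b := by
  unfold qq; positivity

theorem mon_le {a b v : ℝ} (ha : 0 ≤ a) (hb : 0 ≤ b) (hav : a ≤ v) (hbv : b ≤ v) (i j : ℕ) :
    a ^ i * b ^ j ≤ v ^ (i + j) := by
  rw [pow_add]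
  exact mul_le_mul (pow_le_pow_left₀ ha hav i) (pow_le_pow_left₀ hb hbv j) (by positivity)
    (pow_nonneg (ha.trans hav) i)

theorem qq_le {a b v : ℝ} (ha : 0 ≤ a) (hb : 0 ≤ b) (hav : a ≤ v) (hbv : b ≤ v) :
    qq a b ≤ 4 * v ^ 3 + 7 * v ^ 6 := by
  unfold qq
  have h := mon_le ha hb hav hbv
  have h30 := h 3 0; have h21 := h 2 1; have h12 := h 1 2; have h03 := h 0 3
  have h60 := h 6 0; have h51 := h 5 1; have h42 := h 4 2; have h33 := h 3 3
  have h24 := h 2 4; have h15 := h 1 5; have h06 := h 0 6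
  norm_num at h30 h21 h12 h03 h60 h51 h42 h33 h24 h15 h06
  linarith

theorem wr_id (a b : ℝ) : a * qq a b - f a =
    a * b * ((a ^ 2 + a * b + b ^ 2) +
      (a ^ 5 + a ^ 4 * b + a ^ 3 * b ^ 2 + a ^ 2 * b ^ 3 + a * b ^ 4 + b ^ 5)) := by
  unfold f qq; ring

theorem wr_nonneg {a b : ℝ} (ha : 0 ≤ a) (hb : 0 ≤ b) : 0 ≤ a * qq a b - f a := by
  rw [wr_id]; positivity

theorem wr_le {a b v : ℝ} (ha : 0 ≤ a) (hb : 0 ≤ b) (hav : a ≤ v) (hbv : b ≤ v) :
    a * qq a b - f a ≤ 3 * v ^ 4 + 6 * v ^ 7 := by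
  rw [wr_id]
  have h := mon_le ha hb hav hbv
  have h31 := h 3 1; have h22 := h 2 2; have h13 := h 1 3
  have h61 := h 6 1; have h52 := h 5 2; have h43 := h 4 3; have h34 := h 3 4
  have h25 := h 2 5; have h16 := h 1 6
  norm_num at h31 h22 h13 h61 h52 h43 h34 h25 h16
  nlinarith

section single

variable {α : ℝ} {u u1 : ℝ → ℝ}

theorem hasDerivAt_W (hu : IsSol α u u1) (t : ℝ) :
    HasDerivAt (fun t => t * u t) (u t + t * u1 t) t := by
  have h : HasDerivAt (fun t => t * u t) (1 * u t + t * u1 t) t :=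
    (hasDerivAt_id' t).mul (hu.h0 t)
  rwa [one_mul] at h

theorem hasDerivAt_W1 (hu : IsSol α u u1) {t : ℝ} (ht : t ≠ 0) :
    HasDerivAt (fun t => u t + t * u1 t) (-(t * F (u t))) t := by
  have h : HasDerivAt (fun t => u t + t * u1 t)
      (u1 t + (1 * u1 t + t * (-(2 / t) * u1 t - F (u t)))) t :=
    (hu.h0 t).add ((hasDerivAt_id' t).mul (hu.h1 t ht))
  have e : u1 t + (1 * u1 t + t * (-(2 / t) * u1 t - F (u t))) = -(t * F (u t)) := by
    field_simp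
    ring
  rwa [e] at h

theorem W1_anti (hu : IsSol α u u1) {t0 : ℝ} (ht0 : 0 < t0) :
    AntitoneOn (fun t => u t + t * u1 t) (Ici t0) := by
  apply antitoneOn_of_hasDerivWithinAt_nonpos (f' := fun t => -(t * F (u t))) (convex_Ici t0)
  · intro t ht
    exact (hasDerivAt_W1 hu (ne_of_gt (lt_of_lt_of_le ht0 ht))).continuousAt.continuousWithinAt
  · intro t ht
    rw [interior_Ici] at ht
    exact (hasDerivAt_W1 hu (ne_of_gt (ht0.trans ht))).hasDerivWithinAt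
  · intro t ht
    rw [interior_Ici] at ht
    have : 0 ≤ t * F (u t) := mul_nonneg (ht0.trans ht).le (F_nonneg _)
    simpa using this

theorem u_strictAnti (hu : IsSol α u u1) (hneg : ∀ t, 0 < t → u1 t < 0) :
    StrictAntiOn u (Ici 0) := by
  apply strictAntiOn_of_deriv_neg (convex_Ici 0)
  · intro t _
    exact (hu.h0 t).continuousAt.continuousWithinAt
  · intro t ht
    rw [interior_Ici] at ht
    rw [(hu.h0 t).deriv]
    exact hneg t ht

theorem hit_of_zero (hu : IsSol α u u1) (hneg : ∀ t, 0 < t → u1 t < 0) {T : ℝ} (hT : 0 < T)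
    (h0 : u T = 0) : Hit u T := by
  refine ⟨hT, h0, ?_⟩
  intro t ht
  have := u_strictAnti hu hneg (mem_Ici.2 ht.1) (mem_Ici.2 hT.le) ht.2
  linarith

theorem hit_unique {v : ℝ → ℝ} {T T' : ℝ} (h : Hit v T) (h' : Hit v T') : T = T' := by
  rcases lt_trichotomy T T' with hlt | heq | hgt
  · exact absurd h.2.1 (ne_of_gt (h'.2.2 T ⟨h.1.le, hlt⟩))
  · exact heq
  · exact absurd h'.2.1 (ne_of_gt (h.2.2 T' ⟨h'.1.le, hgt⟩))

theorem hit_exists (hu : IsSol α u u1) (hneg : ∀ t, 0 < t → u1 t < 0) {t0 : ℝ} (ht0 : 0 < t0)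
    (hp : 0 < u t0) (h2 : u t0 ≤ -2 * (u t0 + t0 * u1 t0)) :
    ∃ T, Hit u T ∧ t0 < T ∧ T ≤ 3 * t0 ∧
      ∀ t, t0 ≤ t → (t * u t ≤ t0 * u t0 ∧ u t + t * u1 t < 0) := by
  have hW1neg : ∀ t, t0 ≤ t → u t + t * u1 t ≤ -(u t0 / 2) := by
    intro t ht
    have := W1_anti hu ht0 (mem_Ici.2 le_rfl) (mem_Ici.2 ht) ht
    simp only at this
    linarith
  have hWanti : AntitoneOn (fun t => t * u t + u t0 / 2 * t) (Ici t0) := by
    apply antitoneOn_of_hasDerivWithinAt_nonpos (f' := fun t => u t + t * u1 t + u t0 / 2)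
      (convex_Ici t0)
    · intro t _
      exact ((hasDerivAt_W hu t).continuousAt.add (by fun_prop)).continuousWithinAt
    · intro t _
      have h : HasDerivAt (fun t => t * u t + u t0 / 2 * t) (u t + t * u1 t + u t0 / 2 * 1) t :=
        (hasDerivAt_W hu t).add ((hasDerivAt_id' t).const_mul (u t0 / 2))
      rw [mul_one] at h
      exact h.hasDerivWithinAt
    · intro t ht
      rw [interior_Ici] at ht
      have := hW1neg t ht.le
      linarith
  have h3 : 3 * t0 * u (3 * t0) ≤ 0 := by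
    have := hWanti (mem_Ici.2 le_rfl) (mem_Ici.2 (by linarith : t0 ≤ 3 * t0)) (by linarith)
    simp only at this
    nlinarith
  have h3' : u (3 * t0) ≤ 0 := by
    by_contra hc
    push Not at hc
    have : 0 < 3 * t0 * u (3 * t0) := by positivity
    linarith
  have hcont : ContinuousOn u (Icc t0 (3 * t0)) := fun t _ =>
    (hu.h0 t).continuousAt.continuousWithinAt
  obtain ⟨T, hT, hT0⟩ := intermediate_value_Icc' (by linarith : t0 ≤ 3 * t0) hcont
    (show (0:ℝ) ∈ Icc (u (3 * t0)) (u t0) from ⟨h3', hp.le⟩)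
  have htT : t0 < T := by
    rcases hT.1.lt_or_eq with h | h
    · exact h
    · rw [← h] at hT0; linarith
  refine ⟨T, hit_of_zero hu hneg (ht0.trans htT) hT0, htT, hT.2, ?_⟩
  intro t ht
  constructor
  · have := hWanti (mem_Ici.2 le_rfl) (mem_Ici.2 ht) ht
    simp only at this
    nlinarith
  · have := hW1neg t ht
    linarith

end single

section pair

variable {a a1 b b1 : ℝ → ℝ} {t0 T vb D E δ : ℝ}

/-- the scaled difference and its derivative -/
theorem d_deriv (ha : ∀ t, HasDerivAt a (a1 t) t) (hb : ∀ t, HasDerivAt b (b1 t) t) (t : ℝ) :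
    HasDerivAt (fun t => (b t - a t) / δ) ((b1 t - a1 t) / δ) t :=
  ((hb t).sub (ha t)).div_const δ

theorem d1_deriv (ha1 : ∀ t, t ≠ 0 → HasDerivAt a1 (-(2 / t) * a1 t - F (a t)) t)
    (hb1 : ∀ t, t ≠ 0 → HasDerivAt b1 (-(2 / t) * b1 t - F (b t)) t) {t : ℝ} (ht : t ≠ 0)
    (hFa : F (a t) = f (a t)) (hFb : F (b t) = f (b t)) :
    HasDerivAt (fun t => (b1 t - a1 t) / δ)
      (-(2 / t) * ((b1 t - a1 t) / δ) - qq (a t) (b t) * ((b t - a t) / δ)) t := by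
  have h := ((hb1 t ht).sub (ha1 t ht)).div_const δ
  have e : ((-(2 / t) * b1 t - F (b t)) - (-(2 / t) * a1 t - F (a t))) / δ =
      -(2 / t) * ((b1 t - a1 t) / δ) - qq (a t) (b t) * ((b t - a t) / δ) := by
    rw [hFa, hFb]
    have h2 := f_sub (a t) (b t)
    have h3 : f (b t) = f (a t) + (b t - a t) * qq (a t) (b t) := by linarith
    rw [h3]
    ring
  rwa [e] at h

/-- bound for the scaled difference on `[t0, T]` -/
theorem d_bound (ht0 : 0 < t0) (hT3 : T ≤ 3 * t0)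
    {d d1 Q : ℝ → ℝ} (hd : ∀ t ∈ Icc t0 T, HasDerivAt d (d1 t) t)
    (hd1 : ∀ t ∈ Icc t0 T, HasDerivAt d1 (-(2 / t) * d1 t - Q t * d t) t)
    (hQ0 : ∀ t ∈ Icc t0 T, 0 ≤ t ^ 2 * Q t) (hQ1 : ∀ t ∈ Icc t0 T, t ^ 2 * Q t ≤ 5 / 2)
    (hD : d t0 = D) (hE : t0 * d1 t0 = E) :
    ∀ t ∈ Icc t0 T, |d t| ≤ 4 / 3 * (|E| + 3 / 2 * |D|) := by
  set Ψ : ℝ → ℝ := fun t => (t * d1 t + d t / 2) ^ 2 + d t ^ 2 with hΨ
  have hder : ∀ t ∈ Icc t0 T, HasDerivAt Ψ
      (2 * (t * d1 t + d t / 2) * (-(1 / 2) * d1 t - t * Q t * d t) + 2 * d t * d1 t) t := by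
    intro t ht
    have htp : 0 < t := lt_of_lt_of_le ht0 ht.1
    have h1 : HasDerivAt (fun t => t * d1 t + d t / 2)
        ((1 * d1 t + t * (-(2 / t) * d1 t - Q t * d t)) + d1 t / 2) t :=
      ((hasDerivAt_id' t).mul (hd1 t ht)).add ((hd t ht).div_const 2)
    have h2 := (h1.pow 2).add ((hd t ht).pow 2)
    have e : ((2 : ℕ) : ℝ) * (t * d1 t + d t / 2) ^ (2 - 1) *
        ((1 * d1 t + t * (-(2 / t) * d1 t - Q t * d t)) + d1 t / 2) +
        ((2 : ℕ) : ℝ) * d t ^ (2 - 1) * d1 t =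
        2 * (t * d1 t + d t / 2) * (-(1 / 2) * d1 t - t * Q t * d t) + 2 * d t * d1 t := by
      have htne : t ≠ 0 := htp.ne'
      push_cast
      field_simp
      ring
    rw [e] at h2
    exact h2
  have hanti : AntitoneOn (fun t => Ψ t ^ 4 / t) (Icc t0 T) := by
    apply antitoneOn_of_hasDerivWithinAt_nonpos (f' := fun t =>
      ((4 : ℕ) * Ψ t ^ (4 - 1) *
        (2 * (t * d1 t + d t / 2) * (-(1 / 2) * d1 t - t * Q t * d t) + 2 * d t * d1 t) * t
        - Ψ t ^ 4 * 1) / t ^ 2) (convex_Icc t0 T)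
    · intro t ht
      have htp : 0 < t := lt_of_lt_of_le ht0 ht.1
      exact (((hder t ht).pow 4).div (hasDerivAt_id' t) htp.ne').continuousAt.continuousWithinAt
    · intro t ht
      have ht' := interior_subset ht
      have htp : 0 < t := lt_of_lt_of_le ht0 ht'.1
      exact (((hder t ht').pow 4).div (hasDerivAt_id' t) htp.ne').hasDerivWithinAt
    · intro t ht
      have ht' := interior_subset ht
      have htp : 0 < t := lt_of_lt_of_le ht0 ht'.1
      apply div_nonpos_of_nonpos_of_nonneg _ (by positivity)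
      have hq0 := hQ0 t ht'
      have hq1 := hQ1 t ht'
      have key : 4 * (t * (2 * (t * d1 t + d t / 2) * (-(1 / 2) * d1 t - t * Q t * d t)
          + 2 * d t * d1 t)) ≤ Ψ t := by
        simp only [hΨ]
        set s := t * d1 t + d t / 2 with hs
        set R := t ^ 2 * Q t with hR
        have e : t * (2 * s * (-(1 / 2) * d1 t - t * Q t * d t) + 2 * d t * d1 t) =
            -(s ^ 2 + d t ^ 2) + (5 / 2 - 2 * R) * (s * d t) := by
          have e1 : t * d1 t = s - d t / 2 := by rw [hs]; ring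
          calc t * (2 * s * (-(1 / 2) * d1 t - t * Q t * d t) + 2 * d t * d1 t)
              = 2 * s * (-(1 / 2) * (t * d1 t) - (t ^ 2 * Q t) * d t) + 2 * d t * (t * d1 t) := by
                ring
            _ = _ := by rw [e1, ← hR]; ring
        rw [e]
        nlinarith [mul_nonneg (sub_nonneg.2 hq1) (sq_nonneg (s - d t)),
          mul_nonneg hq0 (sq_nonneg (s + d t))]
      have hΨ0 : 0 ≤ Ψ t := by simp only [hΨ]; positivity
      have h3 : 0 ≤ Ψ t ^ 3 := by positivity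
      have : ((4 : ℕ) : ℝ) * Ψ t ^ (4 - 1) *
          (2 * (t * d1 t + d t / 2) * (-(1 / 2) * d1 t - t * Q t * d t) + 2 * d t * d1 t) * t
          - Ψ t ^ 4 * 1 = Ψ t ^ 3 * (4 * (t * (2 * (t * d1 t + d t / 2) *
            (-(1 / 2) * d1 t - t * Q t * d t) + 2 * d t * d1 t)) - Ψ t) := by
        push_cast
        ring
      rw [this]
      exact mul_nonpos_of_nonneg_of_nonpos h3 (by linarith)
  intro t ht
  have htp : 0 < t := lt_of_lt_of_le ht0 ht.1
  have ht00 : t0 ∈ Icc t0 T := ⟨le_rfl, ht.1.trans ht.2⟩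
  have h1 := hanti ht00 ht ht.1
  simp only at h1
  rw [div_le_div_iff₀ htp ht0] at h1
  have hΨ0 : 0 ≤ Ψ t0 := by simp only [hΨ]; positivity
  have hΨt : 0 ≤ Ψ t := by simp only [hΨ]; positivity
  have h2 : Ψ t ^ 4 ≤ 3 * Ψ t0 ^ 4 := by
    have h4 : 0 ≤ Ψ t0 ^ 4 := by positivity
    have h5 : Ψ t0 ^ 4 * t ≤ Ψ t0 ^ 4 * (3 * t0) :=
      mul_le_mul_of_nonneg_left (ht.2.trans hT3) h4
    have h6 : Ψ t ^ 4 * t0 ≤ (3 * Ψ t0 ^ 4) * t0 := by linarith
    exact le_of_mul_le_mul_right h6 ht0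
  set M := |E| + 3 / 2 * |D| with hM
  have hM0 : 0 ≤ M := by positivity
  have h3 : Ψ t0 ≤ M ^ 2 := by
    simp only [hΨ]
    rw [hE, hD]
    have hEE : |E| ^ 2 = E ^ 2 := sq_abs E
    have hDD : |D| ^ 2 = D ^ 2 := sq_abs D
    have hED : E * D ≤ |E| * |D| := by rw [← abs_mul]; exact le_abs_self _
    have hED0 : 0 ≤ |E| * |D| := by positivity
    rw [hM]
    nlinarith
  have h4 : d t ^ 2 ≤ Ψ t := by
    simp only [hΨ]
    nlinarith [sq_nonneg (t * d1 t + d t / 2)]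
  have h5 : |d t| ^ 8 ≤ (4 / 3 * M) ^ 8 := by
    calc |d t| ^ 8 = (d t ^ 2) ^ 4 := by rw [← sq_abs (d t)]; ring
      _ ≤ Ψ t ^ 4 := pow_le_pow_left₀ (sq_nonneg _) h4 4
      _ ≤ 3 * Ψ t0 ^ 4 := h2
      _ ≤ 3 * (M ^ 2) ^ 4 := by
          have := pow_le_pow_left₀ hΨ0 h3 4
          linarith
      _ ≤ (4 / 3 * M) ^ 8 := by
          have : 0 ≤ M ^ 8 := by positivity
          nlinarith
  exact (pow_le_pow_iff_left₀ (abs_nonneg _) (by positivity) (by norm_num)).1 h5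

/-- the scaled Wronskian stays close to its initial value -/
theorem wr_bound (ht0 : 0 < t0) (hT : t0 ≤ T) (hvb : 0 ≤ vb) {K M : ℝ} (hM : 0 ≤ M)
    (hK : K = (3 * vb ^ 4 + 6 * vb ^ 7) * M)
    (ha : ∀ t, HasDerivAt a (a1 t) t)
    (ha1 : ∀ t ∈ Icc t0 T, HasDerivAt a1 (-(2 / t) * a1 t - f (a t)) t)
    {d d1 : ℝ → ℝ} (hd : ∀ t ∈ Icc t0 T, HasDerivAt d (d1 t) t)
    (hd1 : ∀ t ∈ Icc t0 T, HasDerivAt d1 (-(2 / t) * d1 t - qq (a t) (b t) * d t) t)
    (hap : ∀ t ∈ Icc t0 T, 0 ≤ a t) (hbp : ∀ t ∈ Icc t0 T, 0 ≤ b t)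
    (hav : ∀ t ∈ Icc t0 T, t * a t ≤ t0 * vb) (hbv : ∀ t ∈ Icc t0 T, t * b t ≤ t0 * vb)
    (hdM : ∀ t ∈ Icc t0 T, |d t| ≤ M) :
    t0 * a t0 * (t0 * d1 t0) - t0 ^ 2 * a1 t0 * d t0 - K * t0 ^ 3 ≤
        T * a T * (T * d1 T) - T ^ 2 * a1 T * d T ∧
      T * a T * (T * d1 T) - T ^ 2 * a1 T * d T ≤
        t0 * a t0 * (t0 * d1 t0) - t0 ^ 2 * a1 t0 * d t0 + K * t0 ^ 3 := by
  have hK0 : 0 ≤ K := by rw [hK]; positivity
  set Ξ : ℝ → ℝ := fun t => t * a t * (t * d1 t) - t ^ 2 * a1 t * d t with hΞ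
  have hder : ∀ t ∈ Icc t0 T, HasDerivAt Ξ
      (-(t ^ 2 * d t * (a t * qq (a t) (b t) - f (a t)))) t := by
    intro t ht
    have htp : 0 < t := lt_of_lt_of_le ht0 ht.1
    have h1 : HasDerivAt (fun t => t * a t) (1 * a t + t * a1 t) t :=
      (hasDerivAt_id' t).mul (ha t)
    have h2 : HasDerivAt (fun t => t * d1 t)
        (1 * d1 t + t * (-(2 / t) * d1 t - qq (a t) (b t) * d t)) t :=
      (hasDerivAt_id' t).mul (hd1 t ht)
    have h3 : HasDerivAt (fun t => t ^ 2 * a1 t * d t)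
        ((((2 : ℕ) : ℝ) * t ^ (2 - 1) * a1 t + t ^ 2 * (-(2 / t) * a1 t - f (a t))) * d t
          + t ^ 2 * a1 t * d1 t) t :=
      ((hasDerivAt_pow 2 t).mul (ha1 t ht)).mul (hd t ht)
    have h4 := (h1.mul h2).sub h3
    have e : (1 * a t + t * a1 t) * (t * d1 t) +
        t * a t * (1 * d1 t + t * (-(2 / t) * d1 t - qq (a t) (b t) * d t)) -
        ((((2 : ℕ) : ℝ) * t ^ (2 - 1) * a1 t + t ^ 2 * (-(2 / t) * a1 t - f (a t))) * d t
          + t ^ 2 * a1 t * d1 t) = -(t ^ 2 * d t * (a t * qq (a t) (b t) - f (a t))) := by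
      have htne : t ≠ 0 := htp.ne'
      push_cast
      field_simp
      ring
    rw [e] at h4
    exact h4
  -- the basic bound
  have hbd : ∀ t ∈ Icc t0 T, |t ^ 2 * d t * (a t * qq (a t) (b t) - f (a t))| ≤
      K * t0 ^ 4 / t ^ 2 := by
    intro t ht
    have htp : 0 < t := lt_of_lt_of_le ht0 ht.1
    have ha0 := hap t ht
    have hb0 := hbp t ht
    have hva : a t ≤ t0 * vb / t := by rw [le_div_iff₀ htp]; linarith [hav t ht]
    have hvb' : b t ≤ t0 * vb / t := by rw [le_div_iff₀ htp]; linarith [hbv t ht]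
    have h1 := wr_nonneg ha0 hb0
    have h2 := wr_le ha0 hb0 hva hvb'
    have h3 : t ^ 4 * (a t * qq (a t) (b t) - f (a t)) ≤ t0 ^ 4 * (3 * vb ^ 4 + 6 * vb ^ 7) := by
      calc t ^ 4 * (a t * qq (a t) (b t) - f (a t))
          ≤ t ^ 4 * (3 * (t0 * vb / t) ^ 4 + 6 * (t0 * vb / t) ^ 7) :=
            mul_le_mul_of_nonneg_left h2 (by positivity)
        _ = 3 * (t0 * vb) ^ 4 + 6 * ((t0 * vb) ^ 7 / t ^ 3) := by
            have htne : t ≠ 0 := htp.ne'
            field_simp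
        _ ≤ 3 * (t0 * vb) ^ 4 + 6 * (t0 ^ 4 * vb ^ 7) := by
            have h5 : (t0 * vb) ^ 7 / t ^ 3 ≤ t0 ^ 4 * vb ^ 7 := by
              rw [div_le_iff₀ (by positivity)]
              have h6 : t0 ^ 3 ≤ t ^ 3 := pow_le_pow_left₀ ht0.le ht.1 3
              have h7 : 0 ≤ t0 ^ 4 * vb ^ 7 := by positivity
              calc (t0 * vb) ^ 7 = t0 ^ 4 * vb ^ 7 * t0 ^ 3 := by ring
                _ ≤ t0 ^ 4 * vb ^ 7 * t ^ 3 := mul_le_mul_of_nonneg_left h6 h7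
            linarith
        _ = t0 ^ 4 * (3 * vb ^ 4 + 6 * vb ^ 7) := by ring
    rw [le_div_iff₀ (by positivity), abs_mul, abs_mul, abs_of_nonneg h1,
      abs_of_nonneg (by positivity : (0:ℝ) ≤ t ^ 2)]
    calc t ^ 2 * |d t| * (a t * qq (a t) (b t) - f (a t)) * t ^ 2
        = |d t| * (t ^ 4 * (a t * qq (a t) (b t) - f (a t))) := by ring
      _ ≤ M * (t0 ^ 4 * (3 * vb ^ 4 + 6 * vb ^ 7)) :=
          mul_le_mul (hdM t ht) h3 (by positivity) hM
      _ = K * t0 ^ 4 := by rw [hK]; ring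
  have hinv : ∀ t ∈ Icc t0 T, HasDerivAt (fun t => K * t0 ^ 4 / t) (-(K * t0 ^ 4 / t ^ 2)) t := by
    intro t ht
    have htp : 0 < t := lt_of_lt_of_le ht0 ht.1
    have h := (hasDerivAt_const t (K * t0 ^ 4)).div (hasDerivAt_id' t) htp.ne'
    have e : (0 * t - K * t0 ^ 4 * 1) / t ^ 2 = -(K * t0 ^ 4 / t ^ 2) := by ring
    rwa [e] at h
  have hmono : MonotoneOn (fun t => Ξ t - K * t0 ^ 4 / t) (Icc t0 T) := by
    apply monotoneOn_of_hasDerivWithinAt_nonneg (f' := fun t =>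
      -(t ^ 2 * d t * (a t * qq (a t) (b t) - f (a t))) - -(K * t0 ^ 4 / t ^ 2)) (convex_Icc t0 T)
    · intro t ht
      exact ((hder t ht).sub (hinv t ht)).continuousAt.continuousWithinAt
    · intro t ht
      exact ((hder t (interior_subset ht)).sub (hinv t (interior_subset ht))).hasDerivWithinAt
    · intro t ht
      have := abs_le.1 (hbd t (interior_subset ht))
      linarith [this.1, this.2]
  have hanti : AntitoneOn (fun t => Ξ t + K * t0 ^ 4 / t) (Icc t0 T) := by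
    apply antitoneOn_of_hasDerivWithinAt_nonpos (f' := fun t =>
      -(t ^ 2 * d t * (a t * qq (a t) (b t) - f (a t))) + -(K * t0 ^ 4 / t ^ 2)) (convex_Icc t0 T)
    · intro t ht
      exact ((hder t ht).add (hinv t ht)).continuousAt.continuousWithinAt
    · intro t ht
      exact ((hder t (interior_subset ht)).add (hinv t (interior_subset ht))).hasDerivWithinAt
    · intro t ht
      have := abs_le.1 (hbd t (interior_subset ht))
      linarith [this.1, this.2]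
  have hTp : 0 < T := lt_of_lt_of_le ht0 hT
  have h1 := hmono ⟨le_rfl, hT⟩ ⟨hT, le_rfl⟩ hT
  have h2 := hanti ⟨le_rfl, hT⟩ ⟨hT, le_rfl⟩ hT
  simp only at h1 h2
  have e0 : K * t0 ^ 4 / t0 = K * t0 ^ 3 := by
    have htne : t0 ≠ 0 := ht0.ne'
    field_simp
  have h3 : 0 ≤ K * t0 ^ 4 / T := by positivity
  rw [e0] at h1 h2
  simp only [hΞ] at h1 h2
  constructor
  · linarith
  · linarith

end pair

end C2x

/-- TAIL COMPARISON LEMMA: the Wronskian `W_α W_β' - W_α' W_β` at the late time `t0` decides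
which of the two solutions hits zero first. `(D, E)` are the divided differences of `u` and
`t u'` at `t0`. -/
theorem tail_compare (u u1 : ℝ → ℝ → ℝ) (hu : ∀ α, IsSol α (u α) (u1 α))
    (hneg : ∀ α, 0 < α → ∀ t, 0 < t → u1 α t < 0)
    {α β t0 vb D E : ℝ} (hα : α ∈ Ioo (0:ℝ) 2) (hβ : β ∈ Ioo (0:ℝ) 2) (hαβ : α < β)
    (ht0 : 0 < t0)
    (ha0 : 0 < u α t0) (hb0 : 0 < u β t0) (ha1 : u α t0 ≤ vb) (hb1 : u β t0 ≤ vb)
    (ha2 : u α t0 ≤ -2 * (u α t0 + t0 * u1 α t0)) (hb2 : u β t0 ≤ -2 * (u β t0 + t0 * u1 β t0))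
    (hη : t0 ^ 2 * (4 * vb ^ 3 + 7 * vb ^ 6) ≤ 5 / 2) (hvb : vb ≤ 2)
    (hD : u β t0 - u α t0 = D * (β - α)) (hE : t0 * u1 β t0 - t0 * u1 α t0 = E * (β - α)) :
    (∃ T, Hit (u α) T) ∧ (∃ T, Hit (u β) T) ∧
    ((3 * vb ^ 4 + 6 * vb ^ 7) * t0 ^ 2 * (4 / 3 * (|E| + 3 / 2 * |D|))
        < u α t0 * E - t0 * u1 α t0 * D →
      ∀ T T', Hit (u α) T → Hit (u β) T' → T < T') ∧
    ((3 * vb ^ 4 + 6 * vb ^ 7) * t0 ^ 2 * (4 / 3 * (|E| + 3 / 2 * |D|))
        < -(u α t0 * E - t0 * u1 α t0 * D) →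
      ∀ T T', Hit (u α) T → Hit (u β) T' → T' < T) := by
  have hvb0 : 0 < vb := lt_of_lt_of_le ha0 ha1
  have hδ : 0 < β - α := by linarith
  have hδ' : β - α ≠ 0 := hδ.ne'
  obtain ⟨Ta, hTa, hTa1, hTa2, hTa3⟩ := C2x.hit_exists (hu α) (hneg α hα.1) ht0 ha0 ha2
  obtain ⟨Tb, hTb, hTb1, hTb2, hTb3⟩ := C2x.hit_exists (hu β) (hneg β hβ.1) ht0 hb0 hb2
  set M : ℝ := 4 / 3 * (|E| + 3 / 2 * |D|) with hM
  have hM0 : 0 ≤ M := by positivity
  set K : ℝ := (3 * vb ^ 4 + 6 * vb ^ 7) * M with hK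
  -- conclusion on an interval `[t0, T]` where both are nonnegative
  have core : ∀ T, t0 ≤ T → T ≤ Ta → T ≤ Tb →
      (β - α) * (t0 * (u α t0 * E - t0 * u1 α t0 * D) - K * t0 ^ 3) ≤
        (T * u α T) * (u β T + T * u1 β T) - (u α T + T * u1 α T) * (T * u β T) ∧
      (T * u α T) * (u β T + T * u1 β T) - (u α T + T * u1 α T) * (T * u β T) ≤
        (β - α) * (t0 * (u α t0 * E - t0 * u1 α t0 * D) + K * t0 ^ 3) := by
    intro T hT hTTa hTTb
    have hap : ∀ t ∈ Icc t0 T, 0 ≤ u α t := by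
      intro t ht
      rcases (ht.2.trans hTTa).lt_or_eq with h | h
      · exact (hTa.2.2 t ⟨ht0.le.trans ht.1, h⟩).le
      · rw [h, hTa.2.1]
    have hbp : ∀ t ∈ Icc t0 T, 0 ≤ u β t := by
      intro t ht
      rcases (ht.2.trans hTTb).lt_or_eq with h | h
      · exact (hTb.2.2 t ⟨ht0.le.trans ht.1, h⟩).le
      · rw [h, hTb.2.1]
    have hav : ∀ t ∈ Icc t0 T, t * u α t ≤ t0 * vb := fun t ht =>
      (hTa3 t ht.1).1.trans (mul_le_mul_of_nonneg_left ha1 ht0.le)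
    have hbv : ∀ t ∈ Icc t0 T, t * u β t ≤ t0 * vb := fun t ht =>
      (hTb3 t ht.1).1.trans (mul_le_mul_of_nonneg_left hb1 ht0.le)
    have hva : ∀ t ∈ Icc t0 T, u α t ≤ t0 * vb / t := by
      intro t ht
      have htp : 0 < t := lt_of_lt_of_le ht0 ht.1
      rw [le_div_iff₀ htp]; linarith [hav t ht]
    have hvb' : ∀ t ∈ Icc t0 T, u β t ≤ t0 * vb / t := by
      intro t ht
      have htp : 0 < t := lt_of_lt_of_le ht0 ht.1
      rw [le_div_iff₀ htp]; linarith [hbv t ht]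
    have hv3 : ∀ t ∈ Icc t0 T, t0 * vb / t ≤ vb := by
      intro t ht
      have htp : 0 < t := lt_of_lt_of_le ht0 ht.1
      rw [div_le_iff₀ htp]
      nlinarith [ht.1]
    have hFa : ∀ t ∈ Icc t0 T, F (u α t) = f (u α t) := fun t ht =>
      C2x.F_eq (hap t ht) (by linarith [hva t ht, hv3 t ht])
    have hFb : ∀ t ∈ Icc t0 T, F (u β t) = f (u β t) := fun t ht =>
      C2x.F_eq (hbp t ht) (by linarith [hvb' t ht, hv3 t ht])
    have htne : ∀ t ∈ Icc t0 T, t ≠ 0 := fun t ht => (lt_of_lt_of_le ht0 ht.1).ne'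
    have hd : ∀ t ∈ Icc t0 T, HasDerivAt (fun t => (u β t - u α t) / (β - α))
        ((fun t => (u1 β t - u1 α t) / (β - α)) t) t := fun t _ =>
      C2x.d_deriv (hu α).h0 (hu β).h0 t
    have hd1 : ∀ t ∈ Icc t0 T, HasDerivAt (fun t => (u1 β t - u1 α t) / (β - α))
        (-(2 / t) * ((fun t => (u1 β t - u1 α t) / (β - α)) t) -
          C2x.qq (u α t) (u β t) * ((fun t => (u β t - u α t) / (β - α)) t)) t := fun t ht =>
      C2x.d1_deriv (hu α).h1 (hu β).h1 (htne t ht) (hFa t ht) (hFb t ht)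
    have hD' : (fun t => (u β t - u α t) / (β - α)) t0 = D := by
      simp only
      rw [hD]; field_simp
    have hE' : t0 * (fun t => (u1 β t - u1 α t) / (β - α)) t0 = E := by
      simp only
      have : t0 * ((u1 β t0 - u1 α t0) / (β - α)) = (t0 * u1 β t0 - t0 * u1 α t0) / (β - α) := by
        ring
      rw [this, hE]; field_simp
    have hdM : ∀ t ∈ Icc t0 T, |(fun t => (u β t - u α t) / (β - α)) t| ≤ M := by
      apply C2x.d_bound ht0 (hTTa.trans hTa2) (Q := fun t => C2x.qq (u α t) (u β t)) hd hd1 _ _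
        hD' hE'
      · intro t ht
        exact mul_nonneg (by positivity) (C2x.qq_nonneg (hap t ht) (hbp t ht))
      · intro t ht
        have htp : 0 < t := lt_of_lt_of_le ht0 ht.1
        have h1 := C2x.qq_le (hap t ht) (hbp t ht) (hva t ht) (hvb' t ht)
        have h2 : t ^ 2 * C2x.qq (u α t) (u β t) ≤
            t ^ 2 * (4 * (t0 * vb / t) ^ 3 + 7 * (t0 * vb / t) ^ 6) :=
          mul_le_mul_of_nonneg_left h1 (by positivity)
        have h3 : t ^ 2 * (4 * (t0 * vb / t) ^ 3 + 7 * (t0 * vb / t) ^ 6) =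
            4 * ((t0 * vb) ^ 3 / t) + 7 * ((t0 * vb) ^ 6 / t ^ 4) := by
          have := htne t ht
          field_simp
        have h4 : (t0 * vb) ^ 3 / t ≤ t0 ^ 2 * vb ^ 3 := by
          rw [div_le_iff₀ htp]
          have h7 : 0 ≤ t0 ^ 2 * vb ^ 3 := by positivity
          calc (t0 * vb) ^ 3 = t0 ^ 2 * vb ^ 3 * t0 := by ring
            _ ≤ t0 ^ 2 * vb ^ 3 * t := mul_le_mul_of_nonneg_left ht.1 h7
        have h5 : (t0 * vb) ^ 6 / t ^ 4 ≤ t0 ^ 2 * vb ^ 6 := by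
          rw [div_le_iff₀ (by positivity)]
          have h6 : t0 ^ 4 ≤ t ^ 4 := pow_le_pow_left₀ ht0.le ht.1 4
          have h7 : 0 ≤ t0 ^ 2 * vb ^ 6 := by positivity
          calc (t0 * vb) ^ 6 = t0 ^ 2 * vb ^ 6 * t0 ^ 4 := by ring
            _ ≤ t0 ^ 2 * vb ^ 6 * t ^ 4 := mul_le_mul_of_nonneg_left h6 h7
        rw [h3] at h2
        show t ^ 2 * C2x.qq (u α t) (u β t) ≤ 5 / 2
        nlinarith
    have hfin := C2x.wr_bound (b := u β) ht0 hT hvb0.le hM0 hK (hu α).h0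
      (fun t ht => by
        have := (hu α).h1 t (htne t ht)
        rwa [hFa t ht] at this) hd hd1 hap hbp hav hbv hdM
    simp only at hfin hD' hE'
    rw [hE', hD'] at hfin
    have e1 : (T * u α T) * (u β T + T * u1 β T) - (u α T + T * u1 α T) * (T * u β T) =
        (β - α) * (T * u α T * (T * ((u1 β T - u1 α T) / (β - α))) -
          T ^ 2 * u1 α T * ((u β T - u α T) / (β - α))) := by
      field_simp
      ring
    rw [e1]
    constructor
    · apply mul_le_mul_of_nonneg_left _ hδ.le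
      calc t0 * (u α t0 * E - t0 * u1 α t0 * D) - K * t0 ^ 3
          = t0 * u α t0 * E - t0 ^ 2 * u1 α t0 * D - K * t0 ^ 3 := by ring
        _ ≤ _ := hfin.1
    · apply mul_le_mul_of_nonneg_left _ hδ.le
      calc T * u α T * (T * ((u1 β T - u1 α T) / (β - α))) -
            T ^ 2 * u1 α T * ((u β T - u α T) / (β - α))
          ≤ t0 * u α t0 * E - t0 ^ 2 * u1 α t0 * D + K * t0 ^ 3 := hfin.2
        _ = t0 * (u α t0 * E - t0 * u1 α t0 * D) + K * t0 ^ 3 := by ring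
  refine ⟨⟨Ta, hTa⟩, ⟨Tb, hTb⟩, ?_, ?_⟩
  · intro hcmp T T' hT hT'
    rw [C2x.hit_unique hT hTa, C2x.hit_unique hT' hTb]
    by_contra hc
    push Not at hc
    have h1 := (core Tb hTb1.le hc le_rfl).1
    rw [hTb.2.1] at h1
    have h2 : 0 < (β - α) * (t0 * (u α t0 * E - t0 * u1 α t0 * D) - K * t0 ^ 3) := by
      apply mul_pos hδ
      have : K * t0 ^ 3 = t0 * ((3 * vb ^ 4 + 6 * vb ^ 7) * t0 ^ 2 * M) := by rw [hK]; ring
      rw [this]
      have := mul_lt_mul_of_pos_left hcmp ht0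
      linarith
    have h3 : 0 ≤ u α Tb := by
      rcases hc.lt_or_eq with h | h
      · exact (hTa.2.2 Tb ⟨(ht0.trans hTb1).le, h⟩).le
      · rw [h, hTa.2.1]
    have h4 := (hTb3 Tb hTb1.le).2
    rw [hTb.2.1] at h4
    have hTbp : 0 < Tb := ht0.trans hTb1
    have h5 : 0 ≤ Tb * u α Tb := mul_nonneg hTbp.le h3
    nlinarith
  · intro hcmp T T' hT hT'
    rw [C2x.hit_unique hT hTa, C2x.hit_unique hT' hTb]
    by_contra hc
    push Not at hc
    have h1 := (core Ta hTa1.le le_rfl hc).2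
    rw [hTa.2.1] at h1
    have h2 : (β - α) * (t0 * (u α t0 * E - t0 * u1 α t0 * D) + K * t0 ^ 3) < 0 := by
      apply mul_neg_of_pos_of_neg hδ
      have : K * t0 ^ 3 = t0 * ((3 * vb ^ 4 + 6 * vb ^ 7) * t0 ^ 2 * M) := by rw [hK]; ring
      rw [this]
      have := mul_lt_mul_of_pos_left hcmp ht0
      linarith
    have h3 : 0 ≤ u β Ta := by
      rcases hc.lt_or_eq with h | h
      · exact (hTb.2.2 Ta ⟨(ht0.trans hTa1).le, h⟩).le
      · rw [h, hTb.2.1]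
    have h4 := (hTa3 Ta hTa1.le).2
    rw [hTa.2.1] at h4
    have hTap : 0 < Ta := ht0.trans hTa1
    have h5 : 0 ≤ Ta * u β Ta := mul_nonneg hTap.le h3
    nlinarith

end Pool.Agent.H228
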