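import Mathlib
import Pool.Agent.H228.Snd
import Pool.Agent.H228.Jmp
import Pool.Agent.H228.Tail
import Pool.Agent.H228.Asm

/-! TASK S8: from the checks to the monotonicity of the first zero on a parameter box. -/

set_option autoImplicit false

namespace Pool.Agent.H228

open Set

theorem dec_glue {u : ℝ → ℝ → ℝ} {a b c : ℝ} (hab : a ≤ b) (hbc : b ≤ c) (h1 : Dec u a b)
    (h2 : Dec u b c) : Dec u a c := by
  refine ⟨fun x hx => ?_, fun x hx y hy hxy T T' hT hT' => ?_⟩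
  · rcases le_total x b with h | h
    · exact h1.1 x ⟨hx.1, h⟩
    · exact h2.1 x ⟨h, hx.2⟩
  · rcases le_or_gt y b with h | h
    · exact h1.2 x ⟨hx.1, hxy.le.trans h⟩ y ⟨hy.1, h⟩ hxy T T' hT hT'
    · rcases le_or_gt b x with h' | h'
      · exact h2.2 x ⟨h', hx.2⟩ y ⟨h.le, hy.2⟩ hxy T T' hT hT'
      · obtain ⟨R, hR⟩ := h1.1 b ⟨hab, le_rfl⟩
        have e1 := h1.2 x ⟨hx.1, h'.le⟩ b ⟨hab, le_rfl⟩ h' T R hT hR
        have e2 := h2.2 b ⟨le_rfl, hbc⟩ y ⟨h.le, hy.2⟩ h R T' hR hT'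
        exact e2.trans e1

theorem inc_glue {u : ℝ → ℝ → ℝ} {a b c : ℝ} (hab : a ≤ b) (hbc : b ≤ c) (h1 : Inc u a b)
    (h2 : Inc u b c) : Inc u a c := by
  refine ⟨fun x hx => ?_, fun x hx y hy hxy T T' hT hT' => ?_⟩
  · rcases le_total x b with h | h
    · exact h1.1 x ⟨hx.1, h⟩
    · exact h2.1 x ⟨h, hx.2⟩
  · rcases le_or_gt y b with h | h
    · exact h1.2 x ⟨hx.1, hxy.le.trans h⟩ y ⟨hy.1, h⟩ hxy T T' hT hT'
    · rcases le_or_gt b x with h' | h'
      · exact h2.2 x ⟨h', hx.2⟩ y ⟨h.le, hy.2⟩ hxy T T' hT hT'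
      · obtain ⟨R, hR⟩ := h1.1 b ⟨hab, le_rfl⟩
        have e1 := h1.2 x ⟨hx.1, h'.le⟩ b ⟨hab, le_rfl⟩ h' T R hT hR
        have e2 := h2.2 b ⟨le_rfl, hbc⟩ y ⟨h.le, hy.2⟩ h R T' hR hT'
        exact e1.trans e2

/-- the family of a box -/
noncomputable def fam (u : ℝ → ℝ → ℝ) (S : ℝ) (ac ar : ℕ) : ℝ → ℝ → ℝ := fun a t => u (((ac : ℝ) + ar * a) / S) t

/-! ### the real meaning of `xOK` -/

theorem mxq_eq (a b : ℚ) : mxq a b = max a b := by
  unfold mxq
  by_cases h : a ≤ b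
  · simp [h]
  · simp [h, le_of_not_ge h]

theorem mnq_eq (a b : ℚ) : mnq a b = min a b := by
  unfold mnq
  by_cases h : a ≤ b
  · simp [h]
  · simp [h, le_of_not_ge h]

theorem xOK_real {inc : Bool} {q Sq : ℚ} {s : SegC} (h : xOK inc q Sq s = true) {S t0 : ℝ}
    (ht : t0 = q) (hSq : S = Sq) :
    0 < (s.vl : ℝ) / S ∧ 3 * ((s.vh : ℝ) / S) + 2 * ((s.yh : ℝ) / S) ≤ 0 ∧ (s.vh : ℝ) / S ≤ 2 ∧
    t0 ^ 2 * (4 * ((s.vh : ℝ) / S) ^ 3 + 7 * ((s.vh : ℝ) / S) ^ 6) ≤ 5 / 2 ∧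
    (3 * ((s.vh : ℝ) / S) ^ 4 + 6 * ((s.vh : ℝ) / S) ^ 7) * t0 ^ 2 *
      (4 / 3 * (max (-((s.El : ℝ) / S)) ((s.Eh : ℝ) / S) +
        3 / 2 * max (-((s.Dl : ℝ) / S)) ((s.Dh : ℝ) / S))) <
      (if inc then min ((s.vl : ℝ) / S * ((s.El : ℝ) / S)) ((s.vh : ℝ) / S * ((s.El : ℝ) / S)) +
          min (-((s.yl : ℝ) / S) * ((s.Dl : ℝ) / S)) (-((s.yh : ℝ) / S) * ((s.Dl : ℝ) / S))
        else -(max ((s.vl : ℝ) / S * ((s.Eh : ℝ) / S)) ((s.vh : ℝ) / S * ((s.Eh : ℝ) / S)) +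
          max (-((s.yl : ℝ) / S) * ((s.Dh : ℝ) / S)) (-((s.yh : ℝ) / S) * ((s.Dh : ℝ) / S)))) := by
  simp only [xOK, Bool.and_eq_true, decide_eq_true_eq, mxq_eq, mnq_eq, abq] at h
  obtain ⟨⟨⟨⟨h1, h2⟩, h3⟩, h4⟩, h5⟩ := h
  subst ht hSq
  refine ⟨by exact_mod_cast h1, by exact_mod_cast h2, by exact_mod_cast h3, ?_, ?_⟩
  · have := (Rat.cast_le (K := ℝ)).2 h4
    push_cast at this
    exact this
  · have := (Rat.cast_lt (K := ℝ)).2 h5
    cases inc
    · simp only [cond_false, Bool.false_eq_true, if_false] at this ⊢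
      push_cast at this
      exact this
    · simp only [cond_true, if_true] at this ⊢
      push_cast at this
      exact this

theorem abs_le_mx {x l h : ℝ} (h1 : l ≤ x) (h2 : x ≤ h) : |x| ≤ max (-l) h := by
  rw [abs_le]
  constructor
  · have := le_max_left (-l) h
    linarith
  · exact h2.trans (le_max_right _ _)

theorem min_mul_le {x y l h e : ℝ} (h0 : 0 ≤ l) (h1 : l ≤ x) (h2 : x ≤ h) (h3 : e ≤ y) :
    min (l * e) (h * e) ≤ x * y := by
  have hx : 0 ≤ x := h0.trans h1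
  refine le_trans ?_ (mul_le_mul_of_nonneg_left h3 hx)
  rcases le_total 0 e with he | he
  · exact (min_le_left _ _).trans (mul_le_mul_of_nonneg_right h1 he)
  · exact (min_le_right _ _).trans (mul_le_mul_of_nonpos_right h2 he)

theorem le_max_mul {x y l h e : ℝ} (h0 : 0 ≤ l) (h1 : l ≤ x) (h2 : x ≤ h) (h3 : y ≤ e) :
    x * y ≤ max (l * e) (h * e) := by
  have hx : 0 ≤ x := h0.trans h1
  refine le_trans (mul_le_mul_of_nonneg_left h3 hx) ?_
  rcases le_total 0 e with he | he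
  · exact le_trans (mul_le_mul_of_nonneg_right h2 he) (le_max_right _ _)
  · exact le_trans (mul_le_mul_of_nonpos_right h1 he) (le_max_left _ _)

/-- two parameters in a segment -/
theorem seg_pair (inc : Bool) {u u1 : ℝ → ℝ → ℝ} (hu : ∀ α, IsSol α (u α) (u1 α)) {S t0 : ℝ}
    {ac ar : ℕ} {lo hi : ℝ} {q Sq : ℚ} (ht : t0 = q) (hSq : S = Sq) (hS : 0 < S) (ht0 : 0 < t0)
    (har : 0 < ar) (h0 : ar < ac) (h2 : (ac : ℝ) + ar < 2 * S) {s : SegC}
    (hb : SegB S t0 lo hi (fam u S ac ar) (fam u1 S ac ar) s) (hlo : -1 ≤ lo)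
    (hhi : hi ≤ 1) (hx : xOK inc q Sq s = true) {α β : ℝ}
    (hα : α ∈ Icc (((ac : ℝ) + ar * lo) / S) (((ac : ℝ) + ar * hi) / S))
    (hβ : β ∈ Icc (((ac : ℝ) + ar * lo) / S) (((ac : ℝ) + ar * hi) / S)) (hαβ : α < β) :
    (∃ T, Hit (u α) T) ∧ (∃ T, Hit (u β) T) ∧
    ∀ T T', Hit (u α) T → Hit (u β) T' → if inc then T < T' else T' < T := by
  have har' : (0:ℝ) < ar := by exact_mod_cast har
  have h0' : (ar : ℝ) < ac := by exact_mod_cast h0
  obtain ⟨x1, x2, x3, x4, x5⟩ := xOK_real hx ht hSq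
  -- the local parameters
  obtain ⟨a, ha⟩ : ∃ a : ℝ, a = (S * α - ac) / ar := ⟨_, rfl⟩
  obtain ⟨b, hbb⟩ : ∃ b : ℝ, b = (S * β - ac) / ar := ⟨_, rfl⟩
  have ea : ((ac : ℝ) + ar * a) / S = α := by rw [ha]; field_simp; ring
  have eb : ((ac : ℝ) + ar * b) / S = β := by rw [hbb]; field_simp; ring
  have mem : ∀ x y : ℝ, ((ac : ℝ) + ar * x) / S = y →
      y ∈ Icc (((ac : ℝ) + ar * lo) / S) (((ac : ℝ) + ar * hi) / S) → x ∈ Icc lo hi := by
    intro x y hxy hy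
    rw [← hxy] at hy
    constructor
    · have := (div_le_div_iff_of_pos_right hS).1 hy.1
      have : (ar : ℝ) * lo ≤ ar * x := by linarith
      exact le_of_mul_le_mul_left this har'
    · have := (div_le_div_iff_of_pos_right hS).1 hy.2
      have : (ar : ℝ) * x ≤ ar * hi := by linarith
      exact le_of_mul_le_mul_left this har'
  have hab : a < b := by
    rw [ha, hbb]
    apply div_lt_div_of_pos_right _ har'
    have := mul_lt_mul_of_pos_left hαβ hS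
    linarith
  have hA := mem a α ea hα
  have hB := mem b β eb hβ
  have mem2 : ∀ x y : ℝ, ((ac : ℝ) + ar * x) / S = y → x ∈ Icc lo hi → y ∈ Ioo (0:ℝ) 2 := by
    intro x y hxy hx
    rw [← hxy]
    have e1 : (ar : ℝ) * (-1) ≤ ar * x := mul_le_mul_of_nonneg_left (hlo.trans hx.1) har'.le
    have e2 : (ar : ℝ) * x ≤ ar * 1 := mul_le_mul_of_nonneg_left (hx.2.trans hhi) har'.le
    constructor
    · apply div_pos _ hS
      linarith
    · rw [div_lt_iff₀ hS]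
      linarith
  have hα2 := mem2 a α ea hA
  have hβ2 := mem2 b β eb hB
  have va := hb.val a hA
  have vb := hb.val b hB
  have ya := hb.slo a hA
  have yb := hb.slo b hB
  have hdv := hb.dv a hA b hB hab.ne
  have hds := hb.ds a hA b hB hab.ne
  simp only [fam, ea, eb, d1] at va vb ya yb hdv hds
  -- the divided differences
  have hba : b - a = S / ar * (β - α) := by rw [ha, hbb]; field_simp; ring
  have hδ : 0 < β - α := sub_pos.2 hαβ
  have hr : 0 < S / ar := div_pos hS har'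
  obtain ⟨D', hD'⟩ : ∃ D' : ℝ, D' = (u β t0 - u α t0) / (b - a) := ⟨_, rfl⟩
  obtain ⟨E', hE'⟩ : ∃ E' : ℝ, E' = t0 * ((u1 β t0 - u1 α t0) / (b - a)) := ⟨_, rfl⟩
  rw [← hD'] at hdv
  rw [← hE'] at hds
  have hab' : b - a ≠ 0 := (sub_pos.2 hab).ne'
  have hD : u β t0 - u α t0 = (S / ar * D') * (β - α) := by
    have : D' * (b - a) = u β t0 - u α t0 := by rw [hD']; field_simp
    rw [← this, hba]; ring
  have hE : t0 * u1 β t0 - t0 * u1 α t0 = (S / ar * E') * (β - α) := by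
    have : E' * (b - a) = t0 * u1 β t0 - t0 * u1 α t0 := by rw [hE']; field_simp
    rw [← this, hba]; ring
  have key := tail_compare u u1 hu (fun α hα t ht => sol_u1_neg hα (hu α) ht)
    (vb := (s.vh : ℝ) / S) hα2 hβ2 hαβ ht0 (x1.trans_le va.1) (x1.trans_le vb.1) va.2 vb.2
    (by linarith [va.2, ya.2]) (by linarith [vb.2, yb.2]) x4 x3 hD hE
  obtain ⟨k1, k2, k3, k4⟩ := key
  refine ⟨k1, k2, ?_⟩
  -- the error term
  have hvh : 0 < (s.vh : ℝ) / S := x1.trans_le (va.1.trans va.2)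
  obtain ⟨κ, hκ⟩ : ∃ κ : ℝ, κ = (3 * ((s.vh : ℝ) / S) ^ 4 + 6 * ((s.vh : ℝ) / S) ^ 7) * t0 ^ 2 :=
    ⟨_, rfl⟩
  have hκ0 : 0 ≤ κ := by rw [hκ]; positivity
  rw [← hκ] at k3 k4 x5
  have hErr : κ * (4 / 3 * (|S / ar * E'| + 3 / 2 * |S / ar * D'|)) ≤
      S / ar * (κ * (4 / 3 * (max (-((s.El : ℝ) / S)) ((s.Eh : ℝ) / S) +
        3 / 2 * max (-((s.Dl : ℝ) / S)) ((s.Dh : ℝ) / S)))) := by
    rw [abs_mul, abs_mul, abs_of_pos hr]
    have e1 := abs_le_mx hds.1 hds.2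
    have e2 := abs_le_mx hdv.1 hdv.2
    have e3 : κ * (4 / 3 * (|E'| + 3 / 2 * |D'|)) ≤
        κ * (4 / 3 * (max (-((s.El : ℝ) / S)) ((s.Eh : ℝ) / S) +
        3 / 2 * max (-((s.Dl : ℝ) / S)) ((s.Dh : ℝ) / S))) :=
      mul_le_mul_of_nonneg_left (by linarith) hκ0
    calc κ * (4 / 3 * (S / ar * |E'| + 3 / 2 * (S / ar * |D'|)))
        = S / ar * (κ * (4 / 3 * (|E'| + 3 / 2 * |D'|))) := by ring
      _ ≤ _ := mul_le_mul_of_nonneg_left e3 hr.le
  have hyn : 0 ≤ -((s.yh : ℝ) / S) := by linarith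
  have hWeq : u α t0 * (S / ar * E') - t0 * u1 α t0 * (S / ar * D') =
      S / ar * (u α t0 * E' + (-(t0 * u1 α t0)) * D') := by ring
  intro T T' hT hT'
  cases inc
  · simp only [Bool.false_eq_true, if_false] at x5 ⊢
    refine k4 ?_ T T' hT hT'
    refine hErr.trans_lt ?_
    have e1 := le_max_mul x1.le va.1 va.2 hds.2
    have e2 := le_max_mul (x := -(t0 * u1 α t0)) (l := -((s.yh : ℝ) / S)) (h := -((s.yl : ℝ) / S))
      hyn (by linarith [ya.2]) (by linarith [ya.1]) hdv.2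
    rw [max_comm] at e2
    rw [hWeq, ← mul_neg]
    exact mul_lt_mul_of_pos_left (by linarith) hr
  · simp only [if_true] at x5 ⊢
    refine k3 ?_ T T' hT hT'
    refine hErr.trans_lt ?_
    have e1 := min_mul_le x1.le va.1 va.2 hds.1
    have e2 := min_mul_le (x := -(t0 * u1 α t0)) (l := -((s.yh : ℝ) / S)) (h := -((s.yl : ℝ) / S))
      hyn (by linarith [ya.2]) (by linarith [ya.1]) hdv.1
    rw [min_comm] at e2
    rw [hWeq]
    exact mul_lt_mul_of_pos_left (by linarith) hr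

/-- one segment, by `tail_compare`: for `α < β` in the segment take
`D = (u β t0 - u α t0)/(β - α)`, `E = t0 (u1 β t0 - u1 α t0)/(β - α)`, `vb = vh / S` -/
theorem seg_mono (inc : Bool) {u u1 : ℝ → ℝ → ℝ} (hu : ∀ α, IsSol α (u α) (u1 α)) {S t0 : ℝ}
    {ac ar : ℕ} {lo hi : ℝ} {q Sq : ℚ} (ht : t0 = q) (hSq : S = Sq) (hS : 0 < S) (ht0 : 0 < t0)
    (har : 0 < ar) (h0 : ar < ac) (h2 : (ac : ℝ) + ar < 2 * S) {s : SegC}
    (hb : SegB S t0 lo hi (fam u S ac ar) (fam u1 S ac ar) s) (hlo : -1 ≤ lo) (hlh : lo < hi)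
    (hhi : hi ≤ 1) (hx : xOK inc q Sq s = true) :
    (if inc then Inc else Dec) u (((ac : ℝ) + ar * lo) / S) (((ac : ℝ) + ar * hi) / S) := by
  have har' : (0:ℝ) < ar := by exact_mod_cast har
  have hlt : ((ac : ℝ) + ar * lo) / S < ((ac : ℝ) + ar * hi) / S := by
    apply div_lt_div_of_pos_right _ hS
    have := mul_lt_mul_of_pos_left hlh har'
    linarith
  have key := fun (α : ℝ) hα (β : ℝ) hβ (hαβ : α < β) =>
    seg_pair inc hu ht hSq hS ht0 har h0 h2 hb hlo hhi hx (α := α) (β := β) hα hβ hαβ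
  have ex : ∀ a ∈ Icc (((ac : ℝ) + ar * lo) / S) (((ac : ℝ) + ar * hi) / S), ∃ T, Hit (u a) T := by
    intro a ha
    rcases ha.2.lt_or_eq with h | h
    · exact (key a ha _ (right_mem_Icc.2 hlt.le) h).1
    · exact (key _ (left_mem_Icc.2 hlt.le) a ha (by rw [h]; exact hlt)).2.1
  cases inc
  · simp only [Bool.false_eq_true, if_false] at key ⊢
    exact ⟨ex, fun a ha b hb hab T T' hT hT' => (key a ha b hb hab).2.2 T T' hT hT'⟩
  · simp only [if_true] at key ⊢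
    exact ⟨ex, fun a ha b hb hab T T' hT hT' => (key a ha b hb hab).2.2 T T' hT hT'⟩

theorem chain_sound {P : Par} {C : CellD} {l : List CellD} (hc : P.c = 1)
    (h : chainOK P l C = true) {al : ℝ → ℝ} {v v1 : ℝ → ℝ → ℝ}
    (hv : ∀ a ∈ Icc (-1:ℝ) 1, IsSol (al a) (v a) (v1 a)) (h0 : 0 < C.a1)
    (hi : Inv v v1 (pC P C) (pC1 P C) C.a1 (C.o0 / 2 ^ P.s) (C.o1 / 2 ^ P.s) (C.o2 / 2 ^ P.s)) :
    0 < (l.getLastD C).a1 ∧ Inv v v1 (pC P (l.getLastD C)) (pC1 P (l.getLastD C)) (l.getLastD C).a1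
      ((l.getLastD C).o0 / 2 ^ P.s) ((l.getLastD C).o1 / 2 ^ P.s) ((l.getLastD C).o2 / 2 ^ P.s) := by
  induction l generalizing C with
  | nil => exact ⟨h0, hi⟩
  | cons C' l ih =>
    have h' : (jumpOK P C C' && cellOK P C' && chainOK P l C') = true := h
    rw [Bool.and_eq_true, Bool.and_eq_true] at h'
    obtain ⟨⟨hj, hcell⟩, hch⟩ := h'
    have e1 := jump_sound hj hi
    obtain ⟨e2, e3, e4⟩ := cell_sound hc hcell hv e1
    have e5 := ih (C := C') hch (e2.trans e3) (e4 _ (right_mem_Icc.2 e3.le))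
    have : (C' :: l).getLastD C = l.getLastD C' := List.getLastD_cons ..
    rw [this]
    exact e5

/-- bounds at the end of a chain -/
theorem box_bounds {u u1 : ℝ → ℝ → ℝ} (hu : ∀ α, IsSol α (u α) (u1 α)) {P : Par} {ac ar w : ℕ}
    {C : CellD} {l : List CellD} {sg : List SegC} (hc : P.c = 1) (hdx : 1 ≤ P.dx)
    (h1 : firstOK P ac ar C = true) (h2 : chainOK P l C = true)
    (h3 : segsOK P (l.getLastD C) (l.getLastD C).o1 w sg = true) :
    0 < (l.getLastD C).a1 ∧ sg.length = 2 ^ w ∧ ∀ (i : ℕ) (hi : i < sg.length),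
      SegB (2 ^ P.s) (l.getLastD C).a1 (segLo w i) (segHi w i)
        (fam u (2 ^ P.s) ac ar) (fam u1 (2 ^ P.s) ac ar) sg[i] := by
  have hv : ∀ a ∈ Icc (-1:ℝ) 1, IsSol (((ac : ℝ) + ar * a) / 2 ^ P.s) (fam u (2 ^ P.s) ac ar a)
      (fam u1 (2 ^ P.s) ac ar a) := fun a _ => hu _
  obtain ⟨e1, e2⟩ := first_sound hc h1 hv
  obtain ⟨e3, e4⟩ := chain_sound hc h2 hv e1 e2
  obtain ⟨e5, e6⟩ := segs_sound hdx h3 e4
  exact ⟨e3, e5, e6⟩

theorem segLo_zero (w : ℕ) : segLo w 0 = -1 := by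
  unfold segLo
  have : (2:ℝ) ^ w ≠ 0 := by positivity
  field_simp
  simp

theorem segHi_last (w : ℕ) {i : ℕ} (h : i + 1 = 2 ^ w) : segHi w i = 1 := by
  unfold segHi
  have h1 : (i : ℝ) + 1 = 2 ^ w := by exact_mod_cast h
  have : (2:ℝ) ^ w ≠ 0 := by positivity
  rw [div_eq_one_iff_eq this]
  linarith

theorem segHi_eq (w i : ℕ) : segHi w i = segLo w (i + 1) := by
  unfold segHi segLo
  push_cast
  ring

theorem segLo_lt (w i : ℕ) : segLo w i < segHi w i := by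
  unfold segHi segLo
  have : (0:ℝ) < 2 ^ w := by positivity
  apply div_lt_div_of_pos_right _ this
  linarith

theorem box_segLo_ge (w i : ℕ) : -1 ≤ segLo w i := by
  unfold segLo
  have : (0:ℝ) < 2 ^ w := by positivity
  rw [le_div_iff₀ this]
  have h : (0:ℝ) ≤ i := Nat.cast_nonneg i
  linarith

theorem box_segHi_le (w : ℕ) {i : ℕ} (h : i < 2 ^ w) : segHi w i ≤ 1 := by
  unfold segHi
  have : (0:ℝ) < 2 ^ w := by positivity
  rw [div_le_one this]
  have h1 : (i : ℝ) + 1 ≤ 2 ^ w := by exact_mod_cast h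
  linarith

/-- a box with monotone first zero -/
theorem xbox (inc : Bool) {u u1 : ℝ → ℝ → ℝ} (hu : ∀ α, IsSol α (u α) (u1 α)) {P : Par} {ac ar w : ℕ}
    {C : CellD} {l : List CellD} {sg : List SegC} (hc : P.c = 1) (hdx : 1 ≤ P.dx) {q : ℚ}
    (h1 : firstOK P ac ar C = true) (h2 : chainOK P l C = true)
    (h3 : segsOK P (l.getLastD C) (l.getLastD C).o1 w sg = true)
    (h4 : sg.all (xOK inc q (2 ^ P.s)) = true) (hq : (q : ℝ) = (l.getLastD C).a1)
    (har : 0 < ar) (h0 : ar < ac) (h5 : ac + ar < 2 * 2 ^ P.s) :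
    (if inc then Inc else Dec) u (((ac : ℝ) - ar) / 2 ^ P.s) (((ac : ℝ) + ar) / 2 ^ P.s) := by
  obtain ⟨e1, e2, e3⟩ := box_bounds hu hc hdx h1 h2 h3
  have hS : (0:ℝ) < 2 ^ P.s := by positivity
  have h5' : (ac : ℝ) + ar < 2 * 2 ^ P.s := by exact_mod_cast h5
  have har' : (0:ℝ) < ar := by exact_mod_cast har
  have key : ∀ (i : ℕ), i < 2 ^ w → (if inc then Inc else Dec) u
      (((ac : ℝ) + ar * segLo w i) / 2 ^ P.s) (((ac : ℝ) + ar * segHi w i) / 2 ^ P.s) := by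
    intro i hi
    have hi' : i < sg.length := by rw [e2]; exact hi
    refine seg_mono inc hu (q := q) (Sq := 2 ^ P.s) hq.symm (by push_cast; rfl) hS e1 har h0 h5'
      (e3 i hi') (box_segLo_ge w i) (segLo_lt w i) (box_segHi_le w hi) ?_
    rw [List.all_eq_true] at h4
    exact h4 _ (List.getElem_mem hi')
  have mono : ∀ x y : ℝ, x ≤ y → ((ac : ℝ) + ar * x) / 2 ^ P.s ≤ ((ac : ℝ) + ar * y) / 2 ^ P.s := by
    intro x y hxy
    apply div_le_div_of_nonneg_right _ hS.le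
    have := mul_le_mul_of_nonneg_left hxy har'.le
    linarith
  have all : ∀ (n : ℕ), n < 2 ^ w → (if inc then Inc else Dec) u
      (((ac : ℝ) + ar * segLo w 0) / 2 ^ P.s) (((ac : ℝ) + ar * segHi w n) / 2 ^ P.s) := by
    intro n
    induction n with
    | zero => intro hn; exact key 0 hn
    | succ n ih =>
      intro hn
      have i1 := ih (by omega)
      have i2 := key (n + 1) hn
      rw [← segHi_eq] at i2
      have m1 : ((ac : ℝ) + ar * segLo w 0) / 2 ^ P.s ≤ ((ac : ℝ) + ar * segHi w n) / 2 ^ P.s :=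
        mono _ _ (by rw [segLo_zero]; exact (box_segLo_ge w n).trans (segLo_lt w n).le)
      have m2 : ((ac : ℝ) + ar * segHi w n) / 2 ^ P.s ≤
          ((ac : ℝ) + ar * segHi w (n + 1)) / 2 ^ P.s :=
        mono _ _ (by rw [segHi_eq]; exact (segLo_lt w (n + 1)).le)
      cases inc
      · simp only [Bool.false_eq_true, if_false] at i1 i2 ⊢
        exact dec_glue m1 m2 i1 i2
      · simp only [if_true] at i1 i2 ⊢
        exact inc_glue m1 m2 i1 i2
  have hw : 0 < 2 ^ w := by positivity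
  have := all (2 ^ w - 1) (by omega)
  rw [segLo_zero, segHi_last w (by omega)] at this
  have r1 : ((ac : ℝ) + ar * (-1)) = ac - ar := by ring
  have r2 : ((ac : ℝ) + ar * 1) = ac + ar := by ring
  rw [r1, r2] at this
  exact this

/- Sketch for `turn_box`. At `t0 = L.a1 = C1.a0` all solutions are positive (`sg0`), at `C1.a1` negative
(`sg1`), so all first zeros are in `(C1.a0, C1.a1)`. For `α < β < γ` in the box `T β < max (T α) (T γ)`:
at `t = max (T α) (T γ)` one has `u α t ≤ 0`, `u γ t ≤ 0` and `u` is strictly convex in the parameter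
(`turn_sound`), so `u β t < 0` (`u` is strictly decreasing in `t` by `hneg`). `T` is continuous on the closed
box (`hdep`), so it attains its infimum at some `p`; then `Dec` on the left of `p` and `Inc` on the right. -/

/-- strictly quasiconvex first zero on a compact parameter interval: `Dec` then `Inc` -/
theorem quasi_split {u u1 : ℝ → ℝ → ℝ} (hu : ∀ α, IsSol α (u α) (u1 α)) (hdep : Dep u u1)
    (hneg : ∀ α, 0 < α → ∀ t, 0 < t → u1 α t < 0) {A B : ℝ} (hA : 0 < A) (hAB : A ≤ B) (hB : B < 2)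
    (T : ℝ → ℝ) (hT : ∀ α ∈ Icc A B, Hit (u α) (T α))
    (hq : ∀ α ∈ Icc A B, ∀ β ∈ Icc A B, ∀ γ ∈ Icc A B, α < β → β < γ → T β < max (T α) (T γ)) :
    ∃ p ∈ Icc A B, Dec u A p ∧ Inc u p B := by
  have hlsc : LowerSemicontinuousOn T (Icc A B) := by
    intro p hp y hy
    rcases lt_or_ge y 0 with h0 | h0
    · filter_upwards [self_mem_nhdsWithin] with α hα
      exact h0.trans (hT α hα).1
    · have hup : 0 < u p y := (hT p hp).2.2 y ⟨h0, hy⟩
      obtain ⟨K, hK⟩ := hdep y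
      have hpI : p ∈ Icc (0:ℝ) 2 := ⟨by linarith [hp.1], by linarith [hp.2]⟩
      have hK1 : 0 < |K| + 1 := by positivity
      have hball : Metric.ball p (u p y / (|K| + 1)) ∈ nhdsWithin p (Icc A B) :=
        mem_nhdsWithin_of_mem_nhds (Metric.ball_mem_nhds p (div_pos hup hK1))
      filter_upwards [self_mem_nhdsWithin, hball] with α hα hαb
      have hαI : α ∈ Icc (0:ℝ) 2 := ⟨by linarith [hα.1], by linarith [hα.2]⟩
      have h1 := (hK α hαI p hpI y ⟨h0, le_rfl⟩).1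
      rw [Metric.mem_ball, Real.dist_eq, lt_div_iff₀ hK1] at hαb
      have h2 : K * |α - p| ≤ |K| * |α - p| :=
        mul_le_mul_of_nonneg_right (le_abs_self K) (abs_nonneg _)
      have h3 : 0 ≤ |α - p| := abs_nonneg _
      have h4 : |u α y - u p y| < u p y := by linarith
      have h5 : 0 < u α y := by
        have := (abs_lt.1 h4).1
        linarith
      by_contra hcon
      rw [not_lt] at hcon
      have hanti := anti_of_neg (hu α) (hneg α (lt_of_lt_of_le hA hα.1))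
      have h6 : u α y ≤ u α (T α) :=
        hanti.antitoneOn (mem_Ici.2 (hT α hα).1.le) (mem_Ici.2 h0) hcon
      rw [(hT α hα).2.1] at h6
      linarith
  obtain ⟨p, hp, hmin⟩ := hlsc.exists_isMinOn (nonempty_Icc.2 hAB) isCompact_Icc
  have hmin' : ∀ α ∈ Icc A B, T p ≤ T α := fun α hα => isMinOn_iff.1 hmin α hα
  have hstrict : ∀ α ∈ Icc A B, α ≠ p → T p < T α := by
    intro α hα hne
    rcases (hmin' α hα).lt_or_eq with h | h
    · exact h
    · exfalso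
      have hm : (α + p) / 2 ∈ Icc A B := ⟨by linarith [hα.1, hp.1], by linarith [hα.2, hp.2]⟩
      have h1 := hmin' _ hm
      rcases lt_or_gt_of_ne hne with h2 | h2
      · have h3 := hq α hα _ hm p hp (by linarith) (by linarith)
        rw [← h, max_self] at h3
        linarith
      · have h3 := hq p hp _ hm α hα (by linarith) (by linarith)
        rw [← h, max_self] at h3
        linarith
  refine ⟨p, hp, ⟨fun a ha => ⟨T a, hT a ⟨ha.1, ha.2.trans hp.2⟩⟩, ?_⟩,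
    ⟨fun a ha => ⟨T a, hT a ⟨hp.1.trans ha.1, ha.2⟩⟩, ?_⟩⟩
  · intro a ha b hb hab R R' hR hR'
    have ha' : a ∈ Icc A B := ⟨ha.1, ha.2.trans hp.2⟩
    have hb' : b ∈ Icc A B := ⟨hb.1, hb.2.trans hp.2⟩
    rw [hit_unique hR (hT a ha'), hit_unique hR' (hT b hb')]
    rcases hb.2.lt_or_eq with h | h
    · have h1 := hq a ha' b hb' p hp hab h
      rwa [max_eq_left (hmin' a ha')] at h1
    · rw [h]
      exact hstrict a ha' (by rw [← h]; exact hab.ne)
  · intro a ha b hb hab R R' hR hR'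
    have ha' : a ∈ Icc A B := ⟨hp.1.trans ha.1, ha.2⟩
    have hb' : b ∈ Icc A B := ⟨hp.1.trans hb.1, hb.2⟩
    rw [hit_unique hR (hT a ha'), hit_unique hR' (hT b hb')]
    rcases ha.1.lt_or_eq with h | h
    · have h1 := hq p hp a ha' b hb' h hab
      rwa [max_eq_right (hmin' b hb')] at h1
    · rw [← h]
      exact hstrict b hb' (by rw [h]; exact hab.ne')

theorem turn_box {u u1 : ℝ → ℝ → ℝ} (hu : ∀ α, IsSol α (u α) (u1 α)) (hdep : Dep u u1)
    (hneg : ∀ α, 0 < α → ∀ t, 0 < t → u1 α t < 0) {P : Par} {ac ar : ℕ}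
    {C C1 : CellD} {l : List CellD} {s0 s1 : SegC} (hc : P.c = 1) (hdx : 1 ≤ P.dx)
    (h1 : firstOK P ac ar C = true) (h2 : chainOK P l C = true)
    (h3 : segsOK P (l.getLastD C) (l.getLastD C).o1 0 [s0] = true)
    (h4 : jumpOK P (l.getLastD C) C1 = true) (h5 : cellOK P C1 = true) (h6 : turnOK P C1 = true)
    (h7 : segsOK P C1 C1.o1 0 [s1] = true) (hs0 : 0 < s0.vl) (hs1 : s1.vh < 0)
    (har : 0 < ar) (h0 : ar < ac) (h8 : ac + ar < 2 * 2 ^ P.s) :
    ∃ p ∈ Icc (((ac : ℝ) - ar) / 2 ^ P.s) (((ac : ℝ) + ar) / 2 ^ P.s),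
      Dec u (((ac : ℝ) - ar) / 2 ^ P.s) p ∧ Inc u p (((ac : ℝ) + ar) / 2 ^ P.s) := by
  have hS : (0:ℝ) < 2 ^ P.s := by positivity
  have h8' : (ac : ℝ) + ar < 2 * 2 ^ P.s := by exact_mod_cast h8
  have har' : (0:ℝ) < ar := by exact_mod_cast har
  have h0' : (ar : ℝ) < ac := by exact_mod_cast h0
  have hv : ∀ a ∈ Icc (-1:ℝ) 1, IsSol (((ac : ℝ) + ar * a) / 2 ^ P.s) (fam u (2 ^ P.s) ac ar a)
      (fam u1 (2 ^ P.s) ac ar a) := fun a _ => hu _
  obtain ⟨e1, e2⟩ := first_sound hc h1 hv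
  obtain ⟨e3, e4⟩ := chain_sound hc h2 hv e1 e2
  obtain ⟨_, e6⟩ := segs_sound hdx h3 e4
  have f1 := jump_sound h4 e4
  have f0 : (l.getLastD C).a1 = C1.a0 := (jump_facts h4).1
  obtain ⟨g1, g2, g3⟩ := cell_sound hc h5 hv f1
  have gH : 0 < C1.H := by
    simp only [cellOK, Bool.and_eq_true] at h5
    exact Nat.blt_eq.mp h5.1.1.1.1.1.1.1.1.1
  have hconv := turn_sound gH h6 g3
  obtain ⟨_, e8⟩ := segs_sound hdx h7 (g3 _ (right_mem_Icc.2 g2.le))
  have b0 := (e6 0 (by simp)).val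
  have b1 := (e8 0 (by simp)).val
  have l0 : segLo 0 0 = -1 := segLo_zero 0
  have r0 : segHi 0 0 = 1 := segHi_last 0 (by norm_num)
  rw [l0, r0] at b0 b1
  simp only [List.getElem_cons_zero] at b0 b1
  rw [f0] at b0
  -- positivity and negativity
  have hpos : ∀ a ∈ Icc (-1:ℝ) 1, 0 < fam u (2 ^ P.s) ac ar a C1.a0 := fun a ha =>
    lt_of_lt_of_le (div_pos (by exact_mod_cast hs0) hS) (b0 a ha).1
  have hng : ∀ a ∈ Icc (-1:ℝ) 1, fam u (2 ^ P.s) ac ar a C1.a1 < 0 := fun a ha =>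
    lt_of_le_of_lt (b1 a ha).2 (div_neg_of_neg_of_pos (by exact_mod_cast hs1) hS)
  set A : ℝ := ((ac : ℝ) - ar) / 2 ^ P.s with hA
  set B : ℝ := ((ac : ℝ) + ar) / 2 ^ P.s with hB
  have hA0 : 0 < A := div_pos (by linarith) hS
  have hB2 : B < 2 := by rw [hB, div_lt_iff₀ hS]; linarith
  have hAB : A ≤ B := by
    rw [hA, hB]
    apply div_le_div_of_nonneg_right _ hS.le
    linarith
  -- local parameter
  set lp : ℝ → ℝ := fun α => (2 ^ P.s * α - ac) / ar with hlp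
  have lpe : ∀ α, ((ac : ℝ) + ar * lp α) / 2 ^ P.s = α := by
    intro α; simp only [hlp]; field_simp; ring
  have lpm : ∀ α ∈ Icc A B, lp α ∈ Icc (-1:ℝ) 1 := by
    intro α hα
    have q1 : (ac : ℝ) - ar ≤ α * 2 ^ P.s := (div_le_iff₀ hS).1 hα.1
    have q2 : α * 2 ^ P.s ≤ (ac : ℝ) + ar := (le_div_iff₀ hS).1 hα.2
    simp only [hlp]
    constructor
    · rw [le_div_iff₀ har']; linarith
    · rw [div_le_iff₀ har']; linarith
  have lps : ∀ α β, α < β → lp α < lp β := by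
    intro α β h
    simp only [hlp]
    apply div_lt_div_of_pos_right _ har'
    have := mul_lt_mul_of_pos_left h hS
    linarith
  have hposα : ∀ α ∈ Icc A B, 0 < u α C1.a0 := by
    intro α hα
    have := hpos _ (lpm α hα)
    simpa only [fam, lpe] using this
  have hngα : ∀ α ∈ Icc A B, u α C1.a1 < 0 := by
    intro α hα
    have := hng _ (lpm α hα)
    simpa only [fam, lpe] using this
  have anti : ∀ α ∈ Icc A B, StrictAntiOn (u α) (Ici 0) := fun α hα =>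
    anti_of_neg (hu α) (hneg α (lt_of_lt_of_le hA0 hα.1))
  have ex : ∀ α ∈ Icc A B, ∃ T, Hit (u α) T ∧ T ∈ Icc C1.a0 C1.a1 := by
    intro α hα
    have hcont : ContinuousOn (u α) (Icc C1.a0 C1.a1) := fun t _ =>
      ((hu α).h0 t).continuousAt.continuousWithinAt
    obtain ⟨T, hT, hT0⟩ := intermediate_value_Icc' g2.le hcont
      (show (0:ℝ) ∈ Icc (u α C1.a1) (u α C1.a0) from ⟨(hngα α hα).le, (hposα α hα).le⟩)
    have hTp : 0 < T := g1.trans_le hT.1
    refine ⟨T, ⟨hTp, hT0, fun t ht => ?_⟩, hT⟩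
    rw [← hT0]
    exact anti α hα (mem_Ici.2 ht.1) (mem_Ici.2 hTp.le) ht.2
  choose! T hT using ex
  refine quasi_split hu hdep hneg hA0 hAB hB2 T (fun α hα => (hT α hα).1) ?_
  intro α hα β hβ γ hγ hαβ hβγ
  set t : ℝ := max (T α) (T γ) with ht
  have htm : t ∈ Icc C1.a0 C1.a1 := ⟨le_max_of_le_left (hT α hα).2.1,
    max_le (hT α hα).2.2 (hT γ hγ).2.2⟩
  have htp : 0 < t := g1.trans_le htm.1
  have hcv := hconv t htm (lp α) (lpm α hα) (lp β) (lpm β hβ) (lp γ) (lpm γ hγ)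
    (lps α β hαβ).ne (lps β γ hβγ).ne (lps α γ (hαβ.trans hβγ)).ne
  simp only [d2, d1, fam, lpe] at hcv
  have hαt : u α t ≤ 0 := by
    rw [← (hT α hα).1.2.1]
    exact (anti α hα).antitoneOn (mem_Ici.2 (hT α hα).1.1.le) (mem_Ici.2 htp.le) (le_max_left _ _)
  have hγt : u γ t ≤ 0 := by
    rw [← (hT γ hγ).1.2.1]
    exact (anti γ hγ).antitoneOn (mem_Ici.2 (hT γ hγ).1.1.le) (mem_Ici.2 htp.le) (le_max_right _ _)
  have k1 : 0 < lp β - lp α := sub_pos.2 (lps α β hαβ)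
  have k2 : 0 < lp γ - lp β := sub_pos.2 (lps β γ hβγ)
  have k3 : 0 < lp γ - lp α := by linarith
  have k4 : 0 < (u γ t - u β t) / (lp γ - lp β) - (u β t - u α t) / (lp β - lp α) := by
    by_contra hcon
    rw [not_lt] at hcon
    exact absurd (div_nonpos_of_nonpos_of_nonneg hcon k3.le) (not_le.2 hcv)
  have k5 : (u β t - u α t) * (lp γ - lp β) < (u γ t - u β t) * (lp β - lp α) := by
    have := sub_pos.1 k4
    rwa [div_lt_div_iff₀ k1 k2] at this
  have hβt : u β t < 0 := by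
    by_contra hcon
    rw [not_lt] at hcon
    have m1 : 0 ≤ u β t * (lp γ - lp α) := mul_nonneg hcon k3.le
    have m2 : u α t * (lp γ - lp β) ≤ 0 := mul_nonpos_of_nonpos_of_nonneg hαt k2.le
    have m3 : u γ t * (lp β - lp α) ≤ 0 := mul_nonpos_of_nonpos_of_nonneg hγt k1.le
    nlinarith
  by_contra hcon
  rw [not_lt] at hcon
  rcases hcon.lt_or_eq with h | h
  · have := (hT β hβ).1.2.2 t ⟨htp.le, h⟩
    linarith
  · rw [h, (hT β hβ).1.2.1] at hβt
    exact absurd hβt (lt_irrefl _)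

end Pool.Agent.H228
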