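import Mathlib
import Pool.Agent.H228.Fct

/-! TASK T2: parameter derivatives of the approximant of a cell. -/

set_option autoImplicit false

namespace Pool.Agent.H228

open Set

/-- derivative of a coefficient list -/
def der1 : List ℤ → List ℤ
  | [] => []
  | _ :: l => add1 l (0 :: der1 l)

/-- `∂_a p` and `∂_t ∂_a p` -/
noncomputable def pCa (P : Par) (C : CellD) (a t : ℝ) : ℝ :=
  ev2 ((C.poly P).map der1) (C.x t) a / 2 ^ P.s
noncomputable def pCa1 (P : Par) (C : CellD) (a t : ℝ) : ℝ :=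
  ev2 (der2 ((C.poly P).map der1)) (C.x t) a * (2 ^ C.g / C.H) / 2 ^ P.s

theorem fctb_ev1 (l : List ℤ) (a : ℝ) : HasDerivAt (fun y : ℝ => ev1 l y) (ev1 (der1 l) a) a := by
  induction l with
  | nil => simpa [der1] using hasDerivAt_const a (0:ℝ)
  | cons c l ih =>
    have h1 : HasDerivAt (fun y : ℝ => (c : ℝ) + y * ev1 l y)
        (1 * ev1 l a + a * ev1 (der1 l) a) a := ((hasDerivAt_id a).mul ih).const_add _
    have h2 : ev1 (der1 (c :: l)) a = 1 * ev1 l a + a * ev1 (der1 l) a := by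
      simp [der1, ev1_add1]
    rw [h2]; exact h1

theorem fctb_ev2 (L : List (List ℤ)) (x a : ℝ) :
    HasDerivAt (fun y : ℝ => ev2 L x y) (ev2 (L.map der1) x a) a := by
  induction L with
  | nil => simpa using hasDerivAt_const a (0:ℝ)
  | cons l L ih => exact (fctb_ev1 l a).add (ih.const_mul x)

theorem fctb_der2_cons (l : List ℤ) (L : List (List ℤ)) (x a : ℝ) :
    ev2 (der2 (l :: L)) x a = ev2 L x a + x * ev2 (der2 L) x a := by
  simp [der2, ev2_add2]

theorem fctb_der2 (L : List (List ℤ)) (x a : ℝ) :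
    HasDerivAt (fun y : ℝ => ev2 (der2 L) x y) (ev2 (der2 (L.map der1)) x a) a := by
  induction L with
  | nil => simpa [der2] using hasDerivAt_const a (0:ℝ)
  | cons l L ih =>
    rw [List.map_cons, fctb_der2_cons]
    simp only [fctb_der2_cons]
    exact (fctb_ev2 L x a).add (ih.const_mul x)

theorem fctb_der22_cons (l : List ℤ) (L : List (List ℤ)) (x a : ℝ) :
    ev2 (der2 (der2 (l :: L))) x a = 2 * ev2 (der2 L) x a + x * ev2 (der2 (der2 L)) x a := by
  have h1 := ev2_hasDerivAt (der2 (l :: L)) x a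
  simp only [fctb_der2_cons] at h1
  have h2 : HasDerivAt (fun y : ℝ => ev2 L y a + y * ev2 (der2 L) y a)
      (ev2 (der2 L) x a + (1 * ev2 (der2 L) x a + x * ev2 (der2 (der2 L)) x a)) x :=
    (ev2_hasDerivAt L x a).add ((hasDerivAt_id x).mul (ev2_hasDerivAt (der2 L) x a))
  rw [h1.unique h2]
  ring

theorem fctb_der22 (L : List (List ℤ)) (x a : ℝ) :
    HasDerivAt (fun y : ℝ => ev2 (der2 (der2 L)) x y) (ev2 (der2 (der2 (L.map der1))) x a) a := by
  induction L with
  | nil => simpa [der2] using hasDerivAt_const a (0:ℝ)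
  | cons l L ih =>
    rw [List.map_cons, fctb_der22_cons]
    simp only [fctb_der22_cons]
    exact ((fctb_der2 L x a).const_mul 2).add (ih.const_mul x)

theorem fctb_n0_der1 (l : List ℤ) : n0 (der1 l) ≤ n1 l := by
  induction l with
  | nil => simp [der1, n0]
  | cons c l ih =>
    have h := n0_add1 l (0 :: der1 l)
    have h2 : n0 (0 :: der1 l) = n0 (der1 l) := by simp [n0]
    have h3 : n1 (c :: l) = n0 l + n1 l := rfl
    have h4 : der1 (c :: l) = add1 l (0 :: der1 l) := rfl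
    rw [h4, h3]
    omega

theorem fctb_N0_map (L : List (List ℤ)) : N0 (L.map der1) ≤ N1 L := by
  induction L with
  | nil => simp [N0]
  | cons l L ih =>
    have h := fctb_n0_der1 l
    have h1 : N0 ((l :: L).map der1) = n0 (der1 l) + N0 (L.map der1) := rfl
    have h2 : N1 (l :: L) = n1 l + N1 L := rfl
    omega

theorem pCa_spec (P : Par) (C : CellD) (a t : ℝ) :
    HasDerivAt (fun s => pC P C s t) (pCa P C a t) a :=
  (fctb_ev2 (C.poly P) (C.x t) a).div_const _
theorem pCa1_spec (P : Par) (C : CellD) (a t : ℝ) :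
    HasDerivAt (fun s => pC1 P C s t) (pCa1 P C a t) a :=
  ((fctb_der2 (C.poly P) (C.x t) a).mul_const _).div_const _

theorem fctb_x_hasDerivAt (C : CellD) (t : ℝ) : HasDerivAt C.x (2 ^ C.g / C.H) t := by
  unfold CellD.x
  have h := (((hasDerivAt_id' t).const_mul ((2:ℝ) ^ C.g)).sub_const (C.M : ℝ)).div_const (C.H : ℝ)
  refine h.congr_deriv ?_
  ring

theorem pCa_hasDerivAt (P : Par) (C : CellD) (hH : 0 < C.H) (a t : ℝ) :
    HasDerivAt (pCa P C a) (pCa1 P C a t) t := by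
  have _ := hH
  exact ((ev2_hasDerivAt ((C.poly P).map der1) (C.x t) a).comp t (fctb_x_hasDerivAt C t)).div_const _
/-- `r = ∂_a rC` -/
theorem pCa1_hasDerivAt (P : Par) (C : CellD) (hH : 0 < C.H) (a t : ℝ) :
    ∃ r : ℝ, HasDerivAt (fun s => rC P C s t) r a ∧
      HasDerivAt (pCa1 P C a)
        (-(2 / t) * pCa1 P C a t - (4 * pC P C a t ^ 3 + 7 * P.c * pC P C a t ^ 6) * pCa P C a t + r)
        t := by
  have _ := hH
  refine ⟨ev2 (der2 (der2 ((C.poly P).map der1))) (C.x t) a * (2 ^ C.g / C.H) ^ 2 / 2 ^ P.s +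
    2 / t * pCa1 P C a t + (4 * pC P C a t ^ 3 + 7 * P.c * pC P C a t ^ 6) * pCa P C a t, ?_, ?_⟩
  · have h1 := ((fctb_der22 (C.poly P) (C.x t) a).mul_const (((2:ℝ) ^ C.g / C.H) ^ 2)).div_const
      ((2:ℝ) ^ P.s)
    have h2 := (pCa1_spec P C a t).const_mul (2 / t)
    have h3 := pCa_spec P C a t
    have h4 : HasDerivAt (fun s => fc P.c (pC P C s t))
        ((4 * pC P C a t ^ 3 + 7 * P.c * pC P C a t ^ 6) * pCa P C a t) a := by
      unfold fc
      have h5 := (h3.fun_pow 4).fun_add ((h3.fun_pow 7).const_mul (P.c : ℝ))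
      refine h5.congr_deriv ?_
      push_cast
      ring
    exact (h1.fun_add h2).fun_add h4
  · have h := ((ev2_hasDerivAt (der2 ((C.poly P).map der1)) (C.x t) a).comp t
      (fctb_x_hasDerivAt C t)).mul_const ((2:ℝ) ^ C.g / C.H) |>.div_const ((2:ℝ) ^ P.s)
    refine HasDerivAt.congr_deriv (f := pCa1 P C a) h ?_
    ring
theorem pCa_abs_le {P : Par} {C : CellD} {a t : ℝ} (hx : C.x t ∈ Icc (-1:ℝ) 1)
    (ha : a ∈ Icc (-1:ℝ) 1) : |pCa P C a t| ≤ (N1 (C.poly P) : ℝ) / 2 ^ P.s := by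
  have hS : (0:ℝ) < 2 ^ P.s := by positivity
  unfold pCa
  rw [abs_div, abs_of_pos hS]
  refine div_le_div_of_nonneg_right ?_ hS.le
  refine (ev2_abs_le _ (abs_le.2 hx) (abs_le.2 ha)).trans ?_
  exact_mod_cast fctb_N0_map (C.poly P)

end Pool.Agent.H228
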