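import Mathlib
import Pool.Agent.H228.Cell

/-! TASK T1: one step for the section family. `V` solves `V'' + 2V'/t + V^4 + δ V^7 = 0`, `p` is an
approximant for `δ = 0`, `K` its parameter derivative, `D` a difference quotient of exact solutions. -/

set_option autoImplicit false

namespace Pool.Agent.H228

open Set

/- Level 0: `e = V - p`, `G = q2 0 V p * e + (δ V^7 + ρ)`; `psi_step`. -/
theorem sec_step0 {V V1 p p1 ρ : ℝ → ℝ} {s0 s1 δ dl ν U Ux g0 z0 Z0 k : ℝ}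
    (hs : 0 < s0) (h01 : s0 ≤ s1) (hδ : 0 ≤ δ) (hδ1 : δ ≤ dl)
    (hz0 : 0 < z0) (hZ00 : 0 ≤ Z0) (hν : 0 ≤ ν) (hνU : ν ≤ U) (hg0 : 0 ≤ g0)
    (hV : ∀ t ∈ Icc s0 s1, HasDerivAt V (V1 t) t)
    (hV1 : ∀ t ∈ Icc s0 s1, -1 / 2 ≤ V t → V t ≤ 3 →
      HasDerivAt V1 (-(2 / t) * V1 t - V t ^ 4 - δ * V t ^ 7) t)
    (hV1' : ∀ t ∈ Icc s0 s1, ∃ w, HasDerivAt V1 w t)
    (hp : ∀ t ∈ Icc s0 s1, HasDerivAt p (p1 t) t)
    (hp1 : ∀ t ∈ Icc s0 s1, HasDerivAt p1 (-(2 / t) * p1 t - p t ^ 4 + ρ t) t)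
    (hVU : ∀ t ∈ Icc s0 s1, V t ≤ U) (hpν : ∀ t ∈ Icc s0 s1, -ν ≤ p t)
    (hρ : ∀ t ∈ Icc s0 s1, t * |ρ t| < g0)
    (hi0 : Psi (V s0 - p s0) (s0 * (V1 s0 - p1 s0)) z0)
    (hνZ : ν + Z0 ≤ 1 / 2) (hUZ : U + Z0 ≤ 3) (hUx : U + Z0 ≤ Ux)
    (hk1 : 1 / 4 + s1 ^ 2 * (4 * (ν + Z0) ^ 3) ≤ k)
    (hk2 : s1 ^ 2 * (4 * (U + Z0) ^ 3) - 9 / 4 ≤ k)
    (hZ0 : (z0 + (g0 + dl * s1 * Ux ^ 7) * (s1 - s0)) * Real.exp (k * (s1 - s0) / (2 * s0)) ≤ Z0) :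
    ∀ t ∈ Icc s0 s1, Psi (V t - p t) (t * (V1 t - p1 t)) Z0 := by
  have hU : 0 ≤ U := hν.trans hνU
  have hs1 : 0 < s1 := hs.trans_le h01
  have hdl : 0 ≤ dl := hδ.trans hδ1
  have hUx0 : 0 ≤ Ux := by linarith
  have hk : 0 ≤ k := by
    have : 0 ≤ s1 ^ 2 * (4 * (ν + Z0) ^ 3) := by positivity
    linarith
  have hg : 0 ≤ g0 + dl * s1 * Ux ^ 7 := by positivity
  have hex : ∀ t ∈ Icc s0 s1, ∃ w, HasDerivAt (fun t => V1 t - p1 t) w t := by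
    intro t ht
    obtain ⟨w, hw⟩ := hV1' t ht
    exact ⟨_, hw.fun_sub (hp1 t ht)⟩
  refine psi_step (e := fun t => V t - p t) (e1 := fun t => V1 t - p1 t)
    (G := fun t => -(2 / t) * (V1 t - p1 t) - deriv (fun t => V1 t - p1 t) t)
    (g := g0 + dl * s1 * Ux ^ 7) hs h01 hz0 hg hk
    (fun t ht => (hV t ht).fun_sub (hp t ht)) ?_ hi0 hZ0 ?_
  · intro t ht
    obtain ⟨w, hw⟩ := hex t ht
    refine hw.congr_deriv ?_
    rw [hw.deriv]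
    ring
  · intro t ht hΨ
    have ht0 : 0 < t := hs.trans_le ht.1
    have h1 : |V t - p t| ≤ Z0 := abs_of_Psi hZ00 hΨ
    obtain ⟨h2, h3⟩ := abs_le.1 h1
    have h4 := hVU t ht
    have h5 := hpν t ht
    have hode := hV1 t ht (by linarith) (by linarith)
    have hder : HasDerivAt (fun t => V1 t - p1 t) (-(2 / t) * (V1 t - p1 t) -
        (V t ^ 4 - p t ^ 4 + (δ * V t ^ 7 + ρ t))) t :=
      (hode.fun_sub (hp1 t ht)).congr_deriv (by ring)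
    refine ⟨q2 0 (V t) (p t), δ * V t ^ 7 + ρ t, ?_, ?_, ?_⟩
    · have h6 := q2_spec 0 (V t) (p t)
      simp only [fc] at h6
      rw [hder.deriv]
      linear_combination h6
    · exact q_ok (c := 0) le_rfl zero_le_one hν hνU hZ00 ht0 ht.2 hk1 (by linarith) (by linarith)
        (by linarith) (by linarith) (by linarith)
    · have hV7 : |V t| ≤ Ux := abs_le.2 ⟨by linarith, by linarith⟩
      have h7 : |δ * V t ^ 7| ≤ dl * Ux ^ 7 := by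
        rw [abs_mul, abs_pow, abs_of_nonneg hδ]
        gcongr
      have h8 := abs_add_le (δ * V t ^ 7) (ρ t)
      have h9 := hρ t ht
      calc t * |δ * V t ^ 7 + ρ t| ≤ t * (dl * Ux ^ 7 + |ρ t|) := by
            apply mul_le_mul_of_nonneg_left _ ht0.le
            linarith
        _ = t * (dl * Ux ^ 7) + t * |ρ t| := by ring
        _ < s1 * (dl * Ux ^ 7) + g0 := by
            have h10 : t * (dl * Ux ^ 7) ≤ s1 * (dl * Ux ^ 7) :=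
              mul_le_mul_of_nonneg_right ht.2 (by positivity)
            linarith
        _ = g0 + dl * s1 * Ux ^ 7 := by ring

/- Level 1: `e = lam (μ D - y - κ K)`, `y = t V' + 2/3 V`, `y' = -V'/3 - t (V^4 + δ V^7)`. With
`qV = 4 V^3 + 7 δ V^6`: `y'' + 2 y'/t + qV y = 2 δ V^7`, hence `e'' = -(2/t) e' - (Q e + lam r)`,
`r = 2 δ V^7 + (Q - qV)(y + κ K) + κ (ρK + (qV - 4 p^3) K)`; `psi_step`. -/
theorem sec_step1 {V V1 p p1 K K1 ρK D D1 Q : ℝ → ℝ}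
    {s0 s1 δ dl μ κ lam ν U Ux g1 P1 z1 Z0 Z1 sl0 sl1 k : ℝ}
    (hs : 0 < s0) (h01 : s0 ≤ s1) (hδ : 0 ≤ δ) (hδ1 : δ ≤ dl)
    (hlam : 0 < lam) (hκ : lam * |κ| ≤ 1)
    (hz1 : 0 < z1) (hZ00 : 0 ≤ Z0) (hν : 0 ≤ ν) (hνU : ν ≤ U) (hP1 : 0 ≤ P1)
    (hg1 : 0 ≤ g1) (hsl0 : 0 ≤ sl0) (hsl1 : 0 ≤ sl1)
    (hV : ∀ t ∈ Icc s0 s1, HasDerivAt V (V1 t) t)
    (hV1 : ∀ t ∈ Icc s0 s1, HasDerivAt V1 (-(2 / t) * V1 t - V t ^ 4 - δ * V t ^ 7) t)
    (hK : ∀ t ∈ Icc s0 s1, HasDerivAt K (K1 t) t)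
    (hK1 : ∀ t ∈ Icc s0 s1, HasDerivAt K1 (-(2 / t) * K1 t - 4 * p t ^ 3 * K t + ρK t) t)
    (hD : ∀ t ∈ Icc s0 s1, HasDerivAt D (D1 t) t)
    (hD1 : ∀ t ∈ Icc s0 s1, HasDerivAt D1 (-(2 / t) * D1 t - Q t * D t) t)
    (hVU : ∀ t ∈ Icc s0 s1, V t ≤ U) (hpν : ∀ t ∈ Icc s0 s1, -ν ≤ p t)
    (hVp : ∀ t ∈ Icc s0 s1, |V t - p t| ≤ Z0)
    (hKP : ∀ t ∈ Icc s0 s1, |K t| ≤ P1)
    (hρK : ∀ t ∈ Icc s0 s1, t * |ρK t| < g1)
    (hQ : ∀ t ∈ Icc s0 s1, t ^ 2 * |Q t - (4 * V t ^ 3 + 7 * δ * V t ^ 6)| ≤ sl0)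
    (hQ1 : ∀ t ∈ Icc s0 s1, lam * (t * (|Q t - (4 * V t ^ 3 + 7 * δ * V t ^ 6)| *
      |t * V1 t + 2 / 3 * V t + κ * K t|)) ≤ sl1)
    (hi1 : Psi (lam * (μ * D s0 - (s0 * V1 s0 + 2 / 3 * V s0) - κ * K s0))
      (s0 * (lam * (μ * D1 s0 + 1 / 3 * V1 s0 + s0 * (V s0 ^ 4 + δ * V s0 ^ 7) - κ * K1 s0))) z1)
    (hUx : U + Z0 ≤ Ux)
    (hk1 : 1 / 4 + s1 ^ 2 * (4 * (ν + Z0) ^ 3) + sl0 ≤ k)
    (hk2 : s1 ^ 2 * (4 * (U + Z0) ^ 3 + 7 * dl * (U + Z0) ^ 6) - 9 / 4 + sl0 ≤ k)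
    (hZ1 : (z1 + (12 * s1 * (U + Z0) ^ 2 * Z0 * P1 + dl * s1 * Ux ^ 6 * (7 * P1 + 2 * lam * Ux) + g1
      + sl1) * (s1 - s0)) * Real.exp (k * (s1 - s0) / (2 * s0)) ≤ Z1) :
    ∀ t ∈ Icc s0 s1, Psi (lam * (μ * D t - (t * V1 t + 2 / 3 * V t) - κ * K t))
        (t * (lam * (μ * D1 t + 1 / 3 * V1 t + t * (V t ^ 4 + δ * V t ^ 7) - κ * K1 t))) Z1 := by
  have hU : 0 ≤ U := hν.trans hνU
  have hs1 : 0 < s1 := hs.trans_le h01
  have hdl : 0 ≤ dl := hδ.trans hδ1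
  have hUx0 : 0 ≤ Ux := by linarith
  have hk : 0 ≤ k := by
    have : 0 ≤ s1 ^ 2 * (4 * (ν + Z0) ^ 3) := by positivity
    linarith
  have hg : 0 ≤ 12 * s1 * (U + Z0) ^ 2 * Z0 * P1 + dl * s1 * Ux ^ 6 * (7 * P1 + 2 * lam * Ux) + g1
      + sl1 := by positivity
  refine psi_step
    (e := fun t => lam * (μ * D t - (t * V1 t + 2 / 3 * V t) - κ * K t))
    (e1 := fun t => lam * (μ * D1 t + 1 / 3 * V1 t + t * (V t ^ 4 + δ * V t ^ 7) - κ * K1 t))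
    (G := fun t => Q t * (lam * (μ * D t - (t * V1 t + 2 / 3 * V t) - κ * K t)) +
      lam * (2 * δ * V t ^ 7 + (Q t - (4 * V t ^ 3 + 7 * δ * V t ^ 6)) *
        (t * V1 t + 2 / 3 * V t + κ * K t) +
        κ * (ρK t + (4 * V t ^ 3 + 7 * δ * V t ^ 6 - 4 * p t ^ 3) * K t)))
    hs h01 hz1 hg hk ?_ ?_ hi1 hZ1 ?_
  · intro t ht
    have ht0 : 0 < t := hs.trans_le ht.1
    have h1 : HasDerivAt (fun t => t * V1 t)
        (1 * V1 t + t * (-(2 / t) * V1 t - V t ^ 4 - δ * V t ^ 7)) t :=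
      (hasDerivAt_id' t).mul (hV1 t ht)
    have h2 := (((((hD t ht).const_mul μ).fun_sub (h1.fun_add ((hV t ht).const_mul (2 / 3)))).fun_sub
      ((hK t ht).const_mul κ)).const_mul lam)
    refine h2.congr_deriv ?_
    field_simp
    ring
  · intro t ht
    have ht0 : 0 < t := hs.trans_le ht.1
    have h4 : HasDerivAt (fun t => V t ^ 4) (4 * V t ^ 3 * V1 t) t := by
      refine ((hV t ht).pow 4).congr_deriv ?_
      norm_num
    have h7 : HasDerivAt (fun t => V t ^ 7) (7 * V t ^ 6 * V1 t) t := by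
      refine ((hV t ht).pow 7).congr_deriv ?_
      norm_num
    have h1 : HasDerivAt (fun t => t * (V t ^ 4 + δ * V t ^ 7))
        (1 * (V t ^ 4 + δ * V t ^ 7) + t * (4 * V t ^ 3 * V1 t + δ * (7 * V t ^ 6 * V1 t))) t :=
      (hasDerivAt_id' t).mul (h4.fun_add (h7.const_mul δ))
    have h2 := ((((((hD1 t ht).const_mul μ).fun_add ((hV1 t ht).const_mul (1 / 3))).fun_add
      h1).fun_sub ((hK1 t ht).const_mul κ)).const_mul lam)
    refine h2.congr_deriv ?_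
    field_simp
    ring
  · intro t ht _
    have ht0 : 0 < t := hs.trans_le ht.1
    have ht2 : t ^ 2 ≤ s1 ^ 2 := by
      have := ht.2
      gcongr
    obtain ⟨h2, h3⟩ := abs_le.1 (hVp t ht)
    have h4 := hVU t ht
    have h5 := hpν t ht
    have hVl : -(ν + Z0) ≤ V t := by linarith
    have hVu : V t ≤ U + Z0 := by linarith
    have hVa : |V t| ≤ U + Z0 := abs_le.2 ⟨by linarith, hVu⟩
    have hpa : |p t| ≤ U + Z0 := abs_le.2 ⟨by linarith, by linarith⟩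
    have hVx : |V t| ≤ Ux := hVa.trans hUx
    have hV6 : V t ^ 6 ≤ (U + Z0) ^ 6 := by
      have : V t ^ 6 = |V t| ^ 6 := by rw [← abs_pow, abs_of_nonneg (by positivity)]
      rw [this]
      gcongr
    have hV60 : 0 ≤ V t ^ 6 := by positivity
    have hV3u : V t ^ 3 ≤ (U + Z0) ^ 3 := by
      calc V t ^ 3 ≤ |V t ^ 3| := le_abs_self _
        _ = |V t| ^ 3 := abs_pow _ _
        _ ≤ _ := by gcongr
    have hV3l : -(ν + Z0) ^ 3 ≤ V t ^ 3 := by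
      have h6 : (-(ν + Z0)) ^ 3 ≤ V t ^ 3 := by
        apply (Odd.strictMono_pow (by decide : Odd 3)).monotone hVl
      have h7 : (-(ν + Z0)) ^ 3 = -(ν + Z0) ^ 3 := by ring
      linarith
    refine ⟨Q t, _, rfl, ?_, ?_⟩
    · set qV := 4 * V t ^ 3 + 7 * δ * V t ^ 6 with hqV
      have hq1 : -(4 * (ν + Z0) ^ 3) ≤ qV := by
        have : 0 ≤ 7 * δ * V t ^ 6 := by positivity
        linarith
      have hq2 : qV ≤ 4 * (U + Z0) ^ 3 + 7 * dl * (U + Z0) ^ 6 := by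
        have : 7 * δ * V t ^ 6 ≤ 7 * dl * (U + Z0) ^ 6 := by gcongr
        linarith
      have hQt := hQ t ht
      rw [← hqV] at hQt
      have hQs : |t ^ 2 * (Q t - qV)| ≤ sl0 := by
        rw [abs_mul, abs_of_pos (by positivity : 0 < t ^ 2)]
        exact hQt
      obtain ⟨h8, h9⟩ := abs_le.1 hQs
      have h10 : t ^ 2 * (-(4 * (ν + Z0) ^ 3)) ≤ t ^ 2 * qV :=
        mul_le_mul_of_nonneg_left hq1 (by positivity)
      have h11 : t ^ 2 * qV ≤ t ^ 2 * (4 * (U + Z0) ^ 3 + 7 * dl * (U + Z0) ^ 6) :=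
        mul_le_mul_of_nonneg_left hq2 (by positivity)
      have h12 : t ^ 2 * (4 * (ν + Z0) ^ 3) ≤ s1 ^ 2 * (4 * (ν + Z0) ^ 3) :=
        mul_le_mul_of_nonneg_right ht2 (by positivity)
      have h13 : t ^ 2 * (4 * (U + Z0) ^ 3 + 7 * dl * (U + Z0) ^ 6) ≤
          s1 ^ 2 * (4 * (U + Z0) ^ 3 + 7 * dl * (U + Z0) ^ 6) :=
        mul_le_mul_of_nonneg_right ht2 (by positivity)
      have h14 : t ^ 2 * Q t = t ^ 2 * qV + t ^ 2 * (Q t - qV) := by ring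
      rw [abs_le]
      constructor <;> linarith
    · set W := Q t - (4 * V t ^ 3 + 7 * δ * V t ^ 6) with hW
      set y := t * V1 t + 2 / 3 * V t + κ * K t with hy
      have hb1 : |2 * δ * V t ^ 7| ≤ 2 * (dl * Ux ^ 7) := by
        rw [abs_mul, abs_pow, abs_of_nonneg (by positivity : 0 ≤ 2 * δ)]
        calc 2 * δ * |V t| ^ 7 = 2 * (δ * |V t| ^ 7) := by ring
          _ ≤ 2 * (dl * Ux ^ 7) := by gcongr
      have hb2 : |4 * V t ^ 3 + 7 * δ * V t ^ 6 - 4 * p t ^ 3| ≤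
          12 * (U + Z0) ^ 2 * Z0 + 7 * (dl * Ux ^ 6) := by
        have e1 : 4 * V t ^ 3 + 7 * δ * V t ^ 6 - 4 * p t ^ 3 =
            4 * ((V t ^ 2 + V t * p t + p t ^ 2) * (V t - p t)) + 7 * (δ * V t ^ 6) := by ring
        have e2 : |V t ^ 2 + V t * p t + p t ^ 2| ≤ 3 * (U + Z0) ^ 2 := by
          refine (abs_add_three _ _ _).trans ?_
          rw [abs_pow, abs_mul, abs_pow]
          have i1 : |V t| ^ 2 ≤ (U + Z0) ^ 2 := by gcongr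
          have i2 : |V t| * |p t| ≤ (U + Z0) * (U + Z0) := by gcongr
          have i3 : |p t| ^ 2 ≤ (U + Z0) ^ 2 := by gcongr
          linarith
        have e3 : |(V t ^ 2 + V t * p t + p t ^ 2) * (V t - p t)| ≤ 3 * (U + Z0) ^ 2 * Z0 := by
          rw [abs_mul]
          have := hVp t ht
          gcongr
        have e4 : |δ * V t ^ 6| ≤ dl * Ux ^ 6 := by
          rw [abs_mul, abs_pow, abs_of_nonneg hδ]
          gcongr
        rw [e1]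
        refine (abs_add_le _ _).trans ?_
        rw [abs_mul 4, abs_mul 7, abs_of_pos (by norm_num : (0:ℝ) < 4),
          abs_of_pos (by norm_num : (0:ℝ) < 7)]
        linarith
      have hb3 : |(4 * V t ^ 3 + 7 * δ * V t ^ 6 - 4 * p t ^ 3) * K t| ≤
          (12 * (U + Z0) ^ 2 * Z0 + 7 * (dl * Ux ^ 6)) * P1 := by
        rw [abs_mul]
        have := hKP t ht
        gcongr
      have hb4 : |ρK t + (4 * V t ^ 3 + 7 * δ * V t ^ 6 - 4 * p t ^ 3) * K t| ≤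
          |ρK t| + (12 * (U + Z0) ^ 2 * Z0 + 7 * (dl * Ux ^ 6)) * P1 := by
        refine (abs_add_le _ _).trans ?_
        linarith
      have hb5 : lam * |κ * (ρK t + (4 * V t ^ 3 + 7 * δ * V t ^ 6 - 4 * p t ^ 3) * K t)| ≤
          |ρK t| + (12 * (U + Z0) ^ 2 * Z0 + 7 * (dl * Ux ^ 6)) * P1 := by
        rw [abs_mul, ← mul_assoc]
        calc lam * |κ| * |ρK t + (4 * V t ^ 3 + 7 * δ * V t ^ 6 - 4 * p t ^ 3) * K t| ≤
            1 * |ρK t + (4 * V t ^ 3 + 7 * δ * V t ^ 6 - 4 * p t ^ 3) * K t| :=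
              mul_le_mul_of_nonneg_right hκ (abs_nonneg _)
          _ ≤ _ := by rw [one_mul]; exact hb4
      have hb6 := abs_add_three (2 * δ * V t ^ 7) (W * y)
        (κ * (ρK t + (4 * V t ^ 3 + 7 * δ * V t ^ 6 - 4 * p t ^ 3) * K t))
      have hb7 : lam * (t * |W * y|) ≤ sl1 := by
        rw [abs_mul]
        exact hQ1 t ht
      have hb8 := hρK t ht
      rw [abs_mul, abs_of_pos hlam]
      set A := |κ * (ρK t + (4 * V t ^ 3 + 7 * δ * V t ^ 6 - 4 * p t ^ 3) * K t)| with hA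
      have hT : t * (2 * lam * (dl * Ux ^ 7) +
          (12 * (U + Z0) ^ 2 * Z0 + 7 * (dl * Ux ^ 6)) * P1) ≤
          s1 * (2 * lam * (dl * Ux ^ 7) +
          (12 * (U + Z0) ^ 2 * Z0 + 7 * (dl * Ux ^ 6)) * P1) :=
        mul_le_mul_of_nonneg_right ht.2 (by positivity)
      calc t * (lam * |2 * δ * V t ^ 7 + W * y +
            κ * (ρK t + (4 * V t ^ 3 + 7 * δ * V t ^ 6 - 4 * p t ^ 3) * K t)|) ≤
          t * (lam * (2 * (dl * Ux ^ 7) + |W * y| + A)) := by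
            apply mul_le_mul_of_nonneg_left _ ht0.le
            apply mul_le_mul_of_nonneg_left _ hlam.le
            linarith
        _ = t * (2 * lam * (dl * Ux ^ 7) + lam * A) + lam * (t * |W * y|) := by ring
        _ ≤ t * (2 * lam * (dl * Ux ^ 7) + (|ρK t| +
            (12 * (U + Z0) ^ 2 * Z0 + 7 * (dl * Ux ^ 6)) * P1)) + sl1 := by
            have : t * (2 * lam * (dl * Ux ^ 7) + lam * A) ≤
                t * (2 * lam * (dl * Ux ^ 7) + (|ρK t| +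
                (12 * (U + Z0) ^ 2 * Z0 + 7 * (dl * Ux ^ 6)) * P1)) := by
              apply mul_le_mul_of_nonneg_left _ ht0.le
              linarith
            linarith
        _ = t * (2 * lam * (dl * Ux ^ 7) +
            (12 * (U + Z0) ^ 2 * Z0 + 7 * (dl * Ux ^ 6)) * P1) + t * |ρK t| + sl1 := by ring
        _ < s1 * (2 * lam * (dl * Ux ^ 7) +
            (12 * (U + Z0) ^ 2 * Z0 + 7 * (dl * Ux ^ 6)) * P1) + g1 + sl1 := by linarith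
        _ = 12 * s1 * (U + Z0) ^ 2 * Z0 * P1 + dl * s1 * Ux ^ 6 * (7 * P1 + 2 * lam * Ux) + g1
            + sl1 := by ring

end Pool.Agent.H228
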