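import Mathlib
import Pool.Agent.H228.Fctb
import Pool.Agent.H228.Jmp
import Pool.Agent.H228.Sec

/-! TASK T3: soundness of `cell2OK`, `init2OK`, `chain2OK`. -/

set_option autoImplicit false

namespace Pool.Agent.H228

open Set

/-- `λ = ln/ld`, upper bound of `δ` -/
noncomputable def Par2.lam (Q : Par2) : ℝ := (Q.ln : ℝ) / Q.ld
noncomputable def Par2.dl (Q : Par2) : ℝ := (Q.dn : ℝ) / Q.dd

/-- enclosure of `V` -/
def InvV (P : Par) (C : CellD) (a : ℝ) (V V1 : ℝ → ℝ) (t z0 : ℝ) : Prop :=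
  Psi (V t - pC P C a t) (t * (V1 t - pC1 P C a t)) z0

/-- enclosure of `λ (μ D - y - κ p_a)` -/
def InvE (P : Par) (Q2 : Par2) (C : CellD) (a δ μ κ : ℝ) (V V1 D D1 : ℝ → ℝ) (t z1 : ℝ) : Prop :=
  Psi (Q2.lam * (μ * D t - (t * V1 t + 2 / 3 * V t) - κ * pCa P C a t))
    (t * (Q2.lam * (μ * D1 t + 1 / 3 * V1 t + t * (V t ^ 4 + δ * V t ^ 7) - κ * pCa1 P C a t))) z1

/-- the exact solution on the time interval `[1, tf]`, `V'(1) = -σ` -/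
structure SysV (δ σ tf : ℝ) (V V1 : ℝ → ℝ) : Prop where
  v0 : V 1 = 45 / 128
  v1 : V1 1 = -σ
  hV : ∀ t ∈ Icc 1 tf, HasDerivAt V (V1 t) t
  hV1 : ∀ t ∈ Icc 1 tf, -1 / 2 ≤ V t → V t ≤ 3 →
    HasDerivAt V1 (-(2 / t) * V1 t - V t ^ 4 - δ * V t ^ 7) t
  hV1' : ∀ t ∈ Icc 1 tf, ∃ w, HasDerivAt V1 w t
  neg : ∀ t ∈ Icc 1 tf, V1 t ≤ 0

/-- a difference quotient of exact solutions, `D(1) = 1`, `D'(1) = -χ` -/
structure SysD (χ tf : ℝ) (D D1 Q : ℝ → ℝ) : Prop where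
  d0 : D 1 = 1
  d1 : D1 1 = -χ
  hD : ∀ t ∈ Icc 1 tf, HasDerivAt D (D1 t) t
  hD1 : ∀ t ∈ Icc 1 tf, HasDerivAt D1 (-(2 / t) * D1 t - Q t * D t) t


namespace SndbL

theorem force_ex {n : ℕ} {k : ℕ → Bool} (h : force n k = true) : ∃ m, m = n ∧ k m = true :=
  ⟨n, rfl, by rwa [force_eq] at h⟩

theorem cd_le {a b : ℕ} (hb : 0 < b) : (a : ℝ) / b ≤ (cdiv a b : ℝ) := (le_cdiv hb).le

theorem exp_bd {x y : ℝ} (h0 : 0 ≤ x) (hxy : x ≤ y) (h1 : y ≤ 1) :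
    Real.exp x ≤ 1 + y + y ^ 2 := by
  have h2 : |y| ≤ 1 := by rw [abs_le]; constructor <;> linarith
  have h := Real.abs_exp_sub_one_sub_id_le h2
  have h3 := le_abs_self (Real.exp y - 1 - y)
  have h4 := Real.exp_le_exp.mpr hxy
  linarith

/-- the growth factor -/
theorem grow {z f g kk H sn S y ex : ℝ} {Gd x : ℝ} (hS : 0 < S) (hGd : 0 < Gd) (hsn : 0 < sn)
    (hH : 0 ≤ H) (hkk : 0 ≤ kk) (hz : 0 ≤ z) (hf : 0 ≤ f) (hx1 : x ≤ S)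
    (hx : kk * H / (2 * sn) ≤ x) (hex : S + x + x * x / S ≤ ex)
    (hy : z + f * H / Gd ≤ y) (hg : y * ex / S ≤ g) :
    (z / S + f / S * (H / Gd)) * Real.exp (kk / S * (H / Gd) / (2 * (sn / Gd))) ≤ g / S := by
  have e1 : kk / S * (H / Gd) / (2 * (sn / Gd)) = kk * H / (2 * sn) / S := by
    field_simp
  have h0 : 0 ≤ kk * H / (2 * sn) / S := by positivity
  have h1 : kk * H / (2 * sn) / S ≤ x / S := div_le_div_of_nonneg_right hx hS.le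
  have h2 := exp_bd h0 h1 ((div_le_one hS).mpr hx1)
  rw [e1]
  have h3 : 1 + x / S + (x / S) ^ 2 ≤ ex / S := by
    rw [le_div_iff₀ hS]
    refine le_trans (le_of_eq ?_) hex
    field_simp
  have h4 : z / S + f / S * (H / Gd) ≤ y / S := by
    rw [le_div_iff₀ hS]
    refine le_trans (le_of_eq ?_) hy
    field_simp
  have h5 : 0 ≤ z / S + f / S * (H / Gd) := by positivity
  calc (z / S + f / S * (H / Gd)) * Real.exp (kk * H / (2 * sn) / S)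
      ≤ (y / S) * (ex / S) := mul_le_mul h4 (h2.trans h3) (Real.exp_pos _).le (h5.trans h4)
    _ = (y * ex / S) / S := by ring
    _ ≤ g / S := div_le_div_of_nonneg_right hg hS.le

/-- numerical content of one step -/
theorem sub2_num {K : Cst2} {sn W z0 z1 : ℕ} {k : ℕ → ℕ → Bool}
    (h : subStep2 K sn W z0 z1 k = true)
    (hS : 0 < K.S) (h4 : 4 ∣ K.S) (hGd : 0 < K.Gd) (hsn : 0 < sn) (hdd : 0 < K.dd)
    (hld : 0 < K.ld) :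
    ∃ (Z0 Z1 : ℕ) (U Ux kk : ℝ), k Z0 Z1 = true ∧ z0 ≤ Z0 ∧ z1 ≤ Z1 ∧
      ((W : ℝ) + z0) / K.S ≤ U ∧ (K.nu : ℝ) / K.S ≤ U ∧
      (K.nu : ℝ) / K.S + (Z0 : ℝ) / K.S ≤ 1 / 2 ∧ U + (Z0 : ℝ) / K.S ≤ 3 ∧
      U + (Z0 : ℝ) / K.S ≤ Ux ∧
      1 / 4 + (((sn : ℝ) + K.H) / K.Gd) ^ 2 * (4 * ((K.nu : ℝ) / K.S + (Z0 : ℝ) / K.S) ^ 3) +
        1 / K.S ≤ kk ∧
      (((sn : ℝ) + K.H) / K.Gd) ^ 2 * (4 * (U + (Z0 : ℝ) / K.S) ^ 3 +
        7 * ((K.dn : ℝ) / K.dd) * (U + (Z0 : ℝ) / K.S) ^ 6) - 9 / 4 + 1 / K.S ≤ kk ∧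
      ((z0 : ℝ) / K.S + ((K.g0 : ℝ) / K.S + (K.dn : ℝ) / K.dd * (((sn : ℝ) + K.H) / K.Gd) * Ux ^ 7)
        * ((K.H : ℝ) / K.Gd)) * Real.exp (kk * ((K.H : ℝ) / K.Gd) / (2 * ((sn : ℝ) / K.Gd)))
        ≤ (Z0 : ℝ) / K.S ∧
      ((z1 : ℝ) / K.S + (12 * (((sn : ℝ) + K.H) / K.Gd) * (U + (Z0 : ℝ) / K.S) ^ 2 *
          ((Z0 : ℝ) / K.S) * ((K.A1 : ℝ) / K.S) +
          (K.dn : ℝ) / K.dd * (((sn : ℝ) + K.H) / K.Gd) * Ux ^ 6 *
            (7 * ((K.A1 : ℝ) / K.S) + 2 * ((K.ln : ℝ) / K.ld) * Ux) +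
          (K.g1 : ℝ) / K.S + 1 / K.S) * ((K.H : ℝ) / K.Gd)) *
          Real.exp (kk * ((K.H : ℝ) / K.Gd) / (2 * ((sn : ℝ) / K.Gd)))
        ≤ (Z1 : ℝ) / K.S := by
  unfold subStep2 at h
  obtain ⟨U, hU, h⟩ := force_ex h
  obtain ⟨Ux, hUx, h⟩ := force_ex h
  obtain ⟨x0, hx0, h⟩ := force_ex h
  obtain ⟨y0, hy0, h⟩ := force_ex h
  obtain ⟨cap, hcap, h⟩ := force_ex h
  obtain ⟨Uc, hUc, h⟩ := force_ex h
  obtain ⟨kk, hkk, h⟩ := force_ex h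
  obtain ⟨xx, hxx, h⟩ := force_ex h
  obtain ⟨ex, hex, h⟩ := force_ex h
  obtain ⟨Z0, hZ0, h⟩ := force_ex h
  obtain ⟨x1, hx1, h⟩ := force_ex h
  obtain ⟨Z1, hZ1, h⟩ := force_ex h
  simp only [Bool.and_eq_true, Nat.ble_eq] at h
  obtain ⟨⟨⟨⟨⟨c1, c2⟩, c3⟩, c4⟩, c5⟩, c6⟩ := h
  obtain ⟨S, Gd, H, nu, A1, g0, g1, dn, dd, ln, ld⟩ := K
  simp only at *
  -- natural number facts
  change U = mx (W + z0) nu at hU
  rw [mx_eq] at hU
  change Ux = U + S / 256 at hUx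
  change x0 = cdiv (dn * (sn + H) * Ux ^ 7) (dd * (Gd * S ^ 6)) at hx0
  change y0 = z0 + cdiv ((g0 + x0) * H) Gd at hy0
  change cap = 3 * y0 + 2 at hcap
  change Uc = U + cap at hUc
  change xx = cdiv (kk * H) (2 * sn) at hxx
  change ex = S + xx + cdiv (xx * xx) S at hex
  change Z0 = cdiv (y0 * ex) S at hZ0
  change x1 = cdiv (12 * (sn + H) * (Uc ^ 2 * (Z0 * A1))) (Gd * S ^ 3) +
    cdiv (dn * (sn + H) * (Ux ^ 6 * (7 * A1 * ld + 2 * ln * Ux))) (dd * ld * (Gd * S ^ 6)) at hx1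
  change Z1 = cdiv ((z1 + cdiv ((x1 + (g1 + 1)) * H) Gd) * ex) S at hZ1
  change kk = (mx (cdiv (4 * (nu + cap) ^ 3 * (sn + H) ^ 2) (S ^ 2 * Gd ^ 2) + S / 4)
    (cdiv ((sn + H) ^ 2 * (4 * dd * (Uc ^ 3 * S ^ 3) + 7 * dn * Uc ^ 6))
      (dd * (S ^ 5 * Gd ^ 2)) - 9 * (S / 4))) + 1 at hkk
  rw [mx_eq] at hkk
  change 2 * (nu + cap) ≤ S at c3
  change Uc ≤ 3 * S at c4
  change 256 * cap ≤ S at c5
  -- real facts
  have hSr : (0 : ℝ) < S := by exact_mod_cast hS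
  have hGr : (0 : ℝ) < Gd := by exact_mod_cast hGd
  have hsr : (0 : ℝ) < sn := by exact_mod_cast hsn
  have hddr : (0 : ℝ) < dd := by exact_mod_cast hdd
  have hldr : (0 : ℝ) < ld := by exact_mod_cast hld
  have hHr : (0 : ℝ) ≤ H := Nat.cast_nonneg _
  have hS4 : ((S / 4 : ℕ) : ℝ) = (S : ℝ) / 4 := by
    rw [Nat.cast_div h4 (by norm_num)]; norm_num
  have r1 : (W : ℝ) + z0 ≤ U := by
    rw [hU]; exact_mod_cast le_max_left _ _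
  have r2 : (nu : ℝ) ≤ U := by
    rw [hU]; exact_mod_cast le_max_right _ _
  have r3 : (U : ℝ) + Z0 ≤ Ux := by
    have : cap ≤ S / 256 := by omega
    have : U + Z0 ≤ Ux := by omega
    exact_mod_cast this
  have r4 : (Z0 : ℝ) ≤ cap := by exact_mod_cast c1
  have r5 : (Uc : ℝ) = U + cap := by rw [hUc]; push_cast; ring
  have r6 : (2 : ℝ) * (nu + cap) ≤ S := by exact_mod_cast c3
  have r7 : (Uc : ℝ) ≤ 3 * S := by exact_mod_cast c4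
  have hexS : (S : ℝ) ≤ ex := by
    have : S ≤ ex := by omega
    exact_mod_cast this
  have hexr : (S : ℝ) + xx + xx * xx / S ≤ ex := by
    have := cd_le (a := xx * xx) hS
    rw [hex]; push_cast at this ⊢; linarith
  have hxxr : (kk : ℝ) * H / (2 * sn) ≤ xx := by
    have := cd_le (a := kk * H) (b := 2 * sn) (by omega)
    rw [hxx]; push_cast at this ⊢; linarith
  have hxxS : (xx : ℝ) ≤ S := by exact_mod_cast c2
  have hZ0r : (y0 : ℝ) * ex / S ≤ Z0 := by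
    have := cd_le (a := y0 * ex) hS
    rw [hZ0]; push_cast at this ⊢; linarith
  have hx0r : (dn : ℝ) * (sn + H) * Ux ^ 7 / (dd * (Gd * S ^ 6)) ≤ x0 := by
    have := cd_le (a := dn * (sn + H) * Ux ^ 7) (b := dd * (Gd * S ^ 6)) (by positivity)
    rw [hx0]; push_cast at this ⊢; linarith
  have hy0r : (z0 : ℝ) + (g0 + x0) * H / Gd ≤ y0 := by
    have := cd_le (a := (g0 + x0) * H) hGd
    rw [hy0]; push_cast at this ⊢; linarith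
  have hy0z : (z0 : ℝ) ≤ y0 := by
    have : z0 ≤ y0 := by omega
    exact_mod_cast this
  have hz0Z : z0 ≤ Z0 := by
    have h1 : (z0 : ℝ) ≤ Z0 := by
      refine le_trans ?_ hZ0r
      rw [le_div_iff₀ hSr]
      exact mul_le_mul hy0z hexS hSr.le (Nat.cast_nonneg _)
    exact_mod_cast h1
  set y1 := z1 + cdiv ((x1 + (g1 + 1)) * H) Gd with hy1
  have hZ1r : (y1 : ℝ) * ex / S ≤ Z1 := by
    have := cd_le (a := y1 * ex) hS
    rw [hZ1]; push_cast at this ⊢; linarith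
  have hy1r : (z1 : ℝ) + (x1 + (g1 + 1)) * H / Gd ≤ y1 := by
    have := cd_le (a := (x1 + (g1 + 1)) * H) hGd
    rw [hy1]; push_cast at this ⊢; linarith
  have hy1z : (z1 : ℝ) ≤ y1 := by
    have : z1 ≤ y1 := by omega
    exact_mod_cast this
  have hz1Z : z1 ≤ Z1 := by
    have h1 : (z1 : ℝ) ≤ Z1 := by
      refine le_trans ?_ hZ1r
      rw [le_div_iff₀ hSr]
      exact mul_le_mul hy1z hexS hSr.le (Nat.cast_nonneg _)
    exact_mod_cast h1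
  have hx1r : (12 : ℝ) * (sn + H) * (Uc ^ 2 * (Z0 * A1)) / (Gd * S ^ 3) +
      (dn : ℝ) * (sn + H) * (Ux ^ 6 * (7 * A1 * ld + 2 * ln * Ux)) / (dd * ld * (Gd * S ^ 6))
        ≤ x1 := by
    have t1 := cd_le (a := 12 * (sn + H) * (Uc ^ 2 * (Z0 * A1))) (b := Gd * S ^ 3) (by positivity)
    have t2 := cd_le (a := dn * (sn + H) * (Ux ^ 6 * (7 * A1 * ld + 2 * ln * Ux)))
      (b := dd * ld * (Gd * S ^ 6)) (by positivity)
    rw [hx1]; push_cast at t1 t2 ⊢; linarith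
  have hk1r : (4 : ℝ) * (nu + cap) ^ 3 * (sn + H) ^ 2 / (S ^ 2 * Gd ^ 2) + S / 4 + 1 ≤ kk := by
    have t1 := cd_le (a := 4 * (nu + cap) ^ 3 * (sn + H) ^ 2) (b := S ^ 2 * Gd ^ 2) (by positivity)
    have t2 : cdiv (4 * (nu + cap) ^ 3 * (sn + H) ^ 2) (S ^ 2 * Gd ^ 2) + S / 4 + 1 ≤ kk := by
      rw [hkk]
      have := le_max_left (cdiv (4 * (nu + cap) ^ 3 * (sn + H) ^ 2) (S ^ 2 * Gd ^ 2) + S / 4)
        (cdiv ((sn + H) ^ 2 * (4 * dd * (Uc ^ 3 * S ^ 3) + 7 * dn * Uc ^ 6))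
          (dd * (S ^ 5 * Gd ^ 2)) - 9 * (S / 4))
      omega
    have t3 : ((cdiv (4 * (nu + cap) ^ 3 * (sn + H) ^ 2) (S ^ 2 * Gd ^ 2) : ℕ) : ℝ) +
        ((S / 4 : ℕ) : ℝ) + 1 ≤ kk := by exact_mod_cast t2
    rw [hS4] at t3
    push_cast at t1
    linarith
  have hk2r : ((sn : ℝ) + H) ^ 2 * (4 * dd * (Uc ^ 3 * S ^ 3) + 7 * dn * Uc ^ 6) /
      (dd * (S ^ 5 * Gd ^ 2)) - 9 * (S / 4) + 1 ≤ kk := by
    have t1 := cd_le (a := (sn + H) ^ 2 * (4 * dd * (Uc ^ 3 * S ^ 3) + 7 * dn * Uc ^ 6))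
      (b := dd * (S ^ 5 * Gd ^ 2)) (by positivity)
    have t2 : cdiv ((sn + H) ^ 2 * (4 * dd * (Uc ^ 3 * S ^ 3) + 7 * dn * Uc ^ 6))
          (dd * (S ^ 5 * Gd ^ 2)) + 1 ≤ kk + 9 * (S / 4) := by
      rw [hkk]
      have := le_max_right (cdiv (4 * (nu + cap) ^ 3 * (sn + H) ^ 2) (S ^ 2 * Gd ^ 2) + S / 4)
        (cdiv ((sn + H) ^ 2 * (4 * dd * (Uc ^ 3 * S ^ 3) + 7 * dn * Uc ^ 6))
          (dd * (S ^ 5 * Gd ^ 2)) - 9 * (S / 4))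
      omega
    have t3 : ((cdiv ((sn + H) ^ 2 * (4 * dd * (Uc ^ 3 * S ^ 3) + 7 * dn * Uc ^ 6))
          (dd * (S ^ 5 * Gd ^ 2)) : ℕ) : ℝ) + 1 ≤ kk + 9 * ((S / 4 : ℕ) : ℝ) := by
      exact_mod_cast t2
    rw [hS4] at t3
    push_cast at t1
    linarith
  have hUcr : (U : ℝ) / S + (Z0 : ℝ) / S ≤ Uc / S := by
    rw [← add_div]
    exact div_le_div_of_nonneg_right (by rw [r5]; linarith) hSr.le
  have hkk0 : (0 : ℝ) ≤ kk := Nat.cast_nonneg _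
  refine ⟨Z0, Z1, (U : ℝ) / S, (Ux : ℝ) / S, (kk : ℝ) / S, c6, hz0Z, hz1Z,
    div_le_div_of_nonneg_right r1 hSr.le, div_le_div_of_nonneg_right r2 hSr.le, ?_, ?_, ?_, ?_,
    ?_, ?_, ?_⟩
  · rw [← add_div, div_le_div_iff₀ hSr (by norm_num)]
    linarith
  · rw [← add_div, div_le_iff₀ hSr]
    linarith
  · rw [← add_div]
    exact div_le_div_of_nonneg_right r3 hSr.le
  · have e : (nu : ℝ) / S + (Z0 : ℝ) / S ≤ (nu + cap) / S := by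
      rw [← add_div]
      exact div_le_div_of_nonneg_right (by linarith) hSr.le
    have e2 : ((nu : ℝ) / S + (Z0 : ℝ) / S) ^ 3 ≤ ((nu + cap) / S) ^ 3 :=
      pow_le_pow_left₀ (by positivity) e 3
    calc 1 / 4 + (((sn : ℝ) + H) / Gd) ^ 2 * (4 * ((nu : ℝ) / S + (Z0 : ℝ) / S) ^ 3) + 1 / S
        ≤ 1 / 4 + (((sn : ℝ) + H) / Gd) ^ 2 * (4 * ((nu + cap) / S) ^ 3) + 1 / S := by
          have : 0 ≤ (((sn : ℝ) + H) / Gd) ^ 2 := sq_nonneg _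
          nlinarith
      _ = ((4 : ℝ) * (nu + cap) ^ 3 * (sn + H) ^ 2 / (S ^ 2 * Gd ^ 2) + S / 4 + 1) / S := by
          field_simp
          ring
      _ ≤ kk / S := div_le_div_of_nonneg_right hk1r hSr.le
  · have e2 : ((U : ℝ) / S + (Z0 : ℝ) / S) ^ 3 ≤ (Uc / S) ^ 3 :=
      pow_le_pow_left₀ (by positivity) hUcr 3
    have e3 : ((U : ℝ) / S + (Z0 : ℝ) / S) ^ 6 ≤ (Uc / S) ^ 6 :=
      pow_le_pow_left₀ (by positivity) hUcr 6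
    have e4 : 0 ≤ 7 * ((dn : ℝ) / dd) := by positivity
    calc (((sn : ℝ) + H) / Gd) ^ 2 * (4 * ((U : ℝ) / S + (Z0 : ℝ) / S) ^ 3 +
          7 * ((dn : ℝ) / dd) * ((U : ℝ) / S + (Z0 : ℝ) / S) ^ 6) - 9 / 4 + 1 / S
        ≤ (((sn : ℝ) + H) / Gd) ^ 2 * (4 * ((Uc : ℝ) / S) ^ 3 +
          7 * ((dn : ℝ) / dd) * ((Uc : ℝ) / S) ^ 6) - 9 / 4 + 1 / S := by
          have h1 : 4 * ((U : ℝ) / S + (Z0 : ℝ) / S) ^ 3 +
              7 * ((dn : ℝ) / dd) * ((U : ℝ) / S + (Z0 : ℝ) / S) ^ 6 ≤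
              4 * ((Uc : ℝ) / S) ^ 3 + 7 * ((dn : ℝ) / dd) * ((Uc : ℝ) / S) ^ 6 := by
            have := mul_le_mul_of_nonneg_left e3 e4
            linarith
          have := mul_le_mul_of_nonneg_left h1 (sq_nonneg (((sn : ℝ) + H) / Gd))
          linarith
      _ = (((sn : ℝ) + H) ^ 2 * (4 * dd * (Uc ^ 3 * S ^ 3) + 7 * dn * Uc ^ 6) /
      (dd * (S ^ 5 * Gd ^ 2)) - 9 * (S / 4) + 1) / S := by
          field_simp
      _ ≤ kk / S := div_le_div_of_nonneg_right hk2r hSr.le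
  · have hg := grow (z := (z0 : ℝ)) (f := (g0 : ℝ) + x0) (g := Z0) (kk := kk) (H := H) (sn := sn)
      (S := S) (y := y0) (ex := ex) (Gd := Gd) (x := xx) hSr hGr hsr hHr hkk0
      (Nat.cast_nonneg _) (by positivity) hxxS hxxr hexr hy0r hZ0r
    refine le_trans (mul_le_mul_of_nonneg_right ?_ (Real.exp_pos _).le) hg
    have e1 : (g0 : ℝ) / S + (dn : ℝ) / dd * (((sn : ℝ) + H) / Gd) * ((Ux : ℝ) / S) ^ 7 ≤
        ((g0 : ℝ) + x0) / S := by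
      have e0 : ((g0 : ℝ) + x0) / S = (g0 : ℝ) / S + (x0 : ℝ) / S := add_div _ _ _
      rw [e0]
      have : (dn : ℝ) / dd * (((sn : ℝ) + H) / Gd) * ((Ux : ℝ) / S) ^ 7 =
          ((dn : ℝ) * (sn + H) * Ux ^ 7 / (dd * (Gd * S ^ 6))) / S := by
        field_simp
      rw [this]
      have := div_le_div_of_nonneg_right hx0r hSr.le
      linarith
    have e2 : 0 ≤ (H : ℝ) / Gd := by positivity
    have := mul_le_mul_of_nonneg_right e1 e2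
    linarith
  · have hg := grow (z := (z1 : ℝ)) (f := (x1 : ℝ) + (g1 + 1)) (g := Z1) (kk := kk) (H := H)
      (sn := sn) (S := S) (y := y1) (ex := ex) (Gd := Gd) (x := xx) hSr hGr hsr hHr hkk0
      (Nat.cast_nonneg _) (by positivity) hxxS hxxr hexr hy1r hZ1r
    refine le_trans (mul_le_mul_of_nonneg_right ?_ (Real.exp_pos _).le) hg
    have e0 : ((U : ℝ) / S + (Z0 : ℝ) / S) ^ 2 ≤ (Uc / S) ^ 2 :=
      pow_le_pow_left₀ (by positivity) hUcr 2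
    have e1 : 12 * (((sn : ℝ) + H) / Gd) * ((U : ℝ) / S + (Z0 : ℝ) / S) ^ 2 *
          ((Z0 : ℝ) / S) * ((A1 : ℝ) / S) +
          (dn : ℝ) / dd * (((sn : ℝ) + H) / Gd) * ((Ux : ℝ) / S) ^ 6 *
            (7 * ((A1 : ℝ) / S) + 2 * ((ln : ℝ) / ld) * ((Ux : ℝ) / S)) +
          (g1 : ℝ) / S + 1 / S ≤ ((x1 : ℝ) + (g1 + 1)) / S := by
      have h1 : 12 * (((sn : ℝ) + H) / Gd) * ((U : ℝ) / S + (Z0 : ℝ) / S) ^ 2 *
          ((Z0 : ℝ) / S) * ((A1 : ℝ) / S) ≤ 12 * (((sn : ℝ) + H) / Gd) * (Uc / S) ^ 2 *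
          ((Z0 : ℝ) / S) * ((A1 : ℝ) / S) := by
        refine mul_le_mul_of_nonneg_right (mul_le_mul_of_nonneg_right
          (mul_le_mul_of_nonneg_left e0 (by positivity)) (by positivity)) (by positivity)
      have h2 : 12 * (((sn : ℝ) + H) / Gd) * (Uc / S) ^ 2 *
          ((Z0 : ℝ) / S) * ((A1 : ℝ) / S) +
          (dn : ℝ) / dd * (((sn : ℝ) + H) / Gd) * ((Ux : ℝ) / S) ^ 6 *
            (7 * ((A1 : ℝ) / S) + 2 * ((ln : ℝ) / ld) * ((Ux : ℝ) / S)) =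
          ((12 : ℝ) * (sn + H) * (Uc ^ 2 * (Z0 * A1)) / (Gd * S ^ 3) +
      (dn : ℝ) * (sn + H) * (Ux ^ 6 * (7 * A1 * ld + 2 * ln * Ux)) / (dd * ld * (Gd * S ^ 6))) / S := by
        field_simp
      have h3 := div_le_div_of_nonneg_right hx1r hSr.le
      have h4 : ((x1 : ℝ) + (g1 + 1)) / S = (x1 : ℝ) / S + (g1 : ℝ) / S + 1 / S := by ring
      rw [h4]
      linarith
    have e2 : 0 ≤ (H : ℝ) / Gd := by positivity
    have := mul_le_mul_of_nonneg_right e1 e2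
    linarith

end SndbL

namespace SndbL

theorem Psi_mono {x y z w : ℝ} (hz : 0 ≤ z) (hzw : z ≤ w) (h : Psi x y z) : Psi x y w :=
  le_trans h (pow_le_pow_left₀ hz hzw 2)

/-- the subdivision points -/
noncomputable def tq (P : Par) (C : CellD) (q : ℕ) : ℝ :=
  ((P.hn * (C.M - C.H) + C.H * q : ℕ) : ℝ) / (P.hn * 2 ^ C.g : ℕ)

section tq
variable {P : Par} {C : CellD}

theorem tq_zero (hn : 0 < P.hn) (hHM : C.H ≤ C.M) : tq P C 0 = C.a0 := by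
  unfold tq CellD.a0
  have : (0 : ℝ) < P.hn := by exact_mod_cast hn
  rw [mul_zero, add_zero]
  push_cast [Nat.cast_sub hHM]
  field_simp

theorem tq_last (hn : 0 < P.hn) (hHM : C.H ≤ C.M) : tq P C (2 * P.hn) = C.a1 := by
  unfold tq CellD.a1
  have : (0 : ℝ) < P.hn := by exact_mod_cast hn
  push_cast [Nat.cast_sub hHM]
  field_simp
  ring

theorem tq_succ (q : ℕ) : tq P C (q + 1) =
    (((P.hn * (C.M - C.H) + C.H * q : ℕ) : ℝ) + C.H) / (P.hn * 2 ^ C.g : ℕ) := by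
  unfold tq
  congr 1
  push_cast
  ring

theorem tq_mono (hn : 0 < P.hn) {p q : ℕ} (h : p ≤ q) : tq P C p ≤ tq P C q := by
  unfold tq
  have h0 : (0 : ℝ) < (P.hn * 2 ^ C.g : ℕ) := by exact_mod_cast Nat.mul_pos hn (by positivity)
  refine div_le_div_of_nonneg_right ?_ h0.le
  have := Nat.mul_le_mul_left C.H h
  exact_mod_cast Nat.add_le_add_left this _

end tq

/-- common data -/
structure Ctx (P : Par) (Q2 : Par2) (C : CellD) (nu A1 g0 g1 : ℕ) (a δ σ tf : ℝ)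
    (V V1 : ℝ → ℝ) : Prop where
  hH : 0 < C.H
  hHM : C.H < C.M
  hn : 0 < P.hn
  hc : P.c = 0
  hs : 8 ≤ P.s
  hdd : 0 < Q2.dd
  hld : 0 < Q2.ld
  ha : a ∈ Icc (-1:ℝ) 1
  hδ : 0 ≤ δ
  hδ1 : δ ≤ Q2.dl
  sys : SysV δ σ tf V V1
  h1 : 1 ≤ C.a0
  htf : C.a1 ≤ tf
  hg0 : ∀ t : ℝ, 0 < t → C.x t ∈ Icc (-1:ℝ) 1 → t * |rC P C a t| < (g0 : ℝ) / 2 ^ P.s
  hg1 : ∀ t : ℝ, 0 < t → C.x t ∈ Icc (-1:ℝ) 1 → ∃ r : ℝ, HasDerivAt (fun s => rC P C s t) r a ∧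
    t * |r| < (g1 : ℝ) / 2 ^ P.s
  hnu : ∀ t : ℝ, C.x t ∈ Icc (-1:ℝ) 1 → -((nu : ℝ) / 2 ^ P.s) ≤ pC P C a t
  hA1 : ∀ t : ℝ, C.x t ∈ Icc (-1:ℝ) 1 → |pCa P C a t| ≤ (A1 : ℝ) / 2 ^ P.s

theorem one_step {P : Par} {Q2 : Par2} {C : CellD} {nu A1 g0 g1 : ℕ} {a δ σ tf : ℝ}
    {V V1 : ℝ → ℝ} (X : Ctx P Q2 C nu A1 g0 g1 a δ σ tf V V1) {q W z0 z1 : ℕ}
    (hq : q < 2 * P.hn) (hW : |pC P C a (tq P C q)| ≤ (W : ℝ) / 2 ^ P.s)
    (hz0 : 0 < z0) (hz1 : 0 < z1) (hi : InvV P C a V V1 (tq P C q) (z0 / 2 ^ P.s))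
    {k : ℕ → ℕ → Bool}
    (h : subStep2 ⟨Nat.pow 2 P.s, P.hn * 2 ^ C.g, C.H, nu, A1, g0, g1, Q2.dn, Q2.dd, Q2.ln, Q2.ld⟩
      (P.hn * (C.M - C.H) + C.H * q) W z0 z1 k = true) :
    ∃ Z0 Z1 : ℕ, k Z0 Z1 = true ∧ z0 ≤ Z0 ∧ z1 ≤ Z1 ∧
      (∀ t ∈ Icc (tq P C q) (tq P C (q + 1)), InvV P C a V V1 t (Z0 / 2 ^ P.s)) ∧
      ∀ (χ μ κ B : ℝ) (D D1 Q : ℝ → ℝ), SysD χ tf D D1 Q → 0 < Q2.lam → Q2.lam * |κ| ≤ 1 →
      (∀ t ∈ Icc C.a0 C.a1, |t * V1 t + 2 / 3 * V t + κ * pCa P C a t| ≤ B) →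
      (∀ t ∈ Icc C.a0 C.a1,
        (tf ^ 2 + Q2.lam * tf * B) * |Q t - (4 * V t ^ 3 + 7 * δ * V t ^ 6)| ≤ 1 / 2 ^ P.s) →
      InvE P Q2 C a δ μ κ V V1 D D1 (tq P C q) (z1 / 2 ^ P.s) →
      ∀ t ∈ Icc (tq P C q) (tq P C (q + 1)), InvE P Q2 C a δ μ κ V V1 D D1 t (Z1 / 2 ^ P.s) := by
  set sn := P.hn * (C.M - C.H) + C.H * q with hsn
  have hGd : 0 < P.hn * 2 ^ C.g := Nat.mul_pos X.hn (by positivity)
  have hsn0 : 0 < sn := by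
    have := Nat.mul_pos X.hn (show 0 < C.M - C.H by have := X.hHM; omega)
    omega
  have hSpos : 0 < Nat.pow 2 P.s := pow_pos (by norm_num) _
  have h4 : 4 ∣ Nat.pow 2 P.s := by
    have e : (4 : ℕ) = 2 ^ 2 := by norm_num
    rw [e]
    exact pow_dvd_pow 2 (by have := X.hs; omega)
  obtain ⟨Z0, Z1, U, Ux, kk, b1, b2, b3, b4, b5, b6, b7, b8, b9, b10, b11, b12⟩ :=
    sub2_num h hSpos h4 hGd hsn0 X.hdd X.hld
  simp only at b4 b5 b6 b7 b8 b9 b10 b11 b12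
  have hSc : ((Nat.pow 2 P.s : ℕ) : ℝ) = 2 ^ P.s := by
    change ((2 ^ P.s : ℕ) : ℝ) = 2 ^ P.s
    push_cast; rfl
  rw [hSc] at b4 b5 b6 b7 b8 b9 b10 b11 b12
  have hS : (0 : ℝ) < 2 ^ P.s := by positivity
  have hs0 : tq P C q = (sn : ℝ) / (P.hn * 2 ^ C.g : ℕ) := rfl
  have hs1 : tq P C (q + 1) = ((sn : ℝ) + C.H) / (P.hn * 2 ^ C.g : ℕ) := tq_succ q
  have hlen : (C.H : ℝ) / (P.hn * 2 ^ C.g : ℕ) = tq P C (q + 1) - tq P C q := by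
    rw [hs0, hs1]; ring
  rw [← hs1] at b9 b10 b11 b12
  rw [← hs0, hlen] at b11 b12
  set s0 := tq P C q with hs0def
  set s1 := tq P C (q + 1) with hs1def
  have h01 : s0 ≤ s1 := tq_mono X.hn (Nat.le_succ q)
  have hlo : C.a0 ≤ s0 := by
    rw [← tq_zero X.hn X.hHM.le]; exact tq_mono X.hn (Nat.zero_le q)
  have hhi : s1 ≤ C.a1 := by
    rw [← tq_last X.hn X.hHM.le]; exact tq_mono X.hn hq
  have hs0pos : 0 < s0 := by linarith [X.h1]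
  have hcell : ∀ t ∈ Icc s0 s1, t ∈ Icc C.a0 C.a1 := fun t ht =>
    ⟨hlo.trans ht.1, ht.2.trans hhi⟩
  have htime : ∀ t ∈ Icc s0 s1, t ∈ Icc 1 tf := fun t ht =>
    ⟨X.h1.trans (hcell t ht).1, (hcell t ht).2.trans X.htf⟩
  have hxm : ∀ t ∈ Icc s0 s1, C.x t ∈ Icc (-1:ℝ) 1 := fun t ht => CellD.x_mem C X.hH (hcell t ht)
  have hpos : ∀ t ∈ Icc s0 s1, 0 < t := fun t ht => by linarith [ht.1]
  have hz0r : (0 : ℝ) < (z0 : ℝ) / 2 ^ P.s := div_pos (by exact_mod_cast hz0) hS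
  have hz1r : (0 : ℝ) < (z1 : ℝ) / 2 ^ P.s := div_pos (by exact_mod_cast hz1) hS
  have hν : (0 : ℝ) ≤ (nu : ℝ) / 2 ^ P.s := by positivity
  have hZ0r : (0 : ℝ) ≤ (Z0 : ℝ) / 2 ^ P.s := by positivity
  have hdl0 : 0 ≤ Q2.dl := X.hδ.trans X.hδ1
  have hU0 : 0 ≤ U := hν.trans b5
  -- `V` is at most `U`
  have hVanti : ∀ t ∈ Icc s0 s1, V t ≤ V s0 := by
    intro t ht
    have hanti : AntitoneOn V (Icc s0 s1) := by
      apply antitoneOn_of_deriv_nonpos (convex_Icc _ _)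
      · exact fun x hx => (X.sys.hV x (htime x hx)).continuousAt.continuousWithinAt
      · intro x hx
        exact (X.sys.hV x (htime x (interior_subset hx))).differentiableAt.differentiableWithinAt
      · intro x hx
        rw [(X.sys.hV x (htime x (interior_subset hx))).deriv]
        exact X.sys.neg x (htime x (interior_subset hx))
    exact hanti ⟨le_refl _, h01⟩ ht ht.1
  have hVs0 : |V s0 - pC P C a s0| ≤ (z0 : ℝ) / 2 ^ P.s := abs_of_Psi hz0r.le hi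
  have hVU : ∀ t ∈ Icc s0 s1, V t ≤ U := by
    intro t ht
    refine (hVanti t ht).trans (le_trans ?_ b4)
    have h1 := (abs_le.mp hVs0).2
    have h2 := (abs_le.mp hW).2
    rw [add_div]
    linarith
  have hfc : ∀ x : ℝ, fc (P.c : ℝ) x = x ^ 4 := by
    intro x
    unfold fc
    rw [X.hc]
    simp
  have hp1 : ∀ t ∈ Icc s0 s1, HasDerivAt (pC1 P C a)
      (-(2 / t) * pC1 P C a t - pC P C a t ^ 4 + rC P C a t) t := by
    intro t _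
    have := pC1_hasDerivAt P C X.hH a t
    rwa [hfc] at this
  have hpν : ∀ t ∈ Icc s0 s1, -((nu : ℝ) / 2 ^ P.s) ≤ pC P C a t := fun t ht =>
    X.hnu t (hxm t ht)
  have L0 : ∀ t ∈ Icc s0 s1, Psi (V t - pC P C a t) (t * (V1 t - pC1 P C a t))
      ((Z0 : ℝ) / 2 ^ P.s) := by
    refine sec_step0 (ρ := rC P C a) (δ := δ) (dl := Q2.dl) (ν := (nu : ℝ) / 2 ^ P.s) (U := U)
      (Ux := Ux) (g0 := (g0 : ℝ) / 2 ^ P.s) (z0 := (z0 : ℝ) / 2 ^ P.s) (k := kk) hs0pos h01 X.hδ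
      X.hδ1 hz0r (by positivity) hν b5 (by positivity) (fun t ht => X.sys.hV t (htime t ht))
      (fun t ht => X.sys.hV1 t (htime t ht)) (fun t ht => X.sys.hV1' t (htime t ht))
      (fun t _ => pC_hasDerivAt P C X.hH a t) hp1 hVU hpν
      (fun t ht => X.hg0 t (hpos t ht) (hxm t ht)) hi b6 b7 b8 ?_ ?_ ?_
    · have : (0 : ℝ) ≤ 1 / 2 ^ P.s := by positivity
      linarith
    · have h1 : (0 : ℝ) ≤ 1 / 2 ^ P.s := by positivity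
      have h2 : 0 ≤ s1 ^ 2 * (7 * ((Q2.dn : ℝ) / Q2.dd) * (U + (Z0 : ℝ) / 2 ^ P.s) ^ 6) := by
        positivity
      linarith
    · exact b11
  refine ⟨Z0, Z1, b1, b2, b3, L0, ?_⟩
  intro χ μ κ B D D1 Q hD hlam hκ hB hQ hiE
  have hVp : ∀ t ∈ Icc s0 s1, |V t - pC P C a t| ≤ (Z0 : ℝ) / 2 ^ P.s := fun t ht =>
    abs_of_Psi hZ0r (L0 t ht)
  have hVlo : ∀ t ∈ Icc s0 s1, -1 / 2 ≤ V t := by
    intro t ht
    have h1 := (abs_le.mp (hVp t ht)).1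
    have h2 := hpν t ht
    linarith
  have hVhi : ∀ t ∈ Icc s0 s1, V t ≤ 3 := by
    intro t ht
    have := hVU t ht
    linarith
  have hK1 : ∀ t ∈ Icc s0 s1, HasDerivAt (pCa1 P C a) (-(2 / t) * pCa1 P C a t -
      4 * pC P C a t ^ 3 * pCa P C a t + deriv (fun s => rC P C s t) a) t := by
    intro t _
    obtain ⟨r, hr1, hr2⟩ := pCa1_hasDerivAt P C X.hH a t
    rw [hr1.deriv]
    rw [X.hc] at hr2
    refine hr2.congr_deriv ?_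
    push_cast
    ring
  have hρK : ∀ t ∈ Icc s0 s1, t * |deriv (fun s => rC P C s t) a| < (g1 : ℝ) / 2 ^ P.s := by
    intro t ht
    obtain ⟨r, hr1, hr2⟩ := X.hg1 t (hpos t ht) (hxm t ht)
    rwa [hr1.deriv]
  have hB0 : 0 ≤ B := (abs_nonneg _).trans (hB s0 (hcell s0 ⟨le_refl _, h01⟩))
  have htf0 : 0 < tf := by
    have h := htime s0 ⟨le_refl _, h01⟩
    linarith [h.1, h.2]
  have hQ0 : ∀ t ∈ Icc s0 s1, t ^ 2 * |Q t - (4 * V t ^ 3 + 7 * δ * V t ^ 6)| ≤ 1 / 2 ^ P.s := by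
    intro t ht
    refine le_trans (mul_le_mul_of_nonneg_right ?_ (abs_nonneg _)) (hQ t (hcell t ht))
    have h1 : t ^ 2 ≤ tf ^ 2 := pow_le_pow_left₀ (hpos t ht).le (htime t ht).2 2
    have h2 : 0 ≤ Q2.lam * tf * B := by positivity
    linarith
  have hQ1 : ∀ t ∈ Icc s0 s1, Q2.lam * (t * (|Q t - (4 * V t ^ 3 + 7 * δ * V t ^ 6)| *
      |t * V1 t + 2 / 3 * V t + κ * pCa P C a t|)) ≤ 1 / 2 ^ P.s := by
    intro t ht
    refine le_trans ?_ (hQ t (hcell t ht))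
    set R := |Q t - (4 * V t ^ 3 + 7 * δ * V t ^ 6)| with hR
    have hR0 : 0 ≤ R := abs_nonneg _
    have h1 := hB t (hcell t ht)
    have h2 : t * |t * V1 t + 2 / 3 * V t + κ * pCa P C a t| ≤ tf * B :=
      mul_le_mul (htime t ht).2 h1 (abs_nonneg _) htf0.le
    calc Q2.lam * (t * (R * |t * V1 t + 2 / 3 * V t + κ * pCa P C a t|))
        = Q2.lam * R * (t * |t * V1 t + 2 / 3 * V t + κ * pCa P C a t|) := by ring
      _ ≤ Q2.lam * R * (tf * B) := mul_le_mul_of_nonneg_left h2 (by positivity)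
      _ = (Q2.lam * tf * B) * R := by ring
      _ ≤ (tf ^ 2 + Q2.lam * tf * B) * R := by
          refine mul_le_mul_of_nonneg_right ?_ hR0
          have := sq_nonneg tf
          linarith
  refine sec_step1 (p := pC P C a) (p1 := pC1 P C a) (K := pCa P C a) (K1 := pCa1 P C a)
    (ρK := fun t => deriv (fun s => rC P C s t) a) (δ := δ) (dl := Q2.dl)
    (ν := (nu : ℝ) / 2 ^ P.s) (U := U) (Ux := Ux) (g1 := (g1 : ℝ) / 2 ^ P.s)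
    (P1 := (A1 : ℝ) / 2 ^ P.s) (z1 := (z1 : ℝ) / 2 ^ P.s) (Z0 := (Z0 : ℝ) / 2 ^ P.s)
    (sl0 := 1 / 2 ^ P.s) (sl1 := 1 / 2 ^ P.s) (k := kk) (Q := Q)
    hs0pos h01 X.hδ X.hδ1 hlam hκ hz1r hZ0r hν b5 (by positivity) (by positivity) (by positivity)
    (by positivity) (fun t ht => X.sys.hV t (htime t ht))
    (fun t ht => X.sys.hV1 t (htime t ht) (hVlo t ht) (hVhi t ht))
    (fun t _ => pCa_hasDerivAt P C X.hH a t) hK1 (fun t ht => hD.hD t (htime t ht))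
    (fun t ht => hD.hD1 t (htime t ht)) hVU hpν hVp (fun t ht => X.hA1 t (hxm t ht)) hρK hQ0 hQ1
    hiE b8 b9 b10 ?_
  exact b12

end SndbL


namespace SndbL

theorem rec_sound {P : Par} {Q2 : Par2} {C : CellD} {nu A1 g0 g1 : ℕ} {a δ σ tf : ℝ}
    {V V1 : ℝ → ℝ} (X : Ctx P Q2 C nu A1 g0 g1 a δ σ tf V V1) (hb : 0 < P.b) :
    ∀ n q z0 z1 : ℕ, q + n = 2 * P.hn → 0 < z0 → 0 < z1 →
    subRec2 P ⟨Nat.pow 2 P.s, P.hn * 2 ^ C.g, C.H, nu, A1, g0, g1, Q2.dn, Q2.dd, Q2.ln, Q2.ld⟩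
      (P.hn * (C.M - C.H)) (colOf (C.rows P))
      (N0 (C.poly P) - n0 (toZ P.O (colOf (C.rows P)))) n q z0 z1
      (fun Z0 Z1 => Nat.ble Z0 C.o0 && Nat.ble Z1 C.o1) = true →
    InvV P C a V V1 (tq P C q) (z0 / 2 ^ P.s) →
    z0 ≤ C.o0 ∧ z1 ≤ C.o1 ∧
      (∀ t ∈ Icc (tq P C q) C.a1, InvV P C a V V1 t (C.o0 / 2 ^ P.s)) ∧
      ∀ (χ μ κ B : ℝ) (D D1 Q : ℝ → ℝ), SysD χ tf D D1 Q → 0 < Q2.lam → Q2.lam * |κ| ≤ 1 →
      (∀ t ∈ Icc C.a0 C.a1, |t * V1 t + 2 / 3 * V t + κ * pCa P C a t| ≤ B) →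
      (∀ t ∈ Icc C.a0 C.a1,
        (tf ^ 2 + Q2.lam * tf * B) * |Q t - (4 * V t ^ 3 + 7 * δ * V t ^ 6)| ≤ 1 / 2 ^ P.s) →
      InvE P Q2 C a δ μ κ V V1 D D1 (tq P C q) (z1 / 2 ^ P.s) →
      ∀ t ∈ Icc (tq P C q) C.a1, InvE P Q2 C a δ μ κ V V1 D D1 t (C.o1 / 2 ^ P.s) := by
  have hS : (0 : ℝ) < 2 ^ P.s := by positivity
  have hmono : ∀ {x y : ℝ} {u v : ℕ}, u ≤ v → Psi x y ((u : ℝ) / 2 ^ P.s) →
      Psi x y ((v : ℝ) / 2 ^ P.s) := fun huv hp =>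
    Psi_mono (by positivity) (div_le_div_of_nonneg_right (by exact_mod_cast huv) hS.le) hp
  intro n
  induction n with
  | zero =>
    intro q z0 z1 hq hz0 hz1 h hi
    have h' : (Nat.ble z0 C.o0 && Nat.ble z1 C.o1) = true := h
    rw [Bool.and_eq_true, Nat.ble_eq, Nat.ble_eq] at h'
    obtain ⟨h1, h2⟩ := h'
    have hq' : q = 2 * P.hn := by omega
    have hend : ∀ t ∈ Icc (tq P C q) C.a1, t = tq P C q := by
      intro t ht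
      have e := tq_last X.hn X.hHM.le
      rw [← hq'] at e
      rw [← e] at ht
      exact le_antisymm ht.2 ht.1
    refine ⟨h1, h2, ?_, ?_⟩
    · intro t ht
      rw [hend t ht]
      exact hmono h1 hi
    · intro χ μ κ B D D1 Q _ _ _ _ _ hE t ht
      rw [hend t ht]
      exact hmono h2 hE
  | succ n ih =>
    intro q z0 z1 hq hz0 hz1 h hi
    have e : subRec2 P ⟨Nat.pow 2 P.s, P.hn * 2 ^ C.g, C.H, nu, A1, g0, g1, Q2.dn, Q2.dd, Q2.ln,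
        Q2.ld⟩ (P.hn * (C.M - C.H)) (colOf (C.rows P))
        (N0 (C.poly P) - n0 (toZ P.O (colOf (C.rows P)))) (n + 1) q z0 z1
        (fun Z0 Z1 => Nat.ble Z0 C.o0 && Nat.ble Z1 C.o1) =
      wOf P (colOf (C.rows P)) (N0 (C.poly P) - n0 (toZ P.O (colOf (C.rows P)))) q (fun W =>
        subStep2 ⟨Nat.pow 2 P.s, P.hn * 2 ^ C.g, C.H, nu, A1, g0, g1, Q2.dn, Q2.dd, Q2.ln, Q2.ld⟩
          (P.hn * (C.M - C.H) + C.H * q) W z0 z1 (fun Z0 Z1 =>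
            subRec2 P ⟨Nat.pow 2 P.s, P.hn * 2 ^ C.g, C.H, nu, A1, g0, g1, Q2.dn, Q2.dd, Q2.ln,
              Q2.ld⟩ (P.hn * (C.M - C.H)) (colOf (C.rows P))
              (N0 (C.poly P) - n0 (toZ P.O (colOf (C.rows P)))) n (q + 1) Z0 Z1
              (fun Z0 Z1 => Nat.ble Z0 C.o0 && Nat.ble Z1 C.o1))) := rfl
    rw [e] at h
    obtain ⟨W, hW1, hW2⟩ := wOf_sound (P := P) (C := C) hb X.hH X.hHM.le X.hn (q := q) (by omega)
      (fun W =>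
        subStep2 ⟨Nat.pow 2 P.s, P.hn * 2 ^ C.g, C.H, nu, A1, g0, g1, Q2.dn, Q2.dd, Q2.ln, Q2.ld⟩
          (P.hn * (C.M - C.H) + C.H * q) W z0 z1 (fun Z0 Z1 =>
            subRec2 P ⟨Nat.pow 2 P.s, P.hn * 2 ^ C.g, C.H, nu, A1, g0, g1, Q2.dn, Q2.dd, Q2.ln,
              Q2.ld⟩ (P.hn * (C.M - C.H)) (colOf (C.rows P))
              (N0 (C.poly P) - n0 (toZ P.O (colOf (C.rows P)))) n (q + 1) Z0 Z1
              (fun Z0 Z1 => Nat.ble Z0 C.o0 && Nat.ble Z1 C.o1)))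
    rw [hW1] at h
    obtain ⟨Z0, Z1, k1, k2, k3, k4, k5⟩ := one_step X (by omega) (hW2 a X.ha) hz0 hz1 hi h
    have h01 : tq P C q ≤ tq P C (q + 1) := tq_mono X.hn (Nat.le_succ q)
    obtain ⟨m1, m2, m3, m4⟩ := ih (q + 1) Z0 Z1 (by omega) (by omega) (by omega) k1
      (k4 _ ⟨h01, le_refl _⟩)
    refine ⟨k2.trans m1, k3.trans m2, ?_, ?_⟩
    · intro t ht
      rcases le_total t (tq P C (q + 1)) with h1 | h1
      · exact hmono m1 (k4 t ⟨ht.1, h1⟩)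
      · exact m3 t ⟨h1, ht.2⟩
    · intro χ μ κ B D D1 Q hD hlam hκ hB hQ hE t ht
      have k6 := k5 χ μ κ B D D1 Q hD hlam hκ hB hQ hE
      rcases le_total t (tq P C (q + 1)) with h1 | h1
      · exact hmono m2 (k6 t ⟨ht.1, h1⟩)
      · exact m4 χ μ κ B D D1 Q hD hlam hκ hB hQ (k6 _ ⟨h01, le_refl _⟩) t ⟨h1, ht.2⟩

theorem nbAll_ex (P : Par) (C : CellD) : ∃ b0 b1 b2 : ℕ, ∀ (β : Type) (k : ℕ → ℕ → ℕ → β),
    nbAll P C k = k b0 b1 b2 := ⟨_, _, _, fun _ _ => rfl⟩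

theorem headD_col (O : ℕ) (D : List (List ℕ)) (w n : ℕ) (hD : D.length = n + 1)
    (hr : ∀ r ∈ D, r.length = w + 1) :
    ((toI O D).headD []).headD 0 = (((colOf D).headD 0 : ℕ) : ℤ) - O := by
  cases D with
  | nil => simp at hD
  | cons r D =>
    have h := hr r List.mem_cons_self
    cases r with
    | nil => simp at h
    | cons x r => rfl

end SndbL

open SndbL in
/- In the recursion `subStep2` take `sl0 = sl1 = 1/S`: `kOf2` ends with `Nat.succ`, and `Nat.succ K.g1`. -/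
theorem cell2_sound {P : Par} {Q2 : Par2} {C : CellD} (h : cell2OK P Q2 C = true)
    {a δ σ tf : ℝ} {V V1 : ℝ → ℝ} (ha : a ∈ Icc (-1:ℝ) 1) (hδ : 0 ≤ δ)
    (hδ1 : δ ≤ Q2.dl) (hsys : SysV δ σ tf V V1) (h1 : 1 ≤ C.a0) (htf : C.a1 ≤ tf)
    (hi : InvV P C a V V1 C.a0 (C.i0 / 2 ^ P.s)) :
    C.a0 < C.a1 ∧ (∀ t ∈ Icc C.a0 C.a1, InvV P C a V V1 t (C.o0 / 2 ^ P.s)) ∧
    ∀ (χ μ κ B : ℝ) (D D1 Q : ℝ → ℝ), SysD χ tf D D1 Q → 0 < Q2.lam → Q2.lam * |κ| ≤ 1 →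
      (∀ t ∈ Icc C.a0 C.a1, |t * V1 t + 2 / 3 * V t + κ * pCa P C a t| ≤ B) →
      (∀ t ∈ Icc C.a0 C.a1,
        (tf ^ 2 + Q2.lam * tf * B) * |Q t - (4 * V t ^ 3 + 7 * δ * V t ^ 6)| ≤ 1 / 2 ^ P.s) →
      InvE P Q2 C a δ μ κ V V1 D D1 C.a0 (C.i1 / 2 ^ P.s) →
      ∀ t ∈ Icc C.a0 C.a1, InvE P Q2 C a δ μ κ V V1 D D1 t (C.o1 / 2 ^ P.s) := by
  unfold cell2OK at h
  rw [nrmAll_spec] at h
  obtain ⟨b0, b1, b2, hb⟩ := nbAll_ex P C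
  simp only [force_eq, nrm_spec, hb, Bool.and_eq_true] at h
  obtain ⟨⟨⟨⟨⟨⟨⟨⟨⟨⟨⟨cH, cHM⟩, chn⟩, cs⟩, cc⟩, cb⟩, ci0⟩, ci1⟩, cdd⟩, cln⟩, cld⟩, cres, crec⟩ := h
  have hH : 0 < C.H := Nat.le_of_ble_eq_true cH
  have hHM : C.H < C.M := Nat.le_of_ble_eq_true cHM
  have hn : 0 < P.hn := Nat.le_of_ble_eq_true chn
  have hs : 8 ≤ P.s := by simpa using cs
  have hc : P.c = 0 := (Nat.beq_eq ▸ cc : P.c = 0)
  have hb' : 0 < P.b := Nat.le_of_ble_eq_true cb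
  have hi0 : 0 < C.i0 := Nat.le_of_ble_eq_true ci0
  have hi1 : 0 < C.i1 := Nat.le_of_ble_eq_true ci1
  have hdd : 0 < Q2.dd := Nat.le_of_ble_eq_true cdd
  have hln : 0 < Q2.ln := Nat.le_of_ble_eq_true cln
  have hld : 0 < Q2.ld := Nat.le_of_ble_eq_true cld
  have hfacts := cell_facts (P := P) (C := C) (by omega) hb' hH cres
  rw [hb] at hfacts
  have hS : (0 : ℝ) < 2 ^ P.s := by positivity
  have X : Ctx P Q2 C
      (Nat.sub (Nat.add (N0 (toI P.O (C.rows P))) (Nat.mul 2 P.O))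
        (Nat.mul 2 ((colOf (C.rows P)).headD 0)))
      (N1 (toI P.O (C.rows P))) (gBnd P C b0) (gBnd P C b1) a δ σ tf V V1 := by
    refine ⟨hH, hHM, hn, hc, hs, hdd, hld, ha, hδ, hδ1, hsys, h1, htf, ?_, ?_, ?_, ?_⟩
    · intro t ht hx
      exact (hfacts t ht hx).1 a ha
    · intro t ht hx
      exact (hfacts t ht hx).2.2.2 a ha
    · intro t hx
      have h2 := (pC_facts (P := P) hx).2.2.2.1 a ha
      refine le_trans ?_ h2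
      have h3 : (((C.poly P).headD []).headD 0 : ℤ) = (((colOf (C.rows P)).headD 0 : ℕ) : ℤ) - P.O :=
        headD_col P.O (C.rows P) P.da P.dx (rows_length P C) (rows_row_length P C)
      rw [h3]
      rw [← neg_div]
      refine div_le_div_of_nonneg_right ?_ hS.le
      have h4 : N0 (toI P.O (C.rows P)) + 2 * P.O ≤
          Nat.sub (Nat.add (N0 (toI P.O (C.rows P))) (Nat.mul 2 P.O))
            (Nat.mul 2 ((colOf (C.rows P)).headD 0)) + 2 * ((colOf (C.rows P)).headD 0) := by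
        change _ ≤ (N0 (toI P.O (C.rows P)) + 2 * P.O - 2 * ((colOf (C.rows P)).headD 0)) + _
        omega
      have h5 : ((N0 (toI P.O (C.rows P)) : ℕ) : ℝ) + 2 * P.O ≤
          ((Nat.sub (Nat.add (N0 (toI P.O (C.rows P))) (Nat.mul 2 P.O))
            (Nat.mul 2 ((colOf (C.rows P)).headD 0)) : ℕ) : ℝ) +
            2 * ((colOf (C.rows P)).headD 0 : ℕ) := by exact_mod_cast h4
      change _ ≤ 2 * ((((colOf (C.rows P)).headD 0 : ℕ) : ℤ) - (P.O : ℤ) : ℤ) -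
        ((N0 (toI P.O (C.rows P)) : ℕ) : ℝ)
      push_cast
      linarith
    · intro t hx
      exact pCa_abs_le hx ha
  have ha0 : C.a0 < C.a1 := by
    unfold CellD.a0 CellD.a1
    have : (0 : ℝ) < C.H := by exact_mod_cast hH
    refine div_lt_div_of_pos_right ?_ (by positivity)
    linarith
  have e0 := tq_zero hn hHM.le
  have key := rec_sound X hb' (2 * P.hn) 0 C.i0 C.i1 (by omega) hi0 hi1 crec (by rw [e0]; exact hi)
  rw [e0] at key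
  exact ⟨ha0, key.2.2.1, key.2.2.2⟩


namespace SndbL

theorem sb_Psi_small {x y j k : ℝ} (hj : 0 ≤ j) (hk : 0 ≤ k) (hx : |x| ≤ j) (hy : |y| ≤ k) :
    Psi x y (k + 3 / 2 * j) := by
  unfold Psi
  have h1 : |y + x / 2| ≤ k + j / 2 := by
    refine (abs_add_le _ _).trans ?_
    rw [abs_div, abs_of_pos (by norm_num : (0:ℝ) < 2)]
    linarith
  have h2 : (y + x / 2) ^ 2 ≤ (k + j / 2) ^ 2 := by
    rw [← sq_abs (y + x / 2)]; exact pow_le_pow_left₀ (abs_nonneg _) h1 2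
  have h3 : x ^ 2 ≤ j ^ 2 := by
    rw [← sq_abs x]; exact pow_le_pow_left₀ (abs_nonneg _) hx 2
  have h4 : 0 ≤ 2 * (k + j / 2) * j := by positivity
  nlinarith

theorem Psi_step {x y x' y' z j k w : ℝ} (hz : 0 ≤ z) (hj : 0 ≤ j) (hk : 0 ≤ k)
    (h : Psi x y z) (hx : |x' - x| ≤ j) (hy : |y' - y| ≤ k) (hw : z + (k + 3 / 2 * j) ≤ w) :
    Psi x' y' w := by
  have h1 := psi_add hz (by positivity : 0 ≤ k + 3 / 2 * j) h (sb_Psi_small hj hk hx hy)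
  have h2 : Psi x' y' (z + (k + 3 / 2 * j)) := by
    unfold Psi
    convert h1 using 3
    · ring
    · ring
  exact Psi_mono (by positivity) hw h2

theorem mul_bd {lam κ r j : ℝ} (hlam : 0 < lam) (hκ : lam * |κ| ≤ 1) (hr : |r| ≤ j) :
    |lam * κ * r| ≤ j := by
  rw [abs_mul, abs_mul, abs_of_pos hlam]
  calc lam * |κ| * |r| ≤ 1 * |r| := mul_le_mul_of_nonneg_right hκ (abs_nonneg _)
    _ = |r| := one_mul _
    _ ≤ j := hr

end SndbL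

open SndbL in
theorem jump2_sound {P : Par} {Q2 : Par2} {C C' : CellD} (h : jumpOK P C C' = true)
    {a δ : ℝ} {V V1 : ℝ → ℝ} (ha : a ∈ Icc (-1:ℝ) 1)
    (hi : InvV P C a V V1 C.a1 (C.o0 / 2 ^ P.s)) :
    C.a1 = C'.a0 ∧ InvV P C' a V V1 C'.a0 (C'.i0 / 2 ^ P.s) ∧
    ∀ (μ κ : ℝ) (D D1 : ℝ → ℝ), 0 < Q2.lam → Q2.lam * |κ| ≤ 1 →
      InvE P Q2 C a δ μ κ V V1 D D1 C.a1 (C.o1 / 2 ^ P.s) →
      InvE P Q2 C' a δ μ κ V V1 D D1 C'.a0 (C'.i1 / 2 ^ P.s) := by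
  obtain ⟨hj, j0, j1, j2, k0, k1, k2, p0, p1, p2, q0, q1, q2, s0, s1, s2, f0, f1, f2, f3⟩ :=
    jump_facts h
  have hS : (0 : ℝ) < 2 ^ P.s := by positivity
  refine ⟨hj, ?_, ?_⟩
  · rw [← hj]
    obtain ⟨u1, u2⟩ := f0 a ha
    refine Psi_step (by positivity) p0 q0 hi ?_ ?_ s0
    · rw [show V C.a1 - pC P C' a C.a1 - (V C.a1 - pC P C a C.a1) =
        -(pC P C' a C.a1 - pC P C a C.a1) by ring, abs_neg]
      exact u1
    · rw [show C.a1 * (V1 C.a1 - pC1 P C' a C.a1) - C.a1 * (V1 C.a1 - pC1 P C a C.a1) =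
        -(C.a1 * (pC1 P C' a C.a1 - pC1 P C a C.a1)) by ring, abs_neg]
      exact u2
  · intro μ κ D D1 hlam hκ hE
    rw [← hj]
    obtain ⟨r, r', g1, g2, g3, g4⟩ := f3 a ha
    have e1 : r = pCa P C' a C.a1 - pCa P C a C.a1 :=
      g1.unique ((pCa_spec P C' a C.a1).sub (pCa_spec P C a C.a1))
    have e2 : r' = pCa1 P C' a C.a1 - pCa1 P C a C.a1 :=
      g3.unique ((pCa1_spec P C' a C.a1).sub (pCa1_spec P C a C.a1))
    rw [e1] at g2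
    rw [e2] at g4
    refine Psi_step (by positivity) p1 q1 hE ?_ ?_ s1
    · rw [show Q2.lam * (μ * D C.a1 - (C.a1 * V1 C.a1 + 2 / 3 * V C.a1) - κ * pCa P C' a C.a1) -
        Q2.lam * (μ * D C.a1 - (C.a1 * V1 C.a1 + 2 / 3 * V C.a1) - κ * pCa P C a C.a1) =
        -(Q2.lam * κ * (pCa P C' a C.a1 - pCa P C a C.a1)) by ring, abs_neg]
      exact mul_bd hlam hκ g2
    · rw [show C.a1 * (Q2.lam * (μ * D1 C.a1 + 1 / 3 * V1 C.a1 + C.a1 * (V C.a1 ^ 4 +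
          δ * V C.a1 ^ 7) - κ * pCa1 P C' a C.a1)) -
        C.a1 * (Q2.lam * (μ * D1 C.a1 + 1 / 3 * V1 C.a1 + C.a1 * (V C.a1 ^ 4 +
          δ * V C.a1 ^ 7) - κ * pCa1 P C a C.a1)) =
        -(Q2.lam * κ * (C.a1 * (pCa1 P C' a C.a1 - pCa1 P C a C.a1))) by ring, abs_neg]
      exact mul_bd hlam hκ g4

open SndbL in
/-- `κ = ν/σ_r`, `ν = χ μ + σ/3 - Up^4 - δ Up^7`, `μ = 2/3 Up - σ`, `Up = 45/128`: then
`μ D - y - κ p_a` and its derivative vanish at `1` up to the error of `p` -/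
theorem init2_sound {P : Par} {Q2 : Par2} {C : CellD} {sc sr : ℕ} (h : init2OK P sc sr C = true)
    {a δ σ tf : ℝ} {V V1 : ℝ → ℝ} (ha : a ∈ Icc (-1:ℝ) 1)
    (htf : 1 ≤ tf) (hσ : σ = ((sc : ℝ) + sr * a) / 2 ^ P.s) (hsys : SysV δ σ tf V V1) :
    C.a0 = 1 ∧ InvV P C a V V1 C.a0 (C.i0 / 2 ^ P.s) ∧
    ∀ (χ μ κ : ℝ) (D D1 Q : ℝ → ℝ), SysD χ tf D D1 Q → 0 < Q2.lam → Q2.lam * |κ| ≤ 1 →
      μ = 15 / 64 - σ →
      κ * (sr / 2 ^ P.s) = χ * μ + σ / 3 - (45 / 128) ^ 4 - δ * (45 / 128) ^ 7 →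
      InvE P Q2 C a δ μ κ V V1 D D1 C.a0 (C.i1 / 2 ^ P.s) := by
  obtain ⟨h0, j0, j1, k0, k1, p0, p1, q0, q1, s0, s1, f0, f1⟩ := init2_facts h
  have hS : (0 : ℝ) < 2 ^ P.s := by positivity
  refine ⟨h0, ?_, ?_⟩
  · rw [h0]
    obtain ⟨u1, u2⟩ := f0 a ha
    refine Psi_mono (by positivity) s0 (sb_Psi_small p0 q0 ?_ ?_)
    · rw [hsys.v0, abs_sub_comm]
      exact u1
    · rw [hsys.v1, one_mul, show -σ - pC1 P C a 1 = -(pC1 P C a 1 + σ) by ring, abs_neg, hσ]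
      exact u2
  · intro χ μ κ D D1 Q hD hlam hκ hμ hk
    rw [h0]
    obtain ⟨r, r', g1, g2, g3, g4⟩ := f1 a ha
    have e1 : r = pCa P C a 1 := g1.unique (pCa_spec P C a 1)
    have e2 : r' = pCa1 P C a 1 := g3.unique (pCa1_spec P C a 1)
    rw [e1] at g2
    rw [e2] at g4
    refine Psi_mono (by positivity) s1 (sb_Psi_small p1 q1 ?_ ?_)
    · rw [hsys.v0, hsys.v1, hD.d0, hμ, show Q2.lam * ((15 / 64 - σ) * 1 -
        (1 * -σ + 2 / 3 * (45 / 128)) - κ * pCa P C a 1) = -(Q2.lam * κ * pCa P C a 1) by ring,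
        abs_neg]
      exact mul_bd hlam hκ g2
    · rw [hsys.v0, hsys.v1, hD.d1]
      have e3 : 1 * (Q2.lam * (μ * -χ + 1 / 3 * -σ + 1 * ((45 / 128) ^ 4 + δ * (45 / 128) ^ 7) -
          κ * pCa1 P C a 1)) = -(Q2.lam * κ * (pCa1 P C a 1 + sr / 2 ^ P.s)) := by
        linear_combination Q2.lam * hk
      rw [e3, abs_neg]
      exact mul_bd hlam hκ g4

namespace SndbL

theorem cell2_geom {P : Par} {Q2 : Par2} {C : CellD} (h : cell2OK P Q2 C = true) :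
    C.a0 < C.a1 ∧ 0 < C.H ∧ 0 < Q2.lam := by
  unfold cell2OK at h
  simp only [Bool.and_eq_true] at h
  obtain ⟨⟨⟨⟨⟨⟨⟨⟨⟨⟨⟨cH, cHM⟩, chn⟩, cs⟩, cc⟩, cb⟩, ci0⟩, ci1⟩, cdd⟩, cln⟩, cld⟩, -⟩ := h
  have hH : 0 < C.H := Nat.le_of_ble_eq_true cH
  have hln : 0 < Q2.ln := Nat.le_of_ble_eq_true cln
  have hld : 0 < Q2.ld := Nat.le_of_ble_eq_true cld
  refine ⟨?_, hH, ?_⟩
  · unfold CellD.a0 CellD.a1
    have : (0 : ℝ) < C.H := by exact_mod_cast hH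
    refine div_lt_div_of_pos_right ?_ (by positivity)
    linarith
  · unfold Par2.lam
    exact div_pos (by exact_mod_cast hln) (by exact_mod_cast hld)

theorem chain2_cons {P : Par} {Q2 : Par2} {C C' : CellD} {l : List CellD}
    (h : chain2OK P Q2 (C' :: l) C = true) :
    jumpOK P C C' = true ∧ cell2OK P Q2 C' = true ∧ chain2OK P Q2 l C' = true := by
  have h' : (jumpOK P C C' && cell2OK P Q2 C' && chain2OK P Q2 l C') = true := h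
  simp only [Bool.and_eq_true] at h'
  exact ⟨h'.1.1, h'.1.2, h'.2⟩

theorem getLastD_cons' {α : Type} (x y : α) (l : List α) :
    (x :: l).getLastD y = l.getLastD x := by
  cases l with
  | nil => rfl
  | cons a l => rfl

theorem chain2_geom {P : Par} {Q2 : Par2} : ∀ (l : List CellD) (C : CellD),
    cell2OK P Q2 C = true → chain2OK P Q2 l C = true → C.a1 ≤ (l.getLastD C).a1 := by
  intro l
  induction l with
  | nil => intro C _ _; exact le_refl _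
  | cons C' l ih =>
    intro C h1 h2
    obtain ⟨g1, g2, g3⟩ := chain2_cons h2
    have e : (C' :: l).getLastD C = l.getLastD C' := getLastD_cons' C' C l
    rw [e]
    refine le_trans ?_ (ih C' g2 g3)
    rw [(jump_facts g1).1]
    exact (cell2_geom g2).1.le

theorem chain_aux {P : Par} {Q2 : Par2} {a δ σ tf : ℝ} (ha : a ∈ Icc (-1:ℝ) 1) (hδ : 0 ≤ δ)
    (hδ1 : δ ≤ Q2.dl) {V V1 : ℝ → ℝ} (hsys : SysV δ σ tf V V1) {B0 : ℝ}
    (hB0 : ∀ t ∈ Icc 1 tf, |t * V1 t + 2 / 3 * V t| ≤ B0) :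
    ∀ (l : List CellD) (C : CellD), cell2OK P Q2 C = true → chain2OK P Q2 l C = true →
      1 ≤ C.a0 → (l.getLastD C).a1 ≤ tf → InvV P C a V V1 C.a0 (C.i0 / 2 ^ P.s) →
      InvV P (l.getLastD C) a V V1 (l.getLastD C).a1 ((l.getLastD C).o0 / 2 ^ P.s) ∧
      ∃ ε > 0, ∀ (χ μ κ : ℝ) (D D1 Q : ℝ → ℝ), SysD χ tf D D1 Q → Q2.lam * |κ| ≤ 1 →
        (∀ t ∈ Icc 1 tf, |Q t - (4 * V t ^ 3 + 7 * δ * V t ^ 6)| ≤ ε) →
        InvE P Q2 C a δ μ κ V V1 D D1 C.a0 (C.i1 / 2 ^ P.s) →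
        InvE P Q2 (l.getLastD C) a δ μ κ V V1 D D1 (l.getLastD C).a1
          ((l.getLastD C).o1 / 2 ^ P.s) := by
  have hS : (0 : ℝ) < 2 ^ P.s := by positivity
  have one : ∀ (C : CellD), cell2OK P Q2 C = true → 1 ≤ C.a0 → C.a1 ≤ tf →
      InvV P C a V V1 C.a0 (C.i0 / 2 ^ P.s) →
      InvV P C a V V1 C.a1 (C.o0 / 2 ^ P.s) ∧
      ∃ ε > 0, ∀ (χ μ κ : ℝ) (D D1 Q : ℝ → ℝ), SysD χ tf D D1 Q → Q2.lam * |κ| ≤ 1 →
        (∀ t ∈ Icc 1 tf, |Q t - (4 * V t ^ 3 + 7 * δ * V t ^ 6)| ≤ ε) →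
        InvE P Q2 C a δ μ κ V V1 D D1 C.a0 (C.i1 / 2 ^ P.s) →
        InvE P Q2 C a δ μ κ V V1 D D1 C.a1 (C.o1 / 2 ^ P.s) := by
    intro C hC h1 htf hi
    obtain ⟨c1, c2, c3⟩ := cell2_sound hC ha hδ hδ1 hsys h1 htf hi
    obtain ⟨-, hH, hlam⟩ := cell2_geom hC
    refine ⟨c2 _ ⟨c1.le, le_refl _⟩, ?_⟩
    set B := B0 + 1 / Q2.lam * ((N1 (C.poly P) : ℝ) / 2 ^ P.s) with hB
    have htf1 : 1 ≤ tf := by linarith
    have hB00 : 0 ≤ B0 := (abs_nonneg _).trans (hB0 1 ⟨le_refl _, htf1⟩)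
    have hBnn : 0 ≤ B := by positivity
    have hK : 0 < tf ^ 2 + Q2.lam * tf * B := by positivity
    refine ⟨1 / 2 ^ P.s / (tf ^ 2 + Q2.lam * tf * B), by positivity, ?_⟩
    intro χ μ κ D D1 Q hD hκ hQ hE
    refine c3 χ μ κ B D D1 Q hD hlam hκ ?_ ?_ hE C.a1 ⟨c1.le, le_refl _⟩
    · intro t ht
      have ht' : t ∈ Icc 1 tf := ⟨h1.trans ht.1, ht.2.trans htf⟩
      have u1 := hB0 t ht'
      have u2 := pCa_abs_le (P := P) (C := C) (CellD.x_mem C hH ht) ha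
      have u3 : |κ| ≤ 1 / Q2.lam := by
        rw [le_div_iff₀ hlam]; linarith
      have u4 : |κ * pCa P C a t| ≤ 1 / Q2.lam * ((N1 (C.poly P) : ℝ) / 2 ^ P.s) := by
        rw [abs_mul]
        exact mul_le_mul u3 u2 (abs_nonneg _) (by positivity)
      exact (abs_add_le _ _).trans (by rw [hB]; exact add_le_add u1 u4)
    · intro t ht
      have ht' : t ∈ Icc 1 tf := ⟨h1.trans ht.1, ht.2.trans htf⟩
      have u1 := hQ t ht'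
      rw [le_div_iff₀ hK] at u1
      linarith
  intro l
  induction l with
  | nil =>
    intro C h1 _ h3 h4 hi
    exact one C h1 h3 h4 hi
  | cons C' l ih =>
    intro C h1 h2 h3 h4 hi
    have e : (C' :: l).getLastD C = l.getLastD C' := getLastD_cons' C' C l
    have hC1 : C.a1 ≤ tf := (chain2_geom _ C h1 h2).trans h4
    rw [e] at h4 ⊢
    obtain ⟨g1, g2, g3⟩ := chain2_cons h2
    obtain ⟨o1, ε1, hε1, o2⟩ := one C h1 h3 hC1 hi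
    obtain ⟨u1, u2, u3⟩ := jump2_sound (Q2 := Q2) (δ := δ) g1 ha o1
    have h3' : 1 ≤ C'.a0 := by
      rw [← u1]
      exact h3.trans (cell2_geom h1).1.le
    obtain ⟨w1, ε2, hε2, w2⟩ := ih C' g2 g3 h3' h4 u2
    refine ⟨w1, min ε1 ε2, lt_min hε1 hε2, ?_⟩
    intro χ μ κ D D1 Q hD hκ hQ hE
    refine w2 χ μ κ D D1 Q hD hκ (fun t ht => (hQ t ht).trans (min_le_right _ _)) ?_
    refine u3 μ κ D D1 (cell2_geom h1).2.2 hκ ?_
    exact o2 χ μ κ D D1 Q hD hκ (fun t ht => (hQ t ht).trans (min_le_left _ _)) hE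

end SndbL

open SndbL in
/-- the whole chain; `ε` depends only on `V` (compactness: `V, V1` and the finitely many `pCa P C a` are
continuous, hence bounded on `[1, tf]`, and `|κ| ≤ 1/λ`) -/
theorem chain2_sound {P : Par} {Q2 : Par2} {C : CellD} {l : List CellD} {sc sr : ℕ}
    (h0 : init2OK P sc sr C = true) (h1 : cell2OK P Q2 C = true) (h2 : chain2OK P Q2 l C = true)
    {a δ σ : ℝ} (ha : a ∈ Icc (-1:ℝ) 1) (hδ : 0 ≤ δ) (hδ1 : δ ≤ Q2.dl)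
    (hσ : σ = ((sc : ℝ) + sr * a) / 2 ^ P.s) {V V1 : ℝ → ℝ}
    (hsys : SysV δ σ (l.getLastD C).a1 V V1) :
    1 < (l.getLastD C).a1 ∧
    InvV P (l.getLastD C) a V V1 (l.getLastD C).a1 ((l.getLastD C).o0 / 2 ^ P.s) ∧
    ∃ ε > 0, ∀ (χ μ κ : ℝ) (D D1 Q : ℝ → ℝ), SysD χ (l.getLastD C).a1 D D1 Q → 0 < Q2.lam →
      Q2.lam * |κ| ≤ 1 → μ = 15 / 64 - σ →
      κ * (sr / 2 ^ P.s) = χ * μ + σ / 3 - (45 / 128) ^ 4 - δ * (45 / 128) ^ 7 →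
      (∀ t ∈ Icc 1 (l.getLastD C).a1, |Q t - (4 * V t ^ 3 + 7 * δ * V t ^ 6)| ≤ ε) →
      InvE P Q2 (l.getLastD C) a δ μ κ V V1 D D1 (l.getLastD C).a1
        ((l.getLastD C).o1 / 2 ^ P.s) := by
  have hgeo := chain2_geom l C h1 h2
  obtain ⟨hc1, -, -⟩ := cell2_geom h1
  have ha0 : C.a0 = 1 := (init2_facts h0).1
  have htf : 1 < (l.getLastD C).a1 := by linarith
  obtain ⟨-, i1, i2⟩ := init2_sound (Q2 := Q2) h0 ha htf.le hσ hsys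
  obtain ⟨B0, hB0⟩ := isCompact_Icc.exists_bound_of_continuousOn (s := Icc 1 (l.getLastD C).a1)
    (f := fun t => t * V1 t + 2 / 3 * V t) (by
      intro t ht
      obtain ⟨w, hw⟩ := hsys.hV1' t ht
      exact ((continuousAt_id.mul hw.continuousAt).add
        (continuousAt_const.mul (hsys.hV t ht).continuousAt)).continuousWithinAt)
  obtain ⟨w1, ε, hε, w2⟩ := chain_aux ha hδ hδ1 hsys (B0 := B0)
    (fun t ht => by simpa [Real.norm_eq_abs] using hB0 t ht) l C h1 h2 ha0.ge (le_refl _) i1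
  refine ⟨htf, w1, ε, hε, ?_⟩
  intro χ μ κ D D1 Q hD hlam hκ hμ hk hQ
  exact w2 χ μ κ D D1 Q hD hκ hQ (i2 χ μ κ D D1 Q hD hlam hκ hμ hk)

end Pool.Agent.H228
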