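import Mathlib
import Pool.Agent.H228.Sndb

/-! TASK T4: from the checks of a section box to a certificate. -/

set_option autoImplicit false

namespace Pool.Agent.H228

open Set

/-- what is needed at the final time `t`: `V` value, `Y = t V'`, `D`, `E = t D'` -/
def SecEnd (δ vb t V Y D E : ℝ) : Prop :=
  V < vb ∧ vb ≤ 1 ∧ 3 * V + 2 * Y < 0 ∧ t ^ 2 * (4 * vb ^ 3 + 7 * δ * vb ^ 6) ≤ 5 / 2 ∧
  (3 * vb ^ 4 + 6 * δ * vb ^ 7) * t ^ 2 * (4 / 3 * (|E| + 3 / 2 * |D|)) < -(V * E - Y * D)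

/-- certificate for `δ ∈ [0, dmax]`, `σ ∈ [slo, shi]`, final time `tf` -/
def SecCert (dmax slo shi tf : ℝ) : Prop :=
  ∀ σ ∈ Icc slo shi, ∀ δ ∈ Icc 0 dmax, ∀ V V1 : ℝ → ℝ, SysV δ σ tf V V1 →
    0 < V tf ∧ ∃ ε > 0, ∃ vb : ℝ, ∀ χ ∈ Icc (0:ℝ) (1 / 4), ∀ D D1 Q : ℝ → ℝ, SysD χ tf D D1 Q →
      (∀ t ∈ Icc 1 tf, |Q t - (4 * V t ^ 3 + 7 * δ * V t ^ 6)| ≤ ε) →
      SecEnd δ vb tf (V tf) (tf * V1 tf) (D tf) (tf * D1 tf)

namespace CertAux

theorem cast_mxq (a b : ℚ) : ((mxq a b : ℚ) : ℝ) = max (a : ℝ) b := by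
  unfold mxq
  by_cases h : a ≤ b
  · have h' : (a : ℝ) ≤ b := by exact_mod_cast h
    simp [h, max_eq_right h']
  · have h' : (b : ℝ) ≤ a := by exact_mod_cast (not_le.1 h).le
    simp [h, max_eq_left h']

theorem cast_mnq (a b : ℚ) : ((mnq a b : ℚ) : ℝ) = min (a : ℝ) b := by
  unfold mnq
  by_cases h : a ≤ b
  · have h' : (a : ℝ) ≤ b := by exact_mod_cast h
    simp [h, min_eq_left h']
  · have h' : (b : ℝ) ≤ a := by exact_mod_cast (not_le.1 h).le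
    simp [h, min_eq_right h']

theorem cast_abq (a b : ℚ) : ((abq a b : ℚ) : ℝ) = max (-(a : ℝ)) b := by
  unfold abq
  rw [cast_mxq]
  push_cast
  rfl

theorem abs_le_mx {l x h : ℝ} (h1 : l ≤ x) (h2 : x ≤ h) : |x| ≤ max (-l) h := by
  rw [abs_le]
  constructor
  · have := le_max_left (-l) h
    linarith
  · exact h2.trans (le_max_right _ _)

theorem abs_of_Psi' {x y z : ℝ} (hz : 0 ≤ z) (h : Psi x y z) : |x| ≤ z ∧ |y| ≤ 3 / 2 * z := by
  unfold Psi at h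
  refine ⟨abs_of_Psi hz h, ?_⟩
  apply abs_le_of_sq_le_sq _ (by positivity)
  nlinarith [sq_nonneg (x / 2 + 0), sq_nonneg (y + x / 2 - 2 * (-x / 4)), sq_nonneg (y + x),
    sq_nonneg (2 * y + 5 / 2 * x), sq_nonneg x, sq_nonneg (y + 5 / 4 * x)]

/-- product of a variable between two bounds and one between two bounds -/
theorem mul_le_mx {l x h y : ℝ} (h1 : l ≤ x) (h2 : x ≤ h) : x * y ≤ max (l * y) (h * y) := by
  rcases le_total 0 y with hy | hy
  · exact (mul_le_mul_of_nonneg_right h2 hy).trans (le_max_right _ _)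
  · exact (mul_le_mul_of_nonpos_right h1 hy).trans (le_max_left _ _)

theorem mn_le_mul {l x h y : ℝ} (h1 : l ≤ x) (h2 : x ≤ h) : min (l * y) (h * y) ≤ x * y := by
  rcases le_total 0 y with hy | hy
  · exact (min_le_left _ _).trans (mul_le_mul_of_nonneg_right h1 hy)
  · exact (min_le_right _ _).trans (mul_le_mul_of_nonpos_right h2 hy)

theorem mul_le_mx4 {a b x c d y : ℝ} (h1 : a ≤ x) (h2 : x ≤ b) (h3 : c ≤ y) (h4 : y ≤ d) :
    x * y ≤ max (max (a * c) (a * d)) (max (b * c) (b * d)) := by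
  have e1 : x * y ≤ max (a * y) (b * y) := mul_le_mx h1 h2
  have e2 : a * y ≤ max (a * c) (a * d) := by
    have := mul_le_mx (y := a) h3 h4
    simpa [mul_comm] using this
  have e3 : b * y ≤ max (b * c) (b * d) := by
    have := mul_le_mx (y := b) h3 h4
    simpa [mul_comm] using this
  exact e1.trans (max_le_max e2 e3)


/-- the final condition, real version -/
theorem x2_core {t V Y D E δ dl Ze vb vl vh yl yh Kl Kh Ll Lh nl nh μ ν K L x z : ℝ}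
    (hδ : 0 ≤ δ) (hδ1 : δ ≤ dl)
    (hV1 : vl ≤ V) (hV2 : V ≤ vh) (hY1 : yl ≤ -Y) (hY2 : -Y ≤ yh)
    (hK1 : Kl ≤ K) (hK2 : K ≤ Kh) (hL1 : Ll ≤ L) (hL2 : L ≤ Lh)
    (hν1 : nl ≤ ν) (hν2 : ν ≤ nh) (hμ : 0 < μ)
    (hx : |x| ≤ Ze) (hz : |z| ≤ 3 / 2 * Ze)
    (hD : μ * D = Y + 2 / 3 * V + ν * K + x)
    (hE : μ * E = -Y / 3 - t ^ 2 * (V ^ 4 + δ * V ^ 7) + ν * L + z)
    (c0 : 0 < vl) (c1 : vh < vb) (c2 : vb ≤ 1) (c5 : 0 < yl) (c6 : 3 * vh - 2 * yl < 0)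
    (c8 : dl ≤ 1) (c9 : t ^ 2 * (4 * vb ^ 3 + 7 * dl * vb ^ 6) ≤ 5 / 2)
    (c10 : (3 * vb ^ 4 + 6 * dl * vb ^ 7) * t ^ 2 * (4 / 3 *
        ((yh / 3 + 2 * t ^ 2 * vb ^ 4 + max (-nl) nh * max (-Ll) Lh + 3 / 2 * Ze) +
          3 / 2 * (yh + max (-nl) nh * max (-Kl) Kh + Ze))) <
      yl * (yl - vh) + t ^ 2 * vl ^ 5 -
        max (max (nl * (min (vl * Ll) (vh * Ll) + min (yl * Kl) (yh * Kl)))
              (nl * (max (vl * Lh) (vh * Lh) + max (yl * Kh) (yh * Kh))))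
            (max (nh * (min (vl * Ll) (vh * Ll) + min (yl * Kl) (yh * Kl)))
              (nh * (max (vl * Lh) (vh * Lh) + max (yl * Kh) (yh * Kh)))) -
        (3 / 2 * vh + yh) * Ze) :
    0 < V ∧ SecEnd δ vb t V Y D E := by
  have hV0 : 0 < V := lt_of_lt_of_le c0 hV1
  have hyn0 : 0 < -Y := lt_of_lt_of_le c5 hY1
  have hvb0 : 0 < vb := by linarith
  have hdl0 : 0 ≤ dl := hδ.trans hδ1
  have hZe : 0 ≤ Ze := (abs_nonneg x).trans hx
  have hVb : V ≤ vb := by linarith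
  have ht2 : 0 ≤ t ^ 2 := sq_nonneg t
  refine ⟨hV0, ?_, c2, ?_, ?_, ?_⟩
  · linarith
  · linarith
  · refine le_trans ?_ c9
    apply mul_le_mul_of_nonneg_left _ ht2
    have : 7 * δ * vb ^ 6 ≤ 7 * dl * vb ^ 6 := by
      apply mul_le_mul_of_nonneg_right _ (by positivity)
      linarith
    linarith
  · -- main inequality
    set Xl := min (vl * Ll) (vh * Ll) + min (yl * Kl) (yh * Kl) with hXl
    set Xh := max (vl * Lh) (vh * Lh) + max (yl * Kh) (yh * Kh) with hXh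
    set m := max (max (nl * Xl) (nl * Xh)) (max (nh * Xl) (nh * Xh)) with hm
    set nb := max (-nl) nh with hnb
    -- the bilinear term
    have hX1 : V * L + (-Y) * K ≤ Xh := by
      have a1 : V * L ≤ V * Lh := mul_le_mul_of_nonneg_left hL2 hV0.le
      have a2 : V * Lh ≤ max (vl * Lh) (vh * Lh) := mul_le_mx hV1 hV2
      have a3 : (-Y) * K ≤ (-Y) * Kh := mul_le_mul_of_nonneg_left hK2 hyn0.le
      have a4 : (-Y) * Kh ≤ max (yl * Kh) (yh * Kh) := mul_le_mx hY1 hY2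
      linarith
    have hX2 : Xl ≤ V * L + (-Y) * K := by
      have a1 : V * Ll ≤ V * L := mul_le_mul_of_nonneg_left hL1 hV0.le
      have a2 : min (vl * Ll) (vh * Ll) ≤ V * Ll := mn_le_mul hV1 hV2
      have a3 : (-Y) * Kl ≤ (-Y) * K := mul_le_mul_of_nonneg_left hK1 hyn0.le
      have a4 : min (yl * Kl) (yh * Kl) ≤ (-Y) * Kl := mn_le_mul hY1 hY2
      linarith
    have hX : ν * (V * L + (-Y) * K) ≤ m := mul_le_mx4 hν1 hν2 hX2 hX1
    have hνb : |ν| ≤ nb := abs_le_mx hν1 hν2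
    have hKb : |K| ≤ max (-Kl) Kh := abs_le_mx hK1 hK2
    have hLb : |L| ≤ max (-Ll) Lh := abs_le_mx hL1 hL2
    have hnb0 : 0 ≤ nb := (abs_nonneg _).trans hνb
    have hνK : |ν * K| ≤ nb * max (-Kl) Kh := by
      rw [abs_mul]
      exact mul_le_mul hνb hKb (abs_nonneg _) hnb0
    have hνL : |ν * L| ≤ nb * max (-Ll) Lh := by
      rw [abs_mul]
      exact mul_le_mul hνb hLb (abs_nonneg _) hnb0
    -- bounds of D, E
    have hμD : μ * |D| ≤ yh + nb * max (-Kl) Kh + Ze := by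
      have : μ * |D| = |Y + 2 / 3 * V + ν * K + x| := by rw [← hD, abs_mul, abs_of_pos hμ]
      rw [this]
      have b1 : |Y + 2 / 3 * V| ≤ yh := by
        rw [abs_le]
        constructor <;> linarith
      calc |Y + 2 / 3 * V + ν * K + x| ≤ |Y + 2 / 3 * V + ν * K| + |x| := abs_add_le _ _
        _ ≤ |Y + 2 / 3 * V| + |ν * K| + |x| := by
            have := abs_add_le (Y + 2 / 3 * V) (ν * K)
            linarith
        _ ≤ yh + nb * max (-Kl) Kh + Ze := by linarith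
    have hpow4 : V ^ 4 ≤ vb ^ 4 := pow_le_pow_left₀ hV0.le hVb 4
    have hpow7 : δ * V ^ 7 ≤ vb ^ 4 := by
      have h7 : V ^ 7 ≤ vb ^ 4 := by
        calc V ^ 7 ≤ vb ^ 7 := pow_le_pow_left₀ hV0.le hVb 7
          _ ≤ vb ^ 4 := pow_le_pow_of_le_one hvb0.le c2 (by norm_num)
      calc δ * V ^ 7 ≤ 1 * V ^ 7 := by
            apply mul_le_mul_of_nonneg_right _ (by positivity)
            linarith
        _ ≤ vb ^ 4 := by linarith
    have hμE : μ * |E| ≤ yh / 3 + 2 * t ^ 2 * vb ^ 4 + nb * max (-Ll) Lh + 3 / 2 * Ze := by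
      have : μ * |E| = |-Y / 3 - t ^ 2 * (V ^ 4 + δ * V ^ 7) + ν * L + z| := by
        rw [← hE, abs_mul, abs_of_pos hμ]
      rw [this]
      have b1 : |-Y / 3| ≤ yh / 3 := by
        rw [abs_le]
        constructor <;> linarith
      have b2 : |t ^ 2 * (V ^ 4 + δ * V ^ 7)| ≤ 2 * t ^ 2 * vb ^ 4 := by
        rw [abs_of_nonneg (by positivity)]
        calc t ^ 2 * (V ^ 4 + δ * V ^ 7) ≤ t ^ 2 * (vb ^ 4 + vb ^ 4) :=
              mul_le_mul_of_nonneg_left (by linarith) ht2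
          _ = 2 * t ^ 2 * vb ^ 4 := by ring
      have b3 := abs_add_le (-Y / 3 - t ^ 2 * (V ^ 4 + δ * V ^ 7) + ν * L) z
      have b4 := abs_add_le (-Y / 3 - t ^ 2 * (V ^ 4 + δ * V ^ 7)) (ν * L)
      have b5 := abs_sub (-Y / 3) (t ^ 2 * (V ^ 4 + δ * V ^ 7))
      linarith
    -- the determinant
    have hdet : yl * (yl - vh) + t ^ 2 * vl ^ 5 - m - (3 / 2 * vh + yh) * Ze ≤
        μ * (-(V * E - Y * D)) := by
      have e1 : μ * (-(V * E - Y * D)) = (-Y) * ((-Y) - V) + t ^ 2 * (V ^ 5 + δ * V ^ 8)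
          - ν * (V * L + (-Y) * K) - (V * z - Y * x) := by
        have : μ * (-(V * E - Y * D)) = -V * (μ * E) + Y * (μ * D) := by ring
        rw [this, hD, hE]
        ring
      rw [e1]
      have f1 : yl * (yl - vh) ≤ (-Y) * ((-Y) - V) := by
        have g1 : (-Y) * ((-Y) - vh) ≤ (-Y) * ((-Y) - V) :=
          mul_le_mul_of_nonneg_left (by linarith) hyn0.le
        have g2 : yl * (yl - vh) ≤ (-Y) * ((-Y) - vh) := by
          have h1 : 0 ≤ ((-Y) - yl) * ((-Y) + yl - vh) := mul_nonneg (by linarith) (by linarith)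
          have h2 : (-Y) * ((-Y) - vh) - yl * (yl - vh) = ((-Y) - yl) * ((-Y) + yl - vh) := by ring
          linarith
        linarith
      have f2 : t ^ 2 * vl ^ 5 ≤ t ^ 2 * (V ^ 5 + δ * V ^ 8) := by
        apply mul_le_mul_of_nonneg_left _ ht2
        have : vl ^ 5 ≤ V ^ 5 := pow_le_pow_left₀ c0.le hV1 5
        have : 0 ≤ δ * V ^ 8 := by positivity
        linarith
      have f3 : V * z - Y * x ≤ (3 / 2 * vh + yh) * Ze := by
        have g1 : V * z ≤ vh * (3 / 2 * Ze) := by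
          calc V * z ≤ V * |z| := mul_le_mul_of_nonneg_left (le_abs_self _) hV0.le
            _ ≤ vh * (3 / 2 * Ze) := mul_le_mul hV2 hz (abs_nonneg _) (by linarith)
        have g2 : -Y * x ≤ yh * Ze := by
          calc -Y * x ≤ -Y * |x| := mul_le_mul_of_nonneg_left (le_abs_self _) hyn0.le
            _ ≤ yh * Ze := mul_le_mul hY2 hx (abs_nonneg _) (by linarith)
        linarith
      linarith
    -- conclusion
    have hc : (3 * vb ^ 4 + 6 * δ * vb ^ 7) * t ^ 2 ≤ (3 * vb ^ 4 + 6 * dl * vb ^ 7) * t ^ 2 := by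
      apply mul_le_mul_of_nonneg_right _ ht2
      have : 6 * δ * vb ^ 7 ≤ 6 * dl * vb ^ 7 := by
        apply mul_le_mul_of_nonneg_right _ (by positivity)
        linarith
      linarith
    have hfin : μ * ((3 * vb ^ 4 + 6 * δ * vb ^ 7) * t ^ 2 * (4 / 3 * (|E| + 3 / 2 * |D|))) <
        μ * (-(V * E - Y * D)) := by
      refine lt_of_le_of_lt ?_ (lt_of_lt_of_le c10 hdet)
      have : μ * ((3 * vb ^ 4 + 6 * δ * vb ^ 7) * t ^ 2 * (4 / 3 * (|E| + 3 / 2 * |D|))) =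
        (3 * vb ^ 4 + 6 * δ * vb ^ 7) * t ^ 2 * (4 / 3 * (μ * |E| + 3 / 2 * (μ * |D|))) := by ring
      rw [this]
      apply mul_le_mul hc _ (by positivity) (by positivity)
      linarith
    exact lt_of_mul_lt_mul_left hfin hμ.le


theorem x2OK_real {t0 S sl sh sr dl Ze vb : ℚ} {s : SegC}
    (h : x2OK t0 S sl sh sr dl Ze vb s = true) {V Y D E δ μ ν K L x z : ℝ}
    (hδ : 0 ≤ δ) (hδ1 : δ ≤ dl)
    (hV1 : (s.vl : ℝ) / S ≤ V) (hV2 : V ≤ (s.vh : ℝ) / S)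
    (hY1 : (s.yl : ℝ) / S ≤ Y) (hY2 : Y ≤ (s.yh : ℝ) / S)
    (hK1 : (s.Dl : ℝ) / (S * sr) ≤ K) (hK2 : K ≤ (s.Dh : ℝ) / (S * sr))
    (hL1 : (s.El : ℝ) / (S * sr) ≤ L) (hL2 : L ≤ (s.Eh : ℝ) / (S * sr))
    (hν1 : (sl : ℝ) / 3 - (45 / 128) ^ 4 - dl * (45 / 128) ^ 7 ≤ ν)
    (hν2 : ν ≤ 15 / 256 + (sh : ℝ) / 12 - (45 / 128) ^ 4) (hμ : 0 < μ)
    (hx : |x| ≤ Ze) (hz : |z| ≤ 3 / 2 * Ze)
    (hD : μ * D = Y + 2 / 3 * V + ν * K + x)
    (hE : μ * E = -Y / 3 - (t0 : ℝ) ^ 2 * (V ^ 4 + δ * V ^ 7) + ν * L + z) :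
    0 < V ∧ SecEnd δ vb t0 V Y D E := by
  simp only [x2OK, Bool.and_eq_true, decide_eq_true_eq] at h
  obtain ⟨⟨⟨⟨⟨⟨⟨⟨⟨⟨c0, c1⟩, c2⟩, c3⟩, c4⟩, c5⟩, c6⟩, c7⟩, c8⟩, c9⟩, c10⟩ := h
  have r0 : (0 : ℝ) < (s.vl : ℝ) / S := by exact_mod_cast c0
  have r1 : (s.vh : ℝ) / S < vb := by exact_mod_cast c1
  have r2 : (vb : ℝ) ≤ 1 := by exact_mod_cast c2
  have r5 : (0 : ℝ) < -(s.yh : ℝ) / S := by exact_mod_cast c5
  have r6 : 3 * ((s.vh : ℝ) / S) - 2 * (-(s.yh : ℝ) / S) < 0 := by exact_mod_cast c6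
  have r7 : ((s.vh : ℝ) / S) ≤ 2 * (-(s.yh : ℝ) / S) := by exact_mod_cast c7
  have r8 : (dl : ℝ) ≤ 1 := by exact_mod_cast c8
  have r9 : (t0 : ℝ) ^ 2 * (4 * (vb : ℝ) ^ 3 + 7 * dl * (vb : ℝ) ^ 6) ≤ 5 / 2 := by
    have := (Rat.cast_le (K := ℝ)).2 c9
    push_cast at this
    exact this
  have r10 := (Rat.cast_lt (K := ℝ)).2 c10
  push_cast [cast_mxq, cast_mnq, cast_abq] at r10
  exact x2_core hδ hδ1 hV1 hV2 (by rw [neg_div]; linarith) (by rw [neg_div]; linarith) hK1 hK2 hL1 hL2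
    hν1 hν2 hμ hx hz hD hE r0 r1 r2 r5 r6 r8 r9 r10


theorem exists_seg (w : ℕ) {a : ℝ} (ha : a ∈ Icc (-1:ℝ) 1) :
    ∃ i < 2 ^ w, a ∈ Icc (segLo w i) (segHi w i) := by
  have hw : (0:ℝ) < 2 ^ w := by positivity
  have hw1 : 1 ≤ 2 ^ w := Nat.one_le_two_pow
  set b : ℝ := (a + 1) / 2 * 2 ^ w with hb
  have hb0 : 0 ≤ b := by
    have := ha.1
    apply mul_nonneg (by linarith) hw.le
  have hb1 : b ≤ 2 ^ w := by
    have := ha.2
    have h2 : (a + 1) / 2 * 2 ^ w ≤ 1 * 2 ^ w := mul_le_mul_of_nonneg_right (by linarith) hw.le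
    linarith
  rcases lt_or_eq_of_le hb1 with h | h
  · refine ⟨⌊b⌋₊, ?_, ?_, ?_⟩
    · rw [Nat.floor_lt hb0]
      push_cast
      exact h
    · unfold segLo
      rw [div_le_iff₀ hw]
      have := Nat.floor_le hb0
      linarith
    · unfold segHi
      rw [le_div_iff₀ hw]
      have := Nat.lt_floor_add_one b
      linarith
  · refine ⟨2 ^ w - 1, by omega, ?_, ?_⟩
    · unfold segLo
      rw [div_le_iff₀ hw, Nat.cast_sub hw1]
      push_cast
      linarith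
    · unfold segHi
      rw [le_div_iff₀ hw, Nat.cast_sub hw1]
      push_cast
      linarith

theorem x2all_get {q S sc sr dl Ze : ℚ} {w : ℕ} : ∀ (sg : List SegC) (k : ℕ),
    x2all q S sc sr dl Ze w sg k = true → ∀ (i : ℕ) (hi : i < sg.length),
      x2OK q S ((sc + sr * ((2 * ((k + i : ℕ) : ℚ) - 2 ^ w) / 2 ^ w)) / S)
        ((sc + sr * ((2 * ((k + i : ℕ) : ℚ) + 2 - 2 ^ w) / 2 ^ w)) / S)
        (sr / S) dl Ze (sg[i].vh / S + 1 / 2 ^ 20) sg[i] = true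
  | [], _, _, i, hi => by simp at hi
  | c :: sg, k, h, i, hi => by
    simp only [x2all, Bool.and_eq_true] at h
    rcases i with _ | i
    · simpa using h.1
    · have := x2all_get sg (k + 1) h.2 i (by simpa using hi)
      have e : k + (i + 1) = k + 1 + i := by ring
      rw [e]
      simpa using this

/-- a (trivial) solution when the time interval is at most a point -/
theorem sysV_point {σ tf : ℝ} (hσ : 0 ≤ σ) (htf : tf ≤ 1) :
    ∃ V V1 : ℝ → ℝ, SysV 0 σ tf V V1 := by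
  refine ⟨fun t => 45 / 128 - σ * (t - 1),
    fun t => -σ + (2 * σ - (45 / 128) ^ 4) * (t - 1), ?_, ?_, ?_, ?_, ?_, ?_⟩
  · norm_num
  · norm_num
  · intro t ht
    have e : t = 1 := le_antisymm (ht.2.trans htf) ht.1
    subst e
    have h1 : HasDerivAt (fun t : ℝ => 45 / 128 - σ * (t - 1)) (0 - σ * 1) 1 :=
      (hasDerivAt_const (1:ℝ) (45 / 128 : ℝ)).sub (((hasDerivAt_id' (1:ℝ)).sub_const 1).const_mul σ)
    refine h1.congr_deriv ?_
    ring
  · intro t ht _ _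
    have e : t = 1 := le_antisymm (ht.2.trans htf) ht.1
    subst e
    have h1 : HasDerivAt (fun t : ℝ => -σ + (2 * σ - (45 / 128) ^ 4) * (t - 1))
        ((2 * σ - (45 / 128) ^ 4) * 1) 1 :=
      (((hasDerivAt_id' (1:ℝ)).sub_const 1).const_mul (2 * σ - (45 / 128) ^ 4)).const_add (-σ)
    refine h1.congr_deriv ?_
    ring
  · intro t ht
    have h1 : HasDerivAt (fun t : ℝ => -σ + (2 * σ - (45 / 128) ^ 4) * (t - 1))
        ((2 * σ - (45 / 128) ^ 4) * 1) t :=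
      (((hasDerivAt_id' t).sub_const 1).const_mul (2 * σ - (45 / 128) ^ 4)).const_add (-σ)
    exact ⟨_, h1⟩
  · intro t ht
    have e : t = 1 := le_antisymm (ht.2.trans htf) ht.1
    subst e
    simpa using hσ

end CertAux

open CertAux

/- Sketch. `σ = (sc + sr a)/S`, `a ∈ [-1,1]` lies in some segment `i`. `chain2_sound` at the end of the last
cell: `|V - p| ≤ z0`, `|Y - t p1| ≤ 3/2 z0`, and `|e| ≤ Ze`, `|t e'| ≤ 3/2 Ze` for
`e = μ D - (Y + 2/3 V) - κ pCa`, `Ze = o1/(S λ)` (`Psi` gives `|x| ≤ z`, `|y| ≤ 3/2 z`);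
`segs_facts` with `o1 = 0` bounds `pC, t pC1, pCa, t pCa1` (`pCa_spec`, `pCa1_spec`); so with
`yn = -Y > 0`, `K = pCa/σ_r`, `L = t pCa1/σ_r`, `κ pCa = ν K`:
`-μ (V E - Y D) = Y^2 + V Y + t^2 (V^5 + δ V^8) - ν (V L - Y K) - (V t e' - Y e)` and
`Y^2 + V Y = yn (yn - V) ≥ yl (yl - vh)`; `μ |D| ≤ Db`, `μ |E| ≤ Eb` as in `x2OK`
(`t y' = -Y/3 - t^2 (V^4 + δ V^7)`). Divide by `μ > 0`. `nuOK` gives `λ |κ| ≤ 1`. -/
theorem sec_cert {P : Par} {Q2 : Par2} {C : CellD} {l : List CellD} {sc sr w : ℕ}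
    {sg : List SegC} {q : ℚ} (hdx : 1 ≤ P.dx)
    (h0 : init2OK P sc sr C = true) (h1 : cell2OK P Q2 C = true) (h2 : chain2OK P Q2 l C = true)
    (h3 : segsOK P (l.getLastD C) 0 w sg = true) (hq : (q : ℝ) = (l.getLastD C).a1)
    (h4 : x2all q (2 ^ P.s) sc sr ((Q2.dn : ℚ) / Q2.dd)
      (((l.getLastD C).o1 : ℚ) * Q2.ld / (Q2.ln * 2 ^ P.s)) w sg 0 = true)
    (h5 : nuOK (2 ^ P.s) sc sr ((Q2.dn : ℚ) / Q2.dd) ((Q2.ln : ℚ) / Q2.ld) = true) :
    1 < (l.getLastD C).a1 ∧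
    SecCert ((Q2.dn : ℝ) / Q2.dd) (((sc : ℝ) - sr) / 2 ^ P.s) (((sc : ℝ) + sr) / 2 ^ P.s)
      (l.getLastD C).a1 := by
  simp only [nuOK, Bool.and_eq_true, decide_eq_true_eq] at h5
  obtain ⟨⟨⟨⟨n0, n1⟩, n2⟩, n3⟩, n4⟩ := h5
  have hS : (0:ℝ) < 2 ^ P.s := by positivity
  have hsr : (0:ℝ) < sr := by exact_mod_cast n3
  have hsl : 0 ≤ ((sc:ℝ) - sr) / 2 ^ P.s := by
    have := (Rat.cast_le (K := ℝ)).2 n0
    push_cast at this
    exact this
  have hsh : ((sc:ℝ) + sr) / 2 ^ P.s < 15 / 64 := by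
    have := (Rat.cast_lt (K := ℝ)).2 n1
    push_cast at this
    exact this
  have hlam : 0 < Q2.lam := by
    have := (Rat.cast_lt (K := ℝ)).2 n2
    push_cast at this
    exact this
  have hnu : Q2.lam * max (-(((sc:ℝ) - sr) / 2 ^ P.s / 3 - (45 / 128) ^ 4 -
      (Q2.dn : ℝ) / Q2.dd * (45 / 128) ^ 7)) (15 / 256 + ((sc:ℝ) + sr) / 2 ^ P.s / 12 -
      (45 / 128) ^ 4) ≤ sr / 2 ^ P.s := by
    have := (Rat.cast_le (K := ℝ)).2 n4
    push_cast [cast_abq] at this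
    exact this
  have hdl : (0:ℝ) ≤ (Q2.dn : ℝ) / Q2.dd := by positivity
  constructor
  · by_contra hcon
    push Not at hcon
    have hσ0 : (0:ℝ) ≤ ((sc : ℝ) + sr * 0) / 2 ^ P.s := by positivity
    obtain ⟨V, V1, hsys⟩ := sysV_point hσ0 hcon
    have := (chain2_sound h0 h1 h2 (a := 0) (by norm_num) le_rfl hdl rfl hsys).1
    linarith
  · intro σ hσ δ hδ V V1 hsys
    -- parameter
    obtain ⟨a, ha⟩ : ∃ a : ℝ, a = (σ * 2 ^ P.s - sc) / sr := ⟨_, rfl⟩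
    have hσa : σ = ((sc : ℝ) + sr * a) / 2 ^ P.s := by
      rw [ha]; field_simp; ring
    have haI : a ∈ Icc (-1:ℝ) 1 := by
      have e1 := (div_le_iff₀ hS).1 hσ.1
      have e2 := (le_div_iff₀ hS).1 hσ.2
      rw [ha]
      constructor
      · rw [le_div_iff₀ hsr]; linarith
      · rw [div_le_iff₀ hsr]; linarith
    obtain ⟨hlen, hseg⟩ := segs_facts hdx h3
    obtain ⟨i, hi, hai⟩ := exists_seg w haI
    have hi' : i < sg.length := by rw [hlen]; exact hi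
    obtain ⟨b1, _, b3⟩ := hseg i hi'
    obtain ⟨p1, p2, p3, p4⟩ := b1 a hai
    obtain ⟨p5, p6, p7, p8⟩ := b3 a hai _ _ (pCa_spec P _ a _) (pCa1_spec P _ a _)
    have hx2 := x2all_get sg 0 h4 i hi'
    rw [Nat.zero_add] at hx2
    obtain ⟨g1, g2, ε, hε, g3⟩ := chain2_sound h0 h1 h2 haI hδ.1 hδ.2 hσa hsys
    set Lc := l.getLastD C with hLc
    set tf := Lc.a1 with htf
    -- V and Y
    obtain ⟨v1, v2⟩ := abs_of_Psi' (by positivity) g2
    have hVl : ((sg[i].vl : ℝ)) / 2 ^ P.s ≤ V tf := by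
      have := (abs_le.1 v1).1
      rw [add_div] at p1
      linarith
    have hVh : V tf ≤ ((sg[i].vh : ℝ)) / 2 ^ P.s := by
      have := (abs_le.1 v1).2
      rw [sub_div] at p2
      linarith
    have hYl : ((sg[i].yl : ℝ)) / 2 ^ P.s ≤ tf * V1 tf := by
      have := (abs_le.1 v2).1
      rw [add_div, mul_div_assoc] at p3
      linarith
    have hYh : tf * V1 tf ≤ ((sg[i].yh : ℝ)) / 2 ^ P.s := by
      have := (abs_le.1 v2).2
      rw [sub_div, mul_div_assoc] at p4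
      linarith
    have hσlo : ((sc:ℝ) + sr * segLo w i) / 2 ^ P.s ≤ σ := by
      rw [hσa]
      apply div_le_div_of_nonneg_right _ hS.le
      have := mul_le_mul_of_nonneg_left hai.1 hsr.le
      linarith
    have hσhi : σ ≤ ((sc:ℝ) + sr * segHi w i) / 2 ^ P.s := by
      rw [hσa]
      apply div_le_div_of_nonneg_right _ hS.le
      have := mul_le_mul_of_nonneg_left hai.2 hsr.le
      linarith
    have hμ : 0 < 15 / 64 - σ := by linarith [hσ.2]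
    have hsrS : (0:ℝ) < sr / 2 ^ P.s := by positivity
    have key : ∀ χ ∈ Icc (0:ℝ) (1 / 4), ∀ D D1 Q : ℝ → ℝ, SysD χ tf D D1 Q →
        (∀ t ∈ Icc 1 tf, |Q t - (4 * V t ^ 3 + 7 * δ * V t ^ 6)| ≤ ε) →
        0 < V tf ∧ SecEnd δ ((sg[i].vh : ℝ) / 2 ^ P.s + 1 / 2 ^ 20) tf (V tf) (tf * V1 tf) (D tf)
          (tf * D1 tf) := by
      intro χ hχ D D1 Q hD hQ
      obtain ⟨ν, hν⟩ : ∃ ν : ℝ, ν = χ * (15 / 64 - σ) + σ / 3 - (45 / 128) ^ 4 -
        δ * (45 / 128) ^ 7 := ⟨_, rfl⟩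
      obtain ⟨κ, hκ⟩ : ∃ κ : ℝ, κ = ν / (sr / 2 ^ P.s) := ⟨_, rfl⟩
      have hκν : κ * (sr / 2 ^ P.s) = ν := by rw [hκ]; field_simp
      have hδ7 : δ * (45 / 128 : ℝ) ^ 7 ≤ (Q2.dn : ℝ) / Q2.dd * (45 / 128) ^ 7 :=
        mul_le_mul_of_nonneg_right hδ.2 (by positivity)
      have hδ7' : 0 ≤ δ * (45 / 128 : ℝ) ^ 7 := mul_nonneg hδ.1 (by positivity)
      have hχμ0 : 0 ≤ χ * (15 / 64 - σ) := mul_nonneg hχ.1 hμ.le
      have hχμ1 : χ * (15 / 64 - σ) ≤ 1 / 4 * (15 / 64 - σ) :=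
        mul_le_mul_of_nonneg_right hχ.2 hμ.le
      have hν1 : σ / 3 - (45 / 128) ^ 4 - (Q2.dn : ℝ) / Q2.dd * (45 / 128) ^ 7 ≤ ν := by
        rw [hν]; linarith
      have hν2 : ν ≤ 15 / 256 + σ / 12 - (45 / 128) ^ 4 := by
        rw [hν]; linarith
      have hlκ : Q2.lam * |κ| ≤ 1 := by
        have e1 : |ν| ≤ max (-(((sc:ℝ) - sr) / 2 ^ P.s / 3 - (45 / 128) ^ 4 -
            (Q2.dn : ℝ) / Q2.dd * (45 / 128) ^ 7)) (15 / 256 + ((sc:ℝ) + sr) / 2 ^ P.s / 12 -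
            (45 / 128) ^ 4) := abs_le_mx (by linarith [hσ.1]) (by linarith [hσ.2])
        have e2 : Q2.lam * |ν| ≤ sr / 2 ^ P.s := (mul_le_mul_of_nonneg_left e1 hlam.le).trans hnu
        rw [hκ, abs_div, abs_of_pos hsrS, ← mul_div_assoc]
        exact (div_le_one hsrS).2 e2
      have gE := g3 χ (15 / 64 - σ) κ D D1 Q hD hlam hlκ rfl (by rw [hκν, hν]) hQ
      obtain ⟨u1, u2⟩ := abs_of_Psi' (by positivity) gE
      -- the error terms
      obtain ⟨x, hx⟩ : ∃ x : ℝ, x = (15 / 64 - σ) * D tf - (tf * V1 tf + 2 / 3 * V tf) -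
        κ * pCa P Lc a tf := ⟨_, rfl⟩
      obtain ⟨z, hz⟩ : ∃ z : ℝ, z = tf * ((15 / 64 - σ) * D1 tf + 1 / 3 * V1 tf +
        tf * (V tf ^ 4 + δ * V tf ^ 7) - κ * pCa1 P Lc a tf) := ⟨_, rfl⟩
      have hZe : (((Lc.o1 : ℚ) * Q2.ld / (Q2.ln * 2 ^ P.s) : ℚ) : ℝ) =
          (Lc.o1 : ℝ) / 2 ^ P.s / Q2.lam := by
        unfold Par2.lam at hlam ⊢
        have hln : (Q2.ln : ℝ) ≠ 0 := by
          intro h; rw [h, zero_div] at hlam; exact lt_irrefl _ hlam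
        have hld : (Q2.ld : ℝ) ≠ 0 := by
          intro h; rw [h, div_zero] at hlam; exact lt_irrefl _ hlam
        push_cast
        field_simp
      have hxe : |x| ≤ (((Lc.o1 : ℚ) * Q2.ld / (Q2.ln * 2 ^ P.s) : ℚ) : ℝ) := by
        rw [hZe, le_div_iff₀ hlam]
        have : |Q2.lam * x| ≤ (Lc.o1 : ℝ) / 2 ^ P.s := by rw [hx]; exact u1
        rw [abs_mul, abs_of_pos hlam] at this
        linarith
      have hze : |z| ≤ 3 / 2 * (((Lc.o1 : ℚ) * Q2.ld / (Q2.ln * 2 ^ P.s) : ℚ) : ℝ) := by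
        have e1 : |Q2.lam * z| ≤ 3 / 2 * ((Lc.o1 : ℝ) / 2 ^ P.s) := by
          have e2 : Q2.lam * z = tf * (Q2.lam * ((15 / 64 - σ) * D1 tf + 1 / 3 * V1 tf +
            tf * (V tf ^ 4 + δ * V tf ^ 7) - κ * pCa1 P Lc a tf)) := by rw [hz]; ring
          rw [e2]; exact u2
        rw [abs_mul, abs_of_pos hlam] at e1
        rw [hZe, ← mul_div_assoc, le_div_iff₀ hlam]
        linarith
      have hmain := x2OK_real hx2 (V := V tf) (Y := tf * V1 tf) (D := D tf) (E := tf * D1 tf) (δ := δ)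
        (μ := 15 / 64 - σ) (ν := ν) (K := pCa P Lc a tf / (sr / 2 ^ P.s))
        (L := tf * pCa1 P Lc a tf / (sr / 2 ^ P.s)) (x := x) (z := z) hδ.1 (by push_cast; exact hδ.2)
        (by push_cast; exact hVl) (by push_cast; exact hVh) (by push_cast; exact hYl)
        (by push_cast; exact hYh) ?_ ?_ ?_ ?_ ?_ ?_ hμ hxe hze ?_ ?_
      · rw [hq] at hmain
        push_cast at hmain
        exact hmain
      · push_cast
        rw [← div_div]
        apply div_le_div_of_nonneg_right _ hsrS.le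
        simpa using p5
      · push_cast
        rw [← div_div]
        apply div_le_div_of_nonneg_right _ hsrS.le
        simpa using p6
      · push_cast
        rw [← div_div]
        apply div_le_div_of_nonneg_right _ hsrS.le
        simpa using p7
      · push_cast
        rw [← div_div]
        apply div_le_div_of_nonneg_right _ hsrS.le
        simpa using p8
      · refine le_trans ?_ hν1
        unfold segLo at hσlo
        push_cast
        linarith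
      · refine hν2.trans ?_
        unfold segHi at hσhi
        push_cast
        linarith
      · rw [hx]
        have : ν * (pCa P Lc a tf / (sr / 2 ^ P.s)) = κ * pCa P Lc a tf := by
          rw [← hκν]; field_simp
        rw [this]; ring
      · rw [hz, hq]
        have : ν * (tf * pCa1 P Lc a tf / (sr / 2 ^ P.s)) = κ * (tf * pCa1 P Lc a tf) := by
          rw [← hκν]; field_simp
        rw [this]; ring
    refine ⟨?_, ε, hε, (sg[i].vh : ℝ) / 2 ^ P.s + 1 / 2 ^ 20, fun χ hχ D D1 Q hD hQ =>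
      (key χ hχ D D1 Q hD hQ).2⟩
    · simp only [x2OK, Bool.and_eq_true, decide_eq_true_eq] at hx2
      have c0 := hx2.1.1.1.1.1.1.1.1.1.1
      have r0 := (Rat.cast_lt (K := ℝ)).2 c0
      push_cast at r0
      exact lt_of_lt_of_le r0 hVl

end Pool.Agent.H228
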