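import Mathlib
import Pool.Agent.H228.Defs

/-! TASK C1 (fast decay lemma). -/

set_option autoImplicit false

namespace Pool.Agent.H228

open Set

namespace C1

theorem cl_ge (v : ℝ) : -1 / 2 ≤ cl v := le_max_left _ _

theorem F_nonneg (v : ℝ) : 0 ≤ F v := by
  unfold F f
  have h := cl_ge v
  have h3 : 0 ≤ 1 + (cl v) ^ 3 := by nlinarith [sq_nonneg (cl v - 1 / 4)]
  have : cl v ^ 4 + cl v ^ 7 = (cl v) ^ 4 * (1 + (cl v) ^ 3) := by ring
  rw [this]; positivity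

theorem cl_pos {v : ℝ} (h : 0 < v) : 0 < cl v := by
  unfold cl
  exact lt_max_of_lt_right (lt_min h (by norm_num))

theorem F_pos {v : ℝ} (h : 0 < v) : 0 < F v := by
  unfold F f
  have := cl_pos h
  positivity

theorem F_eq {v : ℝ} (h0 : 0 ≤ v) (h3 : v ≤ 3) : F v = v ^ 4 + v ^ 7 := by
  unfold F f cl
  rw [min_eq_left h3, max_eq_right (by linarith)]

theorem pow_sub_le {x y : ℝ} (hx : 0 ≤ x) (hxy : x ≤ y) (n : ℕ) :
    y ^ (n + 1) - x ^ (n + 1) ≤ (n + 1) * y ^ n * (y - x) := by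
  induction n with
  | zero => simp
  | succ n ih =>
    have hy : 0 ≤ y := hx.trans hxy
    have h1 : x ^ (n + 1) ≤ y ^ (n + 1) := pow_le_pow_left₀ hx hxy _
    have h2 : y ^ (n + 1 + 1) - x ^ (n + 1 + 1)
        = y * (y ^ (n + 1) - x ^ (n + 1)) + x ^ (n + 1) * (y - x) := by ring
    have h3 : y * (y ^ (n + 1) - x ^ (n + 1)) ≤ y * ((n + 1) * y ^ n * (y - x)) :=
      mul_le_mul_of_nonneg_left ih hy
    have h4 : x ^ (n + 1) * (y - x) ≤ y ^ (n + 1) * (y - x) :=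
      mul_le_mul_of_nonneg_right h1 (by linarith)
    rw [h2]
    push_cast
    have h5 : y * ((n + 1) * y ^ n * (y - x)) + y ^ (n + 1) * (y - x)
        = ((n : ℝ) + 1 + 1) * y ^ (n + 1) * (y - x) := by ring
    linarith

theorem F_diff {x y : ℝ} (hx : 0 ≤ x) (hxy : x ≤ y) (hy : y ≤ 3) :
    0 ≤ F y - F x ∧ F y - F x ≤ (4 * y ^ 3 + 7 * y ^ 6) * (y - x) := by
  rw [F_eq hx (hxy.trans hy), F_eq (hx.trans hxy) hy]
  have h1 := pow_sub_le hx hxy 3
  have h2 := pow_sub_le hx hxy 6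
  have h3 : x ^ 4 ≤ y ^ 4 := pow_le_pow_left₀ hx hxy _
  have h4 : x ^ 7 ≤ y ^ 7 := pow_le_pow_left₀ hx hxy _
  norm_num at h1 h2
  constructor
  · linarith
  · nlinarith

/-- first time at which a continuous function is nonpositive -/
theorem first_nonpos {g : ℝ → ℝ} {p q : ℝ} (hg : ContinuousOn g (Icc p q))
    (h : ∃ t ∈ Icc p q, g t ≤ 0) :
    ∃ τ ∈ Icc p q, g τ ≤ 0 ∧ ∀ s ∈ Ico p τ, 0 < g s := by
  let S : Set ℝ := {t | t ∈ Icc p q ∧ g t ≤ 0}
  have hS : IsClosed S := by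
    exact hg.preimage_isClosed_of_isClosed isClosed_Icc (isClosed_Iic (a := (0:ℝ)))
  have hne : S.Nonempty := by
    obtain ⟨t, ht, h0⟩ := h
    exact ⟨t, ht, h0⟩
  have hbdd : BddBelow S := ⟨p, fun t ht => ht.1.1⟩
  have hmem := hS.csInf_mem hne hbdd
  refine ⟨sInf S, hmem.1, hmem.2, ?_⟩
  intro s hs
  by_contra hcon
  push Not at hcon
  have : s ∈ S := ⟨⟨hs.1, hs.2.le.trans hmem.1.2⟩, hcon⟩
  exact absurd (csInf_le hbdd this) (not_le.mpr hs.2)

theorem mono_of_deriv {g g' : ℝ → ℝ} {p q : ℝ} (hg : ∀ s ∈ Icc p q, HasDerivAt g (g' s) s)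
    (h : ∀ s ∈ Ioo p q, 0 ≤ g' s) {x y : ℝ} (hx : x ∈ Icc p q) (hy : y ∈ Icc p q) (hxy : x ≤ y) :
    g x ≤ g y := by
  have := monotoneOn_of_deriv_nonneg (convex_Icc p q)
    (fun s hs => (hg s hs).continuousAt.continuousWithinAt)
    (fun s hs => ((hg s (interior_subset hs)).differentiableAt).differentiableWithinAt)
    (fun s hs => by
      rw [(hg s (interior_subset hs)).deriv]
      rw [interior_Icc] at hs
      exact h s hs)
  exact this hx hy hxy

theorem anti_of_deriv {g g' : ℝ → ℝ} {p q : ℝ} (hg : ∀ s ∈ Icc p q, HasDerivAt g (g' s) s)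
    (h : ∀ s ∈ Ioo p q, g' s ≤ 0) {x y : ℝ} (hx : x ∈ Icc p q) (hy : y ∈ Icc p q) (hxy : x ≤ y) :
    g y ≤ g x := by
  have := antitoneOn_of_deriv_nonpos (convex_Icc p q)
    (fun s hs => (hg s hs).continuousAt.continuousWithinAt)
    (fun s hs => ((hg s (interior_subset hs)).differentiableAt).differentiableWithinAt)
    (fun s hs => by
      rw [(hg s (interior_subset hs)).deriv]
      rw [interior_Icc] at hs
      exact h s hs)
  exact this hx hy hxy

/-- `W = t u` -/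
def W (u : ℝ → ℝ) (t : ℝ) : ℝ := t * u t

/-- `W' = u + t u'` -/
def V (u u1 : ℝ → ℝ) (t : ℝ) : ℝ := u t + t * u1 t

section basic
variable {α : ℝ} {u u1 : ℝ → ℝ} (hu : IsSol α u u1)
include hu

theorem W_deriv (t : ℝ) : HasDerivAt (W u) (V u u1 t) t := by
  have := (hasDerivAt_id t).mul (hu.h0 t)
  refine this.congr_deriv ?_
  show _ = u t + t * u1 t
  simp

theorem V_deriv {t : ℝ} (ht : t ≠ 0) : HasDerivAt (V u u1) (-(t * F (u t))) t := by
  have := (hu.h0 t).add ((hasDerivAt_id t).mul (hu.h1 t ht))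
  refine this.congr_deriv ?_
  simp only [id]
  field_simp
  ring

theorem u_anti (hneg : ∀ t, 0 < t → u1 t < 0) {s t : ℝ} (hs : 0 ≤ s) (hst : s ≤ t) :
    u t ≤ u s := by
  have : AntitoneOn u (Ici 0) := by
    apply antitoneOn_of_deriv_nonpos (convex_Ici 0)
    · exact fun s _ => (hu.h0 s).continuousAt.continuousWithinAt
    · exact fun s _ => (hu.h0 s).differentiableAt.differentiableWithinAt
    · intro s hs
      rw [interior_Ici] at hs
      rw [(hu.h0 s).deriv]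
      exact (hneg s hs).le
  exact this hs (hs.trans hst) hst

theorem u_le (hneg : ∀ t, 0 < t → u1 t < 0) {t : ℝ} (ht : 0 ≤ t) : u t ≤ α := by
  have := u_anti hu hneg le_rfl ht
  rwa [hu.z0] at this

theorem V_anti {s t : ℝ} (hs : 0 < s) (hst : s ≤ t) : V u u1 t ≤ V u u1 s := by
  refine anti_of_deriv (g := V u u1) (g' := fun r => -(r * F (u r))) (p := s) (q := t) ?_ ?_
    ⟨le_rfl, hst⟩ ⟨hst, le_rfl⟩ hst
  · intro r hr
    exact V_deriv hu (by linarith [hr.1] : (0:ℝ) < r).ne'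
  · intro r hr
    have := F_nonneg (u r)
    have : 0 ≤ r * F (u r) := mul_nonneg (by linarith [hr.1]) this
    linarith

end basic


/-- bound of the source under the cap -/
theorem src_le {u : ℝ → ℝ} {t0 B s : ℝ} (ht0 : 0 < t0) (hBt : B / t0 ≤ 3) (hs : t0 ≤ s) (hpos : 0 ≤ u s)
    (hW : W u s ≤ B) : s * F (u s) ≤ B ^ 4 / s ^ 3 + B ^ 7 / s ^ 6 := by
  have hs0 : 0 < s := by linarith
  have hB : 0 ≤ B := le_trans (mul_nonneg hs0.le hpos) hW
  have h1 : u s ≤ B / s := by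
    rw [le_div_iff₀ hs0]; unfold W at hW; linarith
  have h2 : B / s ≤ B / t0 := div_le_div_of_nonneg_left hB ht0 hs
  rw [F_eq hpos (by linarith)]
  have h3 : u s ^ 4 ≤ (B / s) ^ 4 := pow_le_pow_left₀ hpos h1 _
  have h4 : u s ^ 7 ≤ (B / s) ^ 7 := pow_le_pow_left₀ hpos h1 _
  have h5 : s * (u s ^ 4 + u s ^ 7) ≤ s * ((B / s) ^ 4 + (B / s) ^ 7) :=
    mul_le_mul_of_nonneg_left (by linarith) hs0.le
  refine h5.trans (le_of_eq ?_)
  field_simp

theorem inv_pow_deriv (c : ℝ) (n : ℕ) {s : ℝ} (hs : s ≠ 0) :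
    HasDerivAt (fun s : ℝ => c / s ^ (n + 1)) (-((n + 1) * c / s ^ (n + 2))) s := by
  have h1 : HasDerivAt (fun s : ℝ => s ^ (n + 1)) (((n + 1 : ℕ) : ℝ) * s ^ n) s := by
    simpa using hasDerivAt_pow (n + 1) s
  have h2 := (hasDerivAt_const s c).div h1 (pow_ne_zero _ hs)
  refine h2.congr_deriv ?_
  field_simp
  push_cast
  ring

section growth
variable {α : ℝ} {u u1 : ℝ → ℝ} (hu : IsSol α u u1)
include hu

/-- under the cap the slope of `W` is controlled -/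
theorem V_lower {t0 B t : ℝ} (ht0 : 0 < t0) (hBt : B / t0 ≤ 3)
    (hpos : ∀ s ∈ Icc t0 t, 0 ≤ u s) (hW : ∀ s ∈ Icc t0 t, W u s ≤ B) {x y : ℝ}
    (hx : x ∈ Icc t0 t) (hy : y ∈ Icc t0 t) (hxy : x ≤ y) :
    V u u1 x - (B ^ 4 / 2) / x ^ 2 - (B ^ 7 / 5) / x ^ 5
      ≤ V u u1 y - (B ^ 4 / 2) / y ^ 2 - (B ^ 7 / 5) / y ^ 5 := by
  refine mono_of_deriv (g := fun s => V u u1 s - (B ^ 4 / 2) / s ^ 2 - (B ^ 7 / 5) / s ^ 5)
    (g' := fun s => -(s * F (u s)) - (-((1 + 1) * (B ^ 4 / 2) / s ^ 3))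
      - (-((4 + 1) * (B ^ 7 / 5) / s ^ 6))) (p := t0) (q := t) ?_ ?_ hx hy hxy
  · intro s hs
    have hs0 : s ≠ 0 := by linarith [hs.1] |> fun h : 0 < s => h.ne'
    have h1 := inv_pow_deriv (B ^ 4 / 2) 1 hs0
    have h2 := inv_pow_deriv (B ^ 7 / 5) 4 hs0
    norm_num at h1 h2
    have := ((V_deriv hu hs0).sub h1).sub h2
    refine this.congr_deriv ?_
    norm_num
  · intro s hs'
    have hs := Ioo_subset_Icc_self hs'
    have h := src_le ht0 hBt hs.1 (hpos s hs) (hW s hs)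
    have e1 : (1 + 1) * (B ^ 4 / 2) / s ^ 3 = B ^ 4 / s ^ 3 := by ring
    have e2 : (4 + 1) * (B ^ 7 / 5) / s ^ 6 = B ^ 7 / s ^ 6 := by ring
    simp only [e1, e2]
    linarith

/-- if the slope has become nonpositive then `W` is bounded by `Bm + ...` -/
theorem W_upper {t0 B t : ℝ} (ht0 : 0 < t0) (hBt : B / t0 ≤ 3) (hB0 : 0 < B) (htt : t0 ≤ t)
    (hpos : ∀ s ∈ Icc t0 t, 0 ≤ u s) (hW : ∀ s ∈ Icc t0 t, W u s ≤ B) (hV : V u u1 t ≤ 0)
    {y : ℝ} (hy : y ∈ Icc t0 t) :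
    W u y ≤ W u t0 + (B ^ 4 / (2 * t0) + B ^ 7 / (20 * t0 ^ 4)) := by
  have key : W u y + (B ^ 4 / 2) / y ^ 1 + (B ^ 7 / 20) / y ^ 4
      ≤ W u t0 + (B ^ 4 / 2) / t0 ^ 1 + (B ^ 7 / 20) / t0 ^ 4 := by
    refine anti_of_deriv (g := fun s => W u s + (B ^ 4 / 2) / s ^ 1 + (B ^ 7 / 20) / s ^ 4)
      (g' := fun s => V u u1 s + (-((0 + 1) * (B ^ 4 / 2) / s ^ 2))
        + (-((3 + 1) * (B ^ 7 / 20) / s ^ 5))) (p := t0) (q := t) ?_ ?_ ⟨le_rfl, htt⟩ hy hy.1
    · intro s hs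
      have hs0 : s ≠ 0 := by linarith [hs.1] |> fun h : 0 < s => h.ne'
      have h1 := inv_pow_deriv (B ^ 4 / 2) 0 hs0
      have h2 := inv_pow_deriv (B ^ 7 / 20) 3 hs0
      norm_num at h1 h2
      have := ((W_deriv hu s).add h1).add h2
      norm_num
      exact this
    · intro s hs'
      have hs := Ioo_subset_Icc_self hs'
      have hs0 : 0 < s := by linarith [hs.1]
      have ht1 : 0 < t := by linarith
      have h := V_lower hu ht0 hBt hpos hW hs ⟨htt, le_rfl⟩ hs.2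
      have p1 : 0 ≤ (B ^ 4 / 2) / t ^ 2 := by positivity
      have p2 : 0 ≤ (B ^ 7 / 5) / t ^ 5 := by positivity
      have e1 : (0 + 1) * (B ^ 4 / 2) / s ^ 2 = (B ^ 4 / 2) / s ^ 2 := by ring
      have e2 : (3 + 1) * (B ^ 7 / 20) / s ^ 5 = (B ^ 7 / 5) / s ^ 5 := by ring
      simp only [e1, e2]
      linarith
  have hy0 : 0 < y := by linarith [hy.1]
  have p1 : 0 ≤ (B ^ 4 / 2) / y ^ 1 := by positivity
  have p2 : 0 ≤ (B ^ 7 / 20) / y ^ 4 := by positivity
  have e1 : (B ^ 4 / 2) / t0 ^ 1 = B ^ 4 / (2 * t0) := by field_simp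
  have e2 : (B ^ 7 / 20) / t0 ^ 4 = B ^ 7 / (20 * t0 ^ 4) := by field_simp
  rw [e1, e2] at key
  linarith

/-- `W` increases while `V > 0`. -/
theorem W_mono_of_V {t0 t : ℝ} (hV : ∀ s ∈ Ioo t0 t, 0 ≤ V u u1 s) {x y : ℝ}
    (hx : x ∈ Icc t0 t) (hy : y ∈ Icc t0 t) (hxy : x ≤ y) : W u x ≤ W u y :=
  mono_of_deriv (g := W u) (g' := V u u1) (p := t0) (q := t) (fun s _ => W_deriv hu s) hV hx hy hxy

theorem V_cont {t0 t : ℝ} (ht0 : 0 < t0) : ContinuousOn (V u u1) (Icc t0 t) := by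
  intro s hs
  have hs0 : s ≠ 0 := by linarith [hs.1] |> fun h : 0 < s => h.ne'
  exact (V_deriv hu hs0).continuousAt.continuousWithinAt

theorem W_cont : Continuous (W u) := by
  have : Continuous u := continuous_iff_continuousAt.mpr fun s => (hu.h0 s).continuousAt
  exact continuous_id.mul this

end growth

/-- PAIR LEMMA -/
theorem pair {α β : ℝ} {ua ua1 ub ub1 : ℝ → ℝ} (hua : IsSol α ua ua1) (hub : IsSol β ub ub1)
    {t0 t1 B : ℝ} (ht0 : 0 < t0) (hBt : B / t0 ≤ 3) (hB0 : 0 < B)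
    (ha : ∀ s ∈ Icc t0 t1, 0 ≤ ua s) (hb : ∀ s ∈ Icc t0 t1, 0 ≤ ub s)
    (hWb : ∀ s ∈ Icc t0 t1, W ub s ≤ B)
    (hD : 0 < ub t0 - ua t0) (hD1 : 0 < V ub ub1 t0 - V ua ua1 t0)
    (hp : (4 * B ^ 3 + 7 * B ^ 6 / t0 ^ 3) / (2 * t0) *
      ((ub t0 - ua t0) + (V ub ub1 t0 - V ua ua1 t0)) < V ub ub1 t0 - V ua ua1 t0) :
    ∀ s ∈ Icc t0 t1, 0 < V ub ub1 s - V ua ua1 s ∧ W ua s < W ub s := by
  have hcont : ContinuousOn (fun s => V ub ub1 s - V ua ua1 s) (Icc t0 t1) :=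
    (V_cont hub ht0).sub (V_cont hua ht0)
  have hDd : ∀ s, HasDerivAt (fun s => W ub s - W ua s) (V ub ub1 s - V ua ua1 s) s :=
    fun s => (W_deriv hub s).sub (W_deriv hua s)
  have hD1pos : ∀ s ∈ Icc t0 t1, 0 < V ub ub1 s - V ua ua1 s := by
    by_contra hcon
    push Not at hcon
    obtain ⟨τ, hτ, hτ0, hτpos⟩ := first_nonpos hcont hcon
    have hsub : Icc t0 τ ⊆ Icc t0 t1 := Icc_subset_Icc_right hτ.2
    have hmono : ∀ s ∈ Icc t0 τ, W ub t0 - W ua t0 ≤ W ub s - W ua s := by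
      intro s hs
      exact mono_of_deriv (g := fun s => W ub s - W ua s)
        (g' := fun s => V ub ub1 s - V ua ua1 s) (p := t0) (q := τ) (fun s _ => hDd s)
        (fun r hr => (hτpos r ⟨hr.1.le, hr.2⟩).le) ⟨le_rfl, hτ.1⟩ hs hs.1
    have hD0 : 0 < W ub t0 - W ua t0 := by
      have : W ub t0 - W ua t0 = t0 * (ub t0 - ua t0) := by simp only [W]; ring
      rw [this]; positivity
    set c : ℝ := 4 * B ^ 3 + 7 * B ^ 6 / t0 ^ 3 with hc
    have hc0 : 0 < c := by positivity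
    set D0 : ℝ := W ub t0 - W ua t0 with hD0def
    set E0 : ℝ := V ub ub1 t0 - V ua ua1 t0 with hE0def
    have hsrc : ∀ s ∈ Icc t0 τ, 0 ≤ s * F (ub s) - s * F (ua s) ∧
        s * F (ub s) - s * F (ua s) ≤ c / s ^ 3 * (W ub s - W ua s) := by
      intro s hs
      have hs0 : 0 < s := by linarith [hs.1]
      have hDs : 0 < W ub s - W ua s := lt_of_lt_of_le hD0 (hmono s hs)
      have hle : ua s ≤ ub s := by
        have : 0 < s * (ub s - ua s) := by simp only [W] at hDs; linarith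
        have := (mul_pos_iff_of_pos_left hs0).mp this
        linarith
      have hbs : ub s ≤ B / s := by
        rw [le_div_iff₀ hs0]; have := hWb s (hsub hs); unfold W at this; linarith
      have h2 : B / s ≤ B / t0 := div_le_div_of_nonneg_left hB0.le ht0 hs.1
      obtain ⟨f1, f2⟩ := F_diff (ha s (hsub hs)) hle (by linarith)
      have hb0 := hb s (hsub hs)
      constructor
      · have := mul_nonneg hs0.le f1
        linarith
      · have h3 : ub s ^ 3 ≤ (B / s) ^ 3 := pow_le_pow_left₀ hb0 hbs _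
        have h4 : ub s ^ 6 ≤ (B / s) ^ 6 := pow_le_pow_left₀ hb0 hbs _
        have h5 : s * (F (ub s) - F (ua s)) ≤ s * ((4 * ub s ^ 3 + 7 * ub s ^ 6) * (ub s - ua s)) :=
          mul_le_mul_of_nonneg_left f2 hs0.le
        have h6 : s * ((4 * ub s ^ 3 + 7 * ub s ^ 6) * (ub s - ua s))
            = (4 * ub s ^ 3 + 7 * ub s ^ 6) * (W ub s - W ua s) := by simp only [W]; ring
        have h7 : (B / s) ^ 6 ≤ B ^ 6 / t0 ^ 3 / s ^ 3 := by
          rw [div_pow, div_div]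
          apply div_le_div_of_nonneg_left (by positivity) (by positivity)
          have : t0 ^ 3 ≤ s ^ 3 := pow_le_pow_left₀ ht0.le hs.1 _
          calc t0 ^ 3 * s ^ 3 ≤ s ^ 3 * s ^ 3 := mul_le_mul_of_nonneg_right this (by positivity)
            _ = s ^ 6 := by ring
        have h8 : 4 * ub s ^ 3 + 7 * ub s ^ 6 ≤ c / s ^ 3 := by
          have : c / s ^ 3 = 4 * (B / s) ^ 3 + 7 * (B ^ 6 / t0 ^ 3 / s ^ 3) := by
            rw [hc]; field_simp
          rw [this]; linarith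
        have h9 := mul_le_mul_of_nonneg_right h8 hDs.le
        linarith
    have hV : ∀ s ∈ Icc t0 t1, HasDerivAt (fun s => V ub ub1 s - V ua ua1 s)
        (-(s * F (ub s)) - -(s * F (ua s))) s := by
      intro s hs
      have hs0 : s ≠ 0 := by linarith [hs.1] |> fun h : 0 < s => h.ne'
      exact (V_deriv hub hs0).sub (V_deriv hua hs0)
    have hE : ∀ s ∈ Icc t0 τ, V ub ub1 s - V ua ua1 s ≤ E0 := by
      intro s hs
      exact anti_of_deriv (g := fun s => V ub ub1 s - V ua ua1 s)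
        (g' := fun s => -(s * F (ub s)) - -(s * F (ua s))) (p := t0) (q := τ)
        (fun r hr => hV r (hsub hr))
        (fun r hr => by have := (hsrc r (Ioo_subset_Icc_self hr)).1; linarith)
        ⟨le_rfl, hτ.1⟩ hs hs.1
    have hDup : ∀ s ∈ Icc t0 τ, W ub s - W ua s ≤ D0 + E0 * (s - t0) := by
      intro s hs
      have := anti_of_deriv (g := fun s => (W ub s - W ua s) - E0 * s)
        (g' := fun s => (V ub ub1 s - V ua ua1 s) - E0) (p := t0) (q := τ)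
        (fun r _ => by
          have h1 := (hasDerivAt_id r).const_mul E0
          have := (hDd r).sub h1
          simp only [mul_one] at this
          exact this)
        (fun r hr => by have := hE r (Ioo_subset_Icc_self hr); linarith)
        ⟨le_rfl, hτ.1⟩ hs hs.1
      linarith
    have hbar := mono_of_deriv
      (g := fun s => (V ub ub1 s - V ua ua1 s) - (c * (D0 - E0 * t0) / 2) / s ^ 2 - (c * E0) / s ^ 1)
      (g' := fun s => (-(s * F (ub s)) - -(s * F (ua s)))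
        - (-((1 + 1) * (c * (D0 - E0 * t0) / 2) / s ^ 3)) - (-((0 + 1) * (c * E0) / s ^ 2)))
      (p := t0) (q := τ)
      (fun s hs => by
        have hs0 : s ≠ 0 := by linarith [hs.1] |> fun h : 0 < s => h.ne'
        have h1 := inv_pow_deriv (c * (D0 - E0 * t0) / 2) 1 hs0
        have h2 := inv_pow_deriv (c * E0) 0 hs0
        norm_num at h1 h2
        have := ((hV s (hsub hs)).sub h1).sub h2
        norm_num
        norm_num at this
        exact this)
      (fun s hs' => by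
        have hs := Ioo_subset_Icc_self hs'
        have hs0 : 0 < s := by linarith [hs.1]
        have h1 := (hsrc s hs).2
        have h2 := hDup s hs
        have h3 : c / s ^ 3 * (W ub s - W ua s) ≤ c / s ^ 3 * (D0 + E0 * (s - t0)) :=
          mul_le_mul_of_nonneg_left h2 (by positivity)
        have h4 : c / s ^ 3 * (D0 + E0 * (s - t0))
            = (1 + 1) * (c * (D0 - E0 * t0) / 2) / s ^ 3 + (0 + 1) * (c * E0) / s ^ 2 := by
          field_simp; ring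
        linarith)
      (x := t0) (y := τ) ⟨le_rfl, hτ.1⟩ ⟨hτ.1, le_rfl⟩ hτ.1
    have hτ00 : 0 < τ := by linarith [hτ.1]
    have e1 : (c * (D0 - E0 * t0) / 2) / τ ^ 2 + (c * E0) / τ ^ 1
        = c / (2 * τ ^ 2) * (D0 + E0 * (τ - t0) + E0 * τ) := by field_simp; ring
    have e2 : 0 ≤ c / (2 * τ ^ 2) * (D0 + E0 * (τ - t0) + E0 * τ) := by
      have : 0 ≤ E0 * (τ - t0) := mul_nonneg hD1.le (by linarith [hτ.1])
      have : 0 ≤ E0 * τ := mul_nonneg hD1.le hτ00.le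
      have : 0 ≤ D0 + E0 * (τ - t0) + E0 * τ := by linarith
      positivity
    have e3 : (c * (D0 - E0 * t0) / 2) / t0 ^ 2 + (c * E0) / t0 ^ 1
        = c / (2 * t0) * ((ub t0 - ua t0) + E0) := by
      have : D0 = t0 * (ub t0 - ua t0) := by rw [hD0def]; simp only [W]; ring
      rw [this]; field_simp; ring
    linarith
  intro s hs
  refine ⟨hD1pos s hs, ?_⟩
  have h1 := mono_of_deriv (g := fun s => W ub s - W ua s)
        (g' := fun s => V ub ub1 s - V ua ua1 s) (p := t0) (q := t1) (fun s _ => hDd s)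
        (fun r hr => (hD1pos r ⟨hr.1.le, hr.2.le⟩).le) ⟨le_rfl, hs.1.trans hs.2⟩ hs hs.1
  have hD0 : 0 < W ub t0 - W ua t0 := by
    have : W ub t0 - W ua t0 = t0 * (ub t0 - ua t0) := by simp only [W]; ring
    rw [this]; positivity
  linarith

/-- the good set -/
def GG (t0 B : ℝ) (u u1 : ℝ → ℝ) : Prop :=
  ∃ t, t0 ≤ t ∧ V u u1 t ≤ 0 ∧ ∀ s ∈ Icc t0 t, W u s ≤ B

section good
variable {α : ℝ} {u u1 : ℝ → ℝ} (hu : IsSol α u u1)
include hu

theorem G_first {t0 B : ℝ} (ht0 : 0 < t0) (hpos : 0 < u t0) (hG : GG t0 B u u1) :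
    ∃ t, t0 ≤ t ∧ V u u1 t ≤ 0 ∧ (∀ s ∈ Ico t0 t, 0 < V u u1 s) ∧
      (∀ s ∈ Icc t0 t, 0 < u s ∧ W u s ≤ B) := by
  obtain ⟨t, ht, hV, hW⟩ := hG
  obtain ⟨τ, hτ, h1, h2⟩ := first_nonpos (V_cont hu ht0 (t := t)) ⟨t, ⟨ht, le_rfl⟩, hV⟩
  refine ⟨τ, hτ.1, h1, h2, ?_⟩
  intro s hs
  have hs0 : 0 < s := by linarith [hs.1]
  refine ⟨?_, hW s ⟨hs.1, hs.2.trans hτ.2⟩⟩
  have h3 := W_mono_of_V hu (t0 := t0) (t := τ) (fun r hr => (h2 r ⟨hr.1.le, hr.2⟩).le)
    ⟨le_rfl, hτ.1⟩ hs hs.1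
  have h4 : 0 < W u t0 := mul_pos ht0 hpos
  have h5 : 0 < s * u s := lt_of_lt_of_le h4 h3
  exact (mul_pos_iff_of_pos_left hs0).mp h5

theorem G_bound {t0 B Bm : ℝ} (ht0 : 0 < t0) (hBt : B / t0 ≤ 3) (hB0 : 0 < B) (hpos : 0 < u t0)
    (hW0 : W u t0 ≤ Bm) (hG : GG t0 B u u1) :
    ∀ s, t0 ≤ s → W u s ≤ Bm + (B ^ 4 / (2 * t0) + B ^ 7 / (20 * t0 ^ 4)) := by
  obtain ⟨t, ht, hV, h2, h3⟩ := G_first hu ht0 hpos hG
  have key : ∀ s ∈ Icc t0 t, W u s ≤ Bm + (B ^ 4 / (2 * t0) + B ^ 7 / (20 * t0 ^ 4)) := by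
    intro s hs
    have := W_upper hu ht0 hBt hB0 ht (fun r hr => (h3 r hr).1.le) (fun r hr => (h3 r hr).2) hV hs
    linarith
  intro s hs
  rcases le_total s t with h | h
  · exact key s ⟨hs, h⟩
  · have h1 := key t ⟨ht, le_rfl⟩
    have ht1 : 0 < t := by linarith
    have h4 := anti_of_deriv (g := W u) (g' := V u u1) (p := t) (q := s)
      (fun r _ => W_deriv hu r)
      (fun r hr => (V_anti hu ht1 hr.1.le).trans hV) ⟨le_rfl, h⟩ ⟨h, le_rfl⟩ h
    linarith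

theorem G_neg {t0 B : ℝ} (ht0 : 0 < t0) (hpos : 0 < u t0) (hG : GG t0 B u u1) :
    ∃ t, t0 ≤ t ∧ V u u1 t < 0 := by
  obtain ⟨t, ht, hV, h2, h3⟩ := G_first hu ht0 hpos hG
  have ht1 : 0 < t := by linarith
  by_contra hcon
  push Not at hcon
  have hVz : ∀ s, t ≤ s → V u u1 s = 0 := by
    intro s hs
    have h4 := V_anti hu ht1 hs
    have h5 := hcon s (ht.trans hs)
    linarith
  -- derivative at `t` from the right
  have hd := (V_deriv hu ht1.ne').hasDerivWithinAt (s := Ici t)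
  have hd2 : HasDerivWithinAt (V u u1) 0 (Ici t) t := by
    have : HasDerivWithinAt (fun _ : ℝ => (0:ℝ)) 0 (Ici t) t := hasDerivWithinAt_const _ _ _
    exact this.congr (fun s hs => hVz s hs) (hVz t le_rfl)
  have huniq : UniqueDiffWithinAt ℝ (Ici t) t := uniqueDiffWithinAt_Ici t
  have heq := huniq.eq_deriv _ hd hd2
  have hut := (h3 t ⟨ht, le_rfl⟩).1
  have := F_pos hut
  have : 0 < t * F (u t) := mul_pos ht1 this
  linarith

theorem W_neg_of_V_neg {t : ℝ} (ht : 0 < t) (hV : V u u1 t < 0) : ∃ s, t ≤ s ∧ W u s ≤ 0 := by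
  rcases le_or_gt (W u t) 0 with h | h
  · exact ⟨t, le_rfl, h⟩
  · refine ⟨t + W u t / (-(V u u1 t)), ?_, ?_⟩
    · have : 0 < W u t / (-(V u u1 t)) := div_pos h (by linarith)
      linarith
    · set s := t + W u t / (-(V u u1 t)) with hs
      have hpos : 0 < W u t / (-(V u u1 t)) := div_pos h (by linarith)
      have hts : t ≤ s := by linarith
      have := anti_of_deriv (g := fun r => W u r - V u u1 t * r)
        (g' := fun r => V u u1 r - V u u1 t) (p := t) (q := s)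
        (fun r _ => by
          have h1 := (hasDerivAt_id r).const_mul (V u u1 t)
          have := (W_deriv hu r).sub h1
          simp only [mul_one] at this
          exact this)
        (fun r hr => by have := V_anti hu ht hr.1.le; linarith)
        ⟨le_rfl, hts⟩ ⟨hts, le_rfl⟩ hts
      have h2 : V u u1 t * (s - t) = - W u t := by
        have : s - t = W u t / (-(V u u1 t)) := by rw [hs]; ring
        rw [this]
        have : V u u1 t ≠ 0 := hV.ne
        field_simp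
      nlinarith

theorem G_hit {t0 B : ℝ} (hα : 0 < α) (ht0 : 0 < t0) (hpos : 0 < u t0) (hG : GG t0 B u u1) :
    ∃ T, Hit u T := by
  obtain ⟨t, ht, hV⟩ := G_neg hu ht0 hpos hG
  have ht1 : 0 < t := by linarith
  obtain ⟨s, hs, hW⟩ := W_neg_of_V_neg hu ht1 hV
  have hs0 : 0 < s := by linarith
  have hus : u s ≤ 0 := by
    by_contra hcon
    push Not at hcon
    have : 0 < s * u s := mul_pos hs0 hcon
    simp only [W] at hW
    linarith
  have hcont : Continuous u := continuous_iff_continuousAt.mpr fun s => (hu.h0 s).continuousAt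
  obtain ⟨τ, hτ, h1, h2⟩ := first_nonpos (hcont.continuousOn (s := Icc 0 s))
    ⟨s, ⟨hs0.le, le_rfl⟩, hus⟩
  have hτ0 : 0 < τ := by
    rcases hτ.1.eq_or_lt with h | h
    · rw [← h, hu.z0] at h1; linarith
    · exact h
  refine ⟨τ, hτ0, ?_, h2⟩
  have : 0 ≤ u τ := by
    have hcl : τ ∈ closure (Ico 0 τ) := by
      rw [closure_Ico hτ0.ne]; exact ⟨hτ0.le, le_rfl⟩
    have hmem : τ ∈ {r | 0 ≤ u r} := by
      have hclosed : IsClosed {r | 0 ≤ u r} := isClosed_le continuous_const hcont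
      exact hclosed.closure_subset_iff.mpr (fun r hr => (h2 r hr).le) hcl
    exact hmem
  linarith

theorem notG_pos {t0 B t : ℝ} (ht0 : 0 < t0) (hpos : 0 < u t0) (hG : ¬ GG t0 B u u1)
    (hW : ∀ s ∈ Icc t0 t, W u s ≤ B) : ∀ s ∈ Icc t0 t, 0 < V u u1 s ∧ 0 < u s := by
  have hV : ∀ s ∈ Icc t0 t, 0 < V u u1 s := by
    intro s hs
    by_contra hcon
    push Not at hcon
    exact hG ⟨s, hs.1, hcon, fun r hr => hW r ⟨hr.1, hr.2.trans hs.2⟩⟩
  intro s hs
  refine ⟨hV s hs, ?_⟩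
  have hs0 : 0 < s := by linarith [hs.1]
  have h3 := W_mono_of_V hu (t0 := t0) (t := t) (fun r hr => (hV r ⟨hr.1.le, hr.2.le⟩).le)
    ⟨le_rfl, hs.1.trans hs.2⟩ hs hs.1
  have h4 : 0 < W u t0 := mul_pos ht0 hpos
  have h5 : 0 < s * u s := lt_of_lt_of_le h4 h3
  exact (mul_pos_iff_of_pos_left hs0).mp h5

theorem V_low_total {t0 B t : ℝ} (ht0 : 0 < t0) (hB0 : 0 < B) (hBt : B / t0 ≤ 3) (htt : t0 ≤ t)
    (hpos : ∀ s ∈ Icc t0 t, 0 ≤ u s) (hW : ∀ s ∈ Icc t0 t, W u s ≤ B) :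
    V u u1 t0 - (B ^ 4 / (2 * t0 ^ 2) + B ^ 7 / (5 * t0 ^ 5)) ≤ V u u1 t := by
  have h := V_lower hu ht0 hBt hpos hW (x := t0) (y := t) ⟨le_rfl, htt⟩ ⟨htt, le_rfl⟩ htt
  have ht : 0 < t := by linarith
  have p1 : 0 ≤ (B ^ 4 / 2) / t ^ 2 := by positivity
  have p2 : 0 ≤ (B ^ 7 / 5) / t ^ 5 := by positivity
  have e1 : (B ^ 4 / 2) / t0 ^ 2 = B ^ 4 / (2 * t0 ^ 2) := by field_simp
  have e2 : (B ^ 7 / 5) / t0 ^ 5 = B ^ 7 / (5 * t0 ^ 5) := by field_simp
  rw [e1, e2] at h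
  linarith

end good

theorem dep_WV {u u1 : ℝ → ℝ → ℝ} (hdep : Dep u u1) {T : ℝ} (hT : 0 ≤ T) :
    ∃ K : ℝ, 0 ≤ K ∧ ∀ α ∈ Icc (0:ℝ) 2, ∀ β ∈ Icc (0:ℝ) 2, ∀ t ∈ Icc (0:ℝ) T,
      |W (u α) t - W (u β) t| ≤ K * |α - β| ∧ |V (u α) (u1 α) t - V (u β) (u1 β) t| ≤ K * |α - β| := by
  obtain ⟨C, hC⟩ := hdep T
  refine ⟨(1 + T) * |C|, by positivity, ?_⟩
  intro α hα β hβ t ht
  obtain ⟨h1, h2⟩ := hC α hα β hβ t ht
  have hC1 : C * |α - β| ≤ |C| * |α - β| := mul_le_mul_of_nonneg_right (le_abs_self C) (abs_nonneg _)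
  have h1' : |u α t - u β t| ≤ |C| * |α - β| := h1.trans hC1
  have h2' : |u1 α t - u1 β t| ≤ |C| * |α - β| := h2.trans hC1
  have hn : 0 ≤ |C| * |α - β| := by positivity
  constructor
  · have : W (u α) t - W (u β) t = t * (u α t - u β t) := by simp only [W]; ring
    rw [this, abs_mul, abs_of_nonneg ht.1]
    calc t * |u α t - u β t| ≤ T * (|C| * |α - β|) :=
          mul_le_mul ht.2 h1' (abs_nonneg _) hT
      _ ≤ (1 + T) * |C| * |α - β| := by nlinarith
  · have : V (u α) (u1 α) t - V (u β) (u1 β) t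
        = (u α t - u β t) + t * (u1 α t - u1 β t) := by simp only [V]; ring
    rw [this]
    refine (abs_add_le _ _).trans ?_
    rw [abs_mul, abs_of_nonneg ht.1]
    have : t * |u1 α t - u1 β t| ≤ T * (|C| * |α - β|) :=
          mul_le_mul ht.2 h2' (abs_nonneg _) hT
    nlinarith

end C1

open C1 in
/-- FAST DECAY LEMMA. `t0` is a late time, `Bm` bounds `W(t0)`, `B` is a cap, `c ≥ t^3 f'(B/t)`. -/
theorem fast_decay (u u1 : ℝ → ℝ → ℝ) (hu : ∀ α, IsSol α (u α) (u1 α)) (hdep : Dep u u1)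
    (hneg : ∀ α, 0 < α → ∀ t, 0 < t → u1 α t < 0)
    {a b t0 Bm B : ℝ} (ha : 0 < a) (hab : a < b) (hb : b < 2) (ht0 : 0 < t0)
    (hBt : B / t0 ≤ 3) (hB0 : 0 < B)
    (hpos : ∀ α ∈ Icc a b, 0 < u α t0)
    (hW : ∀ α ∈ Icc a b, t0 * u α t0 ≤ Bm)
    (hB : Bm + (B ^ 4 / (2 * t0) + B ^ 7 / (20 * t0 ^ 4)) < B)
    (hpair : ∀ α ∈ Icc a b, ∀ β ∈ Icc a b, α < β →
      0 < u β t0 - u α t0 ∧
      0 < (u β t0 + t0 * u1 β t0) - (u α t0 + t0 * u1 α t0) ∧
      (4 * B ^ 3 + 7 * B ^ 6 / t0 ^ 3) / (2 * t0) *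
        ((u β t0 - u α t0) + ((u β t0 + t0 * u1 β t0) - (u α t0 + t0 * u1 α t0)))
        < (u β t0 + t0 * u1 β t0) - (u α t0 + t0 * u1 α t0))
    (hend_a : u a t0 + t0 * u1 a t0 ≤ 0)
    (hend_b : B ^ 4 / (2 * t0 ^ 2) + B ^ 7 / (5 * t0 ^ 5) < u b t0 + t0 * u1 b t0) :
    ∃ αs ∈ Ioo a b,
      (∀ α ∈ Ico a αs, ∃ T, Hit (u α) T) ∧
      (∀ α ∈ Ico a αs, ∀ β ∈ Ico a αs, α < β → ∀ T T', Hit (u α) T → Hit (u β) T' → T < T') ∧
      (∀ s, ¬ Hit (u αs) s) ∧
      (∀ t, 0 ≤ t → 0 < u αs t) ∧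
      (∀ t, t0 ≤ t → 0 ≤ u αs t + t * u1 αs t ∧ t * u αs t ≤ B) := by
  classical
  have hI2 : ∀ α ∈ Icc a b, α ∈ Icc (0:ℝ) 2 := fun α hα => ⟨by linarith [hα.1], by linarith [hα.2]⟩
  set B' : ℝ := Bm + (B ^ 4 / (2 * t0) + B ^ 7 / (20 * t0 ^ 4)) with hB'
  have hp1 : 0 ≤ B ^ 4 / (2 * t0) + B ^ 7 / (20 * t0 ^ 4) := by positivity
  have hBmB : Bm < B := by linarith
  have ha' : a ∈ Icc a b := ⟨le_rfl, hab.le⟩
  have hb' : b ∈ Icc a b := ⟨hab.le, le_rfl⟩
  -- the pair lemma in the form needed here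
  have hpl : ∀ α ∈ Icc a b, ∀ β ∈ Icc a b, α < β → ∀ t1,
      (∀ s ∈ Icc t0 t1, 0 ≤ u α s) → (∀ s ∈ Icc t0 t1, 0 ≤ u β s) →
      (∀ s ∈ Icc t0 t1, W (u β) s ≤ B) →
      ∀ s ∈ Icc t0 t1, 0 < V (u β) (u1 β) s - V (u α) (u1 α) s ∧ W (u α) s < W (u β) s := by
    intro α hα β hβ hαβ t1 h1 h2 h3
    obtain ⟨p1, p2, p3⟩ := hpair α hα β hβ hαβ
    exact pair (hu α) (hu β) ht0 hBt hB0 h1 h2 h3 p1 p2 p3
  -- the good set
  let G : Set ℝ := {α | α ∈ Icc a b ∧ GG t0 B (u α) (u1 α)}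
  have haG : a ∈ G := by
    refine ⟨ha', t0, le_rfl, hend_a, ?_⟩
    intro s hs
    have : s = t0 := le_antisymm hs.2 hs.1
    rw [this]
    exact (hW a ha').trans hBmB.le
  have hbG : b ∉ G := by
    rintro ⟨-, hG⟩
    obtain ⟨t, ht, hV, h2, h3⟩ := G_first (hu b) ht0 (hpos b hb') hG
    have := V_low_total (hu b) ht0 hB0 hBt ht (fun s hs => (h3 s hs).1.le) (fun s hs => (h3 s hs).2)
    have h4 : V (u b) (u1 b) t0 = u b t0 + t0 * u1 b t0 := rfl
    linarith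
  have hGbound : ∀ α ∈ G, ∀ s, t0 ≤ s → W (u α) s ≤ B' := fun α hα s hs =>
    G_bound (hu α) ht0 hBt hB0 (hpos α hα.1) (hW α hα.1) hα.2 s hs
  have hdown : ∀ α ∈ Icc a b, ∀ β ∈ G, α < β → α ∈ G := by
    intro α hα β hβ hαβ
    by_contra hcon
    have hnG : ¬ GG t0 B (u α) (u1 α) := fun h => hcon ⟨hα, h⟩
    obtain ⟨t, ht, hV, h2, h3⟩ := G_first (hu β) ht0 (hpos β hβ.1) hβ.2
    by_cases hcap : ∀ s ∈ Icc t0 t, W (u α) s ≤ B
    · have h4 := notG_pos (hu α) ht0 (hpos α hα) hnG hcap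
      have h5 := hpl α hα β hβ.1 hαβ t (fun s hs => (h4 s hs).2.le) (fun s hs => (h3 s hs).1.le)
        (fun s hs => (h3 s hs).2) t ⟨ht, le_rfl⟩
      have h6 := (h4 t ⟨ht, le_rfl⟩).1
      linarith [h5.1]
    · push Not at hcap
      obtain ⟨s, hs, hsB⟩ := hcap
      obtain ⟨τ, hτ, h5, h6⟩ := first_nonpos (g := fun r => B - W (u α) r) (p := t0) (q := t)
        ((continuous_const.sub (W_cont (hu α))).continuousOn) ⟨s, hs, by linarith⟩
      have hWτ : W (u α) τ ≤ B := by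
        rcases hτ.1.eq_or_lt with h | h
        · rw [← h]; exact (hW α hα).trans hBmB.le
        · have hcl : τ ∈ closure (Ico t0 τ) := by
            rw [closure_Ico h.ne]; exact ⟨h.le, le_rfl⟩
          have hclosed : IsClosed {r | W (u α) r ≤ B} := isClosed_le (W_cont (hu α)) continuous_const
          exact hclosed.closure_subset_iff.mpr (fun r hr => by
            have := h6 r hr; show W (u α) r ≤ B; linarith) hcl
      have hcap' : ∀ r ∈ Icc t0 τ, W (u α) r ≤ B := by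
        intro r hr
        rcases hr.2.eq_or_lt with h | h
        · rw [h]; exact hWτ
        · have := h6 r ⟨hr.1, h⟩; linarith
      have h4 := notG_pos (hu α) ht0 (hpos α hα) hnG hcap'
      have hsub : Icc t0 τ ⊆ Icc t0 t := Icc_subset_Icc_right hτ.2
      have h7 := hpl α hα β hβ.1 hαβ τ (fun s hs => (h4 s hs).2.le)
        (fun s hs => (h3 s (hsub hs)).1.le) (fun s hs => (h3 s (hsub hs)).2) τ ⟨hτ.1, le_rfl⟩
      have h8 := hGbound β hβ τ hτ.1
      linarith [h7.2]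
  have hopen : ∀ α ∈ G, ∃ δ > 0, ∀ α' ∈ Icc a b, |α' - α| < δ → α' ∈ G := by
    intro α hα
    obtain ⟨t, ht, hV⟩ := G_neg (hu α) ht0 (hpos α hα.1) hα.2
    obtain ⟨K, hK, hKb⟩ := dep_WV hdep (T := t) (by linarith)
    have hBB : 0 < B - B' := by linarith
    refine ⟨min ((B - B') / (K + 1)) (-(V (u α) (u1 α) t) / (K + 1)), ?_, ?_⟩
    · apply lt_min
      · positivity
      · apply div_pos (by linarith) (by linarith)
    · intro α' hα' hd
      have hd1 : |α' - α| < (B - B') / (K + 1) := lt_of_lt_of_le hd (min_le_left _ _)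
      have hd2 : |α' - α| < -(V (u α) (u1 α) t) / (K + 1) := lt_of_lt_of_le hd (min_le_right _ _)
      rw [lt_div_iff₀ (by linarith)] at hd1 hd2
      have hab' := abs_nonneg (α' - α)
      refine ⟨hα', t, ht, ?_, ?_⟩
      · have := (hKb α' (hI2 _ hα') α (hI2 _ hα.1) t ⟨by linarith, le_rfl⟩).2
        have h9 := (abs_le.mp this).2
        nlinarith
      · intro s hs
        have := (hKb α' (hI2 _ hα') α (hI2 _ hα.1) s ⟨by linarith [hs.1], hs.2⟩).1
        have h9 := (abs_le.mp this).2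
        have h10 := hGbound α hα s hs.1
        nlinarith
  -- the supremum
  have hne : G.Nonempty := ⟨a, haG⟩
  have hbdd : BddAbove G := ⟨b, fun α hα => hα.1.2⟩
  set αs := sSup G with hαs
  have hasle : a ≤ αs := le_csSup hbdd haG
  have hsb : αs ≤ b := csSup_le hne (fun α hα => hα.1.2)
  have hsI : αs ∈ Icc a b := ⟨hasle, hsb⟩
  have hsG : αs ∉ G := by
    intro h
    obtain ⟨δ, hδ, hδ2⟩ := hopen αs h
    have hlt : αs < b := lt_of_le_of_ne hsb (fun e => hbG (e ▸ h))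
    have h1 : min (αs + δ / 2) b ∈ G := by
      apply hδ2
      · exact ⟨le_min (by linarith) hab.le, min_le_right _ _⟩
      · rw [abs_of_nonneg (by
          have : αs ≤ min (αs + δ / 2) b := le_min (by linarith) hsb
          linarith)]
        have : min (αs + δ / 2) b ≤ αs + δ / 2 := min_le_left _ _
        linarith
    have h2 := le_csSup hbdd h1
    have h3 : αs < min (αs + δ / 2) b := lt_min (by linarith) hlt
    linarith
  have hlow : ∀ α ∈ Ico a αs, α ∈ G := by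
    intro α hα
    obtain ⟨β, hβ, hαβ⟩ := exists_lt_of_lt_csSup hne hα.2
    exact hdown α ⟨hα.1, by linarith [hα.2]⟩ β hβ hαβ
  have hasne : a < αs := lt_of_le_of_ne hasle (fun e => hsG (e ▸ haG))
  have hWs : ∀ t, t0 ≤ t → W (u αs) t ≤ B' := by
    intro t ht
    by_contra hcon
    push Not at hcon
    obtain ⟨K, hK, hKb⟩ := dep_WV hdep (T := t) (by linarith)
    obtain ⟨β, hβ, hαβ⟩ := exists_lt_of_lt_csSup hne
      (show αs - min ((W (u αs) t - B') / (K + 1)) 1 < sSup G by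
        have : 0 < min ((W (u αs) t - B') / (K + 1)) 1 :=
          lt_min (div_pos (by linarith) (by linarith)) one_pos
        linarith)
    have hβs : β ≤ αs := le_csSup hbdd hβ
    have h1 := (hKb αs (hI2 _ hsI) β (hI2 _ hβ.1) t ⟨by linarith, le_rfl⟩).1
    have h2 := (abs_le.mp h1).2
    have h3 := hGbound β hβ t ht
    rw [abs_of_nonneg (by linarith)] at h2
    have h4 : αs - β < (W (u αs) t - B') / (K + 1) := by
      have := min_le_left ((W (u αs) t - B') / (K + 1)) 1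
      linarith
    rw [lt_div_iff₀ (by linarith)] at h4
    nlinarith
  have hnGs : ¬ GG t0 B (u αs) (u1 αs) := fun h => hsG ⟨hsI, h⟩
  have hsV : ∀ t, t0 ≤ t → 0 < V (u αs) (u1 αs) t ∧ 0 < u αs t := by
    intro t ht
    exact notG_pos (hu αs) ht0 (hpos αs hsI) hnGs (t := t)
      (fun s hs => (hWs s hs.1).trans hB.le) t ⟨ht, le_rfl⟩
  have hsltb : αs < b := by
    refine lt_of_le_of_ne hsb (fun e => ?_)
    set m : ℝ := V (u b) (u1 b) t0 - (B ^ 4 / (2 * t0 ^ 2) + B ^ 7 / (5 * t0 ^ 5)) with hm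
    have hm0 : 0 < m := by
      have h4 : V (u b) (u1 b) t0 = u b t0 + t0 * u1 b t0 := rfl
      rw [hm, h4]; linarith
    rw [e] at hWs hsV
    have hlowV : ∀ t, t0 ≤ t → m ≤ V (u b) (u1 b) t := fun t ht =>
      V_low_total (hu b) ht0 hB0 hBt ht (fun s hs => (hsV s hs.1).2.le)
        (fun s hs => (hWs s hs.1).trans hB.le)
    have hW0 : 0 < W (u b) t0 := mul_pos ht0 (hpos b hb')
    set t := t0 + B / m with ht
    have hBm : 0 < B / m := div_pos hB0 hm0
    have hge := mono_of_deriv (g := fun r => W (u b) r - m * r)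
        (g' := fun r => V (u b) (u1 b) r - m) (p := t0) (q := t)
        (fun r _ => by
          have h1 := (hasDerivAt_id r).const_mul m
          have := (W_deriv (hu b) r).sub h1
          simp only [mul_one] at this
          exact this)
        (fun r hr => by have := hlowV r hr.1.le; linarith)
        (x := t0) (y := t) ⟨le_rfl, by linarith⟩ ⟨by linarith, le_rfl⟩ (by linarith)
    have h5 : m * (t - t0) = B := by rw [ht]; field_simp; ring
    have h6 := hWs t (by linarith)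
    nlinarith
  have hus : ∀ t, 0 ≤ t → 0 < u αs t := by
    intro t ht
    rcases le_total t0 t with h | h
    · exact (hsV t h).2
    · have := u_anti (hu αs) (hneg αs (by linarith)) ht h
      have := hpos αs hsI
      linarith
  refine ⟨αs, ⟨hasne, hsltb⟩, ?_, ?_, ?_, hus, ?_⟩
  · intro α hα
    have h := hlow α hα
    exact G_hit (hu α) (by linarith [hα.1]) ht0 (hpos α h.1) h.2
  · intro α hα β hβ hαβ T T' hT hT'
    have hαG := hlow α hα
    have hβG := hlow β hβ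
    by_contra hcon
    push Not at hcon
    have hT0 : t0 < T' := by
      by_contra h
      push Not at h
      have h1 := u_anti (hu β) (hneg β (by linarith [hβ.1])) hT'.1.le h
      have h2 := hpos β hβG.1
      have h3 := hT'.2.1
      linarith
    have h1 := hpl α hαG.1 β hβG.1 hαβ T'
      (fun s hs => by
        rcases hs.2.eq_or_lt with h | h
        · rcases hcon.eq_or_lt with h' | h'
          · rw [h, h', hT.2.1]
          · exact (hT.2.2 s ⟨by linarith [hs.1], by linarith⟩).le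
        · exact (hT.2.2 s ⟨by linarith [hs.1], by linarith⟩).le)
      (fun s hs => by
        rcases hs.2.eq_or_lt with h | h
        · rw [h, hT'.2.1]
        · exact (hT'.2.2 s ⟨by linarith [hs.1], h⟩).le)
      (fun s hs => (hGbound β hβG s hs.1).trans hB.le) T' ⟨hT0.le, le_rfl⟩
    have h2 : W (u β) T' = 0 := by simp only [W]; rw [hT'.2.1]; ring
    have h3 : 0 ≤ W (u α) T' := by
      simp only [W]
      apply mul_nonneg (by linarith)
      rcases hcon.eq_or_lt with h' | h'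
      · rw [h', hT.2.1]
      · exact (hT.2.2 T' ⟨by linarith, h'⟩).le
    linarith [h1.2]
  · intro s hs
    have := hus s hs.1.le
    linarith [hs.2.1]
  · intro t ht
    exact ⟨(hsV t ht).1.le, (hWs t ht).trans hB.le⟩

end Pool.Agent.H228
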