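import Mathlib
import Pool.Agent.H228.Sem
import Pool.Agent.H228.Asm
import Pool.Agent.H228.Ode

/-! TASK U2: all regions together give the frozen statement. -/

set_option autoImplicit false

namespace Pool.Agent.H228

open Set

/-- decreasing first zero on a set -/
private def DecS (u : ℝ → ℝ → ℝ) (s : Set ℝ) : Prop :=
  (∀ a ∈ s, ∃ T, Hit (u a) T) ∧
  ∀ a ∈ s, ∀ b ∈ s, a < b → ∀ T T', Hit (u a) T → Hit (u b) T' → T' < T

/-- increasing first zero on a set -/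
private def IncS (u : ℝ → ℝ → ℝ) (s : Set ℝ) : Prop :=
  (∀ a ∈ s, ∃ T, Hit (u a) T) ∧
  ∀ a ∈ s, ∀ b ∈ s, a < b → ∀ T T', Hit (u a) T → Hit (u b) T' → T < T'

private theorem DecS.mono {u : ℝ → ℝ → ℝ} {s t : Set ℝ} (h : DecS u t) (hst : s ⊆ t) :
    DecS u s :=
  ⟨fun a ha => h.1 a (hst ha), fun a ha b hb => h.2 a (hst ha) b (hst hb)⟩

private theorem IncS.mono {u : ℝ → ℝ → ℝ} {s t : Set ℝ} (h : IncS u t) (hst : s ⊆ t) :
    IncS u s :=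
  ⟨fun a ha => h.1 a (hst ha), fun a ha b hb => h.2 a (hst ha) b (hst hb)⟩

private theorem DecS.union {u : ℝ → ℝ → ℝ} {s t : Set ℝ} {m : ℝ} (hs : DecS u s)
    (ht : DecS u t) (hms : m ∈ s) (hmt : m ∈ t) (h1 : ∀ a ∈ s, a ≤ m) (h2 : ∀ b ∈ t, m ≤ b) :
    DecS u (s ∪ t) := by
  refine ⟨fun a ha => ha.elim (hs.1 a) (ht.1 a), fun a ha b hb hab T T' hT hT' => ?_⟩
  rcases ha with ha | ha <;> rcases hb with hb | hb
  · exact hs.2 a ha b hb hab T T' hT hT'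
  · obtain ⟨M, hM⟩ := hs.1 m hms
    rcases (h1 a ha).lt_or_eq with h | h
    · have e1 := hs.2 a ha m hms h T M hT hM
      rcases (h2 b hb).lt_or_eq with h' | h'
      · exact (ht.2 m hmt b hb h' M T' hM hT').trans e1
      · subst h'
        rwa [hit_unique hT' hM]
    · subst h
      exact ht.2 a hmt b hb hab T T' hT hT'
  · exact absurd hab (not_lt.2 ((h1 b hb).trans (h2 a ha)))
  · exact ht.2 a ha b hb hab T T' hT hT'

private theorem IncS.union {u : ℝ → ℝ → ℝ} {s t : Set ℝ} {m : ℝ} (hs : IncS u s)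
    (ht : IncS u t) (hms : m ∈ s) (hmt : m ∈ t) (h1 : ∀ a ∈ s, a ≤ m) (h2 : ∀ b ∈ t, m ≤ b) :
    IncS u (s ∪ t) := by
  refine ⟨fun a ha => ha.elim (hs.1 a) (ht.1 a), fun a ha b hb hab T T' hT hT' => ?_⟩
  rcases ha with ha | ha <;> rcases hb with hb | hb
  · exact hs.2 a ha b hb hab T T' hT hT'
  · obtain ⟨M, hM⟩ := hs.1 m hms
    rcases (h1 a ha).lt_or_eq with h | h
    · have e1 := hs.2 a ha m hms h T M hT hM
      rcases (h2 b hb).lt_or_eq with h' | h'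
      · exact e1.trans (ht.2 m hmt b hb h' M T' hM hT')
      · subst h'
        rwa [hit_unique hT' hM]
    · subst h
      exact ht.2 a hmt b hb hab T T' hT hT'
  · exact absurd hab (not_lt.2 ((h1 b hb).trans (h2 a ha)))
  · exact ht.2 a ha b hb hab T T' hT hT'

/-- Choose `T α` = the first zero where it exists; apply `assemble` with `p₁, α₁, p₂, α₂` (`p₁ ∈ [x1, x2]`
may be an end point; all strict inequalities needed by `assemble` follow from `0 < 1/16 ≤ x1 ≤ p₁ ≤ x2 ≤ y1 < α₁`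
etc.). -/
theorem main_glue (u u1 : ℝ → ℝ → ℝ) (hu : ∀ α, IsSol α (u α) (u1 α)) (hdep : Dep u u1)
    (hneg : ∀ α, 0 < α → ∀ t, 0 < t → u1 α t < 0)
    (hC2 : ∀ α, ContDiff ℝ 2 (u α))
    (huniq : ∀ {α T : ℝ}, 0 < T → ∀ {v v1 : ℝ → ℝ}, v 0 = α → ContinuousOn v (Icc 0 T) →
      ContinuousOn v1 (Icc 0 T) → (∀ t ∈ Ioo 0 T, HasDerivAt v (v1 t) t) →
      (∀ t ∈ Ioo 0 T, HasDerivAt v1 (-(2 / t) * v1 t - F (v t)) t) →
      ∀ t ∈ Icc 0 T, v t = u α t ∧ v1 t = u1 α t)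
    {x0 x1 x2 y1 y2 x3 x4 y3 : ℝ} (h0 : 0 < x0) (h1 : x0 ≤ x1) (h12 : x1 < x2) (h2 : x2 ≤ y1)
    (h3 : y1 < y2) (h4 : y2 < x3) (h34 : x3 < x4) (h5 : x4 ≤ y3)
    -- small solutions
    (ha : (∀ α ∈ Ioc 0 x0, ∃ T, Hit (u α) T) ∧
      ∀ α ∈ Ioc 0 x0, ∀ β ∈ Ioc 0 x0, α < β → ∀ T T', Hit (u α) T → Hit (u β) T' → T' < T)
    (hb : Dec u x0 x1)
    (hc : ∃ p ∈ Icc x1 x2, Dec u x1 p ∧ Inc u p x2)
    (hd : Inc u x2 y1)
    {α₁ : ℝ} (hα₁ : α₁ ∈ Ioo y1 y2)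
    (he : (∀ α ∈ Ico y1 α₁, ∃ T, Hit (u α) T) ∧ ∀ α ∈ Ico y1 α₁, ∀ β ∈ Ico y1 α₁, α < β →
      ∀ T T', Hit (u α) T → Hit (u β) T' → T < T')
    (hno1 : ∀ s, ¬ Hit (u α₁) s)
    {z : ℝ} (hz : y2 ≤ z) (hz3 : z ≤ x3)
    (hf : (∀ α ∈ Ioc α₁ z, ∃ T, Hit (u α) T) ∧
      ∀ α ∈ Ioc α₁ z, ∀ β ∈ Ioc α₁ z, α < β → ∀ T T', Hit (u α) T → Hit (u β) T' → T' < T)
    (hg : Dec u z x3)
    (hh : ∃ p ∈ Icc x3 x4, Dec u x3 p ∧ Inc u p x4)
    (hi : Inc u x4 y3)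
    {α₂ : ℝ} (hα₂ : y3 < α₂) (hα₂2 : α₂ < 2)
    (hj : (∀ α ∈ Ico y3 α₂, ∃ T, Hit (u α) T) ∧ ∀ α ∈ Ico y3 α₂, ∀ β ∈ Ico y3 α₂, α < β →
      ∀ T T', Hit (u α) T → Hit (u β) T' → T < T')
    (hno2 : ∀ s, ¬ Hit (u α₂) s) :
    ∀ S : Set (ℝ × ℝ),
      (∀ l a : ℝ, (l, a) ∈ S ↔
        (0 < l ∧ ∃ u : ℝ → ℝ, ∃ ε : ℝ, 0 < ε ∧
          ContDiffOn ℝ 2 u (Set.Ioo (-ε) (1 + ε)) ∧
          u 0 = a ∧ deriv u 0 = 0 ∧ u 1 = 0 ∧
          (∀ r ∈ Set.Ico (0:ℝ) 1, 0 < u r) ∧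
          ∀ r ∈ Set.Ioc (0:ℝ) 1,
            deriv (deriv u) r + 2 / r * deriv u r + l * (u r ^ 4 + u r ^ 7) = 0)) →
      ∃ x1 ∈ S, ∃ x2 ∈ S,
        connectedComponentIn S x1 ≠ connectedComponentIn S x2 ∧
        (∀ y ∈ S, y ∉ connectedComponentIn S x1 → y ∉ connectedComponentIn S x2 →
          ∀ z ∈ connectedComponentIn S x1 ∪ connectedComponentIn S x2, z.2 < y.2) ∧
        ∀ x ∈ ({x1, x2} : Set (ℝ × ℝ)),
          ∃ t ∈ connectedComponentIn S x,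
            (∀ y ∈ connectedComponentIn S x, ∀ z ∈ connectedComponentIn S x,
              y.2 < z.2 → z.2 ≤ t.2 → z.1 < y.1) ∧
            (∀ y ∈ connectedComponentIn S x, ∀ z ∈ connectedComponentIn S x,
              y.2 < z.2 → t.2 ≤ y.2 → y.1 < z.1) := by
  obtain ⟨p, hp, hc1, hc2⟩ := hc
  obtain ⟨q, hq, hh1, hh2⟩ := hh
  have hα1 := hα₁.1
  have hα1' := hα₁.2
  -- the four monotone branches
  have D1 : DecS u (Ioc 0 p) := by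
    have e1 : DecS u (Ioc 0 x0 ∪ Icc x0 x1) := DecS.union (m := x0) ha hb ⟨h0, le_rfl⟩
      ⟨le_rfl, h1⟩ (fun a ha => ha.2) (fun b hb => hb.1)
    have e2 : DecS u (Ioc 0 x0 ∪ Icc x0 x1 ∪ Icc x1 p) := DecS.union (m := x1) e1 hc1
      (Or.inr ⟨h1, le_rfl⟩) ⟨le_rfl, hp.1⟩
      (by
        rintro a (ha | ha)
        · exact ha.2.trans h1
        · exact ha.2) (fun b hb => hb.1)
    refine e2.mono fun a ha => ?_
    rcases le_or_gt a x0 with h | h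
    · exact Or.inl (Or.inl ⟨ha.1, h⟩)
    · rcases le_or_gt a x1 with h' | h'
      · exact Or.inl (Or.inr ⟨h.le, h'⟩)
      · exact Or.inr ⟨h'.le, ha.2⟩
  have I1 : IncS u (Ico p α₁) := by
    have e1 : IncS u (Icc p x2 ∪ Icc x2 y1) := IncS.union (m := x2) hc2 hd ⟨hp.2, le_rfl⟩
      ⟨le_rfl, h2⟩ (fun a ha => ha.2) (fun b hb => hb.1)
    have e2 : IncS u (Icc p x2 ∪ Icc x2 y1 ∪ Ico y1 α₁) := IncS.union (m := y1) e1 he
      (Or.inr ⟨h2, le_rfl⟩) ⟨le_rfl, hα1⟩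
      (by
        rintro a (ha | ha)
        · exact ha.2.trans h2
        · exact ha.2) (fun b hb => hb.1)
    refine e2.mono fun a ha => ?_
    rcases le_or_gt a x2 with h | h
    · exact Or.inl (Or.inl ⟨ha.1, h⟩)
    · rcases le_or_gt a y1 with h' | h'
      · exact Or.inl (Or.inr ⟨h.le, h'⟩)
      · exact Or.inr ⟨h'.le, ha.2⟩
  have D2 : DecS u (Ioc α₁ q) := by
    have e1 : DecS u (Ioc α₁ z ∪ Icc z x3) := DecS.union (m := z) hf hg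
      ⟨hα1'.trans_le hz, le_rfl⟩ ⟨le_rfl, hz3⟩ (fun a ha => ha.2) (fun b hb => hb.1)
    have e2 : DecS u (Ioc α₁ z ∪ Icc z x3 ∪ Icc x3 q) := DecS.union (m := x3) e1 hh1
      (Or.inr ⟨hz3, le_rfl⟩) ⟨le_rfl, hq.1⟩
      (by
        rintro a (ha | ha)
        · exact ha.2.trans hz3
        · exact ha.2) (fun b hb => hb.1)
    refine e2.mono fun a ha => ?_
    rcases le_or_gt a z with h | h
    · exact Or.inl (Or.inl ⟨ha.1, h⟩)
    · rcases le_or_gt a x3 with h' | h'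
      · exact Or.inl (Or.inr ⟨h.le, h'⟩)
      · exact Or.inr ⟨h'.le, ha.2⟩
  have I2 : IncS u (Ico q α₂) := by
    have e1 : IncS u (Icc q x4 ∪ Icc x4 y3) := IncS.union (m := x4) hh2 hi ⟨hq.2, le_rfl⟩
      ⟨le_rfl, h5⟩ (fun a ha => ha.2) (fun b hb => hb.1)
    have e2 : IncS u (Icc q x4 ∪ Icc x4 y3 ∪ Ico y3 α₂) := IncS.union (m := y3) e1 hj
      (Or.inr ⟨h5, le_rfl⟩) ⟨le_rfl, hα₂⟩
      (by
        rintro a (ha | ha)
        · exact ha.2.trans h5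
        · exact ha.2) (fun b hb => hb.1)
    refine e2.mono fun a ha => ?_
    rcases le_or_gt a x4 with h | h
    · exact Or.inl (Or.inl ⟨ha.1, h⟩)
    · rcases le_or_gt a y3 with h' | h'
      · exact Or.inl (Or.inr ⟨h.le, h'⟩)
      · exact Or.inr ⟨h'.le, ha.2⟩
  have hp1 := hp.1
  have hp2 := hp.2
  have hq1 := hq.1
  have hq2 := hq.2
  have hex : ∀ α ∈ Ioo 0 α₁ ∪ Ioo α₁ α₂, ∃ T, Hit (u α) T := by
    rintro α (hα | hα)
    · rcases le_or_gt α p with h | h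
      · exact D1.1 α ⟨hα.1, h⟩
      · exact I1.1 α ⟨h.le, hα.2⟩
    · rcases le_or_gt α q with h | h
      · exact D2.1 α ⟨hα.1, h⟩
      · exact I2.1 α ⟨h.le, hα.2⟩
  choose! T hT using hex
  have hlt1 : p < α₁ := by linarith
  have hlt2 : α₁ < q := by linarith
  have hlt3 : q < α₂ := by linarith
  refine assemble u u1 hu hdep hneg hC2 huniq (p₁ := p) (α₁ := α₁) (p₂ := q) (α₂ := α₂)
    (by linarith) hlt1 hlt2 hlt3 hα₂2 T hT hno1 hno2 ?_ ?_ ?_ ?_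
  · intro a ha b hb hab
    exact D1.2 a ha b hb hab _ _ (hT a (Or.inl ⟨ha.1, ha.2.trans_lt hlt1⟩))
      (hT b (Or.inl ⟨hb.1, hb.2.trans_lt hlt1⟩))
  · intro a ha b hb hab
    exact I1.2 a ha b hb hab _ _ (hT a (Or.inl ⟨by linarith [ha.1], ha.2⟩))
      (hT b (Or.inl ⟨by linarith [hb.1], hb.2⟩))
  · intro a ha b hb hab
    exact D2.2 a ha b hb hab _ _ (hT a (Or.inr ⟨ha.1, ha.2.trans_lt hlt3⟩))
      (hT b (Or.inr ⟨hb.1, hb.2.trans_lt hlt3⟩))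
  · intro a ha b hb hab
    exact I2.2 a ha b hb hab _ _ (hT a (Or.inr ⟨by linarith [ha.1], ha.2⟩))
      (hT b (Or.inr ⟨by linarith [hb.1], hb.2⟩))

end Pool.Agent.H228
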