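import Mathlib

namespace Pool.Agent.H228.Bent

open Finset

abbrev F := ZMod 2

section Deg
variable {ι : Type} [Fintype ι] [DecidableEq ι]

def mono (s : Finset ι) : (ι → F) → F := fun x => ∏ i ∈ s, x i

def Deg (ι : Type) [Fintype ι] [DecidableEq ι] (d : ℕ) : Submodule F ((ι → F) → F) :=
  Submodule.span F {f | ∃ s : Finset ι, s.card ≤ d ∧ f = mono s}

lemma sq_self (a : F) : a * a = a := by revert a; decide

lemma mono_mul (s t : Finset ι) : mono s * mono t = mono (s ∪ t) := by
  funext x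
  simp only [mono, Pi.mul_apply]
  induction s using Finset.induction_on with
  | empty => simp
  | insert a s ha ih =>
    rw [prod_insert ha, mul_assoc, ih, insert_union]
    by_cases h : a ∈ s ∪ t
    · rw [insert_eq_of_mem h, ← mul_prod_erase _ _ h, ← mul_assoc, sq_self]
    · rw [prod_insert h]

lemma Deg.mono' {d e : ℕ} (h : d ≤ e) {f : (ι → F) → F} (hf : f ∈ Deg ι d) : f ∈ Deg ι e := by
  refine Submodule.span_mono ?_ hf
  rintro _ ⟨s, hs, rfl⟩
  exact ⟨s, hs.trans h, rfl⟩

lemma Deg.mul {d e : ℕ} {f g : (ι → F) → F} (hf : f ∈ Deg ι d) (hg : g ∈ Deg ι e) :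
    f * g ∈ Deg ι (d + e) := by
  induction hf using Submodule.span_induction with
  | mem f hf =>
    obtain ⟨s, hs, rfl⟩ := hf
    induction hg using Submodule.span_induction with
    | mem g hg =>
      obtain ⟨t, ht, rfl⟩ := hg
      rw [mono_mul]
      exact Submodule.subset_span ⟨s ∪ t, (card_union_le _ _).trans (by omega), rfl⟩
    | zero => simp
    | add g g' _ _ h1 h2 => rw [mul_add]; exact add_mem h1 h2
    | smul c g _ h1 => rw [mul_smul_comm]; exact Submodule.smul_mem _ _ h1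
  | zero => simp
  | add f f' _ _ h1 h2 => rw [add_mul]; exact add_mem h1 h2
  | smul c f _ h1 => rw [smul_mul_assoc]; exact Submodule.smul_mem _ _ h1

lemma Deg.one : (1 : (ι → F) → F) ∈ Deg ι 0 :=
  Submodule.subset_span ⟨∅, by simp, by funext x; simp [mono]⟩

lemma Deg.var (i : ι) : (fun x : ι → F => x i) ∈ Deg ι 1 :=
  Submodule.subset_span ⟨{i}, by simp, by funext x; simp [mono]⟩

lemma Deg.lin (c : ι → F) : (fun x : ι → F => ∑ i, c i * x i) ∈ Deg ι 1 := by
  have : (fun x : ι → F => ∑ i, c i * x i) = ∑ i, c i • (fun x : ι → F => x i) := by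
    funext x; simp
  rw [this]
  exact Submodule.sum_mem _ fun i _ => Submodule.smul_mem _ _ (Deg.var i)

lemma Deg.prod {J : Type} [DecidableEq J] (T : Finset J) (c : J → (ι → F) → F)
    (hc : ∀ j, c j ∈ Deg ι 1) : (∏ j ∈ T, c j) ∈ Deg ι T.card := by
  induction T using Finset.induction_on with
  | empty => simpa using Deg.one
  | insert a s ha ih =>
    rw [prod_insert ha, card_insert_of_notMem ha, add_comm]
    exact Deg.mul (hc a) ih

def esym {J : Type} [Fintype J] (r : ℕ) (c : J → F) : F :=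
  ∑ T ∈ powersetCard r (univ : Finset J), ∏ j ∈ T, c j

lemma Deg.esym {J : Type} [Fintype J] [DecidableEq J] (r : ℕ) (c : J → (ι → F) → F)
    (hc : ∀ j, c j ∈ Deg ι 1) : (fun x => esym r (fun j => c j x)) ∈ Deg ι r := by
  have : (fun x => Bent.esym r (fun j => c j x))
      = ∑ T ∈ powersetCard r (univ : Finset J), ∏ j ∈ T, c j := by
    funext x; simp [Bent.esym]
  rw [this]
  refine Submodule.sum_mem _ fun T hT => ?_
  have := Deg.prod T c hc
  rwa [(mem_powersetCard.1 hT).2] at this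

lemma eq_one_of_ne {a : F} (h : a ≠ 0) : a = 1 := by revert a; decide

def wt (x : ι → F) : ℕ := (univ.filter (fun i => x i ≠ 0)).card

lemma prod_ind (x : ι → F) (T : Finset ι) :
    ∏ j ∈ T, x j = if T ⊆ univ.filter (fun i => x i ≠ 0) then 1 else 0 := by
  split_ifs with h
  · refine prod_eq_one fun j hj => eq_one_of_ne (mem_filter.1 (h hj)).2
  · rw [not_subset] at h
    obtain ⟨j, hj, h2⟩ := h
    refine prod_eq_zero hj ?_
    simpa using h2

lemma esym_eq (r : ℕ) (c : ι → F) : esym r c = ((wt c).choose r : F) := by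
  rw [esym, wt, ← card_powersetCard]
  simp only [prod_ind]
  rw [sum_boole]
  congr 2
  ext T
  simp only [mem_filter, mem_powersetCard, subset_univ, true_and]
  tauto

lemma hom {k : ℕ} {f : (ι → F) → F} (hf : f ∈ Deg ι k) (h0 : ∀ x, wt x < k → f x = 0) :
    ∃ S : Finset (Finset ι), (∀ s ∈ S, s.card = k) ∧ ∀ x, f x = ∑ s ∈ S, ∏ i ∈ s, x i := by
  have : ∃ c : Finset ι → F, (∀ s, k < s.card → c s = 0) ∧ ∀ x, f x = ∑ s, c s * ∏ i ∈ s, x i := by
    clear h0
    induction hf using Submodule.span_induction with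
    | mem f hf =>
      obtain ⟨s, hs, rfl⟩ := hf
      refine ⟨fun t => if t = s then 1 else 0, fun t ht => if_neg ?_, fun x => ?_⟩
      · rintro rfl; omega
      · simp [mono]
    | zero => exact ⟨0, by simp, by simp⟩
    | add f g _ _ h1 h2 =>
      obtain ⟨c, hc, hc'⟩ := h1
      obtain ⟨d, hd, hd'⟩ := h2
      refine ⟨c + d, fun s hs => by simp [hc s hs, hd s hs], fun x => ?_⟩
      simp [hc', hd', add_mul, sum_add_distrib]
    | smul a f _ h1 =>
      obtain ⟨c, hc, hc'⟩ := h1
      refine ⟨a • c, fun s hs => by simp [hc s hs], fun x => ?_⟩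
      simp [hc', mul_sum, mul_assoc]
  obtain ⟨c, hc, hc'⟩ := this
  have low : ∀ s : Finset ι, s.card < k → c s = 0 := by
    intro s
    induction s using Finset.strongInduction with
    | H s ih =>
      intro hs
      have hw : univ.filter (fun i => (if i ∈ s then (1 : F) else 0) ≠ 0) = s := by
        ext i; simp
      have h1 := h0 (fun i => if i ∈ s then 1 else 0) (by rw [wt, hw]; exact hs)
      rw [hc', sum_eq_single s] at h1
      · rw [prod_ind, hw, if_pos (subset_refl _), mul_one] at h1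
        exact h1
      · intro t _ hts
        rw [prod_ind, hw]
        split_ifs with h
        · rw [ih t (ssubset_of_subset_of_ne h hts) ((card_le_card h).trans_lt hs), zero_mul]
        · simp
      · simp
  refine ⟨univ.filter (fun s => c s ≠ 0), fun s hs => ?_, fun x => ?_⟩
  · have := (mem_filter.1 hs).2
    by_contra h
    rcases lt_or_gt_of_ne h with h | h
    · exact this (low s h)
    · exact this (hc s h)
  · rw [hc', sum_filter]
    refine sum_congr rfl fun s _ => ?_
    split_ifs with h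
    · rw [eq_one_of_ne h, one_mul]
    · rw [not_not.1 h, zero_mul]

end Deg

def chi (t : F) : ℤ := (-1) ^ t.val

lemma chi_add (s t : F) : chi (s + t) = chi s * chi t := by revert s t; decide

lemma chi_sq (s : F) : chi s ^ 2 = 1 := by revert s; decide

lemma chi_sum {κ : Type} [DecidableEq κ] (T : Finset κ) (c : κ → F) :
    chi (∑ i ∈ T, c i) = ∏ i ∈ T, chi (c i) := by
  induction T using Finset.induction_on with
  | empty => simp [chi]
  | insert a s ha ih => rw [sum_insert ha, prod_insert ha, chi_add, ih]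

lemma char_sum {κ : Type} [Fintype κ] [DecidableEq κ] (c : κ → F) :
    ∑ x : κ → F, chi (∑ i, x i * c i) = if c = 0 then 2 ^ Fintype.card κ else 0 := by
  have h1 : ∀ t : F, ∑ u : F, chi (u * t) = if t = 0 then 2 else 0 := by decide
  simp only [chi_sum]
  rw [← Fintype.piFinset_univ, ← prod_univ_sum (fun _ => univ) (fun i u => chi (u * c i))]
  simp only [h1]
  split_ifs with h
  · simp [h]
  · obtain ⟨i, hi⟩ := Function.ne_iff.1 h
    exact prod_eq_zero (mem_univ i) (if_neg hi)

/-- there is a homogeneous bent function of degree `k` on the variable set `ι` -/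
def HB (ι : Type) [Fintype ι] [DecidableEq ι] (k : ℕ) : Prop :=
  ∃ S : Finset (Finset ι), (∀ s ∈ S, s.card = k) ∧ ∀ a : ι → F,
    (∑ x : ι → F, chi ((∑ s ∈ S, ∏ i ∈ s, x i) + ∑ i, a i * x i)) ^ 2 = 2 ^ Fintype.card ι

lemma mm {κ : Type} [Fintype κ] [DecidableEq κ] (Y : (κ ⊕ κ → F) →ₗ[F] (κ → F))
    (hY : ∀ z, (∀ i, z (Sum.inl i) = 0) → Y z = 0 → z = 0)
    (π : (κ → F) → (κ → F)) (hπ : Function.Injective π) (g : (κ → F) → F) (a : κ ⊕ κ → F) :
    (∑ z : κ ⊕ κ → F, chi ((∑ i, z (Sum.inl i) * π (Y z) i + g (Y z)) + ∑ i, a i * z i)) ^ 2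
      = 2 ^ Fintype.card (κ ⊕ κ) := by
  let Φ : (κ ⊕ κ → F) →ₗ[F] (κ → F) × (κ → F) :=
    LinearMap.prod (LinearMap.funLeft F F Sum.inl) Y
  have hΦ : Function.Bijective Φ := by
    rw [Fintype.bijective_iff_injective_and_card]
    constructor
    · rw [injective_iff_map_eq_zero]
      intro z hz
      exact hY z (fun i => congrFun (congrArg Prod.fst hz) i) (congrArg Prod.snd hz)
    · simp [pow_add]
  let Ψ := (LinearEquiv.ofBijective Φ hΦ).symm
  have e1 : ∀ p : (κ → F) × (κ → F), ∀ i, Ψ p (Sum.inl i) = p.1 i := fun p i =>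
    congrFun (congrArg Prod.fst ((LinearEquiv.ofBijective Φ hΦ).apply_symm_apply p)) i
  have e2 : ∀ p : (κ → F) × (κ → F), Y (Ψ p) = p.2 := fun p =>
    congrArg Prod.snd ((LinearEquiv.ofBijective Φ hΦ).apply_symm_apply p)
  let A : (κ ⊕ κ → F) →ₗ[F] F := ∑ i, a i • LinearMap.proj i
  have hA : ∀ z, ∑ i, a i * z i = A z := by intro z; simp [A]
  let B : (κ → F) →ₗ[F] F := A ∘ₗ Ψ.toLinearMap ∘ₗ LinearMap.inl F _ _
  let b : κ → F := fun i => B (fun j => if i = j then 1 else 0)
  have hB : ∀ x y, A (Ψ (x, y)) = ∑ i, x i * b i + A (Ψ (0, y)) := by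
    intro x y
    have : (x, y) = (x, (0 : κ → F)) + ((0 : κ → F), y) := by simp
    rw [this, map_add, map_add]
    congr 1
    have := B.pi_apply_eq_sum_univ x
    simpa [B, b] using this
  obtain ⟨y0, hy0⟩ := (Finite.injective_iff_surjective.1 hπ) b
  rw [← Ψ.toEquiv.sum_comp, Fintype.sum_prod_type, sum_comm]
  have key : ∀ y : κ → F, ∑ x : κ → F, chi ((∑ i, Ψ.toEquiv (x, y) (Sum.inl i) *
      π (Y (Ψ.toEquiv (x, y))) i + g (Y (Ψ.toEquiv (x, y)))) + ∑ i, a i * Ψ.toEquiv (x, y) i)
      = if y = y0 then 2 ^ Fintype.card κ * chi (g y + A (Ψ (0, y))) else 0 := by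
    intro y
    have : ∀ x : κ → F, (∑ i, Ψ.toEquiv (x, y) (Sum.inl i) *
      π (Y (Ψ.toEquiv (x, y))) i + g (Y (Ψ.toEquiv (x, y)))) + ∑ i, a i * Ψ.toEquiv (x, y) i
        = ∑ i, x i * (π y + b) i + (g y + A (Ψ (0, y))) := by
      intro x
      have : Ψ.toEquiv (x, y) = Ψ (x, y) := rfl
      rw [this, hA, hB, e2]
      simp only [e1, Pi.add_apply, mul_add, sum_add_distrib]
      ring
    simp only [this, chi_add (∑ i, _)]
    rw [← sum_mul, char_sum]
    have h2 : π y + b = 0 ↔ y = y0 := by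
      constructor
      · intro h
        apply hπ
        rw [hy0]
        funext i
        have := congrFun h i
        simp only [Pi.add_apply, Pi.zero_apply] at this
        revert this
        generalize π y i = u
        generalize b i = w
        revert u w
        decide
      · rintro rfl
        rw [hy0]
        funext i
        simp only [Pi.add_apply, Pi.zero_apply]
        generalize b i = w
        revert w
        decide
    simp only [h2]
    split_ifs <;> simp
  simp only [key]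
  rw [sum_ite_eq']
  simp only [mem_univ, if_true, mul_pow, chi_sq, Fintype.card_sum]
  ring

lemma hb_of_mm {κ : Type} [Fintype κ] [DecidableEq κ] {k : ℕ} (Y : (κ ⊕ κ → F) →ₗ[F] (κ → F))
    (hY : ∀ z, (∀ i, z (Sum.inl i) = 0) → Y z = 0 → z = 0)
    (π : (κ → F) → (κ → F)) (hπ : Function.Injective π) (g : (κ → F) → F)
    (hd : (fun z : κ ⊕ κ → F => ∑ i, z (Sum.inl i) * π (Y z) i + g (Y z)) ∈ Deg (κ ⊕ κ) k)
    (h0 : ∀ z : κ ⊕ κ → F, wt z < k → ∑ i, z (Sum.inl i) * π (Y z) i + g (Y z) = 0) :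
    HB (κ ⊕ κ) k := by
  obtain ⟨S, hS, hf⟩ := hom hd h0
  refine ⟨S, hS, fun a => ?_⟩
  rw [← mm Y hY π hπ g a]
  simp only [← hf]

lemma hb_equiv {ι ι' : Type} [Fintype ι] [DecidableEq ι] [Fintype ι'] [DecidableEq ι'] {k : ℕ}
    (e : ι ≃ ι') (h : HB ι k) : HB ι' k := by
  obtain ⟨S, hS, hf⟩ := h
  refine ⟨S.map (Finset.mapEmbedding e.toEmbedding).toEmbedding, ?_, fun a => ?_⟩
  · intro s hs
    obtain ⟨t, ht, rfl⟩ := mem_map.1 hs
    simpa using hS t ht
  · rw [← Fintype.card_congr e, ← hf (a ∘ e), ← (e.arrowCongr (Equiv.refl F)).sum_comp]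
    congr 1
    refine sum_congr rfl fun x _ => ?_
    congr 2
    · rw [sum_map]
      refine sum_congr rfl fun s _ => ?_
      simp
    · rw [← e.sum_comp]
      simp

lemma hb_sum {ι ι' : Type} [Fintype ι] [DecidableEq ι] [Fintype ι'] [DecidableEq ι'] {k : ℕ}
    (hk : 0 < k) (h : HB ι k) (h' : HB ι' k) : HB (ι ⊕ ι') k := by
  obtain ⟨S, hS, hf⟩ := h
  obtain ⟨S', hS', hf'⟩ := h'
  let e1 : Finset ι ↪ Finset (ι ⊕ ι') := (Finset.mapEmbedding Function.Embedding.inl).toEmbedding
  let e2 : Finset ι' ↪ Finset (ι ⊕ ι') := (Finset.mapEmbedding Function.Embedding.inr).toEmbedding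
  have hd : Disjoint (S.map e1) (S'.map e2) := by
    rw [disjoint_left]
    intro s h1 h2
    obtain ⟨t, ht, rfl⟩ := mem_map.1 h1
    obtain ⟨t', ht', h3⟩ := mem_map.1 h2
    obtain ⟨i, hi⟩ : t.Nonempty := card_pos.1 (by rw [hS t ht]; exact hk)
    have : Sum.inl i ∈ e1 t := by simpa [e1] using hi
    rw [← h3] at this
    simp [e2] at this
  refine ⟨S.map e1 ∪ S'.map e2, ?_, fun a => ?_⟩
  · intro s hs
    rcases mem_union.1 hs with hs | hs
    · obtain ⟨t, ht, rfl⟩ := mem_map.1 hs
      simpa [e1] using hS t ht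
    · obtain ⟨t, ht, rfl⟩ := mem_map.1 hs
      simpa [e2] using hS' t ht
  · rw [Fintype.card_sum, pow_add, ← hf (a ∘ Sum.inl), ← hf' (a ∘ Sum.inr), ← mul_pow,
      sum_mul_sum, ← (Equiv.sumArrowEquivProdArrow ι ι' F).symm.sum_comp, Fintype.sum_prod_type]
    congr 1
    refine sum_congr rfl fun x _ => sum_congr rfl fun y _ => ?_
    rw [← chi_add, sum_union hd, sum_map, sum_map, Fintype.sum_sum_type]
    congr 1
    simp [e1, e2]
    ring

lemma choose_odd (a w : ℕ) (h1 : 2 ^ a ≤ w) (h2 : w < 2 * 2 ^ a) : (w.choose (2 ^ a) : F) = 1 := by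
  obtain ⟨t, rfl⟩ := Nat.exists_eq_add_of_le h1
  rw [Nat.add_choose_eq, Nat.cast_sum, sum_eq_single (2 ^ a, 0)]
  · simp
  · rintro ⟨i, j⟩ hij hne
    have hij' : i + j = 2 ^ a := by simpa using hij
    by_cases hi : i = 0
    · have : t.choose j = 0 := Nat.choose_eq_zero_of_lt (by omega)
      simp [this]
    · have hi2 : i ≠ 2 ^ a := by
        rintro rfl
        apply hne
        simp; omega
      have : 2 ∣ (2 ^ a).choose i := Nat.prime_two.dvd_choose_pow hi hi2
      rw [Nat.cast_mul, (ZMod.natCast_eq_zero_iff _ _).2 this, zero_mul]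
  · simp

/-- the decoder: with `2 r - 1` checks `x + ρ j` and fewer than `r` errors among the `ρ j`. -/
lemma decode (a : ℕ) {J : Type} [Fintype J] [DecidableEq J] (hJ : Fintype.card J + 1 = 2 * 2 ^ a)
    (x : F) (ρ : J → F) (h : wt ρ < 2 ^ a) : esym (2 ^ a) (fun j => ρ j + x) = x := by
  rw [esym_eq]
  by_cases hx : x = 0
  · subst hx
    simp only [add_zero]
    rw [Nat.choose_eq_zero_of_lt h]; simp
  · rw [eq_one_of_ne hx]
    have : wt (fun j => ρ j + 1) + wt ρ = Fintype.card J := by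
      have h3 : ∀ u : F, (u + 1 ≠ 0) ↔ ¬ (u ≠ 0) := by decide
      simp only [wt, h3]
      rw [add_comm, card_filter_add_card_filter_not]
      simp
    apply choose_odd <;> omega

section Loc
variable {G I ι : Type} [AddCommGroup G] [DecidableEq G] [Fintype I] [DecidableEq I]
  [Fintype ι] [DecidableEq ι]
variable (γ : I → G) (bs : ι → G) (O : ι → I → Bool)

def vv (z : ι → F) (b : G) : F :=
  ∑ P, (if ∃ s, O P s = true ∧ b = bs P + γ s then 1 else 0) * z P

def RR (z : ι → F) (a : G) (s : I) : F :=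
  ∑ P, (if bs P ≠ a ∧ ∃ s', O P s' = true ∧ a + γ s = bs P + γ s' then 1 else 0) * z P

def Sidon : Prop := ∀ s t s' t', γ s + γ t' = γ t + γ s' → s = t ∨ s = s'

lemma vv_split (h : Sidon γ) (z : ι → F) (a : G) (s : I) :
    vv γ bs O z (a + γ s) = RR γ bs O z a s + ∑ P, if bs P = a ∧ O P s = true then z P else 0 := by
  rw [vv, RR, ← sum_add_distrib]
  refine sum_congr rfl fun P _ => ?_
  by_cases hb : bs P = a
  · have : (∃ s', O P s' = true ∧ a + γ s = bs P + γ s') ↔ O P s = true := by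
      constructor
      · rintro ⟨s', h1, h2⟩
        rw [hb, add_right_inj] at h2
        have := h s s' s' s' (by rw [h2])
        rw [or_self] at this
        rwa [this]
      · intro h1; exact ⟨s, h1, by rw [hb]⟩
    simp only [this]
    simp [hb]
  · simp [hb]

lemma count (h : Sidon γ) (z : ι → F) (a : G) :
    wt (RR γ bs O z a) + (univ.filter (fun P => bs P = a ∧ z P ≠ 0)).card ≤ wt z := by
  have ex : ∀ s, RR γ bs O z a s ≠ 0 →
      ∃ P, z P ≠ 0 ∧ bs P ≠ a ∧ ∃ s', a + γ s = bs P + γ s' := by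
    intro s hs
    obtain ⟨P, -, hP⟩ := exists_ne_zero_of_sum_ne_zero hs
    refine ⟨P, right_ne_zero_of_mul hP, ?_⟩
    have := left_ne_zero_of_mul hP
    split_ifs at this with h1
    · obtain ⟨h1, s', -, h2⟩ := h1
      exact ⟨h1, s', h2⟩
    · exact absurd rfl this
  choose f hf using ex
  have h1 : wt (RR γ bs O z a) ≤ (univ.filter (fun P => bs P ≠ a ∧ z P ≠ 0)).card := by
    rw [wt, ← Fintype.card_subtype, ← Fintype.card_subtype]
    refine Fintype.card_le_of_injective
      (fun s => ⟨f s.1 s.2, (hf s.1 s.2).2.1, (hf s.1 s.2).1⟩) ?_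
    rintro ⟨s, hs⟩ ⟨t, ht⟩ hst
    have e : f s hs = f t ht := congrArg Subtype.val hst
    obtain ⟨-, n1, s', e1⟩ := hf s hs
    obtain ⟨-, -, t', e2⟩ := hf t ht
    rw [← e] at e2
    have e3 : γ s + γ t' = γ t + γ s' := by
      have : γ s = bs (f s hs) + γ s' - a := by rw [← e1]; abel
      have h4 : γ t = bs (f s hs) + γ t' - a := by rw [← e2]; abel
      rw [this, h4]; abel
    rcases h _ _ _ _ e3 with h5 | h5
    · exact Subtype.ext h5
    · subst h5
      exact absurd (add_right_cancel e1).symm n1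
  have h2 := card_filter_add_card_filter_not (s := univ.filter (fun P => z P ≠ 0))
    (fun P => bs P = a)
  rw [filter_filter, filter_filter] at h2
  simp only [and_comm (a := z _ ≠ 0)] at h2
  unfold wt at *
  simp only [ne_eq] at *
  omega

end Loc

lemma sidon_exists (I : Type) [Fintype I] (o : I) : ∃ N : ℕ, 0 < N ∧ ∀ ρ : ℕ, N ≤ ρ →
    ∃ γ : I → ZMod ρ, γ o = 0 ∧ Sidon γ := by
  set n := Fintype.card I
  let e := Fintype.equivFin I
  let c : I → ℕ := fun s => (e s).val + 2 * n * (e s).val ^ 2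
  have hc : ∀ s, c s ≤ n + 2 * n * n ^ 2 := by
    intro s
    have := (e s).isLt.le
    simp only [c]
    gcongr
  refine ⟨2 * (n + 2 * n * n ^ 2) + 1, by omega, fun ρ hρ => ⟨fun s => (c s : ZMod ρ) - c o, by simp, ?_⟩⟩
  intro s t s' t' h
  have h1 : ((c s + c t' : ℕ) : ZMod ρ) = ((c t + c s' : ℕ) : ZMod ρ) := by
    push_cast
    linear_combination h
  rw [ZMod.natCast_eq_natCast_iff'] at h1
  have b1 := hc s
  have b2 := hc t
  have b3 := hc s'
  have b4 := hc t'
  rw [Nat.mod_eq_of_lt (by omega), Nat.mod_eq_of_lt (by omega)] at h1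
  have l1 := (e s).isLt
  have l2 := (e t).isLt
  have l3 := (e s').isLt
  have l4 := (e t').isLt
  simp only [c] at h1
  have inj : ∀ u w : I, (e u).val = (e w).val → u = w := fun u w h => e.injective (Fin.ext h)
  generalize hi : (e s).val = i at *
  generalize hj : (e t).val = j at *
  generalize hk : (e s').val = k at *
  generalize (e t').val = l at *
  have hA : i ^ 2 + l ^ 2 = j ^ 2 + k ^ 2 := by
    by_contra hne
    rcases lt_or_gt_of_ne hne with h2 | h2 <;> nlinarith
  have hB : i + l = j + k := by nlinarith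
  have : ((i : ℤ) - j) * ((i : ℤ) - k) = 0 := by
    have hA' : (i : ℤ) ^ 2 + l ^ 2 = j ^ 2 + k ^ 2 := by exact_mod_cast hA
    have hB' : (l : ℤ) = j + k - i := by omega
    rw [hB'] at hA'
    linarith
  rcases mul_eq_zero.1 this with h2 | h2
  · left; apply inj; omega
  · right; apply inj; omega

end Pool.Agent.H228.Bent
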