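import Pool.Agent.H228.HBent1

set_option synthInstance.maxSize 4000
set_option linter.unusedSectionVars false

/-! Homogeneous bent functions of degree seven: gates and local analysis. -/

namespace Pool.Agent.H228.Bent

open Finset

lemma add_self' (a : F) : a + a = 0 := by revert a; decide

lemma wt_elim {I J : Type} [Fintype I] [DecidableEq I] [Fintype J] [DecidableEq J] (R : I → F)
    (S : J → F) : wt (Sum.elim R S) = wt R + wt S := by
  simp only [wt, card_filter, Fintype.sum_sum_type, Sum.elim_inl, Sum.elim_inr]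
  congr

/-- number of nonzero entries with a given key -/
def wk {I K : Type} [Fintype I] [DecidableEq I] [DecidableEq K] (R : I → F) (key : I → K)
    (k : K) : ℕ := (univ.filter (fun s => key s = k ∧ R s ≠ 0)).card

lemma wk_ge {I J K : Type} [Fintype I] [DecidableEq I] [Fintype J] [DecidableEq J] [DecidableEq K]
    (R : I → F) (key : I → K) (k : K) (φ : J → I) (hφ : Function.Injective φ)
    (hk : ∀ j, key (φ j) = k) : wt (fun j => R (φ j)) ≤ wk R key k := by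
  rw [wt, wk, ← card_image_of_injective _ hφ]
  apply card_le_card
  intro s hs
  obtain ⟨j, hj, rfl⟩ := mem_image.1 hs
  simpa [hk j] using hj

lemma sum_wk {I K : Type} [Fintype I] [DecidableEq I] [DecidableEq K] (R : I → F) (key : I → K)
    (S : Finset K) : ∑ k ∈ S, wk R key k ≤ wt R := by
  have h1 : ∑ k ∈ S, wk R key k = (univ.filter (fun s => key s ∈ S ∧ R s ≠ 0)).card := by
    rw [card_eq_sum_card_fiberwise (f := key) (t := S)]
    · refine sum_congr rfl fun k hk => ?_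
      rw [wk, filter_filter]
      congr 1
      ext s
      simp only [mem_filter, mem_univ, true_and]
      constructor
      · rintro ⟨rfl, h⟩; exact ⟨⟨hk, h⟩, rfl⟩
      · rintro ⟨⟨_, h⟩, rfl⟩; exact ⟨rfl, h⟩
    · intro s hs
      simp only [coe_filter, mem_univ, true_and, Set.mem_ofPred_eq] at hs
      exact hs.1
  rw [h1, wt]
  apply card_le_card
  intro s hs
  simp only [mem_filter, mem_univ, true_and] at hs ⊢
  exact hs.2

lemma esym_compl {J : Type} [Fintype J] [DecidableEq J] (hJ : Fintype.card J = 7) (x : F)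
    (ρ : J → F) : esym 4 (fun j => ρ j + x) = esym 4 ρ + x := by
  by_cases hx : x = 0
  · subst hx; simp
  rw [eq_one_of_ne hx, esym_eq, esym_eq]
  have h : wt (fun j => ρ j + 1) + wt ρ = 7 := by
    have h3 : ∀ u : F, (u + 1 ≠ 0) ↔ ¬ (u ≠ 0) := by decide
    simp only [wt, h3]
    rw [add_comm, card_filter_add_card_filter_not, ← hJ]
    simp
  have h2 : wt ρ ≤ 7 := by omega
  obtain ⟨w, hw⟩ : ∃ w, w = wt ρ := ⟨_, rfl⟩
  rw [show wt (fun j => ρ j + 1) = 7 - w by omega, ← hw]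
  rw [← hw] at h2
  clear hw h hx
  interval_cases w <;> decide

lemma wt_of_esym {J : Type} [Fintype J] [DecidableEq J] (ρ : J → F) (h : esym 4 ρ ≠ 0) :
    4 ≤ wt ρ := by
  rw [esym_eq] at h
  by_contra h2
  rw [Nat.choose_eq_zero_of_lt (by omega)] at h
  simp at h

def mj (c : Fin 3 → F) : F := c 0 * c 1 + c 0 * c 2 + c 1 * c 2

lemma mj_add (c : Fin 3 → F) (x : F) : mj (fun i => c i + x) = mj c + x := by
  simp only [mj]
  generalize c 0 = u
  generalize c 1 = v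
  generalize c 2 = w
  revert u v w x
  decide

lemma wt_of_mj (c : Fin 3 → F) (h : mj c ≠ 0) : 2 ≤ wt c := by
  revert c
  decide

/-- the monomials of the two cubic forms -/
def tri (j : Fin 2) : List (Fin 8 × Fin 8 × Fin 8) :=
  if j = 0 then
    [(0, 1, 2), (0, 1, 3), (0, 1, 4), (0, 1, 5), (0, 1, 7), (0, 2, 4), (0, 2, 7), (0, 3, 5),
     (0, 3, 7), (0, 5, 7), (1, 2, 3), (1, 2, 4), (1, 2, 5), (1, 3, 7), (1, 4, 6), (1, 4, 7),
     (1, 5, 7), (1, 6, 7), (2, 3, 4), (2, 3, 5), (2, 4, 5), (2, 4, 6), (2, 4, 7), (2, 6, 7),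
     (3, 4, 5), (3, 4, 7), (4, 5, 7)]
  else
    [(0, 1, 2), (0, 1, 3), (0, 1, 4), (0, 1, 7), (0, 2, 3), (0, 2, 6), (0, 2, 7), (0, 3, 4),
     (0, 3, 6), (0, 4, 5), (0, 4, 7), (0, 5, 7), (0, 6, 7), (1, 2, 6), (1, 2, 7), (1, 3, 4),
     (1, 3, 6), (1, 3, 7), (1, 6, 7), (2, 3, 4), (2, 4, 6), (2, 4, 7), (3, 4, 5), (3, 4, 6),
     (3, 4, 7), (3, 5, 7), (4, 6, 7)]

/-- the two cubic forms -/
def P (j : Fin 2) (x : Fin 8 → F) : F :=
  ((tri j).map fun t => x t.1 * x t.2.1 * x t.2.2).sum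

set_option maxRecDepth 20000 in
lemma tri_ne : ∀ j, ∀ t ∈ tri j, t.1 ≠ t.2.1 ∧ t.1 ≠ t.2.2 ∧ t.2.1 ≠ t.2.2 := by decide

lemma list_sum_ne {α : Type} (l : List α) (f : α → F) (h : (l.map f).sum ≠ 0) :
    ∃ t ∈ l, f t ≠ 0 := by
  by_contra h2
  push Not at h2
  apply h
  apply List.sum_eq_zero
  intro x hx
  obtain ⟨t, ht, rfl⟩ := List.mem_map.1 hx
  exact h2 t ht

lemma wt_of_P (j : Fin 2) (x : Fin 8 → F) (h : P j x ≠ 0) : 3 ≤ wt x := by
  obtain ⟨t, ht, h1⟩ := list_sum_ne _ _ h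
  obtain ⟨n1, n2, n3⟩ := tri_ne j t ht
  have e1 : x t.1 ≠ 0 := fun h => h1 (by rw [h]; ring)
  have e2 : x t.2.1 ≠ 0 := fun h => h1 (by rw [h]; ring)
  have e3 : x t.2.2 ≠ 0 := fun h => h1 (by rw [h]; ring)
  have : ({t.1, t.2.1, t.2.2} : Finset (Fin 8)).card = 3 := card_eq_three.2 ⟨_, _, _, n1, n2, n3, rfl⟩
  rw [← this, wt]
  apply card_le_card
  intro i hi
  simp only [mem_insert, mem_singleton] at hi
  rcases hi with rfl | rfl | rfl <;> simpa

/-- the eight arguments of the cubic forms in terms of the gate variables and the cells -/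
def gx (v : Fin 2 → F) (c : Fin 6 → F) : Fin 8 → F :=
  ![v 0, v 1, c 0 + v 1, c 1 + v 0, c 2 + v 0 + v 1, c 3 + v 0, c 4 + v 1, c 5 + v 0 + v 1]

def g0 (c : Fin 6 → F) : F :=
  c 0 * c 1 * c 2 + c 0 * c 1 * c 3 + c 0 * c 2 * c 3 + c 0 * c 2 * c 4 + c 0 * c 2 * c 5
    + c 0 * c 4 * c 5 + c 1 * c 2 * c 3 + c 1 * c 2 * c 5 + c 2 * c 3 * c 5

def g1 (c : Fin 6 → F) : F :=
  c 0 * c 1 * c 2 + c 0 * c 2 * c 4 + c 0 * c 2 * c 5 + c 1 * c 2 * c 3 + c 1 * c 2 * c 4
    + c 1 * c 2 * c 5 + c 1 * c 3 * c 5 + c 2 * c 4 * c 5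

lemma P0_gx (v : Fin 2 → F) (c : Fin 6 → F) :
    P 0 (gx v c) = v 0 * c 2 + v 1 * (1 + c 2 + c 0 * c 2) + g0 c := by
  simp only [P, tri, if_true, List.map_cons, List.map_nil, List.sum_cons, List.sum_nil, gx, g0]
  simp only [Matrix.cons_val]
  generalize v 0 = a
  generalize v 1 = b
  generalize c 0 = c0
  generalize c 1 = c1
  generalize c 2 = c2
  generalize c 3 = c3
  generalize c 4 = c4
  generalize c 5 = c5
  revert a b c0 c1 c2 c3 c4 c5
  decide

lemma P1_gx (v : Fin 2 → F) (c : Fin 6 → F) :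
    P 1 (gx v c) = v 0 * (1 + c 2 + c 1 * c 2) + v 1 * (c 2 + c 0 * c 1) + g1 c := by
  have h10 : ¬ ((1 : Fin 2) = 0) := by decide
  simp only [P, tri, if_neg h10, List.map_cons, List.map_nil, List.sum_cons, List.sum_nil, gx, g1]
  simp only [Matrix.cons_val]
  generalize v 0 = a
  generalize v 1 = b
  generalize c 0 = c0
  generalize c 1 = c1
  generalize c 2 = c2
  generalize c 3 = c3
  generalize c 4 = c4
  generalize c 5 = c5
  revert a b c0 c1 c2 c3 c4 c5
  decide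

lemma P_gx_inj (v v' : Fin 2 → F) (c : Fin 6 → F) (h : ∀ j, P j (gx v c) = P j (gx v' c)) :
    v = v' := by
  have h0 := h 0
  have h1 := h 1
  rw [P0_gx, P0_gx] at h0
  rw [P1_gx, P1_gx] at h1
  have key : ∀ a b a' b' c0 c1 c2 s t : F, a * c2 + b * (1 + c2 + c0 * c2) + s
      = a' * c2 + b' * (1 + c2 + c0 * c2) + s →
      a * (1 + c2 + c1 * c2) + b * (c2 + c0 * c1) + t
      = a' * (1 + c2 + c1 * c2) + b' * (c2 + c0 * c1) + t → a = a' ∧ b = b' := by
    decide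
  obtain ⟨e0, e1⟩ := key _ _ _ _ _ _ _ _ _ h0 h1
  funext i
  fin_cases i
  · exact e0
  · exact e1

end Pool.Agent.H228.Bent
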