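import Pool.Agent.H228.HBent7

set_option synthInstance.maxSize 4000
set_option linter.unusedSectionVars false

namespace Pool.Agent.H228.Bent

open Finset

section Fam7

variable {G T : Type} [AddCommGroup G] [DecidableEq G] [Fintype G] [Fintype T] [DecidableEq T]

abbrev KK (G T : Type) := G ⊕ G × T × Fin 2
abbrev II (T : Type) := Option ((Option T × Fin 3) ⊕ (Fin 7 ⊕ (T × Fin 6 ⊕ T × Fin 2 × Fin 7)))

def sM (o : Option T) (i : Fin 3) : II T := some (Sum.inl (o, i))
def sC (i : Fin 7) : II T := some (Sum.inr (Sum.inl i))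
def sU (τ : T) (c : Fin 6) : II T := some (Sum.inr (Sum.inr (Sum.inl (τ, c))))
def sD (τ : T) (j : Fin 2) (i : Fin 7) : II T := some (Sum.inr (Sum.inr (Sum.inr (τ, j, i))))

def bs : KK G T ⊕ KK G T → G :=
  Sum.elim (Sum.elim id Prod.fst) (Sum.elim id Prod.fst)

/-- which gate variables are contained in which control cell -/
def pat : Fin 6 → Fin 2 → Bool :=
  ![![false, true], ![true, false], ![true, true], ![true, false], ![false, true], ![true, true]]

def O : KK G T ⊕ KK G T → II T → Bool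
  | Sum.inl (Sum.inl _), some (Sum.inl _) => true
  | Sum.inl (Sum.inl _), some (Sum.inr (Sum.inl _)) => true
  | Sum.inl (Sum.inr e), some (Sum.inr (Sum.inr (Sum.inr t))) =>
      decide (e.2.1 = t.1) && decide (e.2.2 = t.2.1)
  | Sum.inr (Sum.inl _), none => true
  | Sum.inr (Sum.inr e), some (Sum.inr (Sum.inr (Sum.inl t))) =>
      decide (e.2.1 = t.1) && pat t.2 e.2.2
  | _, _ => false

def YY (γ : II T → G) : (KK G T ⊕ KK G T → F) →ₗ[F] (KK G T → F) where
  toFun z := Sum.elim (vv γ bs O z) (fun e => z (Sum.inr (Sum.inr e)))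
  map_add' z w := by
    funext b
    rcases b with b | b
    · simp only [vv, Pi.add_apply, Sum.elim_inl, mul_add, sum_add_distrib]
    · simp
  map_smul' c z := by
    funext b
    rcases b with b | b
    · simp only [vv, Pi.smul_apply, smul_eq_mul, mul_sum, mul_left_comm, RingHom.id_apply,
        Sum.elim_inl]
    · simp

def mm3 (γ : II T → G) (y : KK G T → F) (a : G) (o : Option T) : F :=
  mj (fun i => y (Sum.inl (a + γ (sM o i))))

def ux (γ : II T → G) (y : KK G T → F) (a : G) (τ : T) : Fin 8 → F :=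
  gx (fun i => y (Sum.inr (a, τ, i))) (fun c => y (Sum.inl (a + γ (sU τ c))))

def pp (γ : II T → G) (y : KK G T → F) (e : G × T × Fin 2) : F :=
  P e.2.2 (ux γ y e.1 e.2.1)
    + (if e.2.2 = 0 then y (Sum.inl e.1) * (mm3 γ y e.1 none + mm3 γ y e.1 (some e.2.1)) else 0)

def pi7 (γ : II T → G) (t1 t2 : T) (y : KK G T → F) : KK G T → F :=
  Sum.elim (fun a => y (Sum.inl a) + (pp γ y (a, t1, 0) + pp γ y (a, t2, 0)
    + pp γ y (a, t1, 0) * pp γ y (a, t2, 0))) (pp γ y)

lemma pi7_inj (γ : II T → G) (t1 t2 : T) : Function.Injective (pi7 γ t1 t2) := by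
  intro y y' h
  have h1 : pp γ y = pp γ y' := funext fun e => congrFun h (Sum.inr e)
  have h2 : ∀ a, y (Sum.inl a) = y' (Sum.inl a) := by
    intro a
    have := congrFun h (Sum.inl a)
    simp only [pi7, Sum.elim_inl, h1] at this
    exact add_right_cancel this
  funext b
  rcases b with b | ⟨a, τ, i⟩
  · exact h2 b
  · have h3 : (fun i => y (Sum.inr (a, τ, i))) = fun i => y' (Sum.inr (a, τ, i)) := by
      apply P_gx_inj _ _ (fun c => y (Sum.inl (a + γ (sU τ c))))
      intro j
      have h4 := congrFun h1 (a, τ, j)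
      simp only [pp, ux, mm3, h2] at h4 ⊢
      exact add_right_cancel h4
    exact congrFun h3 i

/-- local variables at the base point `a` -/
def loc (γ : II T → G) (z : KK G T ⊕ KK G T → F) (a : G) :
    II T ⊕ (KK G T ⊕ KK G T) → F :=
  Sum.elim (RR γ bs O z a) (fun P => if bs P = a then z P else 0)

lemma loc_le (γ : II T → G) (hS : Sidon γ) (z : KK G T ⊕ KK G T → F) (a : G) :
    wt (loc γ z a) ≤ wt z := by
  rw [loc, wt_elim]
  refine le_trans (le_of_eq ?_) (count γ bs O hS z a)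
  congr 1
  rw [wt]
  congr 1
  ext P
  simp

inductive Key (T : Type)
  | x | m (o : Option T) | u (τ : T) | c | d (τ : T) (j : Fin 2) | z | o
deriving DecidableEq

def key : II T ⊕ (KK G T ⊕ KK G T) → Key T
  | Sum.inl none => Key.x
  | Sum.inl (some (Sum.inl t)) => Key.m t.1
  | Sum.inl (some (Sum.inr (Sum.inl _))) => Key.c
  | Sum.inl (some (Sum.inr (Sum.inr (Sum.inl t)))) => Key.u t.1
  | Sum.inl (some (Sum.inr (Sum.inr (Sum.inr t)))) => Key.d t.1 t.2.1
  | Sum.inr (Sum.inl (Sum.inl _)) => Key.z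
  | Sum.inr (Sum.inl (Sum.inr _)) => Key.o
  | Sum.inr (Sum.inr (Sum.inl _)) => Key.x
  | Sum.inr (Sum.inr (Sum.inr e)) => Key.u e.2.1

lemma v0 (γ : II T → G) (h0 : γ none = 0) (hS : Sidon γ) (z : KK G T ⊕ KK G T → F) (a : G) :
    YY γ z (Sum.inl a) = RR γ bs O z a none + z (Sum.inr (Sum.inl a)) := by
  have := vv_split γ bs O hS z a none
  rw [h0, add_zero] at this
  rw [YY, LinearMap.coe_mk, AddHom.coe_mk, Sum.elim_inl, this]
  congr 1
  rw [Fintype.sum_sum_type, Fintype.sum_sum_type, Fintype.sum_sum_type]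
  simp [bs, O]

lemma vM (γ : II T → G) (hS : Sidon γ) (z : KK G T ⊕ KK G T → F) (a : G) (o : Option T)
    (i : Fin 3) : YY γ z (Sum.inl (a + γ (sM o i)))
      = RR γ bs O z a (sM o i) + z (Sum.inl (Sum.inl a)) := by
  have := vv_split γ bs O hS z a (sM o i)
  rw [YY, LinearMap.coe_mk, AddHom.coe_mk, Sum.elim_inl, this]
  congr 1
  rw [Fintype.sum_sum_type, Fintype.sum_sum_type, Fintype.sum_sum_type]
  simp [bs, O, sM]

lemma vC (γ : II T → G) (hS : Sidon γ) (z : KK G T ⊕ KK G T → F) (a : G) (i : Fin 7) :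
    YY γ z (Sum.inl (a + γ (sC i)))
      = RR γ bs O z a (sC i) + z (Sum.inl (Sum.inl a)) := by
  have := vv_split γ bs O hS z a (sC i)
  rw [YY, LinearMap.coe_mk, AddHom.coe_mk, Sum.elim_inl, this]
  congr 1
  rw [Fintype.sum_sum_type, Fintype.sum_sum_type, Fintype.sum_sum_type]
  simp [bs, O, sC]

lemma vD (γ : II T → G) (hS : Sidon γ) (z : KK G T ⊕ KK G T → F) (a : G) (τ : T) (j : Fin 2)
    (i : Fin 7) : YY γ z (Sum.inl (a + γ (sD τ j i)))
      = RR γ bs O z a (sD τ j i) + z (Sum.inl (Sum.inr (a, τ, j))) := by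
  have := vv_split γ bs O hS z a (sD τ j i)
  rw [YY, LinearMap.coe_mk, AddHom.coe_mk, Sum.elim_inl, this]
  congr 1
  rw [Fintype.sum_sum_type, Fintype.sum_sum_type, Fintype.sum_sum_type]
  simp only [bs, O, sD, Sum.elim_inl, Sum.elim_inr, Fintype.sum_prod_type, Bool.and_eq_true,
    decide_eq_true_eq, Bool.false_eq_true, and_false, if_false, sum_const_zero, zero_add, add_zero]
  rw [sum_eq_single a, sum_eq_single τ, sum_eq_single j]
  · simp
  · intro j' _ hj; simp [hj]
  · simp
  · intro τ' _ hj; simp [hj]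
  · simp
  · intro τ' _ hj; simp [hj]
  · simp

lemma vU (γ : II T → G) (hS : Sidon γ) (z : KK G T ⊕ KK G T → F) (a : G) (τ : T) (c : Fin 6) :
    YY γ z (Sum.inl (a + γ (sU τ c)))
      = RR γ bs O z a (sU τ c) + ((if pat c 0 then z (Sum.inr (Sum.inr (a, τ, 0))) else 0)
        + (if pat c 1 then z (Sum.inr (Sum.inr (a, τ, 1))) else 0)) := by
  have := vv_split γ bs O hS z a (sU τ c)
  rw [YY, LinearMap.coe_mk, AddHom.coe_mk, Sum.elim_inl, this]
  congr 1
  rw [Fintype.sum_sum_type, Fintype.sum_sum_type, Fintype.sum_sum_type]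
  simp only [bs, O, sU, Sum.elim_inl, Sum.elim_inr, Fintype.sum_prod_type, Bool.and_eq_true,
    decide_eq_true_eq, Bool.false_eq_true, and_false, if_false, sum_const_zero, zero_add, add_zero]
  rw [sum_eq_single a, sum_eq_single τ, Fin.sum_univ_two]
  · simp
  · intro τ' _ hj; simp [hj]
  · simp
  · intro τ' _ hj; simp [hj]
  · simp

end Fam7

end Pool.Agent.H228.Bent
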