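import Pool.Agent.H228.HBent7b

set_option synthInstance.maxSize 4000
set_option linter.unusedSectionVars false

namespace Pool.Agent.H228.Bent

open Finset

section Fam7

variable {G T : Type} [AddCommGroup G] [DecidableEq G] [Fintype G] [Fintype T] [DecidableEq T]

def uL (a : G) (τ : T) : Fin 8 → II T ⊕ (KK G T ⊕ KK G T) :=
  ![Sum.inr (Sum.inr (Sum.inr (a, τ, 0))), Sum.inr (Sum.inr (Sum.inr (a, τ, 1))),
    Sum.inl (sU τ 0), Sum.inl (sU τ 1), Sum.inl (sU τ 2), Sum.inl (sU τ 3), Sum.inl (sU τ 4),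
    Sum.inl (sU τ 5)]

lemma uL_inj (a : G) (τ : T) : Function.Injective (uL a τ) := by
  intro i j h
  fin_cases i <;> fin_cases j <;> simp [uL, sU] at h ⊢

lemma uL_key (a : G) (τ : T) (i : Fin 8) : key (uL a τ i) = Key.u τ := by
  fin_cases i <;> simp [uL, sU, key]

lemma ux_eq (γ : II T → G) (hS : Sidon γ) (z : KK G T ⊕ KK G T → F) (a : G) (τ : T) :
    ux γ (YY γ z) a τ = fun k => loc γ z a (uL a τ k) := by
  have e1 : ∀ e, YY γ z (Sum.inr e) = z (Sum.inr (Sum.inr e)) := fun _ => rfl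
  funext k
  simp only [ux, gx, vU γ hS, e1]
  have h0 := add_self' (z (Sum.inr (Sum.inr (a, τ, 0))))
  have h1 := add_self' (z (Sum.inr (Sum.inr (a, τ, 1))))
  fin_cases k <;> simp [uL, loc, bs, pat]
  · linear_combination h1
  · linear_combination h0
  · linear_combination h0 + h1
  · linear_combination h0
  · linear_combination h1
  · linear_combination h0 + h1

def mR (γ : II T → G) (z : KK G T ⊕ KK G T → F) (a : G) (o : Option T) : F :=
  mj (fun i => RR γ bs O z a (sM o i))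

lemma mm3_eq (γ : II T → G) (hS : Sidon γ) (z : KK G T ⊕ KK G T → F) (a : G) (o : Option T) :
    mm3 γ (YY γ z) a o = mR γ z a o + z (Sum.inl (Sum.inl a)) := by
  simp only [mm3, mR, vM γ hS]
  exact mj_add _ _

def cR (γ : II T → G) (z : KK G T ⊕ KK G T → F) (a : G) : F :=
  esym 4 (fun i => RR γ bs O z a (sC i))

lemma cR_eq (γ : II T → G) (hS : Sidon γ) (z : KK G T ⊕ KK G T → F) (a : G) :
    esym 4 (fun i => YY γ z (Sum.inl (a + γ (sC i)))) = cR γ z a + z (Sum.inl (Sum.inl a)) := by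
  simp only [cR, vC γ hS]
  exact esym_compl (by simp) _ _

def dR (γ : II T → G) (z : KK G T ⊕ KK G T → F) (a : G) (τ : T) (j : Fin 2) : F :=
  esym 4 (fun i => RR γ bs O z a (sD τ j i))

lemma dR_eq (γ : II T → G) (hS : Sidon γ) (z : KK G T ⊕ KK G T → F) (a : G) (τ : T) (j : Fin 2) :
    esym 4 (fun i => YY γ z (Sum.inl (a + γ (sD τ j i))))
      = dR γ z a τ j + z (Sum.inl (Sum.inr (a, τ, j))) := by
  simp only [dR, vD γ hS]
  exact esym_compl (by simp) _ _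

def pR (γ : II T → G) (z : KK G T ⊕ KK G T → F) (a : G) (τ : T) (j : Fin 2) : F :=
  P j (fun k => loc γ z a (uL a τ k))

lemma wx (γ : II T → G) (h0 : γ none = 0) (hS : Sidon γ) (z : KK G T ⊕ KK G T → F) (a : G)
    (h : YY γ z (Sum.inl a) ≠ 0) : 1 ≤ wk (loc γ z a) key Key.x := by
  rw [v0 γ h0 hS] at h
  rw [wk, Nat.one_le_iff_ne_zero, Finset.card_ne_zero]
  by_cases h1 : RR γ bs O z a none = 0
  · rw [h1, zero_add] at h
    refine ⟨Sum.inr (Sum.inr (Sum.inl a)), ?_⟩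
    rw [mem_filter]
    exact ⟨mem_univ _, rfl, by simpa [loc, bs] using h⟩
  · refine ⟨Sum.inl none, ?_⟩
    rw [mem_filter]
    exact ⟨mem_univ _, rfl, by simpa [loc] using h1⟩

lemma wm (γ : II T → G) (z : KK G T ⊕ KK G T → F) (a : G) (o : Option T)
    (h : mR γ z a o ≠ 0) : 2 ≤ wk (loc γ z a) key (Key.m o) :=
  (wt_of_mj _ h).trans (wk_ge (loc γ z a) key (Key.m o) (fun i => Sum.inl (sM o i))
    (by intro i j h; simpa [sM] using h) (fun i => rfl))

lemma wu (γ : II T → G) (z : KK G T ⊕ KK G T → F) (a : G) (τ : T) (j : Fin 2)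
    (h : pR γ z a τ j ≠ 0) : 3 ≤ wk (loc γ z a) key (Key.u τ) :=
  (wt_of_P j _ h).trans (wk_ge (loc γ z a) key (Key.u τ) (uL a τ) (uL_inj a τ) (uL_key a τ))

lemma wc (γ : II T → G) (z : KK G T ⊕ KK G T → F) (a : G)
    (h : cR γ z a ≠ 0) : 4 ≤ wk (loc γ z a) key Key.c :=
  (wt_of_esym _ h).trans (wk_ge (loc γ z a) key Key.c (fun i => Sum.inl (sC i))
    (by intro i j h; simpa [sC] using h) (fun i => rfl))

lemma wd (γ : II T → G) (z : KK G T ⊕ KK G T → F) (a : G) (τ : T) (j : Fin 2)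
    (h : dR γ z a τ j ≠ 0) : 4 ≤ wk (loc γ z a) key (Key.d τ j) :=
  (wt_of_esym _ h).trans (wk_ge (loc γ z a) key (Key.d τ j) (fun i => Sum.inl (sD τ j i))
    (by intro i j h; simpa [sD] using h) (fun i => rfl))

lemma wz (γ : II T → G) (z : KK G T ⊕ KK G T → F) (a : G)
    (h : z (Sum.inl (Sum.inl a)) ≠ 0) : 1 ≤ wk (loc γ z a) key Key.z := by
  rw [wk, Nat.one_le_iff_ne_zero, Finset.card_ne_zero]
  refine ⟨Sum.inr (Sum.inl (Sum.inl a)), ?_⟩
  rw [mem_filter]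
  exact ⟨mem_univ _, rfl, by simpa [loc, bs] using h⟩

lemma pp_eq (γ : II T → G) (hS : Sidon γ) (z : KK G T ⊕ KK G T → F) (a : G) (τ : T)
    (j : Fin 2) : pp γ (YY γ z) (a, τ, j) = pR γ z a τ j
      + (if j = 0 then YY γ z (Sum.inl a) * ((mR γ z a none + z (Sum.inl (Sum.inl a)))
          + (mR γ z a (some τ) + z (Sum.inl (Sum.inl a)))) else 0) := by
  simp only [pp, ux_eq γ hS, mm3_eq γ hS, pR]

lemma edge_term (γ : II T → G) (h0 : γ none = 0) (hS : Sidon γ) (z : KK G T ⊕ KK G T → F)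
    (hz : wt z < 7) (a : G) (τ : T) (j : Fin 2) :
    z (Sum.inl (Sum.inr (a, τ, j))) * pp γ (YY γ z) (a, τ, j)
      + pp γ (YY γ z) (a, τ, j) * esym 4 (fun i => YY γ z (Sum.inl (a + γ (sD τ j i)))) = 0 := by
  rw [dR_eq γ hS]
  have hl := loc_le γ hS z a
  have hs := sum_wk (loc γ z a) key {Key.x, Key.m none, Key.m (some τ), Key.u τ, Key.d τ j}
  rw [sum_insert (by simp), sum_insert (by simp), sum_insert (by simp), sum_insert (by simp),
    sum_singleton] at hs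
  have e : z (Sum.inl (Sum.inr (a, τ, j))) * pp γ (YY γ z) (a, τ, j)
      + pp γ (YY γ z) (a, τ, j) * (dR γ z a τ j + z (Sum.inl (Sum.inr (a, τ, j))))
      = pp γ (YY γ z) (a, τ, j) * dR γ z a τ j := by
    linear_combination add_self' (pp γ (YY γ z) (a, τ, j) * z (Sum.inl (Sum.inr (a, τ, j))))
  rw [e]
  by_contra hne
  have hd := wd γ z a τ j (right_ne_zero_of_mul hne)
  have hp := left_ne_zero_of_mul hne
  rw [pp_eq γ hS] at hp
  by_cases hP : pR γ z a τ j = 0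
  · rw [hP, zero_add] at hp
    split_ifs at hp with hj
    · have hx := wx γ h0 hS z a (left_ne_zero_of_mul hp)
      have hm := right_ne_zero_of_mul hp
      by_cases h1 : mR γ z a none = 0
      · by_cases h2 : mR γ z a (some τ) = 0
        · rw [h1, h2] at hm
          exact hm (by linear_combination add_self' (z (Sum.inl (Sum.inl a))))
        · have := wm γ z a _ h2
          omega
      · have := wm γ z a _ h1
        omega
    · exact hp rfl
  · have := wu γ z a τ j hP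
    omega

set_option maxRecDepth 20000 in
lemma vkey : ∀ X m0 m1 m2 P1 P2 E z : F,
    (if X = 0 then 0 else 1) + ((if m0 = 0 then 0 else 2) + ((if m1 = 0 then 0 else 2)
      + ((if m2 = 0 then 0 else 2) + ((if P1 = 0 then 0 else 3) + ((if P2 = 0 then 0 else 3)
      + ((if E = 0 then 0 else 4) + (if z = 0 then 0 else 1))))))) < 7 →
    z * (X + ((P1 + X * ((m0 + z) + (m1 + z))) + (P2 + X * ((m0 + z) + (m2 + z)))
      + (P1 + X * ((m0 + z) + (m1 + z))) * (P2 + X * ((m0 + z) + (m2 + z)))))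
    + (X * ((m0 + z) * ((m1 + z) * (m2 + z)))
      + ((P1 + X * ((m0 + z) + (m1 + z))) + (P2 + X * ((m0 + z) + (m2 + z)))
          + X * ((m1 + z) + (m2 + z))) * (E + z)) = 0 := by
  decide

lemma ite_le {u : F} {k w : ℕ} (h : u ≠ 0 → k ≤ w) : (if u = 0 then 0 else k) ≤ w := by
  split_ifs with h1
  · exact Nat.zero_le _
  · exact h h1

def gA (γ : II T → G) (t1 t2 : T) (y : KK G T → F) (a : G) : F :=
  y (Sum.inl a) * (mm3 γ y a none * (mm3 γ y a (some t1) * mm3 γ y a (some t2)))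
    + (pp γ y (a, t1, 0) + pp γ y (a, t2, 0)
        + y (Sum.inl a) * (mm3 γ y a (some t1) + mm3 γ y a (some t2)))
      * esym 4 (fun i => y (Sum.inl (a + γ (sC i))))

lemma vert_term (γ : II T → G) (h0 : γ none = 0) (hS : Sidon γ) (t1 t2 : T) (ht : t1 ≠ t2)
    (z : KK G T ⊕ KK G T → F) (hz : wt z < 7) (a : G) :
    z (Sum.inl (Sum.inl a)) * pi7 γ t1 t2 (YY γ z) (Sum.inl a) + gA γ t1 t2 (YY γ z) a = 0 := by
  have hl := loc_le γ hS z a
  have hs := sum_wk (loc γ z a) key {Key.x, Key.m none, Key.m (some t1), Key.m (some t2),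
    Key.u t1, Key.u t2, Key.c, Key.z}
  rw [sum_insert (by simp), sum_insert (by simp), sum_insert (by simp [ht]),
    sum_insert (by simp), sum_insert (by simp [ht]), sum_insert (by simp),
    sum_insert (by simp), sum_singleton] at hs
  have k := vkey (YY γ z (Sum.inl a)) (mR γ z a none) (mR γ z a (some t1)) (mR γ z a (some t2))
    (pR γ z a t1 0) (pR γ z a t2 0) (cR γ z a) (z (Sum.inl (Sum.inl a))) (by
      have l1 := ite_le (wx γ h0 hS z a)
      have l2 := ite_le (wm γ z a none)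
      have l3 := ite_le (wm γ z a (some t1))
      have l4 := ite_le (wm γ z a (some t2))
      have l5 := ite_le (wu γ z a t1 0)
      have l6 := ite_le (wu γ z a t2 0)
      have l7 := ite_le (wc γ z a)
      have l8 := ite_le (wz γ z a)
      omega)
  rw [pi7, gA, Sum.elim_inl, cR_eq γ hS, pp_eq γ hS, pp_eq γ hS, mm3_eq γ hS, mm3_eq γ hS,
    mm3_eq γ hS]
  simp only [if_true]
  exact k

lemma Deg.add' {ι : Type} [Fintype ι] [DecidableEq ι] {d : ℕ} {f g : (ι → F) → F}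
    (hf : f ∈ Deg ι d) (hg : g ∈ Deg ι d) : (fun z => f z + g z) ∈ Deg ι d := add_mem hf hg

lemma Deg.mul' {ι : Type} [Fintype ι] [DecidableEq ι] {f g : (ι → F) → F} (d e : ℕ) {k : ℕ}
    (hf : f ∈ Deg ι d) (hg : g ∈ Deg ι e) (hk : d + e ≤ k) : (fun z => f z * g z) ∈ Deg ι k :=
  Deg.mono' hk (Deg.mul hf hg)

lemma Deg.sum' {ι A : Type} [Fintype ι] [DecidableEq ι] {d : ℕ} (s : Finset A)
    {f : A → (ι → F) → F} (hf : ∀ a, f a ∈ Deg ι d) : (fun z => ∑ a ∈ s, f a z) ∈ Deg ι d := by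
  have := Submodule.sum_mem (Deg ι d) (t := s) fun a _ => hf a
  convert this using 1
  funext z
  simp

lemma dY (γ : II T → G) (b : KK G T) :
    (fun z : KK G T ⊕ KK G T → F => YY γ z b) ∈ Deg (KK G T ⊕ KK G T) 1 := by
  rcases b with b | b
  · exact Deg.lin _
  · exact Deg.var _

lemma dmj {ι : Type} [Fintype ι] [DecidableEq ι] (c : Fin 3 → (ι → F) → F)
    (hc : ∀ i, c i ∈ Deg ι 1) : (fun z => mj (fun i => c i z)) ∈ Deg ι 2 := by
  unfold mj
  have h := fun i j => Deg.mul' (k := 2) 1 1 (hc i) (hc j) (by norm_num)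
  exact Deg.add' (Deg.add' (h 0 1) (h 0 2)) (h 1 2)

lemma dlist {ι : Type} [Fintype ι] [DecidableEq ι] (c : Fin 8 → (ι → F) → F)
    (hc : ∀ i, c i ∈ Deg ι 1) (l : List (Fin 8 × Fin 8 × Fin 8)) :
    (fun z => (l.map fun t => c t.1 z * c t.2.1 z * c t.2.2 z).sum) ∈ Deg ι 3 := by
  induction l with
  | nil =>
    have : (fun z : ι → F => (([] : List (Fin 8 × Fin 8 × Fin 8)).map
      fun t => c t.1 z * c t.2.1 z * c t.2.2 z).sum) = 0 := by funext z; simp
    rw [this]; exact zero_mem _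
  | cons t l ih =>
    simp only [List.map_cons, List.sum_cons]
    have h2 := Deg.mul' (k := 2) 1 1 (hc t.1) (hc t.2.1) (by norm_num)
    have h3 := Deg.mul' (k := 3) 2 1 h2 (hc t.2.2) (by norm_num)
    exact Deg.add' h3 ih

lemma dP {ι : Type} [Fintype ι] [DecidableEq ι] (j : Fin 2) (c : Fin 8 → (ι → F) → F)
    (hc : ∀ i, c i ∈ Deg ι 1) : (fun z => P j (fun i => c i z)) ∈ Deg ι 3 :=
  dlist c hc (tri j)

lemma dgx {ι : Type} [Fintype ι] [DecidableEq ι] (v : Fin 2 → (ι → F) → F)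
    (c : Fin 6 → (ι → F) → F) (hv : ∀ i, v i ∈ Deg ι 1) (hc : ∀ i, c i ∈ Deg ι 1) (k : Fin 8) :
    (fun z => gx (fun i => v i z) (fun i => c i z) k) ∈ Deg ι 1 := by
  fin_cases k
  · exact hv 0
  · exact hv 1
  · exact Deg.add' (hc 0) (hv 1)
  · exact Deg.add' (hc 1) (hv 0)
  · exact Deg.add' (Deg.add' (hc 2) (hv 0)) (hv 1)
  · exact Deg.add' (hc 3) (hv 0)
  · exact Deg.add' (hc 4) (hv 1)
  · exact Deg.add' (Deg.add' (hc 5) (hv 0)) (hv 1)

lemma dmm3 (γ : II T → G) (a : G) (o : Option T) :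
    (fun z : KK G T ⊕ KK G T → F => mm3 γ (YY γ z) a o) ∈ Deg (KK G T ⊕ KK G T) 2 :=
  dmj (fun i z => YY γ z (Sum.inl (a + γ (sM o i)))) fun _ => dY γ _

lemma dPx (γ : II T → G) (a : G) (τ : T) (j : Fin 2) : (fun z : KK G T ⊕ KK G T → F =>
    P j (ux γ (YY γ z) a τ)) ∈ Deg (KK G T ⊕ KK G T) 3 :=
  dP j (fun k z => ux γ (YY γ z) a τ k)
    (dgx (fun i z => YY γ z (Sum.inr (a, τ, i))) (fun c z => YY γ z (Sum.inl (a + γ (sU τ c))))
      (fun _ => dY γ _) (fun _ => dY γ _))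

lemma dXm (γ : II T → G) (a : G) (o o' : Option T) : (fun z : KK G T ⊕ KK G T → F =>
    YY γ z (Sum.inl a) * (mm3 γ (YY γ z) a o + mm3 γ (YY γ z) a o'))
      ∈ Deg (KK G T ⊕ KK G T) 3 := by
  have h1 := Deg.add' (dmm3 γ a o) (dmm3 γ a o')
  exact Deg.mul' 1 2 (dY γ (Sum.inl a : KK G T)) h1 (by norm_num)

lemma dpp (γ : II T → G) (a : G) (τ : T) (j : Fin 2) :
    (fun z : KK G T ⊕ KK G T → F => pp γ (YY γ z) (a, τ, j)) ∈ Deg (KK G T ⊕ KK G T) 3 := by
  have h1 := dPx γ a τ j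
  have h2 := dXm γ a none (some τ)
  by_cases hj : j = 0
  · have h3 := Deg.add' h1 h2
    have : (fun z : KK G T ⊕ KK G T → F => pp γ (YY γ z) (a, τ, j)) = fun z =>
      P j (ux γ (YY γ z) a τ)
        + YY γ z (Sum.inl a) * (mm3 γ (YY γ z) a none + mm3 γ (YY γ z) a (some τ)) := by
      funext z
      simp only [pp, if_pos hj]
    rw [this]
    exact h3
  · have : (fun z : KK G T ⊕ KK G T → F => pp γ (YY γ z) (a, τ, j)) = fun z =>
      P j (ux γ (YY γ z) a τ) := by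
      funext z
      simp only [pp, if_neg hj, add_zero]
    rw [this]
    exact h1

lemma dE (γ : II T → G) (a : G) (s : Fin 7 → II T) : (fun z : KK G T ⊕ KK G T → F =>
    esym 4 (fun i => YY γ z (Sum.inl (a + γ (s i))))) ∈ Deg (KK G T ⊕ KK G T) 4 :=
  Deg.esym 4 (fun i z => YY γ z (Sum.inl (a + γ (s i)))) fun _ => dY γ _

lemma dpi (γ : II T → G) (t1 t2 : T) (a : G) : (fun z : KK G T ⊕ KK G T → F =>
    pi7 γ t1 t2 (YY γ z) (Sum.inl a)) ∈ Deg (KK G T ⊕ KK G T) 6 := by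
  have d1 := dY γ (Sum.inl a : KK G T)
  have d3 := fun t => dpp γ a t 0
  have h1 := Deg.mul' (k := 6) 3 3 (d3 t1) (d3 t2) (by norm_num)
  have h2 := Deg.add' (Deg.add' (Deg.mono' (show 3 ≤ 6 by norm_num) (d3 t1))
    (Deg.mono' (show 3 ≤ 6 by norm_num) (d3 t2))) h1
  have h3 := Deg.add' (Deg.mono' (show 1 ≤ 6 by norm_num) d1) h2
  exact h3

lemma dgA (γ : II T → G) (t1 t2 : T) (a : G) : (fun z : KK G T ⊕ KK G T → F =>
    gA γ t1 t2 (YY γ z) a) ∈ Deg (KK G T ⊕ KK G T) 7 := by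
  have d1 := dY γ (Sum.inl a : KK G T)
  have d2 := fun o => dmm3 γ (a : G) (o : Option T)
  have d3 := fun t => dpp γ a t 0
  have h1 := Deg.mul' (k := 4) 2 2 (d2 (some t1)) (d2 (some t2)) (by norm_num)
  have h2 := Deg.mul' (k := 6) 2 4 (d2 none) h1 (by norm_num)
  have h3 := Deg.mul' (k := 7) 1 6 d1 h2 (by norm_num)
  have h4 := Deg.add' (Deg.add' (d3 t1) (d3 t2)) (dXm γ a (some t1) (some t2))
  have h5 := Deg.mul' (k := 7) 3 4 h4 (dE γ a sC) (by norm_num)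
  exact Deg.add' h3 h5

lemma dedge (γ : II T → G) (e : G × T × Fin 2) : (fun z : KK G T ⊕ KK G T → F =>
    pp γ (YY γ z) e * esym 4 (fun i => YY γ z (Sum.inl (e.1 + γ (sD e.2.1 e.2.2 i)))))
      ∈ Deg (KK G T ⊕ KK G T) 7 :=
  Deg.mul' 3 4 (dpp γ e.1 e.2.1 e.2.2) (dE γ e.1 (sD e.2.1 e.2.2)) (by norm_num)

lemma dzpi (γ : II T → G) (t1 t2 : T) (i : KK G T) : (fun z : KK G T ⊕ KK G T → F =>
    z (Sum.inl i) * pi7 γ t1 t2 (YY γ z) i) ∈ Deg (KK G T ⊕ KK G T) 7 := by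
  have dz : (fun z : KK G T ⊕ KK G T → F => z (Sum.inl i)) ∈ Deg (KK G T ⊕ KK G T) 1 :=
    Deg.var _
  rcases i with a | ⟨a, τ, j⟩
  · exact Deg.mul' 1 6 dz (dpi γ t1 t2 a) (by norm_num)
  · exact Deg.mul' 1 3 dz (dpp γ a τ j) (by norm_num)

lemma dall (γ : II T → G) (t1 t2 : T) : (fun z : KK G T ⊕ KK G T → F =>
    ∑ i, z (Sum.inl i) * pi7 γ t1 t2 (YY γ z) i + (∑ a, gA γ t1 t2 (YY γ z) a
      + ∑ e : G × T × Fin 2, pp γ (YY γ z) e
        * esym 4 (fun i => YY γ z (Sum.inl (e.1 + γ (sD e.2.1 e.2.2 i))))))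
      ∈ Deg (KK G T ⊕ KK G T) 7 := by
  have h1 := Deg.sum' univ (dzpi γ t1 t2)
  have h2 := Deg.sum' univ (dgA γ t1 t2)
  have h3 := Deg.sum' univ (dedge γ)
  exact Deg.add' h1 (Deg.add' h2 h3)

lemma fam7 (γ : II T → G) (h0 : γ none = 0) (hS : Sidon γ) (t1 t2 : T) (ht : t1 ≠ t2) :
    HB (KK G T ⊕ KK G T) 7 := by
  refine hb_of_mm (YY γ) ?_ (pi7 γ t1 t2) (pi7_inj γ t1 t2)
    (fun y => ∑ a, gA γ t1 t2 y a
      + ∑ e : G × T × Fin 2, pp γ y e * esym 4 (fun i => y (Sum.inl (e.1 + γ (sD e.2.1 e.2.2 i)))))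
    ?_ ?_
  · intro z hz hY
    have hv : ∀ e, z (Sum.inr (Sum.inr e)) = 0 := fun e => congrFun hY (Sum.inr e)
    funext Q
    rcases Q with Q | Q
    · exact hz Q
    · rcases Q with a | e
      · have h1 := congrFun hY (Sum.inl a)
        rw [v0 γ h0 hS] at h1
        have h2 : RR γ bs O z a none = 0 := by
          rw [RR]
          refine sum_eq_zero fun Q _ => ?_
          rcases Q with Q | Q
          · rw [hz, mul_zero]
          · rcases Q with b | e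
            · have : ¬ (bs (Sum.inr (Sum.inl b) : KK G T ⊕ KK G T) ≠ a ∧ ∃ s', O
                  (Sum.inr (Sum.inl b) : KK G T ⊕ KK G T) s' = true ∧
                  a + γ none = bs (Sum.inr (Sum.inl b) : KK G T ⊕ KK G T) + γ s') := by
                rintro ⟨n1, s', n2, n3⟩
                rcases s' with _ | s'
                · rw [h0, add_zero, add_zero] at n3
                  exact n1 n3.symm
                · simp [O] at n2
              rw [if_neg this, zero_mul]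
            · rw [hv, mul_zero]
        rw [h2, zero_add] at h1
        exact h1
      · exact hv e
  · exact dall γ t1 t2
  · intro z hz
    rw [Fintype.sum_sum_type, add_add_add_comm, ← sum_add_distrib, ← sum_add_distrib,
      sum_eq_zero (fun a _ => vert_term γ h0 hS t1 t2 ht z hz a), zero_add]
    exact sum_eq_zero fun e _ => edge_term γ h0 hS z hz e.1 e.2.1 e.2.2

end Fam7

lemma some7 (t : ℕ) : ∃ N, ∀ m, N ≤ m → HB (Fin (2 * (m * (5 + 2 * t)))) 7 := by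
  obtain ⟨N, hN, h⟩ := sidon_exists (II (Fin (2 + t))) none
  refine ⟨N, fun m hm => ?_⟩
  obtain ⟨γ, h0, hS⟩ := h m hm
  have : NeZero m := ⟨by omega⟩
  have h7 := fam7 γ h0 hS (⟨0, by omega⟩ : Fin (2 + t)) ⟨1, by omega⟩ (by simp)
  refine hb_equiv (Fintype.equivFinOfCardEq ?_) h7
  simp only [Fintype.card_sum, Fintype.card_prod, ZMod.card, Fintype.card_fin]
  ring

lemma all7 : ∃ N, ∀ m, N ≤ m → HB (Fin (2 * m)) 7 := by
  obtain ⟨N0, h0⟩ := some7 0
  obtain ⟨N1, h1⟩ := some7 1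
  refine ⟨N0 * 5 + N1 * 7 + 28, fun m hm => ?_⟩
  obtain ⟨x, y, hxy⟩ : ∃ x y : ℕ, m = (N0 + x) * (5 + 2 * 0) + (N1 + y) * (5 + 2 * 1) := by
    have h5 : (m - (N0 * 5 + N1 * 7 + 28)) % 5 < 5 := Nat.mod_lt _ (by norm_num)
    have h6 := Nat.div_add_mod (m - (N0 * 5 + N1 * 7 + 28)) 5
    generalize (m - (N0 * 5 + N1 * 7 + 28)) % 5 = r at h5 h6
    generalize (m - (N0 * 5 + N1 * 7 + 28)) / 5 = q at h6
    interval_cases r
    · exact ⟨q, 4, by omega⟩
    · exact ⟨q + 3, 2, by omega⟩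
    · exact ⟨q + 6, 0, by omega⟩
    · exact ⟨q + 2, 3, by omega⟩
    · exact ⟨q + 5, 1, by omega⟩
  have := hb_sum (by norm_num) (h0 (N0 + x) (Nat.le_add_right _ _))
    (h1 (N1 + y) (Nat.le_add_right _ _))
  refine hb_equiv (Fintype.equivFinOfCardEq ?_) this
  simp only [Fintype.card_sum, Fintype.card_fin]
  omega

end Pool.Agent.H228.Bent
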