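import Mathlib
import Pool.Agent.H228.Cert
import Pool.Agent.H228.Tail
import Pool.Agent.H228.Ode
import Pool.Agent.H228.Asm

/-! TASK T5: strict monotonicity of the first zero from the certificate at the section. -/

set_option autoImplicit false

namespace Pool.Agent.H228

open Set

/-- local comparison on the left of every point gives strict monotonicity -/
theorem loc_to_glob {f : ℝ → ℝ} {a b : ℝ} (hc : ContinuousOn f (Ioc a b))
    (h : ∀ β ∈ Ioc a b, ∃ ε > 0, ∀ α ∈ Ioo a β, β - ε < α → f β < f α) :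
    ∀ α ∈ Ioc a b, ∀ β ∈ Ioc a b, α < β → f β < f α := by
  intro α hα β hβ hαβ
  have hsub : Icc α β ⊆ Ioc a b := fun x hx => ⟨lt_of_lt_of_le hα.1 hx.1, hx.2.trans hβ.2⟩
  obtain ⟨M, hM, hmax⟩ := isCompact_Icc.exists_isMaxOn (nonempty_Icc.2 hαβ.le) (hc.mono hsub)
  have key : ∀ M ∈ Icc α β, (∀ x ∈ Icc α β, f x ≤ f M) → M = α := by
    intro M hM hmax
    by_contra hne
    have hlt : α < M := lt_of_le_of_ne hM.1 (Ne.symm hne)
    obtain ⟨ε, hε, hloc⟩ := h M (hsub hM)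
    have h1 : max ((α + M) / 2) (M - ε / 2) < M := max_lt (by linarith) (by linarith)
    have h2 : α < max ((α + M) / 2) (M - ε / 2) :=
      lt_of_lt_of_le (by linarith) (le_max_left _ _)
    have h3 : M - ε < max ((α + M) / 2) (M - ε / 2) :=
      lt_of_lt_of_le (by linarith) (le_max_right _ _)
    have h4 := hloc _ ⟨hα.1.trans h2, h1⟩ h3
    have h5 := hmax _ ⟨h2.le, (h1.le.trans hM.2)⟩
    linarith
  have hMα := key M hM (fun x hx => hmax hx)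
  subst hMα
  have hle : f β ≤ f M := hmax (⟨hαβ.le, le_rfl⟩ : β ∈ Icc M β)
  rcases hle.lt_or_eq with hlt | heq
  · exact hlt
  · exfalso
    have := key β ⟨hαβ.le, le_rfl⟩ (fun x hx => by rw [heq]; exact hmax hx)
    linarith

namespace LocX

/-- divided difference of `v^4 + δ v^7` -/
def Qd (δ a b : ℝ) : ℝ :=
  (a ^ 3 + a ^ 2 * b + a * b ^ 2 + b ^ 3) +
    δ * (a ^ 6 + a ^ 5 * b + a ^ 4 * b ^ 2 + a ^ 3 * b ^ 3 + a ^ 2 * b ^ 4 + a * b ^ 5 + b ^ 6)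

theorem Qd_close {δ a b : ℝ} (h0 : 0 ≤ δ) (h1 : δ ≤ 1) (ha : |a| ≤ 1) (hb : |b| ≤ 1) :
    |Qd δ a b - (4 * b ^ 3 + 7 * δ * b ^ 6)| ≤ 27 * |a - b| := by
  have e : Qd δ a b - (4 * b ^ 3 + 7 * δ * b ^ 6) = (a - b) * ((a ^ 2 + 2 * (a * b) + 3 * b ^ 2) +
      δ * (a ^ 5 + 2 * (a ^ 4 * b) + 3 * (a ^ 3 * b ^ 2) + 4 * (a ^ 2 * b ^ 3) +
        5 * (a * b ^ 4) + 6 * b ^ 5)) := by
    unfold Qd; ring
  have mon : ∀ i j : ℕ, |a ^ i * b ^ j| ≤ 1 := by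
    intro i j
    rw [abs_mul, abs_pow, abs_pow]
    exact mul_le_one₀ (pow_le_one₀ (abs_nonneg a) ha) (by positivity)
      (pow_le_one₀ (abs_nonneg b) hb)
  rw [e, abs_mul, mul_comm]
  apply mul_le_mul_of_nonneg_right _ (abs_nonneg _)
  have m20 := abs_le.1 (mon 2 0); have m11 := abs_le.1 (mon 1 1); have m02 := abs_le.1 (mon 0 2)
  have m50 := abs_le.1 (mon 5 0); have m41 := abs_le.1 (mon 4 1); have m32 := abs_le.1 (mon 3 2)
  have m23 := abs_le.1 (mon 2 3); have m14 := abs_le.1 (mon 1 4); have m05 := abs_le.1 (mon 0 5)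
  simp only [pow_zero, mul_one, one_mul, pow_one] at m20 m11 m02 m50 m41 m32 m23 m14 m05
  have hA : |a ^ 2 + 2 * (a * b) + 3 * b ^ 2| ≤ 6 := by
    rw [abs_le]; constructor <;> linarith [m20.1, m20.2, m11.1, m11.2, m02.1, m02.2]
  have hB : |a ^ 5 + 2 * (a ^ 4 * b) + 3 * (a ^ 3 * b ^ 2) + 4 * (a ^ 2 * b ^ 3) +
        5 * (a * b ^ 4) + 6 * b ^ 5| ≤ 21 := by
    rw [abs_le]; constructor <;>
    linarith [m50.1, m50.2, m41.1, m41.2, m32.1, m32.2, m23.1, m23.2, m14.1, m14.2, m05.1, m05.2]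
  refine (abs_add_le _ _).trans ?_
  rw [abs_mul, abs_of_nonneg h0]
  have : δ * |a ^ 5 + 2 * (a ^ 4 * b) + 3 * (a ^ 3 * b ^ 2) + 4 * (a ^ 2 * b ^ 3) +
        5 * (a * b ^ 4) + 6 * b ^ 5| ≤ 1 * 21 := mul_le_mul h1 hB (abs_nonneg _) (by norm_num)
  linarith

theorem F_eq' {v : ℝ} (h0 : -1 / 2 ≤ v) (h2 : v ≤ 3) : F v = v ^ 4 + v ^ 7 := by
  have h1 : min v 3 = v := min_eq_left h2
  have h3 : max (-1 / 2) v = v := max_eq_right h0
  simp only [F, cl, f, h1, h3]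

theorem range_scale {κ v : ℝ} (hκ : 1 ≤ κ) (h0 : -1 / 2 ≤ κ ^ 2 * v) (h3 : κ ^ 2 * v ≤ 3) :
    -1 / 2 ≤ v ∧ v ≤ 3 := by
  have hk : 1 ≤ κ ^ 2 := one_le_pow₀ hκ
  constructor
  · by_contra hc
    push Not at hc
    nlinarith
  · by_contra hc
    push Not at hc
    nlinarith

theorem deriv_u {α κ : ℝ} {u u1 : ℝ → ℝ} (hu : IsSol α u u1) (t : ℝ) :
    HasDerivAt (fun t => u (κ ^ 3 * t)) (κ ^ 3 * u1 (κ ^ 3 * t)) t := by
  have hlin : HasDerivAt (fun r : ℝ => κ ^ 3 * r) (κ ^ 3) t := by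
    simpa using (hasDerivAt_id t).const_mul (κ ^ 3)
  have h1 : HasDerivAt (fun r => u (κ ^ 3 * r)) (u1 (κ ^ 3 * t) * κ ^ 3) t :=
    HasDerivAt.comp (h₂ := u) (h := fun r => κ ^ 3 * r) t (hu.h0 (κ ^ 3 * t)) hlin
  exact h1.congr_deriv (by ring)

theorem deriv_u1 {α κ : ℝ} {u u1 : ℝ → ℝ} (hu : IsSol α u u1) (hκ : 1 ≤ κ) {t : ℝ} (ht : 0 < t) :
    HasDerivAt (fun t => u1 (κ ^ 3 * t))
      (-(2 / t) * u1 (κ ^ 3 * t) - κ ^ 3 * F (u (κ ^ 3 * t))) t := by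
  have hk : 0 < κ ^ 3 := by positivity
  have hlin : HasDerivAt (fun r : ℝ => κ ^ 3 * r) (κ ^ 3) t := by
    simpa using (hasDerivAt_id t).const_mul (κ ^ 3)
  have h1 : HasDerivAt (fun r => u1 (κ ^ 3 * r))
      ((-(2 / (κ ^ 3 * t)) * u1 (κ ^ 3 * t) - F (u (κ ^ 3 * t))) * κ ^ 3) t :=
    HasDerivAt.comp (h₂ := u1) (h := fun r => κ ^ 3 * r) t
      (hu.h1 (κ ^ 3 * t) (mul_pos hk ht).ne') hlin
  refine h1.congr_deriv ?_
  have := ht.ne'
  field_simp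

theorem sysV_of_sol {β κ tf : ℝ} {u u1 : ℝ → ℝ} (hu : IsSol β u u1)
    (hneg : ∀ t, 0 < t → u1 t < 0) (hκ : 1 ≤ κ) (hsec : κ ^ 2 * u (κ ^ 3) = 45 / 128) :
    SysV ((κ ^ 6)⁻¹) (κ ^ 2 * (κ ^ 3 * -(u1 (κ ^ 3)))) tf
      (fun t => κ ^ 2 * u (κ ^ 3 * t)) (fun t => κ ^ 5 * u1 (κ ^ 3 * t)) := by
  have hk0 : 0 < κ := by linarith
  refine ⟨?_, ?_, ?_, ?_, ?_, ?_⟩
  · simp only [mul_one]; exact hsec
  · simp only [mul_one]; ring
  · intro t _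
    exact ((deriv_u hu t).const_mul (κ ^ 2)).congr_deriv (by ring)
  · intro t ht h1 h2
    have ht0 : 0 < t := by linarith [ht.1]
    obtain ⟨h3, h4⟩ := range_scale hκ h1 h2
    refine ((deriv_u1 hu hκ ht0).const_mul (κ ^ 5)).congr_deriv ?_
    rw [F_eq' h3 h4]
    field_simp
    ring
  · intro t ht
    have ht0 : 0 < t := by linarith [ht.1]
    exact ⟨_, (deriv_u1 hu hκ ht0).const_mul (κ ^ 5)⟩
  · intro t ht
    have ht0 : 0 < t := by linarith [ht.1]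
    have h1 := hneg (κ ^ 3 * t) (by positivity)
    have h2 : 0 < κ ^ 5 := by positivity
    exact (mul_neg_of_pos_of_neg h2 h1).le

theorem sysD_of_sols {α β κ tf : ℝ} {a a1 b b1 : ℝ → ℝ} (ha : IsSol α a a1) (hb : IsSol β b b1)
    (hκ : 1 ≤ κ) (hlt : a (κ ^ 3) < b (κ ^ 3))
    (har : ∀ t ∈ Icc 1 tf, -1 / 2 ≤ κ ^ 2 * a (κ ^ 3 * t) ∧ κ ^ 2 * a (κ ^ 3 * t) ≤ 3)
    (hbr : ∀ t ∈ Icc 1 tf, -1 / 2 ≤ κ ^ 2 * b (κ ^ 3 * t) ∧ κ ^ 2 * b (κ ^ 3 * t) ≤ 3) :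
    SysD (-(κ ^ 3 * (b1 (κ ^ 3) - a1 (κ ^ 3)) / (b (κ ^ 3) - a (κ ^ 3)))) tf
      (fun t => (b (κ ^ 3 * t) - a (κ ^ 3 * t)) / (b (κ ^ 3) - a (κ ^ 3)))
      (fun t => κ ^ 3 * (b1 (κ ^ 3 * t) - a1 (κ ^ 3 * t)) / (b (κ ^ 3) - a (κ ^ 3)))
      (fun t => Qd ((κ ^ 6)⁻¹) (κ ^ 2 * a (κ ^ 3 * t)) (κ ^ 2 * b (κ ^ 3 * t))) := by
  have hk0 : 0 < κ := by linarith
  have hc : b (κ ^ 3) - a (κ ^ 3) ≠ 0 := by linarith
  refine ⟨?_, ?_, ?_, ?_⟩
  · simp only [mul_one]; exact div_self hc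
  · simp only [mul_one]; ring
  · intro t _
    exact (((deriv_u hb t).sub (deriv_u ha t)).div_const _).congr_deriv (by ring)
  · intro t ht
    have ht0 : 0 < t := by linarith [ht.1]
    obtain ⟨h1, h2⟩ := range_scale hκ (har t ht).1 (har t ht).2
    obtain ⟨h3, h4⟩ := range_scale hκ (hbr t ht).1 (hbr t ht).2
    refine ((((deriv_u1 hb hκ ht0).sub (deriv_u1 ha hκ ht0)).const_mul (κ ^ 3)).div_const
      _).congr_deriv ?_
    rw [F_eq' h1 h2, F_eq' h3 h4]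
    generalize a (κ ^ 3 * t) = x
    generalize b (κ ^ 3 * t) = y
    generalize a1 (κ ^ 3 * t) = x1
    generalize b1 (κ ^ 3 * t) = y1
    generalize b (κ ^ 3) - a (κ ^ 3) = c at hc
    unfold Qd
    have := ht0.ne'
    field_simp
    ring

theorem scale_ineq {κ tf vb V Y D E c : ℝ} (hκ : 1 ≤ κ) (hc : 0 < c)
    (h : (3 * vb ^ 4 + 6 * (κ ^ 6)⁻¹ * vb ^ 7) * tf ^ 2 * (4 / 3 * (|E| + 3 / 2 * |D|)) <
      -(V * E - Y * D)) :
    (3 * (vb / κ ^ 2) ^ 4 + 6 * (vb / κ ^ 2) ^ 7) * (κ ^ 3 * tf) ^ 2 *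
      (4 / 3 * (|c * E| + 3 / 2 * |c * D|)) < -(V / κ ^ 2 * (c * E) - Y / κ ^ 2 * (c * D)) := by
  have hk0 : 0 < κ := by linarith
  rw [abs_mul, abs_mul, abs_of_pos hc]
  have e1 : (3 * (vb / κ ^ 2) ^ 4 + 6 * (vb / κ ^ 2) ^ 7) * (κ ^ 3 * tf) ^ 2 *
      (4 / 3 * (c * |E| + 3 / 2 * (c * |D|))) = c / κ ^ 2 *
      ((3 * vb ^ 4 + 6 * (κ ^ 6)⁻¹ * vb ^ 7) * tf ^ 2 * (4 / 3 * (|E| + 3 / 2 * |D|))) := by
    field_simp
  have e2 : -(V / κ ^ 2 * (c * E) - Y / κ ^ 2 * (c * D)) =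
      c / κ ^ 2 * (-(V * E - Y * D)) := by
    field_simp
  rw [e1, e2]
  exact mul_lt_mul_of_pos_left h (by positivity)

end LocX

/- Sketch for `sec_local`. `δ = κ^(-6)`, `V t = κ^2 u β (κ^3 t)`, `V1 t = κ^5 u1 β (κ^3 t)`:
`SysV δ σ tf V V1` (`F = f` on `[-1/2, 3]`, `κ ≥ 1`). The certificate gives `0 < V tf`, so `0 < V ≤ 45/128` on
`[1, tf]`. For `α` close to `β`, `Va t = κ^2 u α (κ^3 t)` is uniformly close to `V` on `[1, tf]` (`hdep`),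
positive and `≤ 3`; `D = (V - Va)/(V 1 - Va 1)`, `Q t` = divided difference of `v^4 + δ v^7` at `V t, Va t`
(with value `4 V^3 + 7 δ V^6` when equal), `SysD χ tf D D1 Q` with `χ ∈ [0, 1/4]` from `hcone`,
`|Q - (4 V^3 + 7 δ V^6)| ≤ ε` for `α` close to `β`. So `SecEnd`; then `tail_compare` at `t0 = κ^3 tf` with
`vb / κ^2` in place of `vb`, `u β t0 - u α t0 = D' (β - α)`, `E'` similarly (positive multiples of `D tf`,
`tf D1 tf`); the conditions on `u α t0` hold for `α` close to `β` because those for `β` are strict; note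
`u α E' - t0 u1 α D' = u β E' - t0 u1 β D'`. -/
theorem sec_local {u u1 : ℝ → ℝ → ℝ} (hu : ∀ α, IsSol α (u α) (u1 α)) (hdep : Dep u u1)
    (hneg : ∀ α, 0 < α → ∀ t, 0 < t → u1 α t < 0) {dmax slo shi tf : ℝ} (htf : 1 < tf)
    (hcert : SecCert dmax slo shi tf) {as β κ : ℝ} (has : 0 ≤ as) (hβ : as < β) (hβ2 : β < 2)
    (hκ : 1 ≤ κ) (hδ : 1 ≤ dmax * κ ^ 6) (hd1 : dmax ≤ 1)
    (hsec : κ ^ 2 * u β (κ ^ 3) = 45 / 128)
    (hσ : κ ^ 2 * (κ ^ 3 * -(u1 β (κ ^ 3))) ∈ Icc slo shi)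
    (hord : ∀ α ∈ Ioo as β, u α (κ ^ 3) < u β (κ ^ 3))
    (hcone : ∀ α ∈ Ioo as β,
      3 / 4 * (u β (κ ^ 3) - u α (κ ^ 3)) ≤
        (u β (κ ^ 3) + κ ^ 3 * u1 β (κ ^ 3)) - (u α (κ ^ 3) + κ ^ 3 * u1 α (κ ^ 3)) ∧
      (u β (κ ^ 3) + κ ^ 3 * u1 β (κ ^ 3)) - (u α (κ ^ 3) + κ ^ 3 * u1 α (κ ^ 3)) ≤
        u β (κ ^ 3) - u α (κ ^ 3)) :
    (∃ T, Hit (u β) T) ∧ ∃ ε > 0, ∀ α ∈ Ioo as β, β - ε < α →
      (∃ T, Hit (u α) T) ∧ ∀ T T', Hit (u α) T → Hit (u β) T' → T' < T := by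
  have hκ0 : 0 < κ := by linarith
  have hβ0 : 0 < β := by linarith
  have hκ6 : 1 ≤ κ ^ 6 := one_le_pow₀ hκ
  have hδ0 : 0 ≤ (κ ^ 6)⁻¹ := by positivity
  have hδ1 : (κ ^ 6)⁻¹ ≤ 1 := inv_le_one_of_one_le₀ hκ6
  have hδm : (κ ^ 6)⁻¹ ≤ dmax := by
    rw [inv_le_iff_one_le_mul₀ (by positivity)]
    linarith
  have hsys := LocX.sysV_of_sol (tf := tf) (hu β) (hneg β hβ0) hκ hsec
  obtain ⟨hVtf, ε, hε, vb, hcertD⟩ := hcert _ hσ _ ⟨hδ0, hδm⟩ _ _ hsys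
  -- bounds for `V`
  have hanti : StrictAntiOn (u β) (Ici 0) := anti_of_neg (hu β) (hneg β hβ0)
  have hVb : ∀ t ∈ Icc 1 tf, 0 < κ ^ 2 * u β (κ ^ 3 * t) ∧ κ ^ 2 * u β (κ ^ 3 * t) ≤ 1 / 2 := by
    intro t ht
    have ht0 : 0 < t := by linarith [ht.1]
    have h1 : u β (κ ^ 3 * tf) ≤ u β (κ ^ 3 * t) :=
      hanti.antitoneOn (mem_Ici.2 (by positivity)) (mem_Ici.2 (by positivity))
        (mul_le_mul_of_nonneg_left ht.2 (by positivity))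
    have h2 : u β (κ ^ 3 * t) ≤ u β (κ ^ 3) := by
      apply hanti.antitoneOn (mem_Ici.2 (by positivity)) (mem_Ici.2 (by positivity))
      have : κ ^ 3 * 1 ≤ κ ^ 3 * t := mul_le_mul_of_nonneg_left ht.1 (by positivity)
      linarith
    have hk2 : 0 ≤ κ ^ 2 := by positivity
    refine ⟨lt_of_lt_of_le hVtf (mul_le_mul_of_nonneg_left h1 hk2), ?_⟩
    have := mul_le_mul_of_nonneg_left h2 hk2
    linarith
  -- closeness
  obtain ⟨C, hC⟩ := hdep (κ ^ 3 * tf)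
  set L : ℝ := tf * κ ^ 5 * (|C| + 1) with hL
  have hL0 : 0 < L := by positivity
  have hclose : ∀ α ∈ Ioo as β, ∀ t ∈ Icc 1 tf,
      |κ ^ 2 * u α (κ ^ 3 * t) - κ ^ 2 * u β (κ ^ 3 * t)| ≤ L * (β - α) := by
    intro α hα t ht
    have ht0 : 0 < t := by linarith [ht.1]
    have h1 := (hC α ⟨by linarith [hα.1], by linarith [hα.2]⟩ β ⟨hβ0.le, hβ2.le⟩ (κ ^ 3 * t)
      ⟨by positivity, mul_le_mul_of_nonneg_left ht.2 (by positivity)⟩).1
    rw [← mul_sub, abs_mul, abs_of_nonneg (by positivity : (0:ℝ) ≤ κ ^ 2)]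
    have h2 : |α - β| = β - α := by rw [abs_sub_comm, abs_of_pos (by linarith [hα.2])]
    rw [h2] at h1
    have hba : 0 ≤ β - α := by linarith [hα.2]
    have h3 : C * (β - α) ≤ (|C| + 1) * (β - α) :=
      mul_le_mul_of_nonneg_right (by linarith [le_abs_self C]) hba
    have h4 : κ ^ 2 ≤ tf * κ ^ 5 := by
      have : κ ^ 2 ≤ κ ^ 5 := pow_le_pow_right₀ hκ (by norm_num)
      have h5 : 0 < κ ^ 5 := by positivity
      nlinarith
    calc κ ^ 2 * |u α (κ ^ 3 * t) - u β (κ ^ 3 * t)| ≤ κ ^ 2 * ((|C| + 1) * (β - α)) :=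
          mul_le_mul_of_nonneg_left (h1.trans h3) (by positivity)
      _ ≤ tf * κ ^ 5 * ((|C| + 1) * (β - α)) := mul_le_mul_of_nonneg_right h4 (by positivity)
      _ = L * (β - α) := by rw [hL]; ring
  have hclose1 : ∀ α ∈ Ioo as β,
      |tf * (κ ^ 5 * u1 α (κ ^ 3 * tf)) - tf * (κ ^ 5 * u1 β (κ ^ 3 * tf))| ≤ L * (β - α) := by
    intro α hα
    have h1 := (hC α ⟨by linarith [hα.1], by linarith [hα.2]⟩ β ⟨hβ0.le, hβ2.le⟩ (κ ^ 3 * tf)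
      ⟨by positivity, le_rfl⟩).2
    have e : tf * (κ ^ 5 * u1 α (κ ^ 3 * tf)) - tf * (κ ^ 5 * u1 β (κ ^ 3 * tf)) =
        tf * κ ^ 5 * (u1 α (κ ^ 3 * tf) - u1 β (κ ^ 3 * tf)) := by ring
    rw [e, abs_mul, abs_of_nonneg (by positivity : (0:ℝ) ≤ tf * κ ^ 5)]
    have h2 : |α - β| = β - α := by rw [abs_sub_comm, abs_of_pos (by linarith [hα.2])]
    rw [h2] at h1
    have hba : 0 ≤ β - α := by linarith [hα.2]
    have h3 : C * (β - α) ≤ (|C| + 1) * (β - α) :=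
      mul_le_mul_of_nonneg_right (by linarith [le_abs_self C]) hba
    calc tf * κ ^ 5 * |u1 α (κ ^ 3 * tf) - u1 β (κ ^ 3 * tf)|
        ≤ tf * κ ^ 5 * ((|C| + 1) * (β - α)) :=
          mul_le_mul_of_nonneg_left (h1.trans h3) (by positivity)
      _ = L * (β - α) := by rw [hL]; ring
  -- the end condition for `α` close to `β`
  have hend : ∀ α ∈ Ioo as β, L * (β - α) ≤ 1 / 2 → 27 * (L * (β - α)) ≤ ε →
      SecEnd ((κ ^ 6)⁻¹) vb tf (κ ^ 2 * u β (κ ^ 3 * tf)) (tf * (κ ^ 5 * u1 β (κ ^ 3 * tf)))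
        ((u β (κ ^ 3 * tf) - u α (κ ^ 3 * tf)) / (u β (κ ^ 3) - u α (κ ^ 3)))
        (tf * (κ ^ 3 * (u1 β (κ ^ 3 * tf) - u1 α (κ ^ 3 * tf)) /
          (u β (κ ^ 3) - u α (κ ^ 3)))) := by
    intro α hα h1 h2
    have hlt := hord α hα
    have har : ∀ t ∈ Icc 1 tf, -1 / 2 ≤ κ ^ 2 * u α (κ ^ 3 * t) ∧
        κ ^ 2 * u α (κ ^ 3 * t) ≤ 1 := by
      intro t ht
      have h3 := abs_le.1 ((hclose α hα t ht).trans h1)
      have h4 := hVb t ht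
      constructor
      · linarith [h3.1, h4.1]
      · linarith [h3.2, h4.2]
    have hsysD := LocX.sysD_of_sols (tf := tf) (hu α) (hu β) hκ hlt
      (fun t ht => ⟨(har t ht).1, (har t ht).2.trans (by norm_num)⟩)
      (fun t ht => ⟨by linarith [(hVb t ht).1], by linarith [(hVb t ht).2]⟩)
    have hχ : -(κ ^ 3 * (u1 β (κ ^ 3) - u1 α (κ ^ 3)) / (u β (κ ^ 3) - u α (κ ^ 3))) ∈
        Icc (0:ℝ) (1 / 4) := by
      have hc : 0 < u β (κ ^ 3) - u α (κ ^ 3) := by linarith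
      obtain ⟨h3, h4⟩ := hcone α hα
      have e : -(κ ^ 3 * (u1 β (κ ^ 3) - u1 α (κ ^ 3)) / (u β (κ ^ 3) - u α (κ ^ 3))) =
          (-(κ ^ 3 * (u1 β (κ ^ 3) - u1 α (κ ^ 3)))) / (u β (κ ^ 3) - u α (κ ^ 3)) := by ring
      rw [e]
      constructor
      · apply div_nonneg _ hc.le
        linarith
      · rw [div_le_iff₀ hc]
        linarith
    have h5 := hcertD _ hχ _ _ _ hsysD (by
      intro t ht
      have h6 := LocX.Qd_close hδ0 hδ1 (a := κ ^ 2 * u α (κ ^ 3 * t))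
        (b := κ ^ 2 * u β (κ ^ 3 * t))
        (by rw [abs_le]; constructor <;> linarith [(har t ht).1, (har t ht).2])
        (by rw [abs_le]; constructor <;> linarith [(hVb t ht).1, (hVb t ht).2])
      exact h6.trans ((mul_le_mul_of_nonneg_left (hclose α hα t ht) (by norm_num)).trans h2))
    exact h5
  -- first radius
  set ε1 : ℝ := min (1 / 2) (ε / 27) / L with hε1
  have hε10 : 0 < ε1 := by
    rw [hε1]
    apply div_pos _ hL0
    exact lt_min (by norm_num) (by positivity)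
  have hr1 : ∀ α ∈ Ioo as β, β - ε1 < α → L * (β - α) ≤ 1 / 2 ∧ 27 * (L * (β - α)) ≤ ε := by
    intro α hα h1
    have h2 : β - α < ε1 := by linarith
    rw [hε1, lt_div_iff₀ hL0] at h2
    have h3 := min_le_left (1 / 2) (ε / 27)
    have h4 := min_le_right (1 / 2) (ε / 27)
    constructor
    · linarith
    · linarith
  -- one point
  obtain ⟨α0, hα0, hα0'⟩ : ∃ α0, α0 ∈ Ioo as β ∧ β - ε1 < α0 := by
    refine ⟨max ((as + β) / 2) (β - ε1 / 2), ⟨?_, ?_⟩, ?_⟩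
    · exact lt_of_lt_of_le (by linarith) (le_max_left _ _)
    · exact max_lt (by linarith) (by linarith)
    · exact lt_of_lt_of_le (by linarith) (le_max_right _ _)
  have hend0 := hend α0 hα0 (hr1 α0 hα0 hα0').1 (hr1 α0 hα0 hα0').2
  obtain ⟨hv1, hv2, hv3, hv4, -⟩ := hend0
  set V := κ ^ 2 * u β (κ ^ 3 * tf) with hV
  set Y := tf * (κ ^ 5 * u1 β (κ ^ 3 * tf)) with hY
  -- second radius
  set m : ℝ := min V (min (vb - V) (-(3 * V + 2 * Y) / 5)) with hm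
  have hm0 : 0 < m := lt_min hVtf (lt_min (by linarith) (by linarith))
  have hm1 : m ≤ V := min_le_left _ _
  have hm2 : m ≤ vb - V := (min_le_right _ _).trans (min_le_left _ _)
  have hm3 : m ≤ -(3 * V + 2 * Y) / 5 := (min_le_right _ _).trans (min_le_right _ _)
  have main : ∀ α ∈ Ioo as β, β - min ε1 (m / L) < α →
      (∃ T, Hit (u α) T) ∧ (∃ T, Hit (u β) T) ∧
        ∀ T T', Hit (u α) T → Hit (u β) T' → T' < T := by
    intro α hα h1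
    have h2 : β - ε1 < α := by linarith [min_le_left ε1 (m / L)]
    have h3 : L * (β - α) < m := by
      have : β - α < m / L := by linarith [min_le_right ε1 (m / L)]
      rw [lt_div_iff₀ hL0] at this
      linarith
    obtain ⟨-, -, -, -, hlast⟩ := hend α hα (hr1 α hα h2).1 (hr1 α hα h2).2
    have hlt := hord α hα
    have hc0 : 0 < u β (κ ^ 3) - u α (κ ^ 3) := by linarith
    have hba : 0 < β - α := by linarith [hα.2]
    have hVa := abs_le.1 (hclose α hα tf ⟨htf.le, le_rfl⟩)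
    have hYa := abs_le.1 (hclose1 α hα)
    have hk2 : (0:ℝ) < κ ^ 2 := by positivity
    have hk2' : (1:ℝ) ≤ κ ^ 2 := one_le_pow₀ hκ
    -- scaled quantities
    have eV : u β (κ ^ 3 * tf) = V / κ ^ 2 := by rw [hV]; field_simp
    have eY : κ ^ 3 * tf * u1 β (κ ^ 3 * tf) = Y / κ ^ 2 := by rw [hY]; field_simp
    have eVa : u α (κ ^ 3 * tf) = (κ ^ 2 * u α (κ ^ 3 * tf)) / κ ^ 2 := by field_simp
    have eYa : κ ^ 3 * tf * u1 α (κ ^ 3 * tf) =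
        (tf * (κ ^ 5 * u1 α (κ ^ 3 * tf))) / κ ^ 2 := by field_simp
    set c : ℝ := (u β (κ ^ 3) - u α (κ ^ 3)) / (β - α) with hc
    have hcpos : 0 < c := div_pos hc0 hba
    set D : ℝ := (u β (κ ^ 3 * tf) - u α (κ ^ 3 * tf)) / (u β (κ ^ 3) - u α (κ ^ 3)) with hD
    set E : ℝ := tf * (κ ^ 3 * (u1 β (κ ^ 3 * tf) - u1 α (κ ^ 3 * tf)) /
          (u β (κ ^ 3) - u α (κ ^ 3))) with hE
    have hDe : u β (κ ^ 3 * tf) - u α (κ ^ 3 * tf) = c * D * (β - α) := by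
      rw [hc, hD]; field_simp
    have hEe : κ ^ 3 * tf * u1 β (κ ^ 3 * tf) - κ ^ 3 * tf * u1 α (κ ^ 3 * tf) =
        c * E * (β - α) := by
      rw [hc, hE]; field_simp
    have hsc := LocX.scale_ineq hκ hcpos hlast
    have hvb0 : 0 < vb := by linarith
    have htail := tail_compare u u1 hu hneg (α := α) (β := β) (t0 := κ ^ 3 * tf)
      (vb := vb / κ ^ 2) (D := c * D) (E := c * E)
      ⟨by linarith [hα.1], by linarith⟩ ⟨hβ0, hβ2⟩ hα.2 (by positivity)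
      (by rw [eVa]; exact div_pos (by linarith [hVa.1]) hk2)
      (by rw [eV]; exact div_pos hVtf hk2)
      (by rw [eVa]; exact div_le_div_of_nonneg_right (by linarith [hVa.2]) hk2.le)
      (by rw [eV]; exact div_le_div_of_nonneg_right hv1.le hk2.le)
      (by
        rw [eYa, eVa, ← add_div, ← mul_div_assoc]
        apply div_le_div_of_nonneg_right _ hk2.le
        linarith [hVa.2, hYa.2])
      (by
        rw [eY, eV, ← add_div, ← mul_div_assoc]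
        apply div_le_div_of_nonneg_right _ hk2.le
        linarith)
      (by
        have e : (κ ^ 3 * tf) ^ 2 * (4 * (vb / κ ^ 2) ^ 3 + 7 * (vb / κ ^ 2) ^ 6) =
            tf ^ 2 * (4 * vb ^ 3 + 7 * (κ ^ 6)⁻¹ * vb ^ 6) := by
          field_simp
        rw [e]
        exact hv4)
      (by
        rw [div_le_iff₀ hk2]
        linarith)
      hDe hEe
    refine ⟨htail.1, htail.2.1, htail.2.2.2 ?_⟩
    have e : u α (κ ^ 3 * tf) * (c * E) - κ ^ 3 * tf * u1 α (κ ^ 3 * tf) * (c * D) =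
        V / κ ^ 2 * (c * E) - Y / κ ^ 2 * (c * D) := by
      have h4 : u α (κ ^ 3 * tf) = V / κ ^ 2 - c * D * (β - α) := by rw [← eV]; linarith
      have h5 : κ ^ 3 * tf * u1 α (κ ^ 3 * tf) = Y / κ ^ 2 - c * E * (β - α) := by
        rw [← eY]; linarith
      rw [h4, h5]
      ring
    rw [e]
    exact hsc
  have hε2 : 0 < min ε1 (m / L) := lt_min hε10 (div_pos hm0 hL0)
  refine ⟨?_, min ε1 (m / L), hε2, fun α hα h1 => ⟨(main α hα h1).1, (main α hα h1).2.2⟩⟩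
  have hmid : max ((as + β) / 2) (β - min ε1 (m / L) / 2) ∈ Ioo as β ∧
      β - min ε1 (m / L) < max ((as + β) / 2) (β - min ε1 (m / L) / 2) := by
    refine ⟨⟨?_, ?_⟩, ?_⟩
    · exact lt_of_lt_of_le (by linarith) (le_max_left _ _)
    · exact max_lt (by linarith) (by linarith)
    · exact lt_of_lt_of_le (by linarith) (le_max_right _ _)
  exact (main _ hmid.1 hmid.2).2.1

namespace LocX

/-- the first zero is continuous on a half-open interval -/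
theorem hit_continuous_Ioc (u u1 : ℝ → ℝ → ℝ) (hu : ∀ α, IsSol α (u α) (u1 α)) (hdep : Dep u u1)
    (hneg : ∀ α, 0 < α → ∀ t, 0 < t → u1 α t < 0)
    {a b : ℝ} (ha : 0 ≤ a) (hb : b < 2) (T : ℝ → ℝ) (hT : ∀ α ∈ Ioc a b, Hit (u α) (T α)) :
    ContinuousOn T (Ioc a b) := by
  rw [Metric.continuousOn_iff]
  intro α₀ hα₀ ε hε
  obtain ⟨hT0, hTz, hTpos⟩ := hT α₀ hα₀
  have hα₀pos : 0 < α₀ := lt_of_le_of_lt ha hα₀.1
  set e : ℝ := min (ε / 2) (T α₀ / 2) with he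
  have he0 : 0 < e := lt_min (by linarith) (by linarith)
  have he1 : e ≤ ε / 2 := min_le_left _ _
  have he2 : e ≤ T α₀ / 2 := min_le_right _ _
  have hanti : StrictAntiOn (u α₀) (Ici 0) := anti_of_neg (hu α₀) (hneg α₀ hα₀pos)
  have hm1 : u α₀ (T α₀ + e) < 0 := by
    rw [← hTz]
    exact hanti (mem_Ici.2 hT0.le) (mem_Ici.2 (by linarith)) (by linarith)
  have hm2 : 0 < u α₀ (T α₀ - e) := hTpos _ ⟨by linarith, by linarith⟩
  obtain ⟨C, hC⟩ := hdep (T α₀ + e)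
  set m : ℝ := min (-u α₀ (T α₀ + e)) (u α₀ (T α₀ - e)) with hm
  have hm0 : 0 < m := lt_min (by linarith) hm2
  refine ⟨m / (|C| + 1), by positivity, fun α hα hdist => ?_⟩
  obtain ⟨hTα0, hTαz, hTαpos⟩ := hT α hα
  have hαI : α ∈ Icc (0:ℝ) 2 := ⟨by linarith [hα.1], by linarith [hα.2]⟩
  have hα₀I : α₀ ∈ Icc (0:ℝ) 2 := ⟨by linarith [hα₀.1], by linarith [hα₀.2]⟩
  have hclose : ∀ t ∈ Icc (0:ℝ) (T α₀ + e), |u α t - u α₀ t| < m := by
    intro t ht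
    have h1 := (hC α hαI α₀ hα₀I t ht).1
    rw [Real.dist_eq] at hdist
    have h2 : C * |α - α₀| ≤ |C| * |α - α₀| :=
      mul_le_mul_of_nonneg_right (le_abs_self C) (abs_nonneg _)
    have h3 : (|C| + 1) * |α - α₀| < m := by
      rw [lt_div_iff₀ (by positivity)] at hdist
      linarith
    have h4 : 0 ≤ |α - α₀| := abs_nonneg _
    linarith
  have hup : T α < T α₀ + e := by
    by_contra hcon
    push Not at hcon
    have h1 := (abs_lt.1 (hclose (T α₀ + e) ⟨by linarith, le_rfl⟩)).2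
    have h2 : m ≤ -u α₀ (T α₀ + e) := min_le_left _ _
    have h3 : u α (T α₀ + e) < 0 := by linarith
    rcases hcon.lt_or_eq with h4 | h4
    · have := hTαpos (T α₀ + e) ⟨by linarith, h4⟩
      linarith
    · rw [h4, hTαz] at h3
      exact absurd h3 (lt_irrefl _)
  have hdown : T α₀ - e < T α := by
    by_contra hcon
    push Not at hcon
    have h1 := (abs_lt.1 (hclose (T α) ⟨hTα0.le, by linarith⟩)).1
    have h2 : m ≤ u α₀ (T α₀ - e) := min_le_right _ _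
    have h3 : u α₀ (T α₀ - e) ≤ u α₀ (T α) :=
      hanti.antitoneOn (mem_Ici.2 hTα0.le) (mem_Ici.2 (by linarith)) hcon
    rw [hTαz] at h1
    linarith
  rw [Real.dist_eq, abs_lt]
  constructor <;> linarith

end LocX

/-- for all `α < β` in `(as, b]`: the first zero exists and is strictly decreasing. `hcov`: the slopes at
the section are covered by certificates -/
theorem sec_glob {u u1 : ℝ → ℝ → ℝ} (hu : ∀ α, IsSol α (u α) (u1 α)) (hdep : Dep u u1)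
    (hneg : ∀ α, 0 < α → ∀ t, 0 < t → u1 α t < 0) {as b : ℝ} (has : 0 ≤ as) (hab : as < b)
    (hb : b < 2)
    (h : ∀ β ∈ Ioc as b, ∃ κ dmax slo shi tf : ℝ, 1 ≤ κ ∧ 1 < tf ∧ dmax ≤ 1 ∧ 1 ≤ dmax * κ ^ 6 ∧
      SecCert dmax slo shi tf ∧ κ ^ 2 * u β (κ ^ 3) = 45 / 128 ∧
      κ ^ 2 * (κ ^ 3 * -(u1 β (κ ^ 3))) ∈ Icc slo shi ∧
      (∀ α ∈ Ioo as β, u α (κ ^ 3) < u β (κ ^ 3)) ∧
      (∀ α ∈ Ioo as β,
        3 / 4 * (u β (κ ^ 3) - u α (κ ^ 3)) ≤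
          (u β (κ ^ 3) + κ ^ 3 * u1 β (κ ^ 3)) - (u α (κ ^ 3) + κ ^ 3 * u1 α (κ ^ 3)) ∧
        (u β (κ ^ 3) + κ ^ 3 * u1 β (κ ^ 3)) - (u α (κ ^ 3) + κ ^ 3 * u1 α (κ ^ 3)) ≤
          u β (κ ^ 3) - u α (κ ^ 3))) :
    (∀ α ∈ Ioc as b, ∃ T, Hit (u α) T) ∧
    ∀ α ∈ Ioc as b, ∀ β ∈ Ioc as b, α < β → ∀ T T', Hit (u α) T → Hit (u β) T' → T' < T := by
  classical
  have hloc : ∀ β ∈ Ioc as b, (∃ T, Hit (u β) T) ∧ ∃ ε > 0, ∀ α ∈ Ioo as β, β - ε < α →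
      (∃ T, Hit (u α) T) ∧ ∀ T T', Hit (u α) T → Hit (u β) T' → T' < T := by
    intro β hβ
    obtain ⟨κ, dmax, slo, shi, tf, h1, h2, h3, h4, h5, h6, h7, h8, h9⟩ := h β hβ
    exact sec_local hu hdep hneg h2 h5 has hβ.1 (by linarith [hβ.2]) h1 h4 h3 h6 h7 h8 h9
  have hex : ∀ α ∈ Ioc as b, ∃ T, Hit (u α) T := fun α hα => (hloc α hα).1
  refine ⟨hex, ?_⟩
  set T : ℝ → ℝ := fun α => if hα : α ∈ Ioc as b then (hex α hα).choose else 0 with hTdef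
  have hT : ∀ α ∈ Ioc as b, Hit (u α) (T α) := by
    intro α hα
    have e : T α = (hex α hα).choose := by
      rw [hTdef]
      exact dif_pos hα
    rw [e]
    exact (hex α hα).choose_spec
  have hcont := LocX.hit_continuous_Ioc u u1 hu hdep hneg has hb T hT
  have hmono := loc_to_glob hcont (by
    intro β hβ
    obtain ⟨-, ε, hε, h1⟩ := hloc β hβ
    refine ⟨ε, hε, fun α hα h2 => ?_⟩
    exact (h1 α hα h2).2 (T α) (T β) (hT α ⟨hα.1, hα.2.le.trans hβ.2⟩) (hT β hβ))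
  intro α hα β hβ hαβ t t' ht ht'
  rw [hit_unique ht (hT α hα), hit_unique ht' (hT β hβ)]
  exact hmono α hα β hβ hαβ

end Pool.Agent.H228
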