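import Mathlib
import Pool.Agent.H228.Defs

/-! TASK D (growth up to the section `t^2 u^3 = Up^3`). `W = t u`, `W' = u + t u1`, `W'' = -t F(u)`. -/

set_option autoImplicit false

namespace Pool.Agent.H228

open Set

namespace TD

lemma mono {g g' : ℝ → ℝ} {a b : ℝ} (hf : ∀ t ∈ Icc a b, HasDerivAt g (g' t) t)
    (h : ∀ t ∈ Ioo a b, 0 ≤ g' t) : MonotoneOn g (Icc a b) := by
  apply monotoneOn_of_deriv_nonneg (convex_Icc a b)
  · exact fun t ht => (hf t ht).continuousAt.continuousWithinAt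
  · rw [interior_Icc]
    exact fun t ht => (hf t (Ioo_subset_Icc_self ht)).differentiableAt.differentiableWithinAt
  · rw [interior_Icc]
    intro t ht
    rw [(hf t (Ioo_subset_Icc_self ht)).deriv]
    exact h t ht

lemma first {X : ℝ → ℝ} {a b : ℝ} (hc : ContinuousOn X (Icc a b))
    (step : ∀ s ∈ Icc a b, (∀ t ∈ Ico a s, 0 < X t) → 0 < X s) : ∀ t ∈ Icc a b, 0 < X t := by
  by_contra hcon
  push Not at hcon
  obtain ⟨t, ht, hXt⟩ := hcon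
  have hS : IsCompact (Icc a b ∩ X ⁻¹' Iic 0) :=
    isCompact_Icc.of_isClosed_subset (hc.preimage_isClosed_of_isClosed isClosed_Icc isClosed_Iic)
      inter_subset_left
  have hne : (Icc a b ∩ X ⁻¹' Iic 0).Nonempty := ⟨t, ht, hXt⟩
  have hs := hS.sInf_mem hne
  set s := sInf (Icc a b ∩ X ⁻¹' Iic 0)
  have h1 := step s hs.1 (fun r hr => by
    by_contra h
    push Not at h
    have h2 : s ≤ r := csInf_le hS.bddBelow ⟨⟨hr.1, hr.2.le.trans hs.1.2⟩, h⟩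
    exact absurd hr.2 (not_lt.mpr h2))
  exact absurd h1 (not_lt.mpr hs.2)

lemma F_eq {v : ℝ} (h0 : 0 ≤ v) (h1 : v ≤ 3) : F v = f v := by
  unfold F cl
  rw [min_eq_left h1, max_eq_right (by linarith)]

lemma le_one {t v Up : ℝ} (ht : 1 ≤ t) (hUp : 0 < Up) (hUp1 : Up ≤ 1)
    (h : t ^ 2 * v ^ 3 ≤ Up ^ 3) : v ≤ 1 := by
  by_contra hv
  push Not at hv
  have h1 : 1 < v ^ 3 := one_lt_pow₀ hv (by norm_num)
  have h2 : (1:ℝ) ≤ t ^ 2 := one_le_pow₀ ht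
  have h3 : Up ^ 3 ≤ 1 := pow_le_one₀ hUp.le hUp1
  nlinarith

lemma diff_bound {t t0 x y Up : ℝ} (ht0 : 1 ≤ t0) (ht : t0 ≤ t) (hx : 0 ≤ x)
    (hxy : x ≤ y) (h : t ^ 2 * y ^ 3 ≤ Up ^ 3) :
    0 ≤ f y - f x ∧ t ^ 2 * (f y - f x) ≤ (4 * Up ^ 3 + 7 * Up ^ 6 / t0 ^ 2) * (y - x) := by
  have hy : 0 ≤ y := hx.trans hxy
  have e4 : y ^ 4 - x ^ 4 = (y - x) * (y ^ 3 + y ^ 2 * x + y * x ^ 2 + x ^ 3) := by ring
  have e7 : y ^ 7 - x ^ 7 = (y - x) * (y ^ 6 + y ^ 5 * x + y ^ 4 * x ^ 2 + y ^ 3 * x ^ 3 +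
      y ^ 2 * x ^ 4 + y * x ^ 5 + x ^ 6) := by ring
  have hd : 0 ≤ y - x := by linarith
  have b4 : y ^ 3 + y ^ 2 * x + y * x ^ 2 + x ^ 3 ≤ 4 * y ^ 3 := by
    have a1 : y ^ 2 * x ≤ y ^ 2 * y := by gcongr
    have a2 : y * x ^ 2 ≤ y * y ^ 2 := by gcongr
    have a3 : x ^ 3 ≤ y ^ 3 := by gcongr
    nlinarith
  have b7 : y ^ 6 + y ^ 5 * x + y ^ 4 * x ^ 2 + y ^ 3 * x ^ 3 +
      y ^ 2 * x ^ 4 + y * x ^ 5 + x ^ 6 ≤ 7 * y ^ 6 := by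
    have a1 : y ^ 5 * x ≤ y ^ 5 * y := by gcongr
    have a2 : y ^ 4 * x ^ 2 ≤ y ^ 4 * y ^ 2 := by gcongr
    have a3 : y ^ 3 * x ^ 3 ≤ y ^ 3 * y ^ 3 := by gcongr
    have a4 : y ^ 2 * x ^ 4 ≤ y ^ 2 * y ^ 4 := by gcongr
    have a5 : y * x ^ 5 ≤ y * y ^ 5 := by gcongr
    have a6 : x ^ 6 ≤ y ^ 6 := by gcongr
    nlinarith
  have p4 : 0 ≤ y ^ 3 + y ^ 2 * x + y * x ^ 2 + x ^ 3 := by positivity
  have p7 : 0 ≤ y ^ 6 + y ^ 5 * x + y ^ 4 * x ^ 2 + y ^ 3 * x ^ 3 +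
      y ^ 2 * x ^ 4 + y * x ^ 5 + x ^ 6 := by positivity
  have e : f y - f x = (y - x) * ((y ^ 3 + y ^ 2 * x + y * x ^ 2 + x ^ 3) +
      (y ^ 6 + y ^ 5 * x + y ^ 4 * x ^ 2 + y ^ 3 * x ^ 3 + y ^ 2 * x ^ 4 + y * x ^ 5 + x ^ 6)) := by
    unfold f; ring
  rw [e]
  refine ⟨by positivity, ?_⟩
  have ht1 : 0 < t0 := by linarith
  have ht2 : 0 < t := by linarith
  have c3 : t ^ 2 * (4 * y ^ 3) ≤ 4 * Up ^ 3 := by linarith
  have c6 : t ^ 2 * (7 * y ^ 6) ≤ 7 * Up ^ 6 / t0 ^ 2 := by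
    rw [le_div_iff₀ (by positivity)]
    have d1 : t ^ 2 * (7 * y ^ 6) * t0 ^ 2 ≤ t ^ 2 * (7 * y ^ 6) * t ^ 2 := by gcongr
    have d2 : t ^ 2 * (7 * y ^ 6) * t ^ 2 = 7 * (t ^ 2 * y ^ 3) ^ 2 := by ring
    have d3 : (t ^ 2 * y ^ 3) ^ 2 ≤ (Up ^ 3) ^ 2 := by gcongr
    have d4 : (Up ^ 3) ^ 2 = Up ^ 6 := by ring
    linarith
  have c : t ^ 2 * ((y ^ 3 + y ^ 2 * x + y * x ^ 2 + x ^ 3) +
      (y ^ 6 + y ^ 5 * x + y ^ 4 * x ^ 2 + y ^ 3 * x ^ 3 + y ^ 2 * x ^ 4 + y * x ^ 5 + x ^ 6)) ≤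
      4 * Up ^ 3 + 7 * Up ^ 6 / t0 ^ 2 := by
    have g1 : t ^ 2 * (y ^ 3 + y ^ 2 * x + y * x ^ 2 + x ^ 3) ≤ t ^ 2 * (4 * y ^ 3) := by gcongr
    have g2 : t ^ 2 * (y ^ 6 + y ^ 5 * x + y ^ 4 * x ^ 2 + y ^ 3 * x ^ 3 +
      y ^ 2 * x ^ 4 + y * x ^ 5 + x ^ 6) ≤ t ^ 2 * (7 * y ^ 6) := by gcongr
    rw [mul_add]
    linarith
  have c' := mul_le_mul_of_nonneg_right c hd
  linarith

/-- the pair lemma -/
lemma pair {u u1 v v1 : ℝ → ℝ} {α β : ℝ} (hu : IsSol α u u1) (hv : IsSol β v v1)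
    {t0 t1 Up γ : ℝ} (ht0 : 1 ≤ t0) (hUp : 0 < Up) (hUp1 : Up ≤ 1)
    (hη : 4 * Up ^ 3 + 7 * Up ^ 6 / t0 ^ 2 ≤ γ * (1 - γ))
    (h0 : 0 < v t0 - u t0)
    (h1 : γ * (v t0 - u t0) ≤ (v t0 + t0 * v1 t0) - (u t0 + t0 * u1 t0))
    (h2 : (v t0 + t0 * v1 t0) - (u t0 + t0 * u1 t0) ≤ v t0 - u t0)
    (hα : ∀ t ∈ Ico t0 t1, 0 ≤ u t) (hβ : ∀ t ∈ Ico t0 t1, t ^ 2 * v t ^ 3 ≤ Up ^ 3) :
    ∀ t ∈ Icc t0 t1, 0 < v t - u t ∧
      γ * (v t - u t) ≤ (v t + t * v1 t) - (u t + t * u1 t) ∧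
      (v t + t * v1 t) - (u t + t * u1 t) ≤ v t - u t ∧
      t0 ^ (-γ) * (t0 * (v t0 - u t0)) ≤ t ^ (-γ) * (t * (v t - u t)) := by
  have hpos : 0 < t0 := by linarith
  -- derivatives
  have dD : ∀ t, HasDerivAt (fun t => v t - u t) (v1 t - u1 t) t := fun t =>
    (hv.h0 t).sub (hu.h0 t)
  have dE : ∀ t, t ≠ 0 → HasDerivAt (fun t => v1 t - u1 t)
      (-(2 / t) * (v1 t - u1 t) - (F (v t) - F (u t))) t := fun t ht => by
    exact ((hv.h1 t ht).sub (hu.h1 t ht)).congr_deriv (by ring)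
  have dW : ∀ t, HasDerivAt (fun t => t * (v t - u t)) ((v t - u t) + t * (v1 t - u1 t)) t :=
    fun t => by
    exact ((hasDerivAt_id t).mul (dD t)).congr_deriv (by simp only [id]; ring)
  have dV : ∀ t, t ≠ 0 → HasDerivAt (fun t => (v t - u t) + t * (v1 t - u1 t))
      (-t * (F (v t) - F (u t))) t := fun t ht => by
    exact ((dD t).add ((hasDerivAt_id t).mul (dE t ht))).congr_deriv (by
      simp only [id]
      field_simp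
      ring)
  have dX : ∀ t, 0 < t → HasDerivAt (fun t => t ^ (-γ) * (t * (v t - u t)))
      (t ^ (-γ - 1) * (t * ((v t - u t) + t * (v1 t - u1 t)) - γ * (t * (v t - u t)))) t :=
    fun t ht => by
    have e : t ^ (-γ) = t ^ (-γ - 1) * t := by
      rw [← Real.rpow_add_one ht.ne']; congr 1; ring
    exact ((Real.hasDerivAt_rpow_const (p := -γ) (Or.inl ht.ne')).mul (dW t)).congr_deriv (by
      rw [e]
      ring)
  have dY : ∀ t, 0 < t → HasDerivAt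
      (fun t => t ^ (γ - 1) * (t * ((v t - u t) + t * (v1 t - u1 t)) - γ * (t * (v t - u t))))
      (t ^ (γ - 2) * t * (γ * (1 - γ) * (v t - u t) - t ^ 2 * (F (v t) - F (u t)))) t :=
    fun t ht => by
    have h3 := ((hasDerivAt_id t).mul (dV t ht.ne')).sub ((dW t).const_mul γ)
    have e : t ^ (γ - 1) = t ^ (γ - 2) * t := by
      rw [← Real.rpow_add_one ht.ne']; congr 1; ring
    have e' : γ - 1 - 1 = γ - 2 := by ring
    exact ((Real.hasDerivAt_rpow_const (p := γ - 1) (Or.inl ht.ne')).mul h3).congr_deriv (by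
      simp only [id, Pi.sub_apply, Pi.mul_apply]
      rw [e, e']
      ring)
  have dZ : ∀ t, t ≠ 0 → HasDerivAt
      (fun t => t * (v t - u t) - t * ((v t - u t) + t * (v1 t - u1 t)))
      (t ^ 2 * (F (v t) - F (u t))) t := fun t ht => by
    exact ((dW t).sub ((hasDerivAt_id t).mul (dV t ht))).congr_deriv (by
      simp only [id]
      ring)
  -- core
  have core : ∀ s ∈ Icc t0 t1, (∀ t ∈ Ico t0 s, 0 < v t - u t) →
      (0 ≤ s * ((v s - u s) + s * (v1 s - u1 s)) - γ * (s * (v s - u s))) ∧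
      t0 ^ (-γ) * (t0 * (v t0 - u t0)) ≤ s ^ (-γ) * (s * (v s - u s)) ∧
      0 ≤ s * (v s - u s) - s * ((v s - u s) + s * (v1 s - u1 s)) := by
    intro s hs hD
    have hQ : ∀ t ∈ Ioo t0 s, 0 ≤ F (v t) - F (u t) ∧ t ^ 2 * (F (v t) - F (u t)) ≤
        γ * (1 - γ) * (v t - u t) := by
      intro t ht
      have ht' : t ∈ Ico t0 t1 := ⟨ht.1.le, ht.2.trans_le hs.2⟩
      have k0 := hα t ht'
      have k1 := hβ t ht'
      have k2 := hD t ⟨ht.1.le, ht.2⟩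
      have k3 := le_one (ht0.trans ht.1.le) hUp hUp1 k1
      obtain ⟨m1, m2⟩ := diff_bound ht0 ht.1.le k0 (by linarith) k1
      rw [F_eq (by linarith) (by linarith), F_eq k0 (by linarith)]
      refine ⟨m1, m2.trans ?_⟩
      exact mul_le_mul_of_nonneg_right hη k2.le
    have hts : ∀ t ∈ Icc t0 s, 0 < t := fun t ht => by linarith [ht.1]
    have mY := mono (a := t0) (b := s) (fun t ht => dY t (hts t ht)) (fun t ht => by
      have ht2 := hts t (Ioo_subset_Icc_self ht)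
      have h3 := Real.rpow_pos_of_pos ht2 (γ - 2)
      have h4 := (hQ t ht).2
      have h5 : 0 ≤ γ * (1 - γ) * (v t - u t) - t ^ 2 * (F (v t) - F (u t)) := by linarith
      positivity)
    have hh : ∀ t ∈ Icc t0 s,
        0 ≤ t * ((v t - u t) + t * (v1 t - u1 t)) - γ * (t * (v t - u t)) := by
      intro t ht
      have h3 := mY (left_mem_Icc.mpr hs.1) ht ht.1
      have h4 : 0 ≤ t0 * ((v t0 - u t0) + t0 * (v1 t0 - u1 t0)) - γ * (t0 * (v t0 - u t0)) := by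
        have : t0 * ((v t0 - u t0) + t0 * (v1 t0 - u1 t0)) - γ * (t0 * (v t0 - u t0)) =
            t0 * (((v t0 + t0 * v1 t0) - (u t0 + t0 * u1 t0)) - γ * (v t0 - u t0)) := by ring
        rw [this]
        exact mul_nonneg hpos.le (by linarith)
      have h5 : 0 ≤ t0 ^ (γ - 1) * (t0 * ((v t0 - u t0) + t0 * (v1 t0 - u1 t0)) -
          γ * (t0 * (v t0 - u t0))) := mul_nonneg (Real.rpow_nonneg hpos.le _) h4
      have h6 := h5.trans h3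
      have h7 := Real.rpow_pos_of_pos (hts t ht) (γ - 1)
      exact nonneg_of_mul_nonneg_right h6 h7
    have mX := mono (a := t0) (b := s) (fun t ht => dX t (hts t ht)) (fun t ht => by
      have ht2 := hts t (Ioo_subset_Icc_self ht)
      exact mul_nonneg (Real.rpow_nonneg ht2.le _) (hh t (Ioo_subset_Icc_self ht)))
    have mZ := mono (a := t0) (b := s) (fun t ht => dZ t (hts t ht).ne') (fun t ht =>
      mul_nonneg (sq_nonneg t) (hQ t ht).1)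
    refine ⟨hh s (right_mem_Icc.mpr hs.1),
      mX (left_mem_Icc.mpr hs.1) (right_mem_Icc.mpr hs.1) hs.1, ?_⟩
    have h3 := mZ (left_mem_Icc.mpr hs.1) (right_mem_Icc.mpr hs.1) hs.1
    have h4 : 0 ≤ t0 * (v t0 - u t0) - t0 * ((v t0 - u t0) + t0 * (v1 t0 - u1 t0)) := by
      have : t0 * (v t0 - u t0) - t0 * ((v t0 - u t0) + t0 * (v1 t0 - u1 t0)) =
          t0 * ((v t0 - u t0) - ((v t0 + t0 * v1 t0) - (u t0 + t0 * u1 t0))) := by ring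
      rw [this]
      exact mul_nonneg hpos.le (by linarith)
    exact h4.trans h3
  have hX0 : 0 < t0 ^ (-γ) * (t0 * (v t0 - u t0)) :=
    mul_pos (Real.rpow_pos_of_pos hpos _) (mul_pos hpos h0)
  have hD : ∀ t ∈ Icc t0 t1, 0 < v t - u t := by
    apply first
    · exact fun t _ => (dD t).continuousAt.continuousWithinAt
    · intro s hs hlt
      obtain ⟨-, h3, -⟩ := core s hs hlt
      have hs0 : 0 < s := by linarith [hs.1]
      have h4 := hX0.trans_le h3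
      have h5 := (mul_pos_iff_of_pos_left (Real.rpow_pos_of_pos hs0 (-γ))).mp h4
      exact (mul_pos_iff_of_pos_left hs0).mp h5
  intro t ht
  have htpos : 0 < t := by linarith [ht.1]
  obtain ⟨c1, c2, c3⟩ := core t ht (fun r hr => hD r ⟨hr.1, hr.2.le.trans ht.2⟩)
  refine ⟨hD t ht, ?_, ?_, c2⟩
  · have : t * (γ * (v t - u t)) ≤ t * ((v t + t * v1 t) - (u t + t * u1 t)) := by linarith
    exact le_of_mul_le_mul_left this htpos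
  · have : t * ((v t + t * v1 t) - (u t + t * u1 t)) ≤ t * (v t - u t) := by linarith
    exact le_of_mul_le_mul_left this htpos

lemma cbrt {τ : ℝ} (hτ : 0 < τ) : ∃ κ : ℝ, 0 < κ ∧ κ ^ 3 = τ := by
  refine ⟨τ ^ (1 / 3 : ℝ), Real.rpow_pos_of_pos hτ _, ?_⟩
  rw [← Real.rpow_natCast, ← Real.rpow_mul hτ.le]
  norm_num

/-- slope at the section -/
lemma slope {v v1 : ℝ → ℝ} {β : ℝ} (hv : IsSol β v v1) {t0 κ Up : ℝ} (ht0 : 1 ≤ t0)
    (hκ : 0 < κ) (hUp : 0 < Up) (hUp1 : Up ≤ 1) (hκt : t0 ≤ κ ^ 3)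
    (hβ0 : ∀ t ∈ Icc t0 (κ ^ 3), 0 ≤ v t)
    (hβ : ∀ t ∈ Icc t0 (κ ^ 3), t ^ 2 * v t ^ 3 ≤ Up ^ 3) :
    ∀ x0, 0 < x0 → x0 ^ 3 = t0 → κ ^ 2 * (κ ^ 3 * -(v1 (κ ^ 3))) ≤
      (t0 ^ 2 * -(v1 t0) + 3 * Up ^ 4 * (1 + Up ^ 3 / t0 ^ 2) * (κ - x0)) / κ := by
  have hpos : 0 < t0 := by linarith
  intro x0 hx0 hx0t
  have hx0κ : x0 ≤ κ := by
    rw [← hx0t] at hκt
    exact (pow_le_pow_iff_left₀ hx0.le hκ.le (by norm_num)).mp hκt
  set A := 3 * Up ^ 4 * (1 + Up ^ 3 / t0 ^ 2) with hA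
  have hA0 : 0 ≤ A := by positivity
  have dY : ∀ t, t ≠ 0 → HasDerivAt (fun t => -t ^ 2 * v1 t) (t ^ 2 * F (v t)) t := fun t ht =>
    (((hasDerivAt_pow 2 t).neg).mul (hv.h1 t ht)).congr_deriv (by
      simp only [Nat.cast_ofNat, Pi.neg_apply]
      field_simp
      ring)
  have dg : ∀ x, 0 < x → HasDerivAt (fun x => A * x - (-(x ^ 3) ^ 2 * v1 (x ^ 3)))
      (A - (x ^ 3) ^ 2 * F (v (x ^ 3)) * (3 * x ^ 2)) x := fun x hx => by
    have h1 := (dY (x ^ 3) (by positivity)).comp x (hasDerivAt_pow 3 x)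
    have h2 := (hasDerivAt_id x).const_mul A
    exact (h2.sub h1).congr_deriv (by norm_num)
  have hm := mono (a := x0) (b := κ) (fun x hx => dg x (by linarith [hx.1])) (fun x hx => by
    have hx1 : 0 < x := by linarith [hx.1]
    have ht1 : t0 ≤ x ^ 3 := by
      rw [← hx0t]
      exact pow_le_pow_left₀ hx0.le hx.1.le 3
    have ht2 : x ^ 3 ≤ κ ^ 3 := pow_le_pow_left₀ hx1.le hx.2.le 3
    have k0 := hβ0 (x ^ 3) ⟨ht1, ht2⟩
    have k1 := hβ (x ^ 3) ⟨ht1, ht2⟩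
    have k2 := le_one (ht0.trans ht1) hUp hUp1 k1
    rw [F_eq k0 (by linarith)]
    set y := v (x ^ 3)
    have hp0 : 0 ≤ x ^ 2 * y := by positivity
    have hp : x ^ 2 * y ≤ Up := by
      rw [← pow_le_pow_iff_left₀ hp0 hUp.le (n := 3) (by norm_num)]
      have : (x ^ 2 * y) ^ 3 = (x ^ 3) ^ 2 * y ^ 3 := by ring
      rw [this]
      exact k1
    have a4 : (x ^ 2 * y) ^ 4 ≤ Up ^ 4 := pow_le_pow_left₀ hp0 hp 4
    have a7 : (x ^ 2 * y) ^ 7 ≤ Up ^ 7 := pow_le_pow_left₀ hp0 hp 7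
    have b4 : (x ^ 3) ^ 2 * y ^ 4 * x ^ 2 ≤ Up ^ 4 := by
      have : (x ^ 3) ^ 2 * y ^ 4 * x ^ 2 = (x ^ 2 * y) ^ 4 := by ring
      linarith
    have b7 : (x ^ 3) ^ 2 * y ^ 7 * x ^ 2 ≤ Up ^ 7 / t0 ^ 2 := by
      rw [le_div_iff₀ (by positivity)]
      have c1 : (x ^ 3) ^ 2 * y ^ 7 * x ^ 2 * t0 ^ 2 ≤
          (x ^ 3) ^ 2 * y ^ 7 * x ^ 2 * (x ^ 3) ^ 2 := by gcongr
      have c2 : (x ^ 3) ^ 2 * y ^ 7 * x ^ 2 * (x ^ 3) ^ 2 = (x ^ 2 * y) ^ 7 := by ring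
      linarith
    have e : (x ^ 3) ^ 2 * f y * (3 * x ^ 2) =
        3 * ((x ^ 3) ^ 2 * y ^ 4 * x ^ 2 + (x ^ 3) ^ 2 * y ^ 7 * x ^ 2) := by unfold f; ring
    have e2 : A = 3 * (Up ^ 4 + Up ^ 7 / t0 ^ 2) := by rw [hA]; ring
    rw [e, e2]
    linarith)
  have h1 := hm (left_mem_Icc.mpr hx0κ) (right_mem_Icc.mpr hx0κ) hx0κ
  simp only at h1
  rw [hx0t] at h1
  have h2 : -(κ ^ 3) ^ 2 * v1 (κ ^ 3) ≤ t0 ^ 2 * -(v1 t0) + A * (κ - x0) := by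
    linarith
  have h3 : κ ^ 2 * (κ ^ 3 * -(v1 (κ ^ 3))) = (-(κ ^ 3) ^ 2 * v1 (κ ^ 3)) / κ := by
    field_simp
  rw [h3]
  exact div_le_div_of_nonneg_right h2 hκ.le

end TD

open TD in
theorem section_flow (u u1 : ℝ → ℝ → ℝ) (hu : ∀ α, IsSol α (u α) (u1 α)) (hdep : Dep u u1)
    (hneg : ∀ α, 0 < α → ∀ t, 0 < t → u1 α t < 0)
    {as b t0 Up γ : ℝ} (has : 0 ≤ as) (hab : as < b) (hb : b < 2) (ht0 : 1 ≤ t0)
    (hUp : 0 < Up) (hUp1 : Up ≤ 1)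
    -- the base solution stays below the section for ever
    (hbase : ∀ t, t0 ≤ t → 0 ≤ u as t ∧ 0 ≤ u as t + t * u1 as t ∧ t ^ 2 * u as t ^ 3 ≤ Up ^ 3)
    (hstart : ∀ α ∈ Icc as b, t0 ^ 2 * u α t0 ^ 3 < Up ^ 3)
    (hpair : ∀ α ∈ Icc as b, ∀ β ∈ Icc as b, α < β →
      0 < u β t0 - u α t0 ∧
      γ * (u β t0 - u α t0) ≤ (u β t0 + t0 * u1 β t0) - (u α t0 + t0 * u1 α t0) ∧
      (u β t0 + t0 * u1 β t0) - (u α t0 + t0 * u1 α t0) ≤ u β t0 - u α t0)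
    (hγ : 1 / 3 < γ) (hγ1 : γ < 1) (hη : 4 * Up ^ 3 + 7 * Up ^ 6 / t0 ^ 2 ≤ γ * (1 - γ)) :
    ∀ β ∈ Ioc as b, ∃ κ : ℝ, 0 < κ ∧ t0 ≤ κ ^ 3 ∧
      -- section time `tp = κ^3`
      κ ^ 2 * u β (κ ^ 3) = Up ∧
      (∀ t ∈ Icc t0 (κ ^ 3), t ^ 2 * u β t ^ 3 ≤ Up ^ 3) ∧
      -- slope at the section
      (∀ x0, 0 < x0 → x0 ^ 3 = t0 → κ ^ 2 * (κ ^ 3 * -(u1 β (κ ^ 3))) ≤
        (t0 ^ 2 * -(u1 β t0) + 3 * Up ^ 4 * (1 + Up ^ 3 / t0 ^ 2) * (κ - x0)) / κ) ∧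
      -- monotonicity of the section time: every smaller parameter reaches it later
      (∀ α ∈ Ioo as β, ∀ t ∈ Icc t0 (κ ^ 3), 0 ≤ u α t ∧ u α t < u β t) ∧
      -- cone condition for differences at the section time
      (∀ α ∈ Ioo as β,
        γ * (u β (κ ^ 3) - u α (κ ^ 3)) ≤
          (u β (κ ^ 3) + κ ^ 3 * u1 β (κ ^ 3)) - (u α (κ ^ 3) + κ ^ 3 * u1 α (κ ^ 3)) ∧
        (u β (κ ^ 3) + κ ^ 3 * u1 β (κ ^ 3)) - (u α (κ ^ 3) + κ ^ 3 * u1 α (κ ^ 3)) ≤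
          u β (κ ^ 3) - u α (κ ^ 3)) := by
  intro β hβ
  have hpos : 0 < t0 := by linarith
  have hasm : as ∈ Icc as b := ⟨le_rfl, hab.le⟩
  have hβm : β ∈ Icc as b := ⟨hβ.1.le, hβ.2⟩
  have hcont : ∀ α, Continuous (u α) := fun α =>
    continuous_iff_continuousAt.mpr fun t => ((hu α).h0 t).continuousAt
  have hS : Continuous fun t => t ^ 2 * u β t ^ 3 :=
    (continuous_pow 2).mul ((hcont β).pow 3)
  -- the pair (as, β)
  have p1 : ∀ s, t0 ≤ s → (∀ t ∈ Ico t0 s, t ^ 2 * u β t ^ 3 ≤ Up ^ 3) →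
      ∀ t ∈ Icc t0 s, 0 < u β t - u as t ∧
      γ * (u β t - u as t) ≤ (u β t + t * u1 β t) - (u as t + t * u1 as t) ∧
      (u β t + t * u1 β t) - (u as t + t * u1 as t) ≤ u β t - u as t ∧
      t0 ^ (-γ) * (t0 * (u β t0 - u as t0)) ≤ t ^ (-γ) * (t * (u β t - u as t)) := by
    intro s _ hs
    obtain ⟨a, c, d⟩ := hpair as hasm β hβm hβ.1
    exact pair (hu as) (hu β) ht0 hUp hUp1 hη a c d (fun t ht => (hbase t ht.1).1) hs
  -- the section is reached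
  have hreach : ∃ T, t0 ≤ T ∧ Up ^ 3 ≤ T ^ 2 * u β T ^ 3 := by
    by_contra hcon
    push Not at hcon
    have hlt : ∀ t, t0 ≤ t → (t0 ^ (-γ) * (t0 * (u β t0 - u as t0))) ^ 3 ≤
        t ^ (-(3 * γ - 1)) := by
      intro t ht
      have htp : 0 < t := by linarith
      obtain ⟨q1, -, -, q2⟩ := p1 t ht (fun r hr => (hcon r hr.1).le) t ⟨ht, le_rfl⟩
      obtain ⟨r1, -, -⟩ := hpair as hasm β hβm hβ.1
      have q3 : 0 ≤ t0 ^ (-γ) * (t0 * (u β t0 - u as t0)) :=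
        mul_nonneg (Real.rpow_nonneg hpos.le _) (mul_nonneg hpos.le r1.le)
      have q4 : u β t - u as t ≤ u β t := by linarith [(hbase t ht).1]
      have q5 : t ^ (-γ) * (t * (u β t - u as t)) ≤ t ^ (-γ) * (t * u β t) := by
        have := Real.rpow_nonneg htp.le (-γ)
        gcongr
      have q6 : (t0 ^ (-γ) * (t0 * (u β t0 - u as t0))) ^ 3 ≤ (t ^ (-γ) * (t * u β t)) ^ 3 :=
        pow_le_pow_left₀ q3 (q2.trans q5) 3
      refine q6.trans ?_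
      have q7 : (t ^ (-γ) * (t * u β t)) ^ 3 = (t ^ (-γ)) ^ 3 * t * (t ^ 2 * u β t ^ 3) := by ring
      have q8 : (t ^ (-γ)) ^ 3 * t = t ^ (-(3 * γ - 1)) := by
        rw [← Real.rpow_natCast, ← Real.rpow_mul htp.le, ← Real.rpow_add_one htp.ne']
        congr 1
        push_cast
        ring
      rw [q7, q8]
      have q9 : t ^ 2 * u β t ^ 3 ≤ 1 := (hcon t ht).le.trans (pow_le_one₀ hUp.le hUp1)
      exact mul_le_of_le_one_right (Real.rpow_nonneg htp.le _) q9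
    obtain ⟨r1, -, -⟩ := hpair as hasm β hβm hβ.1
    have hc : 0 < (t0 ^ (-γ) * (t0 * (u β t0 - u as t0))) ^ 3 :=
      pow_pos (mul_pos (Real.rpow_pos_of_pos hpos _) (mul_pos hpos r1)) 3
    have htend := tendsto_rpow_neg_atTop (show 0 < 3 * γ - 1 by linarith)
    have hev := (htend.eventually (gt_mem_nhds hc)).and (Filter.eventually_ge_atTop t0)
    obtain ⟨t, ht1, ht2⟩ := hev.exists
    exact absurd ht1 (not_lt.mpr (hlt t ht2))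
  obtain ⟨T, hT, hTS⟩ := hreach
  have hcomp : IsCompact (Icc t0 T ∩ (fun t => t ^ 2 * u β t ^ 3) ⁻¹' Ici (Up ^ 3)) :=
    isCompact_Icc.inter_right (isClosed_Ici.preimage hS)
  have hne : (Icc t0 T ∩ (fun t => t ^ 2 * u β t ^ 3) ⁻¹' Ici (Up ^ 3)).Nonempty :=
    ⟨T, ⟨hT, le_rfl⟩, hTS⟩
  have hτ := hcomp.sInf_mem hne
  set τ := sInf (Icc t0 T ∩ (fun t => t ^ 2 * u β t ^ 3) ⁻¹' Ici (Up ^ 3))
  have hτlt : ∀ t ∈ Ico t0 τ, t ^ 2 * u β t ^ 3 < Up ^ 3 := by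
    intro t ht
    by_contra h
    push Not at h
    have : τ ≤ t := csInf_le hcomp.bddBelow ⟨⟨ht.1, ht.2.le.trans hτ.1.2⟩, h⟩
    exact absurd ht.2 (not_lt.mpr this)
  have hτeq : τ ^ 2 * u β τ ^ 3 = Up ^ 3 := by
    have h1 := intermediate_value_Icc hτ.1.1 (f := fun t => t ^ 2 * u β t ^ 3) hS.continuousOn
    obtain ⟨r, hr, hr2⟩ := h1 ⟨(hstart β hβm).le, hτ.2⟩
    have hrτ : r = τ := by
      by_contra hne
      have := hτlt r ⟨hr.1, lt_of_le_of_ne hr.2 hne⟩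
      simp only at hr2
      linarith
    rw [← hrτ]
    exact hr2
  have hτ0 : 0 < τ := by linarith [hτ.1.1]
  obtain ⟨κ, hκ, hκτ⟩ := cbrt hτ0
  have hle : ∀ t ∈ Icc t0 τ, t ^ 2 * u β t ^ 3 ≤ Up ^ 3 := by
    intro t ht
    rcases eq_or_lt_of_le ht.2 with h | h
    · rw [h, hτeq]
    · exact (hτlt t ⟨ht.1, h⟩).le
  have P1 := p1 τ hτ.1.1 (fun t ht => (hτlt t ht).le)
  have hβ0 : ∀ t ∈ Icc t0 τ, 0 ≤ u β t := fun t ht => by
    linarith [(P1 t ht).1, (hbase t ht.1).1]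
  -- triples
  have htriple : ∀ α ∈ Ioo as β, ∀ t ∈ Icc t0 τ, 0 < u α t - u as t := by
    intro α hα
    have hαm : α ∈ Icc as b := ⟨hα.1.le, hα.2.le.trans hβ.2⟩
    apply first
    · exact ((hcont α).sub (hcont as)).continuousOn
    · intro s hs hlt
      obtain ⟨a, c, d⟩ := hpair α hαm β hβm hα.2
      have h0 : ∀ t ∈ Ico t0 s, 0 ≤ u α t := fun t ht => by
        linarith [hlt t ht, (hbase t ht.1).1]
      have hp := pair (hu α) (hu β) ht0 hUp hUp1 hη a c d h0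
        (fun t ht => (hτlt t ⟨ht.1, ht.2.trans_le hs.2⟩).le)
      obtain ⟨a', c', d'⟩ := hpair as hasm α hαm hα.1
      have hp2 := pair (hu as) (hu α) ht0 hUp hUp1 hη a' c' d' (t1 := s)
        (fun t ht => (hbase t ht.1).1) (fun t ht => by
          have h1 := h0 t ht
          have h2 := (hp t ⟨ht.1, ht.2.le⟩).1
          have h3 : u α t ^ 3 ≤ u β t ^ 3 := pow_le_pow_left₀ h1 (by linarith) 3
          have h4 := (hτlt t ⟨ht.1, ht.2.trans_le hs.2⟩).le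
          have h5 : t ^ 2 * u α t ^ 3 ≤ t ^ 2 * u β t ^ 3 :=
            mul_le_mul_of_nonneg_left h3 (sq_nonneg t)
          linarith)
      exact (hp2 s ⟨hs.1, le_rfl⟩).1
  have hα0 : ∀ α ∈ Ioo as β, ∀ t ∈ Icc t0 τ, 0 ≤ u α t := fun α hα t ht => by
    linarith [htriple α hα t ht, (hbase t ht.1).1]
  have P2 : ∀ α ∈ Ioo as β, ∀ t ∈ Icc t0 τ, 0 < u β t - u α t ∧
      γ * (u β t - u α t) ≤ (u β t + t * u1 β t) - (u α t + t * u1 α t) ∧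
      (u β t + t * u1 β t) - (u α t + t * u1 α t) ≤ u β t - u α t ∧
      t0 ^ (-γ) * (t0 * (u β t0 - u α t0)) ≤ t ^ (-γ) * (t * (u β t - u α t)) := by
    intro α hα
    have hαm : α ∈ Icc as b := ⟨hα.1.le, hα.2.le.trans hβ.2⟩
    obtain ⟨a, c, d⟩ := hpair α hαm β hβm hα.2
    exact pair (hu α) (hu β) ht0 hUp hUp1 hη a c d
      (fun t ht => hα0 α hα t ⟨ht.1, ht.2.le⟩) (fun t ht => (hτlt t ht).le)
  have hττ : τ ∈ Icc t0 τ := ⟨hτ.1.1, le_rfl⟩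
  refine ⟨κ, hκ, by rw [hκτ]; exact hτ.1.1, ?_, by rw [hκτ]; exact hle, ?_, ?_, ?_⟩
  · rw [← pow_left_inj₀ (mul_nonneg (sq_nonneg κ) (by rw [hκτ]; exact hβ0 τ hττ)) hUp.le
      (n := 3) (by norm_num), ← hτeq, ← hκτ]
    ring
  · refine slope (hu β) ht0 hκ hUp hUp1 (by rw [hκτ]; exact hτ.1.1) ?_ ?_
    · rw [hκτ]; exact hβ0
    · rw [hκτ]; exact hle
  · rw [hκτ]
    intro α hα t ht
    exact ⟨hα0 α hα t ht, by linarith [(P2 α hα t ht).1]⟩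
  · rw [hκτ]
    intro α hα
    obtain ⟨-, h1, h2, -⟩ := P2 α hα τ hττ
    exact ⟨h1, h2⟩

end Pool.Agent.H228
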