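import Mathlib
import Pool.Agent.H228.Sem
import Pool.Agent.H228.Fast
import Pool.Agent.H228.Sect
import Pool.Agent.H228.Ode

/-! TASK U1: regions treated with `fast_decay` and `section_flow`. -/

set_option autoImplicit false

namespace Pool.Agent.H228

open Set

/-- bounds for all segments of the box `α = (ac + ar a)/S` at time `t0` -/
def BoxB (u u1 : ℝ → ℝ → ℝ) (S t0 : ℝ) (ac ar w : ℕ) (sg : List SegC) : Prop :=
  sg.length = 2 ^ w ∧ ∀ (i : ℕ) (hi : i < sg.length),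
    SegB S t0 (segLo w i) (segHi w i) (fun a t => u (((ac : ℝ) + ar * a) / S) t)
      (fun a t => u1 (((ac : ℝ) + ar * a) / S) t) sg[i]

namespace U1

theorem segLo_zero (w : ℕ) : segLo w 0 = -1 := by
  unfold segLo
  have : (2:ℝ) ^ w ≠ 0 := by positivity
  field_simp
  simp

theorem segLo_last (w : ℕ) : segLo w (2 ^ w) = 1 := by
  unfold segLo
  have : (2:ℝ) ^ w ≠ 0 := by positivity
  push_cast
  field_simp
  ring

theorem segHi_eq (w i : ℕ) : segHi w i = segLo w (i + 1) := by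
  unfold segHi segLo
  push_cast
  ring

theorem segLo_lt (w i : ℕ) : segLo w i < segLo w (i + 1) := by
  unfold segLo
  have : (0:ℝ) < 2 ^ w := by positivity
  apply div_lt_div_of_pos_right _ this
  push_cast
  linarith

theorem segLo_ge (w i : ℕ) : -1 ≤ segLo w i := by
  induction i with
  | zero => rw [segLo_zero]
  | succ i ih => exact ih.trans (segLo_lt w i).le

theorem seg_exists (w n : ℕ) (hn : 0 < n) (a : ℝ) (ha : a ∈ Icc (-1) (segLo w n)) :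
    ∃ i < n, a ∈ Icc (segLo w i) (segHi w i) := by
  induction n with
  | zero => exact absurd hn (lt_irrefl 0)
  | succ n ih =>
    rcases le_or_gt (segLo w n) a with h | h
    · exact ⟨n, Nat.lt_succ_self n, h, by rw [segHi_eq]; exact ha.2⟩
    · rcases Nat.eq_zero_or_pos n with h0 | h0
      · subst h0
        rw [segLo_zero] at h
        exact absurd ha.1 (not_le.2 h)
      · obtain ⟨i, hi, h1⟩ := ih h0 ⟨ha.1, h.le⟩
        exact ⟨i, by omega, h1⟩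

theorem strictMono_seg {g : ℝ → ℝ} (w n : ℕ)
    (h : ∀ i < n, StrictMonoOn g (Icc (segLo w i) (segHi w i))) :
    StrictMonoOn g (Icc (-1) (segLo w n)) := by
  induction n with
  | zero =>
    rw [segLo_zero, Icc_self]
    exact (Set.subsingleton_singleton).strictMonoOn g
  | succ n ih =>
    have h1 := ih fun i hi => h i (by omega)
    have h2 := h n (Nat.lt_succ_self n)
    rw [segHi_eq] at h2
    have h3 := h1.union h2 (isGreatest_Icc (segLo_ge w n)) (isLeast_Icc (segLo_lt w n).le)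
    rwa [Icc_union_Icc_eq_Icc (segLo_ge w n) (segLo_lt w n).le] at h3

theorem mono_seg {g : ℝ → ℝ} (w n : ℕ)
    (h : ∀ i < n, MonotoneOn g (Icc (segLo w i) (segHi w i))) :
    MonotoneOn g (Icc (-1) (segLo w n)) := by
  induction n with
  | zero =>
    rw [segLo_zero, Icc_self]
    exact (Set.subsingleton_singleton).monotoneOn g
  | succ n ih =>
    have h1 := ih fun i hi => h i (by omega)
    have h2 := h n (Nat.lt_succ_self n)
    rw [segHi_eq] at h2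
    have h3 := h1.union_right h2 (isGreatest_Icc (segLo_ge w n)) (isLeast_Icc (segLo_lt w n).le)
    rwa [Icc_union_Icc_eq_Icc (segLo_ge w n) (segLo_lt w n).le] at h3

theorem pre_mem {S : ℝ} {ac ar : ℕ} (hS : 0 < S) (har : 0 < ar) {α : ℝ}
    (hα : α ∈ Icc (((ac : ℝ) - ar) / S) (((ac : ℝ) + ar) / S)) :
    (S * α - ac) / ar ∈ Icc (-1 : ℝ) 1 ∧ ((ac : ℝ) + ar * ((S * α - ac) / ar)) / S = α := by
  have har' : (0:ℝ) < ar := by exact_mod_cast har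
  obtain ⟨h1, h2⟩ := hα
  rw [div_le_iff₀ hS] at h1
  rw [le_div_iff₀ hS] at h2
  refine ⟨⟨?_, ?_⟩, ?_⟩
  · rw [le_div_iff₀ har']; linarith
  · rw [div_le_iff₀ har']; linarith
  · field_simp
    ring

/-- the functional on one segment -/
theorem seg_diff {S t0 : ℝ} {lo hi : ℝ} {v v1 : ℝ → ℝ → ℝ} {s : SegC}
    (hs : SegB S t0 lo hi v v1 s) {l1 l2 : ℝ} {a b : ℝ} (ha : a ∈ Icc lo hi) (hb : b ∈ Icc lo hi)
    (hab : a < b) : ∃ D E : ℝ, (s.Dl : ℝ) / S ≤ D ∧ D ≤ s.Dh / S ∧ (s.El : ℝ) / S ≤ E ∧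
      E ≤ s.Eh / S ∧
      (l1 * v b t0 + l2 * (t0 * v1 b t0)) - (l1 * v a t0 + l2 * (t0 * v1 a t0)) =
        (l1 * D + l2 * E) * (b - a) := by
  have h1 := hs.dv a ha b hb hab.ne
  have h2 := hs.ds a ha b hb hab.ne
  refine ⟨_, _, h1.1, h1.2, h2.1, h2.2, ?_⟩
  have h3 : b - a ≠ 0 := by linarith [sub_pos.2 hab]
  unfold d1
  field_simp
  ring

theorem box_strict {u u1 : ℝ → ℝ → ℝ} {S t0 : ℝ} {ac ar w : ℕ} {sg : List SegC} (hS : 0 < S)
    (har : 0 < ar) (hb : BoxB u u1 S t0 ac ar w sg) {l1 l2 : ℝ}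
    (h : ∀ s ∈ sg, ∀ D E : ℝ, (s.Dl : ℝ) / S ≤ D → D ≤ s.Dh / S → (s.El : ℝ) / S ≤ E → E ≤ s.Eh / S →
      0 < l1 * D + l2 * E) :
    StrictMonoOn (fun α => l1 * u α t0 + l2 * (t0 * u1 α t0))
      (Icc (((ac : ℝ) - ar) / S) (((ac : ℝ) + ar) / S)) := by
  have har' : (0:ℝ) < ar := by exact_mod_cast har
  have key := strictMono_seg (g := fun a => l1 * u (((ac : ℝ) + ar * a) / S) t0 +
    l2 * (t0 * u1 (((ac : ℝ) + ar * a) / S) t0)) w (2 ^ w) (by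
      intro i hi a ha b hb' hab
      have hi' : i < sg.length := by rw [hb.1]; exact hi
      obtain ⟨D, E, h1, h2, h3, h4, h5⟩ := seg_diff (hb.2 i hi') (l1 := l1)
        (l2 := l2) ha hb' hab
      have h6 := h _ (List.getElem_mem hi') D E h1 h2 h3 h4
      have h7 := mul_pos h6 (sub_pos.2 hab)
      rw [← h5] at h7
      exact sub_pos.1 h7)
  rw [segLo_last] at key
  intro α hα β hβ hαβ
  obtain ⟨h1, h2⟩ := pre_mem hS har hα
  obtain ⟨h3, h4⟩ := pre_mem hS har hβ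
  have h5 : (S * α - ac) / ar < (S * β - ac) / ar := by
    apply div_lt_div_of_pos_right _ har'
    nlinarith
  have := key h1 h3 h5
  simp only [h2, h4] at this
  exact this

theorem box_mono {u u1 : ℝ → ℝ → ℝ} {S t0 : ℝ} {ac ar w : ℕ} {sg : List SegC} (hS : 0 < S)
    (har : 0 < ar) (hb : BoxB u u1 S t0 ac ar w sg) {l1 l2 : ℝ}
    (h : ∀ s ∈ sg, ∀ D E : ℝ, (s.Dl : ℝ) / S ≤ D → D ≤ s.Dh / S → (s.El : ℝ) / S ≤ E → E ≤ s.Eh / S →
      0 ≤ l1 * D + l2 * E) :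
    MonotoneOn (fun α => l1 * u α t0 + l2 * (t0 * u1 α t0))
      (Icc (((ac : ℝ) - ar) / S) (((ac : ℝ) + ar) / S)) := by
  have har' : (0:ℝ) < ar := by exact_mod_cast har
  have key := mono_seg (g := fun a => l1 * u (((ac : ℝ) + ar * a) / S) t0 +
    l2 * (t0 * u1 (((ac : ℝ) + ar * a) / S) t0)) w (2 ^ w) (by
      intro i hi a ha b hb' hab
      rcases hab.eq_or_lt with hab | hab
      · rw [hab]
      have hi' : i < sg.length := by rw [hb.1]; exact hi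
      obtain ⟨D, E, h1, h2, h3, h4, h5⟩ := seg_diff (hb.2 i hi') (l1 := l1)
        (l2 := l2) ha hb' hab
      have h6 := h _ (List.getElem_mem hi') D E h1 h2 h3 h4
      have h7 := mul_nonneg h6 (sub_pos.2 hab).le
      rw [← h5] at h7
      exact sub_nonneg.1 h7)
  rw [segLo_last] at key
  intro α hα β hβ hαβ
  obtain ⟨h1, h2⟩ := pre_mem hS har hα
  obtain ⟨h3, h4⟩ := pre_mem hS har hβ
  have h5 : (S * α - ac) / ar ≤ (S * β - ac) / ar := by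
    apply div_le_div_of_nonneg_right _ har'.le
    nlinarith
  have := key h1 h3 h5
  simp only [h2, h4] at this
  exact this

end U1

open U1

/-- a linear functional of differences which is positive on pairs in each segment is positive on all pairs
of the box -/
theorem box_pairs {u u1 : ℝ → ℝ → ℝ} {S t0 : ℝ} {ac ar w : ℕ} {sg : List SegC} (hS : 0 < S)
    (har : 0 < ar) (hb : BoxB u u1 S t0 ac ar w sg) {l1 l2 : ℝ}
    (h : ∀ s ∈ sg, ∀ D E : ℝ, (s.Dl : ℝ) / S ≤ D → D ≤ s.Dh / S → (s.El : ℝ) / S ≤ E → E ≤ s.Eh / S →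
      0 < l1 * D + l2 * E) :
    ∀ α ∈ Icc (((ac : ℝ) - ar) / S) (((ac : ℝ) + ar) / S),
      ∀ β ∈ Icc (((ac : ℝ) - ar) / S) (((ac : ℝ) + ar) / S), α < β →
      0 < l1 * (u β t0 - u α t0) + l2 * (t0 * u1 β t0 - t0 * u1 α t0) := by
  intro α hα β hβ hαβ
  have := box_strict hS har hb h hα hβ hαβ
  simp only at this
  linarith

/-- every point of the box is in a segment -/
theorem box_point {u u1 : ℝ → ℝ → ℝ} {S t0 : ℝ} {ac ar w : ℕ} {sg : List SegC} (hS : 0 < S)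
    (har : 0 < ar) (hb : BoxB u u1 S t0 ac ar w sg) :
    ∀ α ∈ Icc (((ac : ℝ) - ar) / S) (((ac : ℝ) + ar) / S), ∃ s ∈ sg,
      (s.vl : ℝ) / S ≤ u α t0 ∧ u α t0 ≤ s.vh / S ∧
      (s.yl : ℝ) / S ≤ t0 * u1 α t0 ∧ t0 * u1 α t0 ≤ s.yh / S := by
  intro α hα
  obtain ⟨h1, h2⟩ := pre_mem hS har hα
  obtain ⟨i, hi, h3⟩ := seg_exists w (2 ^ w) (by positivity) _ (by rw [segLo_last]; exact h1)
  have hi' : i < sg.length := by rw [hb.1]; exact hi
  have h4 := (hb.2 i hi').val _ h3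
  have h5 := (hb.2 i hi').slo _ h3
  simp only [h2] at h4 h5
  exact ⟨_, List.getElem_mem hi', h4.1, h4.2, h5.1, h5.2⟩

namespace U1

theorem fdSeg_spec {q S Bm cp : ℚ} {s : SegC} (h : fdSeg q S Bm cp s = true) :
    0 < s.vl ∧ (q : ℝ) * (s.vh / S) ≤ Bm ∧ 0 < s.Dl ∧
      0 < (1 - 2 * (cp : ℝ)) * s.Dl + (1 - cp) * s.El := by
  simp only [fdSeg, Bool.and_eq_true, decide_eq_true_eq] at h
  obtain ⟨⟨⟨h1, h2⟩, h3⟩, h4⟩ := h
  exact ⟨h1, by exact_mod_cast h2, h3, by exact_mod_cast h4⟩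

theorem head_spec {l : List SegC} {P : SegC → Bool}
    (h : (match l.head? with
    | some s => P s
    | none => false) = true) (h0 : 0 < l.length) : P l[0] = true := by
  cases l with
  | nil => simp at h0
  | cons a l => simpa using h

theorem last_spec {l : List SegC} {P : SegC → Bool}
    (h : (match l.getLast? with
    | some s => P s
    | none => false) = true) (h0 : l.length - 1 < l.length) : P l[l.length - 1] = true := by
  have h1 : l ≠ [] := by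
    rintro rfl
    simp at h0
  rw [List.getLast?_eq_getLast_of_ne_nil h1] at h
  rw [List.getLast_eq_getElem] at h
  exact h

end U1

/-- `fast_decay` on a box -/
theorem fd_box {u u1 : ℝ → ℝ → ℝ} (hu : ∀ α, IsSol α (u α) (u1 α)) (hdep : Dep u u1)
    (hneg : ∀ α, 0 < α → ∀ t, 0 < t → u1 α t < 0) {S t0 : ℝ} {ac ar w : ℕ} {sg : List SegC}
    {q Sq Bm B : ℚ} (hq : t0 = q) (hSq : S = Sq) (hS : 0 < S) (ht0 : 0 < t0) (har : 0 < ar)
    (h0 : ar < ac) (h2 : (ac : ℝ) + ar < 2 * S) (hB : 0 < B)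
    (hb : BoxB u u1 S t0 ac ar w sg) (hc : fdOK q Sq Bm B sg = true) :
    ∃ αs ∈ Ioo (((ac : ℝ) - ar) / S) (((ac : ℝ) + ar) / S),
      (∀ α ∈ Ico (((ac : ℝ) - ar) / S) αs, ∃ T, Hit (u α) T) ∧
      (∀ α ∈ Ico (((ac : ℝ) - ar) / S) αs, ∀ β ∈ Ico (((ac : ℝ) - ar) / S) αs, α < β →
        ∀ T T', Hit (u α) T → Hit (u β) T' → T < T') ∧
      (∀ s, ¬ Hit (u αs) s) ∧
      (∀ t, 0 ≤ t → 0 < u αs t) ∧
      (∀ t, t0 ≤ t → 0 ≤ u αs t + t * u1 αs t ∧ t * u αs t ≤ B) := by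
  subst hq hSq
  simp only [fdOK, Bool.and_eq_true, decide_eq_true_eq] at hc
  obtain ⟨⟨⟨⟨⟨⟨⟨c1, c2⟩, c3⟩, c4⟩, c5⟩, c6⟩, c7⟩, c8⟩ := hc
  set cp : ℚ := (4 * B ^ 3 + 7 * B ^ 6 / q ^ 3) / (2 * q) with hcp
  have har' : (0:ℝ) < ar := by exact_mod_cast har
  have h0' : (ar:ℝ) < ac := by exact_mod_cast h0
  have hBR : (0:ℝ) < (B:ℝ) := by exact_mod_cast hB
  have e2 : (B:ℝ) / q ≤ 3 := by exact_mod_cast c2
  have e3 : (0:ℝ) ≤ cp := by exact_mod_cast c3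
  have e4 : 2 * (cp:ℝ) ≤ 1 := by exact_mod_cast c4
  have e5 : (Bm:ℝ) + ((B:ℝ) ^ 4 / (2 * q) + (B:ℝ) ^ 7 / (20 * q ^ 4)) < B := by exact_mod_cast c5
  have ecp : (cp:ℝ) = (4 * (B:ℝ) ^ 3 + 7 * (B:ℝ) ^ 6 / q ^ 3) / (2 * q) := by
    rw [hcp]; push_cast; ring
  rw [List.all_eq_true] at c6
  have c6' : ∀ s ∈ sg, 0 < s.vl ∧ (q : ℝ) * (s.vh / Sq) ≤ Bm ∧ 0 < s.Dl ∧
      0 < (1 - 2 * (cp : ℝ)) * s.Dl + (1 - cp) * s.El := fun s hs => fdSeg_spec (c6 s hs)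
  have hlen : 0 < sg.length := by rw [hb.1]; positivity
  have hab : ((ac:ℝ) - ar) / Sq < ((ac:ℝ) + ar) / Sq := by
    apply div_lt_div_of_pos_right _ hS; linarith
  have hpt := box_point hS har hb
  have hstrict : ∀ s ∈ sg, ∀ D E : ℝ, (s.Dl : ℝ) / Sq ≤ D → D ≤ s.Dh / Sq → (s.El : ℝ) / Sq ≤ E →
      E ≤ s.Eh / Sq → 0 < D ∧ 0 < (1 - 2 * (cp:ℝ)) * D + (1 - cp) * E := by
    intro s hs D E h1 _ h3 _
    obtain ⟨_, _, d3, d4⟩ := c6' s hs
    have d3' : (0:ℝ) < s.Dl := by exact_mod_cast d3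
    constructor
    · exact lt_of_lt_of_le (div_pos d3' hS) h1
    · have : 0 < ((1 - 2 * (cp : ℝ)) * s.Dl + (1 - cp) * s.El) / Sq := div_pos d4 hS
      have h5 : (1 - 2 * (cp:ℝ)) * (s.Dl / Sq) ≤ (1 - 2 * (cp:ℝ)) * D :=
        mul_le_mul_of_nonneg_left h1 (by linarith)
      have h6 : (1 - (cp:ℝ)) * (s.El / Sq) ≤ (1 - (cp:ℝ)) * E :=
        mul_le_mul_of_nonneg_left h3 (by linarith)
      have h7 : ((1 - 2 * (cp : ℝ)) * s.Dl + (1 - cp) * s.El) / Sq =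
        (1 - 2 * (cp:ℝ)) * (s.Dl / Sq) + (1 - (cp:ℝ)) * (s.El / Sq) := by ring
      linarith
  have hp1 := box_pairs hS har hb (l1 := 1) (l2 := 0) (by
    intro s hs D E h1 h2 h3 h4
    linarith [(hstrict s hs D E h1 h2 h3 h4).1])
  have hp3 := box_pairs hS har hb (l1 := 1 - 2 * (cp:ℝ)) (l2 := 1 - cp) (by
    intro s hs D E h1 h2 h3 h4
    exact (hstrict s hs D E h1 h2 h3 h4).2)
  refine fast_decay u u1 hu hdep hneg (Bm := Bm) (div_pos (by linarith) hS) hab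
    (by rw [div_lt_iff₀ hS]; linarith) ht0 e2 hBR ?_ ?_ e5 ?_ ?_ ?_
  · intro α hα
    obtain ⟨s, hs, h1, _⟩ := hpt α hα
    have : (0:ℝ) < s.vl := by exact_mod_cast (c6' s hs).1
    exact lt_of_lt_of_le (div_pos this hS) h1
  · intro α hα
    obtain ⟨s, hs, _, h1, _⟩ := hpt α hα
    exact (mul_le_mul_of_nonneg_left h1 ht0.le).trans (c6' s hs).2.1
  · intro α hα β hβ hαβ
    have k1 := hp1 α hα β hβ hαβ
    have k3 := hp3 α hα β hβ hαβ
    have k1' : 0 < u β q - u α q := by linarith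
    rw [← ecp]
    refine ⟨k1', ?_, ?_⟩
    · by_contra hcon
      push Not at hcon
      have : (1 - (cp:ℝ)) * ((u β q + q * u1 β q) - (u α q + q * u1 α q)) ≤ 0 :=
        mul_nonpos_of_nonneg_of_nonpos (by linarith) hcon
      nlinarith
    · nlinarith
  · -- left end
    have h1 := head_spec (P := fun s => decide (s.vh + s.yh ≤ 0)) c7 hlen
    simp only [decide_eq_true_eq] at h1
    have h1' : ((sg[0]).vh : ℝ) + (sg[0]).yh ≤ 0 := by exact_mod_cast h1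
    have h3 := (hb.2 0 hlen).val (-1) ⟨by rw [segLo_zero], by
      rw [segHi_eq]; exact (segLo_ge w 1)⟩
    have h4 := (hb.2 0 hlen).slo (-1) ⟨by rw [segLo_zero], by
      rw [segHi_eq]; exact (segLo_ge w 1)⟩
    have e : ((ac:ℝ) + ar * -1) / Sq = ((ac:ℝ) - ar) / Sq := by ring
    simp only [e] at h3 h4
    have h5 : ((sg[0]).vh : ℝ) / Sq + (sg[0]).yh / Sq ≤ 0 := by
      rw [← add_div]; exact div_nonpos_of_nonpos_of_nonneg h1' hS.le
    linarith [h3.2, h4.2]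
  · have hlast : sg.length - 1 < sg.length := by omega
    have h1 := last_spec (P := fun s => decide (B ^ 4 / (2 * q ^ 2) + B ^ 7 / (5 * q ^ 5) <
      (s.vl + s.yl) / Sq)) c8 hlast
    simp only [decide_eq_true_eq] at h1
    have h1' : (B:ℝ) ^ 4 / (2 * q ^ 2) + (B:ℝ) ^ 7 / (5 * q ^ 5) <
      ((sg[sg.length - 1]).vl + (sg[sg.length - 1]).yl) / Sq := by exact_mod_cast h1
    have hmem : (1:ℝ) ∈ Icc (segLo w (sg.length - 1)) (segHi w (sg.length - 1)) := by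
      have h6 : sg.length - 1 + 1 = 2 ^ w := by rw [← hb.1]; omega
      constructor
      · refine (segLo_lt w (sg.length - 1)).le.trans ?_
        rw [h6, segLo_last]
      · rw [segHi_eq, h6, segLo_last]
    have h3 := (hb.2 _ hlast).val 1 hmem
    have h4 := (hb.2 _ hlast).slo 1 hmem
    have e : ((ac:ℝ) + ar * 1) / Sq = ((ac:ℝ) + ar) / Sq := by ring
    simp only [e] at h3 h4
    have h5 : (((sg[sg.length - 1]).vl : ℝ) + (sg[sg.length - 1]).yl) / Sq =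
      ((sg[sg.length - 1]).vl : ℝ) / Sq + (sg[sg.length - 1]).yl / Sq := add_div _ _ _
    rw [h5] at h1'
    linarith [h3.1, h4.1]

namespace U1

theorem coneSeg_spec {q S ym : ℚ} {s : SegC} (h : coneSeg q S ym s = true) :
    0 < s.vl ∧ 0 < s.Dl ∧ s.Eh ≤ 0 ∧ 0 ≤ s.Dl + 4 * s.El ∧
      (q : ℝ) ^ 2 * (s.vh / S) ^ 3 < (45 / 128) ^ 3 ∧ (q:ℝ) * (-s.yl / S) ≤ ym := by
  simp only [coneSeg, Bool.and_eq_true, decide_eq_true_eq] at h
  obtain ⟨⟨⟨⟨⟨h1, h2⟩, h3⟩, h4⟩, h5⟩, h6⟩ := h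
  refine ⟨h1, h2, h3, h4, ?_, by exact_mod_cast h6⟩
  have h5' := (Rat.cast_lt (K := ℝ)).2 h5
  push_cast at h5'
  exact h5'

/-- the three functionals on one box -/
theorem cone_box {u u1 : ℝ → ℝ → ℝ} {t0 S : ℝ} {ac ar w : ℕ}
    {sg : List SegC} {q Sq ym : ℚ} (hq : t0 = q) (hSq : S = Sq) (hS : 0 < S)
    (ht0 : 1 ≤ t0) (har : 0 < ar)
    (hb : BoxB u u1 S t0 ac ar w sg)
    (hc : sg.all (coneSeg q Sq ym) = true) :
    (StrictMonoOn (fun α => 1 * u α t0 + 0 * (t0 * u1 α t0))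
      (Icc (((ac : ℝ) - ar) / S) (((ac : ℝ) + ar) / S))) ∧
    (MonotoneOn (fun α => (1 / 4) * u α t0 + 1 * (t0 * u1 α t0))
      (Icc (((ac : ℝ) - ar) / S) (((ac : ℝ) + ar) / S))) ∧
    (MonotoneOn (fun α => 0 * u α t0 + (-1) * (t0 * u1 α t0))
      (Icc (((ac : ℝ) - ar) / S) (((ac : ℝ) + ar) / S))) ∧
    (∀ α ∈ Icc (((ac : ℝ) - ar) / S) (((ac : ℝ) + ar) / S),
      t0 ^ 2 * u α t0 ^ 3 < (45 / 128) ^ 3 ∧ t0 ^ 2 * -(u1 α t0) ≤ ym) := by
  subst hq hSq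
  rw [List.all_eq_true] at hc
  have hc' := fun s hs => coneSeg_spec (hc s hs)
  refine ⟨box_strict hS har hb ?_, box_mono hS har hb ?_, box_mono hS har hb ?_, ?_⟩
  · intro s hs D E h1 _ _ _
    obtain ⟨_, d2, _⟩ := hc' s hs
    have : (0:ℝ) < s.Dl := by exact_mod_cast d2
    have := div_pos this hS
    linarith
  · intro s hs D E h1 _ h3 _
    obtain ⟨_, _, _, d4, _⟩ := hc' s hs
    have d4' : (0:ℝ) ≤ s.Dl + 4 * s.El := by exact_mod_cast d4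
    have h5 : (0:ℝ) ≤ s.Dl / Sq + 4 * (s.El / Sq) := by
      have := div_nonneg d4' hS.le
      rwa [add_div, mul_div_assoc] at this
    linarith
  · intro s hs D E _ _ _ h4
    obtain ⟨_, _, d3, _⟩ := hc' s hs
    have d3' : (s.Eh:ℝ) ≤ 0 := by exact_mod_cast d3
    have := div_nonpos_of_nonpos_of_nonneg d3' hS.le
    linarith
  · intro α hα
    obtain ⟨s, hs, h1, h2, h3, h4⟩ := box_point hS har hb α hα
    obtain ⟨d1, _, _, _, d5, d6⟩ := hc' s hs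
    have d1' : (0:ℝ) < s.vl := by exact_mod_cast d1
    have hpos : 0 < u α q := lt_of_lt_of_le (div_pos d1' hS) h1
    constructor
    · refine lt_of_le_of_lt ?_ d5
      have h5 : u α q ^ 3 ≤ (s.vh / Sq) ^ 3 := by gcongr
      have h6 : (0:ℝ) ≤ (q:ℝ) ^ 2 := sq_nonneg _
      exact mul_le_mul_of_nonneg_left h5 h6
    · have h5 : (q:ℝ) ^ 2 * -(u1 α q) = q * -(q * u1 α q) := by ring
      rw [h5]
      refine le_trans ?_ d6
      apply mul_le_mul_of_nonneg_left _ (by linarith)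
      have : (-(s.yl:ℝ)) / Sq = -(s.yl / Sq) := neg_div _ _
      rw [this]
      linarith

end U1

/-- the section region between `αs` (in the box `ac ar sg`) and the right end of the adjacent box
`ac' ar' sg'`. `κ0` is a lower bound of `t0^(1/3)`, `dmax = 1/t0^2` suffices -/
theorem sec_region {u u1 : ℝ → ℝ → ℝ} (hu : ∀ α, IsSol α (u α) (u1 α)) (hdep : Dep u u1)
    (hneg : ∀ α, 0 < α → ∀ t, 0 < t → u1 α t < 0) {S t0 : ℝ} {ac ar w ac' ar' w' : ℕ}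
    {sg sg' : List SegC} {q Sq ym B κ0 σm : ℚ} (hq : t0 = q) (hSq : S = Sq) (hS : 0 < S)
    (ht0 : 1 ≤ t0) (har : 0 < ar) (har' : 0 < ar') (hadj : ac + ar = ac' - ar') (hac' : ar' < ac')
    (h2 : (ac' : ℝ) + ar' < 2 * S)
    (hb : BoxB u u1 S t0 ac ar w sg) (hb' : BoxB u u1 S t0 ac' ar' w' sg')
    (hc : sg.all (coneSeg q Sq ym) = true) (hc' : sg'.all (coneSeg q Sq ym) = true)
    {αs : ℝ} (hαs : αs ∈ Ioo (((ac : ℝ) - ar) / S) (((ac : ℝ) + ar) / S))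
    (hbase : ∀ t, t0 ≤ t → 0 ≤ u αs t + t * u1 αs t ∧ t * u αs t ≤ B)
    (hpos : ∀ t, 0 ≤ t → 0 < u αs t) (hB : B ^ 3 / q ≤ (45 / 128) ^ 3)
    (hη : 4 * (45 / 128) ^ 3 + 7 * (45 / 128) ^ 6 / q ^ 2 ≤ 3 / 16)
    (hκ0 : 0 < κ0) (hκ1 : κ0 ^ 3 ≤ q) (hσ1 : ym ≤ σm * κ0)
    (hσ2 : 3 * (45 / 128) ^ 4 * (1 + (45 / 128) ^ 3 / q ^ 2) ≤ σm) :
    ∀ β ∈ Ioc αs (((ac' : ℝ) + ar') / S), ∃ κ : ℝ, 1 ≤ κ ∧ t0 ≤ κ ^ 3 ∧ κ ^ 2 * u β (κ ^ 3) = 45 / 128 ∧
      κ ^ 2 * (κ ^ 3 * -(u1 β (κ ^ 3))) ∈ Icc (0:ℝ) σm ∧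
      (∀ α ∈ Ioo αs β, u α (κ ^ 3) < u β (κ ^ 3)) ∧
      (∀ α ∈ Ioo αs β,
        3 / 4 * (u β (κ ^ 3) - u α (κ ^ 3)) ≤
          (u β (κ ^ 3) + κ ^ 3 * u1 β (κ ^ 3)) - (u α (κ ^ 3) + κ ^ 3 * u1 α (κ ^ 3)) ∧
        (u β (κ ^ 3) + κ ^ 3 * u1 β (κ ^ 3)) - (u α (κ ^ 3) + κ ^ 3 * u1 α (κ ^ 3)) ≤
          u β (κ ^ 3) - u α (κ ^ 3)) := by
  obtain ⟨k1, k2, k3, k4⟩ := cone_box hq hSq hS ht0 har hb hc
  obtain ⟨k1', k2', k3', k4'⟩ := cone_box hq hSq hS ht0 har' hb' hc'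
  have hmid : ((ac':ℝ) - ar') / S = ((ac:ℝ) + ar) / S := by
    have : ((ac + ar : ℕ) : ℝ) = ((ac' - ar' : ℕ) : ℝ) := by rw [hadj]
    rw [Nat.cast_sub hac'.le] at this
    push_cast at this
    rw [this]
  have harR : (0:ℝ) < ar := by exact_mod_cast har
  have harR' : (0:ℝ) < ar' := by exact_mod_cast har'
  rw [hmid] at k1' k2' k3' k4'
  have hm1 : ((ac:ℝ) - ar) / S ≤ ((ac:ℝ) + ar) / S := by
    apply div_le_div_of_nonneg_right _ hS.le; linarith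
  have hm2 : ((ac:ℝ) + ar) / S ≤ ((ac':ℝ) + ar') / S := by
    rw [← hmid]; apply div_le_div_of_nonneg_right _ hS.le; linarith
  have j1 := k1.union k1' (isGreatest_Icc hm1) (isLeast_Icc hm2)
  have j2 := k2.union_right k2' (isGreatest_Icc hm1) (isLeast_Icc hm2)
  have j3 := k3.union_right k3' (isGreatest_Icc hm1) (isLeast_Icc hm2)
  rw [Icc_union_Icc_eq_Icc hm1 hm2] at j1 j2 j3
  have j4 : ∀ α ∈ Icc (((ac : ℝ) - ar) / S) (((ac' : ℝ) + ar') / S),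
      t0 ^ 2 * u α t0 ^ 3 < (45 / 128) ^ 3 ∧ t0 ^ 2 * -(u1 α t0) ≤ ym := by
    intro α hα
    rcases le_total α (((ac:ℝ) + ar) / S) with h | h
    · exact k4 α ⟨hα.1, h⟩
    · exact k4' α ⟨h, hα.2⟩
  have hαs0 : 0 < αs := by
    have := hpos 0 le_rfl
    rwa [(hu αs).z0] at this
  have hq1 : (1:ℝ) ≤ q := by rw [← hq]; exact ht0
  have hBR : (B:ℝ) ^ 3 / t0 ≤ (45 / 128) ^ 3 := by
    rw [hq]
    have h5' := (Rat.cast_le (K := ℝ)).2 hB
    push_cast at h5'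
    exact h5'
  have hηR : 4 * (45 / 128 : ℝ) ^ 3 + 7 * (45 / 128) ^ 6 / t0 ^ 2 ≤ 3 / 4 * (1 - 3 / 4) := by
    rw [hq]
    have : 4 * (45 / 128 : ℝ) ^ 3 + 7 * (45 / 128) ^ 6 / (q:ℝ) ^ 2 ≤ 3 / 16 := by
      have h5' := (Rat.cast_le (K := ℝ)).2 hη
      push_cast at h5'
      exact h5'
    linarith
  have hκ0R : (0:ℝ) < κ0 := by exact_mod_cast hκ0
  have hκ1R : (κ0:ℝ) ^ 3 ≤ t0 := by rw [hq]; exact_mod_cast hκ1
  have hσ1R : (ym:ℝ) ≤ σm * κ0 := by exact_mod_cast hσ1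
  have hσ2R : 3 * (45 / 128 : ℝ) ^ 4 * (1 + (45 / 128) ^ 3 / t0 ^ 2) ≤ σm := by
    rw [hq]
    have h5' := (Rat.cast_le (K := ℝ)).2 hσ2
    push_cast at h5'
    exact h5'
  have hsub : ∀ α ∈ Icc αs (((ac' : ℝ) + ar') / S),
      α ∈ Icc (((ac : ℝ) - ar) / S) (((ac' : ℝ) + ar') / S) := fun α hα => ⟨hαs.1.le.trans hα.1, hα.2⟩
  have hsf := section_flow u u1 hu hdep hneg (as := αs) (b := ((ac' : ℝ) + ar') / S) (t0 := t0)
    (Up := 45 / 128) (γ := 3 / 4) hαs0.le (lt_of_lt_of_le hαs.2 hm2)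
    (by rw [div_lt_iff₀ hS]; linarith) ht0 (by norm_num) (by norm_num) (by
      intro t ht
      have htp : 0 < t := by linarith
      refine ⟨(hpos t htp.le).le, (hbase t ht).1, ?_⟩
      have h1 : (t * u αs t) ^ 3 ≤ (B:ℝ) ^ 3 := by
        have h0 : 0 ≤ t * u αs t := mul_nonneg htp.le (hpos t htp.le).le
        have := (hbase t ht).2
        gcongr
      have hB3 : 0 ≤ (B:ℝ) ^ 3 := by
        have h0 : 0 ≤ t * u αs t := mul_nonneg htp.le (hpos t htp.le).le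
        exact (pow_nonneg h0 3).trans h1
      have h3 : t ^ 2 * u αs t ^ 3 = (t * u αs t) ^ 3 / t := by
        field_simp
      rw [h3]
      calc (t * u αs t) ^ 3 / t ≤ (B:ℝ) ^ 3 / t := div_le_div_of_nonneg_right h1 htp.le
        _ ≤ (B:ℝ) ^ 3 / t0 := div_le_div_of_nonneg_left hB3 (by linarith) ht
        _ ≤ _ := hBR)
    (fun α hα => (j4 α (hsub α hα)).1) (by
      intro α hα β hβ hαβ
      have i1 := j1 (hsub α hα) (hsub β hβ) hαβ
      have i2 := j2 (hsub α hα) (hsub β hβ) hαβ.le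
      have i3 := j3 (hsub α hα) (hsub β hβ) hαβ.le
      simp only at i1 i2 i3
      refine ⟨by linarith, by linarith, by linarith⟩)
    (by norm_num) (by norm_num) hηR
  intro β hβ
  obtain ⟨κ, q1, q2, q3, -, q5, q6, q7⟩ := hsf β hβ
  have hκ3 : (1:ℝ) ≤ κ ^ 3 := ht0.trans q2
  have hκ1' : 1 ≤ κ := by
    by_contra hlt
    push Not at hlt
    have : κ ^ 3 < 1 := pow_lt_one₀ q1.le hlt (by norm_num)
    linarith
  refine ⟨κ, hκ1', q2, q3, ⟨?_, ?_⟩, ?_, q7⟩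
  · have := hneg β (hαs0.trans hβ.1) (κ ^ 3) (by positivity)
    have h5 : 0 ≤ -(u1 β (κ ^ 3)) := by linarith
    positivity
  · obtain ⟨x0, hx0, hx03⟩ := TD.cbrt (τ := t0) (by linarith)
    refine (q5 x0 hx0 hx03).trans ?_
    have h3 : (κ0:ℝ) ≤ x0 := by
      by_contra hlt
      push Not at hlt
      have : x0 ^ 3 < (κ0:ℝ) ^ 3 := by gcongr
      linarith
    have h4 : x0 ≤ κ := by
      by_contra hlt
      push Not at hlt
      have : κ ^ 3 < x0 ^ 3 := by gcongr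
      linarith
    have h5 : (0:ℝ) < σm := lt_of_lt_of_le (by positivity) hσ2R
    have h6 : t0 ^ 2 * -(u1 β t0) ≤ ym := (j4 β (hsub β ⟨hβ.1.le, hβ.2⟩)).2
    rw [div_le_iff₀ q1]
    have h7 : 3 * (45 / 128 : ℝ) ^ 4 * (1 + (45 / 128) ^ 3 / t0 ^ 2) * (κ - x0) ≤ σm * (κ - x0) :=
      mul_le_mul_of_nonneg_right hσ2R (by linarith)
    have h8 : (σm:ℝ) * κ0 ≤ σm * x0 := mul_le_mul_of_nonneg_left h3 h5.le
    nlinarith
  · intro α hα
    exact (q6 α hα (κ ^ 3) ⟨q2, le_rfl⟩).2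

end Pool.Agent.H228
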