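import Mathlib
import Pool.Agent.H228.Sem
import Pool.Agent.H228.Fast
import Pool.Agent.H228.Sect
import Pool.Agent.H228.Ode

/-! TASK U1b: `sec_small` (helper328, for helper228). -/

set_option autoImplicit false

namespace Pool.Agent.H228

open Set

namespace RS

/-- the pair lemma on `[0, 1]` for small initial values -/
lemma pair0 {u u1 v v1 : ℝ → ℝ} {α β : ℝ} (hu : IsSol α u u1) (hv : IsSol β v v1)
    (hαβ : α < β) (hβ : β ≤ 1 / 16) (hu0 : ∀ t ∈ Icc (0:ℝ) 1, 0 ≤ u t) :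
    ∀ s ∈ Icc (0:ℝ) 1, 0 < v s - u s ∧ v1 s - u1 s ≤ 0 ∧
      -(v1 s - u1 s) ≤ 1 / 1000 * (β - α) * s / 3 ∧
      (β - α) * (1 - 1 / 1000 * s ^ 2 / 6) ≤ v s - u s := by
  have hδ : 0 < β - α := by linarith
  have dD : ∀ t, HasDerivAt (fun t => v t - u t) (v1 t - u1 t) t := fun t =>
    (hv.h0 t).sub (hu.h0 t)
  have dG : ∀ t, HasDerivAt (fun t => t ^ 2 * (v1 t - u1 t)) (-(t ^ 2 * (F (v t) - F (u t)))) t := by
    intro t
    have h1 := (TaskA.div_form hv t).sub (TaskA.div_form hu t)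
    have h2 : (fun t => t ^ 2 * (v1 t - u1 t)) =
        ((fun t => t ^ 2 * v1 t) - fun t => t ^ 2 * u1 t) := by
      funext t; simp only [Pi.sub_apply]; ring
    rw [h2]
    exact h1.congr_deriv (by ring)
  -- core
  have core : ∀ s ∈ Icc (0:ℝ) 1, (∀ t ∈ Ico (0:ℝ) s, 0 < v t - u t) →
      v1 s - u1 s ≤ 0 ∧ -(v1 s - u1 s) ≤ 1 / 1000 * (β - α) * s / 3 ∧
      (β - α) * (1 - 1 / 1000 * s ^ 2 / 6) ≤ v s - u s := by
    intro s hs hD
    have hQ : ∀ t ∈ Ioo (0:ℝ) s, 0 ≤ F (v t) - F (u t) ∧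
        F (v t) - F (u t) ≤ 1 / 1000 * (v t - u t) := by
      intro t ht
      have ht1 : t ∈ Icc (0:ℝ) 1 := ⟨ht.1.le, ht.2.le.trans hs.2⟩
      have k0 := hu0 t ht1
      have k2 := hD t ⟨ht.1.le, ht.2⟩
      have k3 : v t ≤ 1 / 16 := by
        have := sol_antitone hv (self_mem_Ici) (ht.1.le : (0:ℝ) ≤ t) ht.1.le
        rw [hv.z0] at this
        linarith
      have k4 : 0 ≤ v t := by linarith
      obtain ⟨m1, m2⟩ := TD.diff_bound (t := 1) (t0 := 1) (x := u t) (y := v t) (Up := 1 / 16)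
        le_rfl le_rfl k0 (by linarith) (by
          have := pow_le_pow_left₀ k4 k3 3
          linarith)
      rw [TD.F_eq k4 (by linarith), TD.F_eq k0 (by linarith)]
      refine ⟨m1, ?_⟩
      have h5 : (4 * (1 / 16 : ℝ) ^ 3 + 7 * (1 / 16) ^ 6 / 1 ^ 2) ≤ 1 / 1000 := by norm_num
      have h6 := mul_le_mul_of_nonneg_right h5 k2.le
      linarith
    -- `t^2 D1` is antitone
    have mG : AntitoneOn (fun t => t ^ 2 * (v1 t - u1 t)) (Icc 0 s) := by
      apply antitoneOn_of_deriv_nonpos (convex_Icc 0 s)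
      · exact fun t _ => (dG t).continuousAt.continuousWithinAt
      · exact fun t _ => (dG t).differentiableAt.differentiableWithinAt
      · intro t ht
        rw [interior_Icc] at ht
        rw [(dG t).deriv]
        have := mul_nonneg (sq_nonneg t) (hQ t ht).1
        linarith
    have n1 : ∀ t ∈ Icc (0:ℝ) s, v1 t - u1 t ≤ 0 := by
      intro t ht
      rcases eq_or_lt_of_le ht.1 with h0 | h0
      · rw [← h0, hv.z1, hu.z1, sub_zero]
      · have h1 := mG (left_mem_Icc.mpr hs.1) ht ht.1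
        simp only [ne_eq, OfNat.ofNat_ne_zero, not_false_eq_true, zero_pow, zero_mul] at h1
        have h2 : 0 < t ^ 2 := by positivity
        by_contra h3
        rw [not_le] at h3
        have := mul_pos h2 h3
        linarith
    have mD : AntitoneOn (fun t => v t - u t) (Icc 0 s) := by
      apply antitoneOn_of_deriv_nonpos (convex_Icc 0 s)
      · exact fun t _ => (dD t).continuousAt.continuousWithinAt
      · exact fun t _ => (dD t).differentiableAt.differentiableWithinAt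
      · intro t ht
        rw [interior_Icc] at ht
        rw [(dD t).deriv]
        exact n1 t (Ioo_subset_Icc_self ht)
    have hDle : ∀ t ∈ Icc (0:ℝ) s, v t - u t ≤ β - α := by
      intro t ht
      have h1 := mD (left_mem_Icc.mpr hs.1) ht ht.1
      simp only at h1
      rw [hv.z0, hu.z0] at h1
      exact h1
    set K := 1 / 1000 * (β - α) with hK
    have hK0 : 0 < K := by positivity
    have mG2 := TD.mono (g := fun t => t ^ 2 * (v1 t - u1 t) + K * t ^ 3 / 3)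
      (g' := fun t => -(t ^ 2 * (F (v t) - F (u t))) + K * t ^ 2) (a := 0) (b := s)
      (fun t _ => by
        have h1 := ((hasDerivAt_pow 3 t).const_mul (K / 3))
        have h2 := (dG t).add h1
        have h3 : (fun t => t ^ 2 * (v1 t - u1 t) + K * t ^ 3 / 3) =
            ((fun t => t ^ 2 * (v1 t - u1 t)) + fun t => K / 3 * t ^ 3) := by
          funext t; simp only [Pi.add_apply]; ring
        rw [h3]
        exact h2.congr_deriv (by norm_num; ring))
      (fun t ht => by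
        have h1 := (hQ t ht).2
        have h2 := hDle t (Ioo_subset_Icc_self ht)
        have h3 : F (v t) - F (u t) ≤ K := by rw [hK]; linarith
        have h4 := mul_le_mul_of_nonneg_left h3 (sq_nonneg t)
        linarith)
    have n2 : ∀ t ∈ Icc (0:ℝ) s, -(v1 t - u1 t) ≤ K * t / 3 := by
      intro t ht
      rcases eq_or_lt_of_le ht.1 with h0 | h0
      · rw [← h0, hv.z1, hu.z1]; norm_num
      · have h1 := mG2 (left_mem_Icc.mpr hs.1) ht ht.1
        simp only [ne_eq, OfNat.ofNat_ne_zero, not_false_eq_true, zero_pow, zero_mul, mul_zero,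
          zero_div, add_zero] at h1
        have h2 : 0 < t ^ 2 := by positivity
        have h3 : 0 ≤ t ^ 2 * ((v1 t - u1 t) + K * t / 3) := by
          have : t ^ 2 * ((v1 t - u1 t) + K * t / 3) = t ^ 2 * (v1 t - u1 t) + K * t ^ 3 / 3 := by ring
          rw [this]; exact h1
        have h4 := (mul_nonneg_iff_of_pos_left h2).mp h3
        linarith
    have mD2 := TD.mono (g := fun t => (v t - u t) + K * t ^ 2 / 6)
      (g' := fun t => (v1 t - u1 t) + K * t / 3) (a := 0) (b := s)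
      (fun t _ => by
        have h1 := ((hasDerivAt_pow 2 t).const_mul (K / 6))
        have h2 := (dD t).add h1
        have h3 : (fun t => (v t - u t) + K * t ^ 2 / 6) =
            ((fun t => v t - u t) + fun t => K / 6 * t ^ 2) := by
          funext t; simp only [Pi.add_apply]; ring
        rw [h3]
        exact h2.congr_deriv (by norm_num; ring))
      (fun t ht => by
        have h1 := n2 t (Ioo_subset_Icc_self ht)
        linarith)
    have hss : s ∈ Icc (0:ℝ) s := right_mem_Icc.mpr hs.1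
    refine ⟨n1 s hss, n2 s hss, ?_⟩
    have h1 := mD2 (left_mem_Icc.mpr hs.1) hss hs.1
    simp only [ne_eq, OfNat.ofNat_ne_zero, not_false_eq_true, zero_pow, mul_zero,
      zero_div, add_zero] at h1
    rw [hv.z0, hu.z0] at h1
    rw [hK] at h1
    linarith
  have hpos : ∀ s ∈ Icc (0:ℝ) 1, 0 < v s - u s := by
    apply TD.first
    · exact fun t _ => (dD t).continuousAt.continuousWithinAt
    · intro s hs hlt
      obtain ⟨-, -, h3⟩ := core s hs hlt
      have h4 : s ^ 2 ≤ 1 := pow_le_one₀ hs.1 hs.2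
      have h5 : 0 < 1 - 1 / 1000 * s ^ 2 / 6 := by linarith
      have := mul_pos hδ h5
      linarith
  intro s hs
  exact ⟨hpos s hs, core s hs fun t ht => hpos t ⟨ht.1, ht.2.le.trans hs.2⟩⟩

end RS

theorem sec_small {u u1 : ℝ → ℝ → ℝ} (hu : ∀ α, IsSol α (u α) (u1 α)) (hdep : Dep u u1)
    (hneg : ∀ α, 0 < α → ∀ t, 0 < t → u1 α t < 0) :
    ∀ β ∈ Ioc (0:ℝ) (1 / 16), ∃ κ : ℝ, 1 ≤ κ ∧ 170 ≤ κ ^ 6 ∧ κ ^ 2 * u β (κ ^ 3) = 45 / 128 ∧
      κ ^ 2 * (κ ^ 3 * -(u1 β (κ ^ 3))) ∈ Icc (0:ℝ) (13 / 256) ∧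
      (∀ α ∈ Ioo 0 β, u α (κ ^ 3) < u β (κ ^ 3)) ∧
      (∀ α ∈ Ioo 0 β,
        3 / 4 * (u β (κ ^ 3) - u α (κ ^ 3)) ≤
          (u β (κ ^ 3) + κ ^ 3 * u1 β (κ ^ 3)) - (u α (κ ^ 3) + κ ^ 3 * u1 α (κ ^ 3)) ∧
        (u β (κ ^ 3) + κ ^ 3 * u1 β (κ ^ 3)) - (u α (κ ^ 3) + κ ^ 3 * u1 α (κ ^ 3)) ≤
          u β (κ ^ 3) - u α (κ ^ 3)) := by
  have hz : ∀ t, 0 ≤ t → u 0 t = 0 ∧ u1 0 t = 0 := fun t ht => sol_zero (hu 0) ht
  -- positivity on `[0, 1]`
  have hnn : ∀ α ∈ Icc (0:ℝ) (1 / 16), ∀ t ∈ Icc (0:ℝ) 1, 0 ≤ u α t := by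
    intro α hα t ht
    rcases eq_or_lt_of_le hα.1 with h0 | h0
    · rw [← h0, (hz t ht.1).1]
    · have h1 := (RS.pair0 (hu 0) (hu α) h0 hα.2 (fun s hs => by rw [(hz s hs.1).1]) t ht).1
      rw [(hz t ht.1).1] at h1
      linarith
  have hle : ∀ α ∈ Icc (0:ℝ) (1 / 16), ∀ t, 0 ≤ t → u α t ≤ α := by
    intro α hα t ht
    have := sol_antitone (hu α) (self_mem_Ici) (ht : (0:ℝ) ≤ t) ht
    rw [(hu α).z0] at this
    exact this
  have hflow := section_flow u u1 hu hdep hneg (as := 0) (b := 1 / 16) (t0 := 1) (Up := 45 / 128)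
    (γ := 3 / 4) le_rfl (by norm_num) (by norm_num) le_rfl (by norm_num) (by norm_num)
    (fun t ht => by
      obtain ⟨h1, h2⟩ := hz t (by linarith)
      rw [h1, h2]
      norm_num)
    (fun α hα => by
      have h1 := hle α hα 1 zero_le_one
      have h2 := hnn α hα 1 (right_mem_Icc.mpr zero_le_one)
      have h3 : u α 1 ^ 3 ≤ (1 / 16) ^ 3 := pow_le_pow_left₀ h2 (h1.trans hα.2) 3
      norm_num at h3 ⊢
      linarith)
    (fun α hα β hβ hαβ => by
      obtain ⟨h1, h2, h3, h4⟩ := RS.pair0 (hu α) (hu β) hαβ hβ.2 (hnn α hα) 1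
        (right_mem_Icc.mpr zero_le_one)
      refine ⟨h1, ?_, ?_⟩
      · linarith
      · linarith)
    (by norm_num) (by norm_num) (by norm_num)
  intro β hβ
  obtain ⟨κ, hκ, hκ1, hsec, -, hslope, hmono, hcone⟩ := hflow β hβ
  have hβm : β ∈ Icc (0:ℝ) (1 / 16) := ⟨hβ.1.le, hβ.2⟩
  have h1κ : 1 ≤ κ := by
    by_contra h
    push Not at h
    have : κ ^ 3 < 1 := pow_lt_one₀ hκ.le h (by norm_num)
    linarith
  have hκ2 : 45 / 8 ≤ κ ^ 2 := by
    have h1 := hle β hβm (κ ^ 3) (by positivity)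
    have h2 : κ ^ 2 * u β (κ ^ 3) ≤ κ ^ 2 * (1 / 16) :=
      mul_le_mul_of_nonneg_left (h1.trans hβ.2) (by positivity)
    linarith
  refine ⟨κ, h1κ, ?_, hsec, ⟨?_, ?_⟩, fun α hα => (hmono α hα (κ ^ 3) ⟨hκ1, le_rfl⟩).2, hcone⟩
  · have h1 : (45 / 8 : ℝ) ^ 3 ≤ (κ ^ 2) ^ 3 := pow_le_pow_left₀ (by norm_num) hκ2 3
    have h2 : (κ ^ 2) ^ 3 = κ ^ 6 := by ring
    rw [h2] at h1
    norm_num at h1
    linarith
  · have h1 := sol_u1_nonpos (hu β) (t := κ ^ 3) (by positivity)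
    have h2 : 0 ≤ -(u1 β (κ ^ 3)) := by linarith
    positivity
  · have h1 := hslope 1 one_pos (one_pow 3)
    refine h1.trans ?_
    rw [div_le_iff₀ hκ]
    have h2 : -(u1 β 1) ≤ 1 / 1000 := by
      obtain ⟨-, -, h3, -⟩ := RS.pair0 (hu 0) (hu β) hβ.1 hβ.2
        (fun s hs => by rw [(hz s hs.1).1]) 1 (right_mem_Icc.mpr zero_le_one)
      rw [(hz 1 zero_le_one).2] at h3
      linarith [hβ.2]
    norm_num
    linarith

end Pool.Agent.H228
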