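import Mathlib
import Pool.Agent.H228.Box
import Pool.Agent.H228.Reg
import Pool.Agent.H228.RegSmall
import Pool.Agent.H228.Glue
import Pool.Agent.H228.Loc
import Pool.Agent.H228.D.A01
import Pool.Agent.H228.D.A02
import Pool.Agent.H228.D.A03
import Pool.Agent.H228.D.A04
import Pool.Agent.H228.D.A05
import Pool.Agent.H228.D.A06
import Pool.Agent.H228.D.A07
import Pool.Agent.H228.D.A08
import Pool.Agent.H228.D.A09
import Pool.Agent.H228.D.A10
import Pool.Agent.H228.D.A11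
import Pool.Agent.H228.D.A12
import Pool.Agent.H228.D.A13
import Pool.Agent.H228.D.A14
import Pool.Agent.H228.D.A15
import Pool.Agent.H228.D.A16
import Pool.Agent.H228.D.A17
import Pool.Agent.H228.D.A18
import Pool.Agent.H228.D.A19
import Pool.Agent.H228.D.A20
import Pool.Agent.H228.D.A21
import Pool.Agent.H228.D.A22
import Pool.Agent.H228.D.A23
import Pool.Agent.H228.D.A24
import Pool.Agent.H228.D.A25
import Pool.Agent.H228.D.A26
import Pool.Agent.H228.D.A27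
import Pool.Agent.H228.D.S1
import Pool.Agent.H228.D.S2
import Pool.Agent.H228.D.S3
import Pool.Agent.H228.D.S4
import Pool.Agent.H228.D.S5
import Pool.Agent.H228.D.S6

/-! The boxes and the assembly of the frozen statement. -/

set_option autoImplicit false

namespace Pool.Agent.H228

open Set

theorem box_A01 {u u1 : ℝ → ℝ → ℝ} (hu : ∀ α, IsSol α (u α) (u1 α)) : Dec u (1 / 16) (5 / 64) := by
  have h := xbox false hu (w := 3) (q := 576) (P := A01.P) rfl (by decide) A01.first A01.chain A01.segs A01.mono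
    (by rw [CellD.a1, A01.lM, A01.lH, A01.lg]; norm_num) (by decide) (by decide) (by decide)
  have e1 : ((A01.ac : ℝ) - A01.ar) / 2 ^ A01.P.s = (1 / 16) := by norm_num [A01.ac, A01.ar, A01.P]
  have e2 : ((A01.ac : ℝ) + A01.ar) / 2 ^ A01.P.s = (5 / 64) := by norm_num [A01.ac, A01.ar, A01.P]
  rw [e1, e2] at h
  simpa using h

theorem box_A02 {u u1 : ℝ → ℝ → ℝ} (hu : ∀ α, IsSol α (u α) (u1 α)) : Dec u (5 / 64) (13 / 128) := by
  have h := xbox false hu (w := 3) (q := 384) (P := A02.P) rfl (by decide) A02.first A02.chain A02.segs A02.mono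
    (by rw [CellD.a1, A02.lM, A02.lH, A02.lg]; norm_num) (by decide) (by decide) (by decide)
  have e1 : ((A02.ac : ℝ) - A02.ar) / 2 ^ A02.P.s = (5 / 64) := by norm_num [A02.ac, A02.ar, A02.P]
  have e2 : ((A02.ac : ℝ) + A02.ar) / 2 ^ A02.P.s = (13 / 128) := by norm_num [A02.ac, A02.ar, A02.P]
  rw [e1, e2] at h
  simpa using h

theorem box_A03 {u u1 : ℝ → ℝ → ℝ} (hu : ∀ α, IsSol α (u α) (u1 α)) : Dec u (13 / 128) (17 / 128) := by
  have h := xbox false hu (w := 3) (q := 240) (P := A03.P) rfl (by decide) A03.first A03.chain A03.segs A03.mono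
    (by rw [CellD.a1, A03.lM, A03.lH, A03.lg]; norm_num) (by decide) (by decide) (by decide)
  have e1 : ((A03.ac : ℝ) - A03.ar) / 2 ^ A03.P.s = (13 / 128) := by norm_num [A03.ac, A03.ar, A03.P]
  have e2 : ((A03.ac : ℝ) + A03.ar) / 2 ^ A03.P.s = (17 / 128) := by norm_num [A03.ac, A03.ar, A03.P]
  rw [e1, e2] at h
  simpa using h

theorem box_A04 {u u1 : ℝ → ℝ → ℝ} (hu : ∀ α, IsSol α (u α) (u1 α)) : Dec u (17 / 128) (23 / 128) := by
  have h := xbox false hu (w := 3) (q := 160) (P := A04.P) rfl (by decide) A04.first A04.chain A04.segs A04.mono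
    (by rw [CellD.a1, A04.lM, A04.lH, A04.lg]; norm_num) (by decide) (by decide) (by decide)
  have e1 : ((A04.ac : ℝ) - A04.ar) / 2 ^ A04.P.s = (17 / 128) := by norm_num [A04.ac, A04.ar, A04.P]
  have e2 : ((A04.ac : ℝ) + A04.ar) / 2 ^ A04.P.s = (23 / 128) := by norm_num [A04.ac, A04.ar, A04.P]
  rw [e1, e2] at h
  simpa using h

theorem box_A05 {u u1 : ℝ → ℝ → ℝ} (hu : ∀ α, IsSol α (u α) (u1 α)) : Dec u (23 / 128) (29 / 128) := by
  have h := xbox false hu (w := 3) (q := 112) (P := A05.P) rfl (by decide) A05.first A05.chain A05.segs A05.mono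
    (by rw [CellD.a1, A05.lM, A05.lH, A05.lg]; norm_num) (by decide) (by decide) (by decide)
  have e1 : ((A05.ac : ℝ) - A05.ar) / 2 ^ A05.P.s = (23 / 128) := by norm_num [A05.ac, A05.ar, A05.P]
  have e2 : ((A05.ac : ℝ) + A05.ar) / 2 ^ A05.P.s = (29 / 128) := by norm_num [A05.ac, A05.ar, A05.P]
  rw [e1, e2] at h
  simpa using h

theorem box_A06 {u u1 : ℝ → ℝ → ℝ} (hu : ∀ α, IsSol α (u α) (u1 α)) : Dec u (29 / 128) (37 / 128) := by
  have h := xbox false hu (w := 3) (q := 80) (P := A06.P) rfl (by decide) A06.first A06.chain A06.segs A06.mono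
    (by rw [CellD.a1, A06.lM, A06.lH, A06.lg]; norm_num) (by decide) (by decide) (by decide)
  have e1 : ((A06.ac : ℝ) - A06.ar) / 2 ^ A06.P.s = (29 / 128) := by norm_num [A06.ac, A06.ar, A06.P]
  have e2 : ((A06.ac : ℝ) + A06.ar) / 2 ^ A06.P.s = (37 / 128) := by norm_num [A06.ac, A06.ar, A06.P]
  rw [e1, e2] at h
  simpa using h

theorem box_A07 {u u1 : ℝ → ℝ → ℝ} (hu : ∀ α, IsSol α (u α) (u1 α)) : Dec u (37 / 128) (25 / 64) := by
  have h := xbox false hu (w := 3) (q := 52) (P := A07.P) rfl (by decide) A07.first A07.chain A07.segs A07.mono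
    (by rw [CellD.a1, A07.lM, A07.lH, A07.lg]; norm_num) (by decide) (by decide) (by decide)
  have e1 : ((A07.ac : ℝ) - A07.ar) / 2 ^ A07.P.s = (37 / 128) := by norm_num [A07.ac, A07.ar, A07.P]
  have e2 : ((A07.ac : ℝ) + A07.ar) / 2 ^ A07.P.s = (25 / 64) := by norm_num [A07.ac, A07.ar, A07.P]
  rw [e1, e2] at h
  simpa using h

theorem box_A08 {u u1 : ℝ → ℝ → ℝ} (hu : ∀ α, IsSol α (u α) (u1 α)) : Dec u (25 / 64) (35 / 64) := by
  have h := xbox false hu (w := 3) (q := 32) (P := A08.P) rfl (by decide) A08.first A08.chain A08.segs A08.mono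
    (by rw [CellD.a1, A08.lM, A08.lH, A08.lg]; norm_num) (by decide) (by decide) (by decide)
  have e1 : ((A08.ac : ℝ) - A08.ar) / 2 ^ A08.P.s = (25 / 64) := by norm_num [A08.ac, A08.ar, A08.P]
  have e2 : ((A08.ac : ℝ) + A08.ar) / 2 ^ A08.P.s = (35 / 64) := by norm_num [A08.ac, A08.ar, A08.P]
  rw [e1, e2] at h
  simpa using h

theorem box_A09 {u u1 : ℝ → ℝ → ℝ} (hu : ∀ α, IsSol α (u α) (u1 α)) : Dec u (35 / 64) (45 / 64) := by
  have h := xbox false hu (w := 3) (q := 26) (P := A09.P) rfl (by decide) A09.first A09.chain A09.segs A09.mono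
    (by rw [CellD.a1, A09.lM, A09.lH, A09.lg]; norm_num) (by decide) (by decide) (by decide)
  have e1 : ((A09.ac : ℝ) - A09.ar) / 2 ^ A09.P.s = (35 / 64) := by norm_num [A09.ac, A09.ar, A09.P]
  have e2 : ((A09.ac : ℝ) + A09.ar) / 2 ^ A09.P.s = (45 / 64) := by norm_num [A09.ac, A09.ar, A09.P]
  rw [e1, e2] at h
  simpa using h

theorem box_A10 {u u1 : ℝ → ℝ → ℝ} (hu : ∀ α, IsSol α (u α) (u1 α)) : Dec u (45 / 64) (55 / 64) := by
  have h := xbox false hu (w := 3) (q := 22) (P := A10.P) rfl (by decide) A10.first A10.chain A10.segs A10.mono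
    (by rw [CellD.a1, A10.lM, A10.lH, A10.lg]; norm_num) (by decide) (by decide) (by decide)
  have e1 : ((A10.ac : ℝ) - A10.ar) / 2 ^ A10.P.s = (45 / 64) := by norm_num [A10.ac, A10.ar, A10.P]
  have e2 : ((A10.ac : ℝ) + A10.ar) / 2 ^ A10.P.s = (55 / 64) := by norm_num [A10.ac, A10.ar, A10.P]
  rw [e1, e2] at h
  simpa using h

theorem box_A11 {u u1 : ℝ → ℝ → ℝ} (hu : ∀ α, IsSol α (u α) (u1 α)) : Dec u (55 / 64) (29 / 32) := by
  have h := xbox false hu (w := 2) (q := 22) (P := A11.P) rfl (by decide) A11.first A11.chain A11.segs A11.mono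
    (by rw [CellD.a1, A11.lM, A11.lH, A11.lg]; norm_num) (by decide) (by decide) (by decide)
  have e1 : ((A11.ac : ℝ) - A11.ar) / 2 ^ A11.P.s = (55 / 64) := by norm_num [A11.ac, A11.ar, A11.P]
  have e2 : ((A11.ac : ℝ) + A11.ar) / 2 ^ A11.P.s = (29 / 32) := by norm_num [A11.ac, A11.ar, A11.P]
  rw [e1, e2] at h
  simpa using h

theorem box_A12 {u u1 : ℝ → ℝ → ℝ} (hu : ∀ α, IsSol α (u α) (u1 α)) (hdep : Dep u u1)
    (hneg : ∀ α, 0 < α → ∀ t, 0 < t → u1 α t < 0) :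
    ∃ p ∈ Icc ((29 / 32) : ℝ) (15 / 16), Dec u (29 / 32) p ∧ Inc u p (15 / 16) := by
  have h := turn_box hu hdep hneg (P := A12.P) (C1 := A12.c8) rfl (by decide) A12.first A12.chain A12.seg0 A12.jump
    A12.cell A12.turn A12.seg1 (by decide) (by decide) (by decide) (by decide) (by decide)
  have e1 : ((A12.ac : ℝ) - A12.ar) / 2 ^ A12.P.s = (29 / 32) := by norm_num [A12.ac, A12.ar, A12.P]
  have e2 : ((A12.ac : ℝ) + A12.ar) / 2 ^ A12.P.s = (15 / 16) := by norm_num [A12.ac, A12.ar, A12.P]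
  rw [e1, e2] at h
  exact h

theorem box_A13 {u u1 : ℝ → ℝ → ℝ} (hu : ∀ α, IsSol α (u α) (u1 α)) : Inc u (15 / 16) (37 / 32) := by
  have h := xbox true hu (w := 3) (q := 24) (P := A13.P) rfl (by decide) A13.first A13.chain A13.segs A13.mono
    (by rw [CellD.a1, A13.lM, A13.lH, A13.lg]; norm_num) (by decide) (by decide) (by decide)
  have e1 : ((A13.ac : ℝ) - A13.ar) / 2 ^ A13.P.s = (15 / 16) := by norm_num [A13.ac, A13.ar, A13.P]
  have e2 : ((A13.ac : ℝ) + A13.ar) / 2 ^ A13.P.s = (37 / 32) := by norm_num [A13.ac, A13.ar, A13.P]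
  rw [e1, e2] at h
  simpa using h

theorem box_A14 {u u1 : ℝ → ℝ → ℝ} (hu : ∀ α, IsSol α (u α) (u1 α)) : Inc u (37 / 32) (43 / 32) := by
  have h := xbox true hu (w := 3) (q := 28) (P := A14.P) rfl (by decide) A14.first A14.chain A14.segs A14.mono
    (by rw [CellD.a1, A14.lM, A14.lH, A14.lg]; norm_num) (by decide) (by decide) (by decide)
  have e1 : ((A14.ac : ℝ) - A14.ar) / 2 ^ A14.P.s = (37 / 32) := by norm_num [A14.ac, A14.ar, A14.P]
  have e2 : ((A14.ac : ℝ) + A14.ar) / 2 ^ A14.P.s = (43 / 32) := by norm_num [A14.ac, A14.ar, A14.P]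
  rw [e1, e2] at h
  simpa using h

theorem box_A15 {u u1 : ℝ → ℝ → ℝ} (hu : ∀ α, IsSol α (u α) (u1 α)) : Inc u (43 / 32) (23 / 16) := by
  have h := xbox true hu (w := 3) (q := 52) (P := A15.P) rfl (by decide) A15.first A15.chain A15.segs A15.mono
    (by rw [CellD.a1, A15.lM, A15.lH, A15.lg]; norm_num) (by decide) (by decide) (by decide)
  have e1 : ((A15.ac : ℝ) - A15.ar) / 2 ^ A15.P.s = (43 / 32) := by norm_num [A15.ac, A15.ar, A15.P]
  have e2 : ((A15.ac : ℝ) + A15.ar) / 2 ^ A15.P.s = (23 / 16) := by norm_num [A15.ac, A15.ar, A15.P]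
  rw [e1, e2] at h
  simpa using h

theorem box_A16 {u u1 : ℝ → ℝ → ℝ} (hu : ∀ α, IsSol α (u α) (u1 α)) : Inc u (23 / 16) (95 / 64) := by
  have h := xbox true hu (w := 3) (q := 104) (P := A16.P) rfl (by decide) A16.first A16.chain A16.segs A16.mono
    (by rw [CellD.a1, A16.lM, A16.lH, A16.lg]; norm_num) (by decide) (by decide) (by decide)
  have e1 : ((A16.ac : ℝ) - A16.ar) / 2 ^ A16.P.s = (23 / 16) := by norm_num [A16.ac, A16.ar, A16.P]
  have e2 : ((A16.ac : ℝ) + A16.ar) / 2 ^ A16.P.s = (95 / 64) := by norm_num [A16.ac, A16.ar, A16.P]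
  rw [e1, e2] at h
  simpa using h

theorem box_A17 {u u1 : ℝ → ℝ → ℝ} (hu : ∀ α, IsSol α (u α) (u1 α)) : Inc u (95 / 64) (193 / 128) := by
  have h := xbox true hu (w := 3) (q := 208) (P := A17.P) rfl (by decide) A17.first A17.chain A17.segs A17.mono
    (by rw [CellD.a1, A17.lM, A17.lH, A17.lg]; norm_num) (by decide) (by decide) (by decide)
  have e1 : ((A17.ac : ℝ) - A17.ar) / 2 ^ A17.P.s = (95 / 64) := by norm_num [A17.ac, A17.ar, A17.P]
  have e2 : ((A17.ac : ℝ) + A17.ar) / 2 ^ A17.P.s = (193 / 128) := by norm_num [A17.ac, A17.ar, A17.P]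
  rw [e1, e2] at h
  simpa using h

theorem box_A18 {u u1 : ℝ → ℝ → ℝ} (hu : ∀ α, IsSol α (u α) (u1 α)) :
    BoxB u u1 (2 ^ A18.P.s) 160 A18.ac A18.ar 4 A18.sg := by
  have h := box_bounds hu (w := 4) (P := A18.P) rfl (by decide) A18.first A18.chain A18.segs
  have e : (A18.tl.getLastD A18.c0).a1 = 160 := by
    rw [CellD.a1, A18.lM, A18.lH, A18.lg]; norm_num
  rw [e] at h
  exact ⟨h.2.1, h.2.2⟩

theorem box_A19 {u u1 : ℝ → ℝ → ℝ} (hu : ∀ α, IsSol α (u α) (u1 α)) :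
    BoxB u u1 (2 ^ A19.P.s) 160 A19.ac A19.ar 2 A19.sg := by
  have h := box_bounds hu (w := 2) (P := A19.P) rfl (by decide) A19.first A19.chain A19.segs
  have e : (A19.tl.getLastD A19.c0).a1 = 160 := by
    rw [CellD.a1, A19.lM, A19.lH, A19.lg]; norm_num
  rw [e] at h
  exact ⟨h.2.1, h.2.2⟩

theorem box_A20 {u u1 : ℝ → ℝ → ℝ} (hu : ∀ α, IsSol α (u α) (u1 α)) : Dec u (101 / 64) (103 / 64) := by
  have h := xbox false hu (w := 4) (q := 73728) (P := A20.P) rfl (by decide) A20.first A20.chain A20.segs A20.mono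
    (by rw [CellD.a1, A20.lM, A20.lH, A20.lg]; norm_num) (by decide) (by decide) (by decide)
  have e1 : ((A20.ac : ℝ) - A20.ar) / 2 ^ A20.P.s = (101 / 64) := by norm_num [A20.ac, A20.ar, A20.P]
  have e2 : ((A20.ac : ℝ) + A20.ar) / 2 ^ A20.P.s = (103 / 64) := by norm_num [A20.ac, A20.ar, A20.P]
  rw [e1, e2] at h
  simpa using h

theorem box_A21 {u u1 : ℝ → ℝ → ℝ} (hu : ∀ α, IsSol α (u α) (u1 α)) : Dec u (103 / 64) (211 / 128) := by
  have h := xbox false hu (w := 4) (q := 53248) (P := A21.P) rfl (by decide) A21.first A21.chain A21.segs A21.mono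
    (by rw [CellD.a1, A21.lM, A21.lH, A21.lg]; norm_num) (by decide) (by decide) (by decide)
  have e1 : ((A21.ac : ℝ) - A21.ar) / 2 ^ A21.P.s = (103 / 64) := by norm_num [A21.ac, A21.ar, A21.P]
  have e2 : ((A21.ac : ℝ) + A21.ar) / 2 ^ A21.P.s = (211 / 128) := by norm_num [A21.ac, A21.ar, A21.P]
  rw [e1, e2] at h
  simpa using h

theorem box_A22 {u u1 : ℝ → ℝ → ℝ} (hu : ∀ α, IsSol α (u α) (u1 α)) : Dec u (211 / 128) (107 / 64) := by
  have h := xbox false hu (w := 4) (q := 53248) (P := A22.P) rfl (by decide) A22.first A22.chain A22.segs A22.mono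
    (by rw [CellD.a1, A22.lM, A22.lH, A22.lg]; norm_num) (by decide) (by decide) (by decide)
  have e1 : ((A22.ac : ℝ) - A22.ar) / 2 ^ A22.P.s = (211 / 128) := by norm_num [A22.ac, A22.ar, A22.P]
  have e2 : ((A22.ac : ℝ) + A22.ar) / 2 ^ A22.P.s = (107 / 64) := by norm_num [A22.ac, A22.ar, A22.P]
  rw [e1, e2] at h
  simpa using h

theorem box_A23 {u u1 : ℝ → ℝ → ℝ} (hu : ∀ α, IsSol α (u α) (u1 α)) (hdep : Dep u u1)
    (hneg : ∀ α, 0 < α → ∀ t, 0 < t → u1 α t < 0) :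
    ∃ p ∈ Icc ((107 / 64) : ℝ) (27 / 16), Dec u (107 / 64) p ∧ Inc u p (27 / 16) := by
  have h := turn_box hu hdep hneg (P := A23.P) (C1 := A23.c21) rfl (by decide) A23.first A23.chain A23.seg0 A23.jump
    A23.cell A23.turn A23.seg1 (by decide) (by decide) (by decide) (by decide) (by decide)
  have e1 : ((A23.ac : ℝ) - A23.ar) / 2 ^ A23.P.s = (107 / 64) := by norm_num [A23.ac, A23.ar, A23.P]
  have e2 : ((A23.ac : ℝ) + A23.ar) / 2 ^ A23.P.s = (27 / 16) := by norm_num [A23.ac, A23.ar, A23.P]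
  rw [e1, e2] at h
  exact h

theorem box_A24 {u u1 : ℝ → ℝ → ℝ} (hu : ∀ α, IsSol α (u α) (u1 α)) : Inc u (27 / 16) (7 / 4) := by
  have h := xbox true hu (w := 4) (q := 53248) (P := A24.P) rfl (by decide) A24.first A24.chain A24.segs A24.mono
    (by rw [CellD.a1, A24.lM, A24.lH, A24.lg]; norm_num) (by decide) (by decide) (by decide)
  have e1 : ((A24.ac : ℝ) - A24.ar) / 2 ^ A24.P.s = (27 / 16) := by norm_num [A24.ac, A24.ar, A24.P]
  have e2 : ((A24.ac : ℝ) + A24.ar) / 2 ^ A24.P.s = (7 / 4) := by norm_num [A24.ac, A24.ar, A24.P]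
  rw [e1, e2] at h
  simpa using h

theorem box_A25 {u u1 : ℝ → ℝ → ℝ} (hu : ∀ α, IsSol α (u α) (u1 α)) : Inc u (7 / 4) (115 / 64) := by
  have h := xbox true hu (w := 4) (q := 65536) (P := A25.P) rfl (by decide) A25.first A25.chain A25.segs A25.mono
    (by rw [CellD.a1, A25.lM, A25.lH, A25.lg]; norm_num) (by decide) (by decide) (by decide)
  have e1 : ((A25.ac : ℝ) - A25.ar) / 2 ^ A25.P.s = (7 / 4) := by norm_num [A25.ac, A25.ar, A25.P]
  have e2 : ((A25.ac : ℝ) + A25.ar) / 2 ^ A25.P.s = (115 / 64) := by norm_num [A25.ac, A25.ar, A25.P]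
  rw [e1, e2] at h
  simpa using h

theorem box_A26 {u u1 : ℝ → ℝ → ℝ} (hu : ∀ α, IsSol α (u α) (u1 α)) : Inc u (115 / 64) (233 / 128) := by
  have h := xbox true hu (w := 4) (q := 131072) (P := A26.P) rfl (by decide) A26.first A26.chain A26.segs A26.mono
    (by rw [CellD.a1, A26.lM, A26.lH, A26.lg]; norm_num) (by decide) (by decide) (by decide)
  have e1 : ((A26.ac : ℝ) - A26.ar) / 2 ^ A26.P.s = (115 / 64) := by norm_num [A26.ac, A26.ar, A26.P]
  have e2 : ((A26.ac : ℝ) + A26.ar) / 2 ^ A26.P.s = (233 / 128) := by norm_num [A26.ac, A26.ar, A26.P]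
  rw [e1, e2] at h
  simpa using h

theorem box_A27 {u u1 : ℝ → ℝ → ℝ} (hu : ∀ α, IsSol α (u α) (u1 α)) :
    BoxB u u1 (2 ^ A27.P.s) 32768 A27.ac A27.ar 4 A27.sg := by
  have h := box_bounds hu (w := 4) (P := A27.P) rfl (by decide) A27.first A27.chain A27.segs
  have e : (A27.tl.getLastD A27.c0).a1 = 32768 := by
    rw [CellD.a1, A27.lM, A27.lH, A27.lg]; norm_num
  rw [e] at h
  exact ⟨h.2.1, h.2.2⟩

theorem cert_S1 : SecCert (1 / 170) 0 (13 / 256) 64 := by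
  have h := sec_cert (w := 3) (q := 64) (P := S1.P) (Q2 := S1.Q) (by decide) S1.init S1.cell S1.chain S1.segs
    (by rw [CellD.a1, S1.lM, S1.lH, S1.lg]; norm_num) S1.fin S1.nu
  have e1 : ((S1.sc : ℝ) - S1.sr) / 2 ^ S1.P.s = 0 := by norm_num [S1.sc, S1.sr, S1.P]
  have e2 : ((S1.sc : ℝ) + S1.sr) / 2 ^ S1.P.s = (13 / 256) := by norm_num [S1.sc, S1.sr, S1.P]
  have e3 : ((S1.Q.dn : ℝ) / S1.Q.dd) = 1 / 170 := by norm_num [S1.Q]
  have e : (S1.tl.getLastD S1.c0).a1 = 64 := by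
    rw [CellD.a1, S1.lM, S1.lH, S1.lg]; norm_num
  have h2 := h.2
  rw [e1, e2, e3, e] at h2
  exact h2

theorem cert_S2 : SecCert (1 / 16384) (3 / 64) (13 / 128) 88 := by
  have h := sec_cert (w := 3) (q := 88) (P := S2.P) (Q2 := S2.Q) (by decide) S2.init S2.cell S2.chain S2.segs
    (by rw [CellD.a1, S2.lM, S2.lH, S2.lg]; norm_num) S2.fin S2.nu
  have e1 : ((S2.sc : ℝ) - S2.sr) / 2 ^ S2.P.s = (3 / 64) := by norm_num [S2.sc, S2.sr, S2.P]
  have e2 : ((S2.sc : ℝ) + S2.sr) / 2 ^ S2.P.s = (13 / 128) := by norm_num [S2.sc, S2.sr, S2.P]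
  have e3 : ((S2.Q.dn : ℝ) / S2.Q.dd) = 1 / 16384 := by norm_num [S2.Q]
  have e : (S2.tl.getLastD S2.c0).a1 = 88 := by
    rw [CellD.a1, S2.lM, S2.lH, S2.lg]; norm_num
  have h2 := h.2
  rw [e1, e2, e3, e] at h2
  exact h2

theorem cert_S3 : SecCert (1 / 16384) (13 / 128) (9 / 64) 128 := by
  have h := sec_cert (w := 3) (q := 128) (P := S3.P) (Q2 := S3.Q) (by decide) S3.init S3.cell S3.chain S3.segs
    (by rw [CellD.a1, S3.lM, S3.lH, S3.lg]; norm_num) S3.fin S3.nu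
  have e1 : ((S3.sc : ℝ) - S3.sr) / 2 ^ S3.P.s = (13 / 128) := by norm_num [S3.sc, S3.sr, S3.P]
  have e2 : ((S3.sc : ℝ) + S3.sr) / 2 ^ S3.P.s = (9 / 64) := by norm_num [S3.sc, S3.sr, S3.P]
  have e3 : ((S3.Q.dn : ℝ) / S3.Q.dd) = 1 / 16384 := by norm_num [S3.Q]
  have e : (S3.tl.getLastD S3.c0).a1 = 128 := by
    rw [CellD.a1, S3.lM, S3.lH, S3.lg]; norm_num
  have h2 := h.2
  rw [e1, e2, e3, e] at h2
  exact h2

theorem cert_S4 : SecCert (1 / 16384) (9 / 64) (11 / 64) 192 := by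
  have h := sec_cert (w := 3) (q := 192) (P := S4.P) (Q2 := S4.Q) (by decide) S4.init S4.cell S4.chain S4.segs
    (by rw [CellD.a1, S4.lM, S4.lH, S4.lg]; norm_num) S4.fin S4.nu
  have e1 : ((S4.sc : ℝ) - S4.sr) / 2 ^ S4.P.s = (9 / 64) := by norm_num [S4.sc, S4.sr, S4.P]
  have e2 : ((S4.sc : ℝ) + S4.sr) / 2 ^ S4.P.s = (11 / 64) := by norm_num [S4.sc, S4.sr, S4.P]
  have e3 : ((S4.Q.dn : ℝ) / S4.Q.dd) = 1 / 16384 := by norm_num [S4.Q]
  have e : (S4.tl.getLastD S4.c0).a1 = 192 := by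
    rw [CellD.a1, S4.lM, S4.lH, S4.lg]; norm_num
  have h2 := h.2
  rw [e1, e2, e3, e] at h2
  exact h2

theorem cert_S5 : SecCert (1 / 16384) (11 / 64) (49 / 256) 256 := by
  have h := sec_cert (w := 3) (q := 256) (P := S5.P) (Q2 := S5.Q) (by decide) S5.init S5.cell S5.chain S5.segs
    (by rw [CellD.a1, S5.lM, S5.lH, S5.lg]; norm_num) S5.fin S5.nu
  have e1 : ((S5.sc : ℝ) - S5.sr) / 2 ^ S5.P.s = (11 / 64) := by norm_num [S5.sc, S5.sr, S5.P]
  have e2 : ((S5.sc : ℝ) + S5.sr) / 2 ^ S5.P.s = (49 / 256) := by norm_num [S5.sc, S5.sr, S5.P]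
  have e3 : ((S5.Q.dn : ℝ) / S5.Q.dd) = 1 / 16384 := by norm_num [S5.Q]
  have e : (S5.tl.getLastD S5.c0).a1 = 256 := by
    rw [CellD.a1, S5.lM, S5.lH, S5.lg]; norm_num
  have h2 := h.2
  rw [e1, e2, e3, e] at h2
  exact h2

theorem cert_S6 : SecCert (1 / 16384) (49 / 256) (53 / 256) 352 := by
  have h := sec_cert (w := 3) (q := 352) (P := S6.P) (Q2 := S6.Q) (by decide) S6.init S6.cell S6.chain S6.segs
    (by rw [CellD.a1, S6.lM, S6.lH, S6.lg]; norm_num) S6.fin S6.nu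
  have e1 : ((S6.sc : ℝ) - S6.sr) / 2 ^ S6.P.s = (49 / 256) := by norm_num [S6.sc, S6.sr, S6.P]
  have e2 : ((S6.sc : ℝ) + S6.sr) / 2 ^ S6.P.s = (53 / 256) := by norm_num [S6.sc, S6.sr, S6.P]
  have e3 : ((S6.Q.dn : ℝ) / S6.Q.dd) = 1 / 16384 := by norm_num [S6.Q]
  have e : (S6.tl.getLastD S6.c0).a1 = 352 := by
    rw [CellD.a1, S6.lM, S6.lH, S6.lg]; norm_num
  have h2 := h.2
  rw [e1, e2, e3, e] at h2
  exact h2

theorem dec_one {u u1 : ℝ → ℝ → ℝ} (hu : ∀ α, IsSol α (u α) (u1 α)) : Dec u (1 / 16) (29 / 32) := by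
  have h0 := box_A01 hu
  have h1 := dec_glue (by norm_num) (by norm_num) h0 (box_A02 hu)
  have h2 := dec_glue (by norm_num) (by norm_num) h1 (box_A03 hu)
  have h3 := dec_glue (by norm_num) (by norm_num) h2 (box_A04 hu)
  have h4 := dec_glue (by norm_num) (by norm_num) h3 (box_A05 hu)
  have h5 := dec_glue (by norm_num) (by norm_num) h4 (box_A06 hu)
  have h6 := dec_glue (by norm_num) (by norm_num) h5 (box_A07 hu)
  have h7 := dec_glue (by norm_num) (by norm_num) h6 (box_A08 hu)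
  have h8 := dec_glue (by norm_num) (by norm_num) h7 (box_A09 hu)
  have h9 := dec_glue (by norm_num) (by norm_num) h8 (box_A10 hu)
  have h10 := dec_glue (by norm_num) (by norm_num) h9 (box_A11 hu)
  exact h10

theorem inc_one {u u1 : ℝ → ℝ → ℝ} (hu : ∀ α, IsSol α (u α) (u1 α)) : Inc u (15 / 16) (193 / 128) := by
  have h0 := box_A13 hu
  have h1 := inc_glue (by norm_num) (by norm_num) h0 (box_A14 hu)
  have h2 := inc_glue (by norm_num) (by norm_num) h1 (box_A15 hu)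
  have h3 := inc_glue (by norm_num) (by norm_num) h2 (box_A16 hu)
  have h4 := inc_glue (by norm_num) (by norm_num) h3 (box_A17 hu)
  exact h4

theorem dec_two {u u1 : ℝ → ℝ → ℝ} (hu : ∀ α, IsSol α (u α) (u1 α)) : Dec u (101 / 64) (107 / 64) := by
  have h0 := box_A20 hu
  have h1 := dec_glue (by norm_num) (by norm_num) h0 (box_A21 hu)
  have h2 := dec_glue (by norm_num) (by norm_num) h1 (box_A22 hu)
  exact h2

theorem inc_two {u u1 : ℝ → ℝ → ℝ} (hu : ∀ α, IsSol α (u α) (u1 α)) : Inc u (27 / 16) (233 / 128) := by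
  have h0 := box_A24 hu
  have h1 := inc_glue (by norm_num) (by norm_num) h0 (box_A25 hu)
  have h2 := inc_glue (by norm_num) (by norm_num) h1 (box_A26 hu)
  exact h2


theorem small_region {u u1 : ℝ → ℝ → ℝ} (hu : ∀ α, IsSol α (u α) (u1 α)) (hdep : Dep u u1)
    (hneg : ∀ α, 0 < α → ∀ t, 0 < t → u1 α t < 0) :
    (∀ α ∈ Ioc (0:ℝ) (1 / 16), ∃ T, Hit (u α) T) ∧
    ∀ α ∈ Ioc (0:ℝ) (1 / 16), ∀ β ∈ Ioc (0:ℝ) (1 / 16), α < β →
      ∀ T T', Hit (u α) T → Hit (u β) T' → T' < T :=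
  sec_glob hu hdep hneg le_rfl (by norm_num) (by norm_num) (fun β hβ => by
    obtain ⟨κ, h1, h2, h3, h4, h5, h6⟩ := sec_small hu hdep hneg β hβ
    exact ⟨κ, 1 / 170, 0, 13 / 256, 64, h1, by norm_num, by norm_num, by linarith, cert_S1, h3, h4,
      h5, h6⟩)

theorem fd_one {u u1 : ℝ → ℝ → ℝ} (hu : ∀ α, IsSol α (u α) (u1 α)) (hdep : Dep u u1)
    (hneg : ∀ α, 0 < α → ∀ t, 0 < t → u1 α t < 0) :
    ∃ αs ∈ Ioo (193 / 128 : ℝ) (197 / 128),
      (∀ α ∈ Ico (193 / 128 : ℝ) αs, ∃ T, Hit (u α) T) ∧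
      (∀ α ∈ Ico (193 / 128 : ℝ) αs, ∀ β ∈ Ico (193 / 128 : ℝ) αs, α < β →
        ∀ T T', Hit (u α) T → Hit (u β) T' → T < T') ∧
      (∀ s, ¬ Hit (u αs) s) ∧
      (∀ t, 0 ≤ t → 0 < u αs t) ∧
      (∀ t, 160 ≤ t → 0 ≤ u αs t + t * u1 αs t ∧ t * u αs t ≤ ((28 / 25 : ℚ) : ℝ)) := by
  have h := fd_box hu hdep hneg (q := 160) (Sq := 2 ^ A18.P.s) (by norm_num) (by norm_num)
    (by positivity) (by norm_num) (by decide) (by decide) (by norm_num [A18.ac, A18.ar, A18.P])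
    (by norm_num) (box_A18 hu) A18.fd
  have e1 : ((A18.ac : ℝ) - A18.ar) / 2 ^ A18.P.s = 193 / 128 := by norm_num [A18.ac, A18.ar, A18.P]
  have e2 : ((A18.ac : ℝ) + A18.ar) / 2 ^ A18.P.s = 197 / 128 := by norm_num [A18.ac, A18.ar, A18.P]
  rw [e1, e2] at h
  exact h

theorem fd_two {u u1 : ℝ → ℝ → ℝ} (hu : ∀ α, IsSol α (u α) (u1 α)) (hdep : Dep u u1)
    (hneg : ∀ α, 0 < α → ∀ t, 0 < t → u1 α t < 0) :
    ∃ αs ∈ Ioo (233 / 128 : ℝ) (119 / 64),
      (∀ α ∈ Ico (233 / 128 : ℝ) αs, ∃ T, Hit (u α) T) ∧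
      (∀ α ∈ Ico (233 / 128 : ℝ) αs, ∀ β ∈ Ico (233 / 128 : ℝ) αs, α < β →
        ∀ T T', Hit (u α) T → Hit (u β) T' → T < T') ∧
      (∀ s, ¬ Hit (u αs) s) := by
  have h := fd_box hu hdep hneg (q := 32768) (Sq := 2 ^ A27.P.s) (by norm_num) (by norm_num)
    (by positivity) (by norm_num) (by decide) (by decide) (by norm_num [A27.ac, A27.ar, A27.P])
    (by norm_num) (box_A27 hu) A27.fd
  have e1 : ((A27.ac : ℝ) - A27.ar) / 2 ^ A27.P.s = 233 / 128 := by norm_num [A27.ac, A27.ar, A27.P]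
  have e2 : ((A27.ac : ℝ) + A27.ar) / 2 ^ A27.P.s = 119 / 64 := by norm_num [A27.ac, A27.ar, A27.P]
  rw [e1, e2] at h
  obtain ⟨αs, h1, h2, h3, h4, -, -⟩ := h
  exact ⟨αs, h1, h2, h3, h4⟩

theorem section_two {u u1 : ℝ → ℝ → ℝ} (hu : ∀ α, IsSol α (u α) (u1 α)) (hdep : Dep u u1)
    (hneg : ∀ α, 0 < α → ∀ t, 0 < t → u1 α t < 0) {αs : ℝ}
    (hαs : αs ∈ Ioo (193 / 128 : ℝ) (197 / 128)) (hpos : ∀ t, 0 ≤ t → 0 < u αs t)
    (hbase : ∀ t, 160 ≤ t → 0 ≤ u αs t + t * u1 αs t ∧ t * u αs t ≤ ((28 / 25 : ℚ) : ℝ)) :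
    (∀ α ∈ Ioc αs (101 / 64), ∃ T, Hit (u α) T) ∧
    ∀ α ∈ Ioc αs (101 / 64), ∀ β ∈ Ioc αs (101 / 64), α < β →
      ∀ T T', Hit (u α) T → Hit (u β) T' → T' < T := by
  have e1 : ((A18.ac : ℝ) - A18.ar) / 2 ^ A18.P.s = 193 / 128 := by norm_num [A18.ac, A18.ar, A18.P]
  have e2 : ((A18.ac : ℝ) + A18.ar) / 2 ^ A18.P.s = 197 / 128 := by norm_num [A18.ac, A18.ar, A18.P]
  have e3 : ((A19.ac : ℝ) + A19.ar) / 2 ^ A19.P.s = 101 / 64 := by norm_num [A19.ac, A19.ar, A19.P]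
  have e4 : ((2 : ℝ) ^ A19.P.s) = 2 ^ A18.P.s := rfl
  have hb' := box_A19 hu
  rw [e4] at hb'
  have h := sec_region hu hdep hneg (q := 160) (Sq := 2 ^ A18.P.s) (ym := 27 / 25) (B := 28 / 25)
    (κ0 := 271 / 50) (σm := 53 / 256) (t0 := 160) (by norm_num) (by norm_num) (by positivity)
    (by norm_num) (by decide) (by decide) (by decide) (by decide)
    (by norm_num [A19.ac, A19.ar, A18.P]) (box_A18 hu) hb' A18.cone A19.cone
    (by rw [e1, e2]; exact hαs) hbase hpos (by norm_num) (by norm_num) (by norm_num) (by norm_num)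
    (by norm_num) (by norm_num)
  rw [← e4, e3] at h
  refine sec_glob hu hdep hneg (by linarith [hαs.1]) (by linarith [hαs.2]) (by norm_num)
    (fun β hβ => ?_)
  obtain ⟨κ, h1, h2, h3, h4, h5, h6⟩ := h β hβ
  have hκ6 : (25600 : ℝ) ≤ κ ^ 6 := by
    have : (160:ℝ) ^ 2 ≤ (κ ^ 3) ^ 2 := pow_le_pow_left₀ (by norm_num) h2 2
    calc (25600 : ℝ) = 160 ^ 2 := by norm_num
      _ ≤ (κ ^ 3) ^ 2 := this
      _ = κ ^ 6 := by ring
  have h4' : κ ^ 2 * (κ ^ 3 * -(u1 β (κ ^ 3))) ≤ 53 / 256 := by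
    have := h4.2
    norm_num at this ⊢
    exact this
  have h40 := h4.1
  rcases le_total (κ ^ 2 * (κ ^ 3 * -(u1 β (κ ^ 3)))) (13 / 256) with c1 | c1
  · exact ⟨κ, 1 / 170, 0, 13 / 256, 64, h1, by norm_num, by norm_num, by linarith, cert_S1, h3,
      ⟨h40, c1⟩, h5, h6⟩
  rcases le_total (κ ^ 2 * (κ ^ 3 * -(u1 β (κ ^ 3)))) (13 / 128) with c2 | c2
  · exact ⟨κ, 1 / 16384, 3 / 64, 13 / 128, 88, h1, by norm_num, by norm_num, by linarith, cert_S2, h3,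
      ⟨by linarith, c2⟩, h5, h6⟩
  rcases le_total (κ ^ 2 * (κ ^ 3 * -(u1 β (κ ^ 3)))) (9 / 64) with c3 | c3
  · exact ⟨κ, 1 / 16384, 13 / 128, 9 / 64, 128, h1, by norm_num, by norm_num, by linarith, cert_S3, h3,
      ⟨c2, c3⟩, h5, h6⟩
  rcases le_total (κ ^ 2 * (κ ^ 3 * -(u1 β (κ ^ 3)))) (11 / 64) with c4 | c4
  · exact ⟨κ, 1 / 16384, 9 / 64, 11 / 64, 192, h1, by norm_num, by norm_num, by linarith, cert_S4, h3,
      ⟨c3, c4⟩, h5, h6⟩
  rcases le_total (κ ^ 2 * (κ ^ 3 * -(u1 β (κ ^ 3)))) (49 / 256) with c5 | c5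
  · exact ⟨κ, 1 / 16384, 11 / 64, 49 / 256, 256, h1, by norm_num, by norm_num, by linarith, cert_S5, h3,
      ⟨c4, c5⟩, h5, h6⟩
  · exact ⟨κ, 1 / 16384, 49 / 256, 53 / 256, 352, h1, by norm_num, by norm_num, by linarith, cert_S6, h3,
      ⟨c5, h4'⟩, h5, h6⟩

/-- the frozen statement S03669 -/
theorem lin_ni :
    ∀ S : Set (ℝ × ℝ),
      (∀ l a : ℝ, (l, a) ∈ S ↔
        (0 < l ∧ ∃ u : ℝ → ℝ, ∃ ε : ℝ, 0 < ε ∧
          ContDiffOn ℝ 2 u (Set.Ioo (-ε) (1 + ε)) ∧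
          u 0 = a ∧ deriv u 0 = 0 ∧ u 1 = 0 ∧
          (∀ r ∈ Set.Ico (0:ℝ) 1, 0 < u r) ∧
          ∀ r ∈ Set.Ioc (0:ℝ) 1,
            deriv (deriv u) r + 2 / r * deriv u r + l * (u r ^ 4 + u r ^ 7) = 0)) →
      ∃ x1 ∈ S, ∃ x2 ∈ S,
        connectedComponentIn S x1 ≠ connectedComponentIn S x2 ∧
        (∀ y ∈ S, y ∉ connectedComponentIn S x1 → y ∉ connectedComponentIn S x2 →
          ∀ z ∈ connectedComponentIn S x1 ∪ connectedComponentIn S x2, z.2 < y.2) ∧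
        ∀ x ∈ ({x1, x2} : Set (ℝ × ℝ)),
          ∃ t ∈ connectedComponentIn S x,
            (∀ y ∈ connectedComponentIn S x, ∀ z ∈ connectedComponentIn S x,
              y.2 < z.2 → z.2 ≤ t.2 → z.1 < y.1) ∧
            (∀ y ∈ connectedComponentIn S x, ∀ z ∈ connectedComponentIn S x,
              y.2 < z.2 → t.2 ≤ y.2 → y.1 < z.1) := by
  choose u u1 hu using exists_sol
  have hdep : Dep u u1 := dep u u1 hu
  have hneg : ∀ α, 0 < α → ∀ t, 0 < t → u1 α t < 0 := fun α hα t ht => sol_u1_neg hα (hu α) ht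
  obtain ⟨α₁, hα₁, a2, a3, a4, a5, a6⟩ := fd_one hu hdep hneg
  obtain ⟨α₂, hα₂, b2, b3, b4⟩ := fd_two hu hdep hneg
  exact main_glue u u1 hu hdep hneg (fun α => sol_contDiff (hu α))
    (fun {α T} hT {v v1} h0 hc hc1 hv hv1 => sol_unique hT (hu α) h0 hc hc1 hv hv1)
    (x0 := 1 / 16) (x1 := 29 / 32) (x2 := 15 / 16) (y1 := 193 / 128) (y2 := 197 / 128)
    (x3 := 107 / 64) (x4 := 27 / 16) (y3 := 233 / 128)
    (by norm_num) (by norm_num) (by norm_num) (by norm_num) (by norm_num) (by norm_num) (by norm_num)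
    (by norm_num) (small_region hu hdep hneg) (dec_one hu) (box_A12 hu hdep hneg) (inc_one hu) hα₁
    ⟨a2, a3⟩ a4 (z := 101 / 64) (by norm_num) (by norm_num) (section_two hu hdep hneg hα₁ a5 a6)
    (dec_two hu) (box_A23 hu hdep hneg) (inc_two hu) hα₂.1 (by linarith [hα₂.2]) ⟨b2, b3⟩ b4

end Pool.Agent.H228
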