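import Mathlib

/-!
# Bent functions: autocorrelation, cosets, quadratic functions
-/

set_option autoImplicit false

namespace Pool.Agent.H228.Rot

open Finset

/-- the sign `(-1) ^ z` -/
def sg (z : ZMod 2) : ℤ := (-1) ^ z.val

theorem sg_add (z w : ZMod 2) : sg (z + w) = sg z * sg w := by
  revert z w; decide

theorem sg_zero : sg 0 = 1 := by decide

theorem sg_sq (z : ZMod 2) : sg z * sg z = 1 := by
  revert z; decide

theorem sg_add_one (z : ZMod 2) : sg (z + 1) = - sg z := by
  revert z; decide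

theorem eq_one_of_ne_zero {z : ZMod 2} (h : z ≠ 0) : z = 1 := by
  revert z; decide

theorem add_self2 (z : ZMod 2) : z + z = 0 := CharTwo.add_self_eq_zero z

section general

variable {ι : Type} [Fintype ι] [DecidableEq ι]

/-- bent functions -/
def Bent (f : (ι → ZMod 2) → ZMod 2) : Prop :=
  ∀ a : ι → ZMod 2,
    (∑ x : ι → ZMod 2, sg (f x + ∑ i, a i * x i)) ^ 2 = (2 : ℤ) ^ Fintype.card ι

omit [Fintype ι] [DecidableEq ι] in
theorem add_self_v (x : ι → ZMod 2) : x + x = 0 := by
  ext i
  exact add_self2 _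

theorem orth (v : ι → ZMod 2) (hv : v ≠ 0) :
    ∑ a : ι → ZMod 2, sg (∑ i, a i * v i) = 0 := by
  obtain ⟨j, hj⟩ := Function.ne_iff.1 hv
  have hj1 : v j = 1 := eq_one_of_ne_zero hj
  have h : ∑ a : ι → ZMod 2, sg (∑ i, a i * v i) = ∑ a : ι → ZMod 2, - sg (∑ i, a i * v i) := by
    refine Fintype.sum_equiv (Equiv.addRight (Pi.single j 1)) _ _ fun a => ?_
    have h1 : ∑ i, (Equiv.addRight (Pi.single j (1 : ZMod 2)) a) i * v i =
        ∑ i, a i * v i + 1 := by
      simp only [Equiv.coe_addRight, Pi.add_apply, add_mul, sum_add_distrib]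
      congr 1
      rw [sum_eq_single j]
      · simp [hj1]
      · intro i _ hi
        simp [hi]
      · simp
    rw [h1, sg_add_one, neg_neg]
  rw [sum_neg_distrib] at h
  linarith

theorem autocorr {f : (ι → ZMod 2) → ZMod 2} (hf : Bent f) {u : ι → ZMod 2} (hu : u ≠ 0) :
    ∑ x, sg (f x) * sg (f (x + u)) = 0 := by
  have h1 : ∀ a : ι → ZMod 2, (∑ x : ι → ZMod 2, sg (f x + ∑ i, a i * x i)) ^ 2 *
      sg (∑ i, a i * u i) =
      ∑ x, ∑ y, sg (f x) * sg (f y) * sg (∑ i, a i * (x + y + u) i) := by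
    intro a
    rw [sq, sum_mul_sum, sum_mul]
    refine sum_congr rfl fun x _ => ?_
    rw [sum_mul]
    refine sum_congr rfl fun y _ => ?_
    have h2 : ∑ i, a i * (x + y + u) i = ∑ i, a i * x i + ∑ i, a i * y i + ∑ i, a i * u i := by
      simp only [Pi.add_apply, mul_add, sum_add_distrib]
    rw [h2]
    simp only [sg_add]
    ring
  have h2 : ∑ a : ι → ZMod 2, (∑ x : ι → ZMod 2, sg (f x + ∑ i, a i * x i)) ^ 2 *
      sg (∑ i, a i * u i) = 0 := by
    have h3 : ∀ a : ι → ZMod 2, (∑ x : ι → ZMod 2, sg (f x + ∑ i, a i * x i)) ^ 2 *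
      sg (∑ i, a i * u i) = 2 ^ Fintype.card ι * sg (∑ i, a i * u i) := fun a => by rw [hf a]
    simp_rw [h3]
    rw [← mul_sum, orth u hu, mul_zero]
  simp_rw [h1] at h2
  rw [sum_comm] at h2
  have h4 : ∀ x : ι → ZMod 2, ∑ a : ι → ZMod 2, ∑ y,
      sg (f x) * sg (f y) * sg (∑ i, a i * (x + y + u) i) =
      sg (f x) * sg (f (x + u)) * (Fintype.card (ι → ZMod 2)) := by
    intro x
    rw [sum_comm, sum_eq_single (x + u)]
    · have h5 : x + (x + u) + u = 0 := by
        rw [← add_assoc, add_self_v, zero_add, add_self_v]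
      have h6 : ∀ a : ι → ZMod 2, sg (∑ i, a i * (x + (x + u) + u) i) = 1 := by
        intro a
        rw [h5]
        simp [sg_zero]
      simp_rw [h6]
      rw [sum_const, card_univ, nsmul_eq_mul]
      ring
    · intro y _ hy
      rw [← mul_sum, orth, mul_zero]
      intro h5
      apply hy
      have h6 : x + y + u + (x + u) = 0 + (x + u) := by rw [h5]
      rw [zero_add] at h6
      rw [← h6]
      calc y = y + (x + x) + (u + u) := by rw [add_self_v, add_self_v]; simp
        _ = x + y + u + (x + u) := by abel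
    · simp
  simp_rw [h4] at h2
  rw [← sum_mul] at h2
  have h6 : (Fintype.card (ι → ZMod 2) : ℤ) ≠ 0 := by
    exact_mod_cast Fintype.card_ne_zero
  exact (mul_eq_zero.1 h2).resolve_right h6

/-- if a bent function vanishes on a large subgroup then its sums over all other cosets vanish -/
theorem coset_zero {f : (ι → ZMod 2) → ZMod 2} (hf : Bent f) (U : AddSubgroup (ι → ZMod 2))
    [Fintype U] (hU : 2 ^ Fintype.card ι ≤ Fintype.card U ^ 2) (h0 : ∀ u ∈ U, f u = 0)
    {b : ι → ZMod 2} (hb : b ∉ U) : ∑ u : U, sg (f (b + u)) = 0 := by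
  classical
  set T : (ι → ZMod 2) → ℤ := fun b => ∑ u : U, sg (f (b + u)) with hT
  have h1 : ∑ b, T b ^ 2 = Fintype.card U * 2 ^ Fintype.card ι := by
    have h2 : ∀ b, T b ^ 2 = ∑ u : U, ∑ v : U, sg (f (b + u)) * sg (f (b + v)) := by
      intro b
      rw [sq, sum_mul_sum]
    simp_rw [h2]
    rw [sum_comm]
    have h3 : ∀ u : U, ∑ b, ∑ v : U, sg (f (b + u)) * sg (f (b + v)) =
        2 ^ Fintype.card ι := by
      intro u
      rw [sum_comm, sum_eq_single u]
      · simp [sg_sq]
      · intro v _ hv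
        have h4 : ∑ b, sg (f (b + u)) * sg (f (b + v)) =
            ∑ b, sg (f b) * sg (f (b + (u + v))) := by
          refine Fintype.sum_equiv (Equiv.addRight (u : ι → ZMod 2)) _ _ fun b => ?_
          simp only [Equiv.coe_addRight]
          congr 3
          calc b + (v : ι → ZMod 2) = b + v + (u + u) := by rw [add_self_v, add_zero]
            _ = b + u + (u + v) := by abel
        rw [h4]
        apply autocorr hf
        intro h5
        apply hv
        apply Subtype.ext
        calc (v : ι → ZMod 2) = v + (u + u) := by rw [add_self_v, add_zero]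
          _ = (u + v) + u := by abel
          _ = u := by rw [h5, zero_add]
      · simp
    simp_rw [h3]
    simp
  have h2 : ∀ u : U, T u = Fintype.card U := by
    intro u
    have h3 : ∀ v : U, sg (f ((u : ι → ZMod 2) + v)) = 1 := by
      intro v
      rw [h0 _ (U.add_mem u.2 v.2), sg_zero]
    simp [hT, h3]
  have h3 : ∑ u : U, T u ^ 2 + T b ^ 2 ≤ ∑ b, T b ^ 2 := by
    have h4 : ∑ u : U, T u ^ 2 = ∑ x ∈ (univ : Finset U).image (fun u : U => (u : ι → ZMod 2)),
        T x ^ 2 := by
      rw [sum_image]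
      intro u _ v _ h
      exact Subtype.ext h
    rw [h4, ← sum_singleton (fun x => T x ^ 2) b, ← sum_union]
    · exact sum_le_univ_sum_of_nonneg fun x => sq_nonneg _
    · rw [disjoint_singleton_right, mem_image]
      rintro ⟨u, -, hu⟩
      exact hb (hu ▸ u.2)
  simp_rw [h2] at h3
  rw [h1, sum_const, card_univ, nsmul_eq_mul] at h3
  have hU' : (2 : ℤ) ^ Fintype.card ι ≤ (Fintype.card U : ℤ) ^ 2 := by exact_mod_cast hU
  have h5 : T b ^ 2 ≤ 0 := by
    have h6 : (Fintype.card U : ℤ) * 2 ^ Fintype.card ι ≤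
        (Fintype.card U : ℤ) * (Fintype.card U : ℤ) ^ 2 :=
      mul_le_mul_of_nonneg_left hU' (by positivity)
    linarith
  exact pow_eq_zero_iff (two_ne_zero) |>.1 (le_antisymm h5 (sq_nonneg _))

end general

/-- a balanced quadratic function is complemented by a translation -/
theorem quadratic {W : Type} [AddCommGroup W] [Fintype W] (g : W → ZMod 2)
    (hg : ∀ u v w, g (u + v + w) + g (u + v) + g (u + w) + g (v + w) + g u + g v + g w + g 0 = 0)
    (h0 : ∑ w, sg (g w) = 0) : ∃ u, ∀ w, g (w + u) = g w + 1 := by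
  by_contra hcon
  push Not at hcon
  have h1 : (∑ w, sg (g w)) ^ 2 = ∑ u, ∑ w, sg (g w + g (w + u)) := by
    rw [sq, sum_mul_sum, sum_comm (s := univ) (t := univ) (f := fun u w => sg (g w + g (w + u)))]
    refine sum_congr rfl fun w _ => ?_
    refine Fintype.sum_equiv (Equiv.subRight w) _ _ fun v => ?_
    rw [sg_add]
    simp
  have h2 : ∀ u, 0 ≤ ∑ w, sg (g w + g (w + u)) := by
    intro u
    by_cases h3 : ∃ w0, g w0 + g (w0 + u) + g u + g 0 = 1
    · obtain ⟨w0, hw0⟩ := h3
      have h4 : ∑ w, sg (g w + g (w + u)) = ∑ w, - sg (g w + g (w + u)) := by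
        refine Fintype.sum_equiv (Equiv.addRight w0) _ _ fun w => ?_
        simp only [Equiv.coe_addRight]
        have h5 := hg w w0 u
        have h6 : g (w + w0) + g (w + w0 + u) = g w + g (w + u) + 1 := by
          rw [← hw0]
          linear_combination h5 - (g (w + u) + g (w0 + u) + g w + g w0 + g u + g 0) * (by decide : (2 : ZMod 2) = 0)
        rw [h6, sg_add_one, neg_neg]
      rw [sum_neg_distrib] at h4
      have : ∑ w, sg (g w + g (w + u)) = 0 := by linarith
      rw [this]
    · push Not at h3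
      obtain ⟨w1, hw1⟩ := hcon u
      have h4 : ∀ w, g w + g (w + u) = 0 := by
        intro w
        have e : ∀ z : ZMod 2, z ≠ 1 → z = 0 := by decide
        have h5 := e _ (h3 w)
        have h6 := e _ (h3 w1)
        have h7 : g w1 + g (w1 + u) ≠ 1 := by
          intro h8
          apply hw1
          linear_combination h8 - g w1 * (by decide : (2 : ZMod 2) = 0)
        have h8 := e _ h7
        have h9 : g u + g 0 = 0 := by linear_combination h6 - h8
        linear_combination h5 - h9
      simp [h4, sg_zero]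
  have h3 : 0 < ∑ w, sg (g w + g (w + 0)) := by
    simp [add_self2, sg_zero, Fintype.card_pos]
  have h4 : 0 < ∑ u, ∑ w, sg (g w + g (w + u)) :=
    sum_pos' (fun u _ => h2 u) ⟨0, mem_univ _, h3⟩
  rw [← h1, h0] at h4
  simp at h4

end Pool.Agent.H228.Rot
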