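import Pool.Agent.H228.RotAnf

/-!
# Antiperiodic vectors
-/

set_option autoImplicit false

namespace Pool.Agent.H228.Rot

open Finset

variable {n : ℕ} [NeZero n]

/-- vectors of period `m` -/
def Um (n m : ℕ) : AddSubgroup (ZMod n → ZMod 2) where
  carrier := {x | ∀ i, x (i + (m : ZMod n)) = x i}
  zero_mem' := fun _ => rfl
  add_mem' := fun {x y} hx hy i => by
    have h1 : x (i + (m : ZMod n)) = x i := hx i
    have h2 : y (i + (m : ZMod n)) = y i := hy i
    simp only [Pi.add_apply, h1, h2]
  neg_mem' := fun {x} hx i => by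
    have h1 : x (i + (m : ZMod n)) = x i := hx i
    simp only [Pi.neg_apply, h1]

omit [NeZero n] in
theorem mem_Um {m : ℕ} {x : ZMod n → ZMod 2} : x ∈ Um n m ↔ ∀ i, x (i + (m : ZMod n)) = x i :=
  Iff.rfl

noncomputable instance (m : ℕ) : Fintype (Um n m) := Fintype.ofFinite _

omit [NeZero n] in
theorem half_add {m : ℕ} (hn : n = 2 * m) : (m : ZMod n) + m = 0 := by
  have h1 : ((2 * m : ℕ) : ZMod n) = 0 := by
    rw [← hn]
    exact ZMod.natCast_self n
  push_cast at h1
  rw [← two_mul]
  exact h1

theorem card_Um {m : ℕ} (hn : n = 2 * m) :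
    2 ^ Fintype.card (ZMod n) ≤ Fintype.card (Um n m) ^ 2 := by
  have hmm := half_add hn
  let φ : (ZMod n → ZMod 2) →+ (ZMod n → ZMod 2) :=
    { toFun := fun x i => x i + x (i + m)
      map_zero' := by funext i; simp
      map_add' := fun x y => by funext i; simp only [Pi.add_apply]; ring }
  have hker : φ.ker = Um n m := by
    ext x
    rw [AddMonoidHom.mem_ker, mem_Um]
    constructor
    · intro h i
      have h1 : x i + x (i + m) = 0 := congrFun h i
      exact (CharTwo.add_eq_zero.1 h1).symm
    · intro h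
      funext i
      change x i + x (i + m) = 0
      rw [h i]
      exact add_self2 _
  have hrange : φ.range ≤ Um n m := by
    rintro _ ⟨x, rfl⟩ i
    change x (i + m) + x (i + m + m) = x i + x (i + m)
    rw [add_assoc, hmm, add_zero, add_comm]
  have h1 := AddSubgroup.card_mul_index φ.ker
  rw [AddSubgroup.index_ker, hker] at h1
  have h2 : Nat.card φ.range ≤ Nat.card (Um n m) :=
    Nat.card_le_card_of_injective (AddSubgroup.inclusion hrange)
      (AddSubgroup.inclusion_injective hrange)
  have h3 : Nat.card (ZMod n → ZMod 2) = 2 ^ Fintype.card (ZMod n) := by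
    rw [Nat.card_eq_fintype_card, Fintype.card_fun, ZMod.card 2]
  rw [← h3, ← h1, ← Nat.card_eq_fintype_card, sq]
  exact Nat.mul_le_mul_left _ h2

theorem coset_sum {m : ℕ} (hn : n = 2 * m) {f : (ZMod n → ZMod 2) → ZMod 2} (hb : Bent f)
    (h0 : ∀ x ∈ Um n m, f x = 0) {b : ZMod n → ZMod 2} (hbm : ∀ i, b (i + (m : ZMod n)) = b i + 1) :
    ∑ u : Um n m, sg (f (b + u)) = 0 := by
  refine coset_zero hb (Um n m) (card_Um hn) h0 fun h => ?_
  have h1 : b (0 + (m : ZMod n)) = b 0 := h 0
  rw [hbm 0] at h1
  exact absurd (by linear_combination h1 : (1 : ZMod 2) = 0) (by decide)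

theorem exists_anti {M q : ℕ} (hM : 0 < M) (hn : n = 2 * (M * q)) :
    ∃ x : ZMod n → ZMod 2, ∀ i, x (i + (M : ZMod n)) = x i + 1 := by
  refine ⟨fun i => ((i.val / M : ℕ) : ZMod 2), fun i => ?_⟩
  have h1 : (i + (M : ZMod n)).val = (i.val + M) % n := by
    rw [ZMod.val_add, ZMod.val_natCast, Nat.add_mod_mod]
  have h2 : ∀ k : ℕ, (((k % n) / M : ℕ) : ZMod 2) = ((k / M : ℕ) : ZMod 2) := by
    intro k
    have e : k = M * (2 * (q * (k / n))) + k % n := by
      have h3 : M * (2 * (q * (k / n))) = n * (k / n) := by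
        calc M * (2 * (q * (k / n))) = 2 * (M * q) * (k / n) := by ring
          _ = n * (k / n) := by rw [← hn]
      rw [h3]
      exact (Nat.div_add_mod k n).symm
    have h3 : k / M = 2 * (q * (k / n)) + (k % n) / M := by
      conv_lhs => rw [e]
      exact Nat.mul_add_div hM _ _
    rw [h3]
    push_cast
    have h4 : (2 : ZMod 2) = 0 := by decide
    rw [h4, zero_mul, zero_add]
  simp only [h1, h2]
  rw [Nat.add_div_right _ hM]
  push_cast
  ring


omit [NeZero n] in
/-- from the antiperiod `M` to the antiperiod `M (2 k + 1)` -/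
theorem anti_odd {M : ℕ} {x : ZMod n → ZMod 2} (h : ∀ i, x (i + (M : ZMod n)) = x i + 1) (k : ℕ) :
    ∀ i, x (i + ((M * (2 * k + 1) : ℕ) : ZMod n)) = x i + 1 := by
  induction k with
  | zero => simpa using h
  | succ k ih =>
    intro i
    have e : i + ((M * (2 * (k + 1) + 1) : ℕ) : ZMod n) =
        i + ((M * (2 * k + 1) : ℕ) : ZMod n) + M + M := by
      push_cast
      ring
    rw [e, h, h, ih, add_assoc, add_self2, add_zero]

omit [NeZero n] in
/-- multiples of a period -/
theorem per_mul {N : ℕ} {x : ZMod n → ZMod 2} (h : ∀ i, x (i + (N : ZMod n)) = x i) (k : ℕ) :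
    ∀ i, x (i + ((N * k : ℕ) : ZMod n)) = x i := by
  induction k with
  | zero => intro i; simp
  | succ k ih =>
    intro i
    have e : i + ((N * (k + 1) : ℕ) : ZMod n) = i + ((N * k : ℕ) : ZMod n) + N := by
      push_cast
      ring
    rw [e, h, ih]

omit [NeZero n] in
/-- vectors of period `2 M` and antiperiod `M (2 k + 1)` have the antiperiod `M` -/
theorem anti_of {M k : ℕ} {x : ZMod n → ZMod 2}
    (h : ∀ i, x (i + ((M * (2 * k + 1) : ℕ) : ZMod n)) = x i + 1)
    (hp : ∀ i, x (i + ((2 * M : ℕ) : ZMod n)) = x i) : ∀ i, x (i + (M : ZMod n)) = x i + 1 := by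
  intro i
  have h1 := per_mul hp k (i + (M : ZMod n))
  have e : i + (M : ZMod n) + ((2 * M * k : ℕ) : ZMod n) =
      i + ((M * (2 * k + 1) : ℕ) : ZMod n) := by
    push_cast
    ring
  rw [e, h] at h1
  exact h1.symm

/-- a balanced quadratic function on the antiperiodic vectors takes both values on those with a
small period -/
theorem cubic_core {M k : ℕ} (hM : 0 < M) (hn : n = 2 * (M * (2 * k + 1)))
    {f : (ZMod n → ZMod 2) → ZMod 2} (hrot : ∀ (a : ZMod n) x, f (fun i => x (i + a)) = f x)
    (hb : Bent f) (h0 : ∀ x ∈ Um n (M * (2 * k + 1)), f x = 0)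
    (h3 : ∀ x, ∀ u ∈ Um n (M * (2 * k + 1)), ∀ v ∈ Um n (M * (2 * k + 1)),
      ∀ w ∈ Um n (M * (2 * k + 1)), f (x + u + v + w) + f (x + u + v) + f (x + u + w) +
        f (x + v + w) + f (x + u) + f (x + v) + f (x + w) + f x = 0) :
    ∃ x x' : ZMod n → ZMod 2, (∀ i, x (i + (M : ZMod n)) = x i + 1) ∧
      (∀ i, x' (i + (M : ZMod n)) = x' i + 1) ∧ f x' = f x + 1 := by
  set m : ℕ := M * (2 * k + 1) with hm
  obtain ⟨b, hbM⟩ := exists_anti hM hn
  have hbm : ∀ i, b (i + (m : ZMod n)) = b i + 1 := anti_odd hbM k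
  have hsum := coset_sum hn hb h0 hbm
  obtain ⟨u0, hu0⟩ := quadratic (fun u : Um n m => f (b + u)) (by
    intro u v w
    have h1 := h3 b u u.2 v v.2 w w.2
    simp only [AddSubgroup.coe_add, AddSubgroup.coe_zero, add_zero]
    simp only [← add_assoc]
    exact h1) hsum
  -- on the whole coset
  have h1 : ∀ x, (∀ i, x (i + (m : ZMod n)) = x i + 1) → f (x + u0) = f x + 1 := by
    intro x hx
    have h2 : x - b ∈ Um n m := by
      intro i
      change x (i + m) - b (i + m) = x i - b i
      rw [hx, hbm]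
      ring
    have h4 := hu0 ⟨x - b, h2⟩
    simp only [AddSubgroup.coe_add] at h4
    have e1 : b + (x - b + (u0 : ZMod n → ZMod 2)) = x + u0 := by abel
    have e2 : b + (x - b) = x := by abel
    rw [e1, e2] at h4
    exact h4
  have h2 : ∀ (a : ZMod n) x, (∀ i, x (i + (m : ZMod n)) = x i + 1) →
      f (x + fun i => (u0 : ZMod n → ZMod 2) (i + a)) = f x + 1 := by
    intro a x hx
    have h4 := h1 (fun i => x (i - a)) (by
      intro i
      have e : i + (m : ZMod n) - a = i - a + m := by ring
      rw [e, hx])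
    have h5 := hrot a ((fun i => x (i - a)) + u0)
    have h6 := hrot a (fun i => x (i - a))
    simp only [add_sub_cancel_right] at h6
    rw [← h6] at h4
    rw [← h4, ← h5]
    congr 1
    funext i
    simp
  -- the sum of the rotations
  have hum : ∀ i, (u0 : ZMod n → ZMod 2) (i + (m : ZMod n)) = (u0 : ZMod n → ZMod 2) i := u0.2
  set U : ℕ → (ZMod n → ZMod 2) := fun t i =>
    ∑ j ∈ range t, (u0 : ZMod n → ZMod 2) (i + ((2 * M * j : ℕ) : ZMod n)) with hU
  have hUm : ∀ t i, U t (i + (m : ZMod n)) = U t i := by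
    intro t i
    simp only [hU]
    refine sum_congr rfl fun j _ => ?_
    have e : i + (m : ZMod n) + ((2 * M * j : ℕ) : ZMod n) =
        i + ((2 * M * j : ℕ) : ZMod n) + m := by ring
    rw [e, hum]
  have h4 : ∀ t : ℕ, f (b + U t) = f b + t := by
    intro t
    induction t with
    | zero =>
      have e : U 0 = 0 := by
        funext i
        simp [hU]
      rw [e]
      simp
    | succ t ih =>
      have e : b + U (t + 1) = (b + U t) + fun i =>
          (u0 : ZMod n → ZMod 2) (i + ((2 * M * t : ℕ) : ZMod n)) := by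
        funext i
        simp only [hU, Pi.add_apply, sum_range_succ]
        ring
      rw [e, h2 _ _ (by
        intro i
        simp only [Pi.add_apply]
        rw [hbm, hUm]
        ring), ih]
      push_cast
      ring
  have h5 : ∀ i, U (2 * k + 1) (i + ((2 * M : ℕ) : ZMod n)) = U (2 * k + 1) i := by
    intro i
    simp only [hU]
    have e1 : ∀ j : ℕ, i + ((2 * M : ℕ) : ZMod n) + ((2 * M * j : ℕ) : ZMod n) =
        i + ((2 * M * (j + 1) : ℕ) : ZMod n) := by
      intro j
      push_cast
      ring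
    simp_rw [e1]
    have e2 := sum_range_succ (fun j => (u0 : ZMod n → ZMod 2) (i + ((2 * M * j : ℕ) : ZMod n)))
      (2 * k + 1)
    have e3 := sum_range_succ' (fun j => (u0 : ZMod n → ZMod 2) (i + ((2 * M * j : ℕ) : ZMod n)))
      (2 * k + 1)
    rw [e2] at e3
    have e4 : ((2 * M * (2 * k + 1) : ℕ) : ZMod n) = 0 := by
      have : 2 * M * (2 * k + 1) = n := by
        rw [hn, hm]
        ring
      rw [this]
      exact ZMod.natCast_self n
    rw [e4] at e3
    simp only [mul_zero, Nat.cast_zero, add_zero] at e3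
    exact (add_right_cancel e3).symm
  refine ⟨b, b + U (2 * k + 1), hbM, ?_, ?_⟩
  · refine anti_of (k := k) ?_ ?_
    · intro i
      change b (i + (m : ZMod n)) + U (2 * k + 1) (i + (m : ZMod n)) = b i + U (2 * k + 1) i + 1
      rw [hbm, hUm]
      ring
    · intro i
      simp only [Pi.add_apply]
      rw [h5]
      have h6 : b (i + ((2 * M : ℕ) : ZMod n)) = b i := by
        have e : i + ((2 * M : ℕ) : ZMod n) = i + (M : ZMod n) + M := by
          push_cast
          ring
        rw [e, hbM, hbM, add_assoc, add_self2, add_zero]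
      rw [h6]
  · rw [h4]
    push_cast
    have h6 : (2 : ZMod 2) = 0 := by decide
    rw [h6, zero_mul, zero_add]

/-- the same for arbitrary functions and prime powers -/
theorem odd_core {M p s : ℕ} (hM : 0 < M) (hp : p.Prime) (hp2 : p ≠ 2) (hn : n = 2 * (M * p ^ s))
    {f : (ZMod n → ZMod 2) → ZMod 2} (hrot : ∀ (a : ZMod n) x, f (fun i => x (i + a)) = f x)
    (hb : Bent f) (h0 : ∀ x ∈ Um n (M * p ^ s), f x = 0) (e : ZMod 2) :
    ∃ x : ZMod n → ZMod 2, (∀ i, x (i + (M : ZMod n)) = x i + 1) ∧ f x = e := by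
  classical
  have : Fact p.Prime := ⟨hp⟩
  have hodd : Odd (p ^ s) := (hp.odd_of_ne_two hp2).pow
  obtain ⟨k, hk⟩ := hodd
  set m : ℕ := M * p ^ s with hm
  obtain ⟨b, hbM⟩ := exists_anti hM hn
  have hbm : ∀ i, b (i + (m : ZMod n)) = b i + 1 := by
    rw [hm, hk]
    exact anti_odd hbM k
  have hsum := coset_sum hn hb h0 hbm
  -- the two classes
  have hcard : ∀ e : ZMod 2, 2 * Fintype.card {u : Um n m // f (b + u) = e} =
      Fintype.card (Um n m) := by
    have h1 : ∑ u : Um n m, sg (f (b + u)) =
        (Fintype.card {u : Um n m // f (b + u) = 0} : ℤ) -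
          Fintype.card {u : Um n m // f (b + u) = 1} := by
      rw [Fintype.card_subtype, Fintype.card_subtype, card_filter, card_filter]
      push_cast
      rw [← sum_sub_distrib]
      refine sum_congr rfl fun u _ => ?_
      generalize f (b + u) = z
      revert z
      decide
    have h2 : Fintype.card (Um n m) = Fintype.card {u : Um n m // f (b + u) = 0} +
          Fintype.card {u : Um n m // f (b + u) = 1} := by
      have e1 : Fintype.card (Um n m) = ∑ _u : Um n m, 1 := by simp
      rw [e1, Fintype.card_subtype, Fintype.card_subtype, card_filter, card_filter,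
        ← sum_add_distrib]
      refine sum_congr rfl fun u _ => ?_
      generalize f (b + u) = z
      revert z
      decide
    rw [hsum] at h1
    have h3 : ∀ e : ZMod 2, e = 0 ∨ e = 1 := by decide
    intro e
    rcases h3 e with rfl | rfl <;> omega
  -- an orbit argument
  let α : Type := {x : ZMod n → ZMod 2 // (∀ i, x (i + (m : ZMod n)) = x i + 1) ∧ f x = e}
  have hα : Fintype.card α = Fintype.card {u : Um n m // f (b + u) = e} := by
    refine Fintype.card_congr ?_
    refine ⟨fun x => ⟨⟨x.1 - b, ?_⟩, ?_⟩, fun u => ⟨b + u.1, ?_, u.2⟩, ?_, ?_⟩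
    · intro i
      change x.1 (i + m) - b (i + m) = x.1 i - b i
      rw [x.2.1, hbm]
      ring
    · have e2 : b + (x.1 - b) = x.1 := by abel
      simp only [e2]
      exact x.2.2
    · intro i
      have h1 : (u.1 : ZMod n → ZMod 2) (i + (m : ZMod n)) = (u.1 : ZMod n → ZMod 2) i := u.1.2 i
      simp only [Pi.add_apply]
      rw [hbm, h1]
      ring
    · intro x
      apply Subtype.ext
      simp
    · intro u
      apply Subtype.ext
      apply Subtype.ext
      simp
  let g : Function.End α := fun x => ⟨fun i => x.1 (i + ((2 * M : ℕ) : ZMod n)), by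
    intro i
    have e1 : i + (m : ZMod n) + ((2 * M : ℕ) : ZMod n) = i + ((2 * M : ℕ) : ZMod n) + m := by ring
    change x.1 (i + (m : ZMod n) + ((2 * M : ℕ) : ZMod n)) = x.1 (i + ((2 * M : ℕ) : ZMod n)) + 1
    rw [e1, x.2.1], by rw [hrot, x.2.2]⟩
  have hg : ∀ t : ℕ, ∀ x : α, ((g ^ t) x).1 = fun i => x.1 (i + ((2 * M * t : ℕ) : ZMod n)) := by
    intro t
    induction t with
    | zero =>
      intro x
      rw [pow_zero]
      funext i
      change x.1 i = x.1 (i + ((2 * M * 0 : ℕ) : ZMod n))
      simp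
    | succ t ih =>
      intro x
      rw [pow_succ']
      change (g ((g ^ t) x)).1 = _
      funext i
      change ((g ^ t) x).1 (i + ((2 * M : ℕ) : ZMod n)) = _
      rw [ih]
      push_cast
      ring_nf
  have hg1 : g ^ p ^ s = 1 := by
    funext x
    apply Subtype.ext
    rw [hg]
    funext i
    have e4 : ((2 * M * p ^ s : ℕ) : ZMod n) = 0 := by
      have : 2 * M * p ^ s = n := by
        rw [hn, hm]
        ring
      rw [this]
      exact ZMod.natCast_self n
    rw [e4, add_zero]
    rfl
  have hmod := Equiv.Perm.card_fixedPoints_modEq hg1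
  have hne : 0 < Fintype.card g.fixedPoints := by
    rcases Nat.eq_zero_or_pos (Fintype.card g.fixedPoints) with h1 | h1
    · exfalso
      rw [h1, hα] at hmod
      have h2 : p ∣ Fintype.card {u : Um n m // f (b + u) = e} := (Nat.modEq_zero_iff_dvd).1 hmod
      have h3 : p ∣ Fintype.card (Um n m) := by
        rw [← hcard e]
        exact Dvd.dvd.mul_left h2 2
      have h4 : Fintype.card (Um n m) ∣ 2 ^ Fintype.card (ZMod n) := by
        have h5 := AddSubgroup.card_addSubgroup_dvd_card (Um n m)
        rw [Nat.card_eq_fintype_card, Nat.card_eq_fintype_card, Fintype.card_fun, ZMod.card 2] at h5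
        exact h5
      have h5 := hp.dvd_of_dvd_pow (h3.trans h4)
      rw [Nat.prime_dvd_prime_iff_eq hp Nat.prime_two] at h5
      exact hp2 h5
    · exact h1
  obtain ⟨⟨x, hx⟩⟩ := Fintype.card_pos_iff.1 hne
  refine ⟨x.1, ?_, x.2.2⟩
  have hx1 : ∀ i, x.1 (i + ((2 * M : ℕ) : ZMod n)) = x.1 i := by
    intro i
    have h1 : g x = x := hx
    have h2 := congrArg (fun y : α => y.1 i) h1
    exact h2
  refine anti_of (k := k) ?_ hx1
  intro i
  have h1 := x.2.1 i
  have e5 : ((M * (2 * k + 1) : ℕ) : ZMod n) = (m : ZMod n) := by rw [hm, hk]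
  rw [e5]
  exact h1

/-- two vectors of antiperiod `M` which agree on a fundamental domain up to a rotation -/
theorem eq_rot {M : ℕ} (hM : 0 < M) {x x' : ZMod n → ZMod 2}
    (h : ∀ i, x (i + (M : ZMod n)) = x i + 1) (h' : ∀ i, x' (i + (M : ZMod n)) = x' i + 1)
    (a : ZMod n) (ha : ∀ r : ℕ, r < M → x' r = x (r + a)) : x' = fun i => x (i + a) := by
  have h1 : ∀ k : ℕ, x' (k : ZMod n) = x (k + a) := by
    intro k
    induction k using Nat.strong_induction_on with
    | _ k ih =>
      rcases lt_or_ge k M with hk | hk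
      · exact ha k hk
      · have h2 := ih (k - M) (by omega)
        have e : (k : ZMod n) = ((k - M : ℕ) : ZMod n) + M := by
          rw [Nat.cast_sub hk]
          ring
        have e2 : ((k - M : ℕ) : ZMod n) + (M : ZMod n) + a =
            ((k - M : ℕ) : ZMod n) + a + M := by ring
        rw [e, h', e2, h, h2]
  funext i
  have h2 := h1 i.val
  rwa [ZMod.natCast_zmod_val] at h2

/-- the vectors of antiperiod one or two form one orbit -/
theorem orbit {M : ℕ} (hM : M = 1 ∨ M = 2) {x x' : ZMod n → ZMod 2}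
    (h : ∀ i, x (i + (M : ZMod n)) = x i + 1) (h' : ∀ i, x' (i + (M : ZMod n)) = x' i + 1) :
    ∃ a : ZMod n, x' = fun i => x (i + a) := by
  rcases hM with rfl | rfl
  · have h0 : x' 0 = x 0 ∨ x' 0 = x 0 + 1 := by
      generalize x' 0 = a
      generalize x 0 = b
      revert a b
      decide
    rcases h0 with h0 | h0
    · refine ⟨0, eq_rot one_pos h h' 0 fun r hr => ?_⟩
      have : r = 0 := by omega
      subst this
      simpa using h0
    · refine ⟨1, eq_rot one_pos h h' 1 fun r hr => ?_⟩
      have : r = 0 := by omega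
      subst this
      have h1 := h 0
      simp only [Nat.cast_one, zero_add] at h1
      simp only [Nat.cast_zero, zero_add]
      rw [h0, h1]
  · have h2 : x 2 = x 0 + 1 := by
      have := h 0
      simpa using this
    have h3 : x 3 = x 1 + 1 := by
      have := h 1
      have e : (1 : ZMod n) + ((2 : ℕ) : ZMod n) = 3 := by push_cast; ring
      rwa [e] at this
    have h4 : x 4 = x 0 := by
      have := h 2
      have e : (2 : ZMod n) + ((2 : ℕ) : ZMod n) = 4 := by push_cast; ring
      rw [e, h2, add_assoc, add_self2, add_zero] at this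
      exact this
    have h0 : (x' 0 = x 0 ∧ x' 1 = x 1) ∨ (x' 0 = x 1 ∧ x' 1 = x 2) ∨
        (x' 0 = x 2 ∧ x' 1 = x 3) ∨ (x' 0 = x 3 ∧ x' 1 = x 4) := by
      rw [h2, h3, h4]
      generalize x' 0 = a
      generalize x' 1 = a'
      generalize x 0 = b
      generalize x 1 = b'
      revert a a' b b'
      decide
    have key : ∀ a : ZMod n, x' 0 = x a → x' 1 = x (1 + a) → ∃ a : ZMod n, x' = fun i => x (i + a) := by
      intro a ha hb
      refine ⟨a, eq_rot two_pos h h' a fun r hr => ?_⟩
      interval_cases r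
      · simpa using ha
      · simpa using hb
    rcases h0 with h0 | h0 | h0 | h0
    · exact key 0 h0.1 (by simpa using h0.2)
    · exact key 1 h0.1 (by
        have e : (1 : ZMod n) + 1 = 2 := by norm_num
        rw [e]; exact h0.2)
    · exact key 2 h0.1 (by
        have e : (1 : ZMod n) + 2 = 3 := by norm_num
        rw [e]; exact h0.2)
    · exact key 3 h0.1 (by
        have e : (1 : ZMod n) + 3 = 4 := by norm_num
        rw [e]; exact h0.2)

end Pool.Agent.H228.Rot
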