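import Pool.Agent.H228.RotFin32b

/-!
# Rotation symmetric bent cubic forms: `32` divides the number of variables
-/

set_option autoImplicit false

namespace Pool.Agent.H228.Rot

open Finset

theorem bs_lt (j : ℕ) : bs j < 256 := by
  match j with
  | 0 => decide
  | 1 => decide
  | 2 => decide
  | 3 => decide
  | 4 => decide
  | _ + 5 => exact (by norm_num : (45 : ℕ) < 256)

theorem full_bit {u : ℕ} (hu : u < 256) : (2 ^ 256 - 1).testBit u = true := by
  rw [Nat.testBit_two_pow_sub_one]
  simp [hu]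

theorem vec_lo {j u i : ℕ} (hi : i < 8) (hu : u < 256) : vec j u i = z (u.testBit i) := by
  unfold vec Y
  have h : Nat.blt i 8 = true := by
    rw [Nat.blt_eq]
    exact hi
  rw [h, cond_true, X8_bit hi hu]

theorem vec_hi {j u i : ℕ} (hi : i < 8) (hu : u < 256) :
    vec j u (i + 8) = z (u.testBit i) + z ((bs j).testBit i) := by
  unfold vec Y
  have h : Nat.blt (i + 8) 8 = false := by
    rw [Bool.eq_false_iff]
    intro h
    rw [Nat.blt_eq] at h
    omega
  rw [h, cond_false, Nat.add_sub_cancel, Nat.testBit_xor, z_xor, X8_bit hi hu]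
  congr 1
  cases (bs j).testBit i
  · rw [cond_false, Nat.zero_testBit]
  · rw [cond_true, full_bit hu]

theorem lo_hi {r : ℕ} (hr : r < 16) : r < 8 ∨ ∃ i < 8, r = i + 8 := by
  rcases lt_or_ge r 8 with h | h
  · exact Or.inl h
  · exact Or.inr ⟨r - 8, by omega, by omega⟩

theorem vec_xor {j u v r : ℕ} (hr : r < 16) (hu : u < 256) (hv : v < 256) :
    vec j (u ^^^ v) r = vec j u r + z (v.testBit (r % 8)) := by
  have huv : u ^^^ v < 256 := Nat.xor_lt_two_pow (n := 8) hu hv
  rcases lo_hi hr with h | ⟨i, hi, rfl⟩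
  · rw [vec_lo h huv, vec_lo h hu, Nat.testBit_xor, z_xor, Nat.mod_eq_of_lt h]
  · have e : (i + 8) % 8 = i := by omega
    rw [vec_hi hi huv, vec_hi hi hu, Nat.testBit_xor, z_xor, e]
    ring

theorem vec_zero {j u r : ℕ} (hr : r < 16) (hu : u < 256) :
    vec j u r = vec j 0 r + z (u.testBit (r % 8)) := by
  have h := vec_xor (j := j) hr (by norm_num : 0 < 256) hu
  rwa [Nat.zero_xor] at h

/-- the functions with a representation in the basis -/
def Good (F : (ℕ → ZMod 2) → ZMod 2) : Prop :=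
  ∃ C Φ : ℕ → Bool, ∀ j < 6, ∀ u < 256, F (vec j u) = z (C j ^^ dot Φ (wc j u) 16)

theorem good_zero : Good 0 := by
  refine ⟨fun _ => false, fun _ => false, fun j _ u _ => ?_⟩
  rw [dot_false]
  rfl

theorem good_add (F G : (ℕ → ZMod 2) → ZMod 2) (hF : Good F) (hG : Good G) : Good (F + G) := by
  obtain ⟨C, Φ, h⟩ := hF
  obtain ⟨D, Ψ, h'⟩ := hG
  refine ⟨fun j => C j ^^ D j, fun i => Φ i ^^ Ψ i, fun j hj u hu => ?_⟩
  rw [Pi.add_apply, h j hj u hu, h' j hj u hu, dot_xor_left, ← z_xor]
  congr 1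
  beta_reduce
  generalize C j = a
  generalize D j = b
  generalize dot Φ (wc j u) 16 = c
  generalize dot Ψ (wc j u) 16 = d
  revert a b c d
  decide

theorem good_cor (s : ℕ) (hs : s < 16) (t : ℕ) (ht : t < 16) : Good (cor s t) := by
  refine ⟨fun j => (code s t).testBit (16 + j), fun i => (code s t).testBit i,
    fun j hj u hu => ?_⟩
  have h1 := T_bit j s t u 16
  rw [codes_ok s hs t ht j hj, Nat.testBit_xor, comb_bit _ j hj u hu 16 le_rfl] at h1
  unfold cor
  rw [← h1, Bool.xor_comm]
  congr 2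
  beta_reduce
  cases (code s t).testBit (16 + j)
  · rw [cond_false, Nat.zero_testBit]
  · rw [cond_true, full_bit hu]

theorem exists_nat (Φ : ℕ → Bool) (k : ℕ) : ∃ p < 2 ^ k, ∀ i < k, p.testBit i = Φ i := by
  refine ⟨Nat.ofBits (fun i : Fin k => Φ i), Nat.ofBits_lt_two_pow _, fun i hi => ?_⟩
  rw [Nat.testBit_ofBits_lt _ _ hi]

theorem andl_bit {p j v : ℕ} (hp : p < 65536) (l : List ℕ)
    (h : ∀ u ∈ l, dot (fun i => p.testBit i) (wc j (u ^^^ v) ^^^ wc j u) 16 = true) :
    (andl j v l).testBit p = true := by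
  induction l with
  | nil =>
    rw [andl, Nat.testBit_two_pow_sub_one]
    simp [hp]
  | cons u l ih =>
    rw [andl, Nat.testBit_and, ih (fun u' hu' => h u' (List.mem_cons_of_mem _ hu')),
      TT_bit hp _ _ le_rfl, h u (List.mem_cons_self), Bool.and_true]

theorem orl_bit {p j v N : ℕ} (hv : v < N)
    (h : (andl j (2 * v) [0, 1, 2, 4, 8, 16, 32, 64, 128]).testBit p = true) :
    (orl j N).testBit p = true := by
  induction N with
  | zero => omega
  | succ N ih =>
    rw [orl, Nat.testBit_or]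
    rcases Nat.lt_succ_iff_lt_or_eq.1 hv with h1 | h1
    · rw [ih h1, Bool.true_or]
    · rw [← h1, h, Bool.or_true]

theorem bs_odd (j : ℕ) : (bs j).testBit 0 = true := by
  match j with
  | 0 => decide
  | 1 => decide
  | 2 => decide
  | 3 => decide
  | 4 => decide
  | _ + 5 => exact (by decide : (45 : ℕ).testBit 0 = true)

/-- no function in the span of the correlation sums is complemented on all cosets -/
theorem fin16 {F : (ℕ → ZMod 2) → ZMod 2} (hF : Good F) :
    ∃ j < 6, ∀ v < 256, ¬ ∀ u < 256, F (vec j (u ^^^ v)) = F (vec j u) + 1 := by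
  by_contra hcon
  push Not at hcon
  obtain ⟨C, Φ, h⟩ := hF
  obtain ⟨p, hp, hpΦ⟩ := exists_nat Φ 16
  have hA : ∀ j < 6, (orl j 128).testBit p = true := by
    intro j hj
    obtain ⟨v, hv, h1⟩ := hcon j hj
    have h2 : ∀ u < 256, dot Φ (wc j (u ^^^ v) ^^^ wc j u) 16 = true := by
      intro u hu
      have h2 := h1 u hu
      rw [h j hj _ (Nat.xor_lt_two_pow (n := 8) hu hv), h j hj u hu, z_xor, z_xor] at h2
      rw [dot_xor_right]
      apply z_inj
      rw [z_xor]
      have e2 : z true = 1 := rfl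
      rw [e2]
      linear_combination h2 + z (dot Φ (wc j u) 16) * (by decide : (2 : ZMod 2) = 0)
    have e1 : ∀ d, dot (fun i => p.testBit i) d 16 = dot Φ d 16 := fun d =>
      dot_congr d 16 fun m hm => hpΦ m hm
    -- an even translation
    have h3 : ∃ w < 128, ∀ u < 256, wc j (u ^^^ (2 * w)) = wc j (u ^^^ v) := by
      rcases Nat.even_or_odd v with hev | hodd
      · obtain ⟨w, hw⟩ := hev
        refine ⟨w, by omega, fun u _ => ?_⟩
        have e : 2 * w = v := by omega
        rw [e]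
      · have hlt : v ^^^ bs j < 256 := Nat.xor_lt_two_pow (n := 8) hv (bs_lt j)
        have hpar : (v ^^^ bs j) % 2 = 0 := by
          have h4 : (v ^^^ bs j).testBit 0 = false := by
            rw [Nat.testBit_xor, bs_odd, Nat.testBit_zero]
            obtain ⟨r, hr⟩ := hodd
            have : v % 2 = 1 := by omega
            simp [this]
          rw [Nat.testBit_zero] at h4
          simp only [decide_eq_false_iff_not] at h4
          omega
        refine ⟨(v ^^^ bs j) / 2, by omega, fun u hu => ?_⟩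
        have e : 2 * ((v ^^^ bs j) / 2) = v ^^^ bs j := by omega
        rw [e, ← Nat.xor_assoc]
        exact sym j hj _ (Nat.xor_lt_two_pow (n := 8) hu hv)
    obtain ⟨w, hw, h4⟩ := h3
    refine orl_bit hw (andl_bit hp _ fun u hu => ?_)
    have hu' : u < 256 := by
      simp only [List.mem_cons, List.not_mem_nil, or_false] at hu
      omega
    rw [e1, h4 u hu']
    exact h2 u hu'
  have h4 : (orl 0 128 &&& orl 1 128 &&& orl 2 128 &&& orl 3 128 &&& orl 4 128 &&&
      orl 5 128).testBit p = true := by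
    simp only [Nat.testBit_and, hA 0 (by norm_num), hA 1 (by norm_num), hA 2 (by norm_num),
      hA 3 (by norm_num), hA 4 (by norm_num), hA 5 (by norm_num), Bool.and_true]
  rw [final_ok, Nat.zero_testBit] at h4
  exact absurd h4 (by decide)

theorem bs_ne (j : ℕ) : ∃ i < 8, (bs j).testBit i = true := by
  match j with
  | 0 => exact ⟨0, by decide, by decide⟩
  | 1 => exact ⟨0, by decide, by decide⟩
  | 2 => exact ⟨0, by decide, by decide⟩
  | 3 => exact ⟨0, by decide, by decide⟩
  | 4 => exact ⟨0, by decide, by decide⟩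
  | _ + 5 => exact ⟨0, by decide, (by decide : (45 : ℕ).testBit 0 = true)⟩

variable {n : ℕ} [NeZero n]

theorem emb_add16 {q : ℕ} (hn : n = 16 * q) (y : ℕ → ZMod 2) (i : ZMod n) :
    emb n y (i + ((16 : ℕ) : ZMod n)) = emb n y i := by
  have e : i + ((16 : ℕ) : ZMod n) = ((i.val + 16 : ℕ) : ZMod n) := by
    push_cast
    rw [ZMod.natCast_zmod_val]
  rw [e, emb_nat hn]
  unfold emb
  congr 1
  omega

/-- **Cubic forms, `16` times an odd number of variables.** -/
theorem cubic16 {c : Finset (ZMod n) → ZMod 2} (hc : ∀ S, c S ≠ 0 → S.card = 3)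
    (hrot : ∀ x, ev c (fun i => x (i + 1)) = ev c x) (hb : Bent (ev c)) {k : ℕ}
    (hn : n = 16 * (2 * k + 1)) : False := by
  have hn' : n = 2 * (8 * (2 * k + 1)) := by rw [hn]; ring
  have hodd : ∀ S, c S ≠ 0 → Odd S.card := fun S hS => by
    rw [hc S hS]
    decide
  have hinv := anf_inv hrot
  have h0 : ∀ x ∈ Um n (8 * (2 * k + 1)), ev c x = 0 := fun x hx =>
    ev_zero_on hn' hodd (fun a S => hinv a S) hx
  have hgood : Good (fun y => ev c (emb n y)) :=
    ev_span hn hc (fun a S => hinv a S) Good good_zero good_add good_cor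
  obtain ⟨j, hj, hcon⟩ := fin16 hgood
  have hm16 : (8 * (2 * k + 1)) % 16 = 8 := by omega
  -- the period `8` of a vector given by its first eight places
  have hper8 : ∀ (w : ℕ → ZMod 2), (∀ r < 8, w (r + 8) = w r) →
      emb n w ∈ Um n (8 * (2 * k + 1)) := by
    intro w hw i
    have e : i + ((8 * (2 * k + 1) : ℕ) : ZMod n) =
        ((i.val + 8 * (2 * k + 1) : ℕ) : ZMod n) := by
      push_cast
      rw [ZMod.natCast_zmod_val]
    rw [e, emb_nat hn]
    unfold emb
    have e1 : (i.val + 8 * (2 * k + 1)) % 16 = (i.val % 16 + 8) % 16 := by omega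
    rw [e1]
    have hr : i.val % 16 < 16 := Nat.mod_lt _ (by norm_num)
    generalize i.val % 16 = r at hr
    rcases lo_hi hr with h | ⟨i, hi, rfl⟩
    · rw [Nat.mod_eq_of_lt (by omega : r + 8 < 16), hw r h]
    · have e2 : (i + 8 + 8) % 16 = i := by omega
      rw [e2, hw i hi]
  have hbU : emb n (vec j 0) ∉ Um n (8 * (2 * k + 1)) := by
    intro h
    obtain ⟨i, hi, hbi⟩ := bs_ne j
    have h1 := h (i : ZMod n)
    have e : (i : ZMod n) + ((8 * (2 * k + 1) : ℕ) : ZMod n) =
        ((i + 8 * (2 * k + 1) : ℕ) : ZMod n) := by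
      push_cast
      rfl
    have e1 : (i + 8 * (2 * k + 1)) % 16 = i + 8 := by omega
    rw [e, emb_nat hn, emb_nat hn, e1, Nat.mod_eq_of_lt (by omega : i < 16),
      vec_hi hi (by norm_num), vec_lo hi (by norm_num), hbi] at h1
    have h2 : (1 : ZMod 2) = 0 := by
      have e2 : z true = 1 := rfl
      rw [e2] at h1
      linear_combination h1
    exact absurd h2 (by decide)
  obtain ⟨v, hvp, hv⟩ := core_gen (M := 8) (k := k) hn' (rot_all hrot) hb h0 (by
    intro x u hu v hv w hw
    rw [third hc, h0 _ (add_mem (add_mem hu hv) hw), h0 _ (add_mem hu hv), h0 _ (add_mem hu hw),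
      h0 _ (add_mem hv hw), h0 _ hu, h0 _ hv, h0 _ hw]
    simp) hbU (fun i => emb_add16 hn _ i)
  obtain ⟨v0, hv0, hv0b⟩ := exists_nat (fun i => decide (v (i : ZMod n) = 1)) 8
  have hzv : ∀ i < 8, z (v0.testBit i) = v (i : ZMod n) := by
    intro i hi
    rw [hv0b i hi]
    generalize v (i : ZMod n) = x
    revert x
    decide
  have hvk : ∀ r : ℕ, v (r : ZMod n) = v ((r % 8 : ℕ) : ZMod n) := by
    intro r
    have h1 := per_mul hvp (r / 8) ((r % 8 : ℕ) : ZMod n)
    rw [← h1]
    congr 1
    have e : r = r % 8 + 8 * (r / 8) := (Nat.mod_add_div r 8).symm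
    conv_lhs => rw [e]
    push_cast
    rfl
  refine hcon v0 hv0 fun u hu => ?_
  have hw : emb n (fun r => z (u.testBit (r % 8))) ∈ Um n (8 * (2 * k + 1)) := by
    refine hper8 _ fun r hr => ?_
    have e : (r + 8) % 8 = r % 8 := by omega
    simp only [e]
  have e1 : emb n (vec j u) = emb n (vec j 0) + emb n (fun r => z (u.testBit (r % 8))) := by
    funext i
    change vec j u (i.val % 16) = vec j 0 (i.val % 16) + z (u.testBit (i.val % 16 % 8))
    exact vec_zero (Nat.mod_lt _ (by norm_num)) hu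
  have e2 : emb n (vec j (u ^^^ v0)) = emb n (vec j u) + v := by
    funext i
    change vec j (u ^^^ v0) (i.val % 16) = vec j u (i.val % 16) + v i
    rw [vec_xor (Nat.mod_lt _ (by norm_num)) hu hv0, hzv _ (Nat.mod_lt _ (by norm_num))]
    have h1 := hvk i.val
    rw [ZMod.natCast_zmod_val] at h1
    rw [h1]
    have e3 : i.val % 16 % 8 = i.val % 8 := by omega
    rw [e3]
  change ev c (emb n (vec j (u ^^^ v0))) = ev c (emb n (vec j u)) + 1
  rw [e2, e1]
  exact hv _ hw

end Pool.Agent.H228.Rot
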