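import Pool.Agent.H228.RotFin32

/-!
# The finite check for the period 16: the final check
-/

set_option autoImplicit false

namespace Pool.Agent.H228.Rot

open Finset

/-- the combination for all values of the parameters simultaneously -/
def TT (d : ℕ) : ℕ → ℕ
  | 0 => 0
  | i + 1 => cond (d.testBit i) (X 16 i ^^^ TT d i) (TT d i)

theorem TT_bit {p : ℕ} (hp : p < 65536) (d k : ℕ) (hk : k ≤ 16) :
    (TT d k).testBit p = dot (fun i => p.testBit i) d k := by
  induction k with
  | zero => rw [TT, dot, Nat.zero_testBit]
  | succ k ih =>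
    rw [TT, dot, ← ih (by omega)]
    cases d.testBit k
    · simp
    · simp [X16_bit (by omega : k < 16) hp]

/-- the conjunction over the base points -/
def andl (j v : ℕ) : List ℕ → ℕ
  | [] => 2 ^ 65536 - 1
  | u :: l => TT (wc j (u ^^^ v) ^^^ wc j u) 16 &&& andl j v l

/-- the disjunction over the translations by even numbers -/
def orl (j : ℕ) : ℕ → ℕ
  | 0 => 0
  | v + 1 => orl j v ||| andl j (2 * v) [0, 1, 2, 4, 8, 16, 32, 64, 128]

theorem final_ok :
    orl 0 128 &&& orl 1 128 &&& orl 2 128 &&& orl 3 128 &&& orl 4 128 &&& orl 5 128 = 0 := by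
  decide +kernel

end Pool.Agent.H228.Rot
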