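import Pool.Agent.H228.RotFin

/-!
# A general coset version of the averaging argument
-/

set_option autoImplicit false

namespace Pool.Agent.H228.Rot

open Finset

variable {n : ℕ} [NeZero n]

theorem core_gen {M k : ℕ} (hn : n = 2 * (M * (2 * k + 1)))
    {f : (ZMod n → ZMod 2) → ZMod 2} (hrot : ∀ (a : ZMod n) x, f (fun i => x (i + a)) = f x)
    (hb : Bent f) (h0 : ∀ x ∈ Um n (M * (2 * k + 1)), f x = 0)
    (h3 : ∀ x, ∀ u ∈ Um n (M * (2 * k + 1)), ∀ v ∈ Um n (M * (2 * k + 1)),
      ∀ w ∈ Um n (M * (2 * k + 1)), f (x + u + v + w) + f (x + u + v) + f (x + u + w) +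
        f (x + v + w) + f (x + u) + f (x + v) + f (x + w) + f x = 0)
    {b : ZMod n → ZMod 2} (hbU : b ∉ Um n (M * (2 * k + 1)))
    (hbp : ∀ i, b (i + ((2 * M : ℕ) : ZMod n)) = b i) :
    ∃ v : ZMod n → ZMod 2, (∀ i, v (i + (M : ZMod n)) = v i) ∧
      ∀ w ∈ Um n (M * (2 * k + 1)), f (b + w + v) = f (b + w) + 1 := by
  set m : ℕ := M * (2 * k + 1) with hm
  have hsum : ∑ u : Um n m, sg (f (b + u)) = 0 := coset_zero hb (Um n m) (card_Um hn) h0 hbU
  obtain ⟨u0, hu0⟩ := quadratic (fun u : Um n m => f (b + u)) (by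
    intro u v w
    have h1 := h3 b u u.2 v v.2 w w.2
    simp only [AddSubgroup.coe_add, AddSubgroup.coe_zero, add_zero]
    simp only [← add_assoc]
    exact h1) hsum
  have h1 : ∀ w ∈ Um n m, f (b + w + u0) = f (b + w) + 1 := by
    intro w hw
    have h4 := hu0 ⟨w, hw⟩
    simp only [AddSubgroup.coe_add, ← add_assoc] at h4
    exact h4
  have hbj : ∀ (j : ℕ) i, b (i + ((2 * M * j : ℕ) : ZMod n)) = b i := fun j => per_mul hbp j
  have h2 : ∀ (j : ℕ), ∀ w ∈ Um n m,
      f (b + w + fun i => (u0 : ZMod n → ZMod 2) (i + ((2 * M * j : ℕ) : ZMod n))) =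
        f (b + w) + 1 := by
    intro j w hw
    set a : ZMod n := ((2 * M * j : ℕ) : ZMod n) with ha
    have hw' : (fun i => w (i - a)) ∈ Um n m := by
      intro i
      change w (i + (m : ZMod n) - a) = w (i - a)
      have e : i + (m : ZMod n) - a = i - a + m := by ring
      rw [e]
      exact hw _
    have h4 := h1 _ hw'
    have h5 := hrot a ((b + fun i => w (i - a)) + u0)
    have h6 := hrot a (b + fun i => w (i - a))
    have e1 : (fun i => ((b + fun i => w (i - a)) + (u0 : ZMod n → ZMod 2)) (i + a)) =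
        b + w + fun i => (u0 : ZMod n → ZMod 2) (i + a) := by
      funext i
      simp only [Pi.add_apply, add_sub_cancel_right]
      rw [ha, hbj]
    have e2 : (fun i => (b + fun i => w (i - a)) (i + a)) = b + w := by
      funext i
      simp only [Pi.add_apply, add_sub_cancel_right]
      rw [ha, hbj]
    rw [e1] at h5
    rw [e2] at h6
    rw [h5, h6]
    exact h4
  -- the sum of the rotations
  have hum : ∀ i, (u0 : ZMod n → ZMod 2) (i + (m : ZMod n)) = (u0 : ZMod n → ZMod 2) i := u0.2
  set U : ℕ → (ZMod n → ZMod 2) := fun t i =>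
    ∑ j ∈ range t, (u0 : ZMod n → ZMod 2) (i + ((2 * M * j : ℕ) : ZMod n)) with hU
  have hUm : ∀ t i, U t (i + (m : ZMod n)) = U t i := by
    intro t i
    simp only [hU]
    refine sum_congr rfl fun j _ => ?_
    have e : i + (m : ZMod n) + ((2 * M * j : ℕ) : ZMod n) =
        i + ((2 * M * j : ℕ) : ZMod n) + m := by ring
    rw [e, hum]
  have h4 : ∀ t : ℕ, ∀ w ∈ Um n m, f (b + w + U t) = f (b + w) + t := by
    intro t
    induction t with
    | zero =>
      intro w _
      have e : U 0 = 0 := by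
        funext i
        simp [hU]
      rw [e]
      simp
    | succ t ih =>
      intro w hw
      have e : b + w + U (t + 1) = (b + (w + U t)) + fun i =>
          (u0 : ZMod n → ZMod 2) (i + ((2 * M * t : ℕ) : ZMod n)) := by
        funext i
        simp only [hU, Pi.add_apply, sum_range_succ]
        ring
      rw [e, h2 t _ (add_mem hw (hUm t)), ← add_assoc, ih w hw]
      push_cast
      ring
  have h5 : ∀ i, U (2 * k + 1) (i + ((2 * M : ℕ) : ZMod n)) = U (2 * k + 1) i := by
    intro i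
    simp only [hU]
    have e1 : ∀ j : ℕ, i + ((2 * M : ℕ) : ZMod n) + ((2 * M * j : ℕ) : ZMod n) =
        i + ((2 * M * (j + 1) : ℕ) : ZMod n) := by
      intro j
      push_cast
      ring
    simp_rw [e1]
    have e2 := sum_range_succ (fun j => (u0 : ZMod n → ZMod 2) (i + ((2 * M * j : ℕ) : ZMod n)))
      (2 * k + 1)
    have e3 := sum_range_succ' (fun j => (u0 : ZMod n → ZMod 2) (i + ((2 * M * j : ℕ) : ZMod n)))
      (2 * k + 1)
    rw [e2] at e3
    have e4 : ((2 * M * (2 * k + 1) : ℕ) : ZMod n) = 0 := by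
      have : 2 * M * (2 * k + 1) = n := by
        rw [hn, hm]
        ring
      rw [this]
      exact ZMod.natCast_self n
    rw [e4] at e3
    simp only [mul_zero, Nat.cast_zero, add_zero] at e3
    exact (add_right_cancel e3).symm
  refine ⟨U (2 * k + 1), ?_, ?_⟩
  · intro i
    have h6 := per_mul h5 k (i + (M : ZMod n))
    have e : i + (M : ZMod n) + ((2 * M * k : ℕ) : ZMod n) = i + (m : ZMod n) := by
      rw [hm]
      push_cast
      ring
    rw [e, hUm] at h6
    exact h6.symm
  · intro w hw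
    rw [h4 _ w hw]
    push_cast
    have h6 : (2 : ZMod 2) = 0 := by decide
    rw [h6, zero_mul, zero_add]

/-- reading a sequence of period `16` on `ZMod n` -/
def emb (n : ℕ) (y : ℕ → ZMod 2) : ZMod n → ZMod 2 := fun i => y (i.val % 16)

theorem emb_nat {q : ℕ} (hn : n = 16 * q) (y : ℕ → ZMod 2) (k : ℕ) :
    emb n y (k : ZMod n) = y (k % 16) := by
  unfold emb
  rw [ZMod.val_natCast, Nat.mod_mod_of_dvd _ (Dvd.intro q hn.symm)]

/-- the triple correlations of the vectors of period `16` -/
theorem triple16 {q : ℕ} (hn : n = 16 * q) (y : ℕ → ZMod 2) (s t : ZMod n) :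
    ∑ a : ZMod n, emb n y a * emb n y (s + a) * emb n y (t + a) =
      q * ∑ r ∈ range 16, y r * y ((r + s.val % 16) % 16) * y ((r + t.val % 16) % 16) := by
  rw [sum_zmod]
  have h1 : ∀ k : ℕ, emb n y (k : ZMod n) * emb n y (s + k) * emb n y (t + k) =
      y (k % 16) * y ((k + s.val) % 16) * y ((k + t.val) % 16) := by
    intro k
    have e1 : s + (k : ZMod n) = ((k + s.val : ℕ) : ZMod n) := by
      push_cast
      rw [ZMod.natCast_zmod_val, add_comm]
    have e2 : t + (k : ZMod n) = ((k + t.val : ℕ) : ZMod n) := by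
      push_cast
      rw [ZMod.natCast_zmod_val, add_comm]
    rw [e1, e2, emb_nat hn, emb_nat hn, emb_nat hn]
  simp_rw [h1]
  have h2 : range n = range (16 * q) := by rw [← hn]
  rw [h2, sum_per (N := 16) (fun k => by
    have e0 : (k + 16) % 16 = k % 16 := by omega
    have e1 : (k + 16 + s.val) % 16 = (k + s.val) % 16 := by omega
    have e2 : (k + 16 + t.val) % 16 = (k + t.val) % 16 := by omega
    rw [e0, e1, e2]) q]
  refine congrArg (fun z : ZMod 2 => (q : ZMod 2) * z) (sum_congr rfl fun r hr => ?_)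
  rw [mem_range] at hr
  have e0 : r % 16 = r := Nat.mod_eq_of_lt hr
  have e1 : (r + s.val % 16) % 16 = (r + s.val) % 16 := by omega
  have e2 : (r + t.val % 16) % 16 = (r + t.val) % 16 := by omega
  rw [e0, e1, e2]

/-- the correlation sums on `16` places -/
def cor (s t : ℕ) (y : ℕ → ZMod 2) : ZMod 2 :=
  ∑ r ∈ range 16, y r * y ((r + s) % 16) * y ((r + t) % 16)

/-- a rotation symmetric cubic form on the vectors of period `16` -/
theorem ev_span {k : ℕ} (hn : n = 16 * (2 * k + 1)) {c : Finset (ZMod n) → ZMod 2}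
    (hc : ∀ S, c S ≠ 0 → S.card = 3) (hinv : ∀ (a : ZMod n) S, c (tr a S) = c S)
    (P : ((ℕ → ZMod 2) → ZMod 2) → Prop) (P0 : P 0) (Padd : ∀ F G, P F → P G → P (F + G))
    (Pcor : ∀ s < 16, ∀ t < 16, P (cor s t)) : P (fun y => ev c (emb n y)) := by
  have hodd : ∀ S, c S ≠ 0 → Odd S.card := fun S hS => by
    rw [hc S hS]
    decide
  have h1 : (fun y => ev c (emb n y)) =
      ∑ S ∈ univ.filter (fun S : Finset (ZMod n) => (0 : ZMod n) ∈ S),
        fun y => c S * ∑ a : ZMod n, ∏ j ∈ S, emb n y (j + a) := by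
    funext y
    rw [ev_eq_sum hodd hinv, Finset.sum_apply]
  rw [h1]
  refine Finset.sum_induction _ P Padd P0 fun S hS => ?_
  rw [mem_filter] at hS
  by_cases h0 : c S = 0
  · have e : (fun y => c S * ∑ a : ZMod n, ∏ j ∈ S, emb n y (j + a)) = 0 := by
      funext y
      rw [h0, zero_mul]
      rfl
    rw [e]
    exact P0
  have hc1 : c S = 1 := eq_one_of_ne_zero h0
  have h1 : (S.erase 0).card = 2 := by
    rw [card_erase_of_mem hS.2, hc S h0]
  obtain ⟨s, t, hst, he⟩ := card_eq_two.1 h1
  have h2 : S = insert 0 {s, t} := by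
    rw [← he, insert_erase hS.2]
  have hs : s ≠ 0 := by
    have : s ∈ S.erase 0 := by rw [he]; simp
    exact ne_of_mem_erase this
  have ht : t ≠ 0 := by
    have : t ∈ S.erase 0 := by rw [he]; simp
    exact ne_of_mem_erase this
  have h3 : ∀ z : ZMod n → ZMod 2, ∀ a : ZMod n, ∏ j ∈ S, z (j + a) =
      z a * z (s + a) * z (t + a) := by
    intro z a
    rw [h2, prod_insert (by simp [hs.symm, ht.symm]), prod_insert (by simp [hst]), prod_singleton,
      zero_add, mul_assoc]
  have e : (fun y => c S * ∑ a : ZMod n, ∏ j ∈ S, emb n y (j + a)) =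
      cor (s.val % 16) (t.val % 16) := by
    funext y
    simp_rw [h3]
    rw [triple16 hn, hc1, one_mul]
    unfold cor
    push_cast
    have h6 : (2 : ZMod 2) = 0 := by decide
    rw [h6, zero_mul, zero_add, one_mul]
  rw [e]
  exact Pcor _ (Nat.mod_lt _ (by norm_num)) _ (Nat.mod_lt _ (by norm_num))

end Pool.Agent.H228.Rot
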